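import Pool.Agent.LFT.Stmts

/-!
# The averaging argument (squad LFT, module Avg)
-/

namespace Pool.Agent.LFT

open MeasureTheory Set
open scoped RealInnerProductSpace ENNReal

namespace Avg

lemma tent_cont (R : ℝ) : Continuous (tent R) := by
  unfold tent
  fun_prop

lemma tent_nonneg (R x : ℝ) : 0 ≤ tent R x := le_max_left _ _

lemma tent_le_one {R : ℝ} (hR : 0 < R) (x : ℝ) : tent R x ≤ 1 := by
  unfold tent
  refine max_le zero_le_one ?_
  have : 0 ≤ |x| / R := div_nonneg (abs_nonneg _) hR.le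
  linarith

lemma tent_eq_zero {R x : ℝ} (hR : 0 < R) (hx : R ≤ |x|) : tent R x = 0 := by
  unfold tent
  refine max_eq_left ?_
  have : 1 ≤ |x| / R := by rwa [le_div_iff₀ hR, one_mul]
  linarith

lemma tent_half {R x : ℝ} (hR : 0 < R) (hx : |x| ≤ R / 2) : 1 / 2 ≤ tent R x := by
  unfold tent
  refine le_max_of_le_right ?_
  have : |x| / R ≤ 1 / 2 := by
    rw [div_le_iff₀ hR]
    linarith
  linarith

lemma tent_mul_integrable {R : ℝ} (hR : 0 < R) {f : ℝ → ℝ} (hf : Integrable f) :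
    Integrable (fun x => tent R x * f x) := by
  refine Integrable.mono hf ((tent_cont R).aestronglyMeasurable.mul hf.aestronglyMeasurable) ?_
  refine Filter.Eventually.of_forall fun x => ?_
  rw [norm_mul, Real.norm_eq_abs, abs_of_nonneg (tent_nonneg R x)]
  calc tent R x * ‖f x‖ ≤ 1 * ‖f x‖ := by
        gcongr
        exact tent_le_one hR x
    _ = ‖f x‖ := one_mul _

lemma integrable_ind (C p q : ℝ) : Integrable (fun x => (Icc p q).indicator (fun _ => C) x) := by
  rw [integrable_indicator_iff measurableSet_Icc]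
  exact integrableOn_const (by simp)

lemma integral_ind (C : ℝ) {p q : ℝ} (hpq : p ≤ q) :
    ∫ x, (Icc p q).indicator (fun _ => C) x = (q - p) * C := by
  rw [integral_indicator measurableSet_Icc, integral_const]
  simp [Measure.real, hpq]

theorem core {ι : Type*} (c D d δ α β : ℝ) (hc : 1 < c) (hD : 0 < D) (hd : 0 < d) (hδ : 0 < δ)
    (hαβ : α < β) (xc : ι → ℝ) (k g : ι → ℝ → ℝ)
    (H : ∀ R > 0, ∃ S : Finset ι,
      (∀ i ∈ S, Integrable (k i) ∧ Integrable (g i) ∧ (∀ x, 0 ≤ k i x) ∧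
        (∀ x, D ≤ |x - xc i| → k i x = 0) ∧
        (¬ (|xc i| ≤ D ∨ |xc i - R| ≤ D ∨ |xc i + R| ≤ D) →
          ∫ x, tent R x * (g i x - (c - 1) * k i x) ≤ 0) ∧
        ∫ x, tent R x * (g i x - (c - 1) * k i x) ≤
          (D / R) * (2 * (c - 1)) * ∫ x, k i x) ∧
      (∀ S' ⊆ S, ∀ x, ∑ i ∈ S', k i x ≤ d) ∧
      (∀ x, |x| ≤ R → 0 ≤ ∑ i ∈ S, (g i x - (c - 1) * k i x)) ∧
      (∀ x, |x| ≤ R → x ∈ Icc α β → δ ≤ ∑ i ∈ S, (g i x - (c - 1) * k i x))) : False := by
  classical
  set C : ℝ := D * (2 * (c - 1)) * (12 * D * d) with hC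
  have hCpos : 0 < C := by
    have : 0 < c - 1 := by linarith
    positivity
  set m : ℝ := δ / 2 * (β - α) with hm
  have hmpos : 0 < m := by
    have : 0 < β - α := by linarith
    positivity
  obtain ⟨R, hR1, hR2⟩ : ∃ R : ℝ, 2 * (|α| + |β|) + 1 ≤ R ∧ C / m < R := by
    refine ⟨max (2 * (|α| + |β|) + 1) (C / m + 1), le_max_left _ _, ?_⟩
    exact lt_of_lt_of_le (by linarith) (le_max_right _ _)
  have hR : 0 < R := by
    have := abs_nonneg α
    have := abs_nonneg β
    linarith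
  obtain ⟨S, hS, hk, hF0, hF1⟩ := H R hR
  -- lower bound
  have hint : ∀ i ∈ S, Integrable (fun x => tent R x * (g i x - (c - 1) * k i x)) := by
    intro i hi
    refine tent_mul_integrable hR ?_
    exact (hS i hi).2.1.sub ((hS i hi).1.const_mul _)
  have hlow : m ≤ ∫ x, ∑ i ∈ S, tent R x * (g i x - (c - 1) * k i x) := by
    have h1 : ∫ x, (Icc α β).indicator (fun _ => δ / 2) x = m := by
      rw [integral_ind _ hαβ.le, hm]
      ring
    rw [← h1]
    refine integral_mono (integrable_ind _ _ _) (integrable_finsetSum _ hint) ?_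
    intro x
    show (Icc α β).indicator (fun _ => δ / 2) x ≤ ∑ i ∈ S, tent R x * (g i x - (c - 1) * k i x)
    rw [← Finset.mul_sum]
    by_cases hx : x ∈ Icc α β
    · rw [indicator_of_mem hx]
      have habs : |x| ≤ |α| + |β| := by
        rw [abs_le]
        constructor
        · have := neg_abs_le α
          have := abs_nonneg β
          linarith [hx.1]
        · have := le_abs_self β
          have := abs_nonneg α
          linarith [hx.2]
      have hxR : |x| ≤ R / 2 := by linarith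
      have h2 := hF1 x (by linarith) hx
      have h3 := tent_half hR hxR
      nlinarith [mul_le_mul h3 h2 hδ.le (tent_nonneg R x)]
    · rw [indicator_of_notMem hx]
      by_cases hxR : |x| ≤ R
      · exact mul_nonneg (tent_nonneg R x) (hF0 x hxR)
      · rw [tent_eq_zero hR (not_le.mp hxR).le, zero_mul]
  -- upper bound
  set N : Finset ι := S.filter (fun i => |xc i| ≤ D ∨ |xc i - R| ≤ D ∨ |xc i + R| ≤ D) with hN
  have hup : ∫ x, ∑ i ∈ S, tent R x * (g i x - (c - 1) * k i x) ≤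
      (D / R) * (2 * (c - 1)) * ∑ i ∈ N, ∫ x, k i x := by
    rw [integral_finsetSum _ hint, Finset.mul_sum, hN, Finset.sum_filter]
    refine Finset.sum_le_sum fun i hi => ?_
    split_ifs with hnear
    · exact (hS i hi).2.2.2.2.2
    · exact (hS i hi).2.2.2.2.1 hnear
  have hNS : N ⊆ S := Finset.filter_subset _ _
  have hsum : ∑ i ∈ N, ∫ x, k i x ≤ 12 * D * d := by
    rw [← integral_finsetSum _ (fun i hi => (hS i (hNS hi)).1)]
    have h2 : ∫ x, ((Icc (-(2 * D)) (2 * D)).indicator (fun _ => d) x +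
        (Icc (R - 2 * D) (R + 2 * D)).indicator (fun _ => d) x +
        (Icc (-R - 2 * D) (-R + 2 * D)).indicator (fun _ => d) x) = 12 * D * d := by
      have e1 := integral_add ((integrable_ind d (-(2 * D)) (2 * D)).add
        (integrable_ind d (R - 2 * D) (R + 2 * D))) (integrable_ind d (-R - 2 * D) (-R + 2 * D))
      have e2 := integral_add (integrable_ind d (-(2 * D)) (2 * D))
        (integrable_ind d (R - 2 * D) (R + 2 * D))
      simp only [Pi.add_apply] at e1
      rw [e1, e2, integral_ind _ (by linarith), integral_ind _ (by linarith),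
        integral_ind _ (by linarith)]
      ring
    rw [← h2]
    refine integral_mono (integrable_finsetSum _ (fun i hi => (hS i (hNS hi)).1))
      (((integrable_ind _ _ _).add (integrable_ind _ _ _)).add (integrable_ind _ _ _)) ?_
    intro x
    show ∑ i ∈ N, k i x ≤ (Icc (-(2 * D)) (2 * D)).indicator (fun _ => d) x +
        (Icc (R - 2 * D) (R + 2 * D)).indicator (fun _ => d) x +
        (Icc (-R - 2 * D) (-R + 2 * D)).indicator (fun _ => d) x
    have i1 : 0 ≤ (Icc (-(2 * D)) (2 * D)).indicator (fun _ => d) x :=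
      indicator_nonneg (fun _ _ => hd.le) _
    have i2 : 0 ≤ (Icc (R - 2 * D) (R + 2 * D)).indicator (fun _ => d) x :=
      indicator_nonneg (fun _ _ => hd.le) _
    have i3 : 0 ≤ (Icc (-R - 2 * D) (-R + 2 * D)).indicator (fun _ => d) x :=
      indicator_nonneg (fun _ _ => hd.le) _
    have hle : ∑ i ∈ N, k i x ≤ d := hk N hNS x
    by_cases h1 : x ∈ Icc (-(2 * D)) (2 * D)
    · rw [indicator_of_mem h1]
      linarith
    by_cases h2 : x ∈ Icc (R - 2 * D) (R + 2 * D)
    · rw [indicator_of_mem h2]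
      linarith
    by_cases h3 : x ∈ Icc (-R - 2 * D) (-R + 2 * D)
    · rw [indicator_of_mem h3]
      linarith
    have hz : ∑ i ∈ N, k i x = 0 := by
      refine Finset.sum_eq_zero fun i hi => ?_
      have hi' := hi
      rw [hN, Finset.mem_filter] at hi'
      refine (hS i (hNS hi)).2.2.2.1 x ?_
      by_contra hlt
      rw [not_le, abs_lt] at hlt
      rcases hi'.2 with h | h | h
      · rw [abs_le] at h
        exact h1 ⟨by linarith [h.1, h.2, hlt.1, hlt.2], by linarith [h.1, h.2, hlt.1, hlt.2]⟩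
      · rw [abs_le] at h
        exact h2 ⟨by linarith [h.1, h.2, hlt.1, hlt.2], by linarith [h.1, h.2, hlt.1, hlt.2]⟩
      · rw [abs_le] at h
        exact h3 ⟨by linarith [h.1, h.2, hlt.1, hlt.2], by linarith [h.1, h.2, hlt.1, hlt.2]⟩
    rw [hz]
    linarith
  have hfin : m ≤ (D / R) * (2 * (c - 1)) * (12 * D * d) := by
    refine hlow.trans (hup.trans ?_)
    have : 0 ≤ (D / R) * (2 * (c - 1)) := by
      have : 0 < c - 1 := by linarith
      positivity
    exact mul_le_mul_of_nonneg_left hsum this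
  have h5 : (D / R) * (2 * (c - 1)) * (12 * D * d) = C / R := by
    rw [hC]
    field_simp
  rw [h5, le_div_iff₀ hR] at hfin
  rw [div_lt_iff₀ hmpos] at hR2
  nlinarith

end Avg

open Avg in
theorem avg_proof (hTent : Stmt_Tent) (hLB : Stmt_LineBound) (hCover : Stmt_Cover) :
    Stmt_Avg := by
  classical
  intro 𝒞 u n a d c D hON hL hc hDet
  have hd : 0 < d := hL.pos
  have hcd : 0 < c * d := by positivity
  by_contra hlt
  rw [not_lt] at hlt
  -- choice of the data
  have hDet' : ∀ K : Set E, ∃ (xc h : ℝ) (lo up r : ℝ → ℝ), K ∈ 𝒞 →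
      Detour u n c K xc h lo up r ∧ h ≤ D := by
    intro K
    by_cases hK : K ∈ 𝒞
    · obtain ⟨xc, h, lo, up, r, h1, h2⟩ := hDet K hK
      exact ⟨xc, h, lo, up, r, fun _ => ⟨h1, h2⟩⟩
    · exact ⟨0, 0, fun _ => 0, fun _ => 0, fun _ => 0, fun h => absurd h hK⟩
  choose xc h lo up r hdat using hDet'
  set k : Set E → ℝ → ℝ := fun K => kf (xc K) (h K) (lo K) (up K) with hkdef
  set g : Set E → ℝ → ℝ := fun K => gf (xc K) (h K) (lo K) (up K) (r K) with hgdef
  set D' : ℝ := max D 1 with hD'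
  have hD'pos : 0 < D' := lt_of_lt_of_le one_pos (le_max_right _ _)
  have hhD : ∀ K ∈ 𝒞, h K ≤ D' := fun K hK => ((hdat K hK).2).trans (le_max_left _ _)
  obtain ⟨hB1, hB2, hB3⟩ := hLB 𝒞 u n a d c xc h lo up r hON hL (fun K hK => (hdat K hK).1)
  -- common part of the two cases
  have key : ∀ (δ α β : ℝ), 0 < δ → α < β →
      (∀ R > 0, ∃ S : Finset (Set E), (∀ K ∈ S, K ∈ 𝒞) ∧
        (∀ x, |x| ≤ R → 0 ≤ ∑ i ∈ S, (g i x - (c - 1) * k i x)) ∧
        (∀ x, |x| ≤ R → x ∈ Icc α β → δ ≤ ∑ i ∈ S, (g i x - (c - 1) * k i x))) → False := by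
    intro δ α β hδ hαβ H
    refine core c D' d δ α β hc hD'pos hd hδ hαβ xc k g ?_
    intro R hR
    obtain ⟨S, hSC, hS0, hS1⟩ := H R hR
    refine ⟨S, ?_, ?_, hS0, hS1⟩
    · intro K hK
      have hKC := hSC K hK
      obtain ⟨t1, t2, t3, t4, t5, t6⟩ := hTent u n c D' R K (xc K) (h K) (lo K) (up K) (r K) hON hc
        hR (hdat K hKC).1 (hhD K hKC)
      refine ⟨t1, t2, t3, ?_, t5, t6⟩
      intro x hx
      show kf (xc K) (h K) (lo K) (up K) x = 0
      unfold kf
      rw [if_neg]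
      have := hhD K hKC
      linarith
    · intro S' hS' x
      exact hB1 S' (fun K hK => hSC K (hS' hK)) x
  have hgk : ∀ (S : Finset (Set E)) (x : ℝ), ∑ i ∈ S, (g i x - (c - 1) * k i x) =
      ∑ i ∈ S, g i x - (c - 1) * ∑ i ∈ S, k i x := by
    intro S x
    rw [Finset.sum_sub_distrib, Finset.mul_sum]
  have hc1 : 0 < c - 1 := by linarith
  have hbase : ∀ (S : Finset (Set E)) (x s : ℝ),
      crossLen 𝒞 n a d ≤ ENNReal.ofReal (d + ∑ K ∈ S, g K x - s) →
      (c - 1) * d + s ≤ ∑ K ∈ S, g K x := by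
    intro S x s hs
    have h1 := hlt.trans hs
    have h2 : c * d ≤ d + ∑ K ∈ S, g K x - s := by
      by_contra hcon
      rw [not_le] at hcon
      exact absurd h1 (not_le.mpr ((ENNReal.ofReal_lt_ofReal_iff hcd).mpr hcon))
    linarith
  rcases hCover 𝒞 u n a d hON hL with ⟨x0, y0, ε, hε, hy1, hy2, hbox⟩ | ⟨K0, hK0, p, hp, q, hq, hpq, hpT, hqT⟩
  · -- an uncovered box
    refine key ((c - 1) * (2 * ε)) (x0 - ε / 2) (x0 + ε / 2) (by positivity) (by linarith) ?_
    intro R hR
    obtain ⟨S, hSC, hS2, hS3, hS4⟩ := hB3 R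
    refine ⟨S, hSC, ?_, ?_⟩
    · intro x hx
      rw [hgk]
      have h1 := hbase S x 0 (by simpa using hS3 x hx)
      have h2 : ∑ K ∈ S, k K x ≤ d := hB1 S hSC x
      nlinarith [mul_le_mul_of_nonneg_left h2 hc1.le]
    · intro x hx hxI
      rw [hgk]
      have h1 := hbase S x 0 (by simpa using hS3 x hx)
      have h2 : ∑ K ∈ S, k K x ≤ d - 2 * ε := by
        refine hB2 S hSC x y0 ε hε hy1 hy2 ?_
        intro y hy K hK
        refine hbox x y ?_ hy K hK
        rw [abs_lt]
        exact ⟨by linarith [hxI.1], by linarith [hxI.2]⟩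
      nlinarith [mul_le_mul_of_nonneg_left h2 hc1.le]
  · -- a body with a flat top
    obtain ⟨t1, t2, δ, ht1, ht12, ht2, hδ, hsave⟩ := (hdat K0 hK0).1.topsave (a + d) p q hp hq hpq
      hpT hqT (fun z hz => (hL.strip K0 hK0 z hz).2)
    refine key δ (xc K0 + (2 * t1 + t2) / 3) (xc K0 + (t1 + 2 * t2) / 3) hδ (by linarith) ?_
    intro R hR
    obtain ⟨S, hSC, hS2, hS3, hS4⟩ := hB3 R
    refine ⟨S, hSC, ?_, ?_⟩
    · intro x hx
      rw [hgk]
      have h1 := hbase S x 0 (by simpa using hS3 x hx)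
      have h2 : ∑ K ∈ S, k K x ≤ d := hB1 S hSC x
      nlinarith [mul_le_mul_of_nonneg_left h2 hc1.le]
    · intro x hx hxI
      rw [hgk]
      have h1 := hbase S x δ (hS4 K0 hK0 t1 t2 δ ht1 ht12 ht2 hδ hsave x hx
        ⟨by linarith [hxI.1], by linarith [hxI.2]⟩)
      have h2 : ∑ K ∈ S, k K x ≤ d := hB1 S hSC x
      nlinarith [mul_le_mul_of_nonneg_left h2 hc1.le]

end Pool.Agent.LFT
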