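import Pool.Agent.LFT.Stmts

/-!
# Module COVER (MP_9c589f_co): an uncovered box or a body with two points on the top line
-/

namespace Pool.Agent.LFT

open MeasureTheory Set
open scoped RealInnerProductSpace ENNReal

namespace CoverX

lemma inner_pt {u n : E} (h : ON u n) (x y : ℝ) : ⟪n, pt u n x y⟫ = y := by
  obtain ⟨_, hn, hun⟩ := h
  simp only [pt, inner_add_right, inner_smul_right, real_inner_self_eq_norm_sq, hn,
    real_inner_comm u n, hun]
  ring

lemma norm_pt_le {u n : E} (h : ON u n) (x y : ℝ) : ‖pt u n x y‖ ≤ |x| + |y| := by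
  obtain ⟨hu, hn, _⟩ := h
  refine (norm_add_le _ _).trans ?_
  rw [norm_smul, norm_smul, hu, hn, mul_one, mul_one, Real.norm_eq_abs, Real.norm_eq_abs]

lemma dist_pt_le {u n : E} (h : ON u n) (x y x' y' : ℝ) :
    dist (pt u n x y) (pt u n x' y') ≤ |x - x'| + |y - y'| := by
  have : pt u n x y - pt u n x' y' = pt u n (x - x') (y - y') := by
    simp only [pt, sub_smul]; abel
  rw [dist_eq_norm, this]
  exact norm_pt_le h _ _

lemma pt_inj {u n : E} (h : ON u n) {x x' y : ℝ} (he : pt u n x y = pt u n x' y) : x = x' := by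
  obtain ⟨hu, _, _⟩ := h
  have h1 : (x - x') • u = 0 := by
    have : x • u = x' • u := add_right_cancel (show x • u + y • n = x' • u + y • n from he)
    rw [sub_smul, this, sub_self]
  rcases smul_eq_zero.mp h1 with h2 | h2
  · linarith
  · rw [h2, norm_zero] at hu; norm_num at hu

end CoverX

open CoverX

theorem cover_proof : Stmt_Cover := by
  intro 𝒞 u n a d hON hL
  by_contra hcon
  rw [not_or] at hcon
  obtain ⟨hbox, htwo⟩ := hcon
  obtain ⟨R, hR⟩ : ∃ R : ℝ, R = 2 + |a| + |d| + 5 := ⟨_, rfl⟩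
  obtain ⟨S, hS⟩ : ∃ S : Set (Set E), S = {K ∈ 𝒞 | (K ∩ Metric.closedBall 0 R).Nonempty} :=
    ⟨_, rfl⟩
  have hfin : S.Finite := by rw [hS]; exact hL.locFin R
  have hclosed : IsClosed (⋃ K ∈ S, K) := by
    refine hfin.isClosed_biUnion fun K hK => ?_
    rw [hS] at hK
    exact (hL.body K hK.1).1.isClosed
  -- every point of the unit segment of the top line is covered
  have hcov : ∀ x ∈ Icc (0 : ℝ) 1, pt u n x (a + d) ∈ ⋃ K ∈ S, K := by
    intro x hx
    by_contra hP
    obtain ⟨δ, hδ, hball⟩ := Metric.isOpen_iff.mp hclosed.isOpen_compl _ hP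
    obtain ⟨ε, hε⟩ : ∃ ε : ℝ, ε = min (min δ 1) d / 8 := ⟨_, rfl⟩
    have hd := hL.pos
    have hm : 0 < min (min δ 1) d := lt_min (lt_min hδ one_pos) hd
    have hε0 : 0 < ε := by rw [hε]; positivity
    have hε1 : 8 * ε ≤ δ := by
      rw [hε]; have := (min_le_left (min δ 1) d).trans (min_le_left δ 1); linarith
    have hε2 : 8 * ε ≤ 1 := by
      rw [hε]; have := (min_le_left (min δ 1) d).trans (min_le_right δ 1); linarith
    have hε3 : 8 * ε ≤ d := by
      rw [hε]; have := min_le_right (min δ 1) d; linarith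
    refine hbox ⟨x, a + d - 2 * ε, ε, hε0, by linarith, by linarith, ?_⟩
    intro x' y' hx' hy' K hK hmem
    have h1 : dist (pt u n x' y') (pt u n x (a + d)) < δ := by
      refine (dist_pt_le hON _ _ _ _).trans_lt ?_
      have h2 : |y' - (a + d)| ≤ |y' - (a + d - 2 * ε)| + |2 * ε| := by
        have : y' - (a + d) = (y' - (a + d - 2 * ε)) - 2 * ε := by ring
        rw [this]; exact abs_sub _ _
      rw [abs_of_pos (by linarith : 0 < 2 * ε)] at h2
      linarith
    have h3 : pt u n x' y' ∈ Metric.closedBall (0 : E) R := by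
      rw [mem_closedBall_zero_iff]
      refine (norm_pt_le hON _ _).trans ?_
      have h4 : |x'| ≤ |x' - x| + |x| := by
        have : x' = (x' - x) + x := by ring
        calc |x'| = |(x' - x) + x| := by rw [← this]
          _ ≤ _ := abs_add_le _ _
      have h5 : |y'| ≤ |y' - (a + d - 2 * ε)| + |a + d - 2 * ε| := by
        have : y' = (y' - (a + d - 2 * ε)) + (a + d - 2 * ε) := by ring
        calc |y'| = |(y' - (a + d - 2 * ε)) + (a + d - 2 * ε)| := by rw [← this]
          _ ≤ _ := abs_add_le _ _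
      have h6 : |a + d - 2 * ε| ≤ |a| + |d| + 2 * ε := by
        calc |a + d - 2 * ε| ≤ |a + d| + |2 * ε| := abs_sub _ _
          _ ≤ (|a| + |d|) + |2 * ε| := by gcongr; exact abs_add_le _ _
          _ = |a| + |d| + 2 * ε := by rw [abs_of_pos (by linarith : 0 < 2 * ε)]
      have h7 : |x| ≤ 1 := by rw [abs_of_nonneg hx.1]; exact hx.2
      rw [hR]; linarith
    have h8 : pt u n x' y' ∈ ⋃ K ∈ S, K := by
      refine mem_biUnion ?_ hmem
      rw [hS]; exact ⟨hK, _, hmem, h3⟩
    exact hball h1 h8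
  -- pigeonhole
  have hinf : (Icc (0 : ℝ) 1).Infinite := Icc_infinite one_pos
  refine hinf ((hfin.biUnion (t := fun K => {x ∈ Icc (0 : ℝ) 1 | pt u n x (a + d) ∈ K})
    (fun K hK => ?_)).subset ?_)
  · refine Set.Subsingleton.finite ?_
    intro x hx x' hx'
    by_contra hne
    rw [hS] at hK
    refine htwo ⟨K, hK.1, _, hx.2, _, hx'.2, ?_, inner_pt hON _ _, inner_pt hON _ _⟩
    exact fun he => hne (pt_inj hON he)
  · intro x hx
    obtain ⟨K, hK, hmem⟩ := mem_iUnion₂.mp (hcov x hx)
    exact mem_biUnion hK ⟨hx, hmem⟩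

end Pool.Agent.LFT
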