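import Mathlib

/-!
# Layers of convex bodies and their permeability (L. Fejes Toth)

Definitions for MP_9c589f_co.  A layer is a locally finite packing of plane convex bodies inside
the strip `a ≤ ⟪n, p⟫ ≤ a + d`.  Its permeability is `d` divided by the infimum of the lengths of
the curves which join the two boundary lines of the strip and avoid the interiors of the bodies.
-/

namespace Pool.Agent.LFT

open MeasureTheory Set
open scoped RealInnerProductSpace ENNReal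

/-- The Euclidean plane. -/
abbrev E := EuclideanSpace ℝ (Fin 2)

/-- `𝒞` is a layer in the strip `a ≤ ⟪n, p⟫ ≤ a + d`, of width `d`. -/
structure IsLayer (𝒞 : Set (Set E)) (n : E) (a d : ℝ) : Prop where
  unit : ‖n‖ = 1
  pos : 0 < d
  body : ∀ K ∈ 𝒞, IsCompact K ∧ Convex ℝ K ∧ (interior K).Nonempty
  packing : ∀ K ∈ 𝒞, ∀ K' ∈ 𝒞, K ≠ K' → Disjoint (interior K) (interior K')
  strip : ∀ K ∈ 𝒞, ∀ p ∈ K, a ≤ ⟪n, p⟫ ∧ ⟪n, p⟫ ≤ a + d
  locFin : ∀ R : ℝ, {K ∈ 𝒞 | (K ∩ Metric.closedBall 0 R).Nonempty}.Finite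

/-- A continuous curve `γ` on `[0,1]` joining the two boundary lines of the strip and meeting the
interior of no member of `𝒞`. -/
structure IsCrossing (𝒞 : Set (Set E)) (n : E) (a d : ℝ) (γ : ℝ → E) : Prop where
  cont : ContinuousOn γ (Icc 0 1)
  start : ⟪n, γ 0⟫ = a
  stop : ⟪n, γ 1⟫ = a + d
  avoid : ∀ t ∈ Icc (0 : ℝ) 1, ∀ K ∈ 𝒞, γ t ∉ interior K

/-- The infimum of the lengths of the crossing curves (the length of a curve is its total
variation; curves that are not rectifiable have length infinity). -/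
noncomputable def crossLen (𝒞 : Set (Set E)) (n : E) (a d : ℝ) : ℝ≥0∞ :=
  ⨅ (γ : ℝ → E) (_ : IsCrossing 𝒞 n a d γ), eVariationOn γ (Icc 0 1)

/-- The permeability of the layer `𝒞` in the strip given by `n, a, d`. -/
noncomputable def permeability (𝒞 : Set (Set E)) (n : E) (a d : ℝ) : ℝ≥0∞ :=
  ENNReal.ofReal d / crossLen 𝒞 n a d

/-- `K` is similar to `C`. -/
def IsSimilar (C K : Set E) : Prop :=
  ∃ (lam : ℝ) (g : E ≃ₗᵢ[ℝ] E) (z : E), 0 < lam ∧ K = (fun p => lam • g p + z) '' C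

/-- `K` is homothetic to `C` (positive ratio). -/
def IsHomothetic (C K : Set E) : Prop :=
  ∃ (lam : ℝ) (z : E), 0 < lam ∧ K = (fun p => lam • p + z) '' C

/-- `K` is a translate of `C`. -/
def IsTranslate (C K : Set E) : Prop :=
  ∃ z : E, K = (fun p => p + z) '' C

/-- Property (S) of L. Fejes Toth. -/
def PropertyS (C : Set E) : Prop :=
  ∀ (𝒞 : Set (Set E)) (n : E) (a d : ℝ), IsLayer 𝒞 n a d → (∀ K ∈ 𝒞, IsSimilar C K) →
    ∃ (𝒯 : Set (Set E)) (n' : E) (a' d' : ℝ), IsLayer 𝒯 n' a' d' ∧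
      (∀ K ∈ 𝒯, IsTranslate C K) ∧ permeability 𝒯 n' a' d' ≤ permeability 𝒞 n a d

/-- Property (H) of L. Fejes Toth. -/
def PropertyH (C : Set E) : Prop :=
  ∀ (𝒞 : Set (Set E)) (n : E) (a d : ℝ), IsLayer 𝒞 n a d → (∀ K ∈ 𝒞, IsHomothetic C K) →
    ∃ (𝒯 : Set (Set E)) (n' : E) (a' d' : ℝ), IsLayer 𝒯 n' a' d' ∧
      (∀ K ∈ 𝒯, IsTranslate C K) ∧ permeability 𝒯 n' a' d' ≤ permeability 𝒞 n a d

/-- The parallelogram with centre `z` and edge vectors `e`, `f`. -/
def Para (z e f : E) : Set E :=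
  {p | ∃ s t : ℝ, |s| ≤ 1 / 2 ∧ |t| ≤ 1 / 2 ∧ p = z + s • e + t • f}

/-! ### Auxiliary notions used by the modules -/

/-- The points outside the interiors of all bodies. -/
def Free (𝒞 : Set (Set E)) : Set E := {p | ∀ K ∈ 𝒞, p ∉ interior K}

/-- `PathIn F p q L`: there is a polygonal path from `p` to `q` inside `F` of length `L`. -/
inductive PathIn (F : Set E) : E → E → ℝ → Prop
  | seg (p q : E) : segment ℝ p q ⊆ F → PathIn F p q (dist p q)
  | trans {p q r : E} {L M : ℝ} : PathIn F p q L → PathIn F q r M → PathIn F p r (L + M)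

/-- The point with coordinates `x`, `y` with respect to `u`, `n`. -/
def pt (u n : E) (x y : ℝ) : E := x • u + y • n

/-- `u`, `n` is an orthonormal basis of the plane. -/
def ON (u n : E) : Prop := ‖u‖ = 1 ∧ ‖n‖ = 1 ∧ ⟪u, n⟫ = 0

/-- Detour data of a body `K` for lines parallel to `n`: `K` lies over the interval
`[xc - h, xc + h]` of the coordinate `⟪u, p⟫`, between the graphs of `lo` and `up`
(as functions of the offset `t = ⟪u, p⟫ - xc`), and one can go from the lower to the upper end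
of the chord at offset `t` inside the boundary of `K` by a path of length `r t`.  The excess
`r - chord` is even and its integral is at most `c - 1` times the area of `K`. -/
structure Detour (u n : E) (c : ℝ) (K : Set E) (xc h : ℝ) (lo up r : ℝ → ℝ) : Prop where
  hpos : 0 < h
  mem_iff : ∀ p, p ∈ K ↔ |⟪u, p⟫ - xc| ≤ h ∧ lo (⟪u, p⟫ - xc) ≤ ⟪n, p⟫ ∧
    ⟪n, p⟫ ≤ up (⟪u, p⟫ - xc)
  int_iff : ∀ p, p ∈ interior K ↔ |⟪u, p⟫ - xc| < h ∧ lo (⟪u, p⟫ - xc) < ⟪n, p⟫ ∧
    ⟪n, p⟫ < up (⟪u, p⟫ - xc)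
  lt : ∀ t, |t| < h → lo t < up t
  path : ∀ t, |t| < h → PathIn (frontier K) (pt u n (xc + t) (lo t)) (pt u n (xc + t) (up t)) (r t)
  even_ch : ∀ t, up (-t) - lo (-t) = up t - lo t
  even_r : ∀ t, r (-t) = r t
  int_ch : IntervalIntegrable (fun t => up t - lo t) volume (-h) h
  int_r : IntervalIntegrable r volume (-h) h
  int_le : ∫ t in (-h)..h, (r t - (up t - lo t)) ≤ (c - 1) * ∫ t in (-h)..h, (up t - lo t)
  topsave : ∀ (T : ℝ) (p q : E), p ∈ K → q ∈ K → p ≠ q → ⟪n, p⟫ = T → ⟪n, q⟫ = T →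
    (∀ z ∈ K, ⟪n, z⟫ ≤ T) →
    ∃ t1 t2 δ : ℝ, -h ≤ t1 ∧ t1 < t2 ∧ t2 ≤ h ∧ 0 < δ ∧ ∀ t ∈ Ioo t1 t2, up t = T ∧
      ∃ q' : E, ⟪n, q'⟫ = T ∧ PathIn (frontier K) (pt u n (xc + t) (lo t)) q' (r t - δ)

/-- The norm `N_C` of a parallelogram with side lengths `b = ‖e‖`, `c = ‖f‖` at the vector
`x e + y f`: average length of the shorter boundary detour around the parallelogram. -/
noncomputable def NN (b c x y : ℝ) : ℝ :=
  if |x| ≤ |y| then (c + b / 2) * |y| + b / 2 * (x ^ 2 / |y|)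
  else (b + c / 2) * |x| + c / 2 * (y ^ 2 / |x|)

end Pool.Agent.LFT
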