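import Pool.Agent.LFT.Stmts

/-!
# Final assembly: every parallelogram has property (S)
-/

namespace Pool.Agent.LFT.Final

open MeasureTheory Set Pool.Agent.LFT
open scoped RealInnerProductSpace ENNReal

/-- A unit vector orthogonal to a given unit vector. -/
theorem exists_ON (n : E) (hn : ‖n‖ = 1) : ∃ u : E, ON u n := by
  refine ⟨!₂[n 1, -n 0], ?_, hn, ?_⟩
  · rw [EuclideanSpace.norm_eq] at hn ⊢
    rw [← hn]
    congr 1
    simp [Fin.sum_univ_two]
    ring
  · rw [PiLp.inner_apply]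
    simp [Fin.sum_univ_two]
    ring

theorem image_Para (lam : ℝ) (g : E ≃ₗᵢ[ℝ] E) (z' z e f : E) :
    (fun p => lam • g p + z') '' Para z e f = Para (lam • g z + z') (lam • g e) (lam • g f) := by
  ext p
  constructor
  · rintro ⟨q, ⟨s, t, hs, ht, rfl⟩, rfl⟩
    refine ⟨s, t, hs, ht, ?_⟩
    simp only [map_add, map_smul, smul_add]
    rw [smul_comm lam s, smul_comm lam t]
    abel
  · rintro ⟨s, t, hs, ht, rfl⟩
    refine ⟨z + s • e + t • f, ⟨s, t, hs, ht, rfl⟩, ?_⟩
    simp only [map_add, map_smul, smul_add]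
    rw [smul_comm lam s, smul_comm lam t]
    abel

theorem translate_Para {z e f : E} {K : Set E} (h : IsTranslate (Para 0 e f) K) :
    IsTranslate (Para z e f) K := by
  obtain ⟨v, rfl⟩ := h
  refine ⟨v - z, ?_⟩
  ext p
  constructor
  · rintro ⟨q, ⟨s, t, hs, ht, rfl⟩, rfl⟩
    refine ⟨z + s • e + t • f, ⟨s, t, hs, ht, rfl⟩, ?_⟩
    simp only [zero_add]
    abel
  · rintro ⟨q, ⟨s, t, hs, ht, rfl⟩, rfl⟩
    refine ⟨0 + s • e + t • f, ⟨s, t, hs, ht, rfl⟩, ?_⟩
    simp only [zero_add]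
    abel

theorem coords (e f : E) (hef : LinearIndependent ℝ ![e, f]) :
    ∃ M : ℝ, 0 < M ∧ ∀ x y : ℝ, |x| + |y| ≤ M * ‖x • e + y • f‖ := by
  let T : (Fin 2 → ℝ) →ₗ[ℝ] E := Fintype.linearCombination ℝ ![e, f]
  have hT : LinearMap.ker T = ⊥ := by
    rw [LinearMap.ker_eq_bot]
    exact hef.fintypeLinearCombination_injective
  obtain ⟨K, hK, hA⟩ := T.exists_antilipschitzWith hT
  refine ⟨2 * K, by positivity, fun x y => ?_⟩
  have h1 := hA.le_mul_dist ![x, y] 0
  have h2 : T ![x, y] = x • e + y • f := by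
    simp [T, Fintype.linearCombination_apply, Fin.sum_univ_two]
  rw [dist_zero_right, map_zero, dist_zero_right, h2] at h1
  have h3 : |x| ≤ ‖![x, y]‖ := by
    have := norm_le_pi_norm ![x, y] 0
    simpa using this
  have h4 : |y| ≤ ‖![x, y]‖ := by
    have := norm_le_pi_norm ![x, y] 1
    simpa using this
  linarith

theorem exists_coords (e f : E) (hef : LinearIndependent ℝ ![e, f]) (v : E) :
    ∃ x y : ℝ, v = x • e + y • f := by
  have hcard : Fintype.card (Fin 2) = Module.finrank ℝ E := by simp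
  let B := basisOfLinearIndependentOfCardEqFinrank hef hcard
  refine ⟨B.repr v 0, B.repr v 1, ?_⟩
  have := B.sum_repr v
  rw [Fin.sum_univ_two] at this
  simpa [B] using this.symm

theorem linInd_image (e f : E) (hef : LinearIndependent ℝ ![e, f]) (lam : ℝ) (hlam : 0 < lam)
    (g : E ≃ₗᵢ[ℝ] E) : LinearIndependent ℝ ![lam • g e, lam • g f] := by
  rw [LinearIndependent.pair_iff] at hef ⊢
  intro s t hst
  have h1 : lam • g (s • e + t • f) = 0 := by
    rw [map_add, map_smul, map_smul, smul_add, smul_comm lam s, smul_comm lam t]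
    exact hst
  have h2 : g (s • e + t • f) = 0 := by
    rcases smul_eq_zero.mp h1 with h | h
    · exact absurd h hlam.ne'
    · exact h
  exact hef s t (by
    have h3 := g.map_eq_zero_iff.mp h2
    exact h3)

theorem NN_scale (b c x y lam : ℝ) (hlam : 0 < lam) :
    NN (lam * b) (lam * c) x y = NN b c (lam * x) (lam * y) := by
  unfold NN
  have h1 : |lam * x| = lam * |x| := by rw [abs_mul, abs_of_pos hlam]
  have h2 : |lam * y| = lam * |y| := by rw [abs_mul, abs_of_pos hlam]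
  rw [h1, h2]
  have h3 : (lam * |x| ≤ lam * |y|) ↔ |x| ≤ |y| := by
    constructor
    · intro h; exact le_of_mul_le_mul_left h hlam
    · intro h; exact mul_le_mul_of_nonneg_left h hlam.le
  by_cases h : |x| ≤ |y|
  · rw [if_pos h, if_pos (h3.mpr h)]
    rcases eq_or_ne |y| 0 with hy | hy
    · rw [hy]; simp
    · field_simp
  · rw [if_neg h, if_neg (fun h' => h (h3.mp h'))]
    rcases eq_or_ne |x| 0 with hx | hx
    · rw [hx]; simp
    · field_simp

theorem final (hAvg : Stmt_Avg) (hPara : Stmt_Para) (hNorm : Stmt_Norm) (hTile : Stmt_Tile)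
    (z e f : E) (hef : LinearIndependent ℝ ![e, f]) : PropertyS (Para z e f) := by
  intro 𝒞 n a d hL hsim
  obtain ⟨e2, f2, w, τ, hP2, hef2, hτ, hwe, hwf, hw1, hNN⟩ := hNorm e f hef
  obtain ⟨u, hun⟩ := exists_ON n hL.unit
  obtain ⟨M, hM, hMb⟩ := coords e f hef
  have hdet : ∀ K ∈ 𝒞, ∃ (xc h : ℝ) (lo up r : ℝ → ℝ), Detour u n ‖w‖ K xc h lo up r ∧
      h ≤ M * d * (‖e‖ + ‖f‖) / 2 := by
    intro K hK
    obtain ⟨lam, g, z', hlam, hKeq⟩ := hsim K hK
    rw [image_Para] at hKeq
    have hli := linInd_image e f hef lam hlam g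
    obtain ⟨x, y, hxy⟩ := exists_coords (lam • g e) (lam • g f) hli n
    have hne : ‖lam • g e‖ = lam * ‖e‖ := by
      rw [norm_smul, Real.norm_of_nonneg hlam.le, LinearIsometryEquiv.norm_map]
    have hnf : ‖lam • g f‖ = lam * ‖f‖ := by
      rw [norm_smul, Real.norm_of_nonneg hlam.le, LinearIsometryEquiv.norm_map]
    have hnorm1 : ‖(lam * x) • e + (lam * y) • f‖ = 1 := by
      have : n = g ((lam * x) • e + (lam * y) • f) := by
        rw [hxy, map_add, map_smul, map_smul, mul_smul, mul_smul, smul_comm lam x,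
          smul_comm lam y]
      rw [← LinearIsometryEquiv.norm_map g, ← this, hL.unit]
    have hle : NN ‖lam • g e‖ ‖lam • g f‖ x y ≤ ‖w‖ := by
      rw [hne, hnf, NN_scale _ _ _ _ _ hlam]
      refine (hNN _ _).trans ?_
      rw [hnorm1, mul_one]
    obtain ⟨xc, h, lo, up, r, hD, hh⟩ :=
      hPara u n (lam • g z + z') (lam • g e) (lam • g f) x y ‖w‖ hun hli hxy hle
    refine ⟨xc, h, lo, up, r, hKeq ▸ hD, hh.trans ?_⟩
    rw [hne, hnf]
    -- bound for lam
    have hlamle : lam ≤ M * d := by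
      set Z := lam • g z + z' with hZ
      have hmem : ∀ s t : ℝ, |s| ≤ 1 / 2 → |t| ≤ 1 / 2 →
          a ≤ ⟪n, Z + s • (lam • g e) + t • (lam • g f)⟫ ∧
          ⟪n, Z + s • (lam • g e) + t • (lam • g f)⟫ ≤ a + d := by
        intro s t hs ht
        exact hL.strip K hK _ (hKeq ▸ ⟨s, t, hs, ht, rfl⟩)
      have hpos := hL.pos
      have key : ∀ v : E, (∃ p q : E, (a ≤ ⟪n, p⟫ ∧ ⟪n, p⟫ ≤ a + d) ∧
          (a ≤ ⟪n, q⟫ ∧ ⟪n, q⟫ ≤ a + d) ∧ p = q + v) → |⟪n, v⟫| ≤ d := by
        rintro v ⟨p, q, hp, hq, rfl⟩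
        rw [inner_add_right] at hp
        rw [abs_le]
        constructor <;> linarith [hp.1, hp.2, hq.1, hq.2]
      have h1 : |⟪n, lam • g e⟫| ≤ d := by
        apply key
        refine ⟨_, _, hmem (1 / 2) 0 (by norm_num) (by norm_num),
          hmem (-1 / 2) 0 (by norm_num) (by norm_num), ?_⟩
        have : (1 / 2 : ℝ) • (lam • g e) = (-1 / 2 : ℝ) • (lam • g e) + lam • g e := by
          module
        rw [this]
        abel
      have h2 : |⟪n, lam • g f⟫| ≤ d := by
        apply key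
        refine ⟨_, _, hmem 0 (1 / 2) (by norm_num) (by norm_num),
          hmem 0 (-1 / 2) (by norm_num) (by norm_num), ?_⟩
        have : (1 / 2 : ℝ) • (lam • g f) = (-1 / 2 : ℝ) • (lam • g f) + lam • g f := by
          module
        rw [this]
        abel
      have h3 : (1 : ℝ) = x * ⟪n, lam • g e⟫ + y * ⟪n, lam • g f⟫ := by
        have : ⟪n, n⟫ = 1 := by rw [real_inner_self_eq_norm_sq, hL.unit]; norm_num
        calc (1 : ℝ) = ⟪n, n⟫ := this.symm
          _ = ⟪n, x • (lam • g e) + y • (lam • g f)⟫ := by rw [← hxy]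
          _ = _ := by
            rw [inner_add_right, real_inner_smul_right n _ x, real_inner_smul_right n _ y]
      have h4 : (1 : ℝ) ≤ (|x| + |y|) * d := by
        have ha : x * ⟪n, lam • g e⟫ ≤ |x| * d := by
          calc x * ⟪n, lam • g e⟫ ≤ |x * ⟪n, lam • g e⟫| := le_abs_self _
            _ = |x| * |⟪n, lam • g e⟫| := abs_mul _ _
            _ ≤ |x| * d := mul_le_mul_of_nonneg_left h1 (abs_nonneg _)
        have hb : y * ⟪n, lam • g f⟫ ≤ |y| * d := by
          calc y * ⟪n, lam • g f⟫ ≤ |y * ⟪n, lam • g f⟫| := le_abs_self _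
            _ = |y| * |⟪n, lam • g f⟫| := abs_mul _ _
            _ ≤ |y| * d := mul_le_mul_of_nonneg_left h2 (abs_nonneg _)
        calc (1 : ℝ) = x * ⟪n, lam • g e⟫ + y * ⟪n, lam • g f⟫ := h3
          _ ≤ |x| * d + |y| * d := add_le_add ha hb
          _ = (|x| + |y|) * d := by ring
      have h5 := hMb (lam * x) (lam * y)
      rw [hnorm1, mul_one, abs_mul, abs_mul, abs_of_pos hlam] at h5
      calc lam = lam * 1 := (mul_one _).symm
        _ ≤ lam * ((|x| + |y|) * d) := mul_le_mul_of_nonneg_left h4 hlam.le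
        _ = (lam * |x| + lam * |y|) * d := by ring
        _ ≤ M * d := mul_le_mul_of_nonneg_right h5 hpos.le
    have : 0 ≤ ‖e‖ + ‖f‖ := by positivity
    calc (lam * ‖e‖ + lam * ‖f‖) / 2 = lam * (‖e‖ + ‖f‖) / 2 := by ring
      _ ≤ M * d * (‖e‖ + ‖f‖) / 2 := by gcongr
  have hlt := hAvg 𝒞 u n a d ‖w‖ _ hun hL hw1 hdet
  have hd := hL.pos
  -- choose rho
  have hfin : crossLen 𝒞 n a d ≠ ⊤ := (hlt.trans ENNReal.ofReal_lt_top).ne
  set L := (crossLen 𝒞 n a d).toReal with hLdef
  have hL0 : 0 ≤ L := ENNReal.toReal_nonneg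
  have hLlt : L < ‖w‖ * d := by
    rw [← ENNReal.ofReal_toReal hfin] at hlt
    exact (ENNReal.ofReal_lt_ofReal_iff (by positivity)).mp hlt
  set ρ := (L / d + ‖w‖) / 2 with hρ
  have hLd : L / d < ‖w‖ := by rw [div_lt_iff₀ hd]; exact hLlt
  have hLd0 : 0 ≤ L / d := by positivity
  have hρ0 : 0 < ρ := by rw [hρ]; linarith
  have hρw : ρ < ‖w‖ := by rw [hρ]; linarith
  have hLρ : L ≤ ρ * d := by
    have : L / d ≤ ρ := by rw [hρ]; linarith
    rwa [div_le_iff₀ hd] at this
  have hw0 : w ≠ 0 := by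
    intro h
    rw [h, norm_zero] at hw1
    linarith
  obtain ⟨𝒯, n', d', hT, hTt, hTlen⟩ := hTile e2 f2 w τ ρ hef2 hτ hwe hwf hw0 hρw
  refine ⟨𝒯, n', 0, d', hT, ?_, ?_⟩
  · intro K hK
    apply translate_Para
    rw [← hP2 0]
    exact hTt K hK
  · unfold permeability
    have hd' := hT.pos
    calc ENNReal.ofReal d' / crossLen 𝒯 n' 0 d'
        ≤ ENNReal.ofReal d' / ENNReal.ofReal (ρ * d') := ENNReal.div_le_div_left hTlen _
      _ = ENNReal.ofReal (1 / ρ) := by
          rw [← ENNReal.ofReal_div_of_pos (by positivity)]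
          congr 1
          field_simp
      _ = ENNReal.ofReal d / ENNReal.ofReal (ρ * d) := by
          rw [← ENNReal.ofReal_div_of_pos (by positivity)]
          congr 1
          field_simp
      _ ≤ ENNReal.ofReal d / crossLen 𝒞 n a d := by
          apply ENNReal.div_le_div_left
          rw [← ENNReal.ofReal_toReal hfin]
          exact ENNReal.ofReal_le_ofReal hLρ

end Pool.Agent.LFT.Final
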