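import Pool.Agent.LFT.Stmts

/-!
# Module GRAPH of the squad LFT (MP_9c589f_co): the potential on the edge graph of the tiling
-/

namespace Pool.Agent.LFT.Graph

open MeasureTheory Set Filter Topology
open scoped RealInnerProductSpace ENNReal

/-! ### Continuous induction -/

/-- a function which is locally controlled by a curve is globally controlled by its length. -/
theorem local_to_global {X : Type*} [PseudoEMetricSpace X] (γ : ℝ → X) (H : ℝ → ℝ) (t1 t2 : ℝ)
    (h12 : t1 ≤ t2)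
    (hloc : ∀ t ∈ Icc t1 t2, ∃ ε > 0, ∀ s ∈ Icc t1 t2, |s - t| < ε →
      edist (H s) (H t) ≤ edist (γ s) (γ t)) :
    edist (H t2) (H t1) ≤ eVariationOn γ (Icc t1 t2) := by
  let S : Set ℝ := {t | ∀ u ∈ Icc t1 t, edist (H u) (H t1) ≤ eVariationOn γ (Icc t1 u)}
  have hadd : ∀ a b, t1 ≤ a → a ≤ b →
      eVariationOn γ (Icc t1 a) + edist (γ b) (γ a) ≤ eVariationOn γ (Icc t1 b) := by
    intro a b ha hab
    have h := eVariationOn.Icc_add_Icc γ (s := univ) ha hab (mem_univ a)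
    simp only [univ_inter] at h
    rw [← h]
    gcongr
    exact eVariationOn.edist_le γ ⟨hab, le_rfl⟩ ⟨le_rfl, hab⟩
  have key : Icc t1 t2 ⊆ S := by
    apply IsClosed.Icc_subset_of_forall_mem_nhdsWithin
    · rw [← closure_subset_iff_isClosed]
      intro t ht
      have htI : t ∈ Icc t1 t2 := by
        have := closure_mono (inter_subset_right (s := S) (t := Icc t1 t2)) ht
        rwa [isClosed_Icc.closure_eq] at this
      refine ⟨?_, htI⟩
      have hlt : ∀ u ∈ Ico t1 t, edist (H u) (H t1) ≤ eVariationOn γ (Icc t1 u) := by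
        intro u hu
        rw [Metric.mem_closure_iff] at ht
        obtain ⟨t', ht', hd⟩ := ht (t - u) (by linarith [hu.2])
        rw [Real.dist_eq, abs_lt] at hd
        exact ht'.1 u ⟨hu.1, by linarith [hd.1]⟩
      intro u hu
      rcases eq_or_lt_of_le hu.2 with hut | hut
      · rcases eq_or_lt_of_le hu.1 with hu1 | hu1
        · rw [← hu1]; simp
        · rw [hut] at hu1 ⊢
          obtain ⟨ε, hε, hl⟩ := hloc t htI
          obtain ⟨v, hv1, hv2⟩ := exists_between (max_lt hu1 (by linarith : t - ε < t))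
          have hv3 : t1 < v := lt_of_le_of_lt (le_max_left _ _) hv1
          have hv4 : t - ε < v := lt_of_le_of_lt (le_max_right _ _) hv1
          calc edist (H t) (H t1) ≤ edist (H t) (H v) + edist (H v) (H t1) := edist_triangle _ _ _
            _ ≤ edist (γ t) (γ v) + eVariationOn γ (Icc t1 v) := by
                gcongr
                · rw [edist_comm (H t), edist_comm (γ t)]
                  exact hl v ⟨hv3.le, (hv2.le).trans htI.2⟩ (by rw [abs_lt]; constructor <;> linarith)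
                · exact hlt v ⟨hv3.le, hv2⟩
            _ = eVariationOn γ (Icc t1 v) + edist (γ t) (γ v) := add_comm _ _
            _ ≤ _ := hadd v t hv3.le hv2.le
      · exact hlt u ⟨hu.1, hut⟩
    · intro u hu
      have : u = t1 := le_antisymm hu.2 hu.1
      rw [this]; simp
    · rintro x ⟨hxS, hx⟩
      obtain ⟨ε, hε, hl⟩ := hloc x ⟨hx.1, hx.2.le⟩
      have hmem : Ioo x (min (x + ε) t2) ∈ 𝓝[>] x :=
        Ioo_mem_nhdsGT (lt_min (by linarith) hx.2)
      refine Filter.mem_of_superset hmem ?_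
      rintro t ⟨ht1, ht2⟩ u hu
      rcases le_or_gt u x with hux | hux
      · exact hxS u ⟨hu.1, hux⟩
      · have hu2 : u < min (x + ε) t2 := lt_of_le_of_lt hu.2 ht2
        have hu3 : u < x + ε := lt_of_lt_of_le hu2 (min_le_left _ _)
        have hu4 : u < t2 := lt_of_lt_of_le hu2 (min_le_right _ _)
        calc edist (H u) (H t1) ≤ edist (H u) (H x) + edist (H x) (H t1) := edist_triangle _ _ _
          _ ≤ edist (γ u) (γ x) + eVariationOn γ (Icc t1 x) := by
              gcongr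
              · exact hl u ⟨hu.1, hu4.le⟩ (by rw [abs_lt]; constructor <;> linarith)
              · exact hxS x ⟨hx.1, le_rfl⟩
          _ = eVariationOn γ (Icc t1 x) + edist (γ u) (γ x) := add_comm _ _
          _ ≤ _ := hadd x u hx.1 hux.le
  exact key ⟨h12, le_rfl⟩ t2 ⟨h12, le_rfl⟩

/-! ### The sawtooth function -/

/-- the sawtooth: `b τ s` plus a function of period one; it is `b`-Lipschitz. -/
noncomputable def psi (b τ s : ℝ) : ℝ :=
  max (b * τ * ⌊s⌋ - b * (s - ⌊s⌋)) (b * τ * (⌊s⌋ + 1) - b * (⌊s⌋ + 1 - s))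

theorem psi_ge (b τ : ℝ) (hb : 0 ≤ b) (hτ : |τ| ≤ 1) (s : ℝ) (m : ℤ) :
    b * τ * m - b * |s - m| ≤ psi b τ s := by
  obtain ⟨h1, h2⟩ := abs_le.1 hτ
  rcases le_or_gt m ⌊s⌋ with hm | hm
  · refine le_trans ?_ (le_max_left _ _)
    have hm' : (m : ℝ) ≤ ⌊s⌋ := by exact_mod_cast hm
    have hs : (m : ℝ) ≤ s := hm'.trans (Int.floor_le s)
    rw [abs_of_nonneg (by linarith)]
    have : 0 ≤ b * (1 + τ) * (⌊s⌋ - m) :=
      mul_nonneg (mul_nonneg hb (by linarith)) (by linarith)
    nlinarith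
  · refine le_trans ?_ (le_max_right _ _)
    have hm' : (⌊s⌋ : ℝ) + 1 ≤ m := by exact_mod_cast hm
    have hs : s ≤ (m : ℝ) := (Int.lt_floor_add_one s).le.trans hm'
    rw [abs_of_nonpos (by linarith)]
    have : 0 ≤ b * (1 - τ) * (m - (⌊s⌋ + 1)) :=
      mul_nonneg (mul_nonneg hb (by linarith)) (by linarith)
    nlinarith

theorem psi_eq (b τ s : ℝ) : ∃ m : ℤ, psi b τ s = b * τ * m - b * |s - m| := by
  rcases max_choice (b * τ * ⌊s⌋ - b * (s - ⌊s⌋)) (b * τ * (⌊s⌋ + 1) - b * (⌊s⌋ + 1 - s)) with h | h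
  · refine ⟨⌊s⌋, ?_⟩
    unfold psi
    rw [h, abs_of_nonneg (by linarith [Int.floor_le s])]
  · refine ⟨⌊s⌋ + 1, ?_⟩
    unfold psi
    rw [h]
    push_cast
    rw [abs_of_nonpos (by linarith [Int.lt_floor_add_one s])]
    ring

theorem psi_lip (b τ : ℝ) (hb : 0 ≤ b) (hτ : |τ| ≤ 1) (s t : ℝ) :
    |psi b τ s - psi b τ t| ≤ b * |s - t| := by
  have h : ∀ s t : ℝ, psi b τ s - psi b τ t ≤ b * |s - t| := by
    intro s t
    obtain ⟨m, hm⟩ := psi_eq b τ s
    have h1 := psi_ge b τ hb hτ t m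
    have h2 : |t - m| ≤ |s - t| + |s - m| := by
      have := abs_sub_le t s (m : ℝ)
      rw [abs_sub_comm t s] at this
      exact this
    have h3 := mul_le_mul_of_nonneg_left h2 hb
    rw [hm]
    linarith
  rw [abs_le]
  constructor
  · have := h t s
    rw [abs_sub_comm t s] at this
    linarith
  · exact h s t

theorem psi_int (b τ : ℝ) (hb : 0 ≤ b) (hτ : |τ| ≤ 1) (m : ℤ) : psi b τ m = b * τ * m := by
  obtain ⟨h1, h2⟩ := abs_le.1 hτ
  unfold psi
  rw [Int.floor_intCast]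
  rw [max_eq_left]
  · ring
  · have : 0 ≤ b * (1 - τ) := mul_nonneg hb (by linarith)
    nlinarith

theorem psi_half (b τ : ℝ) (hb : 0 ≤ b) (hτ : |τ| ≤ 1) (m : ℤ) :
    psi b τ (m - (1 + τ) / 2) = b * τ * m - b * ((1 + τ) / 2) := by
  obtain ⟨h1, h2⟩ := abs_le.1 hτ
  apply le_antisymm
  · obtain ⟨k, hk⟩ := psi_eq b τ (m - (1 + τ) / 2)
    rw [hk]
    rcases le_or_gt m k with hmk | hmk
    · have hmk' : (m : ℝ) ≤ k := by exact_mod_cast hmk
      rw [abs_of_nonpos (by linarith)]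
      have : 0 ≤ b * (1 - τ) * (k - m) :=
        mul_nonneg (mul_nonneg hb (by linarith)) (by linarith)
      nlinarith
    · have hmk' : (k : ℝ) + 1 ≤ m := by exact_mod_cast hmk
      rw [abs_of_nonneg (by linarith)]
      have : 0 ≤ b * (1 + τ) * (m - (k + 1)) :=
        mul_nonneg (mul_nonneg hb (by linarith)) (by linarith)
      nlinarith
  · have := psi_ge b τ hb hτ (m - (1 + τ) / 2) m
    rwa [abs_of_nonpos (by linarith), show -((m : ℝ) - (1 + τ) / 2 - m) = (1 + τ) / 2 by ring]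
      at this

theorem psi_bdd (b τ : ℝ) (hb : 0 ≤ b) (hτ : |τ| ≤ 1) (s : ℝ) :
    |psi b τ s - b * τ * s| ≤ 2 * b := by
  obtain ⟨h1, h2⟩ := abs_le.1 hτ
  have h3 := psi_lip b τ hb hτ s ⌊s⌋
  rw [psi_int b τ hb hτ] at h3
  have h4 : |s - ⌊s⌋| ≤ 1 := by
    rw [abs_of_nonneg (by linarith [Int.floor_le s])]
    linarith [Int.lt_floor_add_one s]
  have h5 : |b * τ * ⌊s⌋ - b * τ * s| ≤ b * 1 := by
    rw [show b * τ * ⌊s⌋ - b * τ * s = -(b * (τ * (s - ⌊s⌋))) by ring, abs_neg, abs_mul,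
      abs_of_nonneg hb, abs_mul]
    apply mul_le_mul_of_nonneg_left _ hb
    calc |τ| * |s - ⌊s⌋| ≤ 1 * 1 := mul_le_mul hτ h4 (abs_nonneg _) zero_le_one
      _ = 1 := by ring
  calc |psi b τ s - b * τ * s|
      = |(psi b τ s - b * τ * ⌊s⌋) + (b * τ * ⌊s⌋ - b * τ * s)| := by ring_nf
    _ ≤ |psi b τ s - b * τ * ⌊s⌋| + |b * τ * ⌊s⌋ - b * τ * s| := abs_add_le _ _
    _ ≤ b * |s - ⌊s⌋| + b * 1 := add_le_add h3 h5
    _ ≤ b * 1 + b * 1 := by
        have := mul_le_mul_of_nonneg_left h4 hb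
        linarith
    _ = 2 * b := by ring

/-! ### The potential -/

/-- membership in the graph, in coordinates -/
def OnG (δ x y : ℝ) : Prop := (∃ m : ℤ, y = m) ∨ (∃ m : ℤ, x - ⌊y⌋ * δ = m)

/-- the potential, in coordinates -/
noncomputable def pot (b c τ W x y : ℝ) : ℝ :=
  ⌊y⌋ * (W + b * τ * ((1 + τ) / 2)) + psi b τ (x - ⌊y⌋ * ((1 + τ) / 2)) + c * (y - ⌊y⌋)

/-- integers have isolated points. -/
theorem int_near (s : ℝ) : ∃ ε > 0, ∀ t : ℝ, |t - s| < ε → (∃ m : ℤ, t = m) → t = s := by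
  by_cases hs : ∃ k : ℤ, s = k
  · obtain ⟨k, hk⟩ := hs
    refine ⟨1, one_pos, ?_⟩
    rintro t ht ⟨m, hm⟩
    rw [hk, hm] at ht ⊢
    have : |((m - k : ℤ) : ℝ)| < 1 := by push_cast; exact ht
    rw [← Int.cast_abs] at this
    have h2 : |m - k| < 1 := by exact_mod_cast this
    have h3 : m - k = 0 := by
      rw [abs_lt] at h2
      omega
    have : m = k := by omega
    rw [this]
  · refine ⟨min (s - ⌊s⌋) (⌊s⌋ + 1 - s), lt_min ?_ ?_, ?_⟩
    · have h1 := Int.floor_le s
      rcases eq_or_lt_of_le h1 with h | h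
      · exact absurd ⟨⌊s⌋, h.symm⟩ hs
      · linarith
    · linarith [Int.lt_floor_add_one s]
    · rintro t ht ⟨m, hm⟩
      exfalso
      rw [lt_min_iff, abs_lt, abs_lt] at ht
      rw [hm] at ht
      have h1 : (⌊s⌋ : ℝ) < m := by linarith [ht.1.1]
      have h2 : (m : ℝ) < ⌊s⌋ + 1 := by linarith [ht.2.2]
      have h3 : ⌊s⌋ < m := by exact_mod_cast h1
      have h4 : m < ⌊s⌋ + 1 := by exact_mod_cast h2
      omega

/-- the local estimate, in coordinates: near a point of the graph, another point of the graph lies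
on a common edge, or on the horizontal line. -/
theorem pot_local (b c τ W : ℝ) (hb : 0 ≤ b) (hc : 0 ≤ c) (hτ : |τ| ≤ 1)
    (hW : W = c + b * (1 - τ ^ 2) / 2) (x0 y0 : ℝ) (h0 : OnG ((1 + τ) / 2) x0 y0) :
    ∃ ε > 0, ∀ x y : ℝ, |x - x0| < ε → |y - y0| < ε → OnG ((1 + τ) / 2) x y →
      (x = x0 ∧ |pot b c τ W x y - pot b c τ W x0 y0| ≤ c * |y - y0|) ∨
      (y = y0 ∧ |pot b c τ W x y - pot b c τ W x0 y0| ≤ b * |x - x0|) := by
  set δ := (1 + τ) / 2 with hδ
  by_cases hy0 : ∃ m : ℤ, y0 = m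
  · obtain ⟨j, hj⟩ := hy0
    obtain ⟨ε1, hε1, h1⟩ := int_near (x0 - j * δ)
    obtain ⟨ε2, hε2, h2⟩ := int_near (x0 - (j - 1) * δ)
    refine ⟨min 1 (min ε1 ε2), lt_min one_pos (lt_min hε1 hε2), ?_⟩
    intro x y hx hy hG
    rw [lt_min_iff, lt_min_iff] at hx hy
    rcases lt_trichotomy y y0 with hlt | heq | hgt
    · -- below
      left
      have hfl : ⌊y⌋ = j - 1 := by
        rw [Int.floor_eq_iff]
        push_cast
        rw [abs_lt] at hy
        rw [hj] at hy hlt
        constructor <;> linarith [hy.1.1]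
      have hG' : ∃ m : ℤ, x - (j - 1) * δ = m := by
        rcases hG with ⟨m, hm⟩ | ⟨m, hm⟩
        · exfalso
          rw [hj, hm] at hlt
          have h3 : m < j := by exact_mod_cast hlt
          have h4 : (m : ℝ) < j := hlt
          rw [hm, Int.floor_intCast] at hfl
          rw [abs_lt, hm, hj] at hy
          have h5 : (m : ℝ) = j - 1 := by rw [hfl]; push_cast; ring
          rw [h5] at hy
          linarith [hy.1.1]
        · refine ⟨m, ?_⟩
          rw [hfl] at hm
          push_cast at hm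
          exact hm
      have hxx : x = x0 := by
        have := h2 (x - (j - 1) * δ)
          (by rw [show x - (j - 1) * δ - (x0 - (j - 1) * δ) = x - x0 by ring]; exact hx.2.2) hG'
        linarith
      refine ⟨hxx, ?_⟩
      obtain ⟨m, hm⟩ := hG'
      have hp : pot b c τ W x y = (j - 1) * (W + b * τ * δ) + b * τ * m + c * (y - (j - 1)) := by
        unfold pot
        rw [hfl]
        push_cast
        rw [← hδ, hm, psi_int b τ hb hτ]
      have hp0 : pot b c τ W x0 y0 = j * (W + b * τ * δ) + (b * τ * m - b * δ) + c * (y0 - j) := by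
        unfold pot
        rw [hj, Int.floor_intCast, ← hδ, ← hxx,
          show x - j * δ = m - δ by rw [← hm]; ring, hδ, psi_half b τ hb hτ]
      rw [hp, hp0]
      have : (j - 1) * (W + b * τ * δ) + b * τ * m + c * (y - (j - 1)) -
          (j * (W + b * τ * δ) + (b * τ * m - b * δ) + c * (y0 - j)) = c * (y - y0) := by
        rw [hW, hδ]; ring
      rw [this, abs_mul, abs_of_nonneg hc]
    · -- on the line
      right
      refine ⟨heq, ?_⟩
      have : pot b c τ W x y - pot b c τ W x0 y0 =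
          psi b τ (x - j * δ) - psi b τ (x0 - j * δ) := by
        unfold pot
        rw [heq, hj, Int.floor_intCast]
        ring
      rw [this]
      have h3 := psi_lip b τ hb hτ (x - j * δ) (x0 - j * δ)
      rwa [show x - j * δ - (x0 - j * δ) = x - x0 by ring] at h3
    · -- above
      left
      have hfl : ⌊y⌋ = j := by
        rw [Int.floor_eq_iff]
        rw [abs_lt] at hy
        rw [hj] at hy hgt
        constructor <;> linarith [hy.1.2]
      have hG' : ∃ m : ℤ, x - j * δ = m := by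
        rcases hG with ⟨m, hm⟩ | ⟨m, hm⟩
        · exfalso
          rw [hm, Int.floor_intCast] at hfl
          rw [hm, hj, hfl] at hgt
          exact lt_irrefl _ hgt
        · refine ⟨m, ?_⟩
          rwa [hfl] at hm
      have hxx : x = x0 := by
        have := h1 (x - j * δ)
          (by rw [show x - j * δ - (x0 - j * δ) = x - x0 by ring]; exact hx.2.1) hG'
        linarith
      refine ⟨hxx, ?_⟩
      have : pot b c τ W x y - pot b c τ W x0 y0 = c * (y - y0) := by
        unfold pot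
        rw [hfl, hj, Int.floor_intCast, hxx]
        ring
      rw [this, abs_mul, abs_of_nonneg hc]
  · -- inside an edge
    have hm0 : ∃ m : ℤ, x0 - ⌊y0⌋ * δ = m := by
      rcases h0 with h | h
      · exact absurd h hy0
      · exact h
    obtain ⟨ε1, hε1, h1⟩ := int_near (x0 - ⌊y0⌋ * δ)
    have hf1 : 0 < y0 - ⌊y0⌋ := by
      rcases eq_or_lt_of_le (Int.floor_le y0) with h | h
      · exact absurd ⟨⌊y0⌋, h.symm⟩ hy0
      · linarith
    have hf2 : 0 < ⌊y0⌋ + 1 - y0 := by linarith [Int.lt_floor_add_one y0]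
    refine ⟨min ε1 (min (y0 - ⌊y0⌋) (⌊y0⌋ + 1 - y0)), lt_min hε1 (lt_min hf1 hf2), ?_⟩
    intro x y hx hy hG
    rw [lt_min_iff, lt_min_iff] at hx hy
    left
    have hlow : (⌊y0⌋ : ℝ) < y := by
      have := (abs_lt.1 hy.2.1).1
      linarith
    have hup : y < ⌊y0⌋ + 1 := by
      have := (abs_lt.1 hy.2.2).2
      linarith
    have hfl : ⌊y⌋ = ⌊y0⌋ := by
      rw [Int.floor_eq_iff]
      exact ⟨hlow.le, hup⟩
    have hG' : ∃ m : ℤ, x - ⌊y0⌋ * δ = m := by
      rcases hG with ⟨m, hm⟩ | ⟨m, hm⟩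
      · exfalso
        rw [hm, Int.floor_intCast] at hfl
        rw [hm, hfl] at hlow
        exact lt_irrefl _ hlow
      · refine ⟨m, ?_⟩
        rwa [hfl] at hm
    have hxx : x = x0 := by
      have := h1 (x - ⌊y0⌋ * δ)
        (by rw [show x - ⌊y0⌋ * δ - (x0 - ⌊y0⌋ * δ) = x - x0 by ring]; exact hx.1) hG'
      linarith
    refine ⟨hxx, ?_⟩
    have : pot b c τ W x y - pot b c τ W x0 y0 = c * (y - y0) := by
      unfold pot
      rw [hfl, hxx]
      ring
    rw [this, abs_mul, abs_of_nonneg hc]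

theorem pot_bdd (b c τ W : ℝ) (hb : 0 ≤ b) (hc : 0 ≤ c) (hτ : |τ| ≤ 1) (x y : ℝ) :
    |pot b c τ W x y - (x * (b * τ) + y * W)| ≤ |W| + c + 2 * b := by
  have h1 := psi_bdd b τ hb hτ (x - ⌊y⌋ * ((1 + τ) / 2))
  have h2 : |y - ⌊y⌋| ≤ 1 := by
    rw [abs_of_nonneg (by linarith [Int.floor_le y])]
    linarith [Int.lt_floor_add_one y]
  have e : pot b c τ W x y - (x * (b * τ) + y * W) =
      -(W * (y - ⌊y⌋)) + c * (y - ⌊y⌋) + (psi b τ (x - ⌊y⌋ * ((1 + τ) / 2)) -
        b * τ * (x - ⌊y⌋ * ((1 + τ) / 2))) := by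
    unfold pot
    ring
  rw [e]
  have h3 : |-(W * (y - ⌊y⌋))| ≤ |W| := by
    rw [abs_neg, abs_mul]
    calc |W| * |y - ⌊y⌋| ≤ |W| * 1 := mul_le_mul_of_nonneg_left h2 (abs_nonneg _)
      _ = |W| := mul_one _
  have h4 : |c * (y - ⌊y⌋)| ≤ c := by
    rw [abs_mul, abs_of_nonneg hc]
    calc c * |y - ⌊y⌋| ≤ c * 1 := mul_le_mul_of_nonneg_left h2 hc
      _ = c := mul_one _
  calc _ ≤ |-(W * (y - ⌊y⌋)) + c * (y - ⌊y⌋)| + _ := abs_add_le _ _
    _ ≤ (|-(W * (y - ⌊y⌋))| + |c * (y - ⌊y⌋)|) + 2 * b := add_le_add (abs_add_le _ _) h1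
    _ ≤ _ := by linarith

/-! ### Coordinates -/

/-- continuous linear coordinates with respect to a basis of the plane. -/
theorem exists_coord (e f : E) (hef : LinearIndependent ℝ ![e, f]) :
    ∃ X Y : E → ℝ, Continuous X ∧ Continuous Y ∧ (∀ p, p = X p • e + Y p • f) ∧
      (∀ p x y, p = x • e + y • f → x = X p ∧ y = Y p) := by
  have hcard : Fintype.card (Fin 2) = Module.finrank ℝ E := by simp
  let B := basisOfLinearIndependentOfCardEqFinrank hef hcard
  have hB : ⇑B = ![e, f] := coe_basisOfLinearIndependentOfCardEqFinrank hef hcard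
  have hrep : ∀ p : E, p = B.repr p 0 • e + B.repr p 1 • f := by
    intro p
    have := B.sum_repr p
    rw [Fin.sum_univ_two, hB] at this
    simpa using this.symm
  refine ⟨fun p => B.repr p 0, fun p => B.repr p 1, ?_, ?_, hrep, ?_⟩
  · exact (B.coord 0).continuous_of_finiteDimensional
  · exact (B.coord 1).continuous_of_finiteDimensional
  · intro p x y hp
    have h1 := hrep p
    have h2 : (x - B.repr p 0) • e + (y - B.repr p 1) • f = 0 := by
      rw [sub_smul, sub_smul]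
      have : x • e + y • f = B.repr p 0 • e + B.repr p 1 • f := by rw [← hp, ← h1]
      have h3 : x • e - B.repr p 0 • e + (y • f - B.repr p 1 • f) =
          (x • e + y • f) - (B.repr p 0 • e + B.repr p 1 • f) := by abel
      rw [h3, this, sub_self]
    have h3 := LinearIndependent.pair_iff.1 hef _ _ h2
    exact ⟨by linarith [h3.1], by linarith [h3.2]⟩

end Pool.Agent.LFT.Graph

namespace Pool.Agent.LFT

open MeasureTheory Set Filter Topology
open scoped RealInnerProductSpace ENNReal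

theorem graph_proof : Stmt_Graph := by
  intro e f w τ hef hτ hwe hwf
  obtain ⟨X, Y, hX, hY, hXY, huniq⟩ := Graph.exists_coord e f hef
  set b := ‖e‖ with hb
  set c := ‖f‖ with hc
  have hb0 : 0 ≤ b := norm_nonneg _
  have hc0 : 0 ≤ c := norm_nonneg _
  set W : ℝ := c + b * (1 - τ ^ 2) / 2 with hW
  refine ⟨2 * (|W| + c + 2 * b), ?_⟩
  intro γ t1 t2 h12 hγ hG
  let H : ℝ → ℝ := fun t => Graph.pot b c τ W (X (γ t)) (Y (γ t))
  have hGt : ∀ t ∈ Icc t1 t2, Graph.OnG ((1 + τ) / 2) (X (γ t)) (Y (γ t)) :=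
    fun t ht => hG t ht _ _ (hXY (γ t))
  have hloc : ∀ t ∈ Icc t1 t2, ∃ ε > 0, ∀ s ∈ Icc t1 t2, |s - t| < ε →
      edist (H s) (H t) ≤ edist (γ s) (γ t) := by
    intro t ht
    obtain ⟨ε, hε, hl⟩ := Graph.pot_local b c τ W hb0 hc0 hτ hW _ _ (hGt t ht)
    have hcX : ContinuousWithinAt (fun s => X (γ s)) (Icc t1 t2) t :=
      hX.continuousAt.comp_continuousWithinAt (hγ t ht)
    have hcY : ContinuousWithinAt (fun s => Y (γ s)) (Icc t1 t2) t :=
      hY.continuousAt.comp_continuousWithinAt (hγ t ht)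
    rw [Metric.continuousWithinAt_iff] at hcX hcY
    obtain ⟨ε1, hε1, h1⟩ := hcX ε hε
    obtain ⟨ε2, hε2, h2⟩ := hcY ε hε
    refine ⟨min ε1 ε2, lt_min hε1 hε2, ?_⟩
    intro s hs hst
    rw [lt_min_iff] at hst
    have hx : |X (γ s) - X (γ t)| < ε := by
      have := h1 hs (by rw [Real.dist_eq]; exact hst.1)
      rwa [Real.dist_eq] at this
    have hy : |Y (γ s) - Y (γ t)| < ε := by
      have := h2 hs (by rw [Real.dist_eq]; exact hst.2)
      rwa [Real.dist_eq] at this
    have hdist : edist (H s) (H t) = ENNReal.ofReal |H s - H t| := by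
      rw [edist_dist, Real.dist_eq]
    rw [hdist, edist_dist, dist_eq_norm]
    apply ENNReal.ofReal_le_ofReal
    rcases hl _ _ hx hy (hGt s hs) with ⟨hxx, hle⟩ | ⟨hyy, hle⟩
    · have e1 : γ s - γ t = (Y (γ s) - Y (γ t)) • f := by
        conv_lhs => rw [hXY (γ s), hXY (γ t)]
        rw [hxx, sub_smul]
        abel
      rw [e1, norm_smul, Real.norm_eq_abs, mul_comm]
      exact hle
    · have e1 : γ s - γ t = (X (γ s) - X (γ t)) • e := by
        conv_lhs => rw [hXY (γ s), hXY (γ t)]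
        rw [hyy, sub_smul]
        abel
      rw [e1, norm_smul, Real.norm_eq_abs, mul_comm]
      exact hle
  have hmain := Graph.local_to_global γ H t1 t2 h12 hloc
  refine le_trans ?_ hmain
  rw [edist_dist, Real.dist_eq]
  apply ENNReal.ofReal_le_ofReal
  have hw : ∀ t, ⟪w, γ t⟫ = X (γ t) * (b * τ) + Y (γ t) * W := by
    intro t
    conv_lhs => rw [hXY (γ t)]
    rw [inner_add_right, real_inner_smul_right, real_inner_smul_right, hwe, hwf]
  have hb2 := Graph.pot_bdd b c τ W hb0 hc0 hτ (X (γ t2)) (Y (γ t2))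
  have hb1 := Graph.pot_bdd b c τ W hb0 hc0 hτ (X (γ t1)) (Y (γ t1))
  rw [inner_sub_right, hw, hw]
  have h3 : H t2 - H t1 ≤ |H t2 - H t1| := le_abs_self _
  have h4 := (abs_le.1 hb2).1
  have h5 := (abs_le.1 hb1).2
  have h6 : H t2 = Graph.pot b c τ W (X (γ t2)) (Y (γ t2)) := rfl
  have h7 : H t1 = Graph.pot b c τ W (X (γ t1)) (Y (γ t1)) := rfl
  rw [← h6] at h4
  rw [← h7] at h5
  linarith

end Pool.Agent.LFT
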