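import Pool.Agent.LFT.HStmts

/-!
# Basic facts on the cross product
-/

namespace Pool.Agent.LFT

open MeasureTheory Set
open scoped RealInnerProductSpace ENNReal

namespace HBasic

theorem cr_add_right (a b c : E) : cr a (b + c) = cr a b + cr a c := by
  simp only [cr, PiLp.add_apply]; ring

theorem cr_add_left (a b c : E) : cr (a + b) c = cr a c + cr b c := by
  simp only [cr, PiLp.add_apply]; ring

theorem cr_sub_right (a b c : E) : cr a (b - c) = cr a b - cr a c := by
  simp only [cr, PiLp.sub_apply]; ring

theorem cr_smul_right (a b : E) (s : ℝ) : cr a (s • b) = s * cr a b := by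
  simp only [cr, PiLp.smul_apply, smul_eq_mul]; ring

theorem cr_smul_left (a b : E) (s : ℝ) : cr (s • a) b = s * cr a b := by
  simp only [cr, PiLp.smul_apply, smul_eq_mul]; ring

theorem cr_self (a : E) : cr a a = 0 := by
  simp only [cr]; ring

theorem cr_anti (a b : E) : cr a b = -cr b a := by
  simp only [cr]; ring

theorem cr_continuous (a : E) : Continuous (fun p => cr a p) := by
  unfold cr
  fun_prop

/-- Every vector is a combination of `a` and `b`. -/
theorem expand (a b p : E) (h : cr a b ≠ 0) :
    p = (cr p b / cr a b) • a + (cr a p / cr a b) • b := by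
  ext i
  fin_cases i
  · simp only [PiLp.add_apply, PiLp.smul_apply, smul_eq_mul]
    field_simp
    simp only [cr, Fin.zero_eta]
    ring
  · simp only [PiLp.add_apply, PiLp.smul_apply, smul_eq_mul]
    field_simp
    simp only [cr, Fin.mk_one]
    ring

/-- The Pluecker relation. -/
theorem pluecker (g1 g2 g3 : E) :
    cr g2 g3 • g1 - cr g1 g3 • g2 + cr g1 g2 • g3 = 0 := by
  ext i
  fin_cases i
  · simp only [PiLp.add_apply, PiLp.sub_apply, PiLp.smul_apply, smul_eq_mul, PiLp.zero_apply, cr,
      Fin.zero_eta]
    ring
  · simp only [PiLp.add_apply, PiLp.sub_apply, PiLp.smul_apply, smul_eq_mul, PiLp.zero_apply, cr,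
      Fin.mk_one]
    ring

end HBasic

end Pool.Agent.LFT
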