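import Pool.Agent.LFT.HDet0

/-!
# Module HDET: detour data of a hexagon, all positions
-/

namespace Pool.Agent.LFT

open MeasureTheory Set
open scoped RealInnerProductSpace ENNReal

namespace HDet

open HBasic Para0X HDet0

lemma cr_neg_right (a b : E) : cr a (-b) = -cr a b := by
  simp only [cr, PiLp.neg_apply]; ring

lemma pos_shift {g1 g2 g3 : E} (h : Pos3 g1 g2 g3) : Pos3 g2 g3 (-g1) := by
  refine ⟨h.p23, ?_, ?_⟩
  · rw [cr_neg_right, ← cr_anti]; exact h.p13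
  · rw [cr_neg_right, ← cr_anti]; exact h.p12

lemma hex_shift (z g1 g2 g3 : E) : Hex z g2 g3 (-g1) = Hex z g1 g2 g3 := by
  ext p
  constructor
  · rintro ⟨s1, s2, s3, h1, h2, h3, rfl⟩
    exact ⟨-s3, s1, s2, by rwa [abs_neg], h1, h2, by module⟩
  · rintro ⟨s1, s2, s3, h1, h2, h3, rfl⟩
    exact ⟨s2, s3, -s1, h2, h3, by rwa [abs_neg], by module⟩

lemma nh_shift (g1 g2 g3 v : E) : NH g2 g3 (-g1) v = NH g1 g2 g3 v := by
  have a1 : (-(1 / 2 : ℝ) • (g2 + g3 + -g1)) = -(1 / 2 : ℝ) • (g1 + g2 + g3) + g1 := by module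
  have a2 : (-(1 / 2 : ℝ) • (g2 + g3 + -g1)) + g2 =
      -(1 / 2 : ℝ) • (g1 + g2 + g3) + g1 + g2 := by module
  have a3 : mom v ((-(1 / 2 : ℝ) • (g2 + g3 + -g1)) + g2 + g3) (-g1) =
      mom v (-(1 / 2 : ℝ) • (g1 + g2 + g3)) g1 := by
    unfold mom
    apply intervalIntegral.integral_congr
    intro s _
    have e : (-(1 / 2 : ℝ) • (g2 + g3 + -g1)) + g2 + g3 + s • (-g1) =
      -(-(1 / 2 : ℝ) • (g1 + g2 + g3) + s • g1) := by module
    simp only []
    rw [e, cr_neg_right, abs_neg]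
  unfold NH
  rw [a3, a2, a1, norm_neg, cr_neg_right, cr_neg_right, ← cr_anti, ← cr_anti]
  congr 1
  · ring
  · ring

/-- a vector to the right, or straight up -/
def Pv (u n g : E) : Prop := 0 < ⟪u, g⟫ ∨ (⟪u, g⟫ = 0 ∧ 0 < ⟪n, g⟫)

lemma pv_or {u n g : E} (h : ON u n) (hg : g ≠ 0) : Pv u n g ∨ Pv u n (-g) := by
  unfold Pv
  rcases lt_trichotomy ⟪u, g⟫ 0 with h1 | h1 | h1
  · right; left; rw [inner_neg_right]; linarith
  · rcases lt_trichotomy ⟪n, g⟫ 0 with h2 | h2 | h2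
    · right; right; rw [inner_neg_right, inner_neg_right]; exact ⟨by linarith, by linarith⟩
    · exfalso
      exact hg (on_ext h (by rw [h1, inner_zero_right]) (by rw [h2, inner_zero_right]))
    · left; right; exact ⟨h1, h2⟩
  · left; left; exact h1

lemma canon_of {u n g1 g2 g3 : E} (h : ON u n) (ho : cr u n = 1) (hp : Pos3 g1 g2 g3)
    (h1 : Pv u n g1) (h2 : Pv u n g2) (h3 : Pv u n g3) : Canon u n g1 g2 g3 := by
  have w1 : 0 ≤ ⟪u, g1⟫ := by rcases h1 with h | h; exacts [h.le, h.1.ge]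
  have w2 : 0 ≤ ⟪u, g2⟫ := by rcases h2 with h | h; exacts [h.le, h.1.ge]
  have w3 : 0 ≤ ⟪u, g3⟫ := by rcases h3 with h | h; exacts [h.le, h.1.ge]
  refine ⟨h, ho, hp, ?_, ?_, w3⟩
  · rcases h1 with h1 | h1
    · exact h1
    · exfalso
      have := hp.p12
      rw [cr_gg h ho, h1.1] at this
      nlinarith [mul_nonneg w2 h1.2.le]
  · rcases h2 with h2 | h2
    · exact h2
    · exfalso
      have := hp.p23
      rw [cr_gg h ho, h2.1] at this
      nlinarith [mul_nonneg w3 h2.2.le]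

lemma pv_comb {u n a b c : E} {x y t : ℝ} (hx : 0 < x) (hy : 0 < y) (ht : 0 < t)
    (e : t • c = x • a + y • b) (ha : Pv u n a) (hb : Pv u n b) : ¬ Pv u n (-c) := by
  have eu := congrArg (fun p => ⟪u, p⟫) e
  have en := congrArg (fun p => ⟪n, p⟫) e
  simp only [inner_add_right, inner_smul_right] at eu en
  unfold Pv
  rw [inner_neg_right, inner_neg_right]
  rcases ha with ha | ha <;> rcases hb with hb | hb <;> rintro (hc | hc)
  · nlinarith [mul_pos hx ha, mul_pos hy hb, mul_pos ht hc]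
  · have : ⟪u, c⟫ = 0 := by linarith [hc.1]
    rw [this] at eu
    nlinarith [mul_pos hx ha, mul_pos hy hb]
  · rw [hb.1] at eu
    nlinarith [mul_pos hx ha, mul_pos ht hc]
  · have : ⟪u, c⟫ = 0 := by linarith [hc.1]
    rw [this, hb.1] at eu
    nlinarith [mul_pos hx ha]
  · rw [ha.1] at eu
    nlinarith [mul_pos hy hb, mul_pos ht hc]
  · have : ⟪u, c⟫ = 0 := by linarith [hc.1]
    rw [this, ha.1] at eu
    nlinarith [mul_pos hy hb]
  · rw [ha.1, hb.1] at eu
    nlinarith [mul_pos ht hc]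
  · nlinarith [mul_pos hx ha.2, mul_pos hy hb.2, mul_pos ht hc.2]

/-- the conclusion -/
def Concl (u n z : E) (c : ℝ) (g1 g2 g3 : E) : Prop :=
  ∃ (xc h : ℝ) (lo up r : ℝ → ℝ), Detour u n c (Hex z g1 g2 g3) xc h lo up r ∧
    h ≤ (‖g1‖ + ‖g2‖ + ‖g3‖) / 2

lemma concl_shift {u n z : E} {c : ℝ} {g1 g2 g3 : E} (h : Concl u n z c g2 g3 (-g1)) :
    Concl u n z c g1 g2 g3 := by
  obtain ⟨xc, h, lo, up, r, hd, hh⟩ := h
  rw [hex_shift] at hd
  exact ⟨xc, h, lo, up, r, hd, by rw [norm_neg] at hh; linarith⟩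

lemma base (h0 : Stmt_HDet0) {u n z : E} {c : ℝ} {g1 g2 g3 : E} (h : ON u n) (ho : cr u n = 1)
    (hp : Pos3 g1 g2 g3) (hN : NH g1 g2 g3 n ≤ c)
    (h1 : Pv u n g1) (h2 : Pv u n g2) (h3 : Pv u n g3) : Concl u n z c g1 g2 g3 :=
  h0 u n z g1 g2 g3 c (canon_of h ho hp h1 h2 h3) hN

end HDet

open HDet HBasic

theorem hdet_proof (h0 : Stmt_HDet0) : Stmt_HDet := by
  intro u n z g1 g2 g3 c h ho hp hN
  change Concl u n z c g1 g2 g3
  have hne : ∀ a b : E, 0 < cr a b → a ≠ 0 ∧ b ≠ 0 := by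
    intro a b hab
    constructor
    · rintro rfl; simp [cr] at hab
    · rintro rfl; simp [cr] at hab
  have p1 := pv_or (g := g1) h (hne _ _ hp.p12).1
  have p2 := pv_or (g := g2) h (hne _ _ hp.p12).2
  have p3 := pv_or (g := g3) h (hne _ _ hp.p13).2
  have pl := pluecker g1 g2 g3
  have hp1 := pos_shift hp
  have hp2 := pos_shift hp1
  have hp3 := pos_shift hp2
  have hp4 := pos_shift hp3
  have hp5 := pos_shift hp4
  have N1 : NH g2 g3 (-g1) n ≤ c := by rw [nh_shift]; exact hN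
  have N2 : NH g3 (-g1) (-g2) n ≤ c := by rw [nh_shift]; exact N1
  have N3 : NH (-g1) (-g2) (-g3) n ≤ c := by rw [nh_shift]; exact N2
  have N4 : NH (-g2) (-g3) (-(-g1)) n ≤ c := by rw [nh_shift]; exact N3
  have N5 : NH (-g3) (-(-g1)) (-(-g2)) n ≤ c := by rw [nh_shift]; exact N4
  rcases p1 with p1 | p1 <;> rcases p2 with p2 | p2 <;> rcases p3 with p3 | p3
  · exact base h0 h ho hp hN p1 p2 p3
  · -- (+,+,-): five shifts
    apply concl_shift; apply concl_shift; apply concl_shift; apply concl_shift; apply concl_shift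
    exact base h0 h ho hp5 N5 p3 (by rwa [neg_neg]) (by rwa [neg_neg])
  · -- (+,-,+) impossible
    exfalso
    refine pv_comb (c := g2) (t := cr g1 g3) hp.p23 hp.p12 hp.p13 ?_ p1 p3 p2
    have : cr g1 g3 • g2 = cr g2 g3 • g1 + cr g1 g2 • g3 -
      (cr g2 g3 • g1 - cr g1 g3 • g2 + cr g1 g2 • g3) := by abel
    rw [this, pl, sub_zero]
  · -- (+,-,-): four shifts
    apply concl_shift; apply concl_shift; apply concl_shift; apply concl_shift
    exact base h0 h ho hp4 N4 p2 p3 (by rwa [neg_neg])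
  · -- (-,+,+): one shift
    apply concl_shift
    exact base h0 h ho hp1 N1 p2 p3 p1
  · -- (-,+,-) impossible
    exfalso
    refine pv_comb (c := -g2) (t := cr g1 g3) hp.p23 hp.p12 hp.p13 ?_ p1 p3 (by rwa [neg_neg])
    have : cr g1 g3 • (-g2) = cr g2 g3 • (-g1) + cr g1 g2 • (-g3) +
      (cr g2 g3 • g1 - cr g1 g3 • g2 + cr g1 g2 • g3) := by
      simp only [smul_neg]; abel
    rw [this, pl, add_zero]
  · -- (-,-,+): two shifts
    apply concl_shift; apply concl_shift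
    exact base h0 h ho hp2 N2 p3 p1 p2
  · -- (-,-,-): three shifts
    apply concl_shift; apply concl_shift; apply concl_shift
    exact base h0 h ho hp3 N3 p1 p2 p3

end Pool.Agent.LFT
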