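import Pool.Agent.LFT.Stmts

namespace Pool.Agent.LFT

open MeasureTheory Set
open scoped RealInnerProductSpace ENNReal

namespace Para0X

lemma on_expand {u n : E} (h : ON u n) (p : E) : ⟪u, p⟫ • u + ⟪n, p⟫ • n = p := by
  obtain ⟨hu, hn, hun⟩ := h
  have hun' : ⟪n, u⟫ = 0 := by rw [real_inner_comm]; exact hun
  have ho : Orthonormal ℝ ![u, n] := by
    rw [orthonormal_iff_ite]
    intro i j
    fin_cases i <;> fin_cases j <;> simp [hu, hn, hun, hun']
  have hc : Fintype.card (Fin 2) = Module.finrank ℝ E := by simp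
  let b := basisOfOrthonormalOfCardEqFinrank ho hc
  have hb : ⇑b = ![u, n] := coe_basisOfOrthonormalOfCardEqFinrank ho hc
  let B : OrthonormalBasis (Fin 2) ℝ E := b.toOrthonormalBasis (by rw [hb]; exact ho)
  have hB : ⇑B = ![u, n] := by
    simp only [B, Module.Basis.coe_toOrthonormalBasis, hb]
  have := B.sum_repr' p
  rw [hB] at this
  simpa [Fin.sum_univ_two] using this

lemma on_ext {u n : E} (h : ON u n) {p q : E} (h1 : ⟪u, p⟫ = ⟪u, q⟫) (h2 : ⟪n, p⟫ = ⟪n, q⟫) :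
    p = q := by
  rw [← on_expand h p, ← on_expand h q, h1, h2]

lemma pt_u {u n : E} (h : ON u n) (a b : ℝ) : ⟪u, pt u n a b⟫ = a := by
  obtain ⟨hu, hn, hun⟩ := h
  simp [pt, inner_add_right, inner_smul_right, hun, hu]

lemma pt_n {u n : E} (h : ON u n) (a b : ℝ) : ⟪n, pt u n a b⟫ = b := by
  obtain ⟨hu, hn, hun⟩ := h
  have hun' : ⟪n, u⟫ = 0 := by rw [real_inner_comm]; exact hun
  simp [pt, inner_add_right, inner_smul_right, hun', hn]

/-- the setting -/
structure Set0 (u n z e f : E) (x y w g τ : ℝ) : Prop where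
  on : ON u n
  ypos : 0 < y
  tau0 : 0 ≤ τ
  tau1 : τ ≤ 1
  xy : x = τ * y
  ue : ⟪u, e⟫ = w
  uf : ⟪u, f⟫ = -(τ * w)
  ne : ⟪n, e⟫ = g
  nf : ⟪n, f⟫ = 1 / y - τ * g
  wne : w ≠ 0
  epos : 0 < ‖e‖
  fpos : 0 < ‖f‖

variable {u n z e f : E} {x y w g τ : ℝ}

lemma set0_of (hon : ON u n) (hli : LinearIndependent ℝ ![e, f]) (hn : n = x • e + y • f)
    (hx : 0 ≤ x) (hxy : x ≤ y) :
    Set0 u n z e f x y ⟪u, e⟫ ⟪n, e⟫ (x / y) := by
  have hon' := hon
  obtain ⟨hu, hn1, hun⟩ := hon'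
  have hy : 0 < y := by
    rcases lt_or_eq_of_le (hx.trans hxy) with h | h
    · exact h
    · exfalso
      have hx0 : x = 0 := by linarith
      rw [hx0, ← h] at hn
      simp at hn
      rw [hn] at hn1
      simp at hn1
  have hun2 : x * ⟪u, e⟫ + y * ⟪u, f⟫ = 0 := by
    have := hun
    rw [hn] at this
    simpa [inner_add_right, inner_smul_right] using this
  have hnn : x * ⟪n, e⟫ + y * ⟪n, f⟫ = 1 := by
    have h1 : ⟪n, n⟫ = 1 := by rw [real_inner_self_eq_norm_sq, hn1]; norm_num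
    have h2 : ⟪n, n⟫ = ⟪n, x • e + y • f⟫ := by rw [← hn]
    rw [h1] at h2
    rw [inner_add_right, inner_smul_right, inner_smul_right] at h2
    exact h2.symm
  have he : e ≠ 0 := by
    have := hli.ne_zero 0
    simpa using this
  have hf : f ≠ 0 := by
    have := hli.ne_zero 1
    simpa using this
  have huf : ⟪u, f⟫ = -(x / y * ⟪u, e⟫) := by
    field_simp
    linarith
  refine ⟨hon, hy, div_nonneg hx hy.le, (div_le_one hy).2 hxy, by field_simp, rfl, huf, rfl, ?_,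
    ?_, norm_pos_iff.2 he, norm_pos_iff.2 hf⟩
  · field_simp
    linarith
  · intro hw
    rw [hw, mul_zero, neg_zero] at huf
    rw [LinearIndependent.pair_iff] at hli
    have h1 := on_expand hon e
    have h2 := on_expand hon f
    rw [hw, zero_smul, zero_add] at h1
    rw [huf, zero_smul, zero_add] at h2
    have h3 := hli ⟪n, f⟫ (-⟪n, e⟫) (by
      have ha : ⟪n, f⟫ • e = (⟪n, f⟫ * ⟪n, e⟫) • n := by
        rw [mul_smul, h1]
      have hb : (-⟪n, e⟫) • f = (-⟪n, e⟫ * ⟪n, f⟫) • n := by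
        rw [mul_smul, h2]
      rw [ha, hb, ← add_smul]
      ring_nf
      simp)
    have h4 : ⟪n, e⟫ = 0 := by linarith [h3.2]
    rw [h4, zero_smul] at h1
    exact he h1.symm


/-- the point with coordinates `s`, `t` -/
def P (z e f : E) (s t : ℝ) : E := z + s • e + t • f

lemma P_u (h : Set0 u n z e f x y w g τ) (s t : ℝ) :
    ⟪u, P z e f s t⟫ = ⟪u, z⟫ + w * (s - τ * t) := by
  simp only [P, inner_add_right, inner_smul_right, h.ue, h.uf]
  ring

lemma P_n (h : Set0 u n z e f x y w g τ) (s t : ℝ) :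
    ⟪n, P z e f s t⟫ = ⟪n, z⟫ + g * (s - τ * t) + t / y := by
  simp only [P, inner_add_right, inner_smul_right, h.ne, h.nf]
  ring

/-- coordinate `m` -/
noncomputable def cm (u z : E) (w : ℝ) (p : E) : ℝ := (⟪u, p⟫ - ⟪u, z⟫) / w

/-- coordinate `t` -/
noncomputable def ct (u n z : E) (y w g : ℝ) (p : E) : ℝ :=
  y * (⟪n, p⟫ - ⟪n, z⟫ - g * cm u z w p)

/-- coordinate `s` -/
noncomputable def cs (u n z : E) (y w g τ : ℝ) (p : E) : ℝ :=
  cm u z w p + τ * ct u n z y w g p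

lemma P_coord (h : Set0 u n z e f x y w g τ) (p : E) :
    P z e f (cs u n z y w g τ p) (ct u n z y w g p) = p := by
  have hw := h.wne
  have hy := h.ypos.ne'
  apply on_ext h.on
  · rw [P_u h, cs]
    simp only [cm]
    field_simp
    ring
  · rw [P_n h, cs, ct]
    field_simp
    ring

lemma cm_P (h : Set0 u n z e f x y w g τ) (s t : ℝ) : cm u z w (P z e f s t) = s - τ * t := by
  have hw := h.wne
  rw [cm, P_u h]
  field_simp
  ring

lemma ct_P (h : Set0 u n z e f x y w g τ) (s t : ℝ) : ct u n z y w g (P z e f s t) = t := by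
  have hy := h.ypos.ne'
  rw [ct, cm_P h, P_n h]
  field_simp
  ring

lemma cs_P (h : Set0 u n z e f x y w g τ) (s t : ℝ) : cs u n z y w g τ (P z e f s t) = s := by
  rw [cs, cm_P h, ct_P h]
  ring

lemma cm_cont : Continuous (cm u z w) := by
  unfold cm
  fun_prop

lemma ct_cont : Continuous (ct u n z y w g) := by
  unfold ct
  have := cm_cont (u := u) (z := z) (w := w)
  fun_prop

/-- the coordinate homeomorphism -/
noncomputable def hom (h : Set0 u n z e f x y w g τ) : E ≃ₜ ℝ × ℝ where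
  toFun p := (cs u n z y w g τ p, ct u n z y w g p)
  invFun q := P z e f q.1 q.2
  left_inv p := P_coord h p
  right_inv q := by
    ext
    · exact cs_P h _ _
    · exact ct_P h _ _
  continuous_toFun := by
    have h1 := cm_cont (u := u) (z := z) (w := w)
    have h2 := ct_cont (u := u) (n := n) (z := z) (y := y) (w := w) (g := g)
    unfold cs
    fun_prop
  continuous_invFun := by
    unfold P
    fun_prop

lemma para_eq (h : Set0 u n z e f x y w g τ) :
    Para z e f = hom h ⁻¹' (Icc (-(1/2)) (1/2) ×ˢ Icc (-(1/2)) (1/2)) := by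
  ext p
  constructor
  · rintro ⟨s, t, hs, ht, rfl⟩
    have h1 : z + s • e + t • f = P z e f s t := rfl
    rw [h1]
    simp only [mem_preimage, hom, Homeomorph.homeomorph_mk_coe, Equiv.coe_fn_mk, cs_P h, ct_P h,
      mem_prod, mem_Icc]
    exact ⟨abs_le.1 hs, abs_le.1 ht⟩
  · intro hp
    simp only [mem_preimage, hom, Homeomorph.homeomorph_mk_coe, Equiv.coe_fn_mk,
      mem_prod, mem_Icc] at hp
    exact ⟨_, _, abs_le.2 hp.1, abs_le.2 hp.2, (P_coord h p).symm⟩

lemma mem_para (h : Set0 u n z e f x y w g τ) (p : E) :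
    p ∈ Para z e f ↔ |cs u n z y w g τ p| ≤ 1 / 2 ∧ |ct u n z y w g p| ≤ 1 / 2 := by
  rw [para_eq h]
  simp only [mem_preimage, hom, Homeomorph.homeomorph_mk_coe, Equiv.coe_fn_mk,
      mem_prod, mem_Icc, abs_le]

lemma mem_int (h : Set0 u n z e f x y w g τ) (p : E) :
    p ∈ interior (Para z e f) ↔ |cs u n z y w g τ p| < 1 / 2 ∧ |ct u n z y w g p| < 1 / 2 := by
  rw [para_eq h, ← (hom h).preimage_interior, interior_prod_eq, interior_Icc]
  simp only [mem_preimage, hom, Homeomorph.homeomorph_mk_coe, Equiv.coe_fn_mk,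
      mem_prod, mem_Ioo, abs_lt]

lemma isClosed_para (h : Set0 u n z e f x y w g τ) : IsClosed (Para z e f) := by
  rw [para_eq h]
  exact (isClosed_Icc.prod isClosed_Icc).preimage (hom h).continuous

lemma mem_front (h : Set0 u n z e f x y w g τ) {s t : ℝ} (hs : |s| ≤ 1 / 2) (ht : |t| ≤ 1 / 2)
    (hst : |s| = 1 / 2 ∨ |t| = 1 / 2) : P z e f s t ∈ frontier (Para z e f) := by
  rw [(isClosed_para h).frontier_eq]
  refine ⟨(mem_para h _).2 (by rw [cs_P h, ct_P h]; exact ⟨hs, ht⟩), fun hc => ?_⟩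
  rw [mem_int h, cs_P h, ct_P h] at hc
  rcases hst with h1 | h1
  · exact absurd hc.1 (by rw [h1]; exact lt_irrefl _)
  · exact absurd hc.2 (by rw [h1]; exact lt_irrefl _)

/-- horizontal segment -/
lemma seg_h (h : Set0 u n z e f x y w g τ) {s s' t : ℝ} (hs : |s| ≤ 1 / 2) (hs' : |s'| ≤ 1 / 2)
    (ht : |t| ≤ 1 / 2) (hc : |t| = 1 / 2 ∨ (|s| = 1 / 2 ∧ s' = s)) :
    PathIn (frontier (Para z e f)) (P z e f s t) (P z e f s' t) (‖e‖ * |s - s'|) := by
  have h1 : dist (P z e f s t) (P z e f s' t) = ‖e‖ * |s - s'| := by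
    rw [dist_eq_norm]
    have : P z e f s t - P z e f s' t = (s - s') • e := by
      simp only [P]
      module
    rw [this, norm_smul, Real.norm_eq_abs, mul_comm]
  rw [← h1]
  apply PathIn.seg
  intro p hp
  rw [segment_eq_image'] at hp
  obtain ⟨θ, ⟨h0, h1'⟩, rfl⟩ := hp
  have h2 : P z e f s t + θ • (P z e f s' t - P z e f s t) = P z e f (s + θ * (s' - s)) t := by
    simp only [P]
    module
  simp only [h2]
  rw [abs_le] at hs hs'
  refine mem_front h ?_ ht ?_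
  · rw [abs_le]
    constructor
    · nlinarith [hs.1, hs'.1]
    · nlinarith [hs.2, hs'.2]
  · rcases hc with hc | ⟨hc, hc'⟩
    · exact Or.inr hc
    · left
      rw [hc']
      simpa using hc

/-- vertical segment -/
lemma seg_v (h : Set0 u n z e f x y w g τ) {s t t' : ℝ} (ht : |t| ≤ 1 / 2) (ht' : |t'| ≤ 1 / 2)
    (hs : |s| = 1 / 2) :
    PathIn (frontier (Para z e f)) (P z e f s t) (P z e f s t') (‖f‖ * |t - t'|) := by
  have h1 : dist (P z e f s t) (P z e f s t') = ‖f‖ * |t - t'| := by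
    rw [dist_eq_norm]
    have : P z e f s t - P z e f s t' = (t - t') • f := by
      simp only [P]
      module
    rw [this, norm_smul, Real.norm_eq_abs, mul_comm]
  rw [← h1]
  apply PathIn.seg
  intro p hp
  rw [segment_eq_image'] at hp
  obtain ⟨θ, ⟨h0, h1'⟩, rfl⟩ := hp
  have h2 : P z e f s t + θ • (P z e f s t' - P z e f s t) = P z e f s (t + θ * (t' - t)) := by
    simp only [P]
    module
  simp only [h2]
  rw [abs_le] at ht ht'
  refine mem_front h hs.le ?_ (Or.inl hs)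
  rw [abs_le]
  constructor
  · nlinarith [ht.1, ht'.1]
  · nlinarith [ht.2, ht'.2]

/-- the upper end of the chord in the coordinate `t`. -/
noncomputable def T (τ m : ℝ) : ℝ := if τ = 0 then 1 / 2 else min (1 / 2) ((1 / 2 - m) / τ)

lemma T_cont (τ : ℝ) : Continuous (T τ) := by
  unfold T
  by_cases h : τ = 0
  · simp only [h, if_true]
    exact continuous_const
  · simp only [h, if_false]
    fun_prop

lemma le_T (h0 : 0 ≤ τ) {m t : ℝ} (hm : m ≤ (1 + τ) / 2) :
    t ≤ T τ m ↔ t ≤ 1 / 2 ∧ m + τ * t ≤ 1 / 2 := by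
  unfold T
  by_cases h : τ = 0
  · simp only [h, if_true]
    subst h
    constructor
    · intro h1
      exact ⟨h1, by linarith⟩
    · exact fun h1 => h1.1
  · simp only [h, if_false]
    have hp : 0 < τ := lt_of_le_of_ne h0 (Ne.symm h)
    rw [le_min_iff, le_div_iff₀ hp]
    constructor
    · rintro ⟨h1, h2⟩
      exact ⟨h1, by linarith⟩
    · rintro ⟨h1, h2⟩
      exact ⟨h1, by linarith⟩

lemma lt_T (h0 : 0 ≤ τ) {m t : ℝ} (hm : m < (1 + τ) / 2) :
    t < T τ m ↔ t < 1 / 2 ∧ m + τ * t < 1 / 2 := by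
  unfold T
  by_cases h : τ = 0
  · simp only [h, if_true]
    subst h
    constructor
    · intro h1
      exact ⟨h1, by linarith⟩
    · exact fun h1 => h1.1
  · simp only [h, if_false]
    have hp : 0 < τ := lt_of_le_of_ne h0 (Ne.symm h)
    rw [lt_min_iff, lt_div_iff₀ hp]
    constructor
    · rintro ⟨h1, h2⟩
      exact ⟨h1, by linarith⟩
    · rintro ⟨h1, h2⟩
      exact ⟨h1, by linarith⟩

lemma T_le (_h0 : 0 ≤ τ) (m : ℝ) : T τ m ≤ 1 / 2 := by
  unfold T
  split_ifs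
  · exact le_rfl
  · exact min_le_left _ _

lemma T_eq_half (h0 : 0 ≤ τ) {m : ℝ} (hm : m ≤ (1 - τ) / 2) : T τ m = 1 / 2 := by
  apply le_antisymm (T_le h0 m)
  rw [le_T h0 (by linarith)]
  exact ⟨le_rfl, by linarith⟩

lemma T_eq_div (h0 : 0 < τ) {m : ℝ} (hm : (1 - τ) / 2 ≤ m) : T τ m = (1 / 2 - m) / τ := by
  unfold T
  rw [if_neg h0.ne']
  apply min_eq_right
  rw [div_le_iff₀ h0]
  linarith


/-- path length as a function of `m`. -/
noncomputable def rho (b c τ m : ℝ) : ℝ :=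
  b * (1 - 2 * |m| + τ / 2 - τ * T τ |m|) + c * (T τ |m| + 1 / 2)

lemma T_ge (h0 : 0 ≤ τ) {m : ℝ} (hm : m ≤ (1 + τ) / 2) : -(1 / 2) ≤ T τ m := by
  rw [le_T h0 hm]
  exact ⟨by norm_num, by linarith⟩

lemma T_prop (h0 : 0 ≤ τ) {m : ℝ} (hm : m ≤ (1 + τ) / 2) : m + τ * T τ m ≤ 1 / 2 :=
  ((le_T h0 hm).1 le_rfl).2

lemma T_cases (h0 : 0 ≤ τ) (m : ℝ) : T τ m = 1 / 2 ∨ m + τ * T τ m = 1 / 2 := by
  rcases eq_or_lt_of_le h0 with h | h
  · left
    unfold T
    rw [if_pos h.symm]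
  · rcases le_total m ((1 - τ) / 2) with h1 | h1
    · exact Or.inl (T_eq_half h0 h1)
    · right
      rw [T_eq_div h h1]
      field_simp
      ring

/-- lower end of the chord -/
noncomputable def lowP (z e f : E) (τ m : ℝ) : E := P z e f (m - τ * T τ (-m)) (-T τ (-m))

/-- upper end of the chord -/
noncomputable def upP (z e f : E) (τ m : ℝ) : E := P z e f (m + τ * T τ m) (T τ m)

lemma right1 (h : Set0 u n z e f x y w g τ) {m : ℝ} (hm0 : 0 ≤ m) (hm : m < (1 + τ) / 2) :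
    PathIn (frontier (Para z e f)) (lowP z e f τ m) (P z e f (1 / 2) (-(1 / 2)))
      (‖e‖ * (1 / 2 + τ / 2 - m)) := by
  have h0 := h.tau0
  have h1 := h.tau1
  have hT : T τ (-m) = 1 / 2 := T_eq_half h0 (by linarith)
  unfold lowP
  rw [hT]
  have := seg_h h (s := m - τ * (1 / 2)) (s' := 1 / 2) (t := -(1 / 2))
    (by rw [abs_le]; constructor <;> linarith) (by rw [abs_of_pos] <;> norm_num)
    (by rw [abs_neg, abs_of_pos] <;> norm_num)
    (Or.inl (by rw [abs_neg, abs_of_pos]; norm_num))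
  have h2 : |m - τ * (1 / 2) - 1 / 2| = 1 / 2 + τ / 2 - m := by
    rw [abs_of_nonpos (by linarith)]
    ring
  rw [h2] at this
  exact this

lemma right2 (h : Set0 u n z e f x y w g τ) {m : ℝ} (hm0 : 0 ≤ m) (hm : m < (1 + τ) / 2) :
    PathIn (frontier (Para z e f)) (lowP z e f τ m) (upP z e f τ m)
      (rho ‖e‖ ‖f‖ τ m) := by
  have h0 := h.tau0
  have h1 := h.tau1
  have hT1 := T_le h0 m
  have hT2 := T_ge h0 hm.le
  have hT3 := T_prop h0 hm.le
  have hT : |T τ m| ≤ 1 / 2 := abs_le.2 ⟨hT2, hT1⟩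
  have p1 := right1 h hm0 hm
  have p2 := seg_v h (s := 1 / 2) (t := -(1 / 2)) (t' := T τ m)
    (by rw [abs_neg, abs_of_pos] <;> norm_num) hT (by rw [abs_of_pos]; norm_num)
  have p3 := seg_h h (s := 1 / 2) (s' := m + τ * T τ m) (t := T τ m)
    (by rw [abs_of_pos] <;> norm_num) (by
      rw [abs_le]; constructor
      · nlinarith
      · exact hT3) hT (by
      rcases T_cases h0 m with hc | hc
      · left
        rw [hc, abs_of_pos]; norm_num
      · right
        exact ⟨by rw [abs_of_pos]; norm_num, hc⟩)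
  have p := (p1.trans p2).trans p3
  have he : ‖e‖ * (1 / 2 + τ / 2 - m) + ‖f‖ * |-(1 / 2) - T τ m| +
      ‖e‖ * |1 / 2 - (m + τ * T τ m)| = rho ‖e‖ ‖f‖ τ m := by
    rw [abs_of_nonpos (by linarith : -(1 / 2) - T τ m ≤ 0),
      abs_of_nonneg (by linarith : 0 ≤ 1 / 2 - (m + τ * T τ m)), rho, abs_of_nonneg hm0]
    ring
  rw [he] at p
  exact p

lemma left1 (h : Set0 u n z e f x y w g τ) {m : ℝ} (hm0 : m ≤ 0) (hm : -((1 + τ) / 2) < m) :
    PathIn (frontier (Para z e f)) (lowP z e f τ m) (P z e f (-(1 / 2)) (1 / 2))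
      (‖e‖ * (1 / 2 + m - τ * T τ (-m)) + ‖f‖ * (T τ (-m) + 1 / 2)) := by
  have h0 := h.tau0
  have h1 := h.tau1
  have hm' : -m ≤ (1 + τ) / 2 := by linarith
  have hT1 := T_le h0 (-m)
  have hT2 := T_ge h0 hm'
  have hT3 := T_prop h0 hm'
  have hT : |-T τ (-m)| ≤ 1 / 2 := by
    rw [abs_neg]
    exact abs_le.2 ⟨hT2, hT1⟩
  unfold lowP
  have p1 := seg_h h (s := m - τ * T τ (-m)) (s' := -(1 / 2)) (t := -T τ (-m))
    (by
      rw [abs_le]; constructor
      · linarith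
      · nlinarith) (by rw [abs_neg, abs_of_pos] <;> norm_num) hT (by
      rcases T_cases h0 (-m) with hc | hc
      · left
        rw [hc, abs_neg, abs_of_pos]; norm_num
      · right
        have : m - τ * T τ (-m) = -(1 / 2) := by linarith
        rw [this]
        exact ⟨by rw [abs_neg, abs_of_pos]; norm_num, rfl⟩)
  have p2 := seg_v h (s := -(1 / 2)) (t := -T τ (-m)) (t' := 1 / 2) hT
    (by rw [abs_of_pos] <;> norm_num) (by rw [abs_neg, abs_of_pos]; norm_num)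
  have p := p1.trans p2
  have he : ‖e‖ * |m - τ * T τ (-m) - -(1 / 2)| + ‖f‖ * |-T τ (-m) - 1 / 2| =
      (‖e‖ * (1 / 2 + m - τ * T τ (-m)) + ‖f‖ * (T τ (-m) + 1 / 2)) := by
    rw [abs_of_nonpos (by linarith : -T τ (-m) - 1 / 2 ≤ 0),
      abs_of_nonneg (by linarith : 0 ≤ m - τ * T τ (-m) - -(1 / 2))]
    ring
  rw [he] at p
  exact p

lemma left2 (h : Set0 u n z e f x y w g τ) {m : ℝ} (hm0 : m ≤ 0) (hm : -((1 + τ) / 2) < m) :
    PathIn (frontier (Para z e f)) (lowP z e f τ m) (upP z e f τ m)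
      (rho ‖e‖ ‖f‖ τ m) := by
  have h0 := h.tau0
  have h1 := h.tau1
  have hT : T τ m = 1 / 2 := T_eq_half h0 (by linarith)
  have p1 := left1 h hm0 hm
  have p2 := seg_h h (s := -(1 / 2)) (s' := m + τ * (1 / 2)) (t := 1 / 2)
    (by rw [abs_neg, abs_of_pos] <;> norm_num)
    (by rw [abs_le]; constructor <;> linarith) 
    (by rw [abs_of_pos] <;> norm_num)
    (Or.inl (by rw [abs_of_pos]; norm_num))
  have p := p1.trans p2
  unfold upP
  rw [hT]
  have he : ‖e‖ * (1 / 2 + m - τ * T τ (-m)) + ‖f‖ * (T τ (-m) + 1 / 2) +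
      ‖e‖ * |-(1 / 2) - (m + τ * (1 / 2))| = rho ‖e‖ ‖f‖ τ m := by
    rw [abs_of_nonpos (by linarith : -(1 / 2) - (m + τ * (1 / 2)) ≤ 0), rho,
      abs_of_nonpos hm0]
    ring
  rw [he] at p
  exact p

/-- lower function -/
noncomputable def loF (a y w g τ X : ℝ) : ℝ := a + g * (X / w) - T τ (-(X / w)) / y

/-- upper function -/
noncomputable def upF (a y w g τ X : ℝ) : ℝ := a + g * (X / w) + T τ (X / w) / y

lemma lowP_eq (h : Set0 u n z e f x y w g τ) (X : ℝ) :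
    pt u n (⟪u, z⟫ + X) (loF ⟪n, z⟫ y w g τ X) = lowP z e f τ (X / w) := by
  have hw := h.wne
  have hy := h.ypos.ne'
  apply on_ext h.on
  · rw [pt_u h.on, lowP, P_u h]
    field_simp
    ring
  · rw [pt_n h.on, lowP, P_n h, loF]
    field_simp
    ring

lemma upP_eq (h : Set0 u n z e f x y w g τ) (X : ℝ) :
    pt u n (⟪u, z⟫ + X) (upF ⟪n, z⟫ y w g τ X) = upP z e f τ (X / w) := by
  have hw := h.wne
  have hy := h.ypos.ne'
  apply on_ext h.on
  · rw [pt_u h.on, upP, P_u h]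
    field_simp
    ring
  · rw [pt_n h.on, upP, P_n h, upF]
    field_simp
    ring

lemma abs_le_h (hw : w ≠ 0) (X A : ℝ) : |X| ≤ |w| * A ↔ |X / w| ≤ A := by
  have : 0 < |w| := abs_pos.2 hw
  rw [abs_div, div_le_iff₀ this, mul_comm]

lemma abs_lt_h (hw : w ≠ 0) (X A : ℝ) : |X| < |w| * A ↔ |X / w| < A := by
  have : 0 < |w| := abs_pos.2 hw
  rw [abs_div, div_lt_iff₀ this, mul_comm]

lemma lo_le (h : Set0 u n z e f x y w g τ) (p : E) :
    loF ⟪n, z⟫ y w g τ (⟪u, p⟫ - ⟪u, z⟫) ≤ ⟪n, p⟫ ↔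
      -T τ (-cm u z w p) ≤ ct u n z y w g p := by
  have hy := h.ypos
  unfold loF ct
  rw [show (⟪u, p⟫ - ⟪u, z⟫) / w = cm u z w p from rfl]
  constructor
  · intro h1
    have h2 : -T τ (-cm u z w p) / y ≤ ⟪n, p⟫ - ⟪n, z⟫ - g * cm u z w p := by
      rw [neg_div]; linarith
    rw [div_le_iff₀ hy] at h2
    linarith
  · intro h1
    have h2 : -T τ (-cm u z w p) / y ≤ ⟪n, p⟫ - ⟪n, z⟫ - g * cm u z w p := by
      rw [div_le_iff₀ hy]
      linarith
    rw [neg_div] at h2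
    linarith

lemma lo_lt (h : Set0 u n z e f x y w g τ) (p : E) :
    loF ⟪n, z⟫ y w g τ (⟪u, p⟫ - ⟪u, z⟫) < ⟪n, p⟫ ↔
      -T τ (-cm u z w p) < ct u n z y w g p := by
  have hy := h.ypos
  unfold loF ct
  rw [show (⟪u, p⟫ - ⟪u, z⟫) / w = cm u z w p from rfl]
  constructor
  · intro h1
    have h2 : -T τ (-cm u z w p) / y < ⟪n, p⟫ - ⟪n, z⟫ - g * cm u z w p := by
      rw [neg_div]; linarith
    rw [div_lt_iff₀ hy] at h2
    linarith
  · intro h1
    have h2 : -T τ (-cm u z w p) / y < ⟪n, p⟫ - ⟪n, z⟫ - g * cm u z w p := by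
      rw [div_lt_iff₀ hy]
      linarith
    rw [neg_div] at h2
    linarith

lemma up_ge (h : Set0 u n z e f x y w g τ) (p : E) :
    ⟪n, p⟫ ≤ upF ⟪n, z⟫ y w g τ (⟪u, p⟫ - ⟪u, z⟫) ↔
      ct u n z y w g p ≤ T τ (cm u z w p) := by
  have hy := h.ypos
  unfold upF ct
  rw [show (⟪u, p⟫ - ⟪u, z⟫) / w = cm u z w p from rfl]
  constructor
  · intro h1
    have h2 : ⟪n, p⟫ - ⟪n, z⟫ - g * cm u z w p ≤ T τ (cm u z w p) / y := by
      linarith
    rw [le_div_iff₀ hy] at h2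
    linarith
  · intro h1
    have h2 : ⟪n, p⟫ - ⟪n, z⟫ - g * cm u z w p ≤ T τ (cm u z w p) / y := by
      rw [le_div_iff₀ hy]
      linarith
    linarith

lemma up_gt (h : Set0 u n z e f x y w g τ) (p : E) :
    ⟪n, p⟫ < upF ⟪n, z⟫ y w g τ (⟪u, p⟫ - ⟪u, z⟫) ↔
      ct u n z y w g p < T τ (cm u z w p) := by
  have hy := h.ypos
  unfold upF ct
  rw [show (⟪u, p⟫ - ⟪u, z⟫) / w = cm u z w p from rfl]
  constructor
  · intro h1
    have h2 : ⟪n, p⟫ - ⟪n, z⟫ - g * cm u z w p < T τ (cm u z w p) / y := by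
      linarith
    rw [lt_div_iff₀ hy] at h2
    linarith
  · intro h1
    have h2 : ⟪n, p⟫ - ⟪n, z⟫ - g * cm u z w p < T τ (cm u z w p) / y := by
      rw [lt_div_iff₀ hy]
      linarith
    linarith

lemma f_mem_iff (h : Set0 u n z e f x y w g τ) (p : E) :
    p ∈ Para z e f ↔ |⟪u, p⟫ - ⟪u, z⟫| ≤ |w| * ((1 + τ) / 2) ∧
      loF ⟪n, z⟫ y w g τ (⟪u, p⟫ - ⟪u, z⟫) ≤ ⟪n, p⟫ ∧
      ⟪n, p⟫ ≤ upF ⟪n, z⟫ y w g τ (⟪u, p⟫ - ⟪u, z⟫) := by
  have h0 := h.tau0
  rw [mem_para h, lo_le h, up_ge h, abs_le_h h.wne,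
    show (⟪u, p⟫ - ⟪u, z⟫) / w = cm u z w p from rfl, cs]
  set m := cm u z w p
  set t := ct u n z y w g p
  constructor
  · rintro ⟨h1, h2⟩
    rw [abs_le] at h1 h2
    have hm1 : m ≤ (1 + τ) / 2 := by nlinarith [h1.2, h2.1]
    have hm2 : -m ≤ (1 + τ) / 2 := by nlinarith [h1.1, h2.2]
    refine ⟨abs_le.2 ⟨by linarith, hm1⟩, ?_, ?_⟩
    · rw [neg_le, le_T h0 hm2]
      exact ⟨by linarith [h2.1], by linarith [h1.1]⟩
    · rw [le_T h0 hm1]
      exact ⟨h2.2, h1.2⟩
  · rintro ⟨h1, h2, h3⟩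
    rw [abs_le] at h1
    rw [neg_le, le_T h0 (by linarith [h1.1])] at h2
    rw [le_T h0 h1.2] at h3
    exact ⟨abs_le.2 ⟨by linarith [h2.2], h3.2⟩, abs_le.2 ⟨by linarith [h2.1], h3.1⟩⟩

lemma f_int_iff (h : Set0 u n z e f x y w g τ) (p : E) :
    p ∈ interior (Para z e f) ↔ |⟪u, p⟫ - ⟪u, z⟫| < |w| * ((1 + τ) / 2) ∧
      loF ⟪n, z⟫ y w g τ (⟪u, p⟫ - ⟪u, z⟫) < ⟪n, p⟫ ∧
      ⟪n, p⟫ < upF ⟪n, z⟫ y w g τ (⟪u, p⟫ - ⟪u, z⟫) := by
  have h0 := h.tau0
  rw [mem_int h, lo_lt h, up_gt h, abs_lt_h h.wne,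
    show (⟪u, p⟫ - ⟪u, z⟫) / w = cm u z w p from rfl, cs]
  set m := cm u z w p
  set t := ct u n z y w g p
  constructor
  · rintro ⟨h1, h2⟩
    rw [abs_lt] at h1 h2
    have hm1 : m < (1 + τ) / 2 := by nlinarith [h1.2, h2.1]
    have hm2 : -m < (1 + τ) / 2 := by nlinarith [h1.1, h2.2]
    refine ⟨abs_lt.2 ⟨by linarith, hm1⟩, ?_, ?_⟩
    · rw [neg_lt, lt_T h0 hm2]
      exact ⟨by linarith [h2.1], by linarith [h1.1]⟩
    · rw [lt_T h0 hm1]
      exact ⟨h2.2, h1.2⟩
  · rintro ⟨h1, h2, h3⟩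
    rw [abs_lt] at h1
    rw [neg_lt, lt_T h0 (by linarith [h1.1])] at h2
    rw [lt_T h0 h1.2] at h3
    exact ⟨abs_lt.2 ⟨by linarith [h2.2], h3.2⟩, abs_lt.2 ⟨by linarith [h2.1], h3.1⟩⟩

lemma f_lt (h : Set0 u n z e f x y w g τ) {X : ℝ} (hX : |X| < |w| * ((1 + τ) / 2)) :
    loF ⟪n, z⟫ y w g τ X < upF ⟪n, z⟫ y w g τ X := by
  have h0 := h.tau0
  have h1 := h.tau1
  rw [abs_lt_h h.wne] at hX
  unfold loF upF
  set m := X / w
  rw [abs_lt] at hX
  have key : 0 < T τ m + T τ (-m) := by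
    rcases le_total 0 m with hm | hm
    · have : T τ (-m) = 1 / 2 := T_eq_half h0 (by linarith)
      rw [this]
      have : -(1 / 2) < T τ m := by
        rw [lt_T h0 hX.2]
        exact ⟨by norm_num, by linarith [hX.2]⟩
      linarith
    · have : T τ m = 1 / 2 := T_eq_half h0 (by linarith)
      rw [this]
      have : -(1 / 2) < T τ (-m) := by
        rw [lt_T h0 (by linarith [hX.1])]
        exact ⟨by norm_num, by linarith [hX.1]⟩
      linarith
  have : 0 < (T τ m + T τ (-m)) / y := div_pos key h.ypos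
  rw [add_div] at this
  linarith

lemma f_path (h : Set0 u n z e f x y w g τ) {X : ℝ} (hX : |X| < |w| * ((1 + τ) / 2)) :
    PathIn (frontier (Para z e f)) (pt u n (⟪u, z⟫ + X) (loF ⟪n, z⟫ y w g τ X))
      (pt u n (⟪u, z⟫ + X) (upF ⟪n, z⟫ y w g τ X)) (rho ‖e‖ ‖f‖ τ (X / w)) := by
  rw [lowP_eq h, upP_eq h]
  rw [abs_lt_h h.wne, abs_lt] at hX
  rcases le_total 0 (X / w) with hm | hm
  · exact right2 h hm hX.2
  · exact left2 h hm hX.1


lemma int_even {F : ℝ → ℝ} (hF : Continuous F) {A : ℝ} (hA : 0 ≤ A) :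
    ∫ m in (-A)..A, F |m| = 2 * ∫ m in (0 : ℝ)..A, F m := by
  have hc : Continuous (fun m : ℝ => F |m|) := hF.comp continuous_abs
  rw [← intervalIntegral.integral_add_adjacent_intervals (b := 0)
    (hc.intervalIntegrable _ _) (hc.intervalIntegrable _ _)]
  have h1 : ∫ m in (-A)..0, F |m| = ∫ m in (0 : ℝ)..A, F m := by
    have h2 : ∫ m in (-A)..0, F |m| = ∫ m in (-A)..0, F (-m) := by
      apply intervalIntegral.integral_congr
      intro m hm
      rw [uIcc_of_le (by linarith)] at hm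
      simp only
      rw [abs_of_nonpos hm.2]
    rw [h2, intervalIntegral.integral_comp_neg]
    simp
  have h3 : ∫ m in (0 : ℝ)..A, F |m| = ∫ m in (0 : ℝ)..A, F m := by
    apply intervalIntegral.integral_congr
    intro m hm
    rw [uIcc_of_le hA] at hm
    simp only
    rw [abs_of_nonneg hm.1]
  rw [h1, h3]
  ring

lemma int_T (h0 : 0 ≤ τ) (h1 : τ ≤ 1) : ∫ m in (0 : ℝ)..((1 + τ) / 2), T τ m = (1 - τ) / 4 := by
  rcases eq_or_lt_of_le h0 with h | h
  · subst h
    have : T 0 = fun _ => 1 / 2 := by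
      ext m
      simp [T]
    rw [this]
    simp
    norm_num
  · rw [← intervalIntegral.integral_add_adjacent_intervals (b := (1 - τ) / 2)
      ((T_cont τ).intervalIntegrable _ _) ((T_cont τ).intervalIntegrable _ _)]
    have h2 : ∫ m in (0 : ℝ)..((1 - τ) / 2), T τ m = ∫ m in (0 : ℝ)..((1 - τ) / 2), (1 / 2 : ℝ) := by
      apply intervalIntegral.integral_congr
      intro m hm
      rw [uIcc_of_le (by linarith)] at hm
      exact T_eq_half h0 hm.2
    have h3 : ∫ m in ((1 - τ) / 2)..((1 + τ) / 2), T τ m =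
        ∫ m in ((1 - τ) / 2)..((1 + τ) / 2), (1 / 2 - m) / τ := by
      apply intervalIntegral.integral_congr
      intro m hm
      rw [uIcc_of_le (by linarith)] at hm
      exact T_eq_div h hm.1
    have h4 : ∫ m in ((1 - τ) / 2)..((1 + τ) / 2), (1 / 2 - m) / τ = 0 := by
      rw [intervalIntegral.integral_div, intervalIntegral.integral_sub (by simp) (by simp)]
      simp
      left
      ring
    rw [h2, h3, h4]
    simp
    ring

lemma int_T_abs (h0 : 0 ≤ τ) (h1 : τ ≤ 1) :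
    ∫ m in (-((1 + τ) / 2))..((1 + τ) / 2), T τ |m| = (1 - τ) / 2 := by
  rw [int_even (T_cont τ) (by linarith), int_T h0 h1]
  ring

lemma int_abs {A : ℝ} (hA : 0 ≤ A) : ∫ m in (-A)..A, |m| = A ^ 2 := by
  have := int_even (F := fun m => m) continuous_id (A := A) hA
  rw [this]
  simp
  ring

lemma int_scale (hw : w ≠ 0) {F : ℝ → ℝ} (hF : ∀ m, F |m| = F m) (A : ℝ) :
    ∫ X in (-(|w| * A))..(|w| * A), F (X / w) = |w| * ∫ m in (-A)..A, F m := by
  have hp : 0 < |w| := abs_pos.2 hw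
  have h1 : ∀ X, F (X / w) = F (X / |w|) := by
    intro X
    rw [← hF (X / w), ← hF (X / |w|), abs_div, abs_div, abs_abs]
  simp only [h1]
  rw [intervalIntegral.integral_comp_div F hp.ne']
  rw [show -(|w| * A) / |w| = -A by field_simp, show |w| * A / |w| = A by field_simp]
  simp


/-- chord as a function of `m` -/
noncomputable def chm (y τ m : ℝ) : ℝ := (T τ |m| + 1 / 2) / y

lemma T_add (h0 : 0 ≤ τ) (h1 : τ ≤ 1) (m : ℝ) : T τ m + T τ (-m) = T τ |m| + 1 / 2 := by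
  rcases le_total 0 m with hm | hm
  · rw [abs_of_nonneg hm, T_eq_half h0 (show -m ≤ (1 - τ) / 2 by linarith)]
  · rw [abs_of_nonpos hm, T_eq_half h0 (show m ≤ (1 - τ) / 2 by linarith)]
    ring

lemma chord_eq (h : Set0 u n z e f x y w g τ) (X : ℝ) :
    upF ⟪n, z⟫ y w g τ X - loF ⟪n, z⟫ y w g τ X = chm y τ (X / w) := by
  have h2 := T_add h.tau0 h.tau1 (X / w)
  rw [chm, ← h2, upF, loF]
  ring

lemma chm_cont : Continuous (chm y τ) := by
  unfold chm
  have := (T_cont τ).comp continuous_abs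
  simp only [Function.comp_def] at this
  fun_prop

lemma rho_cont (b c : ℝ) : Continuous (rho b c τ) := by
  unfold rho
  have := (T_cont τ).comp continuous_abs
  simp only [Function.comp_def] at this
  fun_prop

lemma int_chm (h0 : 0 ≤ τ) (h1 : τ ≤ 1) :
    ∫ m in (-((1 + τ) / 2))..((1 + τ) / 2), chm y τ m = 1 / y := by
  have hc := (T_cont τ).comp continuous_abs
  simp only [Function.comp_def] at hc
  unfold chm
  rw [intervalIntegral.integral_div, intervalIntegral.integral_add (hc.intervalIntegrable _ _)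
    (by simp), int_T_abs h0 h1]
  simp
  ring

lemma int_rho (h0 : 0 ≤ τ) (h1 : τ ≤ 1) (b c : ℝ) :
    ∫ m in (-((1 + τ) / 2))..((1 + τ) / 2), rho b c τ m = b / 2 * (1 + τ ^ 2) + c := by
  have hc := (T_cont τ).comp continuous_abs
  simp only [Function.comp_def] at hc
  have h2 : ∀ m, rho b c τ m = (b * (1 + τ / 2) + c / 2) + (-(2 * b)) * |m| +
      (c - b * τ) * T τ |m| := by
    intro m
    rw [rho]
    ring
  simp only [h2]
  have ha : Continuous (fun m : ℝ => |m|) := continuous_abs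
  rw [intervalIntegral.integral_add, intervalIntegral.integral_add,
    intervalIntegral.integral_const_mul, intervalIntegral.integral_const_mul, int_T_abs h0 h1,
    int_abs (by linarith)]
  · simp
    ring
  · simp
  · exact (continuous_const.mul ha).intervalIntegrable _ _
  · exact (continuous_const.add (continuous_const.mul ha)).intervalIntegrable _ _
  · exact (continuous_const.mul hc).intervalIntegrable _ _

lemma exists_ioo (hw : w ≠ 0) {m1 m2 A : ℝ} (h1 : -A ≤ m1) (h2 : m2 ≤ A) (h12 : m1 < m2) :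
    ∃ t1 t2 : ℝ, -(|w| * A) ≤ t1 ∧ t1 < t2 ∧ t2 ≤ |w| * A ∧
      ∀ t ∈ Ioo t1 t2, m1 < t / w ∧ t / w < m2 := by
  rcases lt_or_gt_of_ne hw with h | h
  · refine ⟨w * m2, w * m1, ?_, ?_, ?_, ?_⟩
    · rw [abs_of_neg h]; nlinarith
    · nlinarith
    · rw [abs_of_neg h]; nlinarith
    · rintro t ⟨ht1, ht2⟩
      constructor
      · rw [lt_div_iff_of_neg h]; linarith
      · rw [div_lt_iff_of_neg h]; linarith
  · refine ⟨w * m1, w * m2, ?_, ?_, ?_, ?_⟩
    · rw [abs_of_pos h]; nlinarith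
    · nlinarith
    · rw [abs_of_pos h]; nlinarith
    · rintro t ⟨ht1, ht2⟩
      constructor
      · rw [lt_div_iff₀ h]; linarith
      · rw [div_lt_iff₀ h]; linarith

lemma ext_coord {s1 s2 t1 t2 a g' Tt g : ℝ} (hs1 : |s1| ≤ 1 / 2)
    (hs2 : |s2| ≤ 1 / 2) (ht1 : |t1| ≤ 1 / 2) (ht2 : |t2| ≤ 1 / 2) (hg : g ≠ 0)
    (e1 : a + g * s1 + g' * t1 = Tt) (e2 : a + g * s2 + g' * t2 = Tt)
    (hmax : ∀ s t : ℝ, |s| ≤ 1 / 2 → |t| ≤ 1 / 2 → a + g * s + g' * t ≤ Tt) : s1 = s2 := by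
  have k1 := hmax (1 / 2) t1 (by rw [abs_of_pos] <;> norm_num) ht1
  have k2 := hmax (-(1 / 2)) t1 (by rw [abs_neg, abs_of_pos] <;> norm_num) ht1
  have k3 := hmax (1 / 2) t2 (by rw [abs_of_pos] <;> norm_num) ht2
  have k4 := hmax (-(1 / 2)) t2 (by rw [abs_neg, abs_of_pos] <;> norm_num) ht2
  rw [abs_le] at hs1 hs2
  rcases lt_or_gt_of_ne hg with h | h
  · have a1 : s1 ≤ -(1 / 2) := by nlinarith
    have a2 : s2 ≤ -(1 / 2) := by nlinarith
    linarith [hs1.1, hs2.1]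
  · have a1 : 1 / 2 ≤ s1 := by nlinarith
    have a2 : 1 / 2 ≤ s2 := by nlinarith
    linarith [hs1.2, hs2.2]

lemma P_n' (h : Set0 u n z e f x y w g τ) (s t : ℝ) :
    ⟪n, P z e f s t⟫ = ⟪n, z⟫ + g * s + (1 / y - τ * g) * t := by
  rw [P_n h]
  ring

lemma f_topsave (h : Set0 u n z e f x y w g τ) (Tt : ℝ) (p q : E) (hp : p ∈ Para z e f)
    (hq : q ∈ Para z e f) (hpq : p ≠ q) (hpT : ⟪n, p⟫ = Tt) (hqT : ⟪n, q⟫ = Tt)
    (hmax : ∀ v ∈ Para z e f, ⟪n, v⟫ ≤ Tt) :
    ∃ t1 t2 δ : ℝ, -(|w| * ((1 + τ) / 2)) ≤ t1 ∧ t1 < t2 ∧ t2 ≤ |w| * ((1 + τ) / 2) ∧ 0 < δ ∧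
      ∀ t ∈ Ioo t1 t2, upF ⟪n, z⟫ y w g τ t = Tt ∧
      ∃ q' : E, ⟪n, q'⟫ = Tt ∧ PathIn (frontier (Para z e f))
        (pt u n (⟪u, z⟫ + t) (loF ⟪n, z⟫ y w g τ t)) q' (rho ‖e‖ ‖f‖ τ (t / w) - δ) := by
  have h0 := h.tau0
  have h1 := h.tau1
  have hy := h.ypos
  obtain ⟨s1, t1, hs1, ht1, rfl⟩ := hp
  obtain ⟨s2, t2, hs2, ht2, rfl⟩ := hq
  change ⟪n, P z e f s1 t1⟫ = Tt at hpT
  change ⟪n, P z e f s2 t2⟫ = Tt at hqT
  rw [P_n' h] at hpT hqT
  have hmax' : ∀ s t : ℝ, |s| ≤ 1 / 2 → |t| ≤ 1 / 2 →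
      ⟪n, z⟫ + g * s + (1 / y - τ * g) * t ≤ Tt := by
    intro s t hs ht
    have := hmax (P z e f s t) ⟨s, t, hs, ht, rfl⟩
    rwa [P_n' h] at this
  have hcase : g = 0 ∨ 1 / y - τ * g = 0 := by
    by_contra hc
    push Not at hc
    have a1 := ext_coord hs1 hs2 ht1 ht2 hc.1 hpT hqT hmax'
    have a2 : t1 = t2 := by
      apply ext_coord (a := ⟪n, z⟫) (g' := g) (Tt := Tt) ht1 ht2 hs1 hs2 hc.2
      · linarith
      · linarith
      · intro s t hs ht
        have := hmax' t s ht hs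
        linarith
    apply hpq
    rw [a1, a2]
  rcases hcase with hg | hg
  · have hT : Tt = ⟪n, z⟫ + 1 / 2 / y := by
      apply le_antisymm
      · rw [← hpT, hg]
        have := (abs_le.1 ht1).2
        have h3 : 0 < 1 / y := by positivity
        have h4 : (1 / y) * t1 ≤ (1 / y) * (1 / 2) := mul_le_mul_of_nonneg_left this h3.le
        rw [show 1 / 2 / y = (1 / y) * (1 / 2) by ring]
        simp only [zero_mul, mul_zero, add_zero, sub_zero]
        linarith
      · have := hmax' 0 (1 / 2) (by simp) (by rw [abs_of_pos] <;> norm_num)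
        rw [hg] at this
        rw [show 1 / 2 / y = (1 / y) * (1 / 2) by ring]
        simp only [mul_zero, add_zero, sub_zero] at this
        linarith
    obtain ⟨a1, a2, b1, b2, b3, b4⟩ := exists_ioo h.wne (m1 := -((1 + τ) / 4)) (m2 := 0)
      (A := (1 + τ) / 2) (by linarith) (by linarith) (by linarith)
    refine ⟨a1, a2, ‖e‖ * (1 / 4), b1, b2, b3, by have := h.epos; positivity, ?_⟩
    intro t ht
    obtain ⟨c1, c2⟩ := b4 t ht
    constructor
    · rw [upF, hg, hT, T_eq_half h0 (by linarith)]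
      ring
    · refine ⟨P z e f (t / w + τ / 2 - 1 / 4) (1 / 2), ?_, ?_⟩
      · rw [P_n' h, hg, hT]
        ring
      · rw [lowP_eq h]
        have p1 := left1 h (m := t / w) c2.le (by linarith)
        have p2 := seg_h h (s := -(1 / 2)) (s' := t / w + τ / 2 - 1 / 4) (t := 1 / 2)
          (by rw [abs_neg, abs_of_pos] <;> norm_num)
          (by rw [abs_le]; constructor <;> linarith)
          (by rw [abs_of_pos] <;> norm_num)
          (Or.inl (by rw [abs_of_pos]; norm_num))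
        have p3 := p1.trans p2
        have he : ‖e‖ * (1 / 2 + t / w - τ * T τ (-(t / w))) + ‖f‖ * (T τ (-(t / w)) + 1 / 2) +
            ‖e‖ * |-(1 / 2) - (t / w + τ / 2 - 1 / 4)| =
            rho ‖e‖ ‖f‖ τ (t / w) - ‖e‖ * (1 / 4) := by
          rw [abs_of_nonpos (by linarith : -(1 / 2) - (t / w + τ / 2 - 1 / 4) ≤ 0), rho,
            abs_of_nonpos c2.le]
          ring
        rw [he] at p3
        exact p3
  · have hτ : 0 < τ := by
      rcases eq_or_lt_of_le h0 with hh | hh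
      · exfalso
        rw [← hh] at hg
        have : 0 < 1 / y := by positivity
        simp only [zero_mul, sub_zero] at hg
        linarith
      · exact hh
    have hgp : 0 < g := by
      have : 0 < 1 / y := by positivity
      by_contra hc
      push Not at hc
      nlinarith
    have hT : Tt = ⟪n, z⟫ + g * (1 / 2) := by
      apply le_antisymm
      · rw [← hpT, hg]
        have := (abs_le.1 hs1).2
        nlinarith
      · have := hmax' (1 / 2) 0 (by rw [abs_of_pos] <;> norm_num) (by simp)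
        linarith
    obtain ⟨a1, a2, b1, b2, b3, b4⟩ := exists_ioo h.wne (m1 := (1 - τ) / 2) (m2 := 1 / 2)
      (A := (1 + τ) / 2) (by linarith) (by linarith) (by linarith)
    refine ⟨a1, a2, ‖f‖ * (1 / 2), b1, b2, b3, by have := h.fpos; positivity, ?_⟩
    intro t ht
    obtain ⟨c1, c2⟩ := b4 t ht
    have hm0 : 0 ≤ t / w := by linarith
    have hTm : T τ (t / w) = (1 / 2 - t / w) / τ := T_eq_div hτ c1.le
    have hTm' : τ * T τ (t / w) = 1 / 2 - t / w := by
      rw [hTm]; field_simp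
    constructor
    · rw [upF, hT]
      have : T τ (t / w) / y = g * (1 / 2 - t / w) := by
        rw [← hTm']
        have : 1 / y = τ * g := by linarith
        rw [div_eq_mul_one_div, this]
        ring
      rw [this]
      ring
    · refine ⟨P z e f (1 / 2) (T τ (t / w) - 1 / 2), ?_, ?_⟩
      · rw [P_n' h, hg, hT]
        ring
      · rw [lowP_eq h]
        have hT0 : 0 ≤ T τ (t / w) := by
          rw [hTm]
          exact div_nonneg (by linarith) h0
        have hT1 := T_le h0 (t / w)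
        have p1 := right1 h hm0 (by linarith)
        have p2 := seg_v h (s := 1 / 2) (t := -(1 / 2)) (t' := T τ (t / w) - 1 / 2)
          (by rw [abs_neg, abs_of_pos] <;> norm_num)
          (by rw [abs_le]; constructor <;> linarith)
          (by rw [abs_of_pos]; norm_num)
        have p3 := p1.trans p2
        have he : ‖e‖ * (1 / 2 + τ / 2 - t / w) + ‖f‖ * |-(1 / 2) - (T τ (t / w) - 1 / 2)| =
            rho ‖e‖ ‖f‖ τ (t / w) - ‖f‖ * (1 / 2) := by
          rw [abs_of_nonpos (by linarith : -(1 / 2) - (T τ (t / w) - 1 / 2) ≤ 0), rho,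
            abs_of_nonneg hm0, hTm']
          ring
        rw [he] at p3
        exact p3

lemma w_le (h : Set0 u n z e f x y w g τ) : |w| * ((1 + τ) / 2) ≤ (‖e‖ + ‖f‖) / 2 := by
  have hu := h.on.1
  have h1 : |w| ≤ ‖e‖ := by
    rw [← h.ue]
    have := abs_real_inner_le_norm u e
    rwa [hu, one_mul] at this
  have h2 : |τ * w| ≤ ‖f‖ := by
    have h3 : |⟪u, f⟫| ≤ ‖f‖ := by
      have := abs_real_inner_le_norm u f
      rwa [hu, one_mul] at this
    rwa [h.uf, abs_neg] at h3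
  rw [abs_mul, abs_of_nonneg h.tau0] at h2
  linarith

theorem detour (h : Set0 u n z e f x y w g τ) {c : ℝ}
    (hc : (‖f‖ + ‖e‖ / 2) * y + ‖e‖ / 2 * (x ^ 2 / y) ≤ c) :
    Detour u n c (Para z e f) ⟪u, z⟫ (|w| * ((1 + τ) / 2)) (loF ⟪n, z⟫ y w g τ)
      (upF ⟪n, z⟫ y w g τ) (fun t => rho ‖e‖ ‖f‖ τ (t / w)) := by
  have hwp : 0 < |w| := abs_pos.2 h.wne
  have h0 := h.tau0
  have h1 := h.tau1
  have hy := h.ypos
  have cc : Continuous (fun t : ℝ => chm y τ (t / w)) := by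
    have := chm_cont (y := y) (τ := τ)
    exact this.comp (by fun_prop)
  have cr : Continuous (fun t : ℝ => rho ‖e‖ ‖f‖ τ (t / w)) := by
    have := rho_cont (τ := τ) ‖e‖ ‖f‖
    exact this.comp (by fun_prop)
  refine ⟨by positivity, f_mem_iff h, f_int_iff h, fun t ht => f_lt h ht, fun t ht => f_path h ht,
    ?_, ?_, ?_, ?_, ?_, f_topsave h⟩
  · intro t
    rw [chord_eq h, chord_eq h, neg_div, chm, chm, abs_neg]
  · intro t
    simp only [neg_div, rho, abs_neg]
  · simp only [chord_eq h]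
    exact cc.intervalIntegrable _ _
  · exact cr.intervalIntegrable _ _
  · simp only [chord_eq h]
    rw [intervalIntegral.integral_sub (cr.intervalIntegrable _ _) (cc.intervalIntegrable _ _)]
    have e1 : ∀ m, chm y τ |m| = chm y τ m := by
      intro m
      rw [chm, chm, abs_abs]
    have e2 : ∀ m, rho ‖e‖ ‖f‖ τ |m| = rho ‖e‖ ‖f‖ τ m := by
      intro m
      rw [rho, rho, abs_abs]
    rw [int_scale h.wne e1, int_scale h.wne e2, int_chm h0 h1, int_rho h0 h1]
    have h2 : ‖e‖ / 2 * (1 + τ ^ 2) + ‖f‖ ≤ c * (1 / y) := by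
      rw [mul_one_div, le_div_iff₀ hy]
      have h3 : x ^ 2 / y = τ ^ 2 * y := by
        rw [h.xy]
        field_simp
      rw [h3] at hc
      linarith
    have h3 : |w| * (‖e‖ / 2 * (1 + τ ^ 2) + ‖f‖) ≤ |w| * (c * (1 / y)) :=
      mul_le_mul_of_nonneg_left h2 hwp.le
    linarith

end Para0X

theorem para0_proof : Stmt_Para0 := by
  intro u n z e f x y c hon hli hn hx hxy hc
  have h := Para0X.set0_of (z := z) hon hli hn hx hxy
  exact ⟨_, _, _, _, _, Para0X.detour h hc, Para0X.w_le h⟩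

end Pool.Agent.LFT
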