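import Pool.Agent.LFT.HBasic
import Pool.Agent.LFT.Para0

/-!
# Module HDET0: detour data of a hexagon in canonical position
-/

namespace Pool.Agent.LFT

open MeasureTheory Set
open scoped RealInnerProductSpace ENNReal

namespace HDet0

open HBasic Para0X

/-! ### cross products in an orthonormal basis -/

lemma cr_n {u n : E} (h : ON u n) (ho : cr u n = 1) (g : E) : cr n g = -⟪u, g⟫ := by
  have e := on_expand h g
  calc cr n g = cr n (⟪u, g⟫ • u + ⟪n, g⟫ • n) := by rw [e]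
    _ = -⟪u, g⟫ := by
      rw [cr_add_right, cr_smul_right, cr_smul_right, cr_self, cr_anti n u, ho]; ring

lemma cr_gg {u n : E} (h : ON u n) (ho : cr u n = 1) (g g' : E) :
    cr g g' = ⟪u, g⟫ * ⟪n, g'⟫ - ⟪u, g'⟫ * ⟪n, g⟫ := by
  have e := on_expand h g
  have e' := on_expand h g'
  calc cr g g' = cr (⟪u, g⟫ • u + ⟪n, g⟫ • n) (⟪u, g'⟫ • u + ⟪n, g'⟫ • n) := by rw [e, e']
    _ = _ := by
      simp only [cr_add_right, cr_smul_right, cr_add_left, cr_smul_left, cr_self, cr_anti n u, ho]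
      ring

/-! ### the clamps -/

lemma cl_mono {x y : ℝ} (h : x ≤ y) : cl x ≤ cl y := by
  unfold cl
  exact max_le_max le_rfl (min_le_min le_rfl h)

lemma w_cl {w : ℝ} (hw : 0 ≤ w) (y : ℝ) : w * cl (y / w) = max 0 (min w y) := by
  unfold cl
  rcases eq_or_lt_of_le hw with rfl | hw
  · simp
  · rw [mul_max_of_nonneg _ _ hw.le, mul_min_of_nonneg _ _ hw.le, mul_zero, mul_one,
      mul_div_cancel₀ _ hw.ne']

lemma sum_w {w1 w2 w3 t : ℝ} (h1 : 0 < w1) (h2 : 0 < w2) (h3 : 0 ≤ w3)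
    (ht : |t| ≤ (w1 + w2 + w3) / 2) :
    w1 * sA w1 w2 w3 t + w2 * sB w1 w2 w3 t + w3 * sC w1 w2 w3 t = t + (w1 + w2 + w3) / 2 := by
  unfold sA sB sC
  rw [w_cl h1.le, w_cl h2.le, w_cl h3]
  obtain ⟨ha, hb⟩ := abs_le.1 ht
  rcases le_total w1 (t + (w1 + w2 + w3) / 2) with c1 | c1 <;>
  rcases le_total w2 (t + (w1 + w2 + w3) / 2 - w1) with c2 | c2 <;>
  rcases le_total w3 (t + (w1 + w2 + w3) / 2 - w1 - w2) with c3 | c3 <;>
  rcases le_total 0 (t + (w1 + w2 + w3) / 2) with d1 | d1 <;>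
  rcases le_total 0 (t + (w1 + w2 + w3) / 2 - w1) with d2 | d2 <;>
  rcases le_total 0 (t + (w1 + w2 + w3) / 2 - w1 - w2) with d3 | d3 <;>
  simp [*, h1.le, h2.le] <;> linarith

lemma sA_mono {w1 w2 w3 x y : ℝ} (h1 : 0 < w1) (h : x ≤ y) : sA w1 w2 w3 x ≤ sA w1 w2 w3 y := by
  unfold sA
  apply cl_mono
  gcongr

lemma sB_mono {w1 w2 w3 x y : ℝ} (h2 : 0 < w2) (h : x ≤ y) : sB w1 w2 w3 x ≤ sB w1 w2 w3 y := by
  unfold sB
  apply cl_mono
  gcongr

lemma sC_mono {w1 w2 w3 x y : ℝ} (h3 : 0 ≤ w3) (h : x ≤ y) : sC w1 w2 w3 x ≤ sC w1 w2 w3 y := by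
  unfold sC
  apply cl_mono
  gcongr

lemma hl_diff {w1 w2 w3 l1 l2 l3 x y : ℝ} (h1 : 0 < w1) (h2 : 0 < w2) (h3 : 0 ≤ w3)
    (g1 : w1 ≤ l1) (g2 : w2 ≤ l2) (g3 : w3 ≤ l3)
    (hx : |x| ≤ (w1 + w2 + w3) / 2) (hy : |y| ≤ (w1 + w2 + w3) / 2) (hxy : x ≤ y) :
    y - x ≤ hl w1 w2 w3 l1 l2 l3 y - hl w1 w2 w3 l1 l2 l3 x := by
  have e1 := sum_w h1 h2 h3 hx
  have e2 := sum_w h1 h2 h3 hy
  have m1 : (w1) * (sA w1 w2 w3 y - sA w1 w2 w3 x) ≤ l1 * (sA w1 w2 w3 y - sA w1 w2 w3 x) :=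
    mul_le_mul_of_nonneg_right g1 (by linarith [sA_mono (w2 := w2) (w3 := w3) h1 hxy])
  have m2 : (w2) * (sB w1 w2 w3 y - sB w1 w2 w3 x) ≤ l2 * (sB w1 w2 w3 y - sB w1 w2 w3 x) :=
    mul_le_mul_of_nonneg_right g2 (by linarith [sB_mono (w1 := w1) (w3 := w3) h2 hxy])
  have m3 : (w3) * (sC w1 w2 w3 y - sC w1 w2 w3 x) ≤ l3 * (sC w1 w2 w3 y - sC w1 w2 w3 x) :=
    mul_le_mul_of_nonneg_right g3 (by linarith [sC_mono (w1 := w1) (w2 := w2) h3 hxy])
  unfold hl
  nlinarith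

/-! ### paths -/

lemma path_iter {F : Set E} {p q m : E} {L : ℝ} (h : PathIn F p q L) (hs : segment ℝ q m ⊆ F)
    (k : ℕ) : PathIn F p q (L + k * (2 * dist q m)) := by
  induction k with
  | zero => simpa using h
  | succ k ih =>
    have h1 : PathIn F q m (dist q m) := PathIn.seg q m hs
    have h2 : PathIn F m q (dist m q) := PathIn.seg m q (by rw [segment_symm]; exact hs)
    have h3 := PathIn.trans ih (PathIn.trans h1 h2)
    have e : L + k * (2 * dist q m) + (dist q m + dist m q) =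
        L + (k + 1 : ℕ) * (2 * dist q m) := by
      rw [dist_comm m q]; push_cast; ring
    rwa [e] at h3

lemma path_extend {F : Set E} {p q m : E} {L x : ℝ} (h : PathIn F p q L)
    (hs : segment ℝ q m ⊆ F) (hm : q ≠ m) (hx : 0 ≤ x) : PathIn F p q (L + x) := by
  have hd : 0 < dist q m := dist_pos.2 hm
  set k : ℕ := ⌈x / (2 * dist q m)⌉₊ + 1 with hk
  have hk0 : (0 : ℝ) < k := by positivity
  have hk1 : x / (2 * dist q m) ≤ k := by
    rw [hk]; push_cast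
    linarith [Nat.le_ceil (x / (2 * dist q m))]
  have hk2 : x ≤ k * (2 * dist q m) := by
    rwa [div_le_iff₀ (by positivity)] at hk1
  set y : ℝ := x / (2 * k * dist q m) with hy
  have hy0 : 0 ≤ y := by positivity
  have hy1 : y ≤ 1 := by
    rw [hy, div_le_one (by positivity)]
    linarith
  let m' : E := q + y • (m - q)
  have hm' : m' ∈ segment ℝ q m := by
    rw [segment_eq_image']
    exact ⟨y, ⟨hy0, hy1⟩, rfl⟩
  have hdist : dist q m' = y * dist q m := by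
    simp only [m', dist_self_add_right, norm_smul, Real.norm_of_nonneg hy0]
    rw [dist_comm, dist_eq_norm]
  have hs' : segment ℝ q m' ⊆ F :=
    ((convex_segment q m).segment_subset (left_mem_segment ℝ q m) hm').trans hs
  have h1 := path_iter h hs' k
  have e : (k : ℝ) * (2 * dist q m') = x := by
    rw [hdist, hy]
    field_simp
  rwa [e] at h1

lemma hex_convex (z g1 g2 g3 : E) : Convex ℝ (Hex z g1 g2 g3) := by
  rintro p ⟨s1, s2, s3, h1, h2, h3, rfl⟩ q ⟨t1, t2, t3, k1, k2, k3, rfl⟩ a b ha hb hab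
  refine ⟨a * s1 + b * t1, a * s2 + b * t2, a * s3 + b * t3, ?_, ?_, ?_, ?_⟩
  · rw [abs_le] at *
    constructor <;> nlinarith
  · rw [abs_le] at *
    constructor <;> nlinarith
  · rw [abs_le] at *
    constructor <;> nlinarith
  · have : z = (a + b) • z := by rw [hab, one_smul]
    conv_rhs => rw [this]
    module

end HDet0

open HDet0 HBasic Para0X

theorem hdet0_proof (hInt : Stmt_HInt) (hMem : Stmt_HMem) (hPath : Stmt_HPath) : Stmt_HDet0 := by
  intro u n z g1 g2 g3 c hC hNH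
  obtain ⟨hon, hor, hpos, hw1, hw2, hw3⟩ := hC
  have hC : Canon u n g1 g2 g3 := ⟨hon, hor, hpos, hw1, hw2, hw3⟩
  set w1 : ℝ := ⟪u, g1⟫ with hw1d
  set w2 : ℝ := ⟪u, g2⟫ with hw2d
  set w3 : ℝ := ⟪u, g3⟫ with hw3d
  set n1 : ℝ := ⟪n, g1⟫ with hn1d
  set n2 : ℝ := ⟪n, g2⟫ with hn2d
  set n3 : ℝ := ⟪n, g3⟫ with hn3d
  set l1 : ℝ := ‖g1‖ with hl1d
  set l2 : ℝ := ‖g2‖ with hl2d
  set l3 : ℝ := ‖g3‖ with hl3d
  have hwl : ∀ g : E, ⟪u, g⟫ ≤ ‖g‖ := by
    intro g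
    have := real_inner_le_norm u g
    rwa [hon.1, one_mul] at this
  have hwl1 : w1 ≤ l1 := hwl g1
  have hwl2 : w2 ≤ l2 := hwl g2
  have hwl3 : w3 ≤ l3 := hwl g3
  obtain ⟨h, hh⟩ : ∃ h : ℝ, h = (w1 + w2 + w3) / 2 := ⟨_, rfl⟩
  have hh0 : 0 < h := by rw [hh]; linarith
  obtain ⟨lo, hlo'⟩ : ∃ lo : ℝ → ℝ, lo = fun t => ⟪n, z⟫ + hlo w1 w2 w3 n1 n2 n3 t := ⟨_, rfl⟩
  obtain ⟨up, hup'⟩ : ∃ up : ℝ → ℝ, up = fun t => ⟪n, z⟫ - hlo w1 w2 w3 n1 n2 n3 (-t) :=
    ⟨_, rfl⟩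
  obtain ⟨hm1, hm2, hm3⟩ := hMem u n z g1 g2 g3 lo up h hC hh hlo' hup'
  obtain ⟨hi1, hi2, hi3, hi4⟩ := hInt w1 w2 w3 n1 n2 n3 l1 l2 l3 h hw1 hw2 hw3 hh
  have elo : ∀ t, lo t = ⟪n, z⟫ + hlo w1 w2 w3 n1 n2 n3 t := by
    intro t; rw [hlo']
  have eup : ∀ t, up t = ⟪n, z⟫ - hlo w1 w2 w3 n1 n2 n3 (-t) := by
    intro t; rw [hup']
  have ePlo : ∀ t, Plo u n z g1 g2 g3 t = pt u n (⟪u, z⟫ + t) (lo t) := by
    intro t; rw [elo]; rfl
  have ePup : ∀ t, Pup u n z g1 g2 g3 t = pt u n (⟪u, z⟫ + t) (up t) := by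
    intro t; rw [eup]; rfl
  have clo : Continuous lo := by rw [hlo']; exact continuous_const.add hi1
  have cup : Continuous up := by
    rw [hup']; exact continuous_const.sub (hi1.comp continuous_neg)
  have ech : ∀ t, up t - lo t = -hlo w1 w2 w3 n1 n2 n3 (-t) - hlo w1 w2 w3 n1 n2 n3 t := by
    intro t; rw [elo, eup]; ring
  -- the path through the right end, and the path through the left end
  have lenR : ∀ t, 0 ≤ t → hr w1 w2 w3 l1 l2 l3 t =
      l1 + l2 + l3 - hl w1 w2 w3 l1 l2 l3 t + hl w1 w2 w3 l1 l2 l3 (-t) := by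
    intro t ht
    unfold hr hl
    rw [abs_of_nonneg ht]; ring
  have lenL : ∀ t, t ≤ 0 → hr w1 w2 w3 l1 l2 l3 t =
      hl w1 w2 w3 l1 l2 l3 t + (l1 + l2 + l3 - hl w1 w2 w3 l1 l2 l3 (-t)) := by
    intro t ht
    unfold hr hl
    rw [abs_of_nonpos ht, neg_neg]; ring
  refine ⟨⟪u, z⟫, h, lo, up, hr w1 w2 w3 l1 l2 l3, ⟨hh0, hm1, hm2, hm3, ?_, ?_, ?_,
    (cup.sub clo).intervalIntegrable _ _, hi2.intervalIntegrable _ _, ?_, ?_⟩, ?_⟩
  · -- path
    intro t ht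
    obtain ⟨p1, p2, p3, p4⟩ := hPath u n z g1 g2 g3 t hC (by rw [← hh]; exact ht.le)
    rw [ePlo] at p1 p2
    rw [ePup] at p3 p4
    rcases le_total 0 t with h0 | h0
    · rw [lenR t h0]
      exact PathIn.trans p1 p3
    · rw [lenL t h0]
      exact PathIn.trans p2 p4
  · intro t
    rw [ech, ech, neg_neg]; ring
  · intro t
    unfold hr
    rw [abs_neg]
  · -- the integral
    have eA : ∫ t in (-h)..h, (up t - lo t) =
        (w1 * n2 - w2 * n1) + (w1 * n3 - w3 * n1) + (w2 * n3 - w3 * n2) := by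
      rw [← hi3]
      apply intervalIntegral.integral_congr
      intro t _
      exact ech t
    have eD : cr g1 g2 + cr g1 g3 + cr g2 g3 =
        (w1 * n2 - w2 * n1) + (w1 * n3 - w3 * n1) + (w2 * n3 - w3 * n2) := by
      rw [cr_gg hon hor, cr_gg hon hor, cr_gg hon hor]
    have hA : 0 < cr g1 g2 + cr g1 g3 + cr g2 g3 := by
      have := hpos.p12; have := hpos.p13; have := hpos.p23
      positivity
    have inn : ∀ p, cr n p = -⟪u, p⟫ := cr_n hon hor
    have m1 : mom n (-(1 / 2 : ℝ) • (g1 + g2 + g3)) g1 = mabs (-h) (-h + w1) := by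
      unfold mom mabs
      apply intervalIntegral.integral_congr
      intro s _
      simp only [inn, inner_add_right, inner_smul_right, abs_neg]
      congr 1
      rw [hh, ← hw1d, ← hw2d, ← hw3d]; ring
    have m2 : mom n (-(1 / 2 : ℝ) • (g1 + g2 + g3) + g1) g2 =
        mabs (-h + w1) (-h + w1 + w2) := by
      unfold mom mabs
      apply intervalIntegral.integral_congr
      intro s _
      simp only [inn, inner_add_right, inner_smul_right, abs_neg]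
      congr 1
      rw [hh, ← hw1d, ← hw2d, ← hw3d]; ring
    have m3 : mom n (-(1 / 2 : ℝ) • (g1 + g2 + g3) + g1 + g2) g3 =
        mabs (-h + w1 + w2) h := by
      unfold mom mabs
      apply intervalIntegral.integral_congr
      intro s _
      simp only [inn, inner_add_right, inner_smul_right, abs_neg]
      congr 1
      rw [hh, ← hw1d, ← hw2d, ← hw3d]; ring
    have hR : ∫ t in (-h)..h, hr w1 w2 w3 l1 l2 l3 t ≤
        c * (cr g1 g2 + cr g1 g3 + cr g2 g3) := by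
      rw [hi4]
      unfold NH at hNH
      rw [m1, m2, m3, div_le_iff₀ hA] at hNH
      exact hNH
    have hsub : ∫ t in (-h)..h, (hr w1 w2 w3 l1 l2 l3 t - (up t - lo t)) =
        (∫ t in (-h)..h, hr w1 w2 w3 l1 l2 l3 t) - ∫ t in (-h)..h, (up t - lo t) :=
      intervalIntegral.integral_sub (hi2.intervalIntegrable _ _)
        ((cup.sub clo).intervalIntegrable _ _)
    rw [hsub]
    rw [eA, ← eD]
    rw [sub_mul, one_mul]
    linarith
  · -- topsave
    intro T p q hp hq hpq hpT hqT hT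
    -- order the two points
    obtain ⟨a, b, hab, haK, hbK⟩ : ∃ a b : ℝ, a < b ∧
        pt u n (⟪u, z⟫ + a) T ∈ Hex z g1 g2 g3 ∧ pt u n (⟪u, z⟫ + b) T ∈ Hex z g1 g2 g3 := by
      have ep : p = pt u n (⟪u, z⟫ + (⟪u, p⟫ - ⟪u, z⟫)) T := by
        apply on_ext hon
        · rw [pt_u hon]; ring
        · rw [pt_n hon, hpT]
      have eq' : q = pt u n (⟪u, z⟫ + (⟪u, q⟫ - ⟪u, z⟫)) T := by
        apply on_ext hon
        · rw [pt_u hon]; ring
        · rw [pt_n hon, hqT]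
      have hne : ⟪u, p⟫ ≠ ⟪u, q⟫ := by
        intro he
        exact hpq (on_ext hon he (by rw [hpT, hqT]))
      rcases lt_or_gt_of_ne hne with hlt | hlt
      · exact ⟨⟪u, p⟫ - ⟪u, z⟫, ⟪u, q⟫ - ⟪u, z⟫, by linarith, ep ▸ hp, eq' ▸ hq⟩
      · exact ⟨⟪u, q⟫ - ⟪u, z⟫, ⟪u, p⟫ - ⟪u, z⟫, by linarith, eq' ▸ hq, ep ▸ hp⟩
    -- membership of points with coordinates
    have hmem : ∀ t y, pt u n (⟪u, z⟫ + t) y ∈ Hex z g1 g2 g3 ↔
        |t| ≤ h ∧ lo t ≤ y ∧ y ≤ up t := by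
      intro t y
      rw [hm1, pt_u hon, pt_n hon, add_sub_cancel_left]
    have hmid : ∀ t, a ≤ t → t ≤ b → pt u n (⟪u, z⟫ + t) T ∈ Hex z g1 g2 g3 := by
      intro t hat htb
      have hba : 0 < b - a := by linarith
      have := hex_convex z g1 g2 g3 haK hbK (a := (b - t) / (b - a)) (b := (t - a) / (b - a))
        (div_nonneg (by linarith) hba.le) (div_nonneg (by linarith) hba.le)
        (by field_simp; ring)
      have e : ((b - t) / (b - a)) • pt u n (⟪u, z⟫ + a) T +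
          ((t - a) / (b - a)) • pt u n (⟪u, z⟫ + b) T = pt u n (⟪u, z⟫ + t) T := by
        apply on_ext hon
        · rw [inner_add_right, inner_smul_right, inner_smul_right, pt_u hon, pt_u hon, pt_u hon]
          field_simp; ring
        · rw [inner_add_right, inner_smul_right, inner_smul_right, pt_n hon, pt_n hon, pt_n hon]
          field_simp; ring
      rwa [e] at this
    have hupT : ∀ t, a ≤ t → t ≤ b → up t = T := by
      intro t hat htb
      obtain ⟨k1, k2, k3⟩ := (hmem t T).1 (hmid t hat htb)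
      refine le_antisymm ?_ k3
      have := hT _ ((hmem t (up t)).2 ⟨k1, k2.trans k3, le_rfl⟩)
      rwa [pt_n hon] at this
    have habs : ∀ t, a ≤ t → t ≤ b → |t| ≤ h := fun t h1 h2 => ((hmem t T).1 (hmid t h1 h2)).1
    have hfront : segment ℝ (pt u n (⟪u, z⟫ + a) T) (pt u n (⟪u, z⟫ + b) T) ⊆
        frontier (Hex z g1 g2 g3) := by
      intro x hx
      have hxK : x ∈ Hex z g1 g2 g3 := (hex_convex z g1 g2 g3).segment_subset haK hbK hx
      have hxT : ⟪n, x⟫ = T := by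
        rw [segment_eq_image] at hx
        obtain ⟨θ, _, rfl⟩ := hx
        simp only [inner_add_right, inner_smul_right, pt_n hon]
        ring
      refine ⟨subset_closure hxK, ?_⟩
      intro hxi
      obtain ⟨k1, k2, k3⟩ := (hm2 x).1 hxi
      have := hT _ ((hmem (⟪u, x⟫ - ⟪u, z⟫) (up (⟪u, x⟫ - ⟪u, z⟫))).2
        ⟨k1.le, (k2.trans k3).le, le_rfl⟩)
      rw [pt_n hon] at this
      linarith
    have hne : pt u n (⟪u, z⟫ + a) T ≠ pt u n (⟪u, z⟫ + b) T := by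
      intro he
      have := congrArg (fun x => ⟪u, x⟫) he
      simp only [pt_u hon] at this
      linarith
    have hLd : ∀ x y, |x| ≤ h → |y| ≤ h → x ≤ y →
        y - x ≤ hl w1 w2 w3 l1 l2 l3 y - hl w1 w2 w3 l1 l2 l3 x := by
      intro x y hx hy hxy
      exact hl_diff hw1 hw2 hw3 hwl1 hwl2 hwl3 (by rw [← hh]; exact hx) (by rw [← hh]; exact hy)
        hxy
    have hla := abs_le.1 (habs a le_rfl hab.le)
    have hlb := abs_le.1 (habs b hab.le le_rfl)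
    rcases lt_or_ge 0 b with hb0 | hb0
    · -- around the right end
      obtain ⟨t1, ht1⟩ : ∃ t1 : ℝ, t1 = max 0 a := ⟨_, rfl⟩
      have ht1b : t1 < b := by rw [ht1]; exact max_lt hb0 hab
      have ht10 : 0 ≤ t1 := by rw [ht1]; exact le_max_left _ _
      have ht1a : a ≤ t1 := by rw [ht1]; exact le_max_right _ _
      refine ⟨t1, (t1 + b) / 2, b - (t1 + b) / 2, by linarith, by linarith, by linarith,
        by linarith, ?_⟩
      intro t ht
      have hta : a ≤ t := by linarith [ht.1]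
      have htb : t ≤ b := by linarith [ht.2]
      have ht0 : 0 ≤ t := by linarith [ht.1]
      refine ⟨hupT t hta htb, pt u n (⟪u, z⟫ + b) T, pt_n hon _ _, ?_⟩
      obtain ⟨p1, -, -, -⟩ := hPath u n z g1 g2 g3 t hC (by rw [← hh]; exact habs t hta htb)
      obtain ⟨-, -, p3, -⟩ := hPath u n z g1 g2 g3 b hC
        (by rw [← hh]; exact habs b hab.le le_rfl)
      rw [ePlo] at p1
      rw [ePup, hupT b hab.le le_rfl] at p3
      have p5 := PathIn.trans p1 p3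
      have hd := hLd (-b) (-t) (by rw [abs_neg]; exact habs b hab.le le_rfl)
        (by rw [abs_neg]; exact habs t hta htb) (by linarith)
      have p6 := path_extend (x := hl w1 w2 w3 l1 l2 l3 (-t) - hl w1 w2 w3 l1 l2 l3 (-b) -
        (b - (t1 + b) / 2)) p5 (by rw [segment_symm]; exact hfront) hne.symm
        (by linarith [ht.2])
      have e : (‖g1‖ + ‖g2‖ + ‖g3‖ - hl ⟪u, g1⟫ ⟪u, g2⟫ ⟪u, g3⟫ ‖g1‖ ‖g2‖ ‖g3‖ t) +
          hl ⟪u, g1⟫ ⟪u, g2⟫ ⟪u, g3⟫ ‖g1‖ ‖g2‖ ‖g3‖ (-b) +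
          (hl w1 w2 w3 l1 l2 l3 (-t) - hl w1 w2 w3 l1 l2 l3 (-b) - (b - (t1 + b) / 2)) =
          hr w1 w2 w3 l1 l2 l3 t - (b - (t1 + b) / 2) := by
        rw [lenR t ht0]; ring
      rw [e] at p6
      exact p6
    · -- around the left end
      refine ⟨(a + b) / 2, b, (b - a) / 2, by linarith, by linarith, by linarith,
        by linarith, ?_⟩
      intro t ht
      have hta : a ≤ t := by linarith [ht.1]
      have htb : t ≤ b := ht.2.le
      have ht0 : t ≤ 0 := by linarith [ht.2]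
      refine ⟨hupT t hta htb, pt u n (⟪u, z⟫ + a) T, pt_n hon _ _, ?_⟩
      obtain ⟨-, p2, -, -⟩ := hPath u n z g1 g2 g3 t hC (by rw [← hh]; exact habs t hta htb)
      obtain ⟨-, -, -, p4⟩ := hPath u n z g1 g2 g3 a hC
        (by rw [← hh]; exact habs a le_rfl hab.le)
      rw [ePlo] at p2
      rw [ePup, hupT a le_rfl hab.le] at p4
      have p5 := PathIn.trans p2 p4
      have hd := hLd (-t) (-a) (by rw [abs_neg]; exact habs t hta htb)
        (by rw [abs_neg]; exact habs a le_rfl hab.le) (by linarith)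
      have p6 := path_extend (x := hl w1 w2 w3 l1 l2 l3 (-a) - hl w1 w2 w3 l1 l2 l3 (-t) -
        (b - a) / 2) p5 hfront hne (by linarith [ht.1])
      have e : hl ⟪u, g1⟫ ⟪u, g2⟫ ⟪u, g3⟫ ‖g1‖ ‖g2‖ ‖g3‖ t +
          (‖g1‖ + ‖g2‖ + ‖g3‖ - hl ⟪u, g1⟫ ⟪u, g2⟫ ⟪u, g3⟫ ‖g1‖ ‖g2‖ ‖g3‖ (-a)) +
          (hl w1 w2 w3 l1 l2 l3 (-a) - hl w1 w2 w3 l1 l2 l3 (-t) - (b - a) / 2) =
          hr w1 w2 w3 l1 l2 l3 t - (b - a) / 2 := by
        rw [lenL t ht0]; ring
      rw [e] at p6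
      exact p6
  · rw [hh]
    linarith

end Pool.Agent.LFT
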