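import Pool.Agent.LFT.HStmts
import Pool.Agent.LFT.HBasic

namespace Pool.Agent.LFT

open MeasureTheory Set
open scoped RealInnerProductSpace ENNReal

namespace HNorm

open HBasic

theorem cr_neg_left (a b : E) : cr (-a) b = -cr a b := by
  simp only [cr, PiLp.neg_apply]; ring

theorem cr_neg_right (a b : E) : cr a (-b) = -cr a b := by
  simp only [cr, PiLp.neg_apply]; ring

/-- rotation of a vector, so that `⟪rot q, v⟫ = cr q v` -/
noncomputable def rot (q : E) : E := !₂[-(q 1), q 0]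

theorem inner_rot (q v : E) : ⟪rot q, v⟫ = cr q v := by
  simp only [rot, PiLp.inner_apply, Fin.sum_univ_two, cr]
  simp
  ring

theorem cont_line (v a g : E) : Continuous fun s : ℝ => cr v (a + s • g) := by
  simp only [cr, PiLp.add_apply, PiLp.smul_apply, smul_eq_mul]
  fun_prop

theorem int_line (v a g : E) : ∫ s in (0 : ℝ)..1, cr v (a + s • g) = cr v a + cr v g / 2 := by
  simp only [cr_add_right, cr_smul_right]
  rw [intervalIntegral.integral_add (Continuous.intervalIntegrable (by fun_prop) _ _)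
    (Continuous.intervalIntegrable (by fun_prop) _ _)]
  · rw [intervalIntegral.integral_const, intervalIntegral.integral_mul_const, integral_id]
    simp
    ring

theorem mom_ge (v a g : E) : -(cr v a + cr v g / 2) ≤ mom v a g := by
  rw [← int_line, ← intervalIntegral.integral_neg]
  unfold mom
  refine intervalIntegral.integral_mono_on zero_le_one
    ((cont_line v a g).neg.intervalIntegrable _ _)
    ((cont_line v a g).abs.intervalIntegrable _ _) fun s _ => neg_le_abs _

theorem mom_eq (v a g : E) (h0 : cr v a ≤ 0) (h1 : cr v (a + g) ≤ 0) :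
    mom v a g = -(cr v a + cr v g / 2) := by
  rw [← int_line, ← intervalIntegral.integral_neg]
  unfold mom
  refine intervalIntegral.integral_congr fun s hs => ?_
  rw [uIcc_of_le zero_le_one] at hs
  change |cr v (a + s • g)| = -(cr v (a + s • g))
  rw [abs_of_nonpos]
  rw [cr_add_right] at h1
  rw [cr_add_right, cr_smul_right]
  nlinarith [hs.1, hs.2]

theorem mom_smul (c : ℝ) (v a g : E) : mom (c • v) a g = |c| * mom v a g := by
  unfold mom
  simp only [cr_smul_left, abs_mul]
  rw [intervalIntegral.integral_const_mul]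

theorem NH_smul (g1 g2 g3 : E) (c : ℝ) (v : E) : NH g1 g2 g3 (c • v) = |c| * NH g1 g2 g3 v := by
  unfold NH
  simp only [mom_smul]
  ring

end HNorm

open HBasic HNorm

theorem hnorm_proof : Stmt_HNorm := by
  intro g1 g2 g3 hpos hmax
  obtain ⟨h12, h23, h13⟩ := hpos
  set A := cr g1 g2 + cr g1 g3 + cr g2 g3 with hA
  have hA0 : 0 < A := by positivity
  set D := g1 + g2 + g3 with hD
  have a21 : cr g2 g1 = -cr g1 g2 := cr_anti g2 g1
  have a31 : cr g3 g1 = -cr g1 g3 := cr_anti g3 g1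
  have a32 : cr g3 g2 = -cr g2 g3 := cr_anti g3 g2
  have a11 : cr g1 g1 = 0 := cr_self g1
  have a22 : cr g2 g2 = 0 := cr_self g2
  have a33 : cr g3 g3 = 0 := cr_self g3
  set q : E := (1 / A) • (-(‖g1‖ • (g2 + g3)) + ‖g2‖ • (g1 - g3) + ‖g3‖ • (g1 + g2)) with hq
  have hqv : ∀ v, cr q v = (1 / A) * (-(‖g1‖ * (cr g2 v + cr g3 v)) + ‖g2‖ * (cr g1 v - cr g3 v) +
      ‖g3‖ * (cr g1 v + cr g2 v)) := by
    intro v
    rw [hq]
    simp only [cr, PiLp.smul_apply, PiLp.add_apply, PiLp.neg_apply, PiLp.sub_apply, smul_eq_mul]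
    ring
  set w := rot q with hw
  have hwv : ∀ v, ⟪w, v⟫ = cr q v := fun v => inner_rot q v
  have e1 : ⟪w, g1 + g2⟫ = ‖g1‖ + ‖g2‖ := by
    rw [hwv, hqv]
    simp only [cr_add_right, a21, a31, a32, a11, a22]
    field_simp
    rw [hA]; ring
  have e2 : ⟪w, g2 + g3⟫ = ‖g2‖ + ‖g3‖ := by
    rw [hwv, hqv]
    simp only [cr_add_right, a32, a22, a33]
    field_simp
    rw [hA]; ring
  -- lower bound
  have hlow : ∀ v, ⟪w, v⟫ ≤ NH g1 g2 g3 v := by
    intro v
    rw [hwv, hqv]
    unfold NH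
    rw [← hA]
    have m1 := mom_ge v (-(1 / 2 : ℝ) • D) g1
    have m2 := mom_ge v (-(1 / 2 : ℝ) • D + g1) g2
    have m3 := mom_ge v (-(1 / 2 : ℝ) • D + g1 + g2) g3
    simp only [hD, cr_add_right, cr_smul_right] at m1 m2 m3
    rw [cr_anti g1 v, cr_anti g2 v, cr_anti g3 v]
    rw [one_div, inv_mul_eq_div]
    refine div_le_div_of_nonneg_right ?_ hA0.le
    nlinarith [mul_le_mul_of_nonneg_left m1 (norm_nonneg g1),
      mul_le_mul_of_nonneg_left m2 (norm_nonneg g2), mul_le_mul_of_nonneg_left m3 (norm_nonneg g3)]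
  -- equality for `D`
  have heq : NH g1 g2 g3 D = ⟪w, D⟫ := by
    rw [hwv, hqv]
    unfold NH
    rw [← hA, ← hD]
    have hDD : cr D D = 0 := cr_self D
    have hD1 : cr D g1 = -(cr g1 g2 + cr g1 g3) := by
      rw [hD]; simp only [cr_add_left, a21, a31, a11]; ring
    have hD2 : cr D g2 = cr g1 g2 - cr g2 g3 := by
      rw [hD]; simp only [cr_add_left, a32, a22]; ring
    have hD3 : cr D g3 = cr g1 g3 + cr g2 g3 := by
      rw [hD]; simp only [cr_add_left, a33]; ring
    have m1 := mom_eq D (-(1 / 2 : ℝ) • D) g1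
      (by rw [cr_smul_right, hDD]; simp) (by rw [cr_add_right, cr_smul_right, hDD, hD1]; nlinarith)
    have m2 := mom_eq D (-(1 / 2 : ℝ) • D + g1) g2
      (by rw [cr_add_right, cr_smul_right, hDD, hD1]; nlinarith)
      (by rw [cr_add_right, cr_add_right, cr_smul_right, hDD, hD1, hD2]; nlinarith)
    have m3 := mom_eq D (-(1 / 2 : ℝ) • D + g1 + g2) g3
      (by rw [cr_add_right, cr_add_right, cr_smul_right, hDD, hD1, hD2]; nlinarith)
      (by rw [cr_add_right, cr_add_right, cr_add_right, cr_smul_right, hDD, hD1, hD2, hD3]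
          nlinarith)
    rw [m1, m2, m3]
    rw [cr_anti g1 D, cr_anti g2 D, cr_anti g3 D]
    simp only [cr_add_right, cr_smul_right, hDD, hD1, hD2, hD3]
    field_simp
    ring
  have hD0 : D ≠ 0 := by
    intro h
    have : cr g1 D = cr g1 g2 + cr g1 g3 := by
      rw [hD]; simp only [cr_add_right, a11]; ring
    rw [h] at this
    simp only [cr, PiLp.zero_apply] at this
    simp only [cr] at h12 h13
    nlinarith
  have hDn : 0 < ‖D‖ := norm_pos_iff.2 hD0
  -- upper bound
  have hup : ∀ v, NH g1 g2 g3 v ≤ NH g1 g2 g3 D / ‖D‖ * ‖v‖ := by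
    intro v
    by_cases hv : v = 0
    · subst hv
      have : NH g1 g2 g3 (0 : E) = 0 := by
        have := NH_smul g1 g2 g3 0 (0 : E)
        simpa using this
      rw [this, norm_zero, mul_zero]
    · have hvn : 0 < ‖v‖ := norm_pos_iff.2 hv
      have h1 := hmax ((‖D‖ / ‖v‖) • v) (by
        rw [norm_smul, norm_div, norm_norm, norm_norm]
        field_simp)
      rw [NH_smul, abs_of_pos (div_pos hDn hvn)] at h1
      rw [div_mul_eq_mul_div, div_le_iff₀ hvn] at h1
      rw [div_mul_eq_mul_div, le_div_iff₀ hDn]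
      linarith
  have hw1 : ‖w‖ ≤ NH g1 g2 g3 D / ‖D‖ := by
    have h1 := (hlow w).trans (hup w)
    rw [real_inner_self_eq_norm_sq] at h1
    by_cases hw0 : ‖w‖ = 0
    · rw [hw0]
      have h2 := hlow D
      have h3 : (0 : ℝ) ≤ NH g1 g2 g3 D := by
        rw [heq]
        have h4 : w = 0 := norm_eq_zero.1 hw0
        rw [h4, inner_zero_left]
      positivity
    · have : 0 < ‖w‖ := lt_of_le_of_ne (norm_nonneg _) (Ne.symm hw0)
      nlinarith
  have hw2 : NH g1 g2 g3 D / ‖D‖ ≤ ‖w‖ := by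
    rw [div_le_iff₀ hDn, heq]
    exact real_inner_le_norm w D
  have hwc : NH g1 g2 g3 D / ‖D‖ = ‖w‖ := le_antisymm hw2 hw1
  refine ⟨w, e1, e2, ?_, fun v => ?_⟩
  · have h1 : ‖g1 + g2‖ < ‖g1‖ + ‖g2‖ := by
      apply norm_add_lt_of_not_sameRay
      intro hs
      have h0 : g1 ≠ 0 := by
        rintro rfl
        simp [cr] at h12
      obtain ⟨r, hr, hr'⟩ := hs.exists_nonneg_left h0
      rw [← hr', cr_smul_right, a11] at h12
      simp at h12
    have h2 : ‖g1‖ + ‖g2‖ ≤ ‖w‖ * ‖g1 + g2‖ := by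
      rw [← e1]; exact real_inner_le_norm w (g1 + g2)
    have h3 : 0 ≤ ‖g1 + g2‖ := norm_nonneg _
    by_contra hc
    push Not at hc
    nlinarith
  · rw [← hwc]; exact hup v

end Pool.Agent.LFT
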