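import Pool.Agent.LFT.HStmts
import Pool.Agent.LFT.HBasic
import Pool.Agent.LFT.HNorm

namespace Pool.Agent.LFT

open MeasureTheory Set
open scoped RealInnerProductSpace ENNReal

namespace HFam

open HBasic HNorm

theorem mabs_comm (α β : ℝ) : mabs α β = mabs β α := by
  unfold mabs
  have h := intervalIntegral.integral_comp_sub_left (a := 0) (b := 1)
    (fun s : ℝ => |β + s * (α - β)|) 1
  simp only [sub_self, sub_zero] at h
  rw [← h]
  refine intervalIntegral.integral_congr fun s _ => ?_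
  congr 1
  ring

theorem mabs_neg (α β : ℝ) : mabs (-α) (-β) = mabs α β := by
  unfold mabs
  refine intervalIntegral.integral_congr fun s _ => ?_
  rw [← abs_neg]
  congr 1
  ring

theorem mabs_nonneg (α β : ℝ) (hα : 0 ≤ α) (hβ : 0 ≤ β) : mabs α β = (α + β) / 2 := by
  unfold mabs
  have h1 : ∫ s in (0 : ℝ)..1, |α + s * (β - α)| = ∫ s in (0 : ℝ)..1, (α + s * (β - α)) := by
    refine intervalIntegral.integral_congr fun s hs => ?_
    rw [uIcc_of_le zero_le_one] at hs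
    rw [abs_of_nonneg]
    nlinarith [hs.1, hs.2, mul_nonneg hs.1 hβ, mul_nonneg (sub_nonneg.2 hs.2) hα]
  rw [h1, intervalIntegral.integral_add (Continuous.intervalIntegrable (by fun_prop) _ _)
    (Continuous.intervalIntegrable (by fun_prop) _ _), intervalIntegral.integral_const,
    intervalIntegral.integral_mul_const, integral_id]
  simp
  ring

theorem mabs_nonpos (α β : ℝ) (hα : α ≤ 0) (hβ : β ≤ 0) : mabs α β = -(α + β) / 2 := by
  have h := mabs_nonneg (-α) (-β) (by linarith) (by linarith)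
  rw [mabs_neg] at h
  rw [h]; ring

theorem mabs_opp (α β : ℝ) (hα : α ≤ 0) (hβ : 0 ≤ β) (h : α < β) :
    mabs α β = (α ^ 2 + β ^ 2) / (2 * (β - α)) := by
  unfold mabs
  have hne : β - α ≠ 0 := by linarith
  have h1 := intervalIntegral.integral_comp_add_mul (a := 0) (b := 1) (fun x : ℝ => |x|) hne α
  have h2 : ∀ s : ℝ, α + s * (β - α) = α + (β - α) * s := fun s => by ring
  simp only [h2]
  rw [h1]
  have h3 : α + (β - α) * 0 = α := by ring
  have h4 : α + (β - α) * 1 = β := by ring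
  rw [h3, h4]
  rw [← intervalIntegral.integral_add_adjacent_intervals (a := α) (b := 0) (c := β)
    (continuous_abs.intervalIntegrable _ _) (continuous_abs.intervalIntegrable _ _)]
  have h5 : ∫ x in α..0, |x| = ∫ x in α..0, -x := by
    refine intervalIntegral.integral_congr fun x hx => ?_
    rw [uIcc_of_le hα] at hx
    exact abs_of_nonpos hx.2
  have h6 : ∫ x in (0 : ℝ)..β, |x| = ∫ x in (0 : ℝ)..β, x := by
    refine intervalIntegral.integral_congr fun x hx => ?_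
    rw [uIcc_of_le hβ] at hx
    exact abs_of_nonneg hx.1
  rw [h5, h6, intervalIntegral.integral_neg, integral_id, integral_id]
  simp only [smul_eq_mul]
  field_simp
  ring

theorem mom_eq_mabs (v a g : E) : mom v a g = mabs (cr v a) (cr v (a + g)) := by
  unfold mom mabs
  refine intervalIntegral.integral_congr fun s _ => ?_
  simp only [cr_add_right, cr_smul_right]
  congr 1
  ring

theorem le_of_sq {x y : ℝ} (hx : 0 ≤ x) (hy : 0 ≤ y) (h : x ^ 2 ≤ y ^ 2) : x ≤ y :=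
  (pow_le_pow_iff_left₀ hx hy two_ne_zero).1 h

theorem c3_aux (s l q : ℝ) (hs : 1 < s) (hs2 : s ≤ 2) (hl : 0 < l) (hl2 : l ≤ 5 / 4)
    (hq : q ≤ 2 + s ^ 2 / 4) : l * ((s - 1) * (s + q - 2)) ≤ s ^ 2 := by
  have h7 : (s - 1) * (s + q - 2) ≤ (s - 1) * (s + s ^ 2 / 4) :=
    mul_le_mul_of_nonneg_left (by linarith) (by linarith)
  have h8 : 0 ≤ (s - 1) * (s + s ^ 2 / 4) := by
    apply mul_nonneg (by linarith); positivity
  have h9 : l * ((s - 1) * (s + q - 2)) ≤ 5 / 4 * ((s - 1) * (s + s ^ 2 / 4)) := by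
    calc l * ((s - 1) * (s + q - 2)) ≤ l * ((s - 1) * (s + s ^ 2 / 4)) :=
          mul_le_mul_of_nonneg_left h7 hl.le
      _ ≤ _ := mul_le_mul_of_nonneg_right hl2 h8
  have h11 : 0 ≤ 20 + s - 5 * s ^ 2 := by
    have : 20 + s - 5 * s ^ 2 = (2 - s) * (5 * s + 9) + 2 := by ring
    rw [this]
    have := mul_nonneg (show (0 : ℝ) ≤ 2 - s by linarith) (show (0 : ℝ) ≤ 5 * s + 9 by linarith)
    linarith
  have h12 : 0 ≤ s * (20 + s - 5 * s ^ 2) / 16 := by positivity
  have h13 : s ^ 2 - 5 / 4 * ((s - 1) * (s + s ^ 2 / 4)) = s * (20 + s - 5 * s ^ 2) / 16 := by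
    ring
  linarith

/-- (C3) for `w = 1` -/
theorem c3_one (s t l q : ℝ) (hs : 0 < s) (ht : 0 < t) (hl : 0 < l) (hl2 : l ^ 2 = 1 + t ^ 2)
    (hq : 0 < q) (hq2 : q ^ 2 = s ^ 2 + 4) (c1 : l * (s + 2 * t) ^ 2 ≤ 2 * (l + s))
    (c2 : 4 * l * (s + t) + s ^ 2 ≤ 4 * (l + s)) :
    l * (s + 2 * t) * (s + q) ≤ 4 * (l + s) := by
  rcases le_or_gt q (s + 4 * t) with h | h
  · have h1 : l * (s + 2 * t) * (s + q) ≤ l * (s + 2 * t) * (2 * (s + 2 * t)) :=
      mul_le_mul_of_nonneg_left (by linarith) (by positivity)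
    have h2 : l * (s + 2 * t) * (2 * (s + 2 * t)) = 2 * (l * (s + 2 * t) ^ 2) := by ring
    linarith
  · refine le_trans ?_ c2
    have hl1 : 1 ≤ l := le_of_sq (by norm_num) hl.le (by rw [hl2]; nlinarith [sq_nonneg t])
    have hq2' : 2 ≤ q := le_of_sq (by norm_num) hq.le (by rw [hq2]; nlinarith [sq_nonneg s])
    -- `G ≤ (s - 1) (s + q - 2)`
    have hG : (s + 2 * t) * (s + q) - 4 * (s + t) ≤ (s - 1) * (s + q - 2) := by
      have h1 : (s - 1) * (s + q - 2) - ((s + 2 * t) * (s + q) - 4 * (s + t)) =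
          (q - s - 4 * t) * (s + q - 2) / 2 + (s ^ 2 + 4 - q ^ 2) / 2 := by ring
      have h2 := mul_nonneg (show (0 : ℝ) ≤ q - s - 4 * t by linarith)
        (show (0 : ℝ) ≤ s + q - 2 by linarith)
      linarith
    have key : l * ((s - 1) * (s + q - 2)) ≤ s ^ 2 := by
      rcases le_or_gt s 1 with h1 | h1
      · have h2 : (s - 1) * (s + q - 2) ≤ 0 :=
          mul_nonpos_of_nonpos_of_nonneg (by linarith) (by linarith)
        have h3 := mul_nonpos_of_nonneg_of_nonpos hl.le h2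
        have h4 := sq_nonneg s
        linarith
      · have h2 : s ^ 2 + 4 * t ≤ 4 := by
          have := mul_nonneg (show (0 : ℝ) ≤ l - 1 by linarith)
            (show (0 : ℝ) ≤ s + t - 1 by linarith)
          linarith
        have h3 : s ≤ 2 := le_of_sq hs.le (by norm_num) (by linarith)
        have h4 : t ≤ 3 / 4 := by nlinarith
        have h5 : l ≤ 5 / 4 := le_of_sq hl.le (by norm_num) (by
          rw [hl2]
          have : t ^ 2 ≤ (3 / 4) ^ 2 := pow_le_pow_left₀ ht.le h4 2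
          linarith)
        have h6 : q ≤ 2 + s ^ 2 / 4 := le_of_sq hq.le (by positivity) (by
          rw [hq2]
          have : (2 + s ^ 2 / 4) ^ 2 = s ^ 2 + 4 + (s ^ 2 / 4) ^ 2 := by ring
          rw [this]
          have := sq_nonneg (s ^ 2 / 4)
          linarith)
        exact c3_aux s l q h1 h3 hl h5 h6
    have h1 := mul_le_mul_of_nonneg_left hG hl.le
    have h2 : l * (s + 2 * t) * (s + q) = l * ((s + 2 * t) * (s + q) - 4 * (s + t)) +
      4 * l * (s + t) := by ring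
    linarith

/-- (C3) -/
theorem c3 (w s t l q : ℝ) (hw : 0 < w) (hs : 0 < s) (ht : 0 < t) (hl : 0 < l)
    (hl2 : l ^ 2 = w ^ 2 + t ^ 2) (hq : 0 < q) (hq2 : q ^ 2 = s ^ 2 + 4 * w ^ 2)
    (c1 : l * (s + 2 * t) ^ 2 ≤ 2 * w ^ 2 * (l + s))
    (c2 : 4 * l * (s + t) + s ^ 2 ≤ 4 * w * (l + s)) :
    l * (s + 2 * t) * (s + q) ≤ 4 * w ^ 2 * (l + s) := by
  have h := c3_one (s / w) (t / w) (l / w) (q / w) (by positivity) (by positivity) (by positivity)
    (by field_simp; linarith) (by positivity) (by field_simp; linarith)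
    (by
      have h1 : l / w * (s / w + 2 * (t / w)) ^ 2 = l * (s + 2 * t) ^ 2 / w ^ 3 := by
        field_simp
      have h2 : 2 * (l / w + s / w) = 2 * w ^ 2 * (l + s) / w ^ 3 := by field_simp
      rw [h1, h2]
      exact div_le_div_of_nonneg_right c1 (by positivity))
    (by
      have h1 : 4 * (l / w) * (s / w + t / w) + (s / w) ^ 2 = (4 * l * (s + t) + s ^ 2) / w ^ 2 := by
        field_simp
      have h2 : 4 * (l / w + s / w) = 4 * w * (l + s) / w ^ 2 := by field_simp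
      rw [h1, h2]
      exact div_le_div_of_nonneg_right c2 (by positivity))
  have h1 : l / w * (s / w + 2 * (t / w)) * (s / w + q / w) =
      l * (s + 2 * t) * (s + q) / w ^ 3 := by field_simp
  have h2 : 4 * (l / w + s / w) = 4 * w ^ 2 * (l + s) / w ^ 3 := by field_simp
  rw [h1, h2] at h
  exact (div_le_div_iff_of_pos_right (by positivity)).1 h

/-- the linear function of region I -/
theorem regL (w s t l q a b : ℝ) (hw : 0 < w) (hs : 0 < s) (ht : 0 < t) (hl : 0 < l)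
    (hl2 : l ^ 2 = w ^ 2 + t ^ 2) (hq : 0 < q) (hq2 : q ^ 2 = s ^ 2 + 4 * w ^ 2)
    (c1 : l * (s + 2 * t) ^ 2 ≤ 2 * w ^ 2 * (l + s))
    (c2 : 4 * l * (s + t) + s ^ 2 ≤ 4 * w * (l + s)) (ha : 0 ≤ a) (hb : 0 ≤ b)
    (hab : a ^ 2 + b ^ 2 = 1) (hreg : a * s ≤ 2 * b * w) :
    l * (s / 2 + t) ^ 2 * (1 + b) ≤ (l + s) * w * (a * t + b * w) := by
  have hc3 := c3 w s t l q hw hs ht hl hl2 hq hq2 c1 c2
  have hqs : s < q := by
    by_contra hc
    push Not at hc
    nlinarith [mul_pos hw hw]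
  set H := s / 2 + t with hH
  have hH0 : 0 < H := by positivity
  set α := b - a * s / (2 * w) with hα
  have hα0 : 0 ≤ α := by
    rw [hα, sub_nonneg, div_le_iff₀ (by positivity)]; linarith
  set β := a * q / (2 * w) with hβ
  have hβ0 : 0 ≤ β := by positivity
  have hL0 : l * H ^ 2 ≤ (l + s) * w ^ 2 - l * H ^ 2 := by
    have : l * (s + 2 * t) ^ 2 = 4 * (l * H ^ 2) := by rw [hH]; ring
    linarith
  have hL1 : l * H ^ 2 * q ≤ (l + s) * w ^ 2 * (2 * H) - l * H ^ 2 * s := by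
    have h1 : l * (s + 2 * t) * (s + q) = 2 * (l * H * (s + q)) := by rw [hH]; ring
    rw [h1] at hc3
    have h2 := mul_le_mul_of_nonneg_left hc3 hH0.le
    linarith
  have hsum : 1 ≤ α + β := by
    set κ := (q - s) / (2 * w) with hκ
    have hκ0 : 0 < κ := div_pos (by linarith) (by positivity)
    have h1 : α + β = b + a * κ := by rw [hα, hβ, hκ]; field_simp; ring
    have h2 : κ * (s / w) = 1 - κ ^ 2 := by
      have h3 : κ * (s / w) - (1 - κ ^ 2) = (q ^ 2 - (s ^ 2 + 4 * w ^ 2)) / (4 * w ^ 2) := by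
        rw [hκ]; field_simp; ring
      rw [hq2, sub_self, zero_div] at h3
      linarith
    rw [h1]
    apply le_of_sq (by norm_num) (by positivity)
    have h3 : (b + a * κ) ^ 2 = 1 + a * (2 * b * κ - a * (1 - κ ^ 2)) := by
      linarith
    have h4 : 0 ≤ 2 * b * κ - a * (1 - κ ^ 2) := by
      rw [← h2]
      have h5 : 2 * b * κ - a * (κ * (s / w)) = κ * (2 * b * w - a * s) / w := by field_simp
      rw [h5]
      apply div_nonneg _ hw.le
      exact mul_nonneg hκ0.le (by linarith)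
    have h5 := mul_nonneg ha h4
    rw [h3]; linarith
  have hdec : (l + s) * w * (a * t + b * w) - l * H ^ 2 * b =
      α * ((l + s) * w ^ 2 - l * H ^ 2) +
        a / (2 * w) * ((l + s) * w ^ 2 * (2 * H) - l * H ^ 2 * s) := by
    rw [hα, hH]; field_simp; ring
  have h1 := mul_le_mul_of_nonneg_left hL0 hα0
  have h2 := mul_le_mul_of_nonneg_left hL1 (show 0 ≤ a / (2 * w) by positivity)
  have h3 : a / (2 * w) * (l * H ^ 2 * q) = β * (l * H ^ 2) := by rw [hβ]; ring
  have h4 : l * H ^ 2 * 1 ≤ l * H ^ 2 * (α + β) :=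
    mul_le_mul_of_nonneg_left hsum (by positivity)
  linarith

/-- region I -/
theorem regI (w s t l q a b : ℝ) (hw : 0 < w) (hs : 0 < s) (ht : 0 < t) (hl : 0 < l)
    (hl2 : l ^ 2 = w ^ 2 + t ^ 2) (hq : 0 < q) (hq2 : q ^ 2 = s ^ 2 + 4 * w ^ 2)
    (c1 : l * (s + 2 * t) ^ 2 ≤ 2 * w ^ 2 * (l + s))
    (c2 : 4 * l * (s + t) + s ^ 2 ≤ 4 * w * (l + s)) (ha : 0 ≤ a) (hb : 0 ≤ b)
    (hab : a ^ 2 + b ^ 2 = 1) (hreg : a * s ≤ 2 * b * w) :
    l * a ^ 2 * (s / 2 + t) ^ 2 + (l + s) * b * w * (a * t + b * w) ≤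
      w * (l + s) * (a * t + b * w) := by
  have h1 := regL w s t l q a b hw hs ht hl hl2 hq hq2 c1 c2 ha hb hab hreg
  have hb1 : b ≤ 1 := by nlinarith [sq_nonneg a]
  have h2 := mul_le_mul_of_nonneg_left h1 (show 0 ≤ 1 - b by linarith)
  have h3 : a ^ 2 = (1 - b) * (1 + b) := by linarith
  rw [h3]
  linarith

/-- region II -/
theorem regII (w s t l q a b : ℝ) (hw : 0 < w) (hs : 0 < s) (ht : 0 < t) (hl : 0 < l)
    (hl2 : l ^ 2 = w ^ 2 + t ^ 2) (hq : 0 < q) (hq2 : q ^ 2 = s ^ 2 + 4 * w ^ 2)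
    (c1 : l * (s + 2 * t) ^ 2 ≤ 2 * w ^ 2 * (l + s))
    (c2 : 4 * l * (s + t) + s ^ 2 ≤ 4 * w * (l + s)) (ha : 0 < a) (hb : 0 ≤ b)
    (hab : a ^ 2 + b ^ 2 = 1) (hreg : 2 * b * w ≤ a * s) :
    l * a * (s + t) + a * s ^ 2 / 4 + b ^ 2 * w ^ 2 / a ≤ w * (l + s) := by
  set a1 := 2 * w / q with ha1
  set b1 := s / q with hb1
  have ha10 : 0 < a1 := by positivity
  have hab1 : a1 ^ 2 + b1 ^ 2 = 1 := by
    rw [ha1, hb1]; field_simp; linarith
  have hreg1 : a1 * s = 2 * b1 * w := by rw [ha1, hb1]; ring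
  have h1 := regI w s t l q a1 b1 hw hs ht hl hl2 hq hq2 c1 c2 ha10.le (by positivity) hab1 hreg1.le
  have h2 : b1 * w = a1 * s / 2 := by linarith
  have hH0 : 0 < s / 2 + t := by positivity
  have h3 : a1 * (l * (s + t) + s ^ 2 / 2) ≤ w * (l + s) := by
    have h4 : a1 * t + b1 * w = a1 * (s / 2 + t) := by rw [h2]; ring
    rw [h4, show (l + s) * b1 * w = (l + s) * (b1 * w) by ring, h2] at h1
    have h5 : 0 < a1 * (s / 2 + t) := by positivity
    have h6 : a1 * (s / 2 + t) * (a1 * (l * (s + t) + s ^ 2 / 2)) ≤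
        a1 * (s / 2 + t) * (w * (l + s)) := by
      have : a1 * (s / 2 + t) * (a1 * (l * (s + t) + s ^ 2 / 2)) =
        l * a1 ^ 2 * (s / 2 + t) ^ 2 + (l + s) * (a1 * s / 2) * (a1 * (s / 2 + t)) := by ring
      rw [this]
      linarith
    exact le_of_mul_le_mul_left h6 h5
  have hq2w : 2 * w < q := by
    by_contra hc
    push Not at hc
    nlinarith [mul_pos hs hs]
  have ha11 : a1 < 1 := by rw [ha1, div_lt_one hq]; exact hq2w
  have hale : a ≤ 1 := by nlinarith [sq_nonneg b]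
  have hage : a1 ≤ a := by
    rw [ha1, div_le_iff₀ hq]
    apply le_of_sq (by positivity) (by positivity)
    have h5 : (2 * b * w) ^ 2 ≤ (a * s) ^ 2 := pow_le_pow_left₀ (by positivity) hreg 2
    have h6 : (a * q) ^ 2 = a ^ 2 * (s ^ 2 + 4 * w ^ 2) := by rw [mul_pow, hq2]
    rw [h6]
    have h7 : b ^ 2 = 1 - a ^ 2 := by linarith
    have h8 : (2 * b * w) ^ 2 = 4 * (1 - a ^ 2) * w ^ 2 := by rw [← h7]; ring
    rw [h8] at h5
    linarith
  -- chord inequality
  have h5 : b ^ 2 * w ^ 2 / a = w ^ 2 * (1 / a) - w ^ 2 * a := by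
    have : b ^ 2 = 1 - a ^ 2 := by linarith
    rw [this]; field_simp
  have h6 : 1 / a ≤ (1 + a1 - a) / a1 := by
    rw [div_le_div_iff₀ ha ha10]
    nlinarith [mul_nonneg (show 0 ≤ a - a1 by linarith) (show 0 ≤ 1 - a by linarith)]
  have h7 := mul_le_mul_of_nonneg_left h6 (show 0 ≤ w ^ 2 by positivity)
  set K := l * (s + t) + s ^ 2 / 4 - w ^ 2 with hK
  have h8 : w ^ 2 / a1 = a1 * (w ^ 2 + s ^ 2 / 4) := by
    rw [ha1]
    field_simp
    linarith
  have h9 : a1 * K + w ^ 2 / a1 ≤ w * (l + s) := by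
    rw [h8, hK]
    linarith
  have h10 : K + w ^ 2 ≤ w * (l + s) := by
    rw [hK]
    linarith
  have h11 : (1 - a1) * (a * K + w ^ 2 * ((1 + a1 - a) / a1)) =
      (1 - a) * (a1 * K + w ^ 2 / a1) + (a - a1) * (K + w ^ 2) := by
    field_simp
    ring
  have h12 : (1 - a1) * (a * K + w ^ 2 * ((1 + a1 - a) / a1)) ≤ (1 - a1) * (w * (l + s)) := by
    rw [h11]
    have e1 := mul_le_mul_of_nonneg_left h9 (show 0 ≤ 1 - a by linarith)
    have e2 := mul_le_mul_of_nonneg_left h10 (show 0 ≤ a - a1 by linarith)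
    linarith
  have h13 := le_of_mul_le_mul_left h12 (show 0 < 1 - a1 by linarith)
  rw [h5]
  rw [hK] at h13
  linarith

/-- the numerator of the norm -/
noncomputable def FF (w s t l a b : ℝ) : ℝ :=
  l * mabs (-(a * (s / 2 + t))) (-(a * s / 2 + b * w)) +
    s * mabs (-(a * s / 2 + b * w)) (a * s / 2 - b * w) +
    l * mabs (a * s / 2 - b * w) (a * (s / 2 + t))

theorem FF_neg_left (w s t l a b : ℝ) : FF w s t l (-a) b = FF w s t l a b := by
  unfold FF
  rw [mabs_comm (-(a * (s / 2 + t))), mabs_comm (a * s / 2 - b * w) (a * (s / 2 + t)),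
    mabs_comm (-(a * s / 2 + b * w)) (a * s / 2 - b * w)]
  have e1 : -(-a * (s / 2 + t)) = a * (s / 2 + t) := by ring
  have e2 : -(-a * s / 2 + b * w) = a * s / 2 - b * w := by ring
  have e3 : -a * s / 2 - b * w = -(a * s / 2 + b * w) := by ring
  have e4 : -a * (s / 2 + t) = -(a * (s / 2 + t)) := by ring
  rw [e1, e2, e3, e4]
  ring

theorem FF_neg_right (w s t l a b : ℝ) : FF w s t l a (-b) = FF w s t l a b := by
  rw [← FF_neg_left]
  unfold FF
  rw [← mabs_neg (-(a * (s / 2 + t))), ← mabs_neg (-(a * s / 2 + b * w)),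
    ← mabs_neg (a * s / 2 - b * w)]
  have e1 : -(-a * (s / 2 + t)) = a * (s / 2 + t) := by ring
  have e2 : -(-a * s / 2 + -b * w) = a * s / 2 + b * w := by ring
  have e3 : -a * s / 2 - -b * w = -(a * s / 2 - b * w) := by ring
  have e4 : -a * (s / 2 + t) = -(a * (s / 2 + t)) := by ring
  rw [e1, e2, e3, e4, neg_neg, neg_neg]

theorem FF_abs (w s t l a b : ℝ) : FF w s t l |a| |b| = FF w s t l a b := by
  rcases abs_choice a with h | h <;> rcases abs_choice b with h' | h' <;> rw [h, h']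
  · rw [FF_neg_right]
  · rw [FF_neg_left]
  · rw [FF_neg_left, FF_neg_right]

theorem FF_le (w s t l a b : ℝ) (hw : 0 < w) (hs : 0 < s) (ht : 0 < t) (hl : 0 < l)
    (hl2 : l ^ 2 = w ^ 2 + t ^ 2)
    (c1 : l * (s + 2 * t) ^ 2 ≤ 2 * w ^ 2 * (l + s))
    (c2 : 4 * l * (s + t) + s ^ 2 ≤ 4 * w * (l + s)) (ha : 0 ≤ a) (hb : 0 ≤ b)
    (hab : a ^ 2 + b ^ 2 = 1) : FF w s t l a b ≤ w * (l + s) := by
  have hq0 : 0 < s ^ 2 + 4 * w ^ 2 := by positivity
  have hq := Real.sqrt_pos.2 hq0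
  have hq2 := Real.sq_sqrt hq0.le
  have hpos : 0 < a * t + b * w := by
    rcases ha.lt_or_eq with h | h
    · positivity
    · have : 0 < b := by
        rcases hb.lt_or_eq with h' | h'
        · exact h'
        · rw [← h, ← h'] at hab; norm_num at hab
      rw [← h]; positivity
  have hm1 : mabs (-(a * (s / 2 + t))) (-(a * s / 2 + b * w)) =
      (a * (s / 2 + t) + (a * s / 2 + b * w)) / 2 := by
    rw [mabs_neg, mabs_nonneg _ _ (by positivity) (by positivity)]
  unfold FF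
  rw [hm1]
  rcases le_total (a * s) (2 * b * w) with h | h
  · have h1 := regI w s t l _ a b hw hs ht hl hl2 hq hq2 c1 c2 ha hb hab h
    have hm2 : mabs (-(a * s / 2 + b * w)) (a * s / 2 - b * w) = b * w := by
      rw [mabs_nonpos _ _ (by linarith [show 0 ≤ a * s / 2 + b * w by positivity]) (by linarith)]
      ring
    have hm3 : mabs (a * s / 2 - b * w) (a * (s / 2 + t)) =
        ((a * s / 2 - b * w) ^ 2 + (a * (s / 2 + t)) ^ 2) / (2 * (a * t + b * w)) := by
      rw [mabs_opp _ _ (by linarith) (by positivity) (by linarith)]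
      congr 1
      ring
    rw [hm2, hm3]
    have h2 : l * ((a * (s / 2 + t) + (a * s / 2 + b * w)) / 2) + s * (b * w) +
        l * (((a * s / 2 - b * w) ^ 2 + (a * (s / 2 + t)) ^ 2) / (2 * (a * t + b * w))) =
        (l * a ^ 2 * (s / 2 + t) ^ 2 + (l + s) * b * w * (a * t + b * w)) / (a * t + b * w) := by
      field_simp
      ring
    rw [h2, div_le_iff₀ hpos]
    exact h1
  · have ha0 : 0 < a := by
      rcases ha.lt_or_eq with h' | h'
      · exact h'
      · exfalso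
        rw [← h'] at h hab
        have : b = 0 := by
          by_contra hb0
          have : 0 < b := lt_of_le_of_ne hb (Ne.symm hb0)
          have : 0 < 2 * b * w := by positivity
          linarith
        rw [this] at hab
        norm_num at hab
    have h1 := regII w s t l _ a b hw hs ht hl hl2 hq hq2 c1 c2 ha0 hb hab h
    have hm2 : mabs (-(a * s / 2 + b * w)) (a * s / 2 - b * w) =
        (a ^ 2 * s ^ 2 / 4 + b ^ 2 * w ^ 2) / (a * s) := by
      have : 0 ≤ a * s / 2 + b * w := by positivity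
      have h3 : 0 < a * s := by positivity
      rw [mabs_opp _ _ (by linarith) (by linarith) (by linarith)]
      have h4 : a * s / 2 - b * w - -(a * s / 2 + b * w) = a * s := by ring
      rw [h4]
      field_simp
      ring
    have hm3 : mabs (a * s / 2 - b * w) (a * (s / 2 + t)) =
        (a * s / 2 - b * w + a * (s / 2 + t)) / 2 :=
      mabs_nonneg _ _ (by linarith) (by positivity)
    rw [hm2, hm3]
    refine le_trans (le_of_eq ?_) h1
    field_simp
    ring

theorem NH_eq (w s t l : ℝ) (hw : 0 < w) (hs : 0 < s) (ht : 0 < t) (hl : l = √(w ^ 2 + t ^ 2))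
    (v : E) : NH !₂[w, t] !₂[0, s] !₂[-w, t] v = FF w s t l (v 0) (v 1) / (w * (s + t)) := by
  have n1 : ‖(!₂[w, t] : E)‖ = l := by
    rw [EuclideanSpace.norm_eq, hl]; simp
  have n2 : ‖(!₂[0, s] : E)‖ = s := by
    rw [EuclideanSpace.norm_eq]; simp [Real.sqrt_sq hs.le]
  have n3 : ‖(!₂[-w, t] : E)‖ = l := by
    rw [EuclideanSpace.norm_eq, hl]; simp
  unfold NH
  rw [n1, n2, n3]
  simp only [mom_eq_mabs]
  unfold FF
  have e0 : cr !₂[w, t] !₂[0, s] + cr !₂[w, t] !₂[-w, t] + cr !₂[0, s] !₂[-w, t] =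
      2 * (w * (s + t)) := by
    simp [cr]; ring
  rw [e0]
  have e1 : cr v (-(1 / 2 : ℝ) • (!₂[w, t] + !₂[0, s] + !₂[-w, t])) = -(v 0 * (s / 2 + t)) := by
    simp [cr]; ring
  have e2 : cr v (-(1 / 2 : ℝ) • (!₂[w, t] + !₂[0, s] + !₂[-w, t]) + !₂[w, t]) =
      -(v 0 * s / 2 + v 1 * w) := by
    simp [cr]; ring
  have e3 : cr v (-(1 / 2 : ℝ) • (!₂[w, t] + !₂[0, s] + !₂[-w, t]) + !₂[w, t] + !₂[0, s]) =
      v 0 * s / 2 - v 1 * w := by
    simp [cr]; ring
  have e4 : cr v (-(1 / 2 : ℝ) • (!₂[w, t] + !₂[0, s] + !₂[-w, t]) + !₂[w, t] + !₂[0, s] +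
      !₂[-w, t]) = v 0 * (s / 2 + t) := by
    simp [cr, -mul_eq_mul_left_iff, -mul_eq_mul_right_iff]; ring
  rw [e1, e2, e3, e4]
  field_simp

end HFam

open HBasic HNorm HFam

theorem hfam_proof : Stmt_HFam := by
  intro w s t l hw hs ht hl c1 c2
  have hl0 : 0 < l := by rw [hl]; positivity
  have hl2 : l ^ 2 = w ^ 2 + t ^ 2 := by rw [hl, Real.sq_sqrt (by positivity)]
  refine ⟨⟨?_, ?_, ?_⟩, ?_⟩
  · simp [cr]; positivity
  · simp [cr]; positivity
  · simp [cr]; nlinarith [mul_pos hw ht]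
  intro v hv
  have hD : (!₂[w, t] + !₂[0, s] + !₂[-w, t] : E) = !₂[0, s + 2 * t] := by
    ext i
    fin_cases i
    · simp
    · simp; ring
  rw [hD] at hv ⊢
  have hDn : ‖(!₂[0, s + 2 * t] : E)‖ = s + 2 * t := by
    rw [EuclideanSpace.norm_eq]; simp [Real.sqrt_sq (show 0 ≤ s + 2 * t by positivity)]
  rw [hDn] at hv
  have hρ : 0 < s + 2 * t := by positivity
  set v' : E := (s + 2 * t)⁻¹ • v with hv'
  have hv1 : ‖v'‖ = 1 := by
    rw [hv', norm_smul, hv, norm_inv, Real.norm_of_nonneg hρ.le]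
    field_simp
  have hvv : v = (s + 2 * t) • v' := by
    rw [hv', smul_smul, mul_inv_cancel₀ hρ.ne', one_smul]
  have hsq : v' 0 ^ 2 + v' 1 ^ 2 = 1 := by
    have := EuclideanSpace.norm_sq_eq v'
    rw [hv1, Fin.sum_univ_two] at this
    simp only [Real.norm_eq_abs, sq_abs, one_pow] at this
    linarith
  have hA : 0 < w * (s + t) := by positivity
  rw [hvv, NH_smul, NH_eq w s t l hw hs ht hl, NH_eq w s t l hw hs ht hl, abs_of_pos hρ,
    ← mul_div_assoc]
  refine div_le_div_of_nonneg_right ?_ hA.le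
  have h1 : FF w s t l (v' 0) (v' 1) ≤ w * (l + s) := by
    rw [← FF_abs]
    exact FF_le w s t l _ _ hw hs ht hl0 hl2 c1 c2 (abs_nonneg _) (abs_nonneg _)
      (by rw [sq_abs, sq_abs]; exact hsq)
  have h2 : FF w s t l ((!₂[0, s + 2 * t] : E) 0) ((!₂[0, s + 2 * t] : E) 1) =
      (s + 2 * t) * (w * (l + s)) := by
    have e0 : (!₂[0, s + 2 * t] : E) 0 = 0 := by simp
    have e1 : (!₂[0, s + 2 * t] : E) 1 = s + 2 * t := by simp
    rw [e0, e1]
    unfold FF
    have hpos : 0 ≤ (s + 2 * t) * w := by positivity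
    have m1 : mabs (-(0 * (s / 2 + t))) (-(0 * s / 2 + (s + 2 * t) * w)) =
        (s + 2 * t) * w / 2 := by
      rw [mabs_nonpos _ _ (by simp) (by simp; positivity)]
      ring
    have m2 : mabs (-(0 * s / 2 + (s + 2 * t) * w)) (0 * s / 2 - (s + 2 * t) * w) =
        (s + 2 * t) * w := by
      rw [mabs_nonpos _ _ (by simp; positivity) (by simp; positivity)]
      ring
    have m3 : mabs (0 * s / 2 - (s + 2 * t) * w) (0 * (s / 2 + t)) = (s + 2 * t) * w / 2 := by
      rw [mabs_nonpos _ _ (by simp; positivity) (by simp)]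
      ring
    rw [m1, m2, m3]
    ring
  rw [h2]
  exact mul_le_mul_of_nonneg_left h1 hρ.le

end Pool.Agent.LFT
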