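import Pool.Agent.LFT.HBasic
import Pool.Agent.LFT.Final

/-!
# Final assembly for hexagons
-/

namespace Pool.Agent.LFT.HFinal

open MeasureTheory Set Pool.Agent.LFT HBasic
open scoped RealInnerProductSpace ENNReal

theorem exists_ON (n : E) (hn : ‖n‖ = 1) : ∃ u : E, ON u n ∧ cr u n = 1 := by
  have hsq : n 0 * n 0 + n 1 * n 1 = 1 := by
    have h := EuclideanSpace.norm_sq_eq n
    rw [hn, Fin.sum_univ_two] at h
    simp only [Real.norm_eq_abs, sq_abs] at h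
    nlinarith
  refine ⟨!₂[n 1, -n 0], ⟨?_, hn, ?_⟩, ?_⟩
  · rw [EuclideanSpace.norm_eq] at hn ⊢
    rw [← hn]
    congr 1
    simp [Fin.sum_univ_two]
    ring
  · rw [PiLp.inner_apply]
    simp [Fin.sum_univ_two]
    ring
  · simp only [cr]
    simp
    linarith

theorem image_Hex (lam : ℝ) (g : E ≃ₗᵢ[ℝ] E) (z' z g1 g2 g3 : E) :
    (fun p => lam • g p + z') '' Hex z g1 g2 g3 =
      Hex (lam • g z + z') (lam • g g1) (lam • g g2) (lam • g g3) := by
  have key : ∀ s1 s2 s3 : ℝ, lam • g (z + s1 • g1 + s2 • g2 + s3 • g3) + z' =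
      lam • g z + z' + s1 • (lam • g g1) + s2 • (lam • g g2) + s3 • (lam • g g3) := by
    intro s1 s2 s3
    simp only [map_add, map_smul]
    module
  ext p
  constructor
  · rintro ⟨q, ⟨s1, s2, s3, h1, h2, h3, rfl⟩, rfl⟩
    exact ⟨s1, s2, s3, h1, h2, h3, key s1 s2 s3⟩
  · rintro ⟨s1, s2, s3, h1, h2, h3, rfl⟩
    exact ⟨z + s1 • g1 + s2 • g2 + s3 • g3, ⟨s1, s2, s3, h1, h2, h3, rfl⟩, key s1 s2 s3⟩

theorem Hex_rev (z g1 g2 g3 : E) : Hex z g1 g2 g3 = Hex z g3 g2 g1 := by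
  ext p
  constructor
  · rintro ⟨s1, s2, s3, h1, h2, h3, rfl⟩
    exact ⟨s3, s2, s1, h3, h2, h1, by abel⟩
  · rintro ⟨s1, s2, s3, h1, h2, h3, rfl⟩
    exact ⟨s3, s2, s1, h3, h2, h1, by abel⟩

theorem translate_Hex {z g1 g2 g3 : E} {K : Set E} (h : IsTranslate (Hex 0 g1 g2 g3) K) :
    IsTranslate (Hex z g1 g2 g3) K := by
  obtain ⟨v, rfl⟩ := h
  refine ⟨v - z, ?_⟩
  ext p
  constructor
  · rintro ⟨q, ⟨s1, s2, s3, h1, h2, h3, rfl⟩, rfl⟩
    refine ⟨z + s1 • g1 + s2 • g2 + s3 • g3, ⟨s1, s2, s3, h1, h2, h3, rfl⟩, ?_⟩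
    simp only [zero_add]
    abel
  · rintro ⟨q, ⟨s1, s2, s3, h1, h2, h3, rfl⟩, rfl⟩
    refine ⟨0 + s1 • g1 + s2 • g2 + s3 • g3, ⟨s1, s2, s3, h1, h2, h3, rfl⟩, ?_⟩
    simp only [zero_add]
    abel

/-- Lagrange identity. -/
theorem cr_sq (a b : E) : cr a b ^ 2 = ‖a‖ ^ 2 * ‖b‖ ^ 2 - ⟪a, b⟫ ^ 2 := by
  rw [EuclideanSpace.norm_sq_eq, EuclideanSpace.norm_sq_eq, PiLp.inner_apply]
  simp only [Fin.sum_univ_two, Real.norm_eq_abs, sq_abs, cr, RCLike.inner_apply, conj_trivial]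
  ring

theorem cr_expand (g : E →ₗ[ℝ] E) (a b : E) :
    cr (g a) (g b) = cr a b * cr (g !₂[1, 0]) (g !₂[0, 1]) := by
  have h : ∀ v : E, v = v 0 • (!₂[1, 0] : E) + v 1 • (!₂[0, 1] : E) := by
    intro v
    ext i
    fin_cases i <;> simp
  conv_lhs => rw [h a, h b]
  simp only [map_add, map_smul, cr_add_left, cr_add_right, cr_smul_left, cr_smul_right, cr_self]
  rw [cr_anti (g !₂[0, 1]) (g !₂[1, 0])]
  simp only [cr]
  ring

theorem orient (g : E ≃ₗᵢ[ℝ] E) :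
    (∀ a b, cr (g a) (g b) = cr a b) ∨ (∀ a b, cr (g a) (g b) = -cr a b) := by
  have h1 : cr (g !₂[1, 0]) (g !₂[0, 1]) ^ 2 = 1 := by
    rw [cr_sq, g.norm_map, g.norm_map, g.inner_map_map, ← cr_sq]
    simp [cr]
  have h2 : ∀ a b, cr (g a) (g b) = cr a b * cr (g !₂[1, 0]) (g !₂[0, 1]) :=
    fun a b => cr_expand g.toLinearEquiv.toLinearMap a b
  rw [sq] at h1
  rcases mul_self_eq_one_iff.mp h1 with h | h
  · left; intro a b; rw [h2, h, mul_one]
  · right; intro a b; rw [h2, h]; ring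

theorem mom_image (g : E ≃ₗᵢ[ℝ] E) (ε : ℝ) (hε : |ε| = 1)
    (hg : ∀ a b, cr (g a) (g b) = ε * cr a b) (lam : ℝ) (hlam : 0 < lam) (v a b : E) :
    mom (g v) (lam • g a) (lam • g b) = lam * mom v a b := by
  unfold mom
  rw [← intervalIntegral.integral_const_mul]
  congr 1
  ext s
  have : lam • g a + s • lam • g b = lam • g (a + s • b) := by
    simp only [map_add, map_smul]; module
  rw [this, cr_smul_right, hg, abs_mul, abs_mul, hε, abs_of_pos hlam, one_mul]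

theorem mom_rev (v a b : E) : mom v (-a - b) b = mom v a b := by
  unfold mom
  have h := intervalIntegral.integral_comp_sub_left (a := 0) (b := 1)
    (fun s : ℝ => |cr v (a + s • b)|) 1
  simp only [sub_self, sub_zero] at h
  rw [← h]
  congr 1
  ext s
  have : -a - b + s • b = -(1 : ℝ) • (a + (1 - s) • b) := by module
  rw [this, cr_smul_right, abs_mul]
  simp

/-- The numerator of `NH`. -/
noncomputable def num (g1 g2 g3 v : E) : ℝ :=
  ‖g1‖ * mom v (-(1 / 2 : ℝ) • (g1 + g2 + g3)) g1 +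
      ‖g2‖ * mom v (-(1 / 2 : ℝ) • (g1 + g2 + g3) + g1) g2 +
      ‖g3‖ * mom v (-(1 / 2 : ℝ) • (g1 + g2 + g3) + g1 + g2) g3

theorem NH_eq (g1 g2 g3 v : E) :
    NH g1 g2 g3 v = 2 * num g1 g2 g3 v / (cr g1 g2 + cr g1 g3 + cr g2 g3) := rfl

theorem num_rev (g1 g2 g3 v : E) : num g3 g2 g1 v = num g1 g2 g3 v := by
  unfold num
  have e1 : mom v (-(1 / 2 : ℝ) • (g3 + g2 + g1)) g3 =
      mom v (-(1 / 2 : ℝ) • (g1 + g2 + g3) + g1 + g2) g3 := by
    rw [← mom_rev]; congr 1; module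
  have e2 : mom v (-(1 / 2 : ℝ) • (g3 + g2 + g1) + g3) g2 =
      mom v (-(1 / 2 : ℝ) • (g1 + g2 + g3) + g1) g2 := by
    rw [← mom_rev]; congr 1; module
  have e3 : mom v (-(1 / 2 : ℝ) • (g3 + g2 + g1) + g3 + g2) g1 =
      mom v (-(1 / 2 : ℝ) • (g1 + g2 + g3)) g1 := by
    rw [← mom_rev]; congr 1; module
  rw [e1, e2, e3]; ring

theorem num_image (g : E ≃ₗᵢ[ℝ] E) (ε : ℝ) (hε : |ε| = 1)
    (hg : ∀ a b, cr (g a) (g b) = ε * cr a b) (lam : ℝ) (hlam : 0 < lam) (g1 g2 g3 v : E) :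
    num (lam • g g1) (lam • g g2) (lam • g g3) (g v) = lam ^ 2 * num g1 g2 g3 v := by
  unfold num
  have e1 : -(1 / 2 : ℝ) • (lam • g g1 + lam • g g2 + lam • g g3) =
      lam • g (-(1 / 2 : ℝ) • (g1 + g2 + g3)) := by
    simp only [map_add, map_smul]; module
  have e2 : -(1 / 2 : ℝ) • (lam • g g1 + lam • g g2 + lam • g g3) + lam • g g1 =
      lam • g (-(1 / 2 : ℝ) • (g1 + g2 + g3) + g1) := by
    simp only [map_add, map_smul]; module
  have e3 : -(1 / 2 : ℝ) • (lam • g g1 + lam • g g2 + lam • g g3) + lam • g g1 + lam • g g2 =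
      lam • g (-(1 / 2 : ℝ) • (g1 + g2 + g3) + g1 + g2) := by
    simp only [map_add, map_smul]; module
  rw [e3, e2, e1, mom_image g ε hε hg lam hlam, mom_image g ε hε hg lam hlam,
    mom_image g ε hε hg lam hlam]
  have hn : ∀ x : E, ‖lam • g x‖ = lam * ‖x‖ := by
    intro x
    rw [norm_smul, Real.norm_of_nonneg hlam.le, g.norm_map]
  rw [hn, hn, hn]; ring

/-- A similar copy of a hexagon, in positive orientation. -/
theorem similar_Hex {g1 g2 g3 : E} (hpos : Pos3 g1 g2 g3) (z : E) (lam : ℝ) (hlam : 0 < lam)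
    (g : E ≃ₗᵢ[ℝ] E) (z' : E) : ∃ z2 k1 k2 k3 : E, Pos3 k1 k2 k3 ∧
      (fun p => lam • g p + z') '' Hex z g1 g2 g3 = Hex z2 k1 k2 k3 ∧
      (∀ v, NH k1 k2 k3 (g v) = NH g1 g2 g3 v) ∧
      ‖k1‖ + ‖k2‖ + ‖k3‖ = lam * (‖g1‖ + ‖g2‖ + ‖g3‖) := by
  have hn : ∀ x : E, ‖lam • g x‖ = lam * ‖x‖ := by
    intro x
    rw [norm_smul, Real.norm_of_nonneg hlam.le, g.norm_map]
  have h12 := hpos.p12
  have h13 := hpos.p13
  have h23 := hpos.p23
  rcases orient g with h | h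
  · refine ⟨lam • g z + z', lam • g g1, lam • g g2, lam • g g3, ⟨?_, ?_, ?_⟩, image_Hex _ _ _ _ _ _ _,
      ?_, ?_⟩
    · rw [cr_smul_left, cr_smul_right, h]; positivity
    · rw [cr_smul_left, cr_smul_right, h]; positivity
    · rw [cr_smul_left, cr_smul_right, h]; positivity
    · intro v
      rw [NH_eq, NH_eq, num_image g 1 (by simp) (by intro a b; rw [h, one_mul]) lam hlam]
      simp only [cr_smul_left, cr_smul_right, h]
      have hA : cr g1 g2 + cr g1 g3 + cr g2 g3 ≠ 0 := by positivity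
      have e : lam * (lam * cr g1 g2) + lam * (lam * cr g1 g3) + lam * (lam * cr g2 g3) =
          lam ^ 2 * (cr g1 g2 + cr g1 g3 + cr g2 g3) := by ring
      rw [e]
      field_simp
    · rw [hn, hn, hn]; ring
  · refine ⟨lam • g z + z', lam • g g3, lam • g g2, lam • g g1, ⟨?_, ?_, ?_⟩, ?_, ?_, ?_⟩
    · rw [cr_smul_left, cr_smul_right, h, ← cr_anti]; positivity
    · rw [cr_smul_left, cr_smul_right, h, ← cr_anti]; positivity
    · rw [cr_smul_left, cr_smul_right, h, ← cr_anti]; positivity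
    · rw [image_Hex, Hex_rev]
    · intro v
      rw [NH_eq, NH_eq, num_rev, num_image g (-1) (by simp) (by intro a b; rw [h]; ring) lam hlam]
      simp only [cr_smul_left, cr_smul_right, h]
      have hA : cr g1 g2 + cr g1 g3 + cr g2 g3 ≠ 0 := by positivity
      have e : lam * (lam * -cr g3 g2) + lam * (lam * -cr g3 g1) + lam * (lam * -cr g2 g1) =
          lam ^ 2 * (cr g1 g2 + cr g1 g3 + cr g2 g3) := by
        rw [cr_anti g3 g2, cr_anti g3 g1, cr_anti g2 g1]; ring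
      rw [e]
      field_simp
    · rw [hn, hn, hn]; ring

theorem abs_cr_le (a b : E) : |cr a b| ≤ ‖a‖ * ‖b‖ := by
  apply abs_le_of_sq_le_sq _ (by positivity)
  rw [cr_sq, mul_pow]
  have := sq_nonneg ⟪a, b⟫
  linarith

theorem cr_identity (m a b : E) : ⟪m, a⟫ * cr m b - cr m a * ⟪m, b⟫ = cr a b * ‖m‖ ^ 2 := by
  rw [EuclideanSpace.norm_sq_eq, PiLp.inner_apply, PiLp.inner_apply]
  simp only [Fin.sum_univ_two, Real.norm_eq_abs, sq_abs, cr, RCLike.inner_apply, conj_trivial]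
  ring

theorem width (m a b : E) (hm : ‖m‖ = 1) : cr a b ≤ |⟪m, a⟫| * ‖b‖ + |⟪m, b⟫| * ‖a‖ := by
  have h := cr_identity m a b
  rw [hm, one_pow, mul_one] at h
  rw [← h]
  have h1 : ⟪m, a⟫ * cr m b ≤ |⟪m, a⟫| * ‖b‖ := by
    calc ⟪m, a⟫ * cr m b ≤ |⟪m, a⟫ * cr m b| := le_abs_self _
      _ = |⟪m, a⟫| * |cr m b| := abs_mul _ _
      _ ≤ |⟪m, a⟫| * (‖m‖ * ‖b‖) := mul_le_mul_of_nonneg_left (abs_cr_le _ _) (abs_nonneg _)
      _ = |⟪m, a⟫| * ‖b‖ := by rw [hm, one_mul]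
  have h2 : -(cr m a * ⟪m, b⟫) ≤ |⟪m, b⟫| * ‖a‖ := by
    calc -(cr m a * ⟪m, b⟫) ≤ |cr m a * ⟪m, b⟫| := neg_le_abs _
      _ = |⟪m, b⟫| * |cr m a| := by rw [abs_mul, mul_comm]
      _ ≤ |⟪m, b⟫| * (‖m‖ * ‖a‖) := mul_le_mul_of_nonneg_left (abs_cr_le _ _) (abs_nonneg _)
      _ = |⟪m, b⟫| * ‖a‖ := by rw [hm, one_mul]
  linarith

/-- If every layer of sets similar to `C` has crossing length less than `ω d`, and layers of
translates of `C` have crossing length almost `ω d`, then `C` has property (S). -/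
theorem finish (C : Set E) (ω : ℝ) (hω : 0 < ω)
    (h1 : ∀ (𝒞 : Set (Set E)) (n : E) (a d : ℝ), IsLayer 𝒞 n a d → (∀ K ∈ 𝒞, IsSimilar C K) →
      crossLen 𝒞 n a d < ENNReal.ofReal (ω * d))
    (h2 : ∀ ρ : ℝ, ρ < ω → ∃ (𝒯 : Set (Set E)) (n : E) (d : ℝ), IsLayer 𝒯 n 0 d ∧
      (∀ K ∈ 𝒯, IsTranslate C K) ∧ ENNReal.ofReal (ρ * d) ≤ crossLen 𝒯 n 0 d) :
    PropertyS C := by
  intro 𝒞 n a d hL hsim
  have hlt := h1 𝒞 n a d hL hsim
  have hd := hL.pos
  have hfin : crossLen 𝒞 n a d ≠ ⊤ := (hlt.trans ENNReal.ofReal_lt_top).ne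
  set L := (crossLen 𝒞 n a d).toReal with hLdef
  have hL0 : 0 ≤ L := ENNReal.toReal_nonneg
  have hLlt : L < ω * d := by
    rw [← ENNReal.ofReal_toReal hfin] at hlt
    exact (ENNReal.ofReal_lt_ofReal_iff (by positivity)).mp hlt
  set ρ := (L / d + ω) / 2 with hρ
  have hLd : L / d < ω := by rw [div_lt_iff₀ hd]; exact hLlt
  have hLd0 : 0 ≤ L / d := by positivity
  have hρ0 : 0 < ρ := by rw [hρ]; linarith
  have hρw : ρ < ω := by rw [hρ]; linarith
  have hLρ : L ≤ ρ * d := by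
    have : L / d ≤ ρ := by rw [hρ]; linarith
    rwa [div_le_iff₀ hd] at this
  obtain ⟨𝒯, n', d', hT, hTt, hTlen⟩ := h2 ρ hρw
  refine ⟨𝒯, n', 0, d', hT, hTt, ?_⟩
  unfold permeability
  have hd' := hT.pos
  calc ENNReal.ofReal d' / crossLen 𝒯 n' 0 d'
      ≤ ENNReal.ofReal d' / ENNReal.ofReal (ρ * d') := ENNReal.div_le_div_left hTlen _
    _ = ENNReal.ofReal (1 / ρ) := by
        rw [← ENNReal.ofReal_div_of_pos (by positivity)]
        congr 1
        field_simp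
    _ = ENNReal.ofReal d / ENNReal.ofReal (ρ * d) := by
        rw [← ENNReal.ofReal_div_of_pos (by positivity)]
        congr 1
        field_simp
    _ ≤ ENNReal.ofReal d / crossLen 𝒞 n a d := by
        apply ENNReal.div_le_div_left
        rw [← ENNReal.ofReal_toReal hfin]
        exact ENNReal.ofReal_le_ofReal hLρ

theorem S_to_H {C : Set E} (h : PropertyS C) : PropertyH C := by
  intro 𝒞 n a d hL hhom
  apply h 𝒞 n a d hL
  intro K hK
  obtain ⟨lam, z, hlam, hKeq⟩ := hhom K hK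
  exact ⟨lam, LinearIsometryEquiv.refl ℝ E, z, hlam, by simpa using hKeq⟩

theorem hfinal (hAvg : Stmt_Avg) (hDet : Stmt_HDet) (hNorm : Stmt_HNorm) (hTile : Stmt_HTile)
    (z g1 g2 g3 : E) (hpos : Pos3 g1 g2 g3)
    (hmax : ∀ v, ‖v‖ = ‖g1 + g2 + g3‖ → NH g1 g2 g3 v ≤ NH g1 g2 g3 (g1 + g2 + g3)) :
    PropertyS (Hex z g1 g2 g3) := by
  obtain ⟨w, hw12, hw23, hw1, hN⟩ := hNorm g1 g2 g3 hpos hmax
  have hcr := hpos.p12
  apply finish _ ‖w‖ (by linarith)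
  · intro 𝒞 n a d hL hsim
    obtain ⟨u, hun, hcun⟩ := exists_ON n hL.unit
    have hdet : ∀ K ∈ 𝒞, ∃ (xc h : ℝ) (lo up r : ℝ → ℝ), Detour u n ‖w‖ K xc h lo up r ∧
        h ≤ (‖g1‖ + ‖g2‖) * d / cr g1 g2 * (‖g1‖ + ‖g2‖ + ‖g3‖) / 2 := by
      intro K hK
      obtain ⟨lam, g, z', hlam, hKeq⟩ := hsim K hK
      obtain ⟨z2, k1, k2, k3, hk, hKk, hNk, hlen⟩ := similar_Hex hpos z lam hlam g z'
      set m := g.symm n with hm
      have hgm : g m = n := by rw [hm]; simp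
      have hm1 : ‖m‖ = 1 := by rw [hm, LinearIsometryEquiv.norm_map, hL.unit]
      have hle : NH k1 k2 k3 n ≤ ‖w‖ := by
        rw [← hgm, hNk]
        have := hN m
        rwa [hm1, mul_one] at this
      obtain ⟨xc, h, lo, up, r, hD, hh⟩ := hDet u n z2 k1 k2 k3 ‖w‖ hun hcun hk hle
      refine ⟨xc, h, lo, up, r, by rw [hKeq, hKk]; exact hD, hh.trans ?_⟩
      rw [hlen]
      -- bound for lam
      have hlamle : lam ≤ (‖g1‖ + ‖g2‖) * d / cr g1 g2 := by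
        have hmem : ∀ s t : ℝ, |s| ≤ 1 / 2 → |t| ≤ 1 / 2 →
            a ≤ ⟪n, lam • g (z + s • g1 + t • g2 + (0 : ℝ) • g3) + z'⟫ ∧
            ⟪n, lam • g (z + s • g1 + t • g2 + (0 : ℝ) • g3) + z'⟫ ≤ a + d := by
          intro s t hs ht
          apply hL.strip K hK
          rw [hKeq]
          exact ⟨_, ⟨s, t, 0, hs, ht, by norm_num, rfl⟩, rfl⟩
        have hval : ∀ s t : ℝ, ⟪n, lam • g (z + s • g1 + t • g2 + (0 : ℝ) • g3) + z'⟫ =
            lam * ⟪m, z⟫ + s * (lam * ⟪m, g1⟫) + t * (lam * ⟪m, g2⟫) + ⟪n, z'⟫ := by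
          intro s t
          have hg : ∀ x : E, ⟪n, g x⟫ = ⟪m, x⟫ := by
            intro x
            rw [← hgm, g.inner_map_map]
          rw [inner_add_right, real_inner_smul_right, hg]
          simp only [inner_add_right, real_inner_smul_right]
          ring
        have hpos' := hL.pos
        have e1 : lam * |⟪m, g1⟫| ≤ d := by
          have a1 := hmem (1 / 2) 0 (by norm_num) (by norm_num)
          have a2 := hmem (-1 / 2) 0 (by norm_num) (by norm_num)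
          rw [hval] at a1 a2
          have : lam * |⟪m, g1⟫| = |lam * ⟪m, g1⟫| := by rw [abs_mul, abs_of_pos hlam]
          rw [this, abs_le]
          constructor <;> linarith [a1.1, a1.2, a2.1, a2.2]
        have e2 : lam * |⟪m, g2⟫| ≤ d := by
          have a1 := hmem 0 (1 / 2) (by norm_num) (by norm_num)
          have a2 := hmem 0 (-1 / 2) (by norm_num) (by norm_num)
          rw [hval] at a1 a2
          have : lam * |⟪m, g2⟫| = |lam * ⟪m, g2⟫| := by rw [abs_mul, abs_of_pos hlam]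
          rw [this, abs_le]
          constructor <;> linarith [a1.1, a1.2, a2.1, a2.2]
        rw [le_div_iff₀ hcr]
        calc lam * cr g1 g2 ≤ lam * (|⟪m, g1⟫| * ‖g2‖ + |⟪m, g2⟫| * ‖g1‖) :=
              mul_le_mul_of_nonneg_left (width m g1 g2 hm1) hlam.le
          _ = (lam * |⟪m, g1⟫|) * ‖g2‖ + (lam * |⟪m, g2⟫|) * ‖g1‖ := by ring
          _ ≤ d * ‖g2‖ + d * ‖g1‖ := by gcongr
          _ = (‖g1‖ + ‖g2‖) * d := by ring
      have : 0 ≤ ‖g1‖ + ‖g2‖ + ‖g3‖ := by positivity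
      gcongr
    exact hAvg 𝒞 u n a d ‖w‖ _ hun hL hw1 hdet
  · intro ρ hρ
    have hw0 : w ≠ 0 := by
      intro h
      rw [h, norm_zero] at hw1
      linarith
    obtain ⟨𝒯, n', d', hT, hTt, hTlen⟩ := hTile g1 g2 g3 w ρ hpos hw12 hw23 hw0 hρ
    exact ⟨𝒯, n', d', hT, fun K hK => translate_Hex (hTt K hK), hTlen⟩

end Pool.Agent.LFT.HFinal
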