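import Pool.Agent.LFT.Defs

/-!
# The last exit argument

A continuous curve whose parameter interval is covered by finitely many closed sets of times, such
that the increments of `f` between two times of the same set are bounded by the distance of the
points of the curve, is at least as long as the total increment of `f`.
-/

namespace Pool.Agent.LFT

open MeasureTheory Set
open scoped RealInnerProductSpace ENNReal

namespace LastExit

theorem last_exit {ι : Type*} [DecidableEq ι] (s : Finset ι) (T : ι → Set ℝ) (f : ℝ → ℝ)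
    (γ : ℝ → E) (a b : ℝ) (hab : a ≤ b) (hcl : ∀ i ∈ s, IsClosed (T i))
    (hcov : Icc a b ⊆ ⋃ i ∈ s, T i)
    (hlip : ∀ i ∈ s, ∀ x ∈ Icc a b, ∀ y ∈ Icc a b, x ∈ T i → y ∈ T i →
      f y - f x ≤ dist (γ x) (γ y)) :
    ENNReal.ofReal (f b - f a) ≤ eVariationOn γ (Icc a b) := by
  induction hk : s.card generalizing s a with
  | zero =>
    have hs : s = ∅ := Finset.card_eq_zero.mp hk
    subst hs
    have := hcov (left_mem_Icc.mpr hab)
    simp at this
  | succ k ih =>
    obtain ⟨i, hi, hai⟩ : ∃ i ∈ s, a ∈ T i := by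
      have := hcov (left_mem_Icc.mpr hab)
      simpa using this
    have hcomp : IsCompact (T i ∩ Icc a b) := (isCompact_Icc.inter_left (hcl i hi))
    have hne : (T i ∩ Icc a b).Nonempty := ⟨a, hai, left_mem_Icc.mpr hab⟩
    obtain ⟨c, ⟨hci, hcI⟩, hcmax⟩ := hcomp.exists_isGreatest hne
    have h1 : ENNReal.ofReal (f c - f a) ≤ eVariationOn γ (Icc a c) := by
      have := hlip i hi a (left_mem_Icc.mpr hab) c hcI hai hci
      calc ENNReal.ofReal (f c - f a) ≤ ENNReal.ofReal (dist (γ a) (γ c)) :=
            ENNReal.ofReal_le_ofReal this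
        _ = edist (γ a) (γ c) := (edist_dist _ _).symm
        _ ≤ eVariationOn γ (Icc a c) :=
            eVariationOn.edist_le γ (left_mem_Icc.mpr hcI.1) (right_mem_Icc.mpr hcI.1)
    rcases eq_or_lt_of_le hcI.2 with hcb | hcb
    · rwa [hcb] at h1
    · have hclU : IsClosed (⋃ j ∈ s.erase i, T j) :=
        Set.Finite.isClosed_biUnion (Finset.finite_toSet (s.erase i)) (fun j hj => hcl j
          (Finset.mem_of_mem_erase hj))
      have hcov' : Icc c b ⊆ ⋃ j ∈ s.erase i, T j := by
        rw [← closure_Ioc hcb.ne]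
        apply closure_minimal _ hclU
        intro t ht
        have h2 := hcov ⟨hcI.1.trans ht.1.le, ht.2⟩
        simp only [mem_iUnion, exists_prop] at h2
        obtain ⟨j, hj, htj⟩ := h2
        simp only [mem_iUnion, exists_prop]
        refine ⟨j, Finset.mem_erase.mpr ⟨?_, hj⟩, htj⟩
        rintro rfl
        have := hcmax ⟨htj, hcI.1.trans ht.1.le, ht.2⟩
        linarith [ht.1]
      have h3 := ih (s.erase i) c hcI.2 (fun j hj => hcl j (Finset.mem_of_mem_erase hj)) hcov'
        (fun j hj x hx y hy => hlip j (Finset.mem_of_mem_erase hj) x ⟨hcI.1.trans hx.1, hx.2⟩ y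
          ⟨hcI.1.trans hy.1, hy.2⟩) (by rw [Finset.card_erase_of_mem hi]; omega)
      have hadd := eVariationOn.Icc_add_Icc γ (s := univ) (a := a) (b := c) (c := b)
        hcI.1 hcI.2 (mem_univ _)
      simp only [univ_inter] at hadd
      rw [← hadd]
      calc ENNReal.ofReal (f b - f a) = ENNReal.ofReal ((f c - f a) + (f b - f c)) := by
            congr 1; ring
        _ ≤ ENNReal.ofReal (f c - f a) + ENNReal.ofReal (f b - f c) := ENNReal.ofReal_add_le
        _ ≤ _ := add_le_add h1 h3

/-- Version for a function on the plane: the curve is covered by finitely many closed sets of the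
plane, on each of which `F` is 1-Lipschitz. -/
theorem last_exit' {ι : Type*} [DecidableEq ι] (s : Finset ι) (S : ι → Set E) (F : E → ℝ)
    (γ : ℝ → E) (a b : ℝ) (hab : a ≤ b) (hγ : ContinuousOn γ (Icc a b))
    (hcl : ∀ i ∈ s, IsClosed (S i))
    (hcov : ∀ t ∈ Icc a b, ∃ i ∈ s, γ t ∈ S i)
    (hlip : ∀ i ∈ s, ∀ p ∈ S i, ∀ q ∈ S i, F q - F p ≤ dist p q) :
    ENNReal.ofReal (F (γ b) - F (γ a)) ≤ eVariationOn γ (Icc a b) := by
  apply last_exit s (fun i => Icc a b ∩ γ ⁻¹' (S i)) (fun t => F (γ t)) γ a b hab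
  · intro i hi
    exact hγ.preimage_isClosed_of_isClosed isClosed_Icc (hcl i hi)
  · intro t ht
    obtain ⟨i, hi, h⟩ := hcov t ht
    simp only [mem_iUnion, exists_prop]
    exact ⟨i, hi, ht, h⟩
  · intro i hi x _ y _ hx' hy'
    exact hlip i hi _ hx'.2 _ hy'.2

end LastExit

end Pool.Agent.LFT
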