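import Pool.Agent.LFT.HBasic
import Pool.Agent.LFT.LastExit

/-!
# HGRAPH: the honeycomb potential
-/

namespace Pool.Agent.LFT

open MeasureTheory Set
open scoped RealInnerProductSpace ENNReal

namespace HGraph

open HBasic

/-- Region analysis in the cell. -/
theorem tripod (l m x y : ℝ) (hl : 0 < l) (hm : 0 < m) (hlm : l + m < 1)
    (h1 : ¬ (x * m < y * l ∧ x * (1 - m) + y * l < l))
    (h2 : ¬ (y * l < x * m ∧ x * m + y * (1 - l) < m))
    (h3 : ¬ (m < x * m + y * (1 - l) ∧ l < x * (1 - m) + y * l)) :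
    (y * l = x * m ∧ x ≤ l) ∨ (x * m + y * (1 - l) = m ∧ l ≤ x) ∨
      (x * (1 - m) + y * l = l ∧ m ≤ y) := by
  have key : (1 - l - m) * (y * l - x * m) =
      l * (x * m + y * (1 - l) - m) - m * (x * (1 - m) + y * l - l) := by ring
  have hn : 0 < 1 - l - m := by linarith
  rcases lt_trichotomy (y * l - x * m) 0 with hP | hP | hP
  · -- P < 0
    have hQ1 : 0 ≤ x * m + y * (1 - l) - m := by
      by_contra hc
      exact h2 ⟨by linarith, by linarith⟩
    have hQ2 : 0 < x * (1 - m) + y * l - l := by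
      have e1 : (1 - l - m) * (y * l - x * m) < 0 := mul_neg_of_pos_of_neg hn hP
      have e2 : 0 ≤ l * (x * m + y * (1 - l) - m) := mul_nonneg hl.le hQ1
      have e3 : 0 < m * (x * (1 - m) + y * l - l) := by linarith
      exact (mul_pos_iff_of_pos_left hm).mp e3
    have hQ1' : x * m + y * (1 - l) - m ≤ 0 := by
      by_contra hc
      exact h3 ⟨by linarith, by linarith⟩
    right; left
    exact ⟨by linarith, by nlinarith⟩
  · have e1 : l * (x * m + y * (1 - l) - m) = m * (x * (1 - m) + y * l - l) := by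
      rw [hP, mul_zero] at key; linarith
    left
    refine ⟨by linarith, ?_⟩
    have hQ2 : x * (1 - m) + y * l - l ≤ 0 := by
      by_contra hc
      push Not at hc
      have e3 : 0 < l * (x * m + y * (1 - l) - m) := by rw [e1]; positivity
      have e4 : 0 < x * m + y * (1 - l) - m := (mul_pos_iff_of_pos_left hl).mp e3
      exact h3 ⟨by linarith, by linarith⟩
    nlinarith
  · have hQ2 : 0 ≤ x * (1 - m) + y * l - l := by
      by_contra hc
      exact h1 ⟨by linarith, by linarith⟩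
    have hQ1 : 0 < x * m + y * (1 - l) - m := by
      have e1 : 0 < (1 - l - m) * (y * l - x * m) := mul_pos hn hP
      have e2 : 0 ≤ m * (x * (1 - m) + y * l - l) := mul_nonneg hm.le hQ2
      have e3 : 0 < l * (x * m + y * (1 - l) - m) := by linarith
      exact (mul_pos_iff_of_pos_left hl).mp e3
    have hQ2' : x * (1 - m) + y * l - l ≤ 0 := by
      by_contra hc
      exact h3 ⟨by linarith, by linarith⟩
    right; right
    exact ⟨by linarith, by nlinarith⟩

/-- The area of the hexagon. -/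
def ar (g1 g2 g3 : E) : ℝ := cr g1 g2 + cr g1 g3 + cr g2 g3

theorem ar_pos {g1 g2 g3 : E} (h : Pos3 g1 g2 g3) : 0 < ar g1 g2 g3 := by
  have := h.p12; have := h.p23; have := h.p13
  unfold ar; linarith

theorem cr_ab (g1 g2 g3 : E) : cr (g1 + g2) (g2 + g3) = ar g1 g2 g3 := by
  simp only [cr_add_right, cr_add_left, cr_self, ar]; ring

/-- Data: `l = D23 / A`, `m = D12 / A`. -/
structure LM (g1 g2 g3 : E) (l m : ℝ) : Prop where
  hl : cr g2 g3 = l * ar g1 g2 g3
  hm : cr g1 g2 = m * ar g1 g2 g3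
  h13 : cr g1 g3 = (1 - l - m) * ar g1 g2 g3
  l0 : 0 < l
  m0 : 0 < m
  lm : l + m < 1

theorem exists_LM {g1 g2 g3 : E} (h : Pos3 g1 g2 g3) : ∃ l m, LM g1 g2 g3 l m := by
  have hA := ar_pos h
  refine ⟨cr g2 g3 / ar g1 g2 g3, cr g1 g2 / ar g1 g2 g3, ?_, ?_, ?_, ?_, ?_, ?_⟩
  · field_simp
  · field_simp
  · field_simp
    unfold ar; ring
  · exact div_pos h.p23 hA
  · exact div_pos h.p12 hA
  · rw [← add_div, div_lt_one hA]
    have := h.p13
    unfold ar; linarith

theorem vec2 {g1 g2 g3 : E} {l m : ℝ} (hA : 0 < ar g1 g2 g3) (h : LM g1 g2 g3 l m) :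
    l • g1 - (1 - l - m) • g2 + m • g3 = 0 := by
  have hp := pluecker g1 g2 g3
  rw [h.hl, h.hm, h.h13] at hp
  have : ar g1 g2 g3 • (l • g1 - (1 - l - m) • g2 + m • g3) = 0 := by
    rw [← hp]; module
  rcases smul_eq_zero.mp this with h' | h'
  · exact absurd h' hA.ne'
  · exact h'

/-- Interior points of tiles. -/
theorem mem_int (hIneq : Stmt_HIneq) {g1 g2 g3 : E} (hpos : Pos3 g1 g2 g3) {l m : ℝ}
    (h : LM g1 g2 g3 l m) (p c : E) (x y : ℝ) (hp : p - c = x • (g1 + g2) + y • (g2 + g3))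
    (c1 : |x * m + y * (1 - l)| < (1 - l) / 2) (c2 : |-x * m + y * l| < (l + m) / 2)
    (c3 : |x * (1 - m) + y * l| < (1 - m) / 2) : p ∈ interior (Hex c g1 g2 g3) := by
  have hA := ar_pos hpos
  rw [(hIneq c g1 g2 g3 hpos).2 p, hp]
  simp only [cr_add_right, cr_smul_right, cr_self]
  rw [cr_anti g2 g1, cr_anti g3 g1, cr_anti g3 g2, h.hl, h.hm, h.h13]
  set A := ar g1 g2 g3
  refine ⟨?_, ?_, ?_⟩
  · have e : x * (0 + m * A) + y * (m * A + (1 - l - m) * A) = (x * m + y * (1 - l)) * A := by ring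
    rw [e, abs_mul, abs_of_pos hA]
    have := mul_lt_mul_of_pos_right c1 hA
    linarith
  · have e : x * (-(m * A) + 0) + y * (0 + l * A) = (-x * m + y * l) * A := by ring
    rw [e, abs_mul, abs_of_pos hA]
    have := mul_lt_mul_of_pos_right c2 hA
    linarith
  · have e : x * (-((1 - l - m) * A) + -(l * A)) + y * (-(l * A) + 0) =
      -((x * (1 - m) + y * l) * A) := by ring
    rw [e, abs_neg, abs_mul, abs_of_pos hA]
    have := mul_lt_mul_of_pos_right c3 hA
    linarith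

/-- First shifted coordinate. -/
noncomputable def cX (g1 g2 g3 : E) (l : ℝ) (p : E) : ℝ :=
  cr p (g2 + g3) / ar g1 g2 g3 + (1 + l) / 2

/-- Second shifted coordinate. -/
noncomputable def cY (g1 g2 g3 : E) (m : ℝ) (p : E) : ℝ :=
  cr (g1 + g2) p / ar g1 g2 g3 + (1 + m) / 2

/-- The bottom vertex of the tile `(i, j)`. -/
noncomputable def vA (g1 g2 g3 : E) (i j : ℤ) : E :=
  (i : ℝ) • (g1 + g2) + (j : ℝ) • (g2 + g3) - (1 / 2 : ℝ) • (g1 + g2 + g3)

theorem vA_eq {g1 g2 g3 : E} {l m : ℝ} (hA : 0 < ar g1 g2 g3) (h : LM g1 g2 g3 l m) (i j : ℤ) :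
    vA g1 g2 g3 i j = ((i : ℝ) - (1 - l) / 2) • (g1 + g2) + ((j : ℝ) - (1 - m) / 2) • (g2 + g3) := by
  have hv := vec2 hA h
  have : vA g1 g2 g3 i j - (((i : ℝ) - (1 - l) / 2) • (g1 + g2) +
      ((j : ℝ) - (1 - m) / 2) • (g2 + g3)) =
      (-(1 / 2) : ℝ) • (l • g1 - (1 - l - m) • g2 + m • g3) := by
    unfold vA; module
  rw [hv, smul_zero, sub_eq_zero] at this
  exact this

theorem cX_comb {g1 g2 g3 : E} {l : ℝ} (hA : 0 < ar g1 g2 g3) (x y : ℝ) :
    cX g1 g2 g3 l (x • (g1 + g2) + y • (g2 + g3)) = x + (1 + l) / 2 := by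
  unfold cX
  rw [cr_add_left, cr_smul_left, cr_smul_left, cr_self, cr_ab]
  field_simp
  ring

theorem cY_comb {g1 g2 g3 : E} {m : ℝ} (hA : 0 < ar g1 g2 g3) (x y : ℝ) :
    cY g1 g2 g3 m (x • (g1 + g2) + y • (g2 + g3)) = y + (1 + m) / 2 := by
  unfold cY
  rw [cr_add_right, cr_smul_right, cr_smul_right, cr_self, cr_ab]
  field_simp
  ring

theorem decomp {g1 g2 g3 : E} {l m : ℝ} (hA : 0 < ar g1 g2 g3) (h : LM g1 g2 g3 l m)
    (p : E) (i j : ℤ) :
    p = vA g1 g2 g3 i j + (cX g1 g2 g3 l p - i - l) • (g1 + g2) +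
      (cY g1 g2 g3 m p - j - m) • (g2 + g3) := by
  have he := expand (g1 + g2) (g2 + g3) p (by rw [cr_ab]; exact hA.ne')
  rw [cr_ab] at he
  have : vA g1 g2 g3 i j + (cX g1 g2 g3 l p - i - l) • (g1 + g2) +
      (cY g1 g2 g3 m p - j - m) • (g2 + g3) =
      (cr p (g2 + g3) / ar g1 g2 g3) • (g1 + g2) + (cr (g1 + g2) p / ar g1 g2 g3) • (g2 + g3) := by
    rw [vA_eq hA h]
    unfold cX cY
    module
  rw [this]
  exact he

/-- The periodic part of the potential. -/
noncomputable def per (g1 g2 g3 : E) (l m : ℝ) (p : E) : ℝ :=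
  1 - min (Int.fract (cX g1 g2 g3 l p) / l) (Int.fract (cY g1 g2 g3 m p) / m)

theorem fract_int_add (i : ℤ) (x : ℝ) (h0 : 0 ≤ x) (h1 : x < 1) : Int.fract ((i : ℝ) + x) = x := by
  rw [Int.fract_intCast_add]
  exact Int.fract_eq_self.mpr ⟨h0, h1⟩

theorem per_comb {g1 g2 g3 : E} {l m : ℝ} (hA : 0 < ar g1 g2 g3) (h : LM g1 g2 g3 l m)
    (i j : ℤ) (x y : ℝ) :
    per g1 g2 g3 l m (vA g1 g2 g3 i j + x • (g1 + g2) + y • (g2 + g3)) =
      1 - min (Int.fract ((i : ℝ) + (l + x)) / l) (Int.fract ((j : ℝ) + (m + y)) / m) := by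
  have e : vA g1 g2 g3 i j + x • (g1 + g2) + y • (g2 + g3) =
      ((i : ℝ) - (1 - l) / 2 + x) • (g1 + g2) + ((j : ℝ) - (1 - m) / 2 + y) • (g2 + g3) := by
    rw [vA_eq hA h]; module
  unfold per
  rw [e, cX_comb hA, cY_comb hA]
  congr 4
  · ring
  · ring

theorem per0 {g1 g2 g3 : E} {l m : ℝ} (hA : 0 < ar g1 g2 g3) (h : LM g1 g2 g3 l m)
    (i j : ℤ) (t : ℝ) (h0 : 0 ≤ t) (h1 : t ≤ 1) :
    per g1 g2 g3 l m (vA g1 g2 g3 i j + t • (-g2)) = t := by
  have hv := vec2 hA h
  have hl := h.l0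
  have hm := h.m0
  have hlm := h.lm
  have e : vA g1 g2 g3 i j + t • (-g2) =
      vA g1 g2 g3 i j + (-t * l) • (g1 + g2) + (-t * m) • (g2 + g3) := by
    rw [← sub_eq_zero]
    have : vA g1 g2 g3 i j + t • (-g2) -
        (vA g1 g2 g3 i j + (-t * l) • (g1 + g2) + (-t * m) • (g2 + g3)) =
        t • (l • g1 - (1 - l - m) • g2 + m • g3) := by module
    rw [this, hv, smul_zero]
  rw [e, per_comb hA h, fract_int_add, fract_int_add]
  · have e1 : (l + -t * l) / l = 1 - t := by field_simp; ring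
    have e2 : (m + -t * m) / m = 1 - t := by field_simp; ring
    rw [e1, e2, min_self]; ring
  · nlinarith
  · nlinarith
  · nlinarith
  · nlinarith

theorem per1 {g1 g2 g3 : E} {l m : ℝ} (hA : 0 < ar g1 g2 g3) (h : LM g1 g2 g3 l m)
    (i j : ℤ) (t : ℝ) (h0 : 0 ≤ t) (h1 : t ≤ 1) :
    per g1 g2 g3 l m (vA g1 g2 g3 i j + t • g1) = t := by
  have hv := vec2 hA h
  have hl := h.l0
  have hm := h.m0
  have hlm := h.lm
  have e : vA g1 g2 g3 i j + t • g1 =
      vA g1 g2 g3 i j + (t * (1 - l)) • (g1 + g2) + (-t * m) • (g2 + g3) := by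
    rw [← sub_eq_zero]
    have : vA g1 g2 g3 i j + t • g1 -
        (vA g1 g2 g3 i j + (t * (1 - l)) • (g1 + g2) + (-t * m) • (g2 + g3)) =
        t • (l • g1 - (1 - l - m) • g2 + m • g3) := by module
    rw [this, hv, smul_zero]
  rw [e, per_comb hA h]
  rcases eq_or_lt_of_le h1 with ht | ht
  · subst ht
    have e1 : Int.fract ((i : ℝ) + (l + 1 * (1 - l))) = 0 := by
      have : (i : ℝ) + (l + 1 * (1 - l)) = ((i + 1 : ℤ) : ℝ) := by push_cast; ring
      rw [this, Int.fract_intCast]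
    have e2 : Int.fract ((j : ℝ) + (m + -1 * m)) = 0 := by
      have : (j : ℝ) + (m + -1 * m) = ((j : ℤ) : ℝ) := by ring
      rw [this, Int.fract_intCast]
    rw [e1, e2]; simp
  · rw [fract_int_add _ _ (by nlinarith) (by nlinarith), fract_int_add _ _ (by nlinarith)
      (by nlinarith)]
    have e2 : (m + -t * m) / m = 1 - t := by field_simp; ring
    have e1 : 1 - t ≤ (l + t * (1 - l)) / l := by
      rw [le_div_iff₀ hl]; nlinarith
    rw [e2, min_eq_right e1]; ring

theorem per2 {g1 g2 g3 : E} {l m : ℝ} (hA : 0 < ar g1 g2 g3) (h : LM g1 g2 g3 l m)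
    (i j : ℤ) (t : ℝ) (h0 : 0 ≤ t) (h1 : t ≤ 1) :
    per g1 g2 g3 l m (vA g1 g2 g3 i j + t • g3) = t := by
  have hv := vec2 hA h
  have hl := h.l0
  have hm := h.m0
  have hlm := h.lm
  have e : vA g1 g2 g3 i j + t • g3 =
      vA g1 g2 g3 i j + (-t * l) • (g1 + g2) + (t * (1 - m)) • (g2 + g3) := by
    rw [← sub_eq_zero]
    have : vA g1 g2 g3 i j + t • g3 -
        (vA g1 g2 g3 i j + (-t * l) • (g1 + g2) + (t * (1 - m)) • (g2 + g3)) =
        t • (l • g1 - (1 - l - m) • g2 + m • g3) := by module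
    rw [this, hv, smul_zero]
  rw [e, per_comb hA h]
  rcases eq_or_lt_of_le h1 with ht | ht
  · subst ht
    have e1 : Int.fract ((i : ℝ) + (l + -1 * l)) = 0 := by
      have : (i : ℝ) + (l + -1 * l) = ((i : ℤ) : ℝ) := by ring
      rw [this, Int.fract_intCast]
    have e2 : Int.fract ((j : ℝ) + (m + 1 * (1 - m))) = 0 := by
      have : (j : ℝ) + (m + 1 * (1 - m)) = ((j + 1 : ℤ) : ℝ) := by push_cast; ring
      rw [this, Int.fract_intCast]
    rw [e1, e2]; simp
  · rw [fract_int_add _ _ (by nlinarith) (by nlinarith), fract_int_add _ _ (by nlinarith)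
      (by nlinarith)]
    have e2 : (l + -t * l) / l = 1 - t := by field_simp; ring
    have e1 : 1 - t ≤ (m + t * (1 - m)) / m := by
      rw [le_div_iff₀ hm]; nlinarith
    rw [e2, min_eq_left e1]; ring

/-- The potential. -/
noncomputable def pot (g1 g2 g3 w : E) (l m : ℝ) (p : E) : ℝ :=
  ⟪w, p⟫ - (⟪w, g1⟫ - ‖g1‖) * per g1 g2 g3 l m p

/-- Directions of the three edges at an A-vertex. -/
def dir (g1 g2 g3 : E) : Fin 3 → E := ![-g2, g1, g3]

/-- The edges of the honeycomb. -/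
def edge (g1 g2 g3 : E) (q : ℤ × ℤ × Fin 3) : Set E :=
  (fun t : ℝ => vA g1 g2 g3 q.1 q.2.1 + t • dir g1 g2 g3 q.2.2) '' Icc 0 1

theorem edge_closed (g1 g2 g3 : E) (q : ℤ × ℤ × Fin 3) : IsClosed (edge g1 g2 g3 q) := by
  apply IsCompact.isClosed
  apply isCompact_Icc.image
  fun_prop

theorem pot_edge {g1 g2 g3 w : E} {l m : ℝ} (hA : 0 < ar g1 g2 g3) (h : LM g1 g2 g3 l m)
    (hw1 : ⟪w, g1 + g2⟫ = ‖g1‖ + ‖g2‖) (hw2 : ⟪w, g2 + g3⟫ = ‖g2‖ + ‖g3‖) (q : ℤ × ℤ × Fin 3) :
    ∃ c : ℝ, |c| = ‖dir g1 g2 g3 q.2.2‖ ∧ ∀ t ∈ Icc (0 : ℝ) 1,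
      pot g1 g2 g3 w l m (vA g1 g2 g3 q.1 q.2.1 + t • dir g1 g2 g3 q.2.2) =
        ⟪w, vA g1 g2 g3 q.1 q.2.1⟫ + t * c := by
  rw [inner_add_right] at hw1 hw2
  obtain ⟨i, j, k⟩ := q
  fin_cases k
  · refine ⟨-‖g2‖, ?_, ?_⟩
    · simp [dir]
    · intro t ht
      simp only [dir, Fin.zero_eta, Matrix.cons_val_zero]
      unfold pot
      rw [per0 hA h i j t ht.1 ht.2, inner_add_right, real_inner_smul_right, inner_neg_right]
      linear_combination (-t) * hw1
  · refine ⟨‖g1‖, ?_, ?_⟩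
    · simp [dir]
    · intro t ht
      simp only [dir, Fin.mk_one, Matrix.cons_val_one, Matrix.cons_val_zero]
      unfold pot
      rw [per1 hA h i j t ht.1 ht.2, inner_add_right, real_inner_smul_right]
      ring
  · refine ⟨‖g3‖, ?_, ?_⟩
    · simp [dir]
    · intro t ht
      simp only [dir, Fin.reduceFinMk, Matrix.cons_val]
      unfold pot
      rw [per2 hA h i j t ht.1 ht.2, inner_add_right, real_inner_smul_right]
      linear_combination (-t) * hw1 + t * hw2

theorem pot_lip {g1 g2 g3 w : E} {l m : ℝ} (hA : 0 < ar g1 g2 g3) (h : LM g1 g2 g3 l m)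
    (hw1 : ⟪w, g1 + g2⟫ = ‖g1‖ + ‖g2‖) (hw2 : ⟪w, g2 + g3⟫ = ‖g2‖ + ‖g3‖) (q : ℤ × ℤ × Fin 3)
    (p p' : E) (hp : p ∈ edge g1 g2 g3 q) (hp' : p' ∈ edge g1 g2 g3 q) :
    pot g1 g2 g3 w l m p' - pot g1 g2 g3 w l m p ≤ dist p p' := by
  obtain ⟨c, hc, hpot⟩ := pot_edge hA h hw1 hw2 q
  obtain ⟨t, ht, rfl⟩ := hp
  obtain ⟨t', ht', rfl⟩ := hp'
  simp only
  rw [hpot t ht, hpot t' ht', dist_eq_norm]
  have : vA g1 g2 g3 q.1 q.2.1 + t • dir g1 g2 g3 q.2.2 -
      (vA g1 g2 g3 q.1 q.2.1 + t' • dir g1 g2 g3 q.2.2) = (t - t') • dir g1 g2 g3 q.2.2 := by module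
  rw [this, norm_smul, ← hc, Real.norm_eq_abs, ← abs_mul]
  calc _ = -((t - t') * c) := by ring
    _ ≤ |(t - t') * c| := neg_le_abs _

theorem per_bound {g1 g2 g3 : E} {l m : ℝ} (h : LM g1 g2 g3 l m) (p : E) :
    |per g1 g2 g3 l m p| ≤ 1 + 1 / l := by
  have hl := h.l0
  have hm := h.m0
  unfold per
  have h1 : 0 ≤ Int.fract (cX g1 g2 g3 l p) / l := div_nonneg (Int.fract_nonneg _) hl.le
  have h2 : 0 ≤ Int.fract (cY g1 g2 g3 m p) / m := div_nonneg (Int.fract_nonneg _) hm.le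
  have h3 : Int.fract (cX g1 g2 g3 l p) / l ≤ 1 / l :=
    div_le_div_of_nonneg_right (Int.fract_lt_one _).le hl.le
  have h4 := le_min h1 h2
  have h5 := (min_le_left (Int.fract (cX g1 g2 g3 l p) / l)
    (Int.fract (cY g1 g2 g3 m p) / m)).trans h3
  have h6 : 0 < 1 / l := by positivity
  rw [abs_le]
  constructor <;> linarith

/-- A point outside the interiors of all tiles lies on an edge. -/
theorem on_edge (hIneq : Stmt_HIneq) {g1 g2 g3 : E} (hpos : Pos3 g1 g2 g3) {l m : ℝ}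
    (h : LM g1 g2 g3 l m) (p : E)
    (hp : ∀ i j : ℤ, p ∉ interior (Hex ((i : ℝ) • (g1 + g2) + (j : ℝ) • (g2 + g3)) g1 g2 g3)) :
    ∃ k : Fin 3, p ∈ edge g1 g2 g3 (⌊cX g1 g2 g3 l p⌋, ⌊cY g1 g2 g3 m p⌋, k) := by
  have hA := ar_pos hpos
  have hl := h.l0
  have hm := h.m0
  have hlm := h.lm
  have hv := vec2 hA h
  set i := ⌊cX g1 g2 g3 l p⌋ with hi
  set j := ⌊cY g1 g2 g3 m p⌋ with hj
  set x := cX g1 g2 g3 l p - i with hx
  set y := cY g1 g2 g3 m p - j with hy
  have x0 : 0 ≤ x := by rw [hx]; linarith [Int.floor_le (cX g1 g2 g3 l p)]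
  have x1 : x < 1 := by rw [hx]; linarith [Int.lt_floor_add_one (cX g1 g2 g3 l p)]
  have y0 : 0 ≤ y := by rw [hy]; linarith [Int.floor_le (cY g1 g2 g3 m p)]
  have y1 : y < 1 := by rw [hy]; linarith [Int.lt_floor_add_one (cY g1 g2 g3 m p)]
  have hd : p = vA g1 g2 g3 i j + (x - l) • (g1 + g2) + (y - m) • (g2 + g3) :=
    decomp hA h p i j
  have hdiff : ∀ i' j' : ℤ, p - (((i + i' : ℤ) : ℝ) • (g1 + g2) + ((j + j' : ℤ) : ℝ) • (g2 + g3)) =
      (x - (1 + l) / 2 - i') • (g1 + g2) + (y - (1 + m) / 2 - j') • (g2 + g3) := by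
    intro i' j'
    conv_lhs => rw [hd, vA_eq hA h]
    push_cast
    module
  have hml : 0 < l * m := mul_pos hl hm
  have hxm : 0 ≤ x * m := mul_nonneg x0 hm.le
  have hyl : 0 ≤ y * l := mul_nonneg y0 hl.le
  have hxm1 : x * m < m := by nlinarith
  have hyl1 : y * l < l := by nlinarith
  have h1 : ¬ (x * m < y * l ∧ x * (1 - m) + y * l < l) := by
    rintro ⟨a1, a2⟩
    apply hp (i + (-1)) (j + 0)
    have hy0 : 0 < y := by
      rcases eq_or_lt_of_le y0 with hz | hz
      · rw [← hz] at a1; linarith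
      · exact hz
    refine mem_int hIneq hpos h p _ _ _ (hdiff (-1) 0) ?_ ?_ ?_
    · rw [abs_lt]
      push_cast
      have b1 : 0 < x * m + y * (1 - l) := by
        have : 0 < y * (1 - l) := mul_pos hy0 (by linarith)
        linarith
      have b2 : x * m + y * (1 - l) < 1 - l := by
        have c1 : x * m * (1 - m) ≤ (l * m) * (1 - y) := by nlinarith
        have c2 : (l * m) * (1 - y) ≤ (1 - l) * (1 - m) * (1 - y) := by
          apply mul_le_mul_of_nonneg_right _ (by linarith)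
          nlinarith
        have c3 : x * m * (1 - m) < (1 - l) * (1 - y) * (1 - m) := by
          rcases eq_or_lt_of_le (show l * m * (1 - y) ≤ (1 - l) * (1 - m) * (1 - y) from c2) with
            c4 | c4
          · exfalso
            have : l * m = (1 - l) * (1 - m) := mul_right_cancel₀ (by linarith) c4
            nlinarith
          · linarith
        have c4 : x * m < (1 - l) * (1 - y) := lt_of_mul_lt_mul_right c3 (by linarith)
        linarith
      constructor <;> nlinarith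
    · rw [abs_lt]
      push_cast
      constructor <;> nlinarith
    · rw [abs_lt]
      push_cast
      have b3 : 0 ≤ x * (1 - m) := mul_nonneg x0 (by linarith)
      constructor <;> nlinarith
  have h2 : ¬ (y * l < x * m ∧ x * m + y * (1 - l) < m) := by
    rintro ⟨a1, a2⟩
    apply hp (i + 0) (j + (-1))
    have hx0 : 0 < x := by
      rcases eq_or_lt_of_le x0 with hz | hz
      · rw [← hz] at a1; linarith
      · exact hz
    refine mem_int hIneq hpos h p _ _ _ (hdiff 0 (-1)) ?_ ?_ ?_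
    · rw [abs_lt]
      push_cast
      have b3 : 0 ≤ y * (1 - l) := mul_nonneg y0 (by linarith)
      constructor <;> nlinarith
    · rw [abs_lt]
      push_cast
      constructor <;> nlinarith
    · rw [abs_lt]
      push_cast
      have b1 : 0 < x * (1 - m) + y * l := by
        have : 0 < x * (1 - m) := mul_pos hx0 (by linarith)
        linarith
      have b2 : x * (1 - m) + y * l < 1 - m := by
        have c1 : y * l * (1 - l) ≤ (l * m) * (1 - x) := by nlinarith
        have c2 : (l * m) * (1 - x) ≤ (1 - l) * (1 - m) * (1 - x) := by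
          apply mul_le_mul_of_nonneg_right _ (by linarith)
          nlinarith
        have c3 : y * l * (1 - l) < (1 - m) * (1 - x) * (1 - l) := by
          rcases eq_or_lt_of_le c2 with c4 | c4
          · exfalso
            have : l * m = (1 - l) * (1 - m) := mul_right_cancel₀ (by linarith) c4
            nlinarith
          · linarith
        have c4 : y * l < (1 - m) * (1 - x) := lt_of_mul_lt_mul_right c3 (by linarith)
        linarith
      constructor <;> nlinarith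
  have h3 : ¬ (m < x * m + y * (1 - l) ∧ l < x * (1 - m) + y * l) := by
    rintro ⟨a1, a2⟩
    apply hp (i + 0) (j + 0)
    have b3 : y * (1 - l) ≤ 1 - l := by nlinarith
    have b4 : x * (1 - m) ≤ 1 - m := by nlinarith
    refine mem_int hIneq hpos h p _ _ _ (hdiff 0 0) ?_ ?_ ?_
    · rw [abs_lt]
      push_cast
      constructor <;> nlinarith
    · rw [abs_lt]
      push_cast
      constructor <;> nlinarith
    · rw [abs_lt]
      push_cast
      constructor <;> nlinarith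
  rcases tripod l m x y hl hm hlm h1 h2 h3 with ⟨e1, e2⟩ | ⟨e1, e2⟩ | ⟨e1, e2⟩
  · refine ⟨0, (l - x) / l, ⟨div_nonneg (by linarith) hl.le, ?_⟩, ?_⟩
    · rw [div_le_one hl]; linarith
    · simp only [dir, Matrix.cons_val_zero]
      conv_rhs => rw [hd]
      have ey : y = m * x / l := by field_simp; linarith
      have : vA g1 g2 g3 i j + ((l - x) / l) • -g2 -
          (vA g1 g2 g3 i j + (x - l) • (g1 + g2) + (y - m) • (g2 + g3)) =
          ((l - x) / l) • (l • g1 - (1 - l - m) • g2 + m • g3) := by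
        rw [ey]
        match_scalars <;> field_simp <;> ring
      rw [← sub_eq_zero, this, hv, smul_zero]
  · refine ⟨1, (x - l) / (1 - l), ⟨div_nonneg (by linarith) (by linarith), ?_⟩, ?_⟩
    · rw [div_le_one (by linarith)]; linarith
    · simp only [dir, Matrix.cons_val_one, Matrix.cons_val_zero]
      conv_rhs => rw [hd]
      have h1l : (1 - l) ≠ 0 := by linarith
      have ey : y = (m - x * m) / (1 - l) := by field_simp; linarith
      have : vA g1 g2 g3 i j + ((x - l) / (1 - l)) • g1 -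
          (vA g1 g2 g3 i j + (x - l) • (g1 + g2) + (y - m) • (g2 + g3)) =
          ((x - l) / (1 - l)) • (l • g1 - (1 - l - m) • g2 + m • g3) := by
        rw [ey]
        match_scalars <;> field_simp <;> ring
      rw [← sub_eq_zero, this, hv, smul_zero]
  · refine ⟨2, (y - m) / (1 - m), ⟨div_nonneg (by linarith) (by linarith), ?_⟩, ?_⟩
    · rw [div_le_one (by linarith)]; linarith
    · simp only [dir, Matrix.cons_val]
      conv_rhs => rw [hd]
      have h1m : (1 - m) ≠ 0 := by linarith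
      have ex : x = (l - y * l) / (1 - m) := by field_simp; linarith
      have : vA g1 g2 g3 i j + ((y - m) / (1 - m)) • g3 -
          (vA g1 g2 g3 i j + (x - l) • (g1 + g2) + (y - m) • (g2 + g3)) =
          ((y - m) / (1 - m)) • (l • g1 - (1 - l - m) • g2 + m • g3) := by
        rw [ex]
        match_scalars <;> field_simp <;> ring
      rw [← sub_eq_zero, this, hv, smul_zero]

end HGraph

open HGraph HBasic in
theorem hgraph_proof (hIneq : Stmt_HIneq) : Stmt_HGraph := by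
  intro g1 g2 g3 w hpos hw1 hw2
  have hA := ar_pos hpos
  obtain ⟨l, m, h⟩ := exists_LM hpos
  have hl := h.l0
  refine ⟨2 * (|⟪w, g1⟫ - ‖g1‖| * (1 + 1 / l)), ?_⟩
  intro γ t1 t2 h12 hγ hfree
  have hX : ContinuousOn (fun t => cX g1 g2 g3 l (γ t)) (Icc t1 t2) := by
    have : Continuous (cX g1 g2 g3 l) := by unfold cX cr; fun_prop
    exact this.comp_continuousOn hγ
  have hY : ContinuousOn (fun t => cY g1 g2 g3 m (γ t)) (Icc t1 t2) := by
    have : Continuous (cY g1 g2 g3 m) := by unfold cY cr; fun_prop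
    exact this.comp_continuousOn hγ
  obtain ⟨B1, hB1⟩ := isCompact_Icc.exists_bound_of_continuousOn hX
  obtain ⟨B2, hB2⟩ := isCompact_Icc.exists_bound_of_continuousOn hY
  set N1 : ℤ := ⌈B1⌉ + 1 with hN1
  set N2 : ℤ := ⌈B2⌉ + 1 with hN2
  have hlast := LastExit.last_exit' (Finset.Icc (-N1) N1 ×ˢ Finset.Icc (-N2) N2 ×ˢ Finset.univ)
    (edge g1 g2 g3) (pot g1 g2 g3 w l m) γ t1 t2 h12 hγ (fun q _ => edge_closed g1 g2 g3 q)
    (by
      intro t ht
      obtain ⟨k, hk⟩ := on_edge hIneq hpos h (γ t) (hfree t ht)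
      refine ⟨_, ?_, hk⟩
      have b1 := hB1 t ht
      have b2 := hB2 t ht
      rw [Real.norm_eq_abs, abs_le] at b1 b2
      have c1 := Int.floor_le (cX g1 g2 g3 l (γ t))
      have c2 := Int.lt_floor_add_one (cX g1 g2 g3 l (γ t))
      have c3 := Int.floor_le (cY g1 g2 g3 m (γ t))
      have c4 := Int.lt_floor_add_one (cY g1 g2 g3 m (γ t))
      have d1 := Int.le_ceil B1
      have d2 := Int.le_ceil B2
      simp only [Finset.mem_product, Finset.mem_Icc, Finset.mem_univ, and_true]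
      refine ⟨⟨?_, ?_⟩, ⟨?_, ?_⟩⟩
      · have : (-N1 : ℝ) ≤ ⌊cX g1 g2 g3 l (γ t)⌋ := by
          rw [hN1]; push_cast; linarith
        exact_mod_cast this
      · have : (⌊cX g1 g2 g3 l (γ t)⌋ : ℝ) ≤ N1 := by
          rw [hN1]; push_cast; linarith
        exact_mod_cast this
      · have : (-N2 : ℝ) ≤ ⌊cY g1 g2 g3 m (γ t)⌋ := by
          rw [hN2]; push_cast; linarith
        exact_mod_cast this
      · have : (⌊cY g1 g2 g3 m (γ t)⌋ : ℝ) ≤ N2 := by
          rw [hN2]; push_cast; linarith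
        exact_mod_cast this)
    (fun q _ p hp p' hp' => pot_lip hA h hw1 hw2 q p p' hp hp')
  refine le_trans (ENNReal.ofReal_le_ofReal ?_) hlast
  have p1 := per_bound h (γ t1)
  have p2 := per_bound h (γ t2)
  unfold pot
  rw [inner_sub_right]
  set M := ⟪w, g1⟫ - ‖g1‖
  have e1 : |M * per g1 g2 g3 l m (γ t1)| ≤ |M| * (1 + 1 / l) := by
    rw [abs_mul]; exact mul_le_mul_of_nonneg_left p1 (abs_nonneg _)
  have e2 : |M * per g1 g2 g3 l m (γ t2)| ≤ |M| * (1 + 1 / l) := by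
    rw [abs_mul]; exact mul_le_mul_of_nonneg_left p2 (abs_nonneg _)
  rw [abs_le] at e1 e2
  linarith [e1.1, e1.2, e2.1, e2.2]

end Pool.Agent.LFT
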