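import Pool.Agent.LFT.HStmts

/-!
# HINEQ: a hexagon and its interior described by inequalities
-/

namespace Pool.Agent.LFT.HIneq

open MeasureTheory Set

theorem abs_le3 {a b s t : ℝ} (ha : 0 < a) (hb : 0 < b) (hs : |s| ≤ 1 / 2) (ht : |t| ≤ 1 / 2)
    (x : ℝ) (hx : x = s * a + t * b ∨ x = -(s * a) + t * b ∨ x = -(s * a) - t * b) :
    |x| ≤ (a + b) / 2 := by
  rw [abs_le] at hs ht ⊢
  obtain ⟨h1, h2⟩ := hs
  obtain ⟨h3, h4⟩ := ht
  rcases hx with rfl | rfl | rfl
  · constructor <;> nlinarith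
  · constructor <;> nlinarith
  · constructor <;> nlinarith

/-- the purely real part: finding the three parameters -/
theorem params (lam mu x y : ℝ) (hl : 0 < lam) (hm : 0 < mu) (hx : |x| ≤ (1 + lam) / 2)
    (hy : |y| ≤ (1 + mu) / 2) (hxy : |x * mu - y * lam| ≤ (lam + mu) / 2) :
    ∃ s1 s2 s3 : ℝ, |s1| ≤ 1 / 2 ∧ |s2| ≤ 1 / 2 ∧ |s3| ≤ 1 / 2 ∧ x = s1 + lam * s2 ∧
      y = s3 + mu * s2 := by
  rw [abs_le] at hx hy hxy
  obtain ⟨x1, x2⟩ := hx
  obtain ⟨y1, y2⟩ := hy
  obtain ⟨z1, z2⟩ := hxy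
  have a1 : -(1 / 2) ≤ max (-(1 / 2)) (max ((x - 1 / 2) / lam) ((y - 1 / 2) / mu)) :=
    le_max_left _ _
  have a2 : (x - 1 / 2) / lam ≤ max (-(1 / 2)) (max ((x - 1 / 2) / lam) ((y - 1 / 2) / mu)) :=
    (le_max_left _ _).trans (le_max_right _ _)
  have a3 : (y - 1 / 2) / mu ≤ max (-(1 / 2)) (max ((x - 1 / 2) / lam) ((y - 1 / 2) / mu)) :=
    (le_max_right _ _).trans (le_max_right _ _)
  have cases3 : max (-(1 / 2)) (max ((x - 1 / 2) / lam) ((y - 1 / 2) / mu)) = -(1 / 2) ∨
      max (-(1 / 2)) (max ((x - 1 / 2) / lam) ((y - 1 / 2) / mu)) = (x - 1 / 2) / lam ∨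
      max (-(1 / 2)) (max ((x - 1 / 2) / lam) ((y - 1 / 2) / mu)) = (y - 1 / 2) / mu := by
    rcases max_choice (-(1 / 2)) (max ((x - 1 / 2) / lam) ((y - 1 / 2) / mu)) with h | h
    · exact Or.inl h
    · rcases max_choice ((x - 1 / 2) / lam) ((y - 1 / 2) / mu) with h' | h'
      · right; left; rw [h, h']
      · right; right; rw [h, h']
  set s := max (-(1 / 2)) (max ((x - 1 / 2) / lam) ((y - 1 / 2) / mu)) with hs
  rw [div_le_iff₀ hl] at a2
  rw [div_le_iff₀ hm] at a3
  refine ⟨x - lam * s, s, y - mu * s, ?_, ?_, ?_, by ring, by ring⟩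
  · rw [abs_le]
    refine ⟨?_, by nlinarith⟩
    rcases cases3 with h | h | h
    · rw [h]; linarith
    · rw [h]; field_simp; linarith
    · rw [h]
      have : x - lam * ((y - 1 / 2) / mu) = (x * mu - y * lam + lam / 2) / mu := by
        field_simp; ring
      rw [this, le_div_iff₀ hm]
      linarith
  · rw [abs_le]
    refine ⟨a1, ?_⟩
    rcases cases3 with h | h | h
    · rw [h]; norm_num
    · rw [h, div_le_iff₀ hl]; linarith
    · rw [h, div_le_iff₀ hm]; linarith
  · rw [abs_le]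
    refine ⟨?_, by nlinarith⟩
    rcases cases3 with h | h | h
    · rw [h]; linarith
    · rw [h]
      have : y - mu * ((x - 1 / 2) / lam) = (-(x * mu - y * lam) + mu / 2) / lam := by
        field_simp; ring
      rw [this, le_div_iff₀ hl]
      linarith
    · rw [h]; field_simp; linarith

theorem cr_add (a b c : E) : cr a (b + c) = cr a b + cr a c := by
  simp only [cr, PiLp.add_apply]; ring

theorem cr_smul (a b : E) (r : ℝ) : cr a (r • b) = r * cr a b := by
  simp only [cr, PiLp.smul_apply, smul_eq_mul]; ring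

theorem mem_iff (z g1 g2 g3 : E) (hp : Pos3 g1 g2 g3) (p : E) : p ∈ Hex z g1 g2 g3 ↔
    |cr g1 (p - z)| ≤ (cr g1 g2 + cr g1 g3) / 2 ∧
      |cr g2 (p - z)| ≤ (cr g1 g2 + cr g2 g3) / 2 ∧
      |cr g3 (p - z)| ≤ (cr g1 g3 + cr g2 g3) / 2 := by
  obtain ⟨h12, h23, h13⟩ := hp
  constructor
  · rintro ⟨s1, s2, s3, hs1, hs2, hs3, rfl⟩
    have e : z + s1 • g1 + s2 • g2 + s3 • g3 - z = s1 • g1 + (s2 • g2 + s3 • g3) := by abel
    rw [e]
    refine ⟨?_, ?_, ?_⟩
    · apply abs_le3 h12 h13 hs2 hs3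
      left
      simp only [cr_add, cr_smul]
      simp only [cr]; ring
    · apply abs_le3 h12 h23 hs1 hs3
      right; left
      simp only [cr_add, cr_smul]
      simp only [cr]; ring
    · apply abs_le3 h13 h23 hs1 hs2
      right; right
      simp only [cr_add, cr_smul]
      simp only [cr]; ring
  · rintro ⟨c1, c2, c3⟩
    set q := p - z with hq
    have hne : cr g1 g3 ≠ 0 := h13.ne'
    obtain ⟨s1, s2, s3, hs1, hs2, hs3, hx, hy⟩ := params (cr g2 g3 / cr g1 g3)
      (cr g1 g2 / cr g1 g3) (-cr g3 q / cr g1 g3) (cr g1 q / cr g1 g3) (by positivity)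
      (by positivity)
      (by
        rw [abs_div, abs_neg, abs_of_pos h13, div_le_iff₀ h13]
        refine c3.trans (le_of_eq ?_)
        field_simp)
      (by
        rw [abs_div, abs_of_pos h13, div_le_iff₀ h13]
        refine c1.trans (le_of_eq ?_)
        field_simp
        ring)
      (by
        have e : -cr g3 q / cr g1 g3 * (cr g1 g2 / cr g1 g3) -
            cr g1 q / cr g1 g3 * (cr g2 g3 / cr g1 g3) = -cr g2 q / cr g1 g3 := by
          rw [div_mul_div_comm, div_mul_div_comm, ← sub_div, div_eq_div_iff (by positivity) hne]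
          simp only [cr]
          ring
        rw [e, abs_div, abs_neg, abs_of_pos h13, div_le_iff₀ h13]
        refine c2.trans (le_of_eq ?_)
        field_simp
        ring)
    refine ⟨s1, s2, s3, hs1, hs2, hs3, ?_⟩
    rw [div_eq_iff hne] at hx hy
    have hx' : -cr g3 q = s1 * cr g1 g3 + s2 * cr g2 g3 := by
      rw [hx]; field_simp
    have hy' : cr g1 q = s3 * cr g1 g3 + s2 * cr g1 g2 := by
      rw [hy]; field_simp
    have key : q = s1 • g1 + s2 • g2 + s3 • g3 := by
      ext i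
      apply mul_left_cancel₀ hne
      fin_cases i
      · simp only [cr, PiLp.add_apply, PiLp.smul_apply, smul_eq_mul, Fin.zero_eta,
          Fin.isValue] at hx' hy' ⊢
        linear_combination g1 0 * hx' + g3 0 * hy'
      · simp only [cr, PiLp.add_apply, PiLp.smul_apply, smul_eq_mul, Fin.mk_one,
          Fin.isValue] at hx' hy' ⊢
        linear_combination g1 1 * hx' + g3 1 * hy'
    have : p = z + q := by rw [hq]; abel
    rw [this, key]
    abel

theorem cont_cr (g z : E) : Continuous fun p : E => cr g (p - z) := by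
  unfold cr
  fun_prop

theorem strict {S : Set E} {g z p : E} {B : ℝ} (hp : p ∈ interior S) (hg : g ≠ 0)
    (hS : ∀ q ∈ S, |cr g (q - z)| ≤ B) : |cr g (p - z)| < B := by
  set w : E := !₂[-g 1, g 0] with hw
  have hgw : cr g w = g 0 ^ 2 + g 1 ^ 2 := by
    simp [cr, hw]; ring
  have hpos : 0 < cr g w := by
    rw [hgw]
    by_contra hcon
    have h0 : g 0 = 0 ∧ g 1 = 0 := by constructor <;> nlinarith [sq_nonneg (g 0), sq_nonneg (g 1)]
    apply hg
    ext i
    fin_cases i
    · exact h0.1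
    · exact h0.2
  have hc : Continuous fun t : ℝ => p + t • w := by fun_prop
  have hnhds : ∀ᶠ t in nhds (0 : ℝ), p + t • w ∈ S := by
    have h1 : interior S ∈ nhds (p + (0 : ℝ) • w) := by
      rw [zero_smul, add_zero]; exact isOpen_interior.mem_nhds hp
    filter_upwards [hc.continuousAt.preimage_mem_nhds h1] with t ht
    exact interior_subset ht
  obtain ⟨δ, hδ, hball⟩ := Metric.eventually_nhds_iff.mp hnhds
  have hd1 : dist (δ / 2) 0 < δ := by
    rw [dist_zero_right, Real.norm_eq_abs, abs_of_pos (by positivity)]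
    linarith
  have hd2 : dist (-(δ / 2)) 0 < δ := by
    rw [dist_zero_right, Real.norm_eq_abs, abs_neg, abs_of_pos (by positivity)]
    linarith
  have h1 := hS _ (hball hd1)
  have h2 := hS _ (hball hd2)
  have e : ∀ t : ℝ, cr g (p + t • w - z) = cr g (p - z) + t * cr g w := by
    intro t
    rw [show p + t • w - z = (p - z) + t • w by abel, cr_add, cr_smul]
  rw [e, abs_le] at h1 h2
  have h3 : 0 < δ / 2 * cr g w := by positivity
  rw [abs_lt]
  constructor <;> nlinarith [h1.1, h1.2, h2.1, h2.2]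

theorem hineq_proof : Stmt_HIneq := by
  intro z g1 g2 g3 hp
  have hmem := mem_iff z g1 g2 g3 hp
  refine ⟨hmem, ?_⟩
  obtain ⟨h12, h23, h13⟩ := hp
  have n1 : g1 ≠ 0 := by rintro rfl; simp [cr] at h12
  have n2 : g2 ≠ 0 := by rintro rfl; simp [cr] at h12
  have n3 : g3 ≠ 0 := by rintro rfl; simp [cr] at h13
  intro p
  constructor
  · intro h
    exact ⟨strict h n1 fun q hq => ((hmem q).mp hq).1,
      strict h n2 fun q hq => ((hmem q).mp hq).2.1, strict h n3 fun q hq => ((hmem q).mp hq).2.2⟩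
  · rintro ⟨c1, c2, c3⟩
    have hopen : IsOpen {p : E | |cr g1 (p - z)| < (cr g1 g2 + cr g1 g3) / 2 ∧
        |cr g2 (p - z)| < (cr g1 g2 + cr g2 g3) / 2 ∧
        |cr g3 (p - z)| < (cr g1 g3 + cr g2 g3) / 2} := by
      refine IsOpen.inter ?_ (IsOpen.inter ?_ ?_)
      · exact isOpen_lt (cont_cr g1 z).abs continuous_const
      · exact isOpen_lt (cont_cr g2 z).abs continuous_const
      · exact isOpen_lt (cont_cr g3 z).abs continuous_const
    refine interior_maximal ?_ hopen ⟨c1, c2, c3⟩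
    rintro q ⟨d1, d2, d3⟩
    exact (hmem q).mpr ⟨d1.le, d2.le, d3.le⟩

end Pool.Agent.LFT.HIneq

namespace Pool.Agent.LFT

theorem hineq_proof : Stmt_HIneq := HIneq.hineq_proof

end Pool.Agent.LFT
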