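import Pool.Agent.LFT.HStmts

/-!
# HINT: integrals of the chord and of the detour
-/

namespace Pool.Agent.LFT.HInt

open MeasureTheory Set

theorem hasDerivAt_mul_abs (x : ℝ) : HasDerivAt (fun x : ℝ => x * |x| / 2) |x| x := by
  rcases lt_trichotomy x 0 with h | h | h
  · have h1 : HasDerivAt (fun x : ℝ => x * (-x) / 2) (-x) x := by
      have := ((hasDerivAt_id x).mul ((hasDerivAt_id x).neg)).div_const 2
      refine this.congr_deriv ?_
      simp only [id, Pi.neg_apply]
      ring
    rw [abs_of_neg h]
    refine h1.congr_of_eventuallyEq ?_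
    filter_upwards [Iio_mem_nhds h] with y hy
    rw [abs_of_neg hy]
  · subst h
    rw [abs_zero, hasDerivAt_iff_isLittleO_nhds_zero]
    simp only [zero_add, abs_zero, mul_zero, zero_div, sub_zero, smul_zero]
    have h1 : (fun h : ℝ => |h| / 2 * h) =o[nhds 0] fun h : ℝ => 1 * h := by
      apply Asymptotics.IsLittleO.mul_isBigO _ (Asymptotics.isBigO_refl _ _)
      rw [Asymptotics.isLittleO_one_iff]
      have : Filter.Tendsto (fun x : ℝ => |x| / 2) (nhds 0) (nhds (|0| / 2)) := by
        apply Continuous.tendsto; fun_prop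
      simpa using this
    refine h1.congr (fun y => by ring) (fun y => by ring)
  · have h1 : HasDerivAt (fun x : ℝ => x * x / 2) x x := by
      have := ((hasDerivAt_id x).mul ((hasDerivAt_id x))).div_const 2
      refine this.congr_deriv ?_
      simp only [id]
      ring
    rw [abs_of_pos h]
    refine h1.congr_of_eventuallyEq ?_
    filter_upwards [Ioi_mem_nhds h] with y hy
    rw [abs_of_pos hy]

theorem integral_abs (u v : ℝ) : ∫ t in u..v, |t| = v * |v| / 2 - u * |u| / 2 :=
  intervalIntegral.integral_eq_sub_of_hasDerivAt (fun x _ => hasDerivAt_mul_abs x)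
    (continuous_abs.intervalIntegrable _ _)

theorem mabs_eq (a b : ℝ) (h : a < b) : mabs a b = (b * |b| - a * |a|) / (2 * (b - a)) := by
  have hne : b - a ≠ 0 := by linarith
  unfold mabs
  have h1 : (fun s : ℝ => |a + s * (b - a)|) = fun s : ℝ => |a + (b - a) * s| := by
    funext s; rw [mul_comm]
  rw [h1]
  have h2 := intervalIntegral.integral_comp_add_mul (fun x : ℝ => |x|) (a := 0) (b := 1) hne a
  rw [h2, smul_eq_mul, mul_zero, mul_one, add_zero, add_sub_cancel, integral_abs]
  field_simp

theorem mabs_self (a : ℝ) : mabs a a = |a| := by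
  simp [mabs]

/-- positive part -/
noncomputable def pp (x : ℝ) : ℝ := (x + |x|) / 2

theorem cont_pp : Continuous pp := by unfold pp; fun_prop

theorem pp_of_nonneg {x : ℝ} (h : 0 ≤ x) : pp x = x := by rw [pp, abs_of_nonneg h]; ring

theorem pp_of_nonpos {x : ℝ} (h : x ≤ 0) : pp x = 0 := by rw [pp, abs_of_nonpos h]; ring

theorem integral_pp (u v a : ℝ) : ∫ t in u..v, pp (t - a) =
    ((v - a) ^ 2 + (v - a) * |v - a|) / 4 - ((u - a) ^ 2 + (u - a) * |u - a|) / 4 := by
  have h1 : ∫ t in u..v, pp (t - a) = ∫ t in (u - a)..(v - a), pp t :=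
    intervalIntegral.integral_comp_sub_right pp a
  rw [h1]
  have h2 : (fun t : ℝ => pp t) = fun t : ℝ => (1 / 2) * t + (1 / 2) * |t| := by
    funext t; unfold pp; ring
  rw [h2, intervalIntegral.integral_add (by apply Continuous.intervalIntegrable; fun_prop)
    (by apply Continuous.intervalIntegrable; fun_prop), intervalIntegral.integral_const_mul,
    intervalIntegral.integral_const_mul, integral_id, integral_abs]
  ring

theorem cl_eq (a b t : ℝ) (h : a < b) : cl ((t - a) / (b - a)) =
    (pp (t - a) - pp (t - b)) / (b - a) := by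
  have hw : 0 < b - a := by linarith
  unfold cl
  rcases le_total t a with h1 | h1
  · rw [pp_of_nonpos (by linarith : t - a ≤ 0), pp_of_nonpos (by linarith : t - b ≤ 0)]
    have : (t - a) / (b - a) ≤ 0 := div_nonpos_of_nonpos_of_nonneg (by linarith) hw.le
    rw [min_eq_right (by linarith), max_eq_left this]
    simp
  · rcases le_total t b with h2 | h2
    · rw [pp_of_nonneg (by linarith : 0 ≤ t - a), pp_of_nonpos (by linarith : t - b ≤ 0)]
      have h3 : 0 ≤ (t - a) / (b - a) := div_nonneg (by linarith) hw.le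
      have h4 : (t - a) / (b - a) ≤ 1 := by rw [div_le_one hw]; linarith
      rw [min_eq_right h4, max_eq_right h3, sub_zero]
    · rw [pp_of_nonneg (by linarith : 0 ≤ t - a), pp_of_nonneg (by linarith : 0 ≤ t - b)]
      have h4 : 1 ≤ (t - a) / (b - a) := by rw [le_div_iff₀ hw]; linarith
      rw [min_eq_left h4, max_eq_right (by norm_num)]
      rw [eq_div_iff hw.ne']
      ring

theorem cont_cl : Continuous cl := by unfold cl; fun_prop

/-- the ramp function -/
noncomputable def ramp (a b t : ℝ) : ℝ := cl ((t - a) / (b - a))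

theorem cont_ramp (a b : ℝ) : Continuous (ramp a b) := by
  unfold ramp
  exact cont_cl.comp (by fun_prop)

theorem integral_ramp (a b u v : ℝ) (h : a < b) : ∫ t in u..v, ramp a b t =
    ((((v - a) ^ 2 + (v - a) * |v - a|) / 4 - ((u - a) ^ 2 + (u - a) * |u - a|) / 4) -
     (((v - b) ^ 2 + (v - b) * |v - b|) / 4 - ((u - b) ^ 2 + (u - b) * |u - b|) / 4)) /
      (b - a) := by
  have h1 : (fun t => ramp a b t) = fun t => (pp (t - a) - pp (t - b)) / (b - a) := by
    funext t; exact cl_eq a b t h
  rw [h1, intervalIntegral.integral_div, intervalIntegral.integral_sub, integral_pp, integral_pp]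
  · apply Continuous.intervalIntegrable; exact cont_pp.comp (by fun_prop)
  · apply Continuous.intervalIntegrable; exact cont_pp.comp (by fun_prop)

theorem int1 (a b h : ℝ) (hab : a < b) (ha : -h ≤ a) (hb : b ≤ h) :
    ∫ t in (-h)..h, ramp a b t = h - (a + b) / 2 := by
  rw [integral_ramp _ _ _ _ hab, abs_of_nonneg (by linarith : 0 ≤ h - a),
    abs_of_nonneg (by linarith : 0 ≤ h - b), abs_of_nonpos (by linarith : -h - a ≤ 0),
    abs_of_nonpos (by linarith : -h - b ≤ 0)]
  have : b - a ≠ 0 := by linarith
  field_simp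
  ring

theorem int_even (f : ℝ → ℝ) (hf : Continuous f) (h : ℝ) (hh : 0 ≤ h) :
    ∫ t in (-h)..h, f |t| = 2 * ∫ t in (0 : ℝ)..h, f t := by
  have h1 : ∫ t in (-h)..h, f |t| = (∫ t in (-h)..0, f |t|) + ∫ t in (0 : ℝ)..h, f |t| :=
    (intervalIntegral.integral_add_adjacent_intervals
      (Continuous.intervalIntegrable (hf.comp continuous_abs) _ _)
      (Continuous.intervalIntegrable (hf.comp continuous_abs) _ _)).symm
  have h2 : ∫ t in (0 : ℝ)..h, f |t| = ∫ t in (0 : ℝ)..h, f t := by
    apply intervalIntegral.integral_congr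
    intro t ht
    rw [uIcc_of_le hh] at ht
    show f |t| = f t
    rw [abs_of_nonneg ht.1]
  have h3 : ∫ t in (-h)..0, f |t| = ∫ t in (0 : ℝ)..h, f t := by
    have h4 : ∫ t in (-h)..0, f |t| = ∫ t in (-h)..0, f (-t) := by
      apply intervalIntegral.integral_congr
      intro t ht
      rw [uIcc_of_le (by linarith)] at ht
      show f |t| = f (-t)
      rw [abs_of_nonpos ht.2]
    rw [h4, intervalIntegral.integral_comp_neg (fun t => f t), neg_zero, neg_neg]
  rw [h1, h2, h3]
  ring

theorem int2 (a b h : ℝ) (hab : a < b) (ha : -h ≤ a) (hb : b ≤ h) :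
    ∫ t in (-h)..h, (1 - ramp a b |t| + ramp a b (-|t|)) = 2 * mabs a b := by
  have hh : 0 ≤ h := by linarith
  have c1 := cont_ramp a b
  have c2 : Continuous fun t : ℝ => ramp a b (-t) := c1.comp continuous_neg
  rw [int_even (fun t => 1 - ramp a b t + ramp a b (-t)) (by fun_prop) h hh]
  congr 1
  rw [intervalIntegral.integral_add (by apply Continuous.intervalIntegrable; fun_prop)
    (by apply Continuous.intervalIntegrable; fun_prop),
    intervalIntegral.integral_sub (by apply Continuous.intervalIntegrable; fun_prop)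
    (by apply Continuous.intervalIntegrable; fun_prop),
    intervalIntegral.integral_comp_neg (fun t => ramp a b t), integral_ramp _ _ _ _ hab,
    integral_ramp _ _ _ _ hab, mabs_eq a b hab]
  simp only [neg_zero, zero_sub, abs_neg]
  rw [abs_of_nonneg (by linarith : 0 ≤ h - a), abs_of_nonneg (by linarith : 0 ≤ h - b),
    abs_of_nonpos (by linarith : -h - a ≤ 0), abs_of_nonpos (by linarith : -h - b ≤ 0)]
  have : b - a ≠ 0 := by linarith
  simp only [intervalIntegral.integral_const, smul_eq_mul, mul_one, sub_zero]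
  field_simp
  ring

/-- the ramp functions of the three edges -/
theorem ramps (w1 w2 w3 h : ℝ)
    (hh : h = (w1 + w2 + w3) / 2) :
    sA w1 w2 w3 = ramp (-h) (-h + w1) ∧ sB w1 w2 w3 = ramp (-h + w1) (-h + w1 + w2) ∧
    sC w1 w2 w3 = ramp (-h + w1 + w2) h := by
  refine ⟨?_, ?_, ?_⟩
  · funext t
    unfold sA ramp
    congr 1
    rw [hh]
    congr 1 <;> ring
  · funext t
    unfold sB ramp
    congr 1
    rw [hh]
    congr 1 <;> ring
  · funext t
    unfold sC ramp
    congr 1
    rw [hh]
    congr 1 <;> ring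

theorem sC_zero (w1 w2 t : ℝ) : sC w1 w2 0 t = 0 := by
  simp [sC, cl]

theorem hint_proof : Stmt_HInt := by
  intro w1 w2 w3 n1 n2 n3 l1 l2 l3 h h1 h2 h3 hh
  -- the three ramps
  have key : ∃ A B C : ℝ → ℝ, Continuous A ∧ Continuous B ∧ Continuous C ∧
      sA w1 w2 w3 = A ∧ sB w1 w2 w3 = B ∧ sC w1 w2 w3 = C ∧
      (∫ t in (-h)..h, A t = h - (-h + (-h + w1)) / 2) ∧
      (∫ t in (-h)..h, B t = h - ((-h + w1) + (-h + w1 + w2)) / 2) ∧
      (∫ t in (-h)..h, C t = h - ((-h + w1 + w2) + h) / 2) ∧
      (∫ t in (-h)..h, (1 - A |t| + A (-|t|)) = 2 * mabs (-h) (-h + w1)) ∧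
      (∫ t in (-h)..h, (1 - B |t| + B (-|t|)) = 2 * mabs (-h + w1) (-h + w1 + w2)) ∧
      (∫ t in (-h)..h, (1 - C |t| + C (-|t|)) = 2 * mabs (-h + w1 + w2) h) := by
    have eA : sA w1 w2 w3 = ramp (-h) (-h + w1) := by
      funext t
      unfold sA ramp
      congr 1
      rw [hh]
      congr 1 <;> ring
    have eB : sB w1 w2 w3 = ramp (-h + w1) (-h + w1 + w2) := by
      funext t
      unfold sB ramp
      congr 1
      rw [hh]
      congr 1 <;> ring
    rcases h3.eq_or_lt with h0 | h0
    · have eC : sC w1 w2 w3 = fun _ => 0 := by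
        funext t; rw [← h0]; exact sC_zero w1 w2 t
      have e2 : -h + w1 + w2 = h := by rw [hh, ← h0]; ring
      refine ⟨_, _, _, ?_, ?_, ?_, eA, eB, eC, ?_, ?_, ?_, ?_, ?_, ?_⟩
      · exact cont_ramp _ _
      · exact cont_ramp _ _
      · exact continuous_const
      · exact int1 _ _ _ (by linarith) (by linarith) (by linarith)
      · exact int1 _ _ _ (by linarith) (by linarith) (by linarith)
      · rw [e2]; simp
      · exact int2 _ _ _ (by linarith) (by linarith) (by linarith)
      · exact int2 _ _ _ (by linarith) (by linarith) (by linarith)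
      · rw [e2, mabs_self, abs_of_nonneg (by linarith)]
        simp
        ring
    · have eC := (ramps w1 w2 w3 h hh).2.2
      refine ⟨_, _, _, ?_, ?_, ?_, eA, eB, eC, ?_, ?_, ?_, ?_, ?_, ?_⟩
      · exact cont_ramp _ _
      · exact cont_ramp _ _
      · exact cont_ramp _ _
      · exact int1 _ _ _ (by linarith) (by linarith) (by linarith)
      · exact int1 _ _ _ (by linarith) (by linarith) (by linarith)
      · exact int1 _ _ _ (by linarith) (by linarith) (by linarith)
      · exact int2 _ _ _ (by linarith) (by linarith) (by linarith)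
      · exact int2 _ _ _ (by linarith) (by linarith) (by linarith)
      · exact int2 _ _ _ (by linarith) (by linarith) (by linarith)
  obtain ⟨A, B, C, cA, cB, cC, eA, eB, eC, iA, iB, iC, jA, jB, jC⟩ := key
  have ehlo : hlo w1 w2 w3 n1 n2 n3 =
      fun t => -(n1 + n2 + n3) / 2 + A t * n1 + B t * n2 + C t * n3 := by
    funext t
    unfold hlo
    rw [eA, eB, eC]
  have ehr : hr w1 w2 w3 l1 l2 l3 = fun t => l1 * (1 - A |t| + A (-|t|)) +
      l2 * (1 - B |t| + B (-|t|)) + l3 * (1 - C |t| + C (-|t|)) := by
    funext t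
    unfold hr
    rw [eA, eB, eC]
  have kA : Continuous fun t : ℝ => 1 - A |t| + A (-|t|) := by fun_prop
  have kB : Continuous fun t : ℝ => 1 - B |t| + B (-|t|) := by fun_prop
  have kC : Continuous fun t : ℝ => 1 - C |t| + C (-|t|) := by fun_prop
  refine ⟨?_, ?_, ?_, ?_⟩
  · rw [ehlo]; fun_prop
  · rw [ehr]; fun_prop
  · have hlo_int : ∫ t in (-h)..h, hlo w1 w2 w3 n1 n2 n3 t = -(n1 + n2 + n3) / 2 * (2 * h) +
        (h - (-h + (-h + w1)) / 2) * n1 + (h - ((-h + w1) + (-h + w1 + w2)) / 2) * n2 +
        (h - ((-h + w1 + w2) + h) / 2) * n3 := by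
      rw [ehlo, intervalIntegral.integral_add (by apply Continuous.intervalIntegrable; fun_prop)
          (by apply Continuous.intervalIntegrable; fun_prop),
        intervalIntegral.integral_add (by apply Continuous.intervalIntegrable; fun_prop)
          (by apply Continuous.intervalIntegrable; fun_prop),
        intervalIntegral.integral_add (by apply Continuous.intervalIntegrable; fun_prop)
          (by apply Continuous.intervalIntegrable; fun_prop),
        intervalIntegral.integral_mul_const, intervalIntegral.integral_mul_const,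
        intervalIntegral.integral_mul_const, iA, iB, iC, intervalIntegral.integral_const,
        smul_eq_mul]
      ring
    have hc : Continuous (hlo w1 w2 w3 n1 n2 n3) := by rw [ehlo]; fun_prop
    have hneg : ∫ t in (-h)..h, hlo w1 w2 w3 n1 n2 n3 (-t) =
        ∫ t in (-h)..h, hlo w1 w2 w3 n1 n2 n3 t := by
      rw [intervalIntegral.integral_comp_neg (fun t => hlo w1 w2 w3 n1 n2 n3 t), neg_neg]
    have hsplit : ∫ t in (-h)..h, (-hlo w1 w2 w3 n1 n2 n3 (-t) - hlo w1 w2 w3 n1 n2 n3 t) =
        -(∫ t in (-h)..h, hlo w1 w2 w3 n1 n2 n3 (-t)) -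
          ∫ t in (-h)..h, hlo w1 w2 w3 n1 n2 n3 t := by
      rw [intervalIntegral.integral_sub (by apply Continuous.intervalIntegrable; fun_prop)
          (by apply Continuous.intervalIntegrable; fun_prop), intervalIntegral.integral_neg]
    rw [hsplit, hneg, hlo_int, hh]
    ring
  · rw [ehr, intervalIntegral.integral_add (by apply Continuous.intervalIntegrable; fun_prop)
          (by apply Continuous.intervalIntegrable; fun_prop),
        intervalIntegral.integral_add (by apply Continuous.intervalIntegrable; fun_prop)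
          (by apply Continuous.intervalIntegrable; fun_prop),
        intervalIntegral.integral_const_mul, intervalIntegral.integral_const_mul,
        intervalIntegral.integral_const_mul, jA, jB, jC]
    ring

end Pool.Agent.LFT.HInt

namespace Pool.Agent.LFT

theorem hint_proof : Stmt_HInt := HInt.hint_proof

end Pool.Agent.LFT
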