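import Pool.Agent.LFT.HStmts

/-!
# HMEM: a hexagon in canonical position, described by the lower and the upper chain
-/

namespace Pool.Agent.LFT

open MeasureTheory Set
open scoped RealInnerProductSpace ENNReal

namespace HMem

theorem inner_eq (a b : E) : ⟪a, b⟫ = a 0 * b 0 + a 1 * b 1 := by
  simp [PiLp.inner_apply, Fin.sum_univ_two]
  ring

/-- The cross product in the coordinates of a positively oriented orthonormal basis. -/
theorem cr_eq (u n a b : E) (h : cr u n = 1) :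
    cr a b = ⟪u, a⟫ * ⟪n, b⟫ - ⟪n, a⟫ * ⟪u, b⟫ := by
  have : ⟪u, a⟫ * ⟪n, b⟫ - ⟪n, a⟫ * ⟪u, b⟫ = cr u n * cr a b := by
    simp only [inner_eq, cr]; ring
  rw [this, h, one_mul]

theorem cl_of_le (x : ℝ) (h : x ≤ 0) : cl x = 0 := by
  unfold cl
  rw [max_eq_left]
  exact le_trans (min_le_right _ _) h

theorem cl_of_ge (x : ℝ) (h : 1 ≤ x) : cl x = 1 := by
  unfold cl
  rw [min_eq_left h, max_eq_right zero_le_one]

theorem cl_mid (x : ℝ) (h : 0 ≤ x) (h' : x ≤ 1) : cl x = x := by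
  unfold cl
  rw [min_eq_right h', max_eq_right h]

/-- On the three intervals the lower chain is the graph of an affine function. -/
theorem hlo_cases (w1 w2 w3 n1 n2 n3 X : ℝ) (h1 : 0 < w1) (h2 : 0 < w2) (h3 : 0 ≤ w3)
    (hX : |X| ≤ (w1 + w2 + w3) / 2) :
    (X ≤ -((w1 + w2 + w3) / 2) + w1 ∧
      w1 * hlo w1 w2 w3 n1 n2 n3 X = n1 * X - ((w1 * n2 - n1 * w2) + (w1 * n3 - n1 * w3)) / 2) ∨
    (-((w1 + w2 + w3) / 2) + w1 ≤ X ∧ X ≤ -((w1 + w2 + w3) / 2) + w1 + w2 ∧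
      w2 * hlo w1 w2 w3 n1 n2 n3 X = n2 * X - ((w1 * n2 - n1 * w2) + (w2 * n3 - n2 * w3)) / 2) ∨
    (-((w1 + w2 + w3) / 2) + w1 + w2 ≤ X ∧ 0 < w3 ∧
      w3 * hlo w1 w2 w3 n1 n2 n3 X = n3 * X - ((w1 * n3 - n1 * w3) + (w2 * n3 - n2 * w3)) / 2) := by
  obtain ⟨hXl, hXr⟩ := abs_le.1 hX
  rcases le_total X (-((w1 + w2 + w3) / 2) + w1) with hA | hA
  · left
    refine ⟨hA, ?_⟩
    have eA : sA w1 w2 w3 X = (X + (w1 + w2 + w3) / 2) / w1 := by
      unfold sA
      apply cl_mid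
      · apply div_nonneg _ h1.le; linarith
      · rw [div_le_one h1]; linarith
    have eB : sB w1 w2 w3 X = 0 := by
      unfold sB
      apply cl_of_le
      apply div_nonpos_of_nonpos_of_nonneg _ h2.le; linarith
    have eC : sC w1 w2 w3 X = 0 := by
      unfold sC
      apply cl_of_le
      apply div_nonpos_of_nonpos_of_nonneg _ h3; linarith
    unfold hlo
    rw [eA, eB, eC]
    field_simp
    ring
  · right
    rcases le_total X (-((w1 + w2 + w3) / 2) + w1 + w2) with hB | hB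
    · left
      refine ⟨hA, hB, ?_⟩
      have eA : sA w1 w2 w3 X = 1 := by
        unfold sA
        apply cl_of_ge
        rw [le_div_iff₀ h1]; linarith
      have eB : sB w1 w2 w3 X = (X + (w1 + w2 + w3) / 2 - w1) / w2 := by
        unfold sB
        apply cl_mid
        · apply div_nonneg _ h2.le; linarith
        · rw [div_le_one h2]; linarith
      have eC : sC w1 w2 w3 X = 0 := by
        unfold sC
        apply cl_of_le
        apply div_nonpos_of_nonpos_of_nonneg _ h3; linarith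
      unfold hlo
      rw [eA, eB, eC]
      field_simp
      ring
    · rcases h3.lt_or_eq with h3' | h3'
      · right
        refine ⟨hB, h3', ?_⟩
        have eA : sA w1 w2 w3 X = 1 := by
          unfold sA
          apply cl_of_ge
          rw [le_div_iff₀ h1]; linarith
        have eB : sB w1 w2 w3 X = 1 := by
          unfold sB
          apply cl_of_ge
          rw [le_div_iff₀ h2]; linarith
        have eC : sC w1 w2 w3 X = (X + (w1 + w2 + w3) / 2 - w1 - w2) / w3 := by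
          unfold sC
          apply cl_mid
          · apply div_nonneg _ h3; linarith
          · rw [div_le_one h3']; linarith
        unfold hlo
        rw [eA, eB, eC]
        field_simp
        ring
      · left
        have hXe : X = -((w1 + w2 + w3) / 2) + w1 + w2 := by
          apply le_antisymm _ hB
          rw [← h3'] at hXr ⊢
          linarith
        refine ⟨hA, hXe.le, ?_⟩
        have eA : sA w1 w2 w3 X = 1 := by
          unfold sA
          apply cl_of_ge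
          rw [le_div_iff₀ h1]; linarith
        have eB : sB w1 w2 w3 X = (X + (w1 + w2 + w3) / 2 - w1) / w2 := by
          unfold sB
          apply cl_mid
          · apply div_nonneg _ h2.le; linarith
          · rw [div_le_one h2]; linarith
        have eC : sC w1 w2 w3 X = 0 := by
          unfold sC
          apply cl_of_le
          apply div_nonpos_of_nonpos_of_nonneg _ h3; linarith
        unfold hlo
        rw [eA, eB, eC]
        field_simp
        ring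

/-- The lower chain lies above the three lines. -/
theorem hlo_ge (w1 w2 w3 n1 n2 n3 X : ℝ) (h1 : 0 < w1) (h2 : 0 < w2) (h3 : 0 ≤ w3)
    (d12 : 0 < w1 * n2 - n1 * w2) (d13 : 0 < w1 * n3 - n1 * w3) (d23 : 0 < w2 * n3 - n2 * w3)
    (hX : |X| ≤ (w1 + w2 + w3) / 2) :
    n1 * X - ((w1 * n2 - n1 * w2) + (w1 * n3 - n1 * w3)) / 2 ≤ w1 * hlo w1 w2 w3 n1 n2 n3 X ∧
    n2 * X - ((w1 * n2 - n1 * w2) + (w2 * n3 - n2 * w3)) / 2 ≤ w2 * hlo w1 w2 w3 n1 n2 n3 X ∧
    n3 * X - ((w1 * n3 - n1 * w3) + (w2 * n3 - n2 * w3)) / 2 ≤ w3 * hlo w1 w2 w3 n1 n2 n3 X := by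
  obtain ⟨hXl, hXr⟩ := abs_le.1 hX
  rcases hlo_cases w1 w2 w3 n1 n2 n3 X h1 h2 h3 hX with ⟨hA, e⟩ | ⟨hA, hB, e⟩ | ⟨hB, h3', e⟩
  · refine ⟨e.ge, ?_, ?_⟩
    · have : 0 ≤ w1 * (w2 * hlo w1 w2 w3 n1 n2 n3 X -
          (n2 * X - ((w1 * n2 - n1 * w2) + (w2 * n3 - n2 * w3)) / 2)) := by
        have e' : w1 * (w2 * hlo w1 w2 w3 n1 n2 n3 X -
            (n2 * X - ((w1 * n2 - n1 * w2) + (w2 * n3 - n2 * w3)) / 2)) =
            (w1 * n2 - n1 * w2) * (-((w1 + w2 + w3) / 2) + w1 - X) := by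
          linear_combination w2 * e
        rw [e']
        exact mul_nonneg d12.le (by linarith)
      have := nonneg_of_mul_nonneg_right this h1
      linarith
    · have : 0 ≤ w1 * (w3 * hlo w1 w2 w3 n1 n2 n3 X -
          (n3 * X - ((w1 * n3 - n1 * w3) + (w2 * n3 - n2 * w3)) / 2)) := by
        have e' : w1 * (w3 * hlo w1 w2 w3 n1 n2 n3 X -
            (n3 * X - ((w1 * n3 - n1 * w3) + (w2 * n3 - n2 * w3)) / 2)) =
            (w1 * n3 - n1 * w3) * (-((w1 + w2 + w3) / 2) + w1 - X) +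
              w1 * (w2 * n3 - n2 * w3) := by
          linear_combination w3 * e
        rw [e']
        exact add_nonneg (mul_nonneg d13.le (by linarith)) (mul_nonneg h1.le d23.le)
      have := nonneg_of_mul_nonneg_right this h1
      linarith
  · refine ⟨?_, e.ge, ?_⟩
    · have : 0 ≤ w2 * (w1 * hlo w1 w2 w3 n1 n2 n3 X -
          (n1 * X - ((w1 * n2 - n1 * w2) + (w1 * n3 - n1 * w3)) / 2)) := by
        have e' : w2 * (w1 * hlo w1 w2 w3 n1 n2 n3 X -
            (n1 * X - ((w1 * n2 - n1 * w2) + (w1 * n3 - n1 * w3)) / 2)) =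
            (w1 * n2 - n1 * w2) * (X - (-((w1 + w2 + w3) / 2) + w1)) := by
          linear_combination w1 * e
        rw [e']
        exact mul_nonneg d12.le (by linarith)
      have := nonneg_of_mul_nonneg_right this h2
      linarith
    · have : 0 ≤ w2 * (w3 * hlo w1 w2 w3 n1 n2 n3 X -
          (n3 * X - ((w1 * n3 - n1 * w3) + (w2 * n3 - n2 * w3)) / 2)) := by
        have e' : w2 * (w3 * hlo w1 w2 w3 n1 n2 n3 X -
            (n3 * X - ((w1 * n3 - n1 * w3) + (w2 * n3 - n2 * w3)) / 2)) =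
            (w2 * n3 - n2 * w3) * (-((w1 + w2 + w3) / 2) + w1 + w2 - X) := by
          linear_combination w3 * e
        rw [e']
        exact mul_nonneg d23.le (by linarith)
      have := nonneg_of_mul_nonneg_right this h2
      linarith
  · refine ⟨?_, ?_, e.ge⟩
    · have : 0 ≤ w3 * (w1 * hlo w1 w2 w3 n1 n2 n3 X -
          (n1 * X - ((w1 * n2 - n1 * w2) + (w1 * n3 - n1 * w3)) / 2)) := by
        have e' : w3 * (w1 * hlo w1 w2 w3 n1 n2 n3 X -
            (n1 * X - ((w1 * n2 - n1 * w2) + (w1 * n3 - n1 * w3)) / 2)) =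
            (w1 * n3 - n1 * w3) * (X - (-((w1 + w2 + w3) / 2) + w1 + w2)) +
              w3 * (w1 * n2 - n1 * w2) := by
          linear_combination w1 * e
        rw [e']
        exact add_nonneg (mul_nonneg d13.le (by linarith)) (mul_nonneg h3 d12.le)
      have := nonneg_of_mul_nonneg_right this h3'
      linarith
    · have : 0 ≤ w3 * (w2 * hlo w1 w2 w3 n1 n2 n3 X -
          (n2 * X - ((w1 * n2 - n1 * w2) + (w2 * n3 - n2 * w3)) / 2)) := by
        have e' : w3 * (w2 * hlo w1 w2 w3 n1 n2 n3 X -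
            (n2 * X - ((w1 * n2 - n1 * w2) + (w2 * n3 - n2 * w3)) / 2)) =
            (w2 * n3 - n2 * w3) * (X - (-((w1 + w2 + w3) / 2) + w1 + w2)) := by
          linear_combination w2 * e
        rw [e']
        exact mul_nonneg d23.le (by linarith)
      have := nonneg_of_mul_nonneg_right this h3'
      linarith

/-- The lower chain lies strictly below the upper one. -/
theorem hlo_lt (w1 w2 w3 n1 n2 n3 X : ℝ) (h1 : 0 < w1) (h2 : 0 < w2) (h3 : 0 ≤ w3)
    (d12 : 0 < w1 * n2 - n1 * w2) (d13 : 0 < w1 * n3 - n1 * w3) (d23 : 0 < w2 * n3 - n2 * w3)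
    (hX : |X| < (w1 + w2 + w3) / 2) :
    hlo w1 w2 w3 n1 n2 n3 X + hlo w1 w2 w3 n1 n2 n3 (-X) < 0 := by
  obtain ⟨hXl, hXr⟩ := abs_lt.1 hX
  have hX' : |(-X)| ≤ (w1 + w2 + w3) / 2 := by rw [abs_neg]; exact hX.le
  have pl : w2 * (w1 * n3 - n1 * w3) = w3 * (w1 * n2 - n1 * w2) + w1 * (w2 * n3 - n2 * w3) := by
    ring
  have p12 := mul_pos d12 h1
  have key : ∀ a : ℝ, ∀ b : ℝ, 0 < a → a * b < 0 → b < 0 := fun a b ha hb => by
    by_contra hc
    exact absurd (mul_nonneg ha.le (not_lt.1 hc)) (not_le.2 hb)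
  set f := hlo w1 w2 w3 n1 n2 n3 X with hf
  set g := hlo w1 w2 w3 n1 n2 n3 (-X) with hg
  have a1 := mul_pos d12 (sub_pos.2 hXr)
  have a2 := mul_pos d13 (sub_pos.2 hXr)
  have a3 := mul_pos d23 (sub_pos.2 hXr)
  have b1 := mul_pos d12 (sub_pos.2 hXl)
  have b2 := mul_pos d13 (sub_pos.2 hXl)
  have b3 := mul_pos d23 (sub_pos.2 hXl)
  have c1 := mul_pos h1 d23
  have c2 := mul_nonneg h3 d12.le
  rcases hlo_cases w1 w2 w3 n1 n2 n3 X h1 h2 h3 hX.le with ⟨hA, e⟩ | ⟨hA, hB, e⟩ | ⟨hB, h3', e⟩ <;>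
  rcases hlo_cases w1 w2 w3 n1 n2 n3 (-X) h1 h2 h3 hX' with ⟨hA', e'⟩ | ⟨hA', hB', e'⟩ |
    ⟨hB', h3'', e'⟩
  · apply key w1 _ h1
    have : w1 * (f + g) = - ((w1 * n2 - n1 * w2) + (w1 * n3 - n1 * w3)) := by
      linear_combination e + e'
    rw [this]; linarith
  · apply key (w1 * w2) _ (mul_pos h1 h2)
    have : w1 * w2 * (f + g) = -((w1 * n2 - n1 * w2) * (X - -((w1 + w2 + w3) / 2))) -
        w1 * (w2 * n3 - n2 * w3) := by
      linear_combination w2 * e + w1 * e'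
    rw [this]; linarith
  · apply key (w1 * w3) _ (mul_pos h1 h3'')
    have : w1 * w3 * (f + g) = -((w1 * n3 - n1 * w3) * (X - -((w1 + w2 + w3) / 2))) := by
      linear_combination w3 * e + w1 * e'
    rw [this]; linarith
  · apply key (w1 * w2) _ (mul_pos h1 h2)
    have : w1 * w2 * (f + g) = -((w1 * n2 - n1 * w2) * ((w1 + w2 + w3) / 2 - X)) -
        w1 * (w2 * n3 - n2 * w3) := by
      linear_combination w1 * e + w2 * e'
    rw [this]; linarith
  · apply key w2 _ h2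
    have : w2 * (f + g) = - ((w1 * n2 - n1 * w2) + (w2 * n3 - n2 * w3)) := by
      linear_combination e + e'
    rw [this]; linarith
  · apply key (w2 * w3) _ (mul_pos h2 h3'')
    have : w2 * w3 * (f + g) = -((w2 * n3 - n2 * w3) * (X - -((w1 + w2 + w3) / 2))) -
        w3 * (w1 * n2 - n1 * w2) := by
      linear_combination w3 * e + w2 * e'
    rw [this]; linarith
  · apply key (w1 * w3) _ (mul_pos h1 h3')
    have : w1 * w3 * (f + g) = -((w1 * n3 - n1 * w3) * ((w1 + w2 + w3) / 2 - X)) := by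
      linear_combination w1 * e + w3 * e'
    rw [this]; linarith
  · apply key (w2 * w3) _ (mul_pos h2 h3')
    have : w2 * w3 * (f + g) = -((w2 * n3 - n2 * w3) * ((w1 + w2 + w3) / 2 - X)) -
        w3 * (w1 * n2 - n1 * w2) := by
      linear_combination w2 * e + w3 * e'
    rw [this]; linarith
  · apply key w3 _ h3'
    have : w3 * (f + g) = - ((w1 * n3 - n1 * w3) + (w2 * n3 - n2 * w3)) := by
      linear_combination e + e'
    rw [this]; linarith

/-- The real form of the description by chains. -/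
theorem real_mem (w1 w2 w3 n1 n2 n3 X Y : ℝ) (h1 : 0 < w1) (h2 : 0 < w2) (h3 : 0 ≤ w3)
    (d12 : 0 < w1 * n2 - n1 * w2) (d13 : 0 < w1 * n3 - n1 * w3) (d23 : 0 < w2 * n3 - n2 * w3) :
    (|w1 * Y - n1 * X| ≤ ((w1 * n2 - n1 * w2) + (w1 * n3 - n1 * w3)) / 2 ∧
      |w2 * Y - n2 * X| ≤ ((w1 * n2 - n1 * w2) + (w2 * n3 - n2 * w3)) / 2 ∧
      |w3 * Y - n3 * X| ≤ ((w1 * n3 - n1 * w3) + (w2 * n3 - n2 * w3)) / 2) ↔
    (|X| ≤ (w1 + w2 + w3) / 2 ∧ hlo w1 w2 w3 n1 n2 n3 X ≤ Y ∧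
      Y ≤ -hlo w1 w2 w3 n1 n2 n3 (-X)) := by
  constructor
  · rintro ⟨i1, i2, i3⟩
    rw [abs_le] at i1 i2 i3
    have hX : |X| ≤ (w1 + w2 + w3) / 2 := by
      rw [abs_le]
      have j1 := mul_le_mul_of_nonneg_left i1.1 h3
      have j2 := mul_le_mul_of_nonneg_left i1.2 h3
      have j3 := mul_le_mul_of_nonneg_left i3.1 h1.le
      have j4 := mul_le_mul_of_nonneg_left i3.2 h1.le
      constructor
      · have : (w1 * n3 - n1 * w3) * (-((w1 + w2 + w3) / 2)) ≤ (w1 * n3 - n1 * w3) * X := by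
          linarith
        exact le_of_mul_le_mul_left this d13
      · have : (w1 * n3 - n1 * w3) * X ≤ (w1 * n3 - n1 * w3) * ((w1 + w2 + w3) / 2) := by
          linarith
        exact le_of_mul_le_mul_left this d13
    have hX' : |(-X)| ≤ (w1 + w2 + w3) / 2 := by rw [abs_neg]; exact hX
    refine ⟨hX, ?_, ?_⟩
    · rcases hlo_cases w1 w2 w3 n1 n2 n3 X h1 h2 h3 hX with ⟨hA, e⟩ | ⟨hA, hB, e⟩ | ⟨hB, h3', e⟩
      · apply le_of_mul_le_mul_left _ h1; linarith
      · apply le_of_mul_le_mul_left _ h2; linarith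
      · apply le_of_mul_le_mul_left _ h3'; linarith
    · rcases hlo_cases w1 w2 w3 n1 n2 n3 (-X) h1 h2 h3 hX' with ⟨hA, e⟩ | ⟨hA, hB, e⟩ |
        ⟨hB, h3', e⟩
      · apply le_of_mul_le_mul_left _ h1; linarith
      · apply le_of_mul_le_mul_left _ h2; linarith
      · apply le_of_mul_le_mul_left _ h3'; linarith
  · rintro ⟨hX, hl, hu⟩
    have hX' : |(-X)| ≤ (w1 + w2 + w3) / 2 := by rw [abs_neg]; exact hX
    obtain ⟨k1, k2, k3⟩ := hlo_ge w1 w2 w3 n1 n2 n3 X h1 h2 h3 d12 d13 d23 hX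
    obtain ⟨l1, l2, l3⟩ := hlo_ge w1 w2 w3 n1 n2 n3 (-X) h1 h2 h3 d12 d13 d23 hX'
    have m1 := mul_le_mul_of_nonneg_left hl h1.le
    have m2 := mul_le_mul_of_nonneg_left hl h2.le
    have m3 := mul_le_mul_of_nonneg_left hl h3
    have q1 := mul_le_mul_of_nonneg_left hu h1.le
    have q2 := mul_le_mul_of_nonneg_left hu h2.le
    have q3 := mul_le_mul_of_nonneg_left hu h3
    refine ⟨abs_le.2 ⟨?_, ?_⟩, abs_le.2 ⟨?_, ?_⟩, abs_le.2 ⟨?_, ?_⟩⟩ <;> linarith

/-- The strict real form of the description by chains. -/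
theorem real_int (w1 w2 w3 n1 n2 n3 X Y : ℝ) (h1 : 0 < w1) (h2 : 0 < w2) (h3 : 0 ≤ w3)
    (d12 : 0 < w1 * n2 - n1 * w2) (d13 : 0 < w1 * n3 - n1 * w3) (d23 : 0 < w2 * n3 - n2 * w3) :
    (|w1 * Y - n1 * X| < ((w1 * n2 - n1 * w2) + (w1 * n3 - n1 * w3)) / 2 ∧
      |w2 * Y - n2 * X| < ((w1 * n2 - n1 * w2) + (w2 * n3 - n2 * w3)) / 2 ∧
      |w3 * Y - n3 * X| < ((w1 * n3 - n1 * w3) + (w2 * n3 - n2 * w3)) / 2) ↔
    (|X| < (w1 + w2 + w3) / 2 ∧ hlo w1 w2 w3 n1 n2 n3 X < Y ∧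
      Y < -hlo w1 w2 w3 n1 n2 n3 (-X)) := by
  constructor
  · rintro ⟨i1, i2, i3⟩
    rw [abs_lt] at i1 i2 i3
    have hX : |X| < (w1 + w2 + w3) / 2 := by
      rw [abs_lt]
      have j1 := mul_le_mul_of_nonneg_left i1.1.le h3
      have j2 := mul_le_mul_of_nonneg_left i1.2.le h3
      have j3 := mul_lt_mul_of_pos_left i3.1 h1
      have j4 := mul_lt_mul_of_pos_left i3.2 h1
      constructor
      · have : (w1 * n3 - n1 * w3) * (-((w1 + w2 + w3) / 2)) < (w1 * n3 - n1 * w3) * X := by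
          linarith
        exact lt_of_mul_lt_mul_left this d13.le
      · have : (w1 * n3 - n1 * w3) * X < (w1 * n3 - n1 * w3) * ((w1 + w2 + w3) / 2) := by
          linarith
        exact lt_of_mul_lt_mul_left this d13.le
    have hX' : |(-X)| ≤ (w1 + w2 + w3) / 2 := by rw [abs_neg]; exact hX.le
    refine ⟨hX, ?_, ?_⟩
    · rcases hlo_cases w1 w2 w3 n1 n2 n3 X h1 h2 h3 hX.le with ⟨hA, e⟩ | ⟨hA, hB, e⟩ |
        ⟨hB, h3', e⟩
      · apply lt_of_mul_lt_mul_left _ h1.le; linarith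
      · apply lt_of_mul_lt_mul_left _ h2.le; linarith
      · apply lt_of_mul_lt_mul_left _ h3; linarith
    · rcases hlo_cases w1 w2 w3 n1 n2 n3 (-X) h1 h2 h3 hX' with ⟨hA, e⟩ | ⟨hA, hB, e⟩ |
        ⟨hB, h3', e⟩
      · apply lt_of_mul_lt_mul_left _ h1.le; linarith
      · apply lt_of_mul_lt_mul_left _ h2.le; linarith
      · apply lt_of_mul_lt_mul_left _ h3; linarith
  · rintro ⟨hX, hl, hu⟩
    have hX' : |(-X)| ≤ (w1 + w2 + w3) / 2 := by rw [abs_neg]; exact hX.le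
    obtain ⟨k1, k2, k3⟩ := hlo_ge w1 w2 w3 n1 n2 n3 X h1 h2 h3 d12 d13 d23 hX.le
    obtain ⟨l1, l2, l3⟩ := hlo_ge w1 w2 w3 n1 n2 n3 (-X) h1 h2 h3 d12 d13 d23 hX'
    have m1 := mul_lt_mul_of_pos_left hl h1
    have m2 := mul_lt_mul_of_pos_left hl h2
    have q1 := mul_lt_mul_of_pos_left hu h1
    have q2 := mul_lt_mul_of_pos_left hu h2
    refine ⟨abs_lt.2 ⟨?_, ?_⟩, abs_lt.2 ⟨?_, ?_⟩, ?_⟩
    · linarith
    · linarith
    · linarith
    · linarith
    rcases h3.lt_or_eq with h3' | h3'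
    · have m3 := mul_lt_mul_of_pos_left hl h3'
      have q3 := mul_lt_mul_of_pos_left hu h3'
      refine abs_lt.2 ⟨?_, ?_⟩ <;> linarith
    · obtain ⟨hXl, hXr⟩ := abs_lt.1 hX
      subst h3'
      have hn3 : 0 < n3 := by
        have : 0 < w1 * n3 := by linarith
        exact (pos_iff_pos_of_mul_pos this).1 h1
      have m3 := mul_lt_mul_of_pos_left hXl hn3
      have q3 := mul_lt_mul_of_pos_left hXr hn3
      refine abs_lt.2 ⟨?_, ?_⟩ <;> linarith

end HMem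

open HMem in
theorem hmem_proof (H : Stmt_HIneq) : Stmt_HMem := by
  intro u n z g1 g2 g3 lo up h hc hh hlo' hup'
  subst hh hlo' hup'
  have hor := hc.or
  have c12 := cr_eq u n g1 g2 hor
  have c13 := cr_eq u n g1 g3 hor
  have c23 := cr_eq u n g2 g3 hor
  have d12 : 0 < ⟪u, g1⟫ * ⟪n, g2⟫ - ⟪n, g1⟫ * ⟪u, g2⟫ := c12 ▸ hc.pos.p12
  have d13 : 0 < ⟪u, g1⟫ * ⟪n, g3⟫ - ⟪n, g1⟫ * ⟪u, g3⟫ := c13 ▸ hc.pos.p13
  have d23 : 0 < ⟪u, g2⟫ * ⟪n, g3⟫ - ⟪n, g2⟫ * ⟪u, g3⟫ := c23 ▸ hc.pos.p23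
  have cz : ∀ g p : E, cr g (p - z) =
      ⟪u, g⟫ * (⟪n, p⟫ - ⟪n, z⟫) - ⟪n, g⟫ * (⟪u, p⟫ - ⟪u, z⟫) := fun g p => by
    rw [cr_eq u n g (p - z) hor, inner_sub_right, inner_sub_right]
  obtain ⟨H1, H2⟩ := H z g1 g2 g3 hc.pos
  refine ⟨fun p => ?_, fun p => ?_, fun t ht => ?_⟩
  · rw [H1 p, cz, cz, cz, c12, c13, c23, real_mem _ _ _ _ _ _ _ _ hc.w1 hc.w2 hc.w3 d12 d13 d23]
    constructor
    · rintro ⟨a, b, c⟩
      exact ⟨a, by dsimp only; linarith, by dsimp only; linarith⟩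
    · rintro ⟨a, b, c⟩
      dsimp only at b c
      exact ⟨a, by linarith, by linarith⟩
  · rw [H2 p, cz, cz, cz, c12, c13, c23, real_int _ _ _ _ _ _ _ _ hc.w1 hc.w2 hc.w3 d12 d13 d23]
    constructor
    · rintro ⟨a, b, c⟩
      exact ⟨a, by dsimp only; linarith, by dsimp only; linarith⟩
    · rintro ⟨a, b, c⟩
      dsimp only at b c
      exact ⟨a, by linarith, by linarith⟩
  · have := hlo_lt _ _ _ _ _ _ t hc.w1 hc.w2 hc.w3 d12 d13 d23 ht
    dsimp only
    linarith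

end Pool.Agent.LFT
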