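import Pool.Agent.LFT.HBasic

/-!
# Module HPath: ways along the boundary of a hexagon in canonical position (MP_9c589f_co)
-/

namespace Pool.Agent.LFT

open MeasureTheory Set
open scoped RealInnerProductSpace ENNReal

namespace HPath

lemma rev {F : Set E} {p q : E} {L : ℝ} (h : PathIn F p q L) : PathIn F q p L := by
  induction h with
  | seg p q hs =>
    rw [dist_comm]
    exact PathIn.seg q p (by rw [segment_symm]; exact hs)
  | trans _ _ ih1 ih2 =>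
    rw [add_comm]
    exact PathIn.trans ih2 ih1

lemma refl_path {F : Set E} {z : E} (hF : ∀ p ∈ F, z + z - p ∈ F) {p q : E} {L : ℝ}
    (h : PathIn F p q L) : PathIn F (z + z - p) (z + z - q) L := by
  induction h with
  | seg p q hs =>
    have hd : dist p q = dist (z + z - p) (z + z - q) := by
      rw [dist_sub_left]
    rw [hd]
    apply PathIn.seg
    intro x hx
    have h1 : z + z - x ∈ segment ℝ p q := by
      obtain ⟨a, b, ha, hb, hab, rfl⟩ := hx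
      refine ⟨a, b, ha, hb, hab, ?_⟩
      have hb' : b = 1 - a := by linarith
      subst hb'
      module
    have h2 := hF _ (hs h1)
    have h3 : z + z - (z + z - x) = x := by abel
    rwa [h3] at h2
  | trans _ _ ih1 ih2 => exact PathIn.trans ih1 ih2

lemma on_expand {u n : E} (h : ON u n) (p : E) : ⟪u, p⟫ • u + ⟪n, p⟫ • n = p := by
  obtain ⟨hu, hn, hun⟩ := h
  have hun' : ⟪n, u⟫ = 0 := by rw [real_inner_comm]; exact hun
  have ho : Orthonormal ℝ ![u, n] := by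
    rw [orthonormal_iff_ite]
    intro i j
    fin_cases i <;> fin_cases j <;> simp [hu, hn, hun, hun']
  have hc : Fintype.card (Fin 2) = Module.finrank ℝ E := by simp
  let b := basisOfOrthonormalOfCardEqFinrank ho hc
  have hb : ⇑b = ![u, n] := coe_basisOfOrthonormalOfCardEqFinrank ho hc
  let B : OrthonormalBasis (Fin 2) ℝ E := b.toOrthonormalBasis (by rw [hb]; exact ho)
  have hB : ⇑B = ![u, n] := by
    simp only [B, Module.Basis.coe_toOrthonormalBasis, hb]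
  have := B.sum_repr' p
  rw [hB] at this
  simpa [Fin.sum_univ_two] using this

/-- boundary parametrisation -/
noncomputable def V (z g1 g2 g3 : E) (s1 s2 s3 : ℝ) : E :=
  z + (s1 - 1 / 2) • g1 + (s2 - 1 / 2) • g2 + (s3 - 1 / 2) • g3

lemma mem_hex (z g1 g2 g3 : E) {s1 s2 s3 : ℝ} (h1 : s1 ∈ Icc (0 : ℝ) 1) (h2 : s2 ∈ Icc (0 : ℝ) 1)
    (h3 : s3 ∈ Icc (0 : ℝ) 1) : V z g1 g2 g3 s1 s2 s3 ∈ Hex z g1 g2 g3 := by
  refine ⟨s1 - 1 / 2, s2 - 1 / 2, s3 - 1 / 2, ?_, ?_, ?_, rfl⟩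
  · rw [abs_le]; constructor <;> linarith [h1.1, h1.2]
  · rw [abs_le]; constructor <;> linarith [h2.1, h2.2]
  · rw [abs_le]; constructor <;> linarith [h3.1, h3.2]

lemma cr_V (z g1 g2 g3 g : E) (s1 s2 s3 : ℝ) :
    cr g (V z g1 g2 g3 s1 s2 s3 - z) =
      (s1 - 1 / 2) * cr g g1 + (s2 - 1 / 2) * cr g g2 + (s3 - 1 / 2) * cr g g3 := by
  have h : V z g1 g2 g3 s1 s2 s3 - z =
      (s1 - 1 / 2) • g1 + (s2 - 1 / 2) • g2 + (s3 - 1 / 2) • g3 := by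
    unfold V
    abel
  rw [h, HBasic.cr_add_right, HBasic.cr_add_right, HBasic.cr_smul_right, HBasic.cr_smul_right,
    HBasic.cr_smul_right]

section

variable (hI : Stmt_HIneq) {z g1 g2 g3 : E} (hp : Pos3 g1 g2 g3)

include hI hp

lemma isClosed_hex : IsClosed (Hex z g1 g2 g3) := by
  have h : Hex z g1 g2 g3 = {p | |cr g1 (p - z)| ≤ (cr g1 g2 + cr g1 g3) / 2} ∩
      ({p | |cr g2 (p - z)| ≤ (cr g1 g2 + cr g2 g3) / 2} ∩
        {p | |cr g3 (p - z)| ≤ (cr g1 g3 + cr g2 g3) / 2}) := by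
    ext p
    rw [(hI z g1 g2 g3 hp).1 p]
    rfl
  have hc : ∀ g : E, Continuous (fun p => |cr g (p - z)|) := by
    intro g
    exact ((HBasic.cr_continuous g).comp (continuous_id.sub continuous_const)).abs
  rw [h]
  exact (isClosed_le (hc g1) continuous_const).inter
    ((isClosed_le (hc g2) continuous_const).inter (isClosed_le (hc g3) continuous_const))

lemma mem_fr {p : E} : p ∈ frontier (Hex z g1 g2 g3) ↔
    p ∈ Hex z g1 g2 g3 ∧ p ∉ interior (Hex z g1 g2 g3) := by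
  rw [(isClosed_hex hI hp).frontier_eq]
  rfl

lemma e1 {s : ℝ} (hs : s ∈ Icc (0 : ℝ) 1) : V z g1 g2 g3 s 0 0 ∈ frontier (Hex z g1 g2 g3) := by
  rw [mem_fr hI hp]
  refine ⟨mem_hex _ _ _ _ hs (by simp) (by simp), ?_⟩
  rw [(hI z g1 g2 g3 hp).2]
  rintro ⟨h, -, -⟩
  rw [cr_V, HBasic.cr_self, abs_lt] at h
  linarith [h.1]

lemma e2 {s : ℝ} (hs : s ∈ Icc (0 : ℝ) 1) : V z g1 g2 g3 1 s 0 ∈ frontier (Hex z g1 g2 g3) := by
  rw [mem_fr hI hp]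
  refine ⟨mem_hex _ _ _ _ (by simp) hs (by simp), ?_⟩
  rw [(hI z g1 g2 g3 hp).2]
  rintro ⟨-, h, -⟩
  rw [cr_V, HBasic.cr_self, abs_lt, HBasic.cr_anti g2 g1] at h
  linarith [h.1]

lemma e3 {s : ℝ} (hs : s ∈ Icc (0 : ℝ) 1) : V z g1 g2 g3 1 1 s ∈ frontier (Hex z g1 g2 g3) := by
  rw [mem_fr hI hp]
  refine ⟨mem_hex _ _ _ _ (by simp) (by simp) hs, ?_⟩
  rw [(hI z g1 g2 g3 hp).2]
  rintro ⟨-, -, h⟩
  rw [cr_V, HBasic.cr_self, abs_lt, HBasic.cr_anti g3 g1, HBasic.cr_anti g3 g2] at h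
  linarith [h.1]

omit hI hp in
lemma segpath {F : Set E} {γ : ℝ → E} {g : E} (hγ : ∀ s t : ℝ, γ s - γ t = (s - t) • g)
    (hF : ∀ s ∈ Icc (0 : ℝ) 1, γ s ∈ F) {s t : ℝ} (hs : s ∈ Icc (0 : ℝ) 1)
    (ht : t ∈ Icc (0 : ℝ) 1) : PathIn F (γ s) (γ t) (‖g‖ * |s - t|) := by
  have hd : ‖g‖ * |s - t| = dist (γ s) (γ t) := by
    rw [dist_eq_norm, hγ, norm_smul, Real.norm_eq_abs, mul_comm]
  rw [hd]
  apply PathIn.seg
  rintro x ⟨a, b, ha, hb, hab, rfl⟩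
  have h1 : a • γ s + b • γ t = γ (a * s + b * t) := by
    have h2 := hγ (a * s + b * t) t
    have h3 := hγ s t
    have h4 : γ s = (s - t) • g + γ t := by rw [← h3]; abel
    have h5 : γ (a * s + b * t) = (a * s + b * t - t) • g + γ t := by rw [← h2]; abel
    rw [h5, h4]
    have hb' : b = 1 - a := by linarith
    subst hb'
    module
  rw [h1]
  apply hF
  have := convex_Icc (0 : ℝ) 1 hs ht ha hb hab
  simpa [smul_eq_mul] using this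

lemma p1 {s t : ℝ} (hs : s ∈ Icc (0 : ℝ) 1) (ht : t ∈ Icc (0 : ℝ) 1) :
    PathIn (frontier (Hex z g1 g2 g3)) (V z g1 g2 g3 s 0 0) (V z g1 g2 g3 t 0 0)
      (‖g1‖ * |s - t|) := by
  apply segpath (γ := fun s => V z g1 g2 g3 s 0 0) (fun s t => ?_) (fun s hs => e1 hI hp hs) hs ht
  simp only [V]
  module

lemma p2 {s t : ℝ} (hs : s ∈ Icc (0 : ℝ) 1) (ht : t ∈ Icc (0 : ℝ) 1) :
    PathIn (frontier (Hex z g1 g2 g3)) (V z g1 g2 g3 1 s 0) (V z g1 g2 g3 1 t 0)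
      (‖g2‖ * |s - t|) := by
  apply segpath (γ := fun s => V z g1 g2 g3 1 s 0) (fun s t => ?_) (fun s hs => e2 hI hp hs) hs ht
  simp only [V]
  module

lemma p3 {s t : ℝ} (hs : s ∈ Icc (0 : ℝ) 1) (ht : t ∈ Icc (0 : ℝ) 1) :
    PathIn (frontier (Hex z g1 g2 g3)) (V z g1 g2 g3 1 1 s) (V z g1 g2 g3 1 1 t)
      (‖g3‖ * |s - t|) := by
  apply segpath (γ := fun s => V z g1 g2 g3 1 1 s) (fun s t => ?_) (fun s hs => e3 hI hp hs) hs ht
  simp only [V]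
  module

omit hI hp in
lemma triv {F : Set E} {p : E} (h : p ∈ F) : PathIn F p p 0 := by
  have := PathIn.seg (F := F) p p (by simpa [segment_same] using h)
  rwa [dist_self] at this

/-- the parameters of a point of the lower chain -/
structure Ch (s1 s2 s3 : ℝ) : Prop where
  m1 : s1 ∈ Icc (0 : ℝ) 1
  m2 : s2 ∈ Icc (0 : ℝ) 1
  m3 : s3 ∈ Icc (0 : ℝ) 1
  c12 : s1 = 1 ∨ s2 = 0
  c23 : s2 = 1 ∨ s3 = 0

lemma mem_ch {s1 s2 s3 : ℝ} (hc : Ch s1 s2 s3) :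
    V z g1 g2 g3 s1 s2 s3 ∈ frontier (Hex z g1 g2 g3) := by
  rcases hc.c12 with h | h
  · rcases hc.c23 with h' | h'
    · rw [h, h']; exact e3 hI hp hc.m3
    · rw [h, h']; exact e2 hI hp hc.m2
  · rcases hc.c23 with h' | h'
    · rw [h] at h'; norm_num at h'
    · rw [h, h']; exact e1 hI hp hc.m1

lemma right {s1 s2 s3 : ℝ} (hc : Ch s1 s2 s3) :
    PathIn (frontier (Hex z g1 g2 g3)) (V z g1 g2 g3 s1 s2 s3) (V z g1 g2 g3 1 1 1)
      (‖g1‖ * (1 - s1) + ‖g2‖ * (1 - s2) + ‖g3‖ * (1 - s3)) := by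
  have h0 : (0 : ℝ) ∈ Icc (0 : ℝ) 1 := by simp
  have h1 : (1 : ℝ) ∈ Icc (0 : ℝ) 1 := by simp
  have hc1 : Ch 1 s2 s3 := ⟨h1, hc.m2, hc.m3, Or.inl rfl, hc.c23⟩
  have hc2 : Ch 1 1 s3 := ⟨h1, h1, hc.m3, Or.inl rfl, Or.inl rfl⟩
  have a1 : PathIn (frontier (Hex z g1 g2 g3)) (V z g1 g2 g3 s1 s2 s3) (V z g1 g2 g3 1 s2 s3)
      (‖g1‖ * (1 - s1)) := by
    rcases hc.c12 with h | h
    · rw [h, sub_self, mul_zero]
      exact triv (mem_ch hI hp hc1)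
    · rcases hc.c23 with h' | h'
      · rw [h] at h'; norm_num at h'
      · rw [h, h']
        have := p1 hI hp (z := z) hc.m1 h1
        rwa [abs_of_nonpos (by linarith [hc.m1.2]), neg_sub] at this
  have a2 : PathIn (frontier (Hex z g1 g2 g3)) (V z g1 g2 g3 1 s2 s3) (V z g1 g2 g3 1 1 s3)
      (‖g2‖ * (1 - s2)) := by
    rcases hc.c23 with h' | h'
    · rw [h', sub_self, mul_zero]
      exact triv (mem_ch hI hp hc2)
    · rw [h']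
      have := p2 hI hp (z := z) hc.m2 h1
      rwa [abs_of_nonpos (by linarith [hc.m2.2]), neg_sub] at this
  have a3 : PathIn (frontier (Hex z g1 g2 g3)) (V z g1 g2 g3 1 1 s3) (V z g1 g2 g3 1 1 1)
      (‖g3‖ * (1 - s3)) := by
    have := p3 hI hp (z := z) hc.m3 h1
    rwa [abs_of_nonpos (by linarith [hc.m3.2]), neg_sub] at this
  exact (a1.trans a2).trans a3

lemma left {s1 s2 s3 : ℝ} (hc : Ch s1 s2 s3) :
    PathIn (frontier (Hex z g1 g2 g3)) (V z g1 g2 g3 s1 s2 s3) (V z g1 g2 g3 0 0 0)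
      (‖g3‖ * s3 + ‖g2‖ * s2 + ‖g1‖ * s1) := by
  have h0 : (0 : ℝ) ∈ Icc (0 : ℝ) 1 := by simp
  have h1 : (1 : ℝ) ∈ Icc (0 : ℝ) 1 := by simp
  have hc1 : Ch s1 s2 0 := ⟨hc.m1, hc.m2, h0, hc.c12, Or.inr rfl⟩
  have hc2 : Ch s1 0 0 := ⟨hc.m1, h0, h0, Or.inr rfl, Or.inr rfl⟩
  have a1 : PathIn (frontier (Hex z g1 g2 g3)) (V z g1 g2 g3 s1 s2 s3) (V z g1 g2 g3 s1 s2 0)
      (‖g3‖ * s3) := by
    rcases hc.c23 with h | h
    · rcases hc.c12 with h' | h'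
      · rw [h, h']
        have := p3 hI hp (z := z) hc.m3 h0
        rwa [abs_of_nonneg (by linarith [hc.m3.1]), sub_zero] at this
      · rw [h] at h'; norm_num at h'
    · rw [h, mul_zero]
      exact triv (mem_ch hI hp hc1)
  have a2 : PathIn (frontier (Hex z g1 g2 g3)) (V z g1 g2 g3 s1 s2 0) (V z g1 g2 g3 s1 0 0)
      (‖g2‖ * s2) := by
    rcases hc.c12 with h | h
    · rw [h]
      have := p2 hI hp (z := z) hc.m2 h0
      rwa [abs_of_nonneg (by linarith [hc.m2.1]), sub_zero] at this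
    · rw [h, mul_zero]
      exact triv (mem_ch hI hp hc2)
  have a3 : PathIn (frontier (Hex z g1 g2 g3)) (V z g1 g2 g3 s1 0 0) (V z g1 g2 g3 0 0 0)
      (‖g1‖ * s1) := by
    have := p1 hI hp (z := z) hc.m1 h0
    rwa [abs_of_nonneg (by linarith [hc.m1.1]), sub_zero] at this
  exact (a1.trans a2).trans a3

lemma fr_refl {p : E} (h : p ∈ frontier (Hex z g1 g2 g3)) :
    z + z - p ∈ frontier (Hex z g1 g2 g3) := by
  rw [mem_fr hI hp, (hI z g1 g2 g3 hp).1, (hI z g1 g2 g3 hp).2] at h ⊢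
  have hz : ∀ g : E, |cr g (z + z - p - z)| = |cr g (p - z)| := by
    intro g
    have h1 : z + z - p - z = (-1 : ℝ) • (p - z) := by module
    rw [h1, HBasic.cr_smul_right, abs_mul]
    norm_num
  rw [hz, hz, hz]
  exact h

end

/-! the clamp -/

lemma cl_mem (x : ℝ) : cl x ∈ Icc (0 : ℝ) 1 := by
  unfold cl
  constructor
  · exact le_max_left _ _
  · exact max_le zero_le_one (min_le_left _ _)

lemma cl_of_le {x : ℝ} (h : x ≤ 0) : cl x = 0 := by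
  unfold cl
  rw [min_eq_right (by linarith), max_eq_left h]

lemma cl_of_ge {x : ℝ} (h : 1 ≤ x) : cl x = 1 := by
  unfold cl
  rw [min_eq_left h, max_eq_right zero_le_one]

lemma cl_of_mem {x : ℝ} (h : x ∈ Icc (0 : ℝ) 1) : cl x = x := by
  unfold cl
  rw [min_eq_right h.2, max_eq_right h.1]

lemma ch_of {w1 w2 w3 t : ℝ} (h1 : 0 < w1) (h2 : 0 < w2) (h3 : 0 ≤ w3) :
    Ch (sA w1 w2 w3 t) (sB w1 w2 w3 t) (sC w1 w2 w3 t) := by
  refine ⟨cl_mem _, cl_mem _, cl_mem _, ?_, ?_⟩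
  · rcases le_total (t + (w1 + w2 + w3) / 2) w1 with h | h
    · right
      exact cl_of_le (div_nonpos_of_nonpos_of_nonneg (by linarith) h2.le)
    · left
      exact cl_of_ge ((one_le_div h1).2 h)
  · rcases le_total (t + (w1 + w2 + w3) / 2 - w1) w2 with h | h
    · right
      exact cl_of_le (div_nonpos_of_nonpos_of_nonneg (by linarith) h3)
    · left
      exact cl_of_ge ((one_le_div h2).2 h)

lemma sum_eq {w1 w2 w3 t : ℝ} (h1 : 0 < w1) (h2 : 0 < w2) (h3 : 0 ≤ w3)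
    (ht : |t| ≤ (w1 + w2 + w3) / 2) :
    sA w1 w2 w3 t * w1 + sB w1 w2 w3 t * w2 + sC w1 w2 w3 t * w3 = t + (w1 + w2 + w3) / 2 := by
  have ht1 := (abs_le.1 ht).1
  have ht2 := (abs_le.1 ht).2
  unfold sA sB sC
  rcases le_total (t + (w1 + w2 + w3) / 2) w1 with h | h
  · rw [cl_of_mem ⟨div_nonneg (by linarith) h1.le, (div_le_one h1).2 h⟩,
      cl_of_le (div_nonpos_of_nonpos_of_nonneg (by linarith) h2.le),
      cl_of_le (div_nonpos_of_nonpos_of_nonneg (by linarith) h3), div_mul_cancel₀ _ h1.ne']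
    ring
  · rw [cl_of_ge ((one_le_div h1).2 h)]
    rcases le_total (t + (w1 + w2 + w3) / 2 - w1) w2 with h' | h'
    · rw [cl_of_mem ⟨div_nonneg (by linarith) h2.le, (div_le_one h2).2 h'⟩,
        cl_of_le (div_nonpos_of_nonpos_of_nonneg (by linarith) h3), div_mul_cancel₀ _ h2.ne']
      ring
    · rw [cl_of_ge ((one_le_div h2).2 h')]
      rcases h3.eq_or_lt with h3' | h3'
      · rw [← h3'] at h' ht2 ⊢
        linarith
      · rw [cl_of_mem ⟨div_nonneg (by linarith) h3'.le, (div_le_one h3').2 (by linarith)⟩,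
          div_mul_cancel₀ _ h3'.ne']
        ring

lemma plo_eq {u n z g1 g2 g3 : E} {t : ℝ} (hC : Canon u n g1 g2 g3)
    (ht : |t| ≤ (⟪u, g1⟫ + ⟪u, g2⟫ + ⟪u, g3⟫) / 2) :
    Plo u n z g1 g2 g3 t = V z g1 g2 g3 (sA ⟪u, g1⟫ ⟪u, g2⟫ ⟪u, g3⟫ t)
      (sB ⟪u, g1⟫ ⟪u, g2⟫ ⟪u, g3⟫ t) (sC ⟪u, g1⟫ ⟪u, g2⟫ ⟪u, g3⟫ t) := by
  rw [← on_expand hC.on (V z g1 g2 g3 _ _ _)]
  have hs := sum_eq hC.w1 hC.w2 hC.w3 ht
  unfold Plo pt
  congr 2
  · simp only [V, inner_add_right, inner_smul_right]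
    linarith
  · simp only [V, inner_add_right, inner_smul_right, hlo]
    ring

lemma pup_eq {u n z g1 g2 g3 : E} {t : ℝ} (hC : Canon u n g1 g2 g3) :
    Pup u n z g1 g2 g3 t = z + z - Plo u n z g1 g2 g3 (-t) := by
  have h1 := on_expand hC.on z
  have h2 : z + z - Plo u n z g1 g2 g3 (-t) = (⟪u, z⟫ • u + ⟪n, z⟫ • n) +
      (⟪u, z⟫ • u + ⟪n, z⟫ • n) - Plo u n z g1 g2 g3 (-t) := by rw [h1]
  rw [h2]
  unfold Pup Plo pt
  module

lemma V_one (z g1 g2 g3 : E) : V z g1 g2 g3 1 1 1 = z + (1 / 2 : ℝ) • (g1 + g2 + g3) := by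
  unfold V
  module

lemma V_zero (z g1 g2 g3 : E) : V z g1 g2 g3 0 0 0 = z - (1 / 2 : ℝ) • (g1 + g2 + g3) := by
  unfold V
  module

end HPath

open HPath in
theorem hpath_proof (hI : Stmt_HIneq) : Stmt_HPath := by
  intro u n z g1 g2 g3 t hC ht
  have hp := hC.pos
  have hR : ∀ t : ℝ, |t| ≤ (⟪u, g1⟫ + ⟪u, g2⟫ + ⟪u, g3⟫) / 2 →
      PathIn (frontier (Hex z g1 g2 g3)) (Plo u n z g1 g2 g3 t) (z + (1 / 2 : ℝ) • (g1 + g2 + g3))
      (‖g1‖ + ‖g2‖ + ‖g3‖ - hl ⟪u, g1⟫ ⟪u, g2⟫ ⟪u, g3⟫ ‖g1‖ ‖g2‖ ‖g3‖ t) := by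
    intro t ht
    have h := right hI hp (z := z) (ch_of (t := t) hC.w1 hC.w2 hC.w3)
    rw [← plo_eq hC ht, V_one] at h
    have e : ‖g1‖ + ‖g2‖ + ‖g3‖ - hl ⟪u, g1⟫ ⟪u, g2⟫ ⟪u, g3⟫ ‖g1‖ ‖g2‖ ‖g3‖ t =
        ‖g1‖ * (1 - sA ⟪u, g1⟫ ⟪u, g2⟫ ⟪u, g3⟫ t) + ‖g2‖ * (1 - sB ⟪u, g1⟫ ⟪u, g2⟫ ⟪u, g3⟫ t) +
          ‖g3‖ * (1 - sC ⟪u, g1⟫ ⟪u, g2⟫ ⟪u, g3⟫ t) := by
      unfold hl
      ring
    rw [e]
    exact h
  have hL : ∀ t : ℝ, |t| ≤ (⟪u, g1⟫ + ⟪u, g2⟫ + ⟪u, g3⟫) / 2 →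
      PathIn (frontier (Hex z g1 g2 g3)) (Plo u n z g1 g2 g3 t) (z - (1 / 2 : ℝ) • (g1 + g2 + g3))
      (hl ⟪u, g1⟫ ⟪u, g2⟫ ⟪u, g3⟫ ‖g1‖ ‖g2‖ ‖g3‖ t) := by
    intro t ht
    have h := left hI hp (z := z) (ch_of (t := t) hC.w1 hC.w2 hC.w3)
    rw [← plo_eq hC ht, V_zero] at h
    have e : hl ⟪u, g1⟫ ⟪u, g2⟫ ⟪u, g3⟫ ‖g1‖ ‖g2‖ ‖g3‖ t =
        ‖g3‖ * sC ⟪u, g1⟫ ⟪u, g2⟫ ⟪u, g3⟫ t + ‖g2‖ * sB ⟪u, g1⟫ ⟪u, g2⟫ ⟪u, g3⟫ t +
          ‖g1‖ * sA ⟪u, g1⟫ ⟪u, g2⟫ ⟪u, g3⟫ t := by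
      unfold hl
      ring
    rw [e]
    exact h
  have ht' : |-t| ≤ (⟪u, g1⟫ + ⟪u, g2⟫ + ⟪u, g3⟫) / 2 := by rwa [abs_neg]
  refine ⟨hR t ht, hL t ht, ?_, ?_⟩
  · have h := rev (refl_path (z := z) (fun p h => fr_refl hI hp h) (hL (-t) ht'))
    rw [← pup_eq hC] at h
    have e : z + z - (z - (1 / 2 : ℝ) • (g1 + g2 + g3)) = z + (1 / 2 : ℝ) • (g1 + g2 + g3) := by
      abel
    rwa [e] at h
  · have h := rev (refl_path (z := z) (fun p h => fr_refl hI hp h) (hR (-t) ht'))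
    rw [← pup_eq hC] at h
    have e : z + z - (z + (1 / 2 : ℝ) • (g1 + g2 + g3)) = z - (1 / 2 : ℝ) • (g1 + g2 + g3) := by
      abel
    rwa [e] at h

end Pool.Agent.LFT
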