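import Pool.Agent.LFT.Stmts

/-!
# Hexagons: definitions and module statements (second hand-in of the squad LFT, MP_9c589f_co)
-/

namespace Pool.Agent.LFT

open MeasureTheory Set
open scoped RealInnerProductSpace ENNReal

/-- The cross product (determinant) of two plane vectors. -/
def cr (a b : E) : ℝ := a 0 * b 1 - a 1 * b 0

/-- The centrally symmetric hexagon with centre `z` and edge vectors `g1`, `g2`, `g3`. -/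
def Hex (z g1 g2 g3 : E) : Set E :=
  {p | ∃ s1 s2 s3 : ℝ, |s1| ≤ 1 / 2 ∧ |s2| ≤ 1 / 2 ∧ |s3| ≤ 1 / 2 ∧
    p = z + s1 • g1 + s2 • g2 + s3 • g3}

/-- The vectors `g1`, `g2`, `g3` are in counterclockwise order in an open half plane. -/
structure Pos3 (g1 g2 g3 : E) : Prop where
  p12 : 0 < cr g1 g2
  p23 : 0 < cr g2 g3
  p13 : 0 < cr g1 g3

/-- The mean value of `|v × p|` for `p` in the segment from `a` to `a + g`. -/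
noncomputable def mom (v a g : E) : ℝ := ∫ s in (0 : ℝ)..1, |cr v (a + s • g)|

/-- `(1/|K|) ∫_{∂K} |v × p| ds` for the hexagon `K` with centre `0` and edge vectors
`g1`, `g2`, `g3`: one half of the boundary is the polygon with vertices `-D/2`, `-D/2 + g1`,
`-D/2 + g1 + g2`, `D/2`, where `D = g1 + g2 + g3`. -/
noncomputable def NH (g1 g2 g3 v : E) : ℝ :=
  2 * (‖g1‖ * mom v (-(1 / 2 : ℝ) • (g1 + g2 + g3)) g1 +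
      ‖g2‖ * mom v (-(1 / 2 : ℝ) • (g1 + g2 + g3) + g1) g2 +
      ‖g3‖ * mom v (-(1 / 2 : ℝ) • (g1 + g2 + g3) + g1 + g2) g3) /
    (cr g1 g2 + cr g1 g3 + cr g2 g3)

/-! ### real functions for the detours around a hexagon in canonical position -/

/-- Clamp to `[0,1]`. -/
noncomputable def cl (x : ℝ) : ℝ := max 0 (min 1 x)

/-- The mean of `|x|` over the interval with ends `α`, `β`. -/
noncomputable def mabs (α β : ℝ) : ℝ := ∫ s in (0 : ℝ)..1, |α + s * (β - α)|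

/-- Fractions of the three edges of the lower chain lying to the left of the offset `t`; the edges
have horizontal extents `w1, w2 > 0`, `w3 ≥ 0` (for `w3 = 0` the third one is `0`). -/
noncomputable def sA (w1 w2 w3 t : ℝ) : ℝ := cl ((t + (w1 + w2 + w3) / 2) / w1)
/-- See `sA`. -/
noncomputable def sB (w1 w2 w3 t : ℝ) : ℝ := cl ((t + (w1 + w2 + w3) / 2 - w1) / w2)
/-- See `sA`. -/
noncomputable def sC (w1 w2 w3 t : ℝ) : ℝ := cl ((t + (w1 + w2 + w3) / 2 - w1 - w2) / w3)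

/-- Height of the lower chain relative to the centre; the edges have vertical extents `n1 n2 n3`. -/
noncomputable def hlo (w1 w2 w3 n1 n2 n3 t : ℝ) : ℝ :=
  -(n1 + n2 + n3) / 2 + sA w1 w2 w3 t * n1 + sB w1 w2 w3 t * n2 + sC w1 w2 w3 t * n3

/-- Length of the boundary of the hexagon beyond the offset `|t|`; edges of lengths `l1 l2 l3`. -/
noncomputable def hr (w1 w2 w3 l1 l2 l3 t : ℝ) : ℝ :=
  l1 * (1 - sA w1 w2 w3 |t| + sA w1 w2 w3 (-|t|)) +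
  l2 * (1 - sB w1 w2 w3 |t| + sB w1 w2 w3 (-|t|)) +
  l3 * (1 - sC w1 w2 w3 |t| + sC w1 w2 w3 (-|t|))

/-- HINT: integrals of the chord and of the detour. -/
def Stmt_HInt : Prop :=
  ∀ w1 w2 w3 n1 n2 n3 l1 l2 l3 h : ℝ, 0 < w1 → 0 < w2 → 0 ≤ w3 → h = (w1 + w2 + w3) / 2 →
    Continuous (hlo w1 w2 w3 n1 n2 n3) ∧ Continuous (hr w1 w2 w3 l1 l2 l3) ∧
    ∫ t in (-h)..h, (-hlo w1 w2 w3 n1 n2 n3 (-t) - hlo w1 w2 w3 n1 n2 n3 t) =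
      (w1 * n2 - w2 * n1) + (w1 * n3 - w3 * n1) + (w2 * n3 - w3 * n2) ∧
    ∫ t in (-h)..h, hr w1 w2 w3 l1 l2 l3 t =
      2 * (l1 * mabs (-h) (-h + w1) + l2 * mabs (-h + w1) (-h + w1 + w2) +
        l3 * mabs (-h + w1 + w2) h)

/-- HINEQ: a hexagon and its interior described by inequalities. -/
def Stmt_HIneq : Prop :=
  ∀ z g1 g2 g3 : E, Pos3 g1 g2 g3 →
    (∀ p, p ∈ Hex z g1 g2 g3 ↔ |cr g1 (p - z)| ≤ (cr g1 g2 + cr g1 g3) / 2 ∧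
      |cr g2 (p - z)| ≤ (cr g1 g2 + cr g2 g3) / 2 ∧ |cr g3 (p - z)| ≤ (cr g1 g3 + cr g2 g3) / 2) ∧
    (∀ p, p ∈ interior (Hex z g1 g2 g3) ↔ |cr g1 (p - z)| < (cr g1 g2 + cr g1 g3) / 2 ∧
      |cr g2 (p - z)| < (cr g1 g2 + cr g2 g3) / 2 ∧ |cr g3 (p - z)| < (cr g1 g3 + cr g2 g3) / 2)

/-- The hexagon is in canonical position with respect to the positively oriented orthonormal basis
`u`, `n`: going from left to right the lower chain has the edges `g1`, `g2`, `g3`. -/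
structure Canon (u n g1 g2 g3 : E) : Prop where
  on : ON u n
  or : cr u n = 1
  pos : Pos3 g1 g2 g3
  w1 : 0 < ⟪u, g1⟫
  w2 : 0 < ⟪u, g2⟫
  w3 : 0 ≤ ⟪u, g3⟫

/-- HMEM: hexagon in canonical position, description by the lower and upper chain. -/
def Stmt_HMem : Prop :=
  ∀ (u n z g1 g2 g3 : E) (lo up : ℝ → ℝ) (h : ℝ), Canon u n g1 g2 g3 →
    h = (⟪u, g1⟫ + ⟪u, g2⟫ + ⟪u, g3⟫) / 2 →
    lo = (fun t => ⟪n, z⟫ + hlo ⟪u, g1⟫ ⟪u, g2⟫ ⟪u, g3⟫ ⟪n, g1⟫ ⟪n, g2⟫ ⟪n, g3⟫ t) →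
    up = (fun t => ⟪n, z⟫ - hlo ⟪u, g1⟫ ⟪u, g2⟫ ⟪u, g3⟫ ⟪n, g1⟫ ⟪n, g2⟫ ⟪n, g3⟫ (-t)) →
    (∀ p, p ∈ Hex z g1 g2 g3 ↔ |⟪u, p⟫ - ⟪u, z⟫| ≤ h ∧ lo (⟪u, p⟫ - ⟪u, z⟫) ≤ ⟪n, p⟫ ∧
      ⟪n, p⟫ ≤ up (⟪u, p⟫ - ⟪u, z⟫)) ∧
    (∀ p, p ∈ interior (Hex z g1 g2 g3) ↔ |⟪u, p⟫ - ⟪u, z⟫| < h ∧
      lo (⟪u, p⟫ - ⟪u, z⟫) < ⟪n, p⟫ ∧ ⟪n, p⟫ < up (⟪u, p⟫ - ⟪u, z⟫)) ∧
    (∀ t, |t| < h → lo t < up t)

/-- The point of the lower chain at the offset `t`. -/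
noncomputable def Plo (u n z g1 g2 g3 : E) (t : ℝ) : E :=
  pt u n (⟪u, z⟫ + t) (⟪n, z⟫ + hlo ⟪u, g1⟫ ⟪u, g2⟫ ⟪u, g3⟫ ⟪n, g1⟫ ⟪n, g2⟫ ⟪n, g3⟫ t)

/-- The point of the upper chain at the offset `t`. -/
noncomputable def Pup (u n z g1 g2 g3 : E) (t : ℝ) : E :=
  pt u n (⟪u, z⟫ + t) (⟪n, z⟫ - hlo ⟪u, g1⟫ ⟪u, g2⟫ ⟪u, g3⟫ ⟪n, g1⟫ ⟪n, g2⟫ ⟪n, g3⟫ (-t))

/-- Length of the lower chain from its left end to the point at the offset `t`. -/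
noncomputable def hl (w1 w2 w3 l1 l2 l3 t : ℝ) : ℝ :=
  l1 * sA w1 w2 w3 t + l2 * sB w1 w2 w3 t + l3 * sC w1 w2 w3 t

/-- HPATH: hexagon in canonical position, the ways along the boundary from the two ends
`z ± (g1 + g2 + g3) / 2` to the points of the lower and of the upper chain. -/
def Stmt_HPath : Prop :=
  ∀ (u n z g1 g2 g3 : E) (t : ℝ), Canon u n g1 g2 g3 →
    |t| ≤ (⟪u, g1⟫ + ⟪u, g2⟫ + ⟪u, g3⟫) / 2 →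
    PathIn (frontier (Hex z g1 g2 g3)) (Plo u n z g1 g2 g3 t) (z + (1 / 2 : ℝ) • (g1 + g2 + g3))
      (‖g1‖ + ‖g2‖ + ‖g3‖ - hl ⟪u, g1⟫ ⟪u, g2⟫ ⟪u, g3⟫ ‖g1‖ ‖g2‖ ‖g3‖ t) ∧
    PathIn (frontier (Hex z g1 g2 g3)) (Plo u n z g1 g2 g3 t) (z - (1 / 2 : ℝ) • (g1 + g2 + g3))
      (hl ⟪u, g1⟫ ⟪u, g2⟫ ⟪u, g3⟫ ‖g1‖ ‖g2‖ ‖g3‖ t) ∧
    PathIn (frontier (Hex z g1 g2 g3)) (z + (1 / 2 : ℝ) • (g1 + g2 + g3)) (Pup u n z g1 g2 g3 t)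
      (hl ⟪u, g1⟫ ⟪u, g2⟫ ⟪u, g3⟫ ‖g1‖ ‖g2‖ ‖g3‖ (-t)) ∧
    PathIn (frontier (Hex z g1 g2 g3)) (z - (1 / 2 : ℝ) • (g1 + g2 + g3)) (Pup u n z g1 g2 g3 t)
      (‖g1‖ + ‖g2‖ + ‖g3‖ - hl ⟪u, g1⟫ ⟪u, g2⟫ ⟪u, g3⟫ ‖g1‖ ‖g2‖ ‖g3‖ (-t))

/-- HDET0: detour data of a hexagon in canonical position. -/
def Stmt_HDet0 : Prop :=
  ∀ (u n z g1 g2 g3 : E) (c : ℝ), Canon u n g1 g2 g3 → NH g1 g2 g3 n ≤ c →
    ∃ (xc h : ℝ) (lo up r : ℝ → ℝ), Detour u n c (Hex z g1 g2 g3) xc h lo up r ∧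
      h ≤ (‖g1‖ + ‖g2‖ + ‖g3‖) / 2

/-- HDET: detour data of a hexagon (from `Stmt_HDet0` by the cyclic shifts
`(g1, g2, g3) ↦ (g2, g3, -g1)`). -/
def Stmt_HDet : Prop :=
  ∀ (u n z g1 g2 g3 : E) (c : ℝ), ON u n → cr u n = 1 → Pos3 g1 g2 g3 → NH g1 g2 g3 n ≤ c →
    ∃ (xc h : ℝ) (lo up r : ℝ → ℝ), Detour u n c (Hex z g1 g2 g3) xc h lo up r ∧
      h ≤ (‖g1‖ + ‖g2‖ + ‖g3‖) / 2

/-- HNORM: if the norm `NH` is maximal in the direction of the main diagonal `g1 + g2 + g3`, then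
the functional of the honeycomb potential has norm equal to the maximum. -/
def Stmt_HNorm : Prop :=
  ∀ (g1 g2 g3 : E), Pos3 g1 g2 g3 →
    (∀ v, ‖v‖ = ‖g1 + g2 + g3‖ → NH g1 g2 g3 v ≤ NH g1 g2 g3 (g1 + g2 + g3)) →
    ∃ w : E, ⟪w, g1 + g2⟫ = ‖g1‖ + ‖g2‖ ∧ ⟪w, g2 + g3⟫ = ‖g2‖ + ‖g3‖ ∧ 1 < ‖w‖ ∧
      ∀ v, NH g1 g2 g3 v ≤ ‖w‖ * ‖v‖

/-- HGRAPH: curves avoiding the interiors of all tiles of the tiling by translates of the hexagon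
are at least as long as predicted by the functional `w`, up to a bounded error. -/
def Stmt_HGraph : Prop :=
  ∀ (g1 g2 g3 w : E), Pos3 g1 g2 g3 → ⟪w, g1 + g2⟫ = ‖g1‖ + ‖g2‖ → ⟪w, g2 + g3⟫ = ‖g2‖ + ‖g3‖ →
    ∃ κ : ℝ, ∀ (γ : ℝ → E) (t1 t2 : ℝ), t1 ≤ t2 → ContinuousOn γ (Icc t1 t2) →
      (∀ t ∈ Icc t1 t2, ∀ i j : ℤ,
        γ t ∉ interior (Hex ((i : ℝ) • (g1 + g2) + (j : ℝ) • (g2 + g3)) g1 g2 g3)) →
      ENNReal.ofReal (⟪w, γ t2 - γ t1⟫ - κ) ≤ eVariationOn γ (Icc t1 t2)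

/-- HTILE: layers of translates of the hexagon whose crossing length is almost `‖w‖ d`. -/
def Stmt_HTile : Prop :=
  ∀ (g1 g2 g3 w : E) (ρ : ℝ), Pos3 g1 g2 g3 → ⟪w, g1 + g2⟫ = ‖g1‖ + ‖g2‖ →
    ⟪w, g2 + g3⟫ = ‖g2‖ + ‖g3‖ → w ≠ 0 → ρ < ‖w‖ →
    ∃ (𝒯 : Set (Set E)) (n : E) (d : ℝ), IsLayer 𝒯 n 0 d ∧
      (∀ K ∈ 𝒯, IsTranslate (Hex 0 g1 g2 g3) K) ∧ ENNReal.ofReal (ρ * d) ≤ crossLen 𝒯 n 0 d

/-- HFAM: the isosceles hexagons with vertices `(±w, ±s/2)`, `(0, ±(s/2 + t))` for which the norm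
is maximal in the direction of the diagonal joining `(0, ±(s/2 + t))`. -/
def Stmt_HFam : Prop :=
  ∀ w s t l : ℝ, 0 < w → 0 < s → 0 < t → l = √(w ^ 2 + t ^ 2) →
    l * (s + 2 * t) ^ 2 ≤ 2 * w ^ 2 * (l + s) → 4 * l * (s + t) + s ^ 2 ≤ 4 * w * (l + s) →
    Pos3 !₂[w, t] !₂[0, s] !₂[-w, t] ∧
    ∀ v : E, ‖v‖ = ‖(!₂[w, t] + !₂[0, s] + !₂[-w, t] : E)‖ →
      NH !₂[w, t] !₂[0, s] !₂[-w, t] v ≤
        NH !₂[w, t] !₂[0, s] !₂[-w, t] (!₂[w, t] + !₂[0, s] + !₂[-w, t])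

end Pool.Agent.LFT
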