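import Pool.Agent.LFT.Tile
import Pool.Agent.LFT.HStmts

/-!
# Module HTILE of the squad LFT (MP_9c589f_co): layers cut out of the tiling by hexagons
-/

namespace Pool.Agent.LFT.HTile

open MeasureTheory Set Filter Topology
open scoped RealInnerProductSpace ENNReal

/-- the tile -/
def tile (g1 g2 g3 : E) (i j : ℤ) : Set E :=
  Hex ((i : ℝ) • (g1 + g2) + (j : ℝ) • (g2 + g3)) g1 g2 g3

theorem hex_convex (z g1 g2 g3 : E) : Convex ℝ (Hex z g1 g2 g3) := by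
  rintro _ ⟨s, t, r, hs, ht, hr, rfl⟩ _ ⟨s', t', r', hs', ht', hr', rfl⟩ a b ha hb hab
  rw [abs_le] at hs ht hr hs' ht' hr'
  refine ⟨a * s + b * s', a * t + b * t', a * r + b * r', ?_, ?_, ?_, ?_⟩
  · rw [abs_le]; constructor <;> nlinarith
  · rw [abs_le]; constructor <;> nlinarith
  · rw [abs_le]; constructor <;> nlinarith
  · have hb' : b = 1 - a := by linarith
    rw [hb']
    module

theorem hex_translate (z g1 g2 g3 : E) : IsTranslate (Hex 0 g1 g2 g3) (Hex z g1 g2 g3) := by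
  refine ⟨z, ?_⟩
  ext p
  constructor
  · rintro ⟨s, t, r, hs, ht, hr, rfl⟩
    exact ⟨0 + s • g1 + t • g2 + r • g3, ⟨s, t, r, hs, ht, hr, rfl⟩, by simp only; abel⟩
  · rintro ⟨_, ⟨s, t, r, hs, ht, hr, rfl⟩, rfl⟩
    exact ⟨s, t, r, hs, ht, hr, by simp only; abel⟩

theorem hex_diam (z g1 g2 g3 p q : E) (hp : p ∈ Hex z g1 g2 g3) (hq : q ∈ Hex z g1 g2 g3) :
    ‖p - q‖ ≤ ‖g1‖ + ‖g2‖ + ‖g3‖ := by
  obtain ⟨s, t, r, hs, ht, hr, rfl⟩ := hp
  obtain ⟨s', t', r', hs', ht', hr', rfl⟩ := hq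
  have e1 : z + s • g1 + t • g2 + r • g3 - (z + s' • g1 + t' • g2 + r' • g3)
      = (s - s') • g1 + (t - t') • g2 + (r - r') • g3 := by module
  rw [e1]
  rw [abs_le] at hs ht hr hs' ht' hr'
  have h1 : |s - s'| ≤ 1 := by rw [abs_le]; constructor <;> linarith
  have h2 : |t - t'| ≤ 1 := by rw [abs_le]; constructor <;> linarith
  have h3 : |r - r'| ≤ 1 := by rw [abs_le]; constructor <;> linarith
  calc ‖(s - s') • g1 + (t - t') • g2 + (r - r') • g3‖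
      ≤ ‖(s - s') • g1‖ + ‖(t - t') • g2‖ + ‖(r - r') • g3‖ := norm_add₃_le
    _ = |s - s'| * ‖g1‖ + |t - t'| * ‖g2‖ + |r - r'| * ‖g3‖ := by
        rw [norm_smul, norm_smul, norm_smul, Real.norm_eq_abs, Real.norm_eq_abs, Real.norm_eq_abs]
    _ ≤ 1 * ‖g1‖ + 1 * ‖g2‖ + 1 * ‖g3‖ :=
        add_le_add (add_le_add (mul_le_mul_of_nonneg_right h1 (norm_nonneg _))
          (mul_le_mul_of_nonneg_right h2 (norm_nonneg _)))
          (mul_le_mul_of_nonneg_right h3 (norm_nonneg _))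
    _ = _ := by ring

theorem hex_compact (z g1 g2 g3 : E) : IsCompact (Hex z g1 g2 g3) := by
  have hc : IsCompact ((Icc (-(1 / 2) : ℝ) (1 / 2)) ×ˢ (Icc (-(1 / 2) : ℝ) (1 / 2)) ×ˢ
      (Icc (-(1 / 2) : ℝ) (1 / 2))) := isCompact_Icc.prod (isCompact_Icc.prod isCompact_Icc)
  have hf : Continuous (fun x : ℝ × ℝ × ℝ => z + x.1 • g1 + x.2.1 • g2 + x.2.2 • g3) := by
    fun_prop
  have h := hc.image hf
  convert h using 1
  ext p
  constructor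
  · rintro ⟨s, t, r, hs, ht, hr, rfl⟩
    rw [abs_le] at hs ht hr
    exact ⟨(s, t, r), ⟨hs, ht, hr⟩, rfl⟩
  · rintro ⟨⟨s, t, r⟩, ⟨hs, ht, hr⟩, rfl⟩
    exact ⟨s, t, r, abs_le.2 hs, abs_le.2 ht, abs_le.2 hr, rfl⟩

theorem cr_add (a b c : E) : cr a (b + c) = cr a b + cr a c := by
  simp [cr]; ring

theorem cr_sub (a b c : E) : cr a (b - c) = cr a b - cr a c := by
  simp [cr]; ring

theorem cr_smul (a b : E) (s : ℝ) : cr a (s • b) = s * cr a b := by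
  simp [cr]; ring

theorem cr_self (a : E) : cr a a = 0 := by
  simp [cr]; ring

theorem cr_anti (a b : E) : cr b a = - cr a b := by
  simp [cr]; ring

theorem cr_zero (a : E) : cr a 0 = 0 := by
  simp [cr]

theorem abs_cr_le (a b : E) : |cr a b| ≤ 2 * (‖a‖ * ‖b‖) := by
  have h1 : ∀ (c : E) (i : Fin 2), |c i| ≤ ‖c‖ := fun c i => by
    have := PiLp.norm_apply_le c i
    simpa using this
  unfold cr
  refine (abs_sub _ _).trans ?_
  rw [abs_mul, abs_mul]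
  have h2 := mul_le_mul (h1 a 0) (h1 b 1) (abs_nonneg _) (norm_nonneg _)
  have h3 := mul_le_mul (h1 a 1) (h1 b 0) (abs_nonneg _) (norm_nonneg _)
  linarith

section
variable {g1 g2 g3 : E} (hI : Stmt_HIneq) (hP : Pos3 g1 g2 g3)

include hI hP in
theorem hex_interior_nonempty (z : E) : (interior (Hex z g1 g2 g3)).Nonempty := by
  refine ⟨z, ?_⟩
  rw [(hI z g1 g2 g3 hP).2]
  have h1 := hP.p12
  have h2 := hP.p23
  have h3 := hP.p13
  simp only [sub_self, cr_zero, abs_zero]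
  refine ⟨?_, ?_, ?_⟩ <;> linarith

theorem int_zero {a b : ℤ} {D12 D13 D23 : ℝ} (h12 : 0 < D12) (h13 : 0 < D13) (h23 : 0 < D23)
    (h1 : |(a : ℝ) * D12 + b * (D12 + D13)| < D12 + D13)
    (h2 : |-(a : ℝ) * D12 + b * D23| < D12 + D23)
    (h3 : |-(a : ℝ) * (D13 + D23) - b * D23| < D13 + D23) : a = 0 ∧ b = 0 := by
  rw [abs_lt] at h1 h2 h3
  have key : ∀ x y : ℤ, (1 ≤ x → (1 : ℝ) ≤ x) ∧ (x ≤ -1 → (x : ℝ) ≤ -1) ∧ (0 ≤ y → (0 : ℝ) ≤ y) ∧
      (y ≤ 0 → (y : ℝ) ≤ 0) := fun x y =>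
    ⟨fun h => by exact_mod_cast h, fun h => by exact_mod_cast h, fun h => by exact_mod_cast h,
      fun h => by exact_mod_cast h⟩
  rcases lt_trichotomy a 0 with ha | ha | ha
  · exfalso
    have ha' : (a : ℝ) ≤ -1 := (key a a).2.1 (by omega)
    rcases lt_or_ge 0 b with hb | hb
    · have hb' : (1 : ℝ) ≤ b := (key b b).1 (by omega)
      nlinarith
    · have hb' : (b : ℝ) ≤ 0 := (key b b).2.2.2 hb
      nlinarith
  · subst ha
    refine ⟨rfl, ?_⟩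
    push_cast at h1
    rcases lt_trichotomy b 0 with hb | hb | hb
    · exfalso
      have hb' : (b : ℝ) ≤ -1 := (key b b).2.1 (by omega)
      nlinarith
    · exact hb
    · exfalso
      have hb' : (1 : ℝ) ≤ b := (key b b).1 (by omega)
      nlinarith
  · exfalso
    have ha' : (1 : ℝ) ≤ a := (key a a).1 (by omega)
    rcases lt_or_ge b 0 with hb | hb
    · have hb' : (b : ℝ) ≤ -1 := (key b b).2.1 (by omega)
      nlinarith
    · have hb' : (0 : ℝ) ≤ b := (key b b).2.2.1 hb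
      nlinarith

include hI hP in
theorem tile_disjoint (i j i' j' : ℤ) (hne : tile g1 g2 g3 i j ≠ tile g1 g2 g3 i' j') :
    Disjoint (interior (tile g1 g2 g3 i j)) (interior (tile g1 g2 g3 i' j')) := by
  rw [Set.disjoint_left]
  intro p hp hp'
  unfold tile at hp hp'
  rw [(hI _ g1 g2 g3 hP).2] at hp hp'
  apply hne
  obtain ⟨p1, p2, p3⟩ := hp
  obtain ⟨q1, q2, q3⟩ := hp'
  have e21 : cr g2 g1 = - cr g1 g2 := cr_anti _ _
  have e31 : cr g3 g1 = - cr g1 g3 := cr_anti _ _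
  have e32 : cr g3 g2 = - cr g2 g3 := cr_anti _ _
  simp only [cr_sub, cr_add, cr_smul, cr_self, e21, e31, e32] at p1 p2 p3 q1 q2 q3
  have h := int_zero (a := i - i') (b := j - j') hP.p12 hP.p13 hP.p23 ?_ ?_ ?_
  · have hi : i = i' := by omega
    have hj : j = j' := by omega
    rw [hi, hj]
  · rw [abs_lt] at p1 q1 ⊢
    push_cast
    constructor <;> nlinarith [p1.1, p1.2, q1.1, q1.2]
  · rw [abs_lt] at p2 q2 ⊢
    push_cast
    constructor <;> nlinarith [p2.1, p2.2, q2.1, q2.2]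
  · rw [abs_lt] at p3 q3 ⊢
    push_cast
    constructor <;> nlinarith [p3.1, p3.2, q3.1, q3.2]

include hP in
theorem tile_locFin (R : ℝ) :
    {K : Set E | (∃ i j : ℤ, K = tile g1 g2 g3 i j) ∧
      (K ∩ Metric.closedBall 0 R).Nonempty}.Finite := by
  obtain ⟨A, hA⟩ : ∃ A : ℝ, A = cr g1 g2 + cr g1 g3 + cr g2 g3 := ⟨_, rfl⟩
  have hA0 : 0 < A := by
    rw [hA]
    have := hP.p12
    have := hP.p13
    have := hP.p23
    linarith
  obtain ⟨M, hM⟩ : ∃ M : ℝ, M = 2 * (‖g1 + g2‖ + ‖g2 + g3‖) *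
      (|R| + (‖g1‖ + ‖g2‖ + ‖g3‖)) / A := ⟨_, rfl⟩
  have hfin : ((fun z : ℤ × ℤ => tile g1 g2 g3 z.1 z.2) ''
      (Icc (-⌈M⌉) ⌈M⌉ ×ˢ Icc (-⌈M⌉) ⌈M⌉)).Finite :=
    ((finite_Icc _ _).prod (finite_Icc _ _)).image _
  refine hfin.subset ?_
  rintro K ⟨⟨i, j, rfl⟩, p, hp, hpR⟩
  obtain ⟨z, hz⟩ : ∃ z : E, z = (i : ℝ) • (g1 + g2) + (j : ℝ) • (g2 + g3) := ⟨_, rfl⟩
  have hzp : ‖p - z‖ ≤ ‖g1‖ + ‖g2‖ + ‖g3‖ := by
    refine hex_diam z g1 g2 g3 p z ?_ ⟨0, 0, 0, by norm_num, by norm_num, by norm_num, by simp⟩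
    rw [hz]
    exact hp
  have hzn : ‖z‖ ≤ |R| + (‖g1‖ + ‖g2‖ + ‖g3‖) := by
    have h1 : ‖p‖ ≤ R := by simpa using hpR
    have h2 : ‖z‖ ≤ ‖p‖ + ‖p - z‖ := by
      have := norm_sub_le p (p - z)
      simpa using this
    have := le_abs_self R
    linarith
  have e21 : cr g2 g1 = - cr g1 g2 := cr_anti _ _
  have e31 : cr g3 g1 = - cr g1 g3 := cr_anti _ _
  have e32 : cr g3 g2 = - cr g2 g3 := cr_anti _ _
  have cr_add' : ∀ a b c : E, cr (a + b) c = cr a c + cr b c := fun a b c => by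
    simp [cr]; ring
  have hi : |(i : ℝ)| * A ≤ 2 * (‖g2 + g3‖ * ‖z‖) := by
    have h1 := abs_cr_le (g2 + g3) z
    have h2 : cr (g2 + g3) z = - ((i : ℝ) * A) := by
      rw [hz, hA]
      simp only [cr_add', cr_add, cr_smul, cr_self, e21, e31, e32]
      ring
    rw [h2, abs_neg, abs_mul, abs_of_pos hA0] at h1
    exact h1
  have hj : |(j : ℝ)| * A ≤ 2 * (‖g1 + g2‖ * ‖z‖) := by
    have h1 := abs_cr_le (g1 + g2) z
    have h2 : cr (g1 + g2) z = (j : ℝ) * A := by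
      rw [hz, hA]
      simp only [cr_add', cr_add, cr_smul, cr_self, e21, e31, e32]
      ring
    rw [h2, abs_mul, abs_of_pos hA0] at h1
    exact h1
  have hn1 := norm_nonneg (g1 + g2)
  have hn2 := norm_nonneg (g2 + g3)
  have hz0 := norm_nonneg z
  have hi' : |(i : ℝ)| ≤ M := by
    rw [hM, le_div_iff₀ hA0]
    refine hi.trans ?_
    nlinarith
  have hj' : |(j : ℝ)| ≤ M := by
    rw [hM, le_div_iff₀ hA0]
    refine hj.trans ?_
    nlinarith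
  have hc := Int.le_ceil M
  rw [abs_le] at hi' hj'
  have a1 : -(⌈M⌉ : ℝ) ≤ i := by linarith [hi'.1]
  have a2 : (i : ℝ) ≤ ⌈M⌉ := by linarith [hi'.2]
  have a3 : -(⌈M⌉ : ℝ) ≤ j := by linarith [hj'.1]
  have a4 : (j : ℝ) ≤ ⌈M⌉ := by linarith [hj'.2]
  exact ⟨(i, j), ⟨⟨by exact_mod_cast a1, by exact_mod_cast a2⟩,
    ⟨by exact_mod_cast a3, by exact_mod_cast a4⟩⟩, rfl⟩

end

end Pool.Agent.LFT.HTile

namespace Pool.Agent.LFT

open MeasureTheory Set Filter Topology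
open scoped RealInnerProductSpace ENNReal

theorem htile_proof (hG : Stmt_HGraph) (hI : Stmt_HIneq) : Stmt_HTile := by
  intro g1 g2 g3 w ρ hP hwa hwb hw0 hρ
  obtain ⟨κ, hκ⟩ := hG g1 g2 g3 w hP hwa hwb
  obtain ⟨D, hD⟩ : ∃ D : ℝ, D = ‖g1‖ + ‖g2‖ + ‖g3‖ := ⟨_, rfl⟩
  have hD0 : 0 ≤ D := by rw [hD]; positivity
  obtain ⟨n, hn⟩ : ∃ n : E, n = (‖w‖)⁻¹ • w := ⟨_, rfl⟩
  have hwn : ‖w‖ ≠ 0 := norm_ne_zero_iff.2 hw0
  have hwpos : 0 < ‖w‖ := norm_pos_iff.2 hw0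
  have hn1 : ‖n‖ = 1 := by
    rw [hn, norm_smul, norm_inv, norm_norm, inv_mul_cancel₀ hwn]
  have hwv : ∀ v : E, ⟪w, v⟫ = ‖w‖ * ⟪n, v⟫ := by
    intro v
    rw [hn, real_inner_smul_left, ← mul_assoc, mul_inv_cancel₀ hwn, one_mul]
  obtain ⟨d, hd1, hd2⟩ : ∃ d : ℝ, 2 * D + 1 ≤ d ∧ ρ * d ≤ ‖w‖ * (d - 2 * D) - κ := by
    have hpos : 0 < ‖w‖ - ρ := by linarith
    refine ⟨max (2 * D + 1) ((κ + 2 * D * ‖w‖) / (‖w‖ - ρ)), le_max_left _ _, ?_⟩
    have h := le_max_right (2 * D + 1) ((κ + 2 * D * ‖w‖) / (‖w‖ - ρ))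
    set d := max (2 * D + 1) ((κ + 2 * D * ‖w‖) / (‖w‖ - ρ)) with hd
    rw [div_le_iff₀ hpos] at h
    nlinarith
  set 𝒯 : Set (Set E) := {K | (∃ i j : ℤ, K = HTile.tile g1 g2 g3 i j) ∧
    ∀ p ∈ K, 0 ≤ ⟪n, p⟫ ∧ ⟪n, p⟫ ≤ 0 + d} with h𝒯
  refine ⟨𝒯, n, d, ?_, ?_, ?_⟩
  · constructor
    · exact hn1
    · linarith
    · rintro K ⟨⟨i, j, rfl⟩, _⟩
      exact ⟨HTile.hex_compact _ g1 g2 g3, HTile.hex_convex _ _ _ _,
        HTile.hex_interior_nonempty hI hP _⟩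
    · rintro K ⟨⟨i, j, rfl⟩, _⟩ K' ⟨⟨i', j', rfl⟩, _⟩ hne
      exact HTile.tile_disjoint hI hP i j i' j' hne
    · rintro K ⟨_, hK⟩ p hp
      exact hK p hp
    · intro R
      refine (HTile.tile_locFin hP R).subset ?_
      rintro K ⟨⟨hK, _⟩, hne⟩
      exact ⟨hK, hne⟩
  · rintro K ⟨⟨i, j, rfl⟩, _⟩
    exact HTile.hex_translate _ _ _ _
  · unfold crossLen
    refine le_iInf₂ ?_
    intro γ hγ
    have hg : ContinuousOn (fun t => ⟪n, γ t⟫) (Icc 0 1) := continuousOn_const.inner hγ.cont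
    obtain ⟨t1, t2, h01, h12, h21, hg1, hg2, hbt⟩ := Tile.exists_piece (fun t => ⟪n, γ t⟫) hg
      D (d - D) (by change ⟪n, γ 0⟫ ≤ D; rw [hγ.start]; exact hD0)
      (by change d - D ≤ ⟪n, γ 1⟫; rw [hγ.stop]; linarith) (by linarith)
    have hsub : Icc t1 t2 ⊆ Icc 0 1 := Icc_subset_Icc h01 h21
    have hgr : ∀ t ∈ Icc t1 t2, ∀ i j : ℤ,
        γ t ∉ interior (Hex ((i : ℝ) • (g1 + g2) + (j : ℝ) • (g2 + g3)) g1 g2 g3) := by
      intro t ht i j hint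
      refine hγ.avoid t (hsub ht) (HTile.tile g1 g2 g3 i j) ⟨⟨i, j, rfl⟩, ?_⟩ hint
      intro p hp
      have hdm := HTile.hex_diam _ g1 g2 g3 p (γ t) hp (interior_subset hint)
      have habs : |⟪n, p - γ t⟫| ≤ D := by
        calc |⟪n, p - γ t⟫| ≤ ‖n‖ * ‖p - γ t‖ := abs_real_inner_le_norm _ _
          _ = ‖p - γ t‖ := by rw [hn1, one_mul]
          _ ≤ D := hdm.trans hD.ge
      rw [inner_sub_right, abs_le] at habs
      have hb := hbt t ht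
      constructor <;> linarith [hb.1, hb.2, habs.1, habs.2]
    have hlen := hκ γ t1 t2 h12 (hγ.cont.mono hsub) hgr
    calc ENNReal.ofReal (ρ * d) ≤ ENNReal.ofReal (⟪w, γ t2 - γ t1⟫ - κ) := by
          apply ENNReal.ofReal_le_ofReal
          rw [hwv, inner_sub_right]
          rw [hg1, hg2]
          have : d - D - D = d - 2 * D := by ring
          rw [this]
          exact hd2
      _ ≤ eVariationOn γ (Icc t1 t2) := hlen
      _ ≤ eVariationOn γ (Icc 0 1) := eVariationOn.mono γ hsub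

end Pool.Agent.LFT
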