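import Pool.Agent.LFT.Stmts

/-!
# LINE: bypassing finitely many disjoint intervals on a line
-/

namespace Pool.Agent.LFT

open MeasureTheory Set
open scoped RealInnerProductSpace ENNReal

namespace Line

theorem dist_pt {u n : E} (h : ON u n) (x y y' : ℝ) (hy : y ≤ y') :
    dist (pt u n x y) (pt u n x y') = y' - y := by
  rw [dist_eq_norm]
  have : pt u n x y - pt u n x y' = (y - y') • n := by
    simp only [pt]; rw [sub_smul]; abel
  rw [this, norm_smul, h.2.1, mul_one, Real.norm_eq_abs, abs_sub_comm, abs_of_nonneg (by linarith)]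

theorem seg_pt {F : Set E} {u n : E} (h : ON u n) (x y y' : ℝ) (hy : y ≤ y')
    (hF : ∀ z ∈ Icc y y', pt u n x z ∈ F) :
    PathIn F (pt u n x y) (pt u n x y') (y' - y) := by
  rw [← dist_pt h x y y' hy]
  apply PathIn.seg
  rw [segment_eq_image]
  rintro _ ⟨θ, hθ, rfl⟩
  have : (1 - θ) • pt u n x y + θ • pt u n x y' = pt u n x ((1 - θ) * y + θ * y') := by
    simp only [pt]
    module
  simp only [this]
  apply hF
  constructor
  · nlinarith [hθ.1, hθ.2]
  · nlinarith [hθ.1, hθ.2]

end Line

open Line in
theorem line_proof : Stmt_Line := by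
  intro F u n x y0 y1 A α β ρ hON
  induction hk : A.card generalizing A y1 with
  | zero =>
    intro h01 _ _ _ hfree
    have hA : A = ∅ := Finset.card_eq_zero.mp hk
    subst hA
    simpa using seg_pt hON x y0 y1 h01 (fun z hz => hfree z hz (by simp))
  | succ k ih =>
    intro h01 hin hdis hpath hfree
    have hne : A.Nonempty := by
      rw [← Finset.card_pos]; omega
    obtain ⟨i, hi, hmax⟩ := Finset.exists_max_image A α hne
    have hbelow : ∀ j ∈ A, j ≠ i → β j ≤ α i := by
      intro j hj hji
      rcases hdis i hi j hj (Ne.symm hji) with h | h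
      · have := hmax j hj
        have := (hin i hi).2.1
        linarith
      · exact h
    have hi' := hin i hi
    have h1 := ih (α i) (A.erase i) (by rw [Finset.card_erase_of_mem hi]; omega) hi'.1
      (fun j hj => by
        have hj' := hin j (Finset.mem_of_mem_erase hj)
        exact ⟨hj'.1, hj'.2.1, hbelow j (Finset.mem_of_mem_erase hj) (Finset.ne_of_mem_erase hj)⟩)
      (fun j hj l hl hjl => hdis j (Finset.mem_of_mem_erase hj) l (Finset.mem_of_mem_erase hl) hjl)
      (fun j hj => hpath j (Finset.mem_of_mem_erase hj))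
      (fun y hy hfr => by
        apply hfree y ⟨hy.1, by linarith [hy.2, hi'.2.1, hi'.2.2]⟩
        intro j hj
        by_cases hji : j = i
        · subst hji
          rintro ⟨h, _⟩
          linarith [hy.2]
        · exact hfr j (Finset.mem_erase.mpr ⟨hji, hj⟩))
    have h2 := hpath i hi
    have h3 := seg_pt hON x (β i) y1 hi'.2.2 (F := F) (fun z hz => by
      apply hfree z ⟨by linarith [hz.1, hi'.1, hi'.2.1], hz.2⟩
      intro j hj
      by_cases hji : j = i
      · subst hji
        rintro ⟨_, h⟩
        linarith [hz.1]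
      · rintro ⟨_, h⟩
        have := hbelow j hj hji
        linarith [hz.1, hi'.2.1])
    have h4 := (h1.trans h2).trans h3
    have e : (α i - y0 + ∑ j ∈ A.erase i, (ρ j - (β j - α j))) + ρ i + (y1 - β i) =
        y1 - y0 + ∑ j ∈ A, (ρ j - (β j - α j)) := by
      rw [← Finset.add_sum_erase A _ hi]
      ring
    rw [e] at h4
    exact h4

end Pool.Agent.LFT
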