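import Pool.Agent.LFT.Stmts

/-!
# LFT module LineBound
-/

namespace Pool.Agent.LFT

open MeasureTheory Set
open scoped RealInnerProductSpace ENNReal

namespace LineBound

lemma inner_u_pt {u n : E} (h : ON u n) (x y : ℝ) : ⟪u, pt u n x y⟫ = x := by
  obtain ⟨hu, hn, hun⟩ := h
  simp [pt, inner_add_right, inner_smul_right, hun, hu]

lemma inner_n_pt {u n : E} (h : ON u n) (x y : ℝ) : ⟪n, pt u n x y⟫ = y := by
  obtain ⟨hu, hn, hun⟩ := h
  have : ⟪n, u⟫ = 0 := by rw [real_inner_comm]; exact hun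
  simp [pt, inner_add_right, inner_smul_right, this, hn]

/-- norm bound by the coordinates -/
lemma norm_le {u n : E} (h : ON u n) (p : E) : ‖p‖ ≤ |⟪u, p⟫| + |⟪n, p⟫| := by
  obtain ⟨hu, hn, hun⟩ := h
  have hnu : ⟪n, u⟫ = 0 := by rw [real_inner_comm]; exact hun
  have hon : Orthonormal ℝ ((Set.univ : Set (Fin 2)).domRestrict ![u, n]) := by
    rw [orthonormal_iff_ite]
    rintro ⟨i, -⟩ ⟨j, -⟩
    fin_cases i <;> fin_cases j <;> simp [Set.domRestrict, hun, hu, hn, hnu]
  obtain ⟨b, hb⟩ := Orthonormal.exists_orthonormalBasis_extension_of_card_eq (𝕜 := ℝ) (E := E)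
    (by simp) hon
  have h0 : b 0 = u := hb 0 (mem_univ _)
  have h1 : b 1 = n := hb 1 (mem_univ _)
  have hs := b.sum_repr' p
  rw [Fin.sum_univ_two, h0, h1] at hs
  calc ‖p‖ = ‖⟪u, p⟫ • u + ⟪n, p⟫ • n‖ := by rw [hs]
    _ ≤ ‖⟪u, p⟫ • u‖ + ‖⟪n, p⟫ • n‖ := norm_add_le _ _
    _ = |⟪u, p⟫| + |⟪n, p⟫| := by rw [norm_smul, norm_smul, hu, hn]; simp

lemma pathIn_mono {F G : Set E} (hFG : F ⊆ G) {p q : E} {L : ℝ} (h : PathIn F p q L) :
    PathIn G p q L := by
  induction h with
  | seg p q h => exact PathIn.seg p q (h.trans hFG)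
  | trans _ _ ih1 ih2 => exact PathIn.trans ih1 ih2

lemma frontier_subset_free {𝒞 : Set (Set E)} {n : E} {a d : ℝ} (hL : IsLayer 𝒞 n a d)
    {K : Set E} (hK : K ∈ 𝒞) : frontier K ⊆ Free 𝒞 := by
  intro p hp K' hK' hint
  by_cases hKK : K = K'
  · subst hKK
    exact hp.2 hint
  · obtain ⟨hc, hconv, hne⟩ := hL.body K hK
    have hcl : closure (interior K) = closure K :=
      hconv.closure_interior_eq_closure_of_nonempty_interior hne
    have hpc : p ∈ closure (interior K) := by rw [hcl]; exact frontier_subset_closure hp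
    rw [mem_closure_iff] at hpc
    obtain ⟨q, hq1, hq2⟩ := hpc (interior K') isOpen_interior hint
    exact (Set.disjoint_left.mp (hL.packing K hK K' hK' hKK)) hq2 hq1

/-- Disjoint open intervals inside an interval: total length. -/
lemma sum_len_le {ι : Type*} (A : Finset ι) (α β : ι → ℝ) (y0 y1 : ℝ) (h01 : y0 ≤ y1)
    (h : ∀ i ∈ A, y0 ≤ α i ∧ α i < β i ∧ β i ≤ y1)
    (hd : ∀ i ∈ A, ∀ j ∈ A, i ≠ j → Disjoint (Ioo (α i) (β i)) (Ioo (α j) (β j))) :
    ∑ i ∈ A, (β i - α i) ≤ y1 - y0 := by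
  have h1 : volume (⋃ i ∈ A, Ioo (α i) (β i)) = ∑ i ∈ A, volume (Ioo (α i) (β i)) :=
    measure_biUnion_finset (fun i hi j hj hij => hd i hi j hj hij) (fun i _ => measurableSet_Ioo)
  have h2 : volume (⋃ i ∈ A, Ioo (α i) (β i)) ≤ volume (Icc y0 y1) := by
    apply measure_mono
    intro y hy
    simp only [mem_iUnion] at hy
    obtain ⟨i, hi, hy⟩ := hy
    obtain ⟨ha, -, hb⟩ := h i hi
    exact ⟨ha.trans hy.1.le, hy.2.le.trans hb⟩
  rw [h1] at h2
  simp only [Real.volume_Ioo, Real.volume_Icc] at h2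
  rw [← ENNReal.ofReal_sum_of_nonneg (fun i hi => by linarith [(h i hi).2.1])] at h2
  exact (ENNReal.ofReal_le_ofReal_iff (by linarith)).mp h2

lemma sum_len_le' {ι : Type*} [DecidableEq ι] (A : Finset ι) (α β : ι → ℝ) (y0 y1 s t : ℝ)
    (hst : s < t) (hs : y0 ≤ s) (ht : t ≤ y1)
    (h : ∀ i ∈ A, y0 ≤ α i ∧ α i < β i ∧ β i ≤ y1)
    (hd : ∀ i ∈ A, ∀ j ∈ A, i ≠ j → Disjoint (Ioo (α i) (β i)) (Ioo (α j) (β j)))
    (hd' : ∀ i ∈ A, Disjoint (Ioo (α i) (β i)) (Ioo s t)) :
    ∑ i ∈ A, (β i - α i) ≤ y1 - y0 - (t - s) := by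
  classical
  let α' : Option ι → ℝ := fun o => o.elim s α
  let β' : Option ι → ℝ := fun o => o.elim t β
  have := sum_len_le (Finset.insertNone A) α' β' y0 y1 (by linarith) (by
      intro o ho
      cases o with
      | none => exact ⟨hs, hst, ht⟩
      | some i => exact h i (by simpa using ho))
    (by
      intro o ho o' ho' hne
      cases o with
      | none =>
        cases o' with
        | none => exact absurd rfl hne
        | some j => exact (hd' j (by simpa using ho')).symm
      | some i =>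
        cases o' with
        | none => exact hd' i (by simpa using ho)
        | some j =>
          exact hd i (by simpa using ho) j (by simpa using ho') (fun hij => hne (by rw [hij])))
  rw [Finset.sum_insertNone] at this
  simp only [α', β', Option.elim] at this
  linarith

end LineBound

open LineBound in
theorem lineBound_proof (hReach : Stmt_Reach) (hLine : Stmt_Line) : Stmt_LineBound := by
  classical
  intro 𝒞 u n a d c xc h lo up r hON hL hD
  -- membership of the points of a line
  have hmem : ∀ K ∈ 𝒞, ∀ x y : ℝ, (pt u n x y ∈ K ↔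
      |x - xc K| ≤ h K ∧ lo K (x - xc K) ≤ y ∧ y ≤ up K (x - xc K)) := by
    intro K hK x y
    have := (hD K hK).mem_iff (pt u n x y)
    rw [inner_u_pt hON, inner_n_pt hON] at this
    exact this
  have hint : ∀ K ∈ 𝒞, ∀ x y : ℝ, (pt u n x y ∈ interior K ↔
      |x - xc K| < h K ∧ lo K (x - xc K) < y ∧ y < up K (x - xc K)) := by
    intro K hK x y
    have := (hD K hK).int_iff (pt u n x y)
    rw [inner_u_pt hON, inner_n_pt hON] at this
    exact this
  -- the chord lies in the strip
  have hch : ∀ K ∈ 𝒞, ∀ x : ℝ, |x - xc K| < h K →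
      a ≤ lo K (x - xc K) ∧ lo K (x - xc K) < up K (x - xc K) ∧ up K (x - xc K) ≤ a + d := by
    intro K hK x hx
    have hlt := (hD K hK).lt _ hx
    refine ⟨?_, hlt, ?_⟩
    · have := hL.strip K hK (pt u n x (lo K (x - xc K)))
        ((hmem K hK x _).2 ⟨hx.le, le_refl _, hlt.le⟩)
      rw [inner_n_pt hON] at this
      exact this.1
    · have := hL.strip K hK (pt u n x (up K (x - xc K)))
        ((hmem K hK x _).2 ⟨hx.le, hlt.le, le_refl _⟩)
      rw [inner_n_pt hON] at this
      exact this.2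
  -- disjointness of chords
  have hdisj : ∀ K ∈ 𝒞, ∀ K' ∈ 𝒞, K ≠ K' → ∀ x : ℝ, |x - xc K| < h K → |x - xc K'| < h K' →
      Disjoint (Ioo (lo K (x - xc K)) (up K (x - xc K)))
        (Ioo (lo K' (x - xc K')) (up K' (x - xc K'))) := by
    intro K hK K' hK' hne x hx hx'
    rw [Set.disjoint_left]
    intro y hy hy'
    exact (Set.disjoint_left.mp (hL.packing K hK K' hK' hne))
      ((hint K hK x y).2 ⟨hx, hy.1, hy.2⟩) ((hint K' hK' x y).2 ⟨hx', hy'.1, hy'.2⟩)
  have hsep : ∀ K ∈ 𝒞, ∀ K' ∈ 𝒞, K ≠ K' → ∀ x : ℝ, |x - xc K| < h K → |x - xc K'| < h K' →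
      up K (x - xc K) ≤ lo K' (x - xc K') ∨ up K' (x - xc K') ≤ lo K (x - xc K) := by
    intro K hK K' hK' hne x hx hx'
    have hd := hdisj K hK K' hK' hne x hx hx'
    have h1 := (hch K hK x hx).2.1
    have h2 := (hch K' hK' x hx').2.1
    by_contra hcon
    push Not at hcon
    obtain ⟨hc1, hc2⟩ := hcon
    obtain ⟨y, hy1, hy2⟩ := exists_between (show max (lo K (x - xc K)) (lo K' (x - xc K')) <
      min (up K (x - xc K)) (up K' (x - xc K')) from by
        rw [max_lt_iff, lt_min_iff, lt_min_iff]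
        exact ⟨⟨h1, hc2⟩, ⟨hc1, h2⟩⟩)
    rw [max_lt_iff] at hy1
    rw [lt_min_iff] at hy2
    exact (Set.disjoint_left.mp hd) ⟨hy1.1, hy2.1⟩ ⟨hy1.2, hy2.2⟩
  have hkf : ∀ (S : Finset (Set E)) (x : ℝ),
      ∑ K ∈ S, kf (xc K) (h K) (lo K) (up K) x =
        ∑ K ∈ S.filter (fun K => |x - xc K| < h K), (up K (x - xc K) - lo K (x - xc K)) := by
    intro S x
    rw [Finset.sum_filter]
    rfl
  have hgf : ∀ (S : Finset (Set E)) (x : ℝ),
      ∑ K ∈ S, gf (xc K) (h K) (lo K) (up K) (r K) x =
        ∑ K ∈ S.filter (fun K => |x - xc K| < h K),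
          (r K (x - xc K) - (up K (x - xc K) - lo K (x - xc K))) := by
    intro S x
    rw [Finset.sum_filter]
    rfl
  refine ⟨?_, ?_, ?_⟩
  · -- total chord length
    intro S hS x
    rw [hkf]
    have := sum_len_le (S.filter (fun K => |x - xc K| < h K)) (fun K => lo K (x - xc K))
      (fun K => up K (x - xc K)) a (a + d) (by linarith [hL.pos])
      (fun K hK => by
        rw [Finset.mem_filter] at hK
        exact hch K (hS K hK.1) x hK.2)
      (fun K hK K' hK' hne => by
        rw [Finset.mem_filter] at hK hK'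
        exact hdisj K (hS K hK.1) K' (hS K' hK'.1) hne x hK.2 hK'.2)
    linarith
  · -- savings
    intro S hS x y0 ε hε h1 h2 hfree
    rw [hkf]
    have := sum_len_le' (S.filter (fun K => |x - xc K| < h K)) (fun K => lo K (x - xc K))
      (fun K => up K (x - xc K)) a (a + d) (y0 - ε) (y0 + ε) (by linarith) (by linarith)
      (by linarith)
      (fun K hK => by
        rw [Finset.mem_filter] at hK
        exact hch K (hS K hK.1) x hK.2)
      (fun K hK K' hK' hne => by
        rw [Finset.mem_filter] at hK hK'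
        exact hdisj K (hS K hK.1) K' (hS K' hK'.1) hne x hK.2 hK'.2)
      (fun K hK => by
        rw [Finset.mem_filter] at hK
        rw [Set.disjoint_left]
        intro y hy hy'
        apply hfree y _ K (hS K hK.1)
        · exact (hmem K (hS K hK.1) x y).2 ⟨hK.2.le, hy.1.le, hy.2.le⟩
        · rw [abs_lt]
          constructor
          · linarith [hy'.1]
          · linarith [hy'.2])
    linarith
  · intro R
    have hfin : {K ∈ 𝒞 | ∃ p ∈ K, |⟪u, p⟫| ≤ R}.Finite := by
      apply (hL.locFin (|R| + (|a| + |a + d|))).subset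
      rintro K ⟨hK, p, hp, hpR⟩
      refine ⟨hK, p, hp, ?_⟩
      rw [Metric.mem_closedBall, dist_zero_right]
      have h1 := norm_le hON p
      have h2 := hL.strip K hK p hp
      have h3 : |⟪n, p⟫| ≤ |a| + |a + d| := by
        rw [abs_le]
        constructor
        · have := neg_abs_le a
          have := abs_nonneg (a + d)
          linarith [h2.1]
        · have := le_abs_self (a + d)
          have := abs_nonneg a
          linarith [h2.2]
      have h4 := le_abs_self R
      linarith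
    obtain ⟨S, hSdef⟩ : ∃ S : Finset (Set E), S = hfin.toFinset := ⟨_, rfl⟩
    have hS𝒞 : ∀ K ∈ S, K ∈ 𝒞 := by
      intro K hK
      rw [hSdef, Set.Finite.mem_toFinset] at hK
      exact hK.1
    have hSmem : ∀ K ∈ 𝒞, (∃ p ∈ K, |⟪u, p⟫| ≤ R) → K ∈ S := by
      intro K hK hp
      rw [hSdef, Set.Finite.mem_toFinset]
      exact ⟨hK, hp⟩
    have hcross : ∀ (p q : E) (L : ℝ), ⟪n, p⟫ = a → ⟪n, q⟫ = a + d → PathIn (Free 𝒞) p q L →
        crossLen 𝒞 n a d ≤ ENNReal.ofReal L := by
      intro p q L hp hq hpath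
      obtain ⟨γ, hc, h0, h1, hF, hlen⟩ := hReach (Free 𝒞) p q L hpath
      refine le_trans ?_ hlen
      exact iInf₂_le γ ⟨hc, by rw [h0]; exact hp, by rw [h1]; exact hq, fun t ht K hK => hF t ht K hK⟩
    have hfree : ∀ x : ℝ, |x| ≤ R → ∀ y : ℝ,
        (∀ K ∈ S.filter (fun K => |x - xc K| < h K),
          ¬ (lo K (x - xc K) < y ∧ y < up K (x - xc K))) → pt u n x y ∈ Free 𝒞 := by
      intro x hx y hy K hK hi
      have hKS : K ∈ S := hSmem K hK ⟨pt u n x y, interior_subset hi, by
        rw [inner_u_pt hON]; exact hx⟩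
      have hi' := (hint K hK x y).1 hi
      exact hy K (Finset.mem_filter.2 ⟨hKS, hi'.1⟩) hi'.2
    have hpath : ∀ K ∈ 𝒞, ∀ x : ℝ, |x - xc K| < h K →
        PathIn (Free 𝒞) (pt u n x (lo K (x - xc K))) (pt u n x (up K (x - xc K)))
          (r K (x - xc K)) := by
      intro K hK x hx
      have := pathIn_mono (frontier_subset_free hL hK) ((hD K hK).path _ hx)
      rwa [add_sub_cancel] at this
    refine ⟨S, hS𝒞, hSmem, ?_, ?_⟩
    · intro x hx
      rw [hgf]
      have hp := hLine (Free 𝒞) u n x a (a + d) (S.filter (fun K => |x - xc K| < h K))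
        (fun K => lo K (x - xc K)) (fun K => up K (x - xc K)) (fun K => r K (x - xc K)) hON
        (by linarith [hL.pos])
        (fun K hK => by
          rw [Finset.mem_filter] at hK
          exact hch K (hS𝒞 K hK.1) x hK.2)
        (fun K hK K' hK' hne => by
          rw [Finset.mem_filter] at hK hK'
          exact hsep K (hS𝒞 K hK.1) K' (hS𝒞 K' hK'.1) hne x hK.2 hK'.2)
        (fun K hK => by
          rw [Finset.mem_filter] at hK
          exact hpath K (hS𝒞 K hK.1) x hK.2)
        (fun y _ hy => hfree x hx y hy)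
      rw [add_sub_cancel_left] at hp
      exact hcross _ _ _ (inner_n_pt hON _ _) (inner_n_pt hON _ _) hp
    · intro K₀ hK₀ t1 t2 δ ht1 ht12 ht2 hδ hsave x hx hxt
      obtain ⟨htop, q', hq', hpq'⟩ := hsave (x - xc K₀) hxt
      have hx₀ : |x - xc K₀| < h K₀ := by
        rw [abs_lt]
        exact ⟨by linarith [hxt.1], by linarith [hxt.2]⟩
      have hpq := pathIn_mono (frontier_subset_free hL hK₀) hpq'
      rw [add_sub_cancel] at hpq
      have hch₀ := hch K₀ hK₀ x hx₀
      have hKS₀ : K₀ ∈ S.filter (fun K => |x - xc K| < h K) := by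
        rw [Finset.mem_filter]
        refine ⟨hSmem K₀ hK₀ ⟨pt u n x (lo K₀ (x - xc K₀)), ?_, by rw [inner_u_pt hON]; exact hx⟩,
          hx₀⟩
        exact (hmem K₀ hK₀ x _).2 ⟨hx₀.le, le_refl _, hch₀.2.1.le⟩
      rw [hgf]
      have hbelow : ∀ K ∈ (S.filter (fun K => |x - xc K| < h K)).erase K₀,
          up K (x - xc K) ≤ lo K₀ (x - xc K₀) := by
        intro K hK
        rw [Finset.mem_erase, Finset.mem_filter] at hK
        obtain ⟨hne, hKS, hxK⟩ := hK
        have hchK := hch K (hS𝒞 K hKS) x hxK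
        rcases hsep K (hS𝒞 K hKS) K₀ hK₀ hne x hxK hx₀ with h1 | h1
        · exact h1
        · exfalso
          rw [htop] at h1
          linarith [hchK.2.1, hchK.2.2]
      have hp := hLine (Free 𝒞) u n x a (lo K₀ (x - xc K₀))
        ((S.filter (fun K => |x - xc K| < h K)).erase K₀)
        (fun K => lo K (x - xc K)) (fun K => up K (x - xc K)) (fun K => r K (x - xc K)) hON
        hch₀.1
        (fun K hK => by
          have hb := hbelow K hK
          rw [Finset.mem_erase, Finset.mem_filter] at hK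
          have := hch K (hS𝒞 K hK.2.1) x hK.2.2
          exact ⟨this.1, this.2.1, hb⟩)
        (fun K hK K' hK' hne => by
          rw [Finset.mem_erase, Finset.mem_filter] at hK hK'
          exact hsep K (hS𝒞 K hK.2.1) K' (hS𝒞 K' hK'.2.1) hne x hK.2.2 hK'.2.2)
        (fun K hK => by
          rw [Finset.mem_erase, Finset.mem_filter] at hK
          exact hpath K (hS𝒞 K hK.2.1) x hK.2.2)
        (fun y hy hyA => by
          apply hfree x hx y
          intro K hK
          by_cases hKK : K = K₀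
          · subst hKK
            intro hcon
            linarith [hcon.1, hy.2]
          · exact hyA K (Finset.mem_erase.2 ⟨hKK, hK⟩))
      have hfull := PathIn.trans hp hpq
      have hsum := Finset.add_sum_erase (S.filter (fun K => |x - xc K| < h K))
        (fun K => r K (x - xc K) - (up K (x - xc K) - lo K (x - xc K))) hKS₀
      have hL' := hcross _ _ _ (inner_n_pt hON _ _) hq' hfull
      refine le_trans hL' (le_of_eq ?_)
      congr 1
      rw [← hsum, htop]
      ring

end Pool.Agent.LFT
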