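import Pool.Agent.LFT.Defs

/-!
# Module statements for the squad LFT (MP_9c589f_co)
-/

namespace Pool.Agent.LFT

open MeasureTheory Set
open scoped RealInnerProductSpace ENNReal

/-- REACH: a polygonal path inside `F` is a curve inside `F`. -/
def Stmt_Reach : Prop :=
  ∀ (F : Set E) (p q : E) (L : ℝ), PathIn F p q L →
    ∃ γ : ℝ → E, ContinuousOn γ (Icc 0 1) ∧ γ 0 = p ∧ γ 1 = q ∧ (∀ t ∈ Icc (0 : ℝ) 1, γ t ∈ F) ∧
      eVariationOn γ (Icc 0 1) ≤ ENNReal.ofReal L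

/-- LINE: a line with finitely many disjoint open intervals removed, each of which can be bypassed
at cost `ρ`. -/
def Stmt_Line : Prop :=
  ∀ (F : Set E) (u n : E) (x y0 y1 : ℝ) (A : Finset (Set E)) (α β ρ : Set E → ℝ),
    ON u n → y0 ≤ y1 →
    (∀ i ∈ A, y0 ≤ α i ∧ α i < β i ∧ β i ≤ y1) →
    (∀ i ∈ A, ∀ j ∈ A, i ≠ j → β i ≤ α j ∨ β j ≤ α i) →
    (∀ i ∈ A, PathIn F (pt u n x (α i)) (pt u n x (β i)) (ρ i)) →
    (∀ y ∈ Icc y0 y1, (∀ i ∈ A, ¬ (α i < y ∧ y < β i)) → pt u n x y ∈ F) →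
    PathIn F (pt u n x y0) (pt u n x y1) ((y1 - y0) + ∑ i ∈ A, (ρ i - (β i - α i)))

/-- The chord length of a body at the line `⟪u, p⟫ = x`. -/
noncomputable def kf (xc h : ℝ) (lo up : ℝ → ℝ) (x : ℝ) : ℝ :=
  if |x - xc| < h then up (x - xc) - lo (x - xc) else 0

/-- The excess of the detour over the chord at the line `⟪u, p⟫ = x`. -/
noncomputable def gf (xc h : ℝ) (lo up r : ℝ → ℝ) (x : ℝ) : ℝ :=
  if |x - xc| < h then r (x - xc) - (up (x - xc) - lo (x - xc)) else 0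

/-- The tent weight. -/
noncomputable def tent (R x : ℝ) : ℝ := max 0 (1 - |x| / R)

/-- TENT: integral of the excess function of one body against the tent weight. -/
def Stmt_Tent : Prop :=
  ∀ (u n : E) (c D R : ℝ) (K : Set E) (xc h : ℝ) (lo up r : ℝ → ℝ), ON u n → 1 < c → 0 < R →
    Detour u n c K xc h lo up r → h ≤ D →
    Integrable (kf xc h lo up) ∧ Integrable (gf xc h lo up r) ∧
    (∀ x, 0 ≤ kf xc h lo up x) ∧ (∀ x, 0 ≤ gf xc h lo up r x) ∧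
    (¬ (|xc| ≤ D ∨ |xc - R| ≤ D ∨ |xc + R| ≤ D) →
      ∫ x, tent R x * (gf xc h lo up r x - (c - 1) * kf xc h lo up x) ≤ 0) ∧
    ∫ x, tent R x * (gf xc h lo up r x - (c - 1) * kf xc h lo up x) ≤
      (D / R) * (2 * (c - 1)) * ∫ x, kf xc h lo up x

/-- LINEBOUND: bound of the crossing length for every line parallel to `n`. -/
def Stmt_LineBound : Prop :=
  ∀ (𝒞 : Set (Set E)) (u n : E) (a d c : ℝ) (xc h : Set E → ℝ) (lo up r : Set E → ℝ → ℝ),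
    ON u n → IsLayer 𝒞 n a d →
    (∀ K ∈ 𝒞, Detour u n c K (xc K) (h K) (lo K) (up K) (r K)) →
    (∀ (S : Finset (Set E)), (∀ K ∈ S, K ∈ 𝒞) →
      ∀ x, ∑ K ∈ S, kf (xc K) (h K) (lo K) (up K) x ≤ d) ∧
    -- savings when a box is not covered
    (∀ (S : Finset (Set E)), (∀ K ∈ S, K ∈ 𝒞) → ∀ x y0 ε : ℝ, 0 < ε → a < y0 - ε →
      y0 + ε < a + d → (∀ y, |y - y0| < ε → ∀ K ∈ 𝒞, pt u n x y ∉ K) →
      ∑ K ∈ S, kf (xc K) (h K) (lo K) (up K) x ≤ d - 2 * ε) ∧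
    ∀ R : ℝ, ∃ S : Finset (Set E), (∀ K ∈ S, K ∈ 𝒞) ∧
      (∀ K ∈ 𝒞, (∃ p ∈ K, |⟪u, p⟫| ≤ R) → K ∈ S) ∧
      (∀ x, |x| ≤ R →
        crossLen 𝒞 n a d ≤
          ENNReal.ofReal (d + ∑ K ∈ S, gf (xc K) (h K) (lo K) (up K) (r K) x)) ∧
      -- savings for a body with a flat top on the top line
      (∀ K ∈ 𝒞, ∀ t1 t2 δ : ℝ, -(h K) ≤ t1 → t1 < t2 → t2 ≤ h K → 0 < δ →
        (∀ t ∈ Ioo t1 t2, up K t = a + d ∧ ∃ q' : E, ⟪n, q'⟫ = a + d ∧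
          PathIn (frontier K) (pt u n (xc K + t) (lo K t)) q' (r K t - δ)) →
        ∀ x, |x| ≤ R → x - xc K ∈ Ioo t1 t2 →
          crossLen 𝒞 n a d ≤
            ENNReal.ofReal (d + ∑ K ∈ S, gf (xc K) (h K) (lo K) (up K) (r K) x - δ))

/-- COVER: in a layer either a small open box of the strip is uncovered, or some body has two
different points on the top line. -/
def Stmt_Cover : Prop :=
  ∀ (𝒞 : Set (Set E)) (u n : E) (a d : ℝ), ON u n → IsLayer 𝒞 n a d →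
    (∃ x0 y0 ε : ℝ, 0 < ε ∧ a < y0 - ε ∧ y0 + ε < a + d ∧ ∀ x y : ℝ, |x - x0| < ε → |y - y0| < ε →
      ∀ K ∈ 𝒞, pt u n x y ∉ K) ∨
    (∃ K ∈ 𝒞, ∃ p ∈ K, ∃ q ∈ K, p ≠ q ∧ ⟪n, p⟫ = a + d ∧ ⟪n, q⟫ = a + d)

/-- AVG: the averaging argument.  Every layer all of whose bodies have detour data with constant
`c > 1` (and bounded half-width `h ≤ D`) has a crossing curve of length `< c d`. -/
def Stmt_Avg : Prop :=
  ∀ (𝒞 : Set (Set E)) (u n : E) (a d c D : ℝ), ON u n → IsLayer 𝒞 n a d → 1 < c →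
    (∀ K ∈ 𝒞, ∃ (xc h : ℝ) (lo up r : ℝ → ℝ), Detour u n c K xc h lo up r ∧ h ≤ D) →
    crossLen 𝒞 n a d < ENNReal.ofReal (c * d)

/-- PARA0: detour data of a parallelogram, normalised case `0 ≤ x ≤ y`. -/
def Stmt_Para0 : Prop :=
  ∀ (u n z e f : E) (x y c : ℝ), ON u n → LinearIndependent ℝ ![e, f] → n = x • e + y • f →
    0 ≤ x → x ≤ y → (‖f‖ + ‖e‖ / 2) * y + ‖e‖ / 2 * (x ^ 2 / y) ≤ c →
    ∃ (xc h : ℝ) (lo up r : ℝ → ℝ), Detour u n c (Para z e f) xc h lo up r ∧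
      h ≤ (‖e‖ + ‖f‖) / 2

/-- PARA: detour data of a parallelogram (from `Stmt_Para0` by changing signs and swapping). -/
def Stmt_Para : Prop :=
  ∀ (u n z e f : E) (x y c : ℝ), ON u n → LinearIndependent ℝ ![e, f] → n = x • e + y • f →
    NN ‖e‖ ‖f‖ x y ≤ c →
    ∃ (xc h : ℝ) (lo up r : ℝ → ℝ), Detour u n c (Para z e f) xc h lo up r ∧
      h ≤ (‖e‖ + ‖f‖) / 2

/-- NORM: the maximal direction of the norm `NN`. -/
def Stmt_Norm : Prop :=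
  ∀ (e f : E), LinearIndependent ℝ ![e, f] →
    ∃ (e2 f2 w : E) (τ : ℝ), (∀ z, Para z e2 f2 = Para z e f) ∧ LinearIndependent ℝ ![e2, f2] ∧
      |τ| ≤ 1 ∧ ⟪w, e2⟫ = ‖e2‖ * τ ∧ ⟪w, f2⟫ = ‖f2‖ + ‖e2‖ * (1 - τ ^ 2) / 2 ∧ 1 < ‖w‖ ∧
      ∀ x y : ℝ, NN ‖e‖ ‖f‖ x y ≤ ‖w‖ * ‖x • e + y • f‖

/-- GRAPH: in the edge graph of the sheared row tiling, curves are at least as long as predicted
by the functional `w`, up to a bounded error.  The point `x • e + y • f` lies on the graph iff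
`y` is an integer or `x - ⌊y⌋ δ` is an integer, where `δ = (1 + τ) / 2`. -/
def Stmt_Graph : Prop :=
  ∀ (e f w : E) (τ : ℝ), LinearIndependent ℝ ![e, f] → |τ| ≤ 1 → ⟪w, e⟫ = ‖e‖ * τ →
    ⟪w, f⟫ = ‖f‖ + ‖e‖ * (1 - τ ^ 2) / 2 →
    ∃ κ : ℝ, ∀ (γ : ℝ → E) (t1 t2 : ℝ), t1 ≤ t2 → ContinuousOn γ (Icc t1 t2) →
      (∀ t ∈ Icc t1 t2, ∀ x y : ℝ, γ t = x • e + y • f →
        (∃ m : ℤ, y = m) ∨ (∃ m : ℤ, x - ⌊y⌋ * ((1 + τ) / 2) = m)) →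
      ENNReal.ofReal (⟪w, γ t2 - γ t1⟫ - κ) ≤ eVariationOn γ (Icc t1 t2)

/-- TILE: layers of translates of the parallelogram whose crossing length is almost `‖w‖ d`. -/
def Stmt_Tile : Prop :=
  ∀ (e f w : E) (τ ρ : ℝ), LinearIndependent ℝ ![e, f] → |τ| ≤ 1 → ⟪w, e⟫ = ‖e‖ * τ →
    ⟪w, f⟫ = ‖f‖ + ‖e‖ * (1 - τ ^ 2) / 2 → w ≠ 0 → ρ < ‖w‖ →
    ∃ (𝒯 : Set (Set E)) (n : E) (d : ℝ), IsLayer 𝒯 n 0 d ∧
      (∀ K ∈ 𝒯, IsTranslate (Para 0 e f) K) ∧ ENNReal.ofReal (ρ * d) ≤ crossLen 𝒯 n 0 d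

end Pool.Agent.LFT
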