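import Pool.Agent.LFT.Defs
import Pool.Agent.LFT.Stmts

/-!
# Module NORM of the squad LFT (MP_9c589f_co)

The maximal direction of the norm `NN`.
-/

namespace Pool.Agent.LFT.Norm

open Set Pool.Agent.LFT
open scoped RealInnerProductSpace

/-- The supporting linear functional of `NN` at the direction `(τ, 1)`. -/
lemma support (b c τ : ℝ) (hb : 0 ≤ b) (hc : 0 ≤ c) (hτ : |τ| ≤ 1) (x y : ℝ) :
    x * (b * τ) + y * (c + b * (1 - τ ^ 2) / 2) ≤ NN b c x y := by
  have ht : 0 ≤ |τ| := abs_nonneg τ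
  have ht2 : τ ^ 2 = |τ| ^ 2 := (sq_abs τ).symm
  unfold NN
  split_ifs with h
  · rcases eq_or_ne y 0 with hy | hy
    · subst hy
      have hx : x = 0 := by
        have : |x| ≤ 0 := by simpa using h
        exact abs_eq_zero.mp (le_antisymm this (abs_nonneg x))
      subst hx
      simp
    · have hpos : 0 < |y| := abs_pos.mpr hy
      rcases lt_or_gt_of_ne hy with hneg | hp
      · have hay : |y| = -y := abs_of_neg hneg
        have h1 : b / 2 * (x ^ 2 / |y|) + b / 2 * |y| ≥ b * |x| := by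
          have h2 : x ^ 2 / |y| + |y| ≥ 2 * |x| := by
            have h3 : x ^ 2 / |y| + |y| - 2 * |x| = (|x| - |y|) ^ 2 / |y| := by
              field_simp
              rw [← sq_abs x]; ring
            have h4 : 0 ≤ (|x| - |y|) ^ 2 / |y| := by positivity
            linarith
          nlinarith
        have h5 : x * (b * τ) ≤ b * |x| := by
          have h6 : x * τ ≤ |x| * 1 := by
            calc x * τ ≤ |x * τ| := le_abs_self _
              _ = |x| * |τ| := abs_mul _ _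
              _ ≤ |x| * 1 := by gcongr
          nlinarith
        have h7 : 0 ≤ 1 - τ ^ 2 := by rw [ht2]; nlinarith
        have h8 : y * (c + b * (1 - τ ^ 2) / 2) ≤ 0 := by
          have : 0 ≤ c + b * (1 - τ ^ 2) / 2 := by positivity
          nlinarith
        have h9 : 0 ≤ c * |y| := by positivity
        nlinarith
      · have hay : |y| = y := abs_of_pos hp
        rw [hay]
        have h3 : (c + b / 2) * y + b / 2 * (x ^ 2 / y) -
            (x * (b * τ) + y * (c + b * (1 - τ ^ 2) / 2)) = b / 2 * ((x - τ * y) ^ 2 / y) := by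
          field_simp
          ring
        have h4 : 0 ≤ b / 2 * ((x - τ * y) ^ 2 / y) := by positivity
        linarith
  · rw [not_le] at h
    have hx : 0 < |x| := lt_of_le_of_lt (abs_nonneg y) h
    have h2 : y ^ 2 / |x| + |x| ≥ 2 * |y| := by
      have h3 : y ^ 2 / |x| + |x| - 2 * |y| = (|y| - |x|) ^ 2 / |x| := by
        field_simp
        rw [← sq_abs y]; ring
      have h4 : 0 ≤ (|y| - |x|) ^ 2 / |x| := by positivity
      linarith
    have h7 : 0 ≤ 1 - τ ^ 2 := by rw [ht2]; nlinarith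
    have h5 : x * (b * τ) ≤ b * |x| * |τ| := by
      have h6 : x * τ ≤ |x| * |τ| := by
        calc x * τ ≤ |x * τ| := le_abs_self _
          _ = |x| * |τ| := abs_mul _ _
      nlinarith
    have h8 : y * (c + b * (1 - τ ^ 2) / 2) ≤ |y| * c + |x| * (b * (1 - τ ^ 2) / 2) := by
      have h9 : 0 ≤ b * (1 - τ ^ 2) / 2 := by positivity
      have h10 : y ≤ |y| := le_abs_self y
      nlinarith
    have h11 : b * |x| * |τ| + |x| * (b * (1 - τ ^ 2) / 2) ≤ b * |x| := by
      have h12 : |τ| + (1 - τ ^ 2) / 2 ≤ 1 := by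
        rw [ht2]; nlinarith [sq_nonneg (1 - |τ|)]
      have h13 : 0 ≤ b * |x| := by positivity
      nlinarith
    nlinarith

lemma NN_swap (b c x y : ℝ) : NN c b y x = NN b c x y := by
  unfold NN
  rcases lt_trichotomy |x| |y| with h | h | h
  · rw [if_neg (not_le.mpr h), if_pos h.le]
  · rw [if_pos h.ge, if_pos h.le]
    rcases eq_or_ne y 0 with hy | hy
    · subst hy
      have hx : x = 0 := by simpa using h
      subst hx; simp
    · have hpos : 0 < |y| := abs_pos.mpr hy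
      have hpx : 0 < |x| := h ▸ hpos
      have e1 : x ^ 2 / |y| = |y| := by
        rw [← sq_abs x, h]; field_simp
      have e2 : y ^ 2 / |x| = |x| := by
        rw [← sq_abs y, ← h]; field_simp
      rw [e1, e2, h]; ring
  · rw [if_pos h.le, if_neg (not_le.mpr h)]

lemma NN_of_le (b c x y : ℝ) (h : |x| ≤ |y|) (hy : y ≠ 0) :
    NN b c x y = |y| * (c + b / 2 + b / 2 * (x / y) ^ 2) := by
  unfold NN
  rw [if_pos h]
  have hpos : 0 < |y| := abs_pos.mpr hy
  have : (x / y) ^ 2 = x ^ 2 / |y| ^ 2 := by rw [div_pow, sq_abs]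
  rw [this]
  field_simp

lemma para_swap (z e f : E) : Para z f e = Para z e f := by
  ext p
  constructor
  · rintro ⟨s, t, hs, ht, rfl⟩
    exact ⟨t, s, ht, hs, by abel⟩
  · rintro ⟨s, t, hs, ht, rfl⟩
    exact ⟨t, s, ht, hs, by abel⟩

lemma li_swap {e f : E} (h : LinearIndependent ℝ ![e, f]) : LinearIndependent ℝ ![f, e] := by
  rw [LinearIndependent.pair_iff] at h ⊢
  intro s t hst
  have := h t s (by rw [← hst]; abel)
  exact ⟨this.2, this.1⟩

lemma norm_ne {e f : E} (h : LinearIndependent ℝ ![e, f]) (t : ℝ) : ‖t • e + f‖ ≠ 0 := by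
  intro h0
  rw [norm_eq_zero] at h0
  rw [LinearIndependent.pair_iff] at h
  have := h t 1 (by simpa using h0)
  exact one_ne_zero this.2

/-- The ratio in the directions `(τ, 1)`. -/
noncomputable def F (e f : E) (τ : ℝ) : ℝ :=
  (‖f‖ + ‖e‖ / 2 + ‖e‖ / 2 * τ ^ 2) / ‖τ • e + f‖

lemma exists_max {e f : E} (h : LinearIndependent ℝ ![e, f]) :
    ∃ τ : ℝ, |τ| ≤ 1 ∧ ∀ s : ℝ, |s| ≤ 1 → F e f s ≤ F e f τ := by
  have hc : ContinuousOn (F e f) (Icc (-1) 1) := by
    unfold F
    apply Continuous.continuousOn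
    apply Continuous.div
    · fun_prop
    · fun_prop
    · exact norm_ne h
  obtain ⟨τ, hτ, hmax⟩ := isCompact_Icc.exists_isMaxOn (nonempty_Icc.mpr (by norm_num)) hc
  refine ⟨τ, abs_le.mpr hτ, fun s hs => hmax (abs_le.mp hs)⟩

lemma NN_le_of {e f : E} (h : LinearIndependent ℝ ![e, f]) (C : ℝ)
    (hF : ∀ s : ℝ, |s| ≤ 1 → F e f s ≤ C) (x y : ℝ) (hxy : |x| ≤ |y|) :
    NN ‖e‖ ‖f‖ x y ≤ C * ‖x • e + y • f‖ := by
  rcases eq_or_ne y 0 with hy | hy
  · subst hy
    have hx : x = 0 := by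
      have : |x| ≤ 0 := by simpa using hxy
      exact abs_eq_zero.mp (le_antisymm this (abs_nonneg x))
    subst hx
    simp [NN]
  · have hpos : 0 < |y| := abs_pos.mpr hy
    rw [NN_of_le _ _ _ _ hxy hy]
    have hs : |x / y| ≤ 1 := by
      rw [abs_div]; exact (div_le_one hpos).mpr hxy
    have hn : ‖x • e + y • f‖ = |y| * ‖(x / y) • e + f‖ := by
      rw [← Real.norm_eq_abs, ← norm_smul, smul_add, smul_smul]
      congr 3
      field_simp
    rw [hn]
    have hp : 0 < ‖(x / y) • e + f‖ := lt_of_le_of_ne (norm_nonneg _) (norm_ne h _).symm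
    have := hF _ hs
    unfold F at this
    rw [div_le_iff₀ hp] at this
    calc |y| * (‖f‖ + ‖e‖ / 2 + ‖e‖ / 2 * (x / y) ^ 2)
        ≤ |y| * (C * ‖(x / y) • e + f‖) := by gcongr
      _ = C * (|y| * ‖(x / y) • e + f‖) := by ring

lemma exists_w {e f : E} (h : LinearIndependent ℝ ![e, f]) (p q : ℝ) :
    ∃ w : E, ⟪w, e⟫ = p ∧ ⟪w, f⟫ = q := by
  have hcard : Fintype.card (Fin 2) = Module.finrank ℝ E := by simp [E]
  let B := basisOfLinearIndependentOfCardEqFinrank h hcard
  have hB : ⇑B = ![e, f] := coe_basisOfLinearIndependentOfCardEqFinrank h hcard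
  let φ : E →ₗ[ℝ] ℝ := B.constr ℝ ![p, q]
  have h0 : φ e = p := by
    have := B.constr_basis ℝ ![p, q] 0
    rw [hB] at this
    simpa [φ] using this
  have h1 : φ f = q := by
    have := B.constr_basis ℝ ![p, q] 1
    rw [hB] at this
    simpa [φ] using this
  refine ⟨(InnerProductSpace.toDual ℝ E).symm (LinearMap.toContinuousLinearMap φ), ?_, ?_⟩
  · rw [InnerProductSpace.toDual_symm_apply]; exact h0
  · rw [InnerProductSpace.toDual_symm_apply]; exact h1

lemma span_all {e f : E} (h : LinearIndependent ℝ ![e, f]) (v : E) :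
    ∃ x y : ℝ, v = x • e + y • f := by
  have hcard : Fintype.card (Fin 2) = Module.finrank ℝ E := by simp [E]
  let B := basisOfLinearIndependentOfCardEqFinrank h hcard
  have hB : ⇑B = ![e, f] := coe_basisOfLinearIndependentOfCardEqFinrank h hcard
  refine ⟨B.repr v 0, B.repr v 1, ?_⟩
  have := B.sum_repr v
  rw [Fin.sum_univ_two, hB] at this
  simpa using this.symm

/-- The main step: in the direction of the maximum. -/
lemma core {e f : E} (h : LinearIndependent ℝ ![e, f]) (τ C : ℝ) (hτ : |τ| ≤ 1)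
    (hC : C = F e f τ) (hN : ∀ x y : ℝ, NN ‖e‖ ‖f‖ x y ≤ C * ‖x • e + y • f‖) :
    ∃ w : E, ⟪w, e⟫ = ‖e‖ * τ ∧ ⟪w, f⟫ = ‖f‖ + ‖e‖ * (1 - τ ^ 2) / 2 ∧ ‖w‖ = C ∧ 1 < ‖w‖ := by
  obtain ⟨w, hw1, hw2⟩ := exists_w h (‖e‖ * τ) (‖f‖ + ‖e‖ * (1 - τ ^ 2) / 2)
  have he : 0 < ‖e‖ := by
    rw [norm_pos_iff]
    exact h.ne_zero 0
  have hf : 0 < ‖f‖ := by
    rw [norm_pos_iff]
    exact h.ne_zero 1
  have hC1 : 1 < C := by
    have h1 := hN 0 1
    rw [NN_of_le _ _ _ _ (by simp) one_ne_zero] at h1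
    simp only [abs_one, zero_div, zero_smul, one_smul, zero_add] at h1
    have h2 : ‖f‖ + ‖e‖ / 2 ≤ C * ‖f‖ := by nlinarith
    by_contra hcon
    rw [not_lt] at hcon
    nlinarith
  have hle : ‖w‖ ≤ C := by
    obtain ⟨x, y, hxy⟩ := span_all h w
    have h1 := support ‖e‖ ‖f‖ τ he.le hf.le hτ x y
    have h2 := hN x y
    rw [← hxy] at h2
    have h3 : ⟪w, w⟫ = x * (‖e‖ * τ) + y * (‖f‖ + ‖e‖ * (1 - τ ^ 2) / 2) := by
      calc ⟪w, w⟫ = ⟪w, x • e + y • f⟫ := by rw [← hxy]
        _ = _ := by rw [inner_add_right, inner_smul_right, inner_smul_right, hw1, hw2]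
    rw [real_inner_self_eq_norm_sq] at h3
    by_contra hcon
    rw [not_le] at hcon
    nlinarith [norm_nonneg w]
  have hge : C ≤ ‖w‖ := by
    have hp : 0 < ‖τ • e + f‖ := lt_of_le_of_ne (norm_nonneg _) (norm_ne h _).symm
    have h1 : ⟪w, τ • e + f⟫ = C * ‖τ • e + f‖ := by
      rw [inner_add_right, inner_smul_right, hw1, hw2, hC]
      unfold F
      rw [div_mul_cancel₀ _ hp.ne']
      ring
    have h2 := real_inner_le_norm w (τ • e + f)
    rw [h1] at h2
    exact le_of_mul_le_mul_right h2 hp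
  have heq : ‖w‖ = C := le_antisymm hle hge
  exact ⟨w, hw1, hw2, heq, heq ▸ hC1⟩

end Pool.Agent.LFT.Norm

namespace Pool.Agent.LFT

open Pool.Agent.LFT.Norm

theorem norm_proof : Stmt_Norm := by
  intro e f h
  have h' := li_swap h
  obtain ⟨τ, hτ, hmax⟩ := exists_max h
  obtain ⟨σ, hσ, hmax'⟩ := exists_max h'
  have hcomm : ∀ x y : ℝ, x • e + y • f = y • f + x • e := fun x y => add_comm _ _
  rcases le_total (F f e σ) (F e f τ) with hle | hle
  · have hN : ∀ x y : ℝ, NN ‖e‖ ‖f‖ x y ≤ F e f τ * ‖x • e + y • f‖ := by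
      intro x y
      rcases le_total |x| |y| with hxy | hxy
      · exact NN_le_of h _ hmax x y hxy
      · rw [← NN_swap, hcomm]
        exact NN_le_of h' _ (fun s hs => (hmax' s hs).trans hle) y x hxy
    obtain ⟨w, h1, h2, h3, h4⟩ := core h τ _ hτ rfl hN
    exact ⟨e, f, w, τ, fun _ => rfl, h, hτ, h1, h2, h4, by rw [h3]; exact hN⟩
  · have hN : ∀ x y : ℝ, NN ‖f‖ ‖e‖ x y ≤ F f e σ * ‖x • f + y • e‖ := by
      intro x y
      rcases le_total |x| |y| with hxy | hxy
      · exact NN_le_of h' _ hmax' x y hxy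
      · rw [← NN_swap, add_comm]
        exact NN_le_of h _ (fun s hs => (hmax s hs).trans hle) y x hxy
    obtain ⟨w, h1, h2, h3, h4⟩ := core h' σ _ hσ rfl hN
    refine ⟨f, e, w, σ, fun z => para_swap z e f, h', hσ, h1, h2, h4, ?_⟩
    intro x y
    rw [h3, ← NN_swap, hcomm]
    exact hN y x

end Pool.Agent.LFT
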