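import Pool.Agent.LFT.Stmts

/-!
# Module PARA (MP_9c589f_co): detour data of a parallelogram, all cases
-/

namespace Pool.Agent.LFT

open MeasureTheory Set
open scoped RealInnerProductSpace ENNReal

namespace ParaX

lemma para_swap (z e f : E) : Para z f e = Para z e f := by
  ext p
  constructor
  · rintro ⟨s, t, hs, ht, rfl⟩
    exact ⟨t, s, ht, hs, by abel⟩
  · rintro ⟨s, t, hs, ht, rfl⟩
    exact ⟨t, s, ht, hs, by abel⟩

lemma para_sign (z e f : E) {σ τ : ℝ} (hσ : σ = 1 ∨ σ = -1) (hτ : τ = 1 ∨ τ = -1) :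
    Para z (σ • e) (τ • f) = Para z e f := by
  have key : ∀ {σ τ : ℝ} (e f : E), (σ = 1 ∨ σ = -1) → (τ = 1 ∨ τ = -1) →
      Para z (σ • e) (τ • f) ⊆ Para z e f := by
    rintro σ τ e f hσ hτ p ⟨s, t, hs, ht, rfl⟩
    refine ⟨s * σ, t * τ, ?_, ?_, by rw [smul_smul, smul_smul]⟩
    · rcases hσ with rfl | rfl <;> simpa [abs_mul] using hs
    · rcases hτ with rfl | rfl <;> simpa [abs_mul] using ht
  refine Subset.antisymm (key e f hσ hτ) ?_
  have h1 := key (σ • e) (τ • f) hσ hτ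
  have hσ2 : σ * σ = 1 := by rcases hσ with rfl | rfl <;> norm_num
  have hτ2 : τ * τ = 1 := by rcases hτ with rfl | rfl <;> norm_num
  rwa [smul_smul, smul_smul, hσ2, hτ2, one_smul, one_smul] at h1

lemma exists_sign (x : ℝ) : ∃ σ : ℝ, (σ = 1 ∨ σ = -1) ∧ |x| * σ = x := by
  rcases le_total 0 x with h | h
  · exact ⟨1, Or.inl rfl, by rw [abs_of_nonneg h, mul_one]⟩
  · exact ⟨-1, Or.inr rfl, by rw [abs_of_nonpos h]; ring⟩

lemma li_sign {e f : E} (h : LinearIndependent ℝ ![e, f]) {σ τ : ℝ} (hσ : σ = 1 ∨ σ = -1)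
    (hτ : τ = 1 ∨ τ = -1) : LinearIndependent ℝ ![σ • e, τ • f] := by
  rw [LinearIndependent.pair_iff] at h ⊢
  intro s t hst
  rw [smul_smul, smul_smul] at hst
  obtain ⟨h1, h2⟩ := h _ _ hst
  constructor
  · rcases hσ with rfl | rfl
    · linarith
    · linarith
  · rcases hτ with rfl | rfl
    · linarith
    · linarith

lemma li_swap {e f : E} (h : LinearIndependent ℝ ![e, f]) : LinearIndependent ℝ ![f, e] := by
  rw [LinearIndependent.pair_iff] at h ⊢
  intro s t hst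
  rw [add_comm] at hst
  obtain ⟨h1, h2⟩ := h _ _ hst
  exact ⟨h2, h1⟩

lemma norm_sign (e : E) {σ : ℝ} (hσ : σ = 1 ∨ σ = -1) : ‖σ • e‖ = ‖e‖ := by
  rcases hσ with rfl | rfl <;> simp

/-- The case `|x| ≤ |y|`. -/
lemma main (h0 : Stmt_Para0) (u n z e f : E) (x y c : ℝ) (hON : ON u n)
    (hli : LinearIndependent ℝ ![e, f]) (hn : n = x • e + y • f) (hxy : |x| ≤ |y|)
    (hc : (‖f‖ + ‖e‖ / 2) * |y| + ‖e‖ / 2 * (x ^ 2 / |y|) ≤ c) :
    ∃ (xc h : ℝ) (lo up r : ℝ → ℝ), Detour u n c (Para z e f) xc h lo up r ∧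
      h ≤ (‖e‖ + ‖f‖) / 2 := by
  obtain ⟨σ, hσ, hσx⟩ := exists_sign x
  obtain ⟨τ, hτ, hτy⟩ := exists_sign y
  have h1 := h0 u n z (σ • e) (τ • f) |x| |y| c hON (li_sign hli hσ hτ)
    (by rw [smul_smul, smul_smul, hσx, hτy]; exact hn) (abs_nonneg x) hxy
    (by rw [norm_sign e hσ, norm_sign f hτ, sq_abs]; exact hc)
  rw [para_sign z e f hσ hτ, norm_sign e hσ, norm_sign f hτ] at h1
  exact h1

end ParaX

open ParaX

theorem para_proof (h0 : Stmt_Para0) : Stmt_Para := by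
  intro u n z e f x y c hON hli hn hc
  unfold NN at hc
  split_ifs at hc with hxy
  · exact main h0 u n z e f x y c hON hli hn hxy hc
  · have h1 := main h0 u n z f e y x c hON (li_swap hli) (by rw [hn, add_comm]) (not_le.mp hxy).le hc
    rw [para_swap z e f] at h1
    obtain ⟨xc, h, lo, up, r, hd, hh⟩ := h1
    exact ⟨xc, h, lo, up, r, hd, by linarith⟩

end Pool.Agent.LFT
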