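import Pool.Agent.LFT.Stmts

/-!
# REACH: polygonal paths are curves
-/

namespace Pool.Agent.LFT

open MeasureTheory Set
open scoped RealInnerProductSpace ENNReal

namespace Reach

theorem nonneg {F : Set E} {p q : E} {L : ℝ} (h : PathIn F p q L) : 0 ≤ L := by
  induction h with
  | seg p q _ => exact dist_nonneg
  | trans _ _ h1 h2 => exact add_nonneg h1 h2

theorem dist_le {F : Set E} {p q : E} {L : ℝ} (h : PathIn F p q L) : dist p q ≤ L := by
  induction h with
  | seg p q _ => exact le_rfl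
  | trans _ _ h1 h2 => exact (dist_triangle _ _ _).trans (add_le_add h1 h2)

theorem mono {F G : Set E} (hFG : F ⊆ G) {p q : E} {L : ℝ} (h : PathIn F p q L) :
    PathIn G p q L := by
  induction h with
  | seg p q hs => exact PathIn.seg p q (hs.trans hFG)
  | trans _ _ h1 h2 => exact PathIn.trans h1 h2

theorem variation_lineMap (p q : E) :
    eVariationOn (fun t : ℝ => (AffineMap.lineMap p q t : E)) (Icc (0 : ℝ) 1) ≤
      ENNReal.ofReal (dist p q) := by
  have h1 : LipschitzWith (Real.toNNReal (dist p q))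
      (fun t : ℝ => (AffineMap.lineMap p q t : E)) := by
    apply LipschitzWith.of_dist_le_mul
    intro s t
    rw [dist_lineMap_lineMap, Real.coe_toNNReal _ dist_nonneg, mul_comm]
  have h2 := (h1.lipschitzOnWith (s := Icc (0 : ℝ) 1)).comp_eVariationOn_le
    (g := fun t : ℝ => t) (s := Icc (0 : ℝ) 1) (by
      intro x hx; exact hx)
  have h3 : eVariationOn (fun t : ℝ => t) (Icc (0 : ℝ) 1) ≤ ENNReal.ofReal (1 - 0) := by
    have := MonotoneOn.eVariationOn_eq (f := fun t : ℝ => t) (s := Icc (0 : ℝ) 1) (a := 0) (b := 1)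
      (fun x _ y _ hxy => hxy) (by simp) (by simp)
    simpa using this.le
  refine h2.trans ?_
  refine (mul_le_mul_right h3 _).trans ?_
  simp [ENNReal.ofReal]

/-- Concatenation of two curves on `[0,1]`. -/
theorem concat {F : Set E} {γ₁ γ₂ : ℝ → E} {p q r : E} {L M : ℝ} (hL : 0 ≤ L) (hM : 0 ≤ M)
    (c1 : ContinuousOn γ₁ (Icc 0 1)) (s1 : γ₁ 0 = p) (e1 : γ₁ 1 = q)
    (m1 : ∀ t ∈ Icc (0 : ℝ) 1, γ₁ t ∈ F) (v1 : eVariationOn γ₁ (Icc 0 1) ≤ ENNReal.ofReal L)
    (c2 : ContinuousOn γ₂ (Icc 0 1)) (s2 : γ₂ 0 = q) (e2 : γ₂ 1 = r)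
    (m2 : ∀ t ∈ Icc (0 : ℝ) 1, γ₂ t ∈ F) (v2 : eVariationOn γ₂ (Icc 0 1) ≤ ENNReal.ofReal M) :
    ∃ γ : ℝ → E, ContinuousOn γ (Icc 0 1) ∧ γ 0 = p ∧ γ 1 = r ∧ (∀ t ∈ Icc (0 : ℝ) 1, γ t ∈ F) ∧
      eVariationOn γ (Icc 0 1) ≤ ENNReal.ofReal (L + M) := by
  classical
  let γ : ℝ → E := fun t => if t ≤ 1 / 2 then γ₁ (2 * t) else γ₂ (2 * t - 1)
  have g1 : EqOn γ (γ₁ ∘ fun t => 2 * t) (Icc 0 (1 / 2)) := by
    intro t ht
    simp only [γ, Function.comp]
    rw [if_pos ht.2]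
  have g2 : EqOn γ (γ₂ ∘ fun t => 2 * t - 1) (Icc (1 / 2) 1) := by
    intro t ht
    simp only [γ, Function.comp]
    by_cases h : t ≤ 1 / 2
    · have : t = 1 / 2 := le_antisymm h ht.1
      rw [if_pos h, this]
      norm_num
      rw [e1, s2]
    · rw [if_neg h]
  have k1 : MapsTo (fun t : ℝ => 2 * t) (Icc 0 (1 / 2)) (Icc 0 1) := by
    intro t ht
    exact ⟨by linarith [ht.1], by linarith [ht.2]⟩
  have k2 : MapsTo (fun t : ℝ => 2 * t - 1) (Icc (1 / 2) 1) (Icc 0 1) := by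
    intro t ht
    exact ⟨by linarith [ht.1], by linarith [ht.2]⟩
  have hun : Icc (0 : ℝ) 1 = Icc 0 (1 / 2) ∪ Icc (1 / 2) 1 := by
    rw [Icc_union_Icc_eq_Icc] <;> norm_num
  refine ⟨γ, ?_, ?_, ?_, ?_, ?_⟩
  · rw [hun]
    apply ContinuousOn.union_of_isClosed _ _ isClosed_Icc isClosed_Icc
    · exact (c1.comp (by fun_prop) k1).congr g1
    · exact (c2.comp (by fun_prop) k2).congr g2
  · simp only [γ]
    rw [if_pos (by norm_num), mul_zero, s1]
  · simp only [γ]
    rw [if_neg (by norm_num)]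
    norm_num
    exact e2
  · intro t ht
    rw [hun] at ht
    rcases ht with ht | ht
    · rw [g1 ht]; exact m1 _ (k1 ht)
    · rw [g2 ht]; exact m2 _ (k2 ht)
  · have hadd := eVariationOn.Icc_add_Icc γ (s := univ) (a := (0 : ℝ)) (b := 1 / 2) (c := 1)
      (by norm_num) (by norm_num) (mem_univ _)
    simp only [univ_inter] at hadd
    rw [← hadd, ENNReal.ofReal_add hL hM]
    apply add_le_add
    · rw [eVariationOn.eq_of_eqOn g1]
      refine (eVariationOn.comp_le_of_monotoneOn γ₁ _ ?_ k1).trans v1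
      intro x _ y _ hxy
      simpa using hxy
    · rw [eVariationOn.eq_of_eqOn g2]
      refine (eVariationOn.comp_le_of_monotoneOn γ₂ _ ?_ k2).trans v2
      intro x _ y _ hxy
      simpa using hxy

end Reach

open Reach in
theorem reach_proof : Stmt_Reach := by
  intro F p q L h
  induction h with
  | seg p q hs =>
    refine ⟨fun t => AffineMap.lineMap p q t, ?_, by simp, by simp, ?_, variation_lineMap p q⟩
    · exact AffineMap.lineMap_continuous.continuousOn
    · intro t ht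
      apply hs
      rw [segment_eq_image_lineMap]
      exact ⟨t, ht, rfl⟩
  | trans h1 h2 ih1 ih2 =>
    obtain ⟨γ₁, c1, s1, e1, m1, v1⟩ := ih1
    obtain ⟨γ₂, c2, s2, e2, m2, v2⟩ := ih2
    exact concat (nonneg h1) (nonneg h2) c1 s1 e1 m1 v1 c2 s2 e2 m2 v2

end Pool.Agent.LFT
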