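import Pool.Agent.LFT.Stmts

/-!
# Module TENT (MP_9c589f_co): integral of the excess function of one body against the tent weight
-/

namespace Pool.Agent.LFT

open MeasureTheory Set
open scoped RealInnerProductSpace ENNReal

namespace TentX

/-- A polygonal path is at least as long as the distance of its end points. -/
lemma dist_le_of_pathIn {F : Set E} {p q : E} {L : ℝ} (h : PathIn F p q L) : dist p q ≤ L := by
  induction h with
  | seg p q _ => exact le_rfl
  | trans _ _ ih1 ih2 => exact (dist_triangle _ _ _).trans (add_le_add ih1 ih2)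

lemma dist_pt {u n : E} (hn : ‖n‖ = 1) (x y y' : ℝ) : dist (pt u n x y) (pt u n x y') = |y - y'| := by
  have : pt u n x y - pt u n x y' = (y - y') • n := by
    simp only [pt, sub_smul]; abel
  rw [dist_eq_norm, this, norm_smul, hn, mul_one, Real.norm_eq_abs]

/-- Cut-off of a function on `(-h, h)`. -/
noncomputable def cut (h : ℝ) (f : ℝ → ℝ) (t : ℝ) : ℝ := if |t| < h then f t else 0

lemma cut_eq_indicator (h : ℝ) (f : ℝ → ℝ) : cut h f = (Ioo (-h) h).indicator f := by
  funext t
  by_cases ht : |t| < h
  · have hm : t ∈ Ioo (-h) h := abs_lt.mp ht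
    rw [cut, if_pos ht, indicator_of_mem hm]
  · have hm : t ∉ Ioo (-h) h := fun hm => ht (abs_lt.mpr hm)
    rw [cut, if_neg ht, indicator_of_notMem hm]

lemma integrable_cut {h : ℝ} {f : ℝ → ℝ} (hh : 0 < h) (hf : IntervalIntegrable f volume (-h) h) :
    Integrable (cut h f) := by
  rw [cut_eq_indicator, integrable_indicator_iff measurableSet_Ioo]
  exact (intervalIntegrable_iff_integrableOn_Ioo_of_le (by linarith)).1 hf

lemma integral_cut {h : ℝ} {f : ℝ → ℝ} (hh : 0 < h) :
    ∫ t, cut h f t = ∫ t in (-h)..h, f t := by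
  rw [cut_eq_indicator, integral_indicator measurableSet_Ioo,
    intervalIntegral.integral_of_le (by linarith), integral_Ioc_eq_integral_Ioo]

lemma cut_sub (h : ℝ) (f g : ℝ → ℝ) (t : ℝ) : cut h (fun t => f t - g t) t = cut h f t - cut h g t := by
  simp only [cut]; split_ifs <;> simp

lemma cut_nonneg {h : ℝ} {f : ℝ → ℝ} (hf : ∀ t, |t| < h → 0 ≤ f t) (t : ℝ) : 0 ≤ cut h f t := by
  simp only [cut]
  split_ifs with ht
  · exact hf t ht
  · exact le_rfl

lemma cut_even {h : ℝ} {f : ℝ → ℝ} (hf : ∀ t, f (-t) = f t) (t : ℝ) : cut h f (-t) = cut h f t := by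
  simp only [cut, abs_neg, hf]

lemma tent_nonneg (R x : ℝ) : 0 ≤ tent R x := le_max_left _ _

lemma tent_le_one {R : ℝ} (hR : 0 < R) (x : ℝ) : tent R x ≤ 1 := by
  unfold tent
  refine max_le zero_le_one ?_
  have : 0 ≤ |x| / R := by positivity
  linarith

lemma tent_continuous (R : ℝ) : Continuous (tent R) := by
  unfold tent
  exact continuous_const.max (continuous_const.sub (continuous_abs.div_const R))

lemma tent_lip {R : ℝ} (hR : 0 < R) (x y : ℝ) : |tent R x - tent R y| ≤ |x - y| / R := by
  have h1 : |tent R x - tent R y| ≤ |(1 - |x| / R) - (1 - |y| / R)| := by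
    unfold tent
    have := abs_max_sub_max_le_max 0 (1 - |x| / R) 0 (1 - |y| / R)
    simpa using this
  refine h1.trans ?_
  have h2 : (1 - |x| / R) - (1 - |y| / R) = (|y| - |x|) / R := by ring
  rw [h2, abs_div, abs_of_pos hR]
  refine div_le_div_of_nonneg_right ?_ hR.le
  rw [abs_sub_comm x y]
  exact abs_abs_sub_abs_le_abs_sub y x

/-- Away from the kinks the tent is affine near `xc`. -/
lemma tent_sym {R D xc t h : ℝ} (hR : 0 < R) (hD : h ≤ D) (ht : |t| < h)
    (hn : ¬ (|xc| ≤ D ∨ |xc - R| ≤ D ∨ |xc + R| ≤ D)) :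
    tent R (xc + t) + tent R (xc - t) = 2 * tent R xc := by
  push Not at hn
  obtain ⟨h0, h1, h2⟩ := hn
  have ht1 := (abs_lt.mp ht).1
  have ht2 := (abs_lt.mp ht).2
  have hh : 0 < h := lt_of_le_of_lt (abs_nonneg t) ht
  unfold tent
  rcases le_total 0 xc with hx | hx
  · rw [abs_of_nonneg hx] at h0
    have e1 : |xc + t| = xc + t := abs_of_nonneg (by linarith)
    have e2 : |xc - t| = xc - t := abs_of_nonneg (by linarith)
    rw [e1, e2, abs_of_nonneg hx]
    rcases lt_abs.mp h1 with h3 | h3
    · have a1 : 1 - (xc + t) / R ≤ 0 := by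
        rw [sub_nonpos, le_div_iff₀ hR]; linarith
      have a2 : 1 - (xc - t) / R ≤ 0 := by
        rw [sub_nonpos, le_div_iff₀ hR]; linarith
      have a3 : 1 - xc / R ≤ 0 := by
        rw [sub_nonpos, le_div_iff₀ hR]; linarith
      rw [max_eq_left a1, max_eq_left a2, max_eq_left a3]; ring
    · have a1 : 0 ≤ 1 - (xc + t) / R := by
        rw [sub_nonneg, div_le_iff₀ hR]; linarith
      have a2 : 0 ≤ 1 - (xc - t) / R := by
        rw [sub_nonneg, div_le_iff₀ hR]; linarith
      have a3 : 0 ≤ 1 - xc / R := by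
        rw [sub_nonneg, div_le_iff₀ hR]; linarith
      rw [max_eq_right a1, max_eq_right a2, max_eq_right a3]; ring
  · rw [abs_of_nonpos hx] at h0
    have e1 : |xc + t| = -(xc + t) := abs_of_nonpos (by linarith)
    have e2 : |xc - t| = -(xc - t) := abs_of_nonpos (by linarith)
    rw [e1, e2, abs_of_nonpos hx]
    rcases lt_abs.mp h2 with h3 | h3
    · have a1 : 0 ≤ 1 - (-(xc + t)) / R := by
        rw [sub_nonneg, div_le_iff₀ hR]; linarith
      have a2 : 0 ≤ 1 - (-(xc - t)) / R := by
        rw [sub_nonneg, div_le_iff₀ hR]; linarith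
      have a3 : 0 ≤ 1 - (-xc) / R := by
        rw [sub_nonneg, div_le_iff₀ hR]; linarith
      rw [max_eq_right a1, max_eq_right a2, max_eq_right a3]; ring
    · have a1 : 1 - (-(xc + t)) / R ≤ 0 := by
        rw [sub_nonpos, le_div_iff₀ hR]; linarith
      have a2 : 1 - (-(xc - t)) / R ≤ 0 := by
        rw [sub_nonpos, le_div_iff₀ hR]; linarith
      have a3 : 1 - (-xc) / R ≤ 0 := by
        rw [sub_nonpos, le_div_iff₀ hR]; linarith
      rw [max_eq_left a1, max_eq_left a2, max_eq_left a3]; ring

lemma integrable_tent_mul {R : ℝ} (hR : 0 < R) {e : ℝ → ℝ} (he : Integrable e) (s : ℝ) (σ : ℝ) :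
    Integrable (fun t => tent R (s + σ * t) * e t) := by
  have hc : Continuous (fun t => tent R (s + σ * t)) :=
    (tent_continuous R).comp (continuous_const.add (continuous_const.mul continuous_id))
  refine he.bdd_mul (c := 1) hc.aestronglyMeasurable ?_
  refine Filter.Eventually.of_forall fun t => ?_
  rw [Real.norm_eq_abs, abs_of_nonneg (tent_nonneg _ _)]
  exact tent_le_one hR _

end TentX

open TentX

theorem tent_proof : Stmt_Tent := by
  intro u n c D R K xc h lo up r hON hc hR hK hD
  have hh := hK.hpos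
  -- the cut-off chord and excess
  obtain ⟨k0, hk0⟩ : ∃ k0, cut h (fun t => up t - lo t) = k0 := ⟨_, rfl⟩
  obtain ⟨g0, hg0⟩ : ∃ g0, cut h (fun t => r t - (up t - lo t)) = g0 := ⟨_, rfl⟩
  have hkf : ∀ x, kf xc h lo up x = k0 (x - xc) := fun x => by rw [← hk0]; rfl
  have hgf : ∀ x, gf xc h lo up r x = g0 (x - xc) := fun x => by rw [← hg0]; rfl
  have hik0 : Integrable k0 := by rw [← hk0]; exact integrable_cut hh hK.int_ch
  have hig0 : Integrable g0 := by
    rw [← hg0]; exact integrable_cut hh (hK.int_r.sub hK.int_ch)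
  have hk0n : ∀ t, 0 ≤ k0 t := by
    intro t; rw [← hk0]
    exact cut_nonneg (fun t ht => by have := hK.lt t ht; linarith) t
  have hg0n : ∀ t, 0 ≤ g0 t := by
    intro t; rw [← hg0]
    refine cut_nonneg (fun t ht => ?_) t
    have h1 := dist_le_of_pathIn (hK.path t ht)
    rw [dist_pt hON.2.1] at h1
    have h2 := hK.lt t ht
    rw [abs_sub_comm, abs_of_pos (by linarith)] at h1
    linarith
  have hk0e : ∀ t, k0 (-t) = k0 t := by
    intro t; rw [← hk0]; exact cut_even (fun t => hK.even_ch t) t
  have hg0e : ∀ t, g0 (-t) = g0 t := by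
    intro t; rw [← hg0]
    exact cut_even (fun t => by rw [hK.even_r, hK.even_ch]) t
  have hik : ∫ t, k0 t = ∫ t in (-h)..h, (up t - lo t) := by rw [← hk0]; exact integral_cut hh
  have hig : ∫ t, g0 t = ∫ t in (-h)..h, (r t - (up t - lo t)) := by
    rw [← hg0]; exact integral_cut hh
  have hle : ∫ t, g0 t ≤ (c - 1) * ∫ t, k0 t := by rw [hik, hig]; exact hK.int_le
  have hkI : Integrable (kf xc h lo up) := by
    have : kf xc h lo up = fun x => k0 (x - xc) := funext hkf
    rw [this]; exact hik0.comp_sub_right xc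
  have hgI : Integrable (gf xc h lo up r) := by
    have : gf xc h lo up r = fun x => g0 (x - xc) := funext hgf
    rw [this]; exact hig0.comp_sub_right xc
  have hkint : ∫ x, kf xc h lo up x = ∫ t, k0 t := by
    simp only [hkf]; exact integral_sub_right_eq_self k0 xc
  -- the excess function
  obtain ⟨e, he⟩ : ∃ e : ℝ → ℝ, (fun t => g0 t - (c - 1) * k0 t) = e := ⟨_, rfl⟩
  have heI : Integrable e := by rw [← he]; exact hig0.sub (hik0.const_mul (c - 1))
  have hee : ∀ t, e (-t) = e t := by intro t; rw [← he]; simp only [hk0e, hg0e]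
  have heint : ∫ t, e t ≤ 0 := by
    rw [← he, integral_sub hig0 (hik0.const_mul (c - 1)), integral_const_mul]; linarith
  have hsupp : ∀ t, ¬ |t| < h → e t = 0 := by
    intro t ht; rw [← he, ← hk0, ← hg0]; simp [cut, ht]
  have habs : ∀ t, |e t| ≤ g0 t + (c - 1) * k0 t := by
    intro t
    rw [← he]
    have h1 := hg0n t
    have h2 : 0 ≤ (c - 1) * k0 t := mul_nonneg (by linarith) (hk0n t)
    rw [abs_le]; constructor <;> simp only <;> linarith
  have hWint : ∫ x, tent R x * (gf xc h lo up r x - (c - 1) * kf xc h lo up x) =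
      ∫ t, tent R (xc + 1 * t) * e t := by
    have h1 : ∀ x, tent R x * (gf xc h lo up r x - (c - 1) * kf xc h lo up x) =
        (fun t => tent R (xc + 1 * t) * e t) (x - xc) := by
      intro x
      simp only [hkf, hgf, ← he]
      congr 2; ring
    simp only [h1]
    exact integral_sub_right_eq_self (fun t => tent R (xc + 1 * t) * e t) xc
  have hI1 : Integrable (fun t => tent R (xc + 1 * t) * e t) := integrable_tent_mul hR heI _ _
  have hI2 : Integrable (fun t => tent R (xc + (-1) * t) * e t) := integrable_tent_mul hR heI _ _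
  refine ⟨hkI, hgI, fun x => by rw [hkf]; exact hk0n _, fun x => by rw [hgf]; exact hg0n _,
    ?_, ?_⟩
  · intro hn
    rw [hWint]
    have hneg : ∫ t, tent R (xc + 1 * t) * e t = ∫ t, tent R (xc + (-1) * t) * e t := by
      have h1 : ∀ t, tent R (xc + (-1) * t) * e t = (fun s => tent R (xc + 1 * s) * e s) (-t) := by
        intro t; simp only [hee]; congr 2; ring
      simp only [h1]
      exact (integral_neg_eq_self (fun s => tent R (xc + 1 * s) * e s) volume).symm
    have hsum : (∫ t, tent R (xc + 1 * t) * e t) + ∫ t, tent R (xc + (-1) * t) * e t =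
        ∫ t, (2 * tent R xc) * e t := by
      rw [← integral_add hI1 hI2]
      congr 1; funext t
      by_cases ht : |t| < h
      · rw [← add_mul]
        have := tent_sym (xc := xc) hR hD ht hn
        have e1 : xc + 1 * t = xc + t := by ring
        have e2 : xc + (-1) * t = xc - t := by ring
        rw [e1, e2, this]
      · rw [hsupp t ht]; ring
    rw [integral_const_mul] at hsum
    have h3 : 0 ≤ tent R xc := tent_nonneg _ _
    have h4 : (2 * tent R xc) * ∫ t, e t ≤ 0 := mul_nonpos_of_nonneg_of_nonpos (by linarith) heint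
    linarith
  · rw [hWint, hkint]
    have hsplit : ∫ t, tent R (xc + 1 * t) * e t =
        (∫ t, tent R xc * e t) + ∫ t, (tent R (xc + 1 * t) - tent R xc) * e t := by
      have hd : Integrable (fun t => (tent R (xc + 1 * t) - tent R xc) * e t) := by
        have : (fun t => (tent R (xc + 1 * t) - tent R xc) * e t) =
            fun t => tent R (xc + 1 * t) * e t - tent R xc * e t := by funext t; ring
        rw [this]; exact hI1.sub (heI.const_mul _)
      rw [← integral_add (heI.const_mul _) hd]
      congr 1; funext t; ring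
    have hA : ∫ t, tent R xc * e t ≤ 0 := by
      rw [integral_const_mul]
      exact mul_nonpos_of_nonneg_of_nonpos (tent_nonneg _ _) heint
    have hd : Integrable (fun t => (tent R (xc + 1 * t) - tent R xc) * e t) := by
      have : (fun t => (tent R (xc + 1 * t) - tent R xc) * e t) =
          fun t => tent R (xc + 1 * t) * e t - tent R xc * e t := by funext t; ring
      rw [this]; exact hI1.sub (heI.const_mul _)
    have hB : ∫ t, (tent R (xc + 1 * t) - tent R xc) * e t ≤
        ∫ t, (h / R) * (g0 t + (c - 1) * k0 t) := by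
      refine integral_mono hd ((hig0.add (hik0.const_mul (c - 1))).const_mul (h / R)) ?_
      intro t
      simp only
      have hr0 : 0 ≤ g0 t + (c - 1) * k0 t := (abs_nonneg _).trans (habs t)
      by_cases ht : |t| < h
      · have h1 : |tent R (xc + 1 * t) - tent R xc| ≤ h / R := by
          refine (tent_lip hR _ _).trans ?_
          refine div_le_div_of_nonneg_right ?_ hR.le
          have : xc + 1 * t - xc = t := by ring
          rw [this]; exact ht.le
        calc (tent R (xc + 1 * t) - tent R xc) * e t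
            ≤ |(tent R (xc + 1 * t) - tent R xc) * e t| := le_abs_self _
          _ = |tent R (xc + 1 * t) - tent R xc| * |e t| := abs_mul _ _
          _ ≤ (h / R) * (g0 t + (c - 1) * k0 t) :=
              mul_le_mul h1 (habs t) (abs_nonneg _) (by positivity)
      · rw [hsupp t ht, mul_zero]
        exact mul_nonneg (by positivity) hr0
    have hC : ∫ t, (h / R) * (g0 t + (c - 1) * k0 t) ≤ (D / R) * (2 * (c - 1)) * ∫ t, k0 t := by
      rw [integral_const_mul, integral_add hig0 (hik0.const_mul (c - 1)), integral_const_mul]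
      have hk : 0 ≤ ∫ t, k0 t := integral_nonneg hk0n
      have h1 : (∫ t, g0 t) + (c - 1) * ∫ t, k0 t ≤ (2 * (c - 1)) * ∫ t, k0 t := by linarith
      calc (h / R) * ((∫ t, g0 t) + (c - 1) * ∫ t, k0 t)
          ≤ (h / R) * ((2 * (c - 1)) * ∫ t, k0 t) := mul_le_mul_of_nonneg_left h1 (by positivity)
        _ ≤ (D / R) * ((2 * (c - 1)) * ∫ t, k0 t) := by
            refine mul_le_mul_of_nonneg_right (div_le_div_of_nonneg_right hD hR.le) ?_
            exact mul_nonneg (by linarith) hk
        _ = (D / R) * (2 * (c - 1)) * ∫ t, k0 t := by ring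
    linarith

end Pool.Agent.LFT
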