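import Pool.Agent.LFT.Graph

/-!
# Module TILE of the squad LFT (MP_9c589f_co): layers cut out of the sheared row tiling
-/

namespace Pool.Agent.LFT.Tile

open MeasureTheory Set Filter Topology
open scoped RealInnerProductSpace ENNReal

/-- a piece of a curve between two levels. -/
theorem exists_piece (g : ℝ → ℝ) (hg : ContinuousOn g (Icc 0 1)) (α β : ℝ) (h0 : g 0 ≤ α)
    (h1 : β ≤ g 1) (hαβ : α ≤ β) :
    ∃ t1 t2 : ℝ, 0 ≤ t1 ∧ t1 ≤ t2 ∧ t2 ≤ 1 ∧ g t1 = α ∧ g t2 = β ∧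
      ∀ t ∈ Icc t1 t2, α ≤ g t ∧ g t ≤ β := by
  -- the first time
  set A : Set ℝ := Icc 0 1 ∩ g ⁻¹' (Ici β) with hA
  have hAc : IsClosed A := hg.preimage_isClosed_of_isClosed isClosed_Icc isClosed_Ici
  have hAn : A.Nonempty := ⟨1, ⟨zero_le_one, le_rfl⟩, h1⟩
  have hAb : BddBelow A := ⟨0, fun t ht => ht.1.1⟩
  set t2 := sInf A with ht2
  have ht2A : t2 ∈ A := hAc.csInf_mem hAn hAb
  have ht2m : ∀ t ∈ A, t2 ≤ t := fun t ht => csInf_le hAb ht
  have hg2 : ContinuousOn g (Icc 0 t2) := hg.mono (Icc_subset_Icc le_rfl ht2A.1.2)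
  have hgt2 : g t2 = β := by
    obtain ⟨t, ht, htb⟩ := intermediate_value_Icc ht2A.1.1 hg2
      (show β ∈ Icc (g 0) (g t2) from ⟨h0.trans hαβ, ht2A.2⟩)
    have h := ht2m t ⟨⟨ht.1, ht.2.trans ht2A.1.2⟩, htb.ge⟩
    have : t = t2 := le_antisymm ht.2 h
    rw [← this]; exact htb
  -- the last time before
  set B : Set ℝ := Icc 0 t2 ∩ g ⁻¹' (Iic α) with hB
  have hBc : IsClosed B := hg2.preimage_isClosed_of_isClosed isClosed_Icc isClosed_Iic
  have hBn : B.Nonempty := ⟨0, ⟨le_rfl, ht2A.1.1⟩, h0⟩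
  have hBb : BddAbove B := ⟨t2, fun t ht => ht.1.2⟩
  set t1 := sSup B with ht1
  have ht1B : t1 ∈ B := hBc.csSup_mem hBn hBb
  have ht1m : ∀ t ∈ B, t ≤ t1 := fun t ht => le_csSup hBb ht
  have hgt1 : g t1 = α := by
    have hg3 : ContinuousOn g (Icc t1 t2) := hg2.mono (Icc_subset_Icc ht1B.1.1 le_rfl)
    obtain ⟨t, ht, htb⟩ := intermediate_value_Icc ht1B.1.2 hg3
      (show α ∈ Icc (g t1) (g t2) from ⟨ht1B.2, hgt2 ▸ hαβ⟩)
    have h := ht1m t ⟨⟨ht1B.1.1.trans ht.1, ht.2⟩, htb.le⟩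
    have : t = t1 := le_antisymm h ht.1
    rw [← this]; exact htb
  refine ⟨t1, t2, ht1B.1.1, ht1B.1.2, ht2A.1.2, hgt1, hgt2, ?_⟩
  intro t ht
  constructor
  · by_contra hlt
    push Not at hlt
    have h := ht1m t ⟨⟨ht1B.1.1.trans ht.1, ht.2⟩, hlt.le⟩
    have : t = t1 := le_antisymm h ht.1
    rw [this, hgt1] at hlt
    exact lt_irrefl _ hlt
  · by_contra hlt
    push Not at hlt
    have h := ht2m t ⟨⟨ht1B.1.1.trans ht.1, ht.2.trans ht2A.1.2⟩, hlt.le⟩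
    have : t = t2 := le_antisymm ht.2 h
    rw [this, hgt2] at hlt
    exact lt_irrefl _ hlt

/-- the tile -/
def tile (e f : E) (δ : ℝ) (i j : ℤ) : Set E :=
  Para (((i : ℝ) + j * δ + 1 / 2) • e + ((j : ℝ) + 1 / 2) • f) e f

theorem para_convex (z e f : E) : Convex ℝ (Para z e f) := by
  rintro _ ⟨s, t, hs, ht, rfl⟩ _ ⟨s', t', hs', ht', rfl⟩ a b ha hb hab
  rw [abs_le] at hs ht hs' ht'
  refine ⟨a * s + b * s', a * t + b * t', ?_, ?_, ?_⟩
  · rw [abs_le]; constructor <;> nlinarith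
  · rw [abs_le]; constructor <;> nlinarith
  · have hb' : b = 1 - a := by linarith
    rw [hb']
    module

theorem para_translate (z e f : E) : IsTranslate (Para 0 e f) (Para z e f) := by
  refine ⟨z, ?_⟩
  ext p
  constructor
  · rintro ⟨s, t, hs, ht, rfl⟩
    exact ⟨0 + s • e + t • f, ⟨s, t, hs, ht, rfl⟩, by simp only; abel⟩
  · rintro ⟨_, ⟨s, t, hs, ht, rfl⟩, rfl⟩
    exact ⟨s, t, hs, ht, by simp only; abel⟩

theorem para_diam (z e f p q : E) (hp : p ∈ Para z e f) (hq : q ∈ Para z e f) :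
    ‖p - q‖ ≤ ‖e‖ + ‖f‖ := by
  obtain ⟨s, t, hs, ht, rfl⟩ := hp
  obtain ⟨s', t', hs', ht', rfl⟩ := hq
  have e1 : z + s • e + t • f - (z + s' • e + t' • f) = (s - s') • e + (t - t') • f := by module
  rw [e1]
  rw [abs_le] at hs ht hs' ht'
  have h1 : |s - s'| ≤ 1 := by rw [abs_le]; constructor <;> linarith
  have h2 : |t - t'| ≤ 1 := by rw [abs_le]; constructor <;> linarith
  calc ‖(s - s') • e + (t - t') • f‖ ≤ ‖(s - s') • e‖ + ‖(t - t') • f‖ := norm_add_le _ _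
    _ = |s - s'| * ‖e‖ + |t - t'| * ‖f‖ := by
        rw [norm_smul, norm_smul, Real.norm_eq_abs, Real.norm_eq_abs]
    _ ≤ 1 * ‖e‖ + 1 * ‖f‖ :=
        add_le_add (mul_le_mul_of_nonneg_right h1 (norm_nonneg _))
          (mul_le_mul_of_nonneg_right h2 (norm_nonneg _))
    _ = _ := by ring

section
variable (e f : E) (X Y : E → ℝ) (hX : Continuous X) (hY : Continuous Y)
  (hXY : ∀ p, p = X p • e + Y p • f)
  (huniq : ∀ p x y, p = x • e + y • f → x = X p ∧ y = Y p)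

/-- coordinates as a homeomorphism -/
noncomputable def homeo : E ≃ₜ ℝ × ℝ where
  toFun p := (X p, Y p)
  invFun z := z.1 • e + z.2 • f
  left_inv p := (hXY p).symm
  right_inv z := by
    obtain ⟨h1, h2⟩ := huniq _ z.1 z.2 rfl
    exact Prod.ext h1.symm h2.symm
  continuous_toFun := hX.prodMk hY
  continuous_invFun := by fun_prop

include hXY huniq in
theorem tile_eq (δ : ℝ) (i j : ℤ) : tile e f δ i j =
    homeo e f X Y hX hY hXY huniq ⁻¹'
      (Icc ((i : ℝ) + j * δ) (i + j * δ + 1) ×ˢ Icc (j : ℝ) (j + 1)) := by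
  ext p
  constructor
  · rintro ⟨s, t, hs, ht, hp⟩
    have hp' : p = ((i : ℝ) + j * δ + 1 / 2 + s) • e + ((j : ℝ) + 1 / 2 + t) • f := by
      rw [hp]; module
    obtain ⟨h1, h2⟩ := huniq _ _ _ hp'
    rw [abs_le] at hs ht
    refine ⟨?_, ?_⟩
    · change X p ∈ _
      rw [← h1, mem_Icc]; constructor <;> linarith
    · change Y p ∈ _
      rw [← h2, mem_Icc]; constructor <;> linarith
  · rintro ⟨h1, h2⟩
    change X p ∈ _ at h1
    change Y p ∈ _ at h2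
    rw [mem_Icc] at h1 h2
    refine ⟨X p - (i + j * δ + 1 / 2), Y p - (j + 1 / 2), ?_, ?_, ?_⟩
    · rw [abs_le]; constructor <;> linarith
    · rw [abs_le]; constructor <;> linarith
    · conv_lhs => rw [hXY p]
      module

include hX hY hXY huniq in
theorem mem_interior_tile (δ : ℝ) (i j : ℤ) (p : E) : p ∈ interior (tile e f δ i j) ↔
    ((i : ℝ) + j * δ < X p ∧ X p < i + j * δ + 1) ∧ ((j : ℝ) < Y p ∧ Y p < j + 1) := by
  rw [tile_eq e f X Y hX hY hXY huniq, ← Homeomorph.preimage_interior, interior_prod_eq,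
    interior_Icc, interior_Icc]
  exact Iff.rfl

include hX hY hXY huniq in
theorem mem_tile (δ : ℝ) (i j : ℤ) (p : E) : p ∈ tile e f δ i j ↔
    ((i : ℝ) + j * δ ≤ X p ∧ X p ≤ i + j * δ + 1) ∧ ((j : ℝ) ≤ Y p ∧ Y p ≤ j + 1) := by
  rw [tile_eq e f X Y hX hY hXY huniq]
  exact Iff.rfl

include hX hY hXY huniq in
theorem tile_compact (δ : ℝ) (i j : ℤ) : IsCompact (tile e f δ i j) := by
  rw [tile_eq e f X Y hX hY hXY huniq, Homeomorph.isCompact_preimage]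
  exact isCompact_Icc.prod isCompact_Icc

include hX hY hXY huniq in
theorem tile_interior_nonempty (δ : ℝ) (i j : ℤ) : (interior (tile e f δ i j)).Nonempty := by
  refine ⟨((i : ℝ) + j * δ + 1 / 2) • e + ((j : ℝ) + 1 / 2) • f, ?_⟩
  rw [mem_interior_tile e f X Y hX hY hXY huniq]
  obtain ⟨h1, h2⟩ := huniq _ _ _
    (rfl : ((i : ℝ) + j * δ + 1 / 2) • e + ((j : ℝ) + 1 / 2) • f = _)
  rw [← h1, ← h2]
  refine ⟨⟨?_, ?_⟩, ?_, ?_⟩ <;> linarith

include hX hY hXY huniq in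
theorem tile_disjoint (δ : ℝ) (i j i' j' : ℤ) (hne : tile e f δ i j ≠ tile e f δ i' j') :
    Disjoint (interior (tile e f δ i j)) (interior (tile e f δ i' j')) := by
  rw [Set.disjoint_left]
  intro p hp hp'
  rw [mem_interior_tile e f X Y hX hY hXY huniq] at hp hp'
  apply hne
  have h1 : (j : ℝ) < j' + 1 := by linarith [hp.2.1, hp'.2.2]
  have h2 : (j' : ℝ) < j + 1 := by linarith [hp.2.2, hp'.2.1]
  have h3 : j < j' + 1 := by exact_mod_cast h1
  have h4 : j' < j + 1 := by exact_mod_cast h2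
  have hj : j = j' := by omega
  subst hj
  have h5 : (i : ℝ) < i' + 1 := by linarith [hp.1.1, hp'.1.2]
  have h6 : (i' : ℝ) < i + 1 := by linarith [hp.1.2, hp'.1.1]
  have h7 : i < i' + 1 := by exact_mod_cast h5
  have h8 : i' < i + 1 := by exact_mod_cast h6
  have hi : i = i' := by omega
  rw [hi]

include hX hY hXY huniq in
theorem tile_locFin (δ R : ℝ) :
    {K : Set E | (∃ i j : ℤ, K = tile e f δ i j) ∧
      (K ∩ Metric.closedBall 0 R).Nonempty}.Finite := by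
  have hc : IsCompact (Metric.closedBall (0 : E) R) := isCompact_closedBall 0 R
  obtain ⟨B1, hB1⟩ := hc.exists_bound_of_continuousOn hX.continuousOn
  obtain ⟨B2, hB2⟩ := hc.exists_bound_of_continuousOn hY.continuousOn
  set M : ℤ := ⌈|B2|⌉ + 1 with hM
  set N : ℤ := ⌈|B1| + M * |δ|⌉ + 1 with hN
  have hfin : ((fun z : ℤ × ℤ => tile e f δ z.1 z.2) '' (Icc (-N) N ×ˢ Icc (-M) M)).Finite :=
    ((finite_Icc _ _).prod (finite_Icc _ _)).image _
  refine hfin.subset ?_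
  rintro K ⟨⟨i, j, rfl⟩, p, hp, hpR⟩
  refine ⟨(i, j), ⟨?_, ?_⟩, rfl⟩
  all_goals
    have hx := hB1 p hpR
    have hy := hB2 p hpR
    rw [Real.norm_eq_abs, abs_le] at hx hy
    rw [mem_tile e f X Y hX hY hXY huniq] at hp
    have hB2' : B2 ≤ |B2| := le_abs_self _
    have hB1' : B1 ≤ |B1| := le_abs_self _
    have hMr : |B2| + 1 ≤ M := by rw [hM]; push_cast; linarith [Int.le_ceil |B2|]
    have hNr : |B1| + M * |δ| + 1 ≤ N := by
      rw [hN]; push_cast; linarith [Int.le_ceil (|B1| + M * |δ|)]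
    have hj1 : -(M : ℝ) ≤ j := by linarith [hp.2.2, hy.1]
    have hj2 : (j : ℝ) ≤ M := by linarith [hp.2.1, hy.2]
  · have hjd : |(j : ℝ) * δ| ≤ M * |δ| := by
      rw [abs_mul]
      exact mul_le_mul_of_nonneg_right (abs_le.2 ⟨hj1, hj2⟩) (abs_nonneg _)
    have hjd' := abs_le.1 hjd
    have h1 : -(N : ℝ) ≤ i := by linarith [hp.1.2, hx.1, hjd'.2]
    have h2 : (i : ℝ) ≤ N := by linarith [hp.1.1, hx.2, hjd'.1]
    exact ⟨by exact_mod_cast h1, by exact_mod_cast h2⟩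
  · exact ⟨by exact_mod_cast hj1, by exact_mod_cast hj2⟩

end

end Pool.Agent.LFT.Tile

namespace Pool.Agent.LFT

open MeasureTheory Set Filter Topology
open scoped RealInnerProductSpace ENNReal

theorem tile_proof : Stmt_Tile := by
  intro e f w τ ρ hef hτ hwe hwf hw0 hρ
  obtain ⟨κ, hκ⟩ := graph_proof e f w τ hef hτ hwe hwf
  obtain ⟨X, Y, hX, hY, hXY, huniq⟩ := Graph.exists_coord e f hef
  set δ := (1 + τ) / 2 with hδ
  set D := ‖e‖ + ‖f‖ with hD
  have hD0 : 0 ≤ D := by positivity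
  set n : E := (‖w‖)⁻¹ • w with hn
  have hwn : ‖w‖ ≠ 0 := norm_ne_zero_iff.2 hw0
  have hwpos : 0 < ‖w‖ := norm_pos_iff.2 hw0
  have hn1 : ‖n‖ = 1 := by
    rw [hn, norm_smul, norm_inv, norm_norm, inv_mul_cancel₀ hwn]
  have hwv : ∀ v : E, ⟪w, v⟫ = ‖w‖ * ⟪n, v⟫ := by
    intro v
    rw [hn, real_inner_smul_left, ← mul_assoc, mul_inv_cancel₀ hwn, one_mul]
  obtain ⟨d, hd1, hd2⟩ : ∃ d : ℝ, 2 * D + 1 ≤ d ∧ ρ * d ≤ ‖w‖ * (d - 2 * D) - κ := by
    have hpos : 0 < ‖w‖ - ρ := by linarith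
    refine ⟨max (2 * D + 1) ((κ + 2 * D * ‖w‖) / (‖w‖ - ρ)), le_max_left _ _, ?_⟩
    have h := le_max_right (2 * D + 1) ((κ + 2 * D * ‖w‖) / (‖w‖ - ρ))
    set d := max (2 * D + 1) ((κ + 2 * D * ‖w‖) / (‖w‖ - ρ)) with hd
    rw [div_le_iff₀ hpos] at h
    nlinarith
  set 𝒯 : Set (Set E) := {K | (∃ i j : ℤ, K = Tile.tile e f δ i j) ∧
    ∀ p ∈ K, 0 ≤ ⟪n, p⟫ ∧ ⟪n, p⟫ ≤ 0 + d} with h𝒯
  refine ⟨𝒯, n, d, ?_, ?_, ?_⟩
  · constructor
    · exact hn1
    · linarith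
    · rintro K ⟨⟨i, j, rfl⟩, _⟩
      exact ⟨Tile.tile_compact e f X Y hX hY hXY huniq δ i j, Tile.para_convex _ _ _,
        Tile.tile_interior_nonempty e f X Y hX hY hXY huniq δ i j⟩
    · rintro K ⟨⟨i, j, rfl⟩, _⟩ K' ⟨⟨i', j', rfl⟩, _⟩ hne
      exact Tile.tile_disjoint e f X Y hX hY hXY huniq δ i j i' j' hne
    · rintro K ⟨_, hK⟩ p hp
      exact hK p hp
    · intro R
      refine (Tile.tile_locFin e f X Y hX hY hXY huniq δ R).subset ?_
      rintro K ⟨⟨hK, _⟩, hne⟩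
      exact ⟨hK, hne⟩
  · rintro K ⟨⟨i, j, rfl⟩, _⟩
    exact Tile.para_translate _ _ _
  · unfold crossLen
    refine le_iInf₂ ?_
    intro γ hγ
    have hg : ContinuousOn (fun t => ⟪n, γ t⟫) (Icc 0 1) := continuousOn_const.inner hγ.cont
    obtain ⟨t1, t2, h01, h12, h21, hg1, hg2, hbt⟩ := Tile.exists_piece (fun t => ⟪n, γ t⟫) hg
      D (d - D) (by change ⟪n, γ 0⟫ ≤ D; rw [hγ.start]; exact hD0)
      (by change d - D ≤ ⟪n, γ 1⟫; rw [hγ.stop]; linarith) (by linarith)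
    have hsub : Icc t1 t2 ⊆ Icc 0 1 := Icc_subset_Icc h01 h21
    have hgr : ∀ t ∈ Icc t1 t2, ∀ x y : ℝ, γ t = x • e + y • f →
        (∃ m : ℤ, y = m) ∨ (∃ m : ℤ, x - ⌊y⌋ * ((1 + τ) / 2) = m) := by
      intro t ht x y hxy
      by_contra hcon
      push Not at hcon
      obtain ⟨hc1, hc2⟩ := hcon
      obtain ⟨hx, hy⟩ := huniq _ _ _ hxy
      set j := ⌊y⌋ with hj
      set i := ⌊x - j * δ⌋ with hi
      have hint : γ t ∈ interior (Tile.tile e f δ i j) := by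
        rw [Tile.mem_interior_tile e f X Y hX hY hXY huniq, ← hx, ← hy]
        have a1 : (j : ℝ) < y := lt_of_le_of_ne (Int.floor_le y) (fun h => hc1 j h.symm)
        have a2 : y < j + 1 := Int.lt_floor_add_one y
        have a3 : (i : ℝ) < x - j * δ :=
          lt_of_le_of_ne (Int.floor_le _) (fun h => hc2 i (by rw [← hδ]; exact h.symm))
        have a4 : x - j * δ < i + 1 := Int.lt_floor_add_one _
        exact ⟨⟨by linarith, by linarith⟩, a1, a2⟩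
      refine hγ.avoid t (hsub ht) (Tile.tile e f δ i j) ⟨⟨i, j, rfl⟩, ?_⟩ hint
      intro p hp
      have hdm := Tile.para_diam _ e f p (γ t) hp (interior_subset hint)
      have habs : |⟪n, p - γ t⟫| ≤ D := by
        calc |⟪n, p - γ t⟫| ≤ ‖n‖ * ‖p - γ t‖ := abs_real_inner_le_norm _ _
          _ = ‖p - γ t‖ := by rw [hn1, one_mul]
          _ ≤ D := hdm
      rw [inner_sub_right, abs_le] at habs
      have hb := hbt t ht
      constructor <;> linarith [hb.1, hb.2, habs.1, habs.2]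
    have hlen := hκ γ t1 t2 h12 (hγ.cont.mono hsub) hgr
    calc ENNReal.ofReal (ρ * d) ≤ ENNReal.ofReal (⟪w, γ t2 - γ t1⟫ - κ) := by
          apply ENNReal.ofReal_le_ofReal
          rw [hwv, inner_sub_right]
          rw [hg1, hg2]
          have : d - D - D = d - 2 * D := by ring
          rw [this]
          exact hd2
      _ ≤ eVariationOn γ (Icc t1 t2) := hlen
      _ ≤ eVariationOn γ (Icc 0 1) := eVariationOn.mono γ hsub

end Pool.Agent.LFT
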