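import Pool.Agent.LFT.TriPatLayer

/-!
# Triangles without property (S) (MP_9c589f_co): the two patterns and their certificates
-/

namespace Pool.Agent.LFT.TriPat

/-- an integral certificate: side lengths `Le`, `Lf`, `Lg` of `e`, `f`, `f - e`, the values
`A`, `B` of the functional at `e`, `f` and a periodic correction `h`. -/
structure Cert (N : ℕ) where
  Le : ℤ
  Lf : ℤ
  Lg : ℤ
  A : ℤ
  B : ℤ
  h : ZMod N → ℤ

/-- residues whose edges are interior to a tile. -/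
def Pat.nf1 {N : ℕ} (P : Pat N) (r : ZMod N) : Prop :=
  P.tab r true = ((P.tab (r - P.b) false).1, (P.tab (r - P.b) false).2.1,
    (P.tab (r - P.b) false).2.2 + 1)
def Pat.nf2 {N : ℕ} (P : Pat N) (r : ZMod N) : Prop :=
  P.tab r true = ((P.tab (r - P.a) false).1, (P.tab (r - P.a) false).2.1 + 1,
    (P.tab (r - P.a) false).2.2)
def Pat.nf3 {N : ℕ} (P : Pat N) (r : ZMod N) : Prop := P.tab r true = P.tab r false

instance {N : ℕ} (P : Pat N) (r : ZMod N) : Decidable (P.nf1 r) := by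
  unfold Pat.nf1; infer_instance
instance {N : ℕ} (P : Pat N) (r : ZMod N) : Decidable (P.nf2 r) := by
  unfold Pat.nf2; infer_instance
instance {N : ℕ} (P : Pat N) (r : ZMod N) : Decidable (P.nf3 r) := by
  unfold Pat.nf3; infer_instance

/-- the certificate is correct. -/
def Cert.ok {N : ℕ} (C : Cert N) (P : Pat N) : Prop :=
  ∀ r : ZMod N, (P.nf1 r ∨ |C.A + C.h (r + P.a) - C.h r| ≤ C.Le) ∧
    (P.nf2 r ∨ |C.B + C.h (r + P.b) - C.h r| ≤ C.Lf) ∧
    (P.nf3 r ∨ |C.A - C.B + C.h (r + P.a) - C.h (r + P.b)| ≤ C.Lg)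

instance {N : ℕ} [NeZero N] (C : Cert N) (P : Pat N) : Decidable (C.ok P) := by
  unfold Cert.ok; infer_instance

/-- the pattern `Q1`. -/
def Q1U : Fin 5 → ℤ × ℤ × ℤ :=
  ![(2, 0, 0), (2, 0, 1), (1, 0, 0), (-2, -1, -1), (2, 1, 0)]

def Q1D : Fin 5 → ℤ × ℤ × ℤ :=
  ![(2, 0, 0), (-1, -1, -1), (-2, -1, -2), (-2, -1, -1), (-2, -2, -1)]

def Q1 : Pat 5 where
  a := 4
  b := 1
  s := 2
  tiles := [(2, 0), (-2, 3), (-1, 1), (1, 2)]
  tab := fun r k => if k then Q1U r else Q1D r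

/-- the pattern `M5`. -/
def M5U : Fin 30 → ℤ × ℤ × ℤ :=
  ![(5, 0, 0), (-5, -3, -1), (-5, -1, -2), (5, 1, 0), (-5, -2, -1), (5, 0, 1),
    (5, 2, 0), (-5, -1, -1), (5, 1, 1), (5, 3, 0), (5, 0, 2), (5, 2, 1),
    (5, 4, 0), (5, 1, 2), (5, 3, 1), (5, 0, 3), (5, 2, 2), (1, 0, 0),
    (5, 1, 3), (1, 0, 0), (5, 0, 4), (1, 0, 0), (-5, -1, -4), (1, 0, 0),
    (-5, -2, -3), (1, 0, 0), (-5, -3, -2), (-5, -1, -3), (-5, -4, -1), (-5, -2, -2)]

def M5D : Fin 30 → ℤ × ℤ × ℤ :=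
  ![(5, 0, 0), (-5, -3, -1), (-5, -1, -2), (5, 1, 0), (-5, -2, -1), (5, 0, 1),
    (5, 2, 0), (-5, -1, -1), (5, 1, 1), (5, 3, 0), (5, 0, 2), (5, 2, 1),
    (-1, -1, -1), (5, 1, 2), (-1, -1, -1), (5, 0, 3), (-1, -1, -1), (-5, -1, -5),
    (-1, -1, -1), (-5, -2, -4), (-1, -1, -1), (-5, -3, -3), (-5, -1, -4), (-5, -4, -2),
    (-5, -2, -3), (-5, -5, -1), (-5, -3, -2), (-5, -1, -3), (-5, -4, -1), (-5, -2, -2)]

def M5 : Pat 30 where
  a := 3
  b := 5
  s := 5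
  tiles := [(5, 0), (-5, 15), (-1, 20), (-1, 22), (-1, 24), (1, 17), (-1, 26), (1, 19), (-1, 28), (1, 21), (1, 23), (1, 25)]
  tab := fun r k => if k then M5U r else M5D r

/-- certificate at the shape `(0, 1, 1)`, scaled by `5`. -/
def cQ0 : Cert 5 where
  Le := 0
  Lf := 5
  Lg := 5
  A := 4
  B := 1
  h := (![0, -6, -2, -8, -4] : Fin 5 → ℤ)

/-- certificate at the shape `(1, 5, 6)`, scaled by `1`. -/
def cQ1 : Cert 5 where
  Le := 1
  Lf := 6
  Lg := 5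
  A := 5
  B := 2
  h := (![0, -6, -2, -8, -4] : Fin 5 → ℤ)

/-- certificate at the shape `(1, 3, 3)`, scaled by `1`. -/
def cQ2 : Cert 5 where
  Le := 1
  Lf := 3
  Lg := 3
  A := 3
  B := 1
  h := (![0, -3, -1, -4, -2] : Fin 5 → ℤ)

/-- certificate at the shape `(1, 5, 6)`, scaled by `5`. -/
def cM1 : Cert 30 where
  Le := 5
  Lf := 30
  Lg := 25
  A := 23
  B := 0
  h := (![0, 0, 0, -18, 0, -30, -36, 0, 0, -54, -60, 0,
    -72, 0, 0, -90, 0, -42, 0, -24, -60, -26, -42, -28,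
    -44, -30, -46, 0, -48, 0] : Fin 30 → ℤ)

/-- certificate at the shape `(1, 3, 4)`, scaled by `5`. -/
def cM3 : Cert 30 where
  Le := 5
  Lf := 20
  Lg := 15
  A := 17
  B := 0
  h := (![0, 0, 0, -12, 0, -20, -24, 0, 0, -36, -40, 0,
    -48, 0, 0, -60, 0, -28, 0, -26, -40, -24, -38, -22,
    -36, -20, -34, 0, -32, 0] : Fin 30 → ℤ)

/-- certificate at the shape `(1, 2, 2)`, scaled by `5`. -/
def cM8 : Cert 30 where
  Le := 5
  Lf := 10
  Lg := 10
  A := 11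
  B := 0
  h := (![0, 0, 0, -6, 0, -10, -12, 0, 0, -18, -20, 0,
    -24, 0, 0, -30, 0, -14, 0, -13, -20, -12, -19, -11,
    -18, -10, -17, 0, -16, 0] : Fin 30 → ℤ)

/-- certificate at the shape `(1, 3, 3)`, scaled by `5`. -/
def cM2 : Cert 30 where
  Le := 5
  Lf := 15
  Lg := 15
  A := 14
  B := 0
  h := (![0, 0, 0, -9, 0, -15, -18, 0, 0, -27, -30, 0,
    -36, 0, 0, -45, 0, -16, 0, -12, -30, -13, -21, -14,
    -22, -15, -23, 0, -24, 0] : Fin 30 → ℤ)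

/-- certificate at the shape `(1, 2, 3)`, scaled by `15`. -/
def cM5 : Cert 30 where
  Le := 15
  Lf := 45
  Lg := 30
  A := 39
  B := 5
  h := (![0, 0, 0, -24, 0, -20, -48, 0, 0, -72, -70, 0,
    -96, 0, 0, -120, 0, -56, 0, -52, -80, -48, -76, -44,
    -72, -40, -68, 0, -64, 0] : Fin 30 → ℤ)

/-- certificate at the shape `(2, 3, 3)`, scaled by `15`. -/
def cM4 : Cert 30 where
  Le := 30
  Lf := 45
  Lg := 45
  A := 54
  B := 5
  h := (![0, 0, 0, -24, 0, -20, -48, 0, 0, -72, -70, 0,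
    -96, 0, 0, -120, 0, -56, 0, -52, -80, -48, -76, -44,
    -72, -40, -68, 0, -64, 0] : Fin 30 → ℤ)


set_option maxRecDepth 100000 in
theorem Q1_valid : Q1.Valid := ⟨by decide, by decide, by decide, by decide⟩

set_option maxRecDepth 100000 in
theorem cQ0_ok : cQ0.ok Q1 := by decide
set_option maxRecDepth 100000 in
theorem cQ1_ok : cQ1.ok Q1 := by decide
set_option maxRecDepth 100000 in
theorem cQ2_ok : cQ2.ok Q1 := by decide

set_option maxRecDepth 100000 in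
theorem M5_v1 : ∀ r k, Ins (M5.tab r k).1 (M5.tab r k).2.1 (M5.tab r k).2.2 k := by decide
set_option maxRecDepth 100000 in
theorem M5_v2 : ∀ r k, ((M5.tab r k).1, r - (M5.a * ((M5.tab r k).2.1 : ZMod 30) +
    M5.b * ((M5.tab r k).2.2 : ZMod 30))) ∈ M5.tiles := by decide
set_option maxRecDepth 100000 in
theorem M5_v3 : ∀ t ∈ M5.tiles, -M5.s ≤ t.1 ∧ t.1 ≤ M5.s := by decide
set_option maxRecDepth 100000 in
theorem M5_v4 : ∀ t ∈ M5.tiles, ∀ u ∈ Finset.Icc (-M5.s) M5.s, ∀ v ∈ Finset.Icc (-M5.s) M5.s,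
    ∀ k, Ins t.1 u v k →
    M5.tab (t.2 + M5.a * (u : ZMod 30) + M5.b * (v : ZMod 30)) k = (t.1, u, v) := by decide

theorem M5_valid : M5.Valid := ⟨M5_v1, M5_v2, M5_v3, M5_v4⟩

set_option maxRecDepth 100000 in
theorem cM1_ok : cM1.ok M5 := by decide
set_option maxRecDepth 100000 in
theorem cM2_ok : cM2.ok M5 := by decide
set_option maxRecDepth 100000 in
theorem cM3_ok : cM3.ok M5 := by decide
set_option maxRecDepth 100000 in
theorem cM4_ok : cM4.ok M5 := by decide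
set_option maxRecDepth 100000 in
theorem cM5_ok : cM5.ok M5 := by decide
set_option maxRecDepth 100000 in
theorem cM8_ok : cM8.ok M5 := by decide

end Pool.Agent.LFT.TriPat
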