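import Pool.Agent.LFT.TriStmts

/-!
# Triangles without property (S) (MP_9c589f_co): the polynomial inequalities

In each region the shapes `(x, y, z)` are nonnegative combinations of three integral vectors, and
the difference of the lower and the upper bound is a polynomial with positive coefficients.
-/

namespace Pool.Agent.LFT.TriPoly

/-- `4 A² ‖w‖²` for the functional with values `α`, `β`. -/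
def QQ (x y z α β : ℝ) : ℝ := α ^ 2 * z ^ 2 - α * β * (x ^ 2 + z ^ 2 - y ^ 2) + β ^ 2 * x ^ 2

theorem polyC (l0 l1 l2 x y z α β : ℝ) (h0 : 0 ≤ l0) (h1 : 0 ≤ l1) (h2 : 0 ≤ l2)
    (hs : 0 < l0 + l1 + l2) (hx : x = 0 * l0 + 1 * l1 + 1 * l2) (hy : y = 5 * l0 + 5 * l1 + 3 * l2)
    (hz : z = 5 * l0 + 6 * l1 + 3 * l2) (hα : α = 4 * l0 + 5 * l1 + 3 * l2) (hβ : β = 1 * l0 + 2 * l1 + 1 * l2) :
    FF x z y < 9 * QQ x y z α β ∧ FF z x y < 9 * QQ x y z α β ∧ FF y x z < 9 * QQ x y z α β := by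
  subst hx hy hz hα hβ
  have h4 : 0 < (l0 + l1 + l2) ^ 4 := pow_pos hs 4
  refine ⟨?_, ?_, ?_⟩
  · have hp : 0 ≤
      3599 * (l0 ^ 4) + 17276 * (l0 ^ 3 * l1) + 9716 * (l0 ^ 3 * l2) +
      30710 * (l0 ^ 2 * l1 ^ 2) + 34332 * (l0 ^ 2 * l1 * l2) + 9543 * (l0 ^ 2 * l2 ^ 2) +
      23948 * (l0 * l1 ^ 3) + 39892 * (l0 * l1 ^ 2 * l2) + 22020 * (l0 * l1 * l2 ^ 2) +
      4025 * (l0 * l2 ^ 3) + 6911 * (l1 ^ 4) + 15236 * (l1 ^ 3 * l2) +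
      12511 * (l1 ^ 2 * l2 ^ 2) + 4531 * (l1 * l2 ^ 3) + 610 * (l2 ^ 4) := by positivity
    unfold FF QQ
    nlinarith [hp, h4]
  · have hp : 0 ≤
      1099 * (l0 ^ 4) + 4276 * (l0 ^ 3 * l1) + 2716 * (l0 ^ 3 * l2) + 5710 * (l0 ^ 2 * l1 ^ 2) +
      7532 * (l0 ^ 2 * l1 * l2) + 2393 * (l0 ^ 2 * l2 ^ 2) + 2868 * (l0 * l1 ^ 3) +
      6172 * (l0 * l1 ^ 2 * l2) + 4140 * (l0 * l1 * l2 ^ 2) + 885 * (l0 * l2 ^ 3) +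
      331 * (l1 ^ 4) + 1284 * (l1 ^ 3 * l2) + 1493 * (l1 ^ 2 * l2 ^ 2) + 695 * (l1 * l2 ^ 3) +
      114 * (l2 ^ 4) := by positivity
    unfold FF QQ
    nlinarith [hp, h4]
  · have hp : 0 ≤
      1099 * (l0 ^ 4) + 6276 * (l0 ^ 3 * l1) + 2716 * (l0 ^ 3 * l2) + 12710 * (l0 ^ 2 * l1 ^ 2) +
      11532 * (l0 ^ 2 * l1 * l2) + 2393 * (l0 ^ 2 * l2 ^ 2) + 10988 * (l0 * l1 ^ 3) +
      15412 * (l0 * l1 ^ 2 * l2) + 6760 * (l0 * l1 * l2 ^ 2) + 885 * (l0 * l2 ^ 3) +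
      3455 * (l1 ^ 4) + 6596 * (l1 ^ 3 * l2) + 4495 * (l1 ^ 2 * l2 ^ 2) + 1259 * (l1 * l2 ^ 3) +
      114 * (l2 ^ 4) := by positivity
    unfold FF QQ
    nlinarith [hp, h4]
theorem polyB1a (l0 l1 l2 x y z α β : ℝ) (h0 : 0 ≤ l0) (h1 : 0 ≤ l1) (h2 : 0 ≤ l2)
    (hs : 0 < l0 + l1 + l2) (hx : x = 5 * l0 + 5 * l1 + 5 * l2) (hy : y = 25 * l0 + 15 * l1 + 10 * l2)
    (hz : z = 30 * l0 + 20 * l1 + 10 * l2) (hα : α = 23 * l0 + 17 * l1 + 11 * l2) (hβ : β = 0 * l0 + 0 * l1 + 0 * l2) :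
    FF x z y < 9 * QQ x y z α β ∧ FF z x y < 9 * QQ x y z α β ∧ FF y x z < 9 * QQ x y z α β := by
  subst hx hy hz hα hβ
  have h4 : 0 < (l0 + l1 + l2) ^ 4 := pow_pos hs 4
  refine ⟨?_, ?_, ?_⟩
  · have hp : 0 ≤
      4194899 * (l0 ^ 4) + 11747396 * (l0 ^ 3 * l1) + 6497696 * (l0 ^ 3 * l2) +
      12320894 * (l0 ^ 2 * l1 ^ 2) + 13536388 * (l0 ^ 2 * l1 * l2) +
      3675469 * (l0 ^ 2 * l2 ^ 2) + 5736396 * (l0 * l1 ^ 3) + 9394088 * (l0 * l1 ^ 2 * l2) +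
      5061788 * (l0 * l1 * l2 ^ 2) + 894421 * (l0 * l2 ^ 3) + 1000399 * (l1 ^ 4) +
      2171796 * (l1 ^ 3 * l2) + 1742719 * (l1 ^ 2 * l2 ^ 2) + 610321 * (l1 * l2 ^ 3) +
      78274 * (l2 ^ 4) := by positivity
    unfold FF QQ
    nlinarith [hp, h4]
  · have hp : 0 ≤
      82399 * (l0 ^ 4) + 567396 * (l0 ^ 3 * l1) + 412696 * (l0 ^ 3 * l2) +
      955894 * (l0 ^ 2 * l1 ^ 2) + 1211388 * (l0 ^ 2 * l1 * l2) + 379219 * (l0 ^ 2 * l2 ^ 2) +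
      616396 * (l0 * l1 ^ 3) + 1099088 * (l0 * l1 ^ 2 * l2) + 649288 * (l0 * l1 * l2 ^ 2) +
      126921 * (l0 * l2 ^ 3) + 137899 * (l1 ^ 4) + 316796 * (l1 ^ 3 * l2) +
      271469 * (l1 ^ 2 * l2 ^ 2) + 102821 * (l1 * l2 ^ 3) + 14524 * (l2 ^ 4) := by positivity
    unfold FF QQ
    nlinarith [hp, h4]
  · have hp : 0 ≤
      2034899 * (l0 ^ 4) + 6347396 * (l0 ^ 3 * l1) + 2717696 * (l0 ^ 3 * l2) +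
      7280894 * (l0 ^ 2 * l1 ^ 2) + 6516388 * (l0 ^ 2 * l1 * l2) + 1275469 * (l0 ^ 2 * l2 ^ 2) +
      3656396 * (l0 * l1 ^ 3) + 5074088 * (l0 * l1 ^ 2 * l2) + 2126788 * (l0 * l1 * l2 ^ 2) +
      241921 * (l0 * l2 ^ 3) + 680399 * (l1 ^ 4) + 1291796 * (l1 ^ 3 * l2) +
      852719 * (l1 ^ 2 * l2 ^ 2) + 217821 * (l1 * l2 ^ 3) + 14524 * (l2 ^ 4) := by positivity
    unfold FF QQ
    nlinarith [hp, h4]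
theorem polyB1b (l0 l1 l2 x y z α β : ℝ) (h0 : 0 ≤ l0) (h1 : 0 ≤ l1) (h2 : 0 ≤ l2)
    (hs : 0 < l0 + l1 + l2) (hx : x = 5 * l0 + 5 * l1 + 5 * l2) (hy : y = 25 * l0 + 10 * l1 + 15 * l2)
    (hz : z = 30 * l0 + 10 * l1 + 15 * l2) (hα : α = 23 * l0 + 11 * l1 + 14 * l2) (hβ : β = 0 * l0 + 0 * l1 + 0 * l2) :
    FF x z y < 9 * QQ x y z α β ∧ FF z x y < 9 * QQ x y z α β ∧ FF y x z < 9 * QQ x y z α β := by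
  subst hx hy hz hα hβ
  have h4 : 0 < (l0 + l1 + l2) ^ 4 := pow_pos hs 4
  refine ⟨?_, ?_, ?_⟩
  · have hp : 0 ≤
      4194899 * (l0 ^ 4) + 6497696 * (l0 ^ 3 * l1) + 9013796 * (l0 ^ 3 * l2) +
      3675469 * (l0 ^ 2 * l1 ^ 2) + 10329288 * (l0 ^ 2 * l1 * l2) + 7215844 * (l0 ^ 2 * l2 ^ 2) +
      894421 * (l0 * l1 ^ 3) + 3827838 * (l0 * l1 ^ 2 * l2) + 5426013 * (l0 * l1 * l2 ^ 2) +
      2547946 * (l0 * l2 ^ 3) + 78274 * (l1 ^ 4) + 455146 * (l1 ^ 3 * l2) +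
      984894 * (l1 ^ 2 * l2 ^ 2) + 940396 * (l1 * l2 ^ 3) + 334399 * (l2 ^ 4) := by positivity
    unfold FF QQ
    nlinarith [hp, h4]
  · have hp : 0 ≤
      82399 * (l0 ^ 4) + 412696 * (l0 ^ 3 * l1) + 293796 * (l0 ^ 3 * l2) +
      379219 * (l0 ^ 2 * l1 ^ 2) + 771788 * (l0 ^ 2 * l1 * l2) + 329594 * (l0 ^ 2 * l2 ^ 2) +
      126921 * (l0 * l1 ^ 3) + 435338 * (l0 * l1 ^ 2 * l2) + 468513 * (l0 * l1 * l2 ^ 2) +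
      150446 * (l0 * l2 ^ 3) + 14524 * (l1 ^ 4) + 70146 * (l1 ^ 3 * l2) +
      123644 * (l1 ^ 2 * l2 ^ 2) + 92896 * (l1 * l2 ^ 3) + 24399 * (l2 ^ 4) := by positivity
    unfold FF QQ
    nlinarith [hp, h4]
  · have hp : 0 ≤
      2034899 * (l0 ^ 4) + 2717696 * (l0 ^ 3 * l1) + 3613796 * (l0 ^ 3 * l2) +
      1275469 * (l0 ^ 2 * l1 ^ 2) + 3369288 * (l0 ^ 2 * l1 * l2) + 2205844 * (l0 ^ 2 * l2 ^ 2) +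
      241921 * (l0 * l1 ^ 3) + 937838 * (l0 * l1 ^ 2 * l2) + 1198513 * (l0 * l1 * l2 ^ 2) +
      502946 * (l0 * l2 ^ 3) + 14524 * (l1 ^ 4) + 70146 * (l1 ^ 3 * l2) +
      123644 * (l1 ^ 2 * l2 ^ 2) + 92896 * (l1 * l2 ^ 3) + 24399 * (l2 ^ 4) := by positivity
    unfold FF QQ
    nlinarith [hp, h4]
theorem polyB2a (l0 l1 l2 x y z α β : ℝ) (h0 : 0 ≤ l0) (h1 : 0 ≤ l1) (h2 : 0 ≤ l2)
    (hs : 0 < l0 + l1 + l2) (hx : x = 5 * l0 + 15 * l1 + 30 * l2) (hy : y = 15 * l0 + 30 * l1 + 45 * l2)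
    (hz : z = 20 * l0 + 45 * l1 + 45 * l2) (hα : α = 17 * l0 + 39 * l1 + 54 * l2) (hβ : β = 0 * l0 + 5 * l1 + 5 * l2) :
    FF x z y < 9 * QQ x y z α β ∧ FF z x y < 9 * QQ x y z α β ∧ FF y x z < 9 * QQ x y z α β := by
  subst hx hy hz hα hβ
  have h4 : 0 < (l0 + l1 + l2) ^ 4 := pow_pos hs 4
  refine ⟨?_, ?_, ?_⟩
  · have hp : 0 ≤
      1000399 * (l0 ^ 4) + 8882396 * (l0 ^ 3 * l1) + 9908396 * (l0 ^ 3 * l2) +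
      29432694 * (l0 ^ 2 * l1 ^ 2) + 65381388 * (l0 ^ 2 * l1 * l2) +
      35431194 * (l0 ^ 2 * l2 ^ 2) + 43129796 * (l0 * l1 ^ 3) + 142916388 * (l0 * l1 ^ 2 * l2) +
      153608388 * (l0 * l1 * l2 ^ 2) + 53011796 * (l0 * l2 ^ 3) + 23579099 * (l1 ^ 4) +
      103469396 * (l1 ^ 3 * l2) + 165086094 * (l1 ^ 2 * l2 ^ 2) + 112055396 * (l1 * l2 ^ 3) +
      26657099 * (l2 ^ 4) := by positivity
    unfold FF QQ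
    nlinarith [hp, h4]
  · have hp : 0 ≤
      137899 * (l0 ^ 4) + 1037396 * (l0 ^ 3 * l1) + 1283396 * (l0 ^ 3 * l2) +
      2747694 * (l0 ^ 2 * l1 ^ 2) + 7016388 * (l0 ^ 2 * l1 * l2) + 4381194 * (l0 ^ 2 * l2 ^ 2) +
      2899796 * (l0 * l1 ^ 3) + 11696388 * (l0 * l1 ^ 2 * l2) + 15233388 * (l0 * l1 * l2 ^ 2) +
      6436796 * (l0 * l2 ^ 3) + 899099 * (l1 ^ 4) + 5459396 * (l1 ^ 3 * l2) +
      11591094 * (l1 ^ 2 * l2 ^ 2) + 10400396 * (l1 * l2 ^ 3) + 3369599 * (l2 ^ 4) := by positivity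
    unfold FF QQ
    nlinarith [hp, h4]
  · have hp : 0 ≤
      680399 * (l0 ^ 4) + 6242396 * (l0 ^ 3 * l1) + 5828396 * (l0 ^ 3 * l2) +
      21332694 * (l0 ^ 2 * l1 ^ 2) + 40541388 * (l0 ^ 2 * l1 * l2) +
      16891194 * (l0 ^ 2 * l2 ^ 2) + 32194796 * (l0 * l1 ^ 3) + 93101388 * (l0 * l1 ^ 2 * l2) +
      80033388 * (l0 * l1 * l2 ^ 2) + 17776796 * (l0 * l2 ^ 3) + 18111599 * (l1 ^ 4) +
      70664396 * (l1 ^ 3 * l2) + 93401094 * (l1 ^ 2 * l2 ^ 2) + 44420396 * (l1 * l2 ^ 3) +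
      3369599 * (l2 ^ 4) := by positivity
    unfold FF QQ
    nlinarith [hp, h4]
theorem polyB2b (l0 l1 l2 x y z α β : ℝ) (h0 : 0 ≤ l0) (h1 : 0 ≤ l1) (h2 : 0 ≤ l2)
    (hs : 0 < l0 + l1 + l2) (hx : x = 5 * l0 + 30 * l1 + 5 * l2) (hy : y = 15 * l0 + 45 * l1 + 10 * l2)
    (hz : z = 20 * l0 + 45 * l1 + 10 * l2) (hα : α = 17 * l0 + 54 * l1 + 11 * l2) (hβ : β = 0 * l0 + 5 * l1 + 0 * l2) :
    FF x z y < 9 * QQ x y z α β ∧ FF z x y < 9 * QQ x y z α β ∧ FF y x z < 9 * QQ x y z α β := by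
  subst hx hy hz hα hβ
  have h4 : 0 < (l0 + l1 + l2) ^ 4 := pow_pos hs 4
  refine ⟨?_, ?_, ?_⟩
  · have hp : 0 ≤
      1000399 * (l0 ^ 4) + 9908396 * (l0 ^ 3 * l1) + 2171796 * (l0 ^ 3 * l2) +
      35431194 * (l0 ^ 2 * l1 ^ 2) + 15776088 * (l0 ^ 2 * l1 * l2) +
      1742719 * (l0 ^ 2 * l2 ^ 2) + 53011796 * (l0 * l1 ^ 3) + 36335688 * (l0 * l1 ^ 2 * l2) +
      8198538 * (l0 * l1 * l2 ^ 2) + 610321 * (l0 * l2 ^ 3) + 26657099 * (l1 ^ 4) +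
      25601396 * (l1 ^ 3 * l2) + 9000669 * (l1 ^ 2 * l2 ^ 2) + 1380671 * (l1 * l2 ^ 3) +
      78274 * (l2 ^ 4) := by positivity
    unfold FF QQ
    nlinarith [hp, h4]
  · have hp : 0 ≤
      137899 * (l0 ^ 4) + 1283396 * (l0 ^ 3 * l1) + 316796 * (l0 ^ 3 * l2) +
      4381194 * (l0 ^ 2 * l1 ^ 2) + 2216088 * (l0 ^ 2 * l1 * l2) + 271469 * (l0 ^ 2 * l2 ^ 2) +
      6436796 * (l0 * l1 ^ 3) + 5060688 * (l0 * l1 ^ 2 * l2) + 1268538 * (l0 * l1 * l2 ^ 2) +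
      102821 * (l0 * l2 ^ 3) + 3369599 * (l1 ^ 4) + 3731396 * (l1 ^ 3 * l2) +
      1451919 * (l1 ^ 2 * l2 ^ 2) + 240671 * (l1 * l2 ^ 3) + 14524 * (l2 ^ 4) := by positivity
    unfold FF QQ
    nlinarith [hp, h4]
  · have hp : 0 ≤
      680399 * (l0 ^ 4) + 5828396 * (l0 ^ 3 * l1) + 1291796 * (l0 ^ 3 * l2) +
      16891194 * (l0 ^ 2 * l1 ^ 2) + 7616088 * (l0 ^ 2 * l1 * l2) + 852719 * (l0 ^ 2 * l2 ^ 2) +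
      17776796 * (l0 * l1 ^ 3) + 12440688 * (l0 * l1 ^ 2 * l2) + 2866038 * (l0 * l1 * l2 ^ 2) +
      217821 * (l0 * l2 ^ 3) + 3369599 * (l1 ^ 4) + 3731396 * (l1 ^ 3 * l2) +
      1451919 * (l1 ^ 2 * l2 ^ 2) + 240671 * (l1 * l2 ^ 3) + 14524 * (l2 ^ 4) := by positivity
    unfold FF QQ
    nlinarith [hp, h4]
theorem polyAa (l0 l1 l2 x y z α β : ℝ) (h0 : 0 ≤ l0) (h1 : 0 ≤ l1) (h2 : 0 ≤ l2)
    (hs : 0 < l0 + l1 + l2) (hx : x = 2 * l0 + 2 * l1 + 2 * l2) (hy : y = 4 * l0 + 2 * l1 + 2 * l2)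
    (hz : z = 6 * l0 + 4 * l1 + 2 * l2) (hα : α = 5 * l0 + 4 * l1 + 3 * l2) (hβ : β = 0 * l0 + 0 * l1 + 0 * l2) :
    FF x z y < 9 * QQ x y z α β ∧ FF z x y < 9 * QQ x y z α β ∧ FF y x z < 9 * QQ x y z α β := by
  subst hx hy hz hα hβ
  have h4 : 0 < (l0 + l1 + l2) ^ 4 := pow_pos hs 4
  refine ⟨?_, ?_, ?_⟩
  · have hp : 0 ≤
      7523 * (l0 ^ 4) + 21836 * (l0 ^ 3 * l1) + 12236 * (l0 ^ 3 * l2) +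
      23690 * (l0 ^ 2 * l1 ^ 2) + 26148 * (l0 ^ 2 * l1 * l2) + 6818 * (l0 ^ 2 * l2 ^ 2) +
      11388 * (l0 * l1 ^ 3) + 18612 * (l0 * l1 ^ 2 * l2) + 9460 * (l0 * l1 * l2 ^ 2) +
      1420 * (l0 * l2 ^ 3) + 2047 * (l1 ^ 4) + 4412 * (l1 ^ 3 * l2) + 3290 * (l1 ^ 2 * l2 ^ 2) +
      940 * (l1 * l2 ^ 3) + 67 * (l2 ^ 4) := by positivity
    unfold FF QQ
    nlinarith [hp, h4]
  · have hp : 0 ≤
      355 * (l0 ^ 4) + 2636 * (l0 ^ 3 * l1) + 1484 * (l0 ^ 3 * l2) + 4618 * (l0 ^ 2 * l1 ^ 2) +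
      5156 * (l0 ^ 2 * l1 * l2) + 1442 * (l0 ^ 2 * l2 ^ 2) + 3068 * (l0 * l1 ^ 3) +
      5172 * (l0 * l1 ^ 2 * l2) + 2868 * (l0 * l1 * l2 ^ 2) + 524 * (l0 * l2 ^ 3) +
      703 * (l1 ^ 4) + 1596 * (l1 ^ 3 * l2) + 1338 * (l1 ^ 2 * l2 ^ 2) + 492 * (l1 * l2 ^ 3) +
      67 * (l2 ^ 4) := by positivity
    unfold FF QQ
    nlinarith [hp, h4]
  · have hp : 0 ≤
      5795 * (l0 ^ 4) + 18380 * (l0 ^ 3 * l1) + 8780 * (l0 ^ 3 * l2) +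
      21386 * (l0 ^ 2 * l1 ^ 2) + 21540 * (l0 ^ 2 * l1 * l2) + 4610 * (l0 ^ 2 * l2 ^ 2) +
      10876 * (l0 * l1 ^ 3) + 17076 * (l0 * l1 ^ 2 * l2) + 7988 * (l0 * l1 * l2 ^ 2) +
      972 * (l0 * l2 ^ 3) + 2047 * (l1 ^ 4) + 4412 * (l1 ^ 3 * l2) + 3290 * (l1 ^ 2 * l2 ^ 2) +
      940 * (l1 * l2 ^ 3) + 67 * (l2 ^ 4) := by positivity
    unfold FF QQ
    nlinarith [hp, h4]
theorem polyAb (l0 l1 l2 x y z α β : ℝ) (h0 : 0 ≤ l0) (h1 : 0 ≤ l1) (h2 : 0 ≤ l2)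
    (hs : 0 < l0 + l1 + l2) (hx : x = 2 * l0 + 2 * l1 + 4 * l2) (hy : y = 4 * l0 + 2 * l1 + 6 * l2)
    (hz : z = 6 * l0 + 2 * l1 + 6 * l2) (hα : α = 5 * l0 + 3 * l1 + 7 * l2) (hβ : β = 0 * l0 + 0 * l1 + 0 * l2) :
    FF x z y < 9 * QQ x y z α β ∧ FF z x y < 9 * QQ x y z α β ∧ FF y x z < 9 * QQ x y z α β := by
  subst hx hy hz hα hβ
  have h4 : 0 < (l0 + l1 + l2) ^ 4 := pow_pos hs 4
  refine ⟨?_, ?_, ?_⟩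
  · have hp : 0 ≤
      7523 * (l0 ^ 4) + 12236 * (l0 ^ 3 * l1) + 32732 * (l0 ^ 3 * l2) +
      6818 * (l0 ^ 2 * l1 ^ 2) + 37844 * (l0 ^ 2 * l1 * l2) + 51730 * (l0 ^ 2 * l2 ^ 2) +
      1420 * (l0 * l1 ^ 3) + 12708 * (l0 * l1 ^ 2 * l2) + 36804 * (l0 * l1 * l2 ^ 2) +
      34716 * (l0 * l2 ^ 3) + 67 * (l1 ^ 4) + 1020 * (l1 ^ 3 * l2) + 5154 * (l1 ^ 2 * l2 ^ 2) +
      10812 * (l1 * l2 ^ 3) + 8131 * (l2 ^ 4) := by positivity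
    unfold FF QQ
    nlinarith [hp, h4]
  · have hp : 0 ≤
      355 * (l0 ^ 4) + 1484 * (l0 ^ 3 * l1) + 1756 * (l0 ^ 3 * l2) + 1442 * (l0 ^ 2 * l1 ^ 2) +
      5076 * (l0 ^ 2 * l1 * l2) + 3218 * (l0 ^ 2 * l2 ^ 2) + 524 * (l0 * l1 ^ 3) +
      3172 * (l0 * l1 ^ 2 * l2) + 5700 * (l0 * l1 * l2 ^ 2) + 2588 * (l0 * l2 ^ 3) +
      67 * (l1 ^ 4) + 572 * (l1 ^ 3 * l2) + 1730 * (l1 ^ 2 * l2 ^ 2) + 2108 * (l1 * l2 ^ 3) +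
      771 * (l2 ^ 4) := by positivity
    unfold FF QQ
    nlinarith [hp, h4]
  · have hp : 0 ≤
      5795 * (l0 ^ 4) + 8780 * (l0 ^ 3 * l1) + 22364 * (l0 ^ 3 * l2) + 4610 * (l0 ^ 2 * l1 ^ 2) +
      23252 * (l0 ^ 2 * l1 * l2) + 29074 * (l0 ^ 2 * l2 ^ 2) + 972 * (l0 * l1 ^ 3) +
      7076 * (l0 * l1 ^ 2 * l2) + 16964 * (l0 * l1 * l2 ^ 2) + 13340 * (l0 * l2 ^ 3) +
      67 * (l1 ^ 4) + 572 * (l1 ^ 3 * l2) + 1730 * (l1 ^ 2 * l2 ^ 2) + 2108 * (l1 * l2 ^ 3) +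
      771 * (l2 ^ 4) := by positivity
    unfold FF QQ
    nlinarith [hp, h4]

end Pool.Agent.LFT.TriPoly
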