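import Pool.Agent.LFT.TriFinal
import Pool.Agent.LFT.TriCert
import Pool.Agent.LFT.TriPoly

/-!
# No triangle has property (S) (MP_9c589f_co): assembly
-/

namespace Pool.Agent.LFT.TriAll

open MeasureTheory Set
open scoped RealInnerProductSpace ENNReal
open TriPat TriPoly

theorem comb (l0 l1 l2 : ℝ) (h0 : 0 ≤ l0) (h1 : 0 ≤ l1) (h2 : 0 ≤ l2) (a0 a1 a2 b0 b1 b2 : ℤ)
    (k0 : |a0| ≤ b0) (k1 : |a1| ≤ b1) (k2 : |a2| ≤ b2) :
    |l0 * (a0 : ℝ) + l1 * a1 + l2 * a2| ≤ l0 * b0 + l1 * b1 + l2 * b2 := by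
  have q0 : |(a0 : ℝ)| ≤ b0 := by exact_mod_cast k0
  have q1 : |(a1 : ℝ)| ≤ b1 := by exact_mod_cast k1
  have q2 : |(a2 : ℝ)| ≤ b2 := by exact_mod_cast k2
  rw [abs_le] at q0 q1 q2 ⊢
  constructor
  · have r0 := mul_le_mul_of_nonneg_left q0.1 h0
    have r1 := mul_le_mul_of_nonneg_left q1.1 h1
    have r2 := mul_le_mul_of_nonneg_left q2.1 h2
    linarith
  · have r0 := mul_le_mul_of_nonneg_left q0.2 h0
    have r1 := mul_le_mul_of_nonneg_left q1.2 h1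
    have r2 := mul_le_mul_of_nonneg_left q2.2 h2
    linarith

theorem cert_conds {N : ℕ} (P : Pat N) (C : Cert N) (hC : C.ok P) (i j : ℤ) :
    (P.F1 i j → |C.A + C.h (P.phi (i + 1) j) - C.h (P.phi i j)| ≤ C.Le) ∧
    (P.F2 i j → |C.B + C.h (P.phi i (j + 1)) - C.h (P.phi i j)| ≤ C.Lf) ∧
    (P.F3 i j → |C.A - C.B + C.h (P.phi (i + 1) j) - C.h (P.phi i (j + 1))| ≤ C.Lg) := by
  obtain ⟨c1, c2, c3⟩ := hC (P.phi i j)
  have e1 : P.phi (i + 1) j = P.phi i j + P.a := by unfold Pat.phi; push_cast; ring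
  have e2 : P.phi i (j + 1) = P.phi i j + P.b := by unfold Pat.phi; push_cast; ring
  have e3 : P.phi i (j - 1) = P.phi i j - P.b := by unfold Pat.phi; push_cast; ring
  have e4 : P.phi (i - 1) j = P.phi i j - P.a := by unfold Pat.phi; push_cast; ring
  rw [e1, e2]
  refine ⟨fun hF => ?_, fun hF => ?_, fun hF => ?_⟩
  · rcases c1 with h | h
    · exfalso
      apply hF
      unfold Pat.nf1 at h
      unfold Pat.tid
      rw [e3, h]
      simp only [Prod.mk.injEq, true_and]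
      ring
    · exact h
  · rcases c2 with h | h
    · exfalso
      apply hF
      unfold Pat.nf2 at h
      unfold Pat.tid
      rw [e4, h]
      simp only [Prod.mk.injEq, true_and, and_true]
      ring
    · exact h
  · rcases c3 with h | h
    · exfalso
      apply hF
      unfold Pat.nf3 at h
      unfold Pat.tid
      rw [h]
    · exact h

/-- from a lower bound by layers to the failure of (S). -/
theorem main_gen (A e f w : E) (hef : LinearIndependent ℝ ![e, f])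
    (h1 : FF ‖e‖ ‖f‖ ‖f - e‖ < 9 * (‖w‖ ^ 2 * (‖e‖ ^ 2 * ‖f‖ ^ 2 - ⟪e, f⟫ ^ 2)))
    (h2 : FF ‖f‖ ‖e‖ ‖f - e‖ < 9 * (‖w‖ ^ 2 * (‖e‖ ^ 2 * ‖f‖ ^ 2 - ⟪e, f⟫ ^ 2)))
    (h3 : FF ‖f - e‖ ‖e‖ ‖f‖ < 9 * (‖w‖ ^ 2 * (‖e‖ ^ 2 * ‖f‖ ^ 2 - ⟪e, f⟫ ^ 2)))
    (hlay : ∀ ρ : ℝ, w ≠ 0 → ρ < ‖w‖ → ∃ (𝒞 : Set (Set E)) (n : E) (d : ℝ), IsLayer 𝒞 n 0 d ∧
      (∀ K ∈ 𝒞, IsSimilar (Tri 0 e f) K) ∧ ENNReal.ofReal (ρ * d) ≤ crossLen 𝒞 n 0 d) :
    ¬ PropertyS (Tri A e f) := by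
  have he0 : e ≠ 0 := by
    rintro rfl
    have := LinearIndependent.pair_iff.1 hef 1 0 (by simp)
    exact one_ne_zero this.1
  have hep := norm_pos_iff.2 he0
  set G := ‖e‖ ^ 2 * ‖f‖ ^ 2 - ⟪e, f⟫ ^ 2 with hG
  have hFpos : 0 < FF ‖e‖ ‖f‖ ‖f - e‖ := by
    unfold FF
    have h4 : ‖f‖ ≤ ‖f - e‖ + ‖e‖ := by
      calc ‖f‖ = ‖(f - e) + e‖ := by congr 1; abel
        _ ≤ _ := norm_add_le _ _
    have h5 : ‖f - e‖ ≤ ‖f‖ + ‖e‖ := norm_sub_le _ _
    have h6 : 0 ≤ ‖e‖ ^ 2 - (‖f‖ - ‖f - e‖) ^ 2 := by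
      have : |‖f‖ - ‖f - e‖| ≤ ‖e‖ := by rw [abs_le]; constructor <;> linarith
      have := sq_le_sq' (abs_le.1 this).1 (abs_le.1 this).2
      linarith
    have h7 := norm_nonneg f
    have h8 := norm_nonneg (f - e)
    have h9 := mul_nonneg h6 (show 0 ≤ (‖e‖ + ‖f‖ + ‖f - e‖) * (‖f‖ + ‖f - e‖) +
      ‖f‖ * ‖f - e‖ by positivity)
    have h10 : 0 < (‖e‖ + ‖f‖ + ‖f - e‖) ^ 2 * ‖e‖ ^ 2 := by positivity
    linarith
  have hprod : 0 < ‖w‖ ^ 2 * G := by linarith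
  have hw0 : w ≠ 0 := by
    rintro rfl
    simp at hprod
  have hwp := norm_pos_iff.2 hw0
  have hGp : 0 < G := (mul_pos_iff_of_pos_left (by positivity)).1 hprod
  obtain ⟨ρ, hρ0, hρw, g1, g2, g3⟩ : ∃ ρ : ℝ, 0 < ρ ∧ ρ < ‖w‖ ∧
      FF ‖e‖ ‖f‖ ‖f - e‖ < 9 * ρ ^ 2 * G ∧ FF ‖f‖ ‖e‖ ‖f - e‖ < 9 * ρ ^ 2 * G ∧
      FF ‖f - e‖ ‖e‖ ‖f‖ < 9 * ρ ^ 2 * G := by
    set m := max (FF ‖e‖ ‖f‖ ‖f - e‖) (max (FF ‖f‖ ‖e‖ ‖f - e‖) (FF ‖f - e‖ ‖e‖ ‖f‖)) with hm
    have hmlt : m / (9 * G) < ‖w‖ ^ 2 := by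
      rw [div_lt_iff₀ (by positivity)]
      have : m < 9 * (‖w‖ ^ 2 * G) := max_lt h1 (max_lt h2 h3)
      linarith
    obtain ⟨r, hr1, hr2⟩ := exists_between hmlt
    have hm0 : 0 < m := lt_of_lt_of_le hFpos (le_max_left _ _)
    have hr0 : 0 < r := lt_trans (by positivity) hr1
    rw [div_lt_iff₀ (by positivity)] at hr1
    have hsq : √r ^ 2 = r := Real.sq_sqrt hr0.le
    have hmr : m < 9 * √r ^ 2 * G := by rw [hsq]; linarith
    refine ⟨√r, Real.sqrt_pos.2 hr0, ?_, ?_, ?_, ?_⟩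
    · rw [Real.sqrt_lt' hwp]; exact hr2
    · exact lt_of_le_of_lt (le_max_left _ _) hmr
    · exact lt_of_le_of_lt ((le_max_left _ _).trans (le_max_right _ _)) hmr
    · exact lt_of_le_of_lt ((le_max_right _ _).trans (le_max_right _ _)) hmr
  obtain ⟨ρ', hρ1, hρ2⟩ := exists_between hρw
  refine TriFinal.not_S_of (Tri A e f) ρ ρ' hρ0 hρ1 ?_ ?_
  · intro 𝒯 n a d hL hT
    exact TriFinal.upper e f ρ hef hρ0 g1 g2 g3 𝒯 n a d hL
      (fun K hK => TriFinal.translate_trans e f A K (hT K hK))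
  · obtain ⟨𝒞, n, d, hL, hsim, hlen⟩ := hlay ρ' hw0 hρ2
    exact ⟨𝒞, n, 0, d, hL, fun K hK => TriFinal.similar_trans e f A K (hsim K hK), hlen⟩

theorem gramQ (e f w : E) : ‖w‖ ^ 2 * (‖e‖ ^ 2 * ‖f‖ ^ 2 - ⟪e, f⟫ ^ 2) =
    QQ ‖e‖ ‖f - e‖ ‖f‖ ⟪w, e⟫ ⟪w, f⟫ := by
  have hcc : ‖f - e‖ ^ 2 = ‖e‖ ^ 2 + ‖f‖ ^ 2 - 2 * ⟪e, f⟫ := by
    rw [norm_sub_sq_real, real_inner_comm]; ring
  rw [TriNear.gram w e f]
  unfold QQ
  rw [hcc]; ring

/-- patterns. -/
theorem main_cert {N : ℕ} [NeZero N] (P : Pat N) (hP : P.Valid) (hs : 0 ≤ P.s)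
    (C0 C1 C2 : Cert N) (k0 : C0.ok P) (k1 : C1.ok P) (k2 : C2.ok P)
    (A e f : E) (hef : LinearIndependent ℝ ![e, f]) (l0 l1 l2 α β : ℝ)
    (h0 : 0 ≤ l0) (h1 : 0 ≤ l1) (h2 : 0 ≤ l2)
    (he : ‖e‖ = l0 * C0.Le + l1 * C1.Le + l2 * C2.Le)
    (hf : ‖f‖ = l0 * C0.Lf + l1 * C1.Lf + l2 * C2.Lf)
    (hg : ‖f - e‖ = l0 * C0.Lg + l1 * C1.Lg + l2 * C2.Lg)
    (hα : α = l0 * C0.A + l1 * C1.A + l2 * C2.A)
    (hβ : β = l0 * C0.B + l1 * C1.B + l2 * C2.B)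
    (hpoly : FF ‖e‖ ‖f‖ ‖f - e‖ < 9 * QQ ‖e‖ ‖f - e‖ ‖f‖ α β ∧
      FF ‖f‖ ‖e‖ ‖f - e‖ < 9 * QQ ‖e‖ ‖f - e‖ ‖f‖ α β ∧
      FF ‖f - e‖ ‖e‖ ‖f‖ < 9 * QQ ‖e‖ ‖f - e‖ ‖f‖ α β) :
    ¬ PropertyS (Tri A e f) := by
  obtain ⟨w, hwe, hwf⟩ := TriFinal.exists_w e f hef α β
  have hgr := gramQ e f w
  rw [hwe, hwf] at hgr
  rw [← hgr] at hpoly
  refine main_gen A e f w hef hpoly.1 hpoly.2.1 hpoly.2.2 ?_
  intro ρ hw0 hρ
  set hh : ZMod N → ℝ := fun r => l0 * C0.h r + l1 * C1.h r + l2 * C2.h r with hhd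
  refine pat_layer P hP e f w hef hh ?_ ?_ ?_ ρ hw0 hρ hs
  · intro i j hF
    have q0 := (cert_conds P C0 k0 i j).1 hF
    have q1 := (cert_conds P C1 k1 i j).1 hF
    have q2 := (cert_conds P C2 k2 i j).1 hF
    have q := comb l0 l1 l2 h0 h1 h2 _ _ _ _ _ _ q0 q1 q2
    rw [he, hwe, hα]
    simp only [hhd]
    push_cast at q
    convert q using 2
    ring
  · intro i j hF
    have q0 := (cert_conds P C0 k0 i j).2.1 hF
    have q1 := (cert_conds P C1 k1 i j).2.1 hF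
    have q2 := (cert_conds P C2 k2 i j).2.1 hF
    have q := comb l0 l1 l2 h0 h1 h2 _ _ _ _ _ _ q0 q1 q2
    rw [hf, hwf, hβ]
    simp only [hhd]
    push_cast at q
    convert q using 2
    ring
  · intro i j hF
    have q0 := (cert_conds P C0 k0 i j).2.2 hF
    have q1 := (cert_conds P C1 k1 i j).2.2 hF
    have q2 := (cert_conds P C2 k2 i j).2.2 hF
    have q := comb l0 l1 l2 h0 h1 h2 _ _ _ _ _ _ q0 q1 q2
    rw [hg, hwe, hwf, hα, hβ]
    simp only [hhd]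
    push_cast at q
    convert q using 2
    ring

/-- rows, in terms of the lengths. -/
theorem main_rows (A e f : E) (hef : LinearIndependent ℝ ![e, f]) (hxy : ‖e‖ ≤ ‖f - e‖)
    (hpoly : FF ‖e‖ ‖f‖ ‖f - e‖ < 9 * QQ ‖e‖ ‖f - e‖ ‖f‖ (‖e‖ + ‖f‖ / 2) 0 ∧
      FF ‖f‖ ‖e‖ ‖f - e‖ < 9 * QQ ‖e‖ ‖f - e‖ ‖f‖ (‖e‖ + ‖f‖ / 2) 0 ∧
      FF ‖f - e‖ ‖e‖ ‖f‖ < 9 * QQ ‖e‖ ‖f - e‖ ‖f‖ (‖e‖ + ‖f‖ / 2) 0) :
    ¬ PropertyS (Tri A e f) := by
  have hef' : LinearIndependent ℝ ![f, e] := by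
    rw [LinearIndependent.pair_iff] at hef ⊢
    intro s t hst
    have h := hef t s (by rw [← hst]; abel)
    exact ⟨h.2, h.1⟩
  have hG : GG ‖e‖ ‖f - e‖ ‖f‖ 0 = QQ ‖e‖ ‖f - e‖ ‖f‖ (‖e‖ + ‖f‖ / 2) 0 := by
    unfold GG QQ; ring
  have hF1 : FF ‖f‖ ‖e‖ ‖f - e‖ = FF ‖f‖ ‖e‖ ‖f - e‖ := rfl
  have hF3 : FF ‖f - e‖ ‖f‖ ‖e‖ = FF ‖f - e‖ ‖e‖ ‖f‖ := by unfold FF; ring
  rw [TriFinal.tri_swap]
  refine TriFinal.main A f e 0 hef' le_rfl ?_ ?_ ?_ ?_
  · rw [zero_mul, add_zero, norm_sub_rev e f]; exact hxy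
  · rw [norm_sub_rev e f, hG]; exact hpoly.2.1
  · rw [norm_sub_rev e f, hG]; exact hpoly.1
  · rw [norm_sub_rev e f, hG, hF3]; exact hpoly.2.2

/-- the theorem for `‖e‖ ≤ ‖f - e‖ ≤ ‖f‖`. -/
theorem main_sorted (A e f : E) (hef : LinearIndependent ℝ ![e, f]) (hxy : ‖e‖ ≤ ‖f - e‖)
    (hyz : ‖f - e‖ ≤ ‖f‖) : ¬ PropertyS (Tri A e f) := by
  have htri : ‖f‖ ≤ ‖e‖ + ‖f - e‖ := by
    calc ‖f‖ = ‖e + (f - e)‖ := by congr 1; abel
      _ ≤ _ := norm_add_le _ _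
  have hf0 : f ≠ 0 := by
    rintro rfl
    have := LinearIndependent.pair_iff.1 hef 0 1 (by simp)
    exact one_ne_zero this.2
  have hfp := norm_pos_iff.2 hf0
  obtain ⟨x, hx⟩ : ∃ x, ‖e‖ = x := ⟨_, rfl⟩
  obtain ⟨y, hy⟩ : ∃ y, ‖f - e‖ = y := ⟨_, rfl⟩
  obtain ⟨z, hz⟩ : ∃ z, ‖f‖ = z := ⟨_, rfl⟩
  rw [hx, hy] at hxy
  rw [hy, hz] at hyz
  rw [hx, hy, hz] at htri
  rw [hz] at hfp
  rcases le_total (3 * (y - x)) z with hA | hA
  · -- rows
    refine main_rows A e f hef (by rw [hx, hy]; exact hxy) ?_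
    rw [hx, hy, hz]
    rcases le_total (2 * y) (x + z) with hB | hB
    · exact polyAa ((y - x) / 2) ((x + z - 2 * y) / 2) ((x + y - z) / 2) x y z (x + z / 2) 0
        (by linarith) (by linarith) (by linarith) (by linarith) (by ring) (by ring) (by ring)
        (by ring) (by ring)
    · exact polyAb ((z - y) / 2) ((z - 3 * (y - x)) / 2) ((2 * y - x - z) / 2) x y z (x + z / 2) 0
        (by linarith) (by linarith) (by linarith) (by linarith) (by ring) (by ring) (by ring)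
        (by ring) (by ring)
  rcases le_total (2 * (y - x)) z with hB | hB
  · -- second functional for M5
    rcases le_total (5 * y) (3 * x + 3 * z) with hC | hC
    · have hp := polyB2a ((3 * (y - x) - z) / 10) ((3 * z - 5 * y + 3 * x) / 30)
        ((x + y - z) / 30) x y z ((3 * x + 2 * y + 2 * z) / 5) ((2 * x - 2 * y + z) / 3)
        (by linarith) (by linarith) (by linarith) (by linarith) (by ring) (by ring) (by ring)
        (by ring) (by ring)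
      refine main_cert M5 M5_valid (by decide) cM3 cM5 cM4 cM3_ok cM5_ok cM4_ok A e f hef
        ((3 * (y - x) - z) / 10) ((3 * z - 5 * y + 3 * x) / 30)
        ((x + y - z) / 30) ((3 * x + 2 * y + 2 * z) / 5) ((2 * x - 2 * y + z) / 3)
        (by linarith) (by linarith) (by linarith) ?_ ?_ ?_ ?_ ?_ (by rw [hx, hy, hz]; exact hp)
      · rw [hx]; norm_num [cM3, cM5, cM4]; ring
      · rw [hz]; norm_num [cM3, cM5, cM4]; ring
      · rw [hy]; norm_num [cM3, cM5, cM4]; ring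
      · norm_num [cM3, cM5, cM4]; ring
      · norm_num [cM3, cM5, cM4]; ring
    · have hp := polyB2b ((z - y) / 5) ((z - 2 * (y - x)) / 15)
        ((5 * y - 3 * x - 3 * z) / 5) x y z ((3 * x + 2 * y + 2 * z) / 5) ((2 * x - 2 * y + z) / 3)
        (by linarith) (by linarith) (by linarith) (by linarith) (by ring) (by ring) (by ring)
        (by ring) (by ring)
      refine main_cert M5 M5_valid (by decide) cM3 cM4 cM8 cM3_ok cM4_ok cM8_ok A e f hef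
        ((z - y) / 5) ((z - 2 * (y - x)) / 15)
        ((5 * y - 3 * x - 3 * z) / 5) ((3 * x + 2 * y + 2 * z) / 5) ((2 * x - 2 * y + z) / 3)
        (by linarith) (by linarith) (by linarith) ?_ ?_ ?_ ?_ ?_ (by rw [hx, hy, hz]; exact hp)
      · rw [hx]; norm_num [cM3, cM4, cM8]; ring
      · rw [hz]; norm_num [cM3, cM4, cM8]; ring
      · rw [hy]; norm_num [cM3, cM4, cM8]; ring
      · norm_num [cM3, cM4, cM8]; ring
      · norm_num [cM3, cM4, cM8]; ring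
  rcases le_total (3 * (y - x)) (2 * z) with hC | hC
  · -- first functional for M5
    rcases le_total (4 * y) (3 * z + 2 * x) with hD | hD
    · have hp := polyB1a ((2 * (y - x) - z) / 10) ((3 * z - 4 * y + 2 * x) / 10)
        ((x + y - z) / 5) x y z (x + 3 / 5 * z) 0
        (by linarith) (by linarith) (by linarith) (by linarith) (by ring) (by ring) (by ring)
        (by ring) (by ring)
      refine main_cert M5 M5_valid (by decide) cM1 cM3 cM8 cM1_ok cM3_ok cM8_ok A e f hef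
        ((2 * (y - x) - z) / 10) ((3 * z - 4 * y + 2 * x) / 10)
        ((x + y - z) / 5) (x + 3 / 5 * z) 0
        (by linarith) (by linarith) (by linarith) ?_ ?_ ?_ ?_ ?_ (by rw [hx, hy, hz]; exact hp)
      · rw [hx]; norm_num [cM1, cM3, cM8]; ring
      · rw [hz]; norm_num [cM1, cM3, cM8]; ring
      · rw [hy]; norm_num [cM1, cM3, cM8]; ring
      · norm_num [cM1, cM3, cM8]; ring
      · norm_num [cM1, cM3, cM8]
    · have hp := polyB1b ((z - y) / 5) ((2 * z - 3 * (y - x)) / 5)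
        ((4 * y - 3 * z - 2 * x) / 5) x y z (x + 3 / 5 * z) 0
        (by linarith) (by linarith) (by linarith) (by linarith) (by ring) (by ring) (by ring)
        (by ring) (by ring)
      refine main_cert M5 M5_valid (by decide) cM1 cM8 cM2 cM1_ok cM8_ok cM2_ok A e f hef
        ((z - y) / 5) ((2 * z - 3 * (y - x)) / 5)
        ((4 * y - 3 * z - 2 * x) / 5) (x + 3 / 5 * z) 0
        (by linarith) (by linarith) (by linarith) ?_ ?_ ?_ ?_ ?_ (by rw [hx, hy, hz]; exact hp)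
      · rw [hx]; norm_num [cM1, cM8, cM2]; ring
      · rw [hz]; norm_num [cM1, cM8, cM2]; ring
      · rw [hy]; norm_num [cM1, cM8, cM2]; ring
      · norm_num [cM1, cM8, cM2]; ring
      · norm_num [cM1, cM8, cM2]
  · -- Q1
    have hp := polyC ((3 * (y - x) - 2 * z) / 5) (z - y) (x + y - z) x y z
      ((3 * x + 2 * y + 2 * z) / 5) ((2 * x - 2 * y + 3 * z) / 5)
      (by linarith) (by linarith) (by linarith) (by linarith) (by ring) (by ring) (by ring)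
      (by ring) (by ring)
    refine main_cert Q1 Q1_valid (by decide) cQ0 cQ1 cQ2 cQ0_ok cQ1_ok cQ2_ok A e f hef
      ((3 * (y - x) - 2 * z) / 5) (z - y) (x + y - z)
      ((3 * x + 2 * y + 2 * z) / 5) ((2 * x - 2 * y + 3 * z) / 5)
      (by linarith) (by linarith) (by linarith) ?_ ?_ ?_ ?_ ?_ (by rw [hx, hy, hz]; exact hp)
    · rw [hx]; norm_num [cQ0, cQ1, cQ2]
    · rw [hz]; norm_num [cQ0, cQ1, cQ2]; ring
    · rw [hy]; norm_num [cQ0, cQ1, cQ2]; ring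
    · norm_num [cQ0, cQ1, cQ2]; ring
    · norm_num [cQ0, cQ1, cQ2]; ring

/-- no triangle has property (S), vector form. -/
theorem main_all (A e f : E) (hef : LinearIndependent ℝ ![e, f]) : ¬ PropertyS (Tri A e f) := by
  have hswap : ∀ e f : E, LinearIndependent ℝ ![e, f] → LinearIndependent ℝ ![f, e] := by
    intro e f hef
    rw [LinearIndependent.pair_iff] at hef ⊢
    intro s t hst
    have h := hef t s (by rw [← hst]; abel)
    exact ⟨h.2, h.1⟩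
  have hrot : ∀ e f : E, LinearIndependent ℝ ![e, f] → LinearIndependent ℝ ![f - e, -e] := by
    intro e f hef
    rw [LinearIndependent.pair_iff] at hef ⊢
    intro s t hst
    have h := hef (-s - t) s (by rw [← hst]; module)
    exact ⟨h.2, by linarith [h.1, h.2]⟩
  -- one of the six orders
  have hs : ∀ A e f : E, LinearIndependent ℝ ![e, f] → ‖f - e‖ ≤ ‖e‖ → ‖f - e‖ ≤ ‖f‖ →
      ¬ PropertyS (Tri A e f) := by
    intro A e f hef h1 h2
    rcases le_total ‖e‖ ‖f‖ with h3 | h3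
    · -- f - e ≤ e ≤ f : use (e - f, -f)
      have hl := hrot f e (hswap e f hef)
      rw [TriFinal.tri_swap, TriFinal.tri_rot]
      refine main_sorted _ (e - f) (-f) hl ?_ ?_
      · rw [show -f - (e - f) = -e by abel, norm_neg, norm_sub_rev e f]; exact h1
      · rw [show -f - (e - f) = -e by abel, norm_neg, norm_neg]; exact h3
    · -- f - e ≤ f ≤ e : use (f - e, -e)
      have hl := hrot e f hef
      rw [TriFinal.tri_rot]
      refine main_sorted _ (f - e) (-e) hl ?_ ?_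
      · rw [show -e - (f - e) = -f by abel, norm_neg]; exact h2
      · rw [show -e - (f - e) = -f by abel, norm_neg, norm_neg]; exact h3
  rcases le_total ‖f - e‖ ‖e‖ with h1 | h1
  · rcases le_total ‖f - e‖ ‖f‖ with h2 | h2
    · exact hs A e f hef h1 h2
    · -- f ≤ f - e ≤ e : use (f, e)
      rw [TriFinal.tri_swap]
      refine main_sorted _ f e (hswap e f hef) ?_ ?_
      · rw [norm_sub_rev e f]; exact h2
      · rw [norm_sub_rev e f]; exact h1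
  · rcases le_total ‖f - e‖ ‖f‖ with h2 | h2
    · -- e ≤ f - e ≤ f
      exact main_sorted A e f hef h1 h2
    · -- f - e is the longest
      rcases le_total ‖e‖ ‖f‖ with h3 | h3
      · -- e ≤ f ≤ f - e : use (-e, f - e)
        rw [TriFinal.tri_rot, TriFinal.tri_swap]
        refine main_sorted _ (-e) (f - e) (hswap _ _ (hrot e f hef)) ?_ ?_
        · rw [show f - e - -e = f by abel, norm_neg]; exact h3
        · rw [show f - e - -e = f by abel]; exact h2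
      · -- f ≤ e ≤ f - e : use (-f, e - f)
        rw [TriFinal.tri_swap, TriFinal.tri_rot, TriFinal.tri_swap]
        refine main_sorted _ (-f) (e - f) (hswap _ _ (hrot f e (hswap e f hef))) ?_ ?_
        · rw [show e - f - -f = e by abel, norm_neg]; exact h3
        · rw [show e - f - -f = e by abel, norm_sub_rev e f]; exact h1

end Pool.Agent.LFT.TriAll
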