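import Pool.Agent.LFT.TriReal

/-!
# Triangles without property (S) (MP_9c589f_co): averaging over the levels
-/

namespace Pool.Agent.LFT.TriUp

open MeasureTheory Set
open scoped Interval

noncomputable def kap (b y : ℝ) : ℝ := (Ico b (b + 1)).indicator (fun y => 1 - |y - b - 1 / 2|) y

noncomputable def tauI (b y : ℝ) : ℝ :=
  (Ico b (b + 1)).indicator (fun y => min (y - b) (1 - (y - b))) y

theorem tau_eq (b y : ℝ) : tau (y - b) = tauI b y := by
  unfold tau tauI
  by_cases h : y ∈ Ico b (b + 1)
  · rw [indicator_of_mem h, max_eq_right]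
    exact le_min (by linarith [h.1]) (by linarith [h.2])
  · rw [indicator_of_notMem h, max_eq_left]
    rw [mem_Ico, not_and_or, not_le, not_lt] at h
    rcases h with h | h
    · exact (min_le_left _ _).trans (by linarith)
    · exact (min_le_right _ _).trans (by linarith)

theorem int_aux (b : ℝ) (F : ℝ → ℝ) (hF : Continuous F) :
    Integrable (fun y => (Ico b (b + 1)).indicator (fun y => F (y - b)) y) ∧
    ∫ y, (Ico b (b + 1)).indicator (fun y => F (y - b)) y = ∫ t in (0 : ℝ)..1, F t := by
  constructor
  · rw [integrable_indicator_iff measurableSet_Ico]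
    have : IntegrableOn (fun y => F (y - b)) (Icc b (b + 1)) :=
      (hF.comp (continuous_id.sub continuous_const)).continuousOn.integrableOn_Icc
    exact this.mono_set Ico_subset_Icc_self
  · rw [integral_indicator measurableSet_Ico, integral_Ico_eq_integral_Ioo,
      ← integral_Ioc_eq_integral_Ioo, ← intervalIntegral.integral_of_le (by linarith),
      intervalIntegral.integral_comp_sub_right]
    simp

theorem int_kap (b : ℝ) : Integrable (kap b) ∧ ∫ y, kap b y = 3 / 4 := by
  have h := int_aux b (fun t => 1 - |t - 1 / 2|) (by fun_prop)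
  refine ⟨h.1, ?_⟩
  have h2 : ∫ y, kap b y = ∫ t in (0 : ℝ)..1, (1 - |t - 1 / 2|) := h.2
  rw [h2, ← intervalIntegral.integral_add_adjacent_intervals (b := 1 / 2)
    ((by fun_prop : Continuous fun t : ℝ => 1 - |t - 1 / 2|).intervalIntegrable _ _)
    ((by fun_prop : Continuous fun t : ℝ => 1 - |t - 1 / 2|).intervalIntegrable _ _)]
  have e1 : ∫ t in (0 : ℝ)..(1 / 2), (1 - |t - 1 / 2|) = ∫ t in (0 : ℝ)..(1 / 2), (1 / 2 + t) := by
    apply intervalIntegral.integral_congr
    intro t ht
    rw [uIcc_of_le (by norm_num)] at ht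
    change 1 - |t - 1 / 2| = 1 / 2 + t
    rw [abs_of_nonpos (by linarith [ht.2])]; ring
  have e2 : ∫ t in (1 / 2 : ℝ)..1, (1 - |t - 1 / 2|) = ∫ t in (1 / 2 : ℝ)..1, (3 / 2 - t) := by
    apply intervalIntegral.integral_congr
    intro t ht
    rw [uIcc_of_le (by norm_num)] at ht
    change 1 - |t - 1 / 2| = 3 / 2 - t
    rw [abs_of_nonneg (by linarith [ht.1])]; ring
  rw [e1, e2, intervalIntegral.integral_add (by simp) (by simp),
    intervalIntegral.integral_sub (by simp) (by simp)]
  simp only [integral_id, intervalIntegral.integral_const, smul_eq_mul]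
  norm_num

theorem int_tau (b : ℝ) : Integrable (tauI b) ∧ ∫ y, tauI b y = 1 / 4 := by
  have h := int_aux b (fun t => min t (1 - t)) (by fun_prop)
  refine ⟨h.1, ?_⟩
  have h2 : ∫ y, tauI b y = ∫ t in (0 : ℝ)..1, min t (1 - t) := h.2
  rw [h2, ← intervalIntegral.integral_add_adjacent_intervals (b := 1 / 2)
    ((by fun_prop : Continuous fun t : ℝ => min t (1 - t)).intervalIntegrable _ _)
    ((by fun_prop : Continuous fun t : ℝ => min t (1 - t)).intervalIntegrable _ _)]
  have e1 : ∫ t in (0 : ℝ)..(1 / 2), min t (1 - t) = ∫ t in (0 : ℝ)..(1 / 2), t := by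
    apply intervalIntegral.integral_congr
    intro t ht
    rw [uIcc_of_le (by norm_num)] at ht
    change min t (1 - t) = t
    rw [min_eq_left (by linarith [ht.2])]
  have e2 : ∫ t in (1 / 2 : ℝ)..1, min t (1 - t) = ∫ t in (1 / 2 : ℝ)..1, (1 - t) := by
    apply intervalIntegral.integral_congr
    intro t ht
    rw [uIcc_of_le (by norm_num)] at ht
    change min t (1 - t) = 1 - t
    rw [min_eq_right (by linarith [ht.1])]
  rw [e1, e2, intervalIntegral.integral_sub (by simp) (by simp)]
  simp only [integral_id, intervalIntegral.integral_const, smul_eq_mul]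
  norm_num

/-- some level is met by few triangles. -/
theorem exists_level {ι : Type*} (S : Finset ι) (b : ι → ℝ) (M D : ℝ) (hM : 0 < M)
    (hS : ∀ i ∈ S, -2 ≤ b i ∧ b i ≤ M + 1) (hch : ∀ y, ∑ i ∈ S, kap (b i) y ≤ D) :
    ∃ y ∈ Icc 0 M, ∑ i ∈ S, tau (y - b i) ≤ (M + 4) * D / (3 * M) + 1 := by
  -- number of the triangles
  have hD : 0 ≤ D := by
    refine le_trans ?_ (hch 0)
    refine Finset.sum_nonneg (fun i _ => ?_)
    unfold kap
    refine indicator_nonneg (fun y hy => ?_) _
    have : |y - b i - 1 / 2| ≤ 1 := by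
      rw [abs_le]; constructor <;> linarith [hy.1, hy.2]
    linarith
  have hcount : (3 / 4 : ℝ) * S.card ≤ (M + 4) * D := by
    have h1 : ∫ y, ∑ i ∈ S, kap (b i) y = (3 / 4 : ℝ) * S.card := by
      rw [integral_finsetSum _ (fun i _ => (int_kap (b i)).1)]
      rw [Finset.sum_congr rfl (fun i _ => (int_kap (b i)).2)]
      simp; ring
    have h2 : ∫ y, (Ico (-2) (M + 2)).indicator (fun _ => D) y = (M + 4) * D := by
      rw [integral_indicator measurableSet_Ico, setIntegral_const]
      simp only [measureReal_def, Real.volume_Ico, smul_eq_mul]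
      rw [ENNReal.toReal_ofReal (by linarith)]
      ring
    rw [← h1, ← h2]
    apply integral_mono
    · exact integrable_finsetSum _ (fun i _ => (int_kap (b i)).1)
    · rw [integrable_indicator_iff measurableSet_Ico]
      exact integrableOn_const (by simp [Real.volume_Ico])
    · intro y
      by_cases hy : y ∈ Ico (-2) (M + 2)
      · change ∑ i ∈ S, kap (b i) y ≤ (Ico (-2) (M + 2)).indicator (fun _ => D) y
        rw [indicator_of_mem hy]
        exact hch y
      · change ∑ i ∈ S, kap (b i) y ≤ (Ico (-2) (M + 2)).indicator (fun _ => D) y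
        rw [indicator_of_notMem hy]
        apply le_of_eq
        apply Finset.sum_eq_zero
        intro i hi
        unfold kap
        apply indicator_of_notMem
        intro hyi
        apply hy
        obtain ⟨h3, h4⟩ := hS i hi
        exact ⟨by linarith [hyi.1], by linarith [hyi.2]⟩
  by_contra hcon
  push Not at hcon
  set c := (M + 4) * D / (3 * M) + 1 with hc
  have hcM : c * M = (M + 4) * D / 3 + M := by
    rw [hc]; field_simp
  have h1 : ∫ y, ∑ i ∈ S, tauI (b i) y = (1 / 4 : ℝ) * S.card := by
    rw [integral_finsetSum _ (fun i _ => (int_tau (b i)).1)]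
    rw [Finset.sum_congr rfl (fun i _ => (int_tau (b i)).2)]
    simp; ring
  have h2 : ∫ y, (Icc 0 M).indicator (fun _ => c) y = c * M := by
    rw [integral_indicator measurableSet_Icc, setIntegral_const]
    simp only [measureReal_def, Real.volume_Icc, smul_eq_mul]
    rw [ENNReal.toReal_ofReal (by linarith)]
    ring
  have h3 : c * M ≤ (1 / 4 : ℝ) * S.card := by
    rw [← h1, ← h2]
    apply integral_mono
    · rw [integrable_indicator_iff measurableSet_Icc]
      exact integrableOn_const (by simp [Real.volume_Icc])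
    · exact integrable_finsetSum _ (fun i _ => (int_tau (b i)).1)
    · intro y
      by_cases hy : y ∈ Icc 0 M
      · change (Icc 0 M).indicator (fun _ => c) y ≤ ∑ i ∈ S, tauI (b i) y
        rw [indicator_of_mem hy]
        have := hcon y hy
        rw [Finset.sum_congr rfl (fun i _ => tau_eq (b i) y)] at this
        exact this.le
      · change (Icc 0 M).indicator (fun _ => c) y ≤ ∑ i ∈ S, tauI (b i) y
        rw [indicator_of_notMem hy]
        refine Finset.sum_nonneg (fun i _ => ?_)
        rw [← tau_eq]
        exact le_max_left _ _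
  linarith

end Pool.Agent.LFT.TriUp
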