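import Pool.Agent.LFT.TriUp

/-!
# Triangles without property (S) (MP_9c589f_co): module STACK
-/

namespace Pool.Agent.LFT.TriStack

open MeasureTheory Set Filter Topology
open scoped RealInnerProductSpace ENNReal

/-- the translate of a set. -/
def sh (v : E) (K : Set E) : Set E := (fun p => p + v) '' K

theorem sh_eq (v : E) (K : Set E) : sh v K = Homeomorph.addRight v '' K := rfl

theorem mem_sh (v p : E) (K : Set E) : p ∈ sh v K ↔ p - v ∈ K := by
  constructor
  · rintro ⟨q, hq, rfl⟩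
    simpa using hq
  · intro h
    exact ⟨p - v, h, by simp⟩

theorem interior_sh (v : E) (K : Set E) : interior (sh v K) = sh v (interior K) := by
  rw [sh_eq, sh_eq, Homeomorph.image_interior]

theorem sh_inj (v : E) (K K' : Set E) (h : sh v K ≠ sh v K') : K ≠ K' := by
  rintro rfl; exact h rfl

/-- the stack of `k` copies. -/
def stk (𝒯 : Set (Set E)) (n : E) (d : ℝ) (k : ℕ) : Set (Set E) :=
  {K | ∃ j : ℕ, j < k ∧ ∃ K0 ∈ 𝒯, K = sh (((j : ℝ) * d) • n) K0}

theorem stk_layer (𝒯 : Set (Set E)) (n : E) (a d : ℝ) (k : ℕ) (hk : 0 < k)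
    (hL : IsLayer 𝒯 n a d) : IsLayer (stk 𝒯 n d k) n a (k * d) := by
  have hn : ⟪n, n⟫ = (1 : ℝ) := by rw [real_inner_self_eq_norm_sq, hL.unit]; norm_num
  have hd := hL.pos
  have hkr : (0 : ℝ) < k := by exact_mod_cast hk
  have hst : ∀ (j : ℕ) (K0 : Set E), K0 ∈ 𝒯 → ∀ p ∈ sh (((j : ℝ) * d) • n) K0,
      a + j * d ≤ ⟪n, p⟫ ∧ ⟪n, p⟫ ≤ a + (j + 1) * d := by
    intro j K0 hK0 p hp
    rw [mem_sh] at hp
    have h := hL.strip K0 hK0 _ hp
    rw [inner_sub_right, real_inner_smul_right, hn, mul_one] at h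
    constructor <;> linarith [h.1, h.2]
  have hsti : ∀ (j : ℕ) (K0 : Set E), K0 ∈ 𝒯 → ∀ p ∈ interior (sh (((j : ℝ) * d) • n) K0),
      a + j * d < ⟪n, p⟫ ∧ ⟪n, p⟫ < a + (j + 1) * d := by
    intro j K0 hK0 p hp
    obtain ⟨s1, hs1, h1⟩ := TriUp.int_dir _ p n hp
    obtain ⟨s2, hs2, h2⟩ := TriUp.int_dir _ p (-n) hp
    have h3 := (hst j K0 hK0 _ h1).2
    have h4 := (hst j K0 hK0 _ h2).1
    rw [inner_add_right, real_inner_smul_right, hn, mul_one] at h3
    rw [inner_add_right, real_inner_smul_right, inner_neg_right, hn] at h4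
    constructor <;> linarith
  constructor
  · exact hL.unit
  · positivity
  · rintro K ⟨j, hj, K0, hK0, rfl⟩
    obtain ⟨h1, h2, h3⟩ := hL.body K0 hK0
    refine ⟨?_, ?_, ?_⟩
    · exact h1.image (by fun_prop)
    · intro p hp q hq s t hs ht hst
      rw [mem_sh] at hp hq ⊢
      have := h2 hp hq hs ht hst
      have e1 : s • p + t • q - ((j : ℝ) * d) • n =
          s • (p - ((j : ℝ) * d) • n) + t • (q - ((j : ℝ) * d) • n) := by
        have ht' : t = 1 - s := by linarith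
        rw [ht']; module
      rwa [e1]
    · obtain ⟨p, hp⟩ := h3
      refine ⟨p + ((j : ℝ) * d) • n, ?_⟩
      rw [interior_sh, mem_sh]
      simpa using hp
  · rintro K ⟨j, hj, K0, hK0, rfl⟩ K' ⟨j', hj', K0', hK0', rfl⟩ hne
    rw [Set.disjoint_left]
    intro p hp hp'
    obtain ⟨h1, h2⟩ := hsti j K0 hK0 p hp
    obtain ⟨h3, h4⟩ := hsti j' K0' hK0' p hp'
    have h5 : (j : ℝ) < j' + 1 := by
      have : (j : ℝ) * d < (j' + 1) * d := by linarith
      exact lt_of_mul_lt_mul_right this hd.le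
    have h6 : (j' : ℝ) < j + 1 := by
      have : (j' : ℝ) * d < (j + 1) * d := by linarith
      exact lt_of_mul_lt_mul_right this hd.le
    have h7 : j < j' + 1 := by exact_mod_cast h5
    have h8 : j' < j + 1 := by exact_mod_cast h6
    have hjj : j = j' := by omega
    subst hjj
    have hne' := sh_inj _ _ _ hne
    rw [interior_sh, mem_sh] at hp hp'
    exact Set.disjoint_left.1 (hL.packing K0 hK0 K0' hK0' hne') hp hp'
  · rintro K ⟨j, hj, K0, hK0, rfl⟩ p hp
    obtain ⟨h1, h2⟩ := hst j K0 hK0 p hp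
    have h3 : (0 : ℝ) ≤ j := Nat.cast_nonneg j
    have h4 : (j : ℝ) + 1 ≤ k := by exact_mod_cast hj
    have h5 := mul_nonneg h3 hd.le
    have h6 := mul_le_mul_of_nonneg_right h4 hd.le
    constructor <;> linarith
  · intro R
    have hfin : (⋃ j ∈ Finset.range k, (fun K0 => sh (((j : ℝ) * d) • n) K0) ''
        {K ∈ 𝒯 | (K ∩ Metric.closedBall 0 (R + j * d)).Nonempty}).Finite := by
      apply Set.Finite.biUnion (Finset.finite_toSet _)
      intro j _
      exact (hL.locFin _).image _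
    refine hfin.subset ?_
    rintro K ⟨⟨j, hj, K0, hK0, rfl⟩, p, hp, hpR⟩
    simp only [mem_iUnion]
    refine ⟨j, Finset.mem_range.2 hj, K0, ⟨hK0, p - ((j : ℝ) * d) • n, ?_, ?_⟩, rfl⟩
    · rwa [mem_sh] at hp
    · rw [Metric.mem_closedBall, dist_zero_right] at hpR ⊢
      calc ‖p - ((j : ℝ) * d) • n‖ ≤ ‖p‖ + ‖((j : ℝ) * d) • n‖ := norm_sub_le _ _
        _ = ‖p‖ + (j : ℝ) * d := by
            rw [norm_smul, hL.unit, mul_one, Real.norm_eq_abs, abs_of_nonneg (by positivity)]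
        _ ≤ _ := by linarith

theorem variation_sub (f : ℝ → E) (v : E) (s : Set ℝ) :
    eVariationOn (fun t => f t - v) s = eVariationOn f s := by
  unfold eVariationOn
  simp [edist_sub_right]

theorem stk_cross (𝒯 : Set (Set E)) (n : E) (a d : ℝ) (k : ℕ) (hL : IsLayer 𝒯 n a d)
    (γ : ℝ → E) (hγ : IsCrossing (stk 𝒯 n d k) n a (k * d) γ) :
    ∀ j : ℕ, j ≤ k → ∀ t0 ∈ Icc (0 : ℝ) 1, ⟪n, γ t0⟫ = a + ((k : ℝ) - j) * d →
      (j : ℝ≥0∞) * crossLen 𝒯 n a d ≤ eVariationOn γ (Icc t0 1) := by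
  have hn : ⟪n, n⟫ = (1 : ℝ) := by rw [real_inner_self_eq_norm_sq, hL.unit]; norm_num
  have hd := hL.pos
  have hg : ContinuousOn (fun t => ⟪n, γ t⟫) (Icc 0 1) := continuousOn_const.inner hγ.cont
  intro j
  induction j with
  | zero => intro _ t0 _ _; simp
  | succ j ih =>
    intro hj t0 ht0 hgt0
    push_cast at hgt0
    obtain ⟨t1, ht1, hgt1⟩ : ∃ t1 ∈ Icc t0 1, ⟪n, γ t1⟫ = a + ((k : ℝ) - j) * d := by
      obtain ⟨t1, ht1, h1⟩ := intermediate_value_Icc ht0.2 (hg.mono (Icc_subset_Icc ht0.1 le_rfl))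
        (show a + ((k : ℝ) - j) * d ∈ Icc (⟪n, γ t0⟫) (⟪n, γ 1⟫) from by
          rw [hgt0, hγ.stop]
          have : 0 ≤ (j : ℝ) * d := by positivity
          constructor <;> linarith)
      exact ⟨t1, ht1, h1⟩
    have ht1' : t1 ∈ Icc (0 : ℝ) 1 := ⟨ht0.1.trans ht1.1, ht1.2⟩
    have h2 := ih (by omega) t1 ht1' hgt1
    set i : ℕ := k - j - 1 with hi
    have hik : i < k := by omega
    have hir : (i : ℝ) = (k : ℝ) - j - 1 := by
      have : (i : ℤ) = (k : ℤ) - j - 1 := by omega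
      exact_mod_cast this
    set v : E := ((i : ℝ) * d) • n with hv
    have hnv : ⟪n, v⟫ = (i : ℝ) * d := by rw [hv, real_inner_smul_right, hn, mul_one]
    set η : ℝ → E := fun s => γ (t0 + s * (t1 - t0)) - v with hη
    have hmaps : ∀ s ∈ Icc (0 : ℝ) 1, t0 + s * (t1 - t0) ∈ Icc t0 t1 := by
      intro s hs
      have h3 := mul_nonneg hs.1 (show 0 ≤ t1 - t0 by linarith [ht1.1])
      have h4 := mul_le_mul_of_nonneg_right hs.2 (show 0 ≤ t1 - t0 by linarith [ht1.1])
      constructor <;> linarith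
    have hcr : IsCrossing 𝒯 n a d η := by
      constructor
      · have h3 : ContinuousOn (fun s : ℝ => γ (t0 + s * (t1 - t0))) (Icc 0 1) := by
          refine hγ.cont.comp (by fun_prop) ?_
          intro s hs
          have := hmaps s hs
          exact ⟨ht0.1.trans this.1, this.2.trans ht1.2⟩
        exact h3.sub continuousOn_const
      · simp only [hη]
        rw [zero_mul, add_zero, inner_sub_right, hgt0, hnv, hir]
        ring
      · simp only [hη]
        rw [one_mul, add_sub_cancel, inner_sub_right, hgt1, hnv, hir]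
        ring
      · intro s hs K hK hint
        have h3 := hmaps s hs
        refine hγ.avoid (t0 + s * (t1 - t0)) ⟨ht0.1.trans h3.1, h3.2.trans ht1.2⟩ (sh v K)
          ⟨i, hik, K, hK, rfl⟩ ?_
        rw [interior_sh, mem_sh]
        exact hint
    have h3 : crossLen 𝒯 n a d ≤ eVariationOn γ (Icc t0 t1) := by
      refine (iInf₂_le η hcr).trans ?_
      rw [hη, variation_sub (fun s => γ (t0 + s * (t1 - t0)))]
      refine eVariationOn.comp_le_of_monotoneOn γ (fun s : ℝ => t0 + s * (t1 - t0)) ?_ hmaps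
      intro s _ t _ hst
      simp only
      have := mul_le_mul_of_nonneg_right hst (show 0 ≤ t1 - t0 by linarith [ht1.1])
      linarith
    have h4 := eVariationOn.Icc_add_Icc γ (s := univ) ht1.1 ht1.2 (mem_univ t1)
    simp only [univ_inter] at h4
    rw [← h4]
    push_cast
    rw [add_mul, one_mul, add_comm]
    exact add_le_add h3 h2

end Pool.Agent.LFT.TriStack

namespace Pool.Agent.LFT

open MeasureTheory Set
open scoped RealInnerProductSpace ENNReal

theorem stack_proof : Stmt_Stack := by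
  intro C n c κ hc hbd 𝒯 a d hL hT
  have hmul : ∀ k : ℕ, 0 < k → (k : ℝ≥0∞) * crossLen 𝒯 n a d ≤
      ENNReal.ofReal (c * (k * d) + κ) := by
    intro k hk
    have h1 := hbd (TriStack.stk 𝒯 n d k) a (k * d) (TriStack.stk_layer 𝒯 n a d k hk hL) (by
      rintro K ⟨j, _, K0, hK0, rfl⟩
      obtain ⟨z, rfl⟩ := hT K0 hK0
      refine ⟨z + ((j : ℝ) * d) • n, ?_⟩
      unfold TriStack.sh
      rw [image_image]
      congr 1
      funext p
      abel)
    refine le_trans ?_ h1
    unfold crossLen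
    refine le_iInf₂ ?_
    intro γ hγ
    have h2 := TriStack.stk_cross 𝒯 n a d k hL γ hγ k le_rfl 0 ⟨le_rfl, zero_le_one⟩ (by
      rw [hγ.start]; ring)
    exact h2
  have hfin : crossLen 𝒯 n a d ≠ ⊤ := by
    have := hmul 1 one_pos
    rw [Nat.cast_one, one_mul] at this
    exact (this.trans_lt ENNReal.ofReal_lt_top).ne
  set ℓ := (crossLen 𝒯 n a d).toReal with hℓ
  have hℓ0 : 0 ≤ ℓ := ENNReal.toReal_nonneg
  have hℓe : crossLen 𝒯 n a d = ENNReal.ofReal ℓ := (ENNReal.ofReal_toReal hfin).symm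
  rw [hℓe]
  apply ENNReal.ofReal_le_ofReal
  by_contra hcon
  push Not at hcon
  have hd := hL.pos
  obtain ⟨k, hk⟩ := exists_nat_gt (|κ| / (ℓ - c * d))
  have hpos : 0 < ℓ - c * d := by linarith
  have hk0 : 0 < k := by
    have : (0 : ℝ) < k := lt_of_le_of_lt (by positivity) hk
    exact_mod_cast this
  have h1 := hmul k hk0
  rw [hℓe] at h1
  have h2 : (k : ℝ≥0∞) * ENNReal.ofReal ℓ = ENNReal.ofReal (k * ℓ) := by
    rw [ENNReal.ofReal_mul (Nat.cast_nonneg k), ENNReal.ofReal_natCast]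
  rw [h2] at h1
  have h3 : (k : ℝ) * ℓ ≤ c * (k * d) + |κ| := by
    have h4 : ENNReal.ofReal (k * ℓ) ≤ ENNReal.ofReal (c * (k * d) + |κ|) :=
      h1.trans (ENNReal.ofReal_le_ofReal (by linarith [le_abs_self κ]))
    exact (ENNReal.ofReal_le_ofReal_iff (by positivity)).1 h4
  rw [div_lt_iff₀ hpos] at hk
  nlinarith

end Pool.Agent.LFT
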