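import Pool.Agent.LFT.TriStmts
import Pool.Agent.LFT.TriAvg
import Pool.Agent.LFT.LineBound
import Pool.Agent.LFT.Graph

/-!
# Triangles without property (S) (MP_9c589f_co): module UP
-/

namespace Pool.Agent.LFT.TriUp

open MeasureTheory Set Filter Topology
open scoped RealInnerProductSpace ENNReal

theorem tri_of_translate (e f : E) (K : Set E) (h : IsTranslate (Tri 0 e f) K) :
    ∃ z : E, K = Tri z e f := by
  obtain ⟨z, rfl⟩ := h
  refine ⟨z, ?_⟩
  ext p
  constructor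
  · rintro ⟨_, ⟨s, t, hs, ht, hst, rfl⟩, rfl⟩
    exact ⟨s, t, hs, ht, hst, by simp only; abel⟩
  · rintro ⟨s, t, hs, ht, hst, rfl⟩
    exact ⟨0 + s • e + t • f, ⟨s, t, hs, ht, hst, rfl⟩, by simp only; abel⟩

theorem translate_of_tri (z e f : E) : IsTranslate (Tri 0 e f) (Tri z e f) := by
  refine ⟨z, ?_⟩
  ext p
  constructor
  · rintro ⟨s, t, hs, ht, hst, rfl⟩
    exact ⟨0 + s • e + t • f, ⟨s, t, hs, ht, hst, rfl⟩, by simp only; abel⟩
  · rintro ⟨_, ⟨s, t, hs, ht, hst, rfl⟩, rfl⟩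
    exact ⟨s, t, hs, ht, hst, by simp only; abel⟩

/-- from an interior point one can move a little in every direction. -/
theorem int_dir (K : Set E) (p v : E) (hp : p ∈ interior K) : ∃ s : ℝ, 0 < s ∧ p + s • v ∈ K := by
  rw [mem_interior_iff_mem_nhds] at hp
  have hc : Tendsto (fun s : ℝ => p + s • v) (𝓝 0) (𝓝 (p + (0 : ℝ) • v)) :=
    (by fun_prop : Continuous fun s : ℝ => p + s • v).tendsto 0
  rw [zero_smul, add_zero] at hc
  have h1 : ∀ᶠ s in 𝓝[>] (0 : ℝ), p + s • v ∈ K :=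
    (hc.eventually hp).filter_mono nhdsWithin_le_nhds
  have h2 : ∀ᶠ s in 𝓝[>] (0 : ℝ), s ∈ Ioi (0 : ℝ) := self_mem_nhdsWithin
  obtain ⟨s, hs1, hs2⟩ := (h2.and h1).exists
  exact ⟨s, hs1, hs2⟩

section
variable (e f : E) (X Y : E → ℝ) (hX : Continuous X) (hY : Continuous Y)
  (hXY : ∀ p, p = X p • e + Y p • (f - (1 / 2 : ℝ) • e))
  (huniq : ∀ p x y, p = x • e + y • (f - (1 / 2 : ℝ) • e) → x = X p ∧ y = Y p)

include hXY huniq in
theorem tri_mem (z p : E) : p ∈ Tri z e f ↔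
    0 ≤ Y p - Y z ∧ |X p - (X z + 1 / 2)| ≤ (1 - (Y p - Y z)) / 2 := by
  constructor
  · rintro ⟨s, t, hs, ht, hst, hp⟩
    have hz := hXY z
    have hp' : p = (X z + s + t / 2) • e + (Y z + t) • (f - (1 / 2 : ℝ) • e) := by
      rw [hp]
      conv_lhs => rw [hz]
      module
    obtain ⟨h1, h2⟩ := huniq _ _ _ hp'
    rw [← h1, ← h2, abs_le]
    refine ⟨by linarith, ?_, ?_⟩ <;> linarith
  · rintro ⟨h1, h2⟩
    rw [abs_le] at h2
    refine ⟨X p - X z - (Y p - Y z) / 2, Y p - Y z, by linarith [h2.1], h1, by linarith [h2.2], ?_⟩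
    conv_lhs => rw [hXY p]
    conv_rhs => rw [hXY z]
    have hz := hXY z
    have hzX : X (X z • e + Y z • (f - (1 / 2 : ℝ) • e)) = X z := by rw [← hz]
    have hzY : Y (X z • e + Y z • (f - (1 / 2 : ℝ) • e)) = Y z := by rw [← hz]
    try rw [hzX, hzY]
    module

include hXY huniq in
theorem tri_int (z p : E) (hp : p ∈ interior (Tri z e f)) :
    0 < Y p - Y z ∧ |X p - (X z + 1 / 2)| < (1 - (Y p - Y z)) / 2 := by
  have hsh : ∀ (s t : ℝ), X (p + s • e + t • (f - (1 / 2 : ℝ) • e)) = X p + s ∧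
      Y (p + s • e + t • (f - (1 / 2 : ℝ) • e)) = Y p + t := by
    intro s t
    have hp := hXY p
    have : p + s • e + t • (f - (1 / 2 : ℝ) • e) =
        (X p + s) • e + (Y p + t) • (f - (1 / 2 : ℝ) • e) := by
      conv_lhs => rw [hp]
      module
    obtain ⟨h1, h2⟩ := huniq _ _ _ this
    exact ⟨h1.symm, h2.symm⟩
  obtain ⟨s1, hs1, h1⟩ := int_dir _ p (-(f - (1 / 2 : ℝ) • e)) hp
  obtain ⟨s2, hs2, h2⟩ := int_dir _ p e hp
  obtain ⟨s3, hs3, h3⟩ := int_dir _ p (-e) hp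
  have e1 : p + s1 • (-(f - (1 / 2 : ℝ) • e)) =
      p + (0 : ℝ) • e + (-s1) • (f - (1 / 2 : ℝ) • e) := by module
  have e2 : p + s2 • e = p + s2 • e + (0 : ℝ) • (f - (1 / 2 : ℝ) • e) := by module
  have e3 : p + s3 • (-e) = p + (-s3) • e + (0 : ℝ) • (f - (1 / 2 : ℝ) • e) := by module
  rw [e1, tri_mem e f X Y hXY huniq, (hsh _ _).1, (hsh _ _).2] at h1
  rw [e2, tri_mem e f X Y hXY huniq, (hsh _ _).1, (hsh _ _).2] at h2
  rw [e3, tri_mem e f X Y hXY huniq, (hsh _ _).1, (hsh _ _).2] at h3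
  rw [abs_le] at h2 h3
  rw [abs_lt]
  refine ⟨by linarith [h1.1], ?_, ?_⟩
  · linarith [h3.2.1]
  · linarith [h2.2.2]

include hX hY hXY huniq in
theorem tri_int' (z p : E) (h1 : 0 < Y p - Y z)
    (h2 : |X p - (X z + 1 / 2)| < (1 - (Y p - Y z)) / 2) : p ∈ interior (Tri z e f) := by
  have hopen : IsOpen {q : E | 0 < Y q - Y z ∧ |X q - (X z + 1 / 2)| < (1 - (Y q - Y z)) / 2} := by
    have o1 : IsOpen {q : E | 0 < Y q - Y z} :=
      isOpen_lt continuous_const (hY.sub continuous_const)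
    have o2 : IsOpen {q : E | |X q - (X z + 1 / 2)| < (1 - (Y q - Y z)) / 2} :=
      isOpen_lt (hX.sub continuous_const).abs
        ((continuous_const.sub (hY.sub continuous_const)).div_const 2)
    exact o1.inter o2
  have hsub : {q : E | 0 < Y q - Y z ∧ |X q - (X z + 1 / 2)| < (1 - (Y q - Y z)) / 2} ⊆
      Tri z e f := by
    intro q hq
    rw [tri_mem e f X Y hXY huniq]
    exact ⟨hq.1.le, hq.2.le⟩
  exact interior_maximal hsub hopen ⟨h1, h2⟩

include hX hY hXY huniq in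
theorem tri_sep (z z' : E) (hd : Disjoint (interior (Tri z e f)) (interior (Tri z' e f)))
    (hle : Y z' ≤ Y z) :
    Y z' + 1 ≤ Y z ∨ 1 - (Y z - Y z') / 2 ≤ |(X z + 1 / 2) - (X z' + 1 / 2)| := by
  by_contra hcon
  push Not at hcon
  obtain ⟨h1, h2⟩ := hcon
  set m := X z + 1 / 2 with hm
  set m' := X z' + 1 / 2 with hm'
  set Δ := Y z - Y z' with hΔ
  obtain ⟨ε, hε0, hε⟩ := exists_between (lt_min (show (0 : ℝ) < 1 - Δ by linarith)
    (show (0 : ℝ) < 1 - Δ / 2 - |m - m'| by linarith))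
  rw [lt_min_iff] at hε
  set r := (1 - ε) / 2 with hr
  set r' := (1 - Δ - ε) / 2 with hr'
  have hΔ0 : 0 ≤ Δ := by linarith
  have hr0 : 0 < r := by rw [hr]; linarith [hε.1]
  have hr0' : 0 < r' := by rw [hr']; linarith [hε.1]
  have hsum : |m - m'| < r + r' := by rw [hr, hr']; linarith [hε.2]
  have hrr : 0 < r + r' := by linarith
  set x := m + r / (r + r') * (m' - m) with hx
  set p : E := x • e + (Y z + ε) • (f - (1 / 2 : ℝ) • e) with hp
  obtain ⟨hpx, hpy⟩ := huniq p x (Y z + ε) hp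
  have a1 : |x - m| < r := by
    have : x - m = r / (r + r') * (m' - m) := by rw [hx]; ring
    rw [this, abs_mul, abs_of_pos (div_pos hr0 hrr), abs_sub_comm, div_mul_eq_mul_div,
      div_lt_iff₀ hrr]
    exact mul_lt_mul_of_pos_left hsum hr0
  have a2 : |x - m'| < r' := by
    have : x - m' = r' / (r + r') * (m - m') := by rw [hx]; field_simp; ring
    rw [this, abs_mul, abs_of_pos (div_pos hr0' hrr), div_mul_eq_mul_div, div_lt_iff₀ hrr]
    exact mul_lt_mul_of_pos_left hsum hr0'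
  have hp1 : p ∈ interior (Tri z e f) := by
    apply tri_int' e f X Y hX hY hXY huniq
    · rw [← hpy]; linarith
    · rw [← hpx, ← hpy, ← hm]
      refine lt_of_lt_of_eq a1 ?_
      rw [hr]; ring
  have hp2 : p ∈ interior (Tri z' e f) := by
    apply tri_int' e f X Y hX hY hXY huniq
    · rw [← hpy]; linarith
    · rw [← hpx, ← hpy, ← hm']
      refine lt_of_lt_of_eq a2 ?_
      rw [hr', hΔ]; ring
  exact Set.disjoint_left.1 hd hp1 hp2

end

/-- the length of a step of the level curve. -/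
theorem step (e f : E) (s t γs γt : ℝ) (hst : s ≤ t) (hl : |γt - γs| ≤ 2 * |t - s|) :
    ‖(t • e + γt • (f - (1 / 2 : ℝ) • e)) - (s • e + γs • (f - (1 / 2 : ℝ) • e))‖ ≤
      ‖e‖ * (t - s) + (‖f‖ + ‖f - e‖ - ‖e‖) / 2 * |γt - γs| +
        (‖f‖ - ‖f - e‖) / 2 * (γt - γs) := by
  rw [abs_of_nonneg (show (0 : ℝ) ≤ t - s by linarith)] at hl
  rcases le_total 0 (γt - γs) with h | h
  · rw [abs_of_nonneg h] at hl ⊢
    have e1 : (t • e + γt • (f - (1 / 2 : ℝ) • e)) - (s • e + γs • (f - (1 / 2 : ℝ) • e)) =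
        ((t - s) - (γt - γs) / 2) • e + (γt - γs) • f := by module
    rw [e1]
    calc _ ≤ ‖((t - s) - (γt - γs) / 2) • e‖ + ‖(γt - γs) • f‖ := norm_add_le _ _
      _ = ((t - s) - (γt - γs) / 2) * ‖e‖ + (γt - γs) * ‖f‖ := by
          rw [norm_smul, norm_smul, Real.norm_eq_abs, Real.norm_eq_abs,
            abs_of_nonneg (by linarith), abs_of_nonneg h]
      _ = _ := by ring
  · rw [abs_of_nonpos h] at hl ⊢
    have e1 : (t • e + γt • (f - (1 / 2 : ℝ) • e)) - (s • e + γs • (f - (1 / 2 : ℝ) • e)) =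
        ((t - s) + (γt - γs) / 2) • e + (γt - γs) • (f - e) := by module
    rw [e1]
    calc _ ≤ ‖((t - s) + (γt - γs) / 2) • e‖ + ‖(γt - γs) • (f - e)‖ := norm_add_le _ _
      _ = ((t - s) + (γt - γs) / 2) * ‖e‖ + (-(γt - γs)) * ‖f - e‖ := by
          rw [norm_smul, norm_smul, Real.norm_eq_abs, Real.norm_eq_abs,
            abs_of_nonneg (by linarith), abs_of_nonpos h]
      _ = _ := by ring

/-- the length of the level curve. -/
theorem curve_var (e f : E) (γ : ℝ → ℝ) (x0 x1 y0 T : ℝ)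
    (hl : ∀ s t, |γ s - γ t| ≤ 2 * |s - t|) (hr : ∀ s, y0 ≤ γ s ∧ γ s ≤ y0 + 1)
    (hT : ∀ (u : ℕ → ℝ), Monotone u → ∀ n, ∑ i ∈ Finset.range n, |γ (u (i + 1)) - γ (u i)| ≤ T) :
    eVariationOn (fun x => x • e + γ x • (f - (1 / 2 : ℝ) • e)) (Icc x0 x1) ≤
      ENNReal.ofReal (‖e‖ * (x1 - x0) + (‖f‖ + ‖f - e‖ - ‖e‖) / 2 * T + (‖f‖ + ‖f - e‖)) := by
  unfold eVariationOn
  apply iSup_le
  rintro ⟨n, u, hu, hus⟩
  simp only
  have h1 : ∀ i ∈ Finset.range n, edist (u (i + 1) • e + γ (u (i + 1)) • (f - (1 / 2 : ℝ) • e))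
      (u i • e + γ (u i) • (f - (1 / 2 : ℝ) • e)) ≤
      ENNReal.ofReal (‖e‖ * (u (i + 1) - u i) + (‖f‖ + ‖f - e‖ - ‖e‖) / 2 *
        |γ (u (i + 1)) - γ (u i)| + (‖f‖ - ‖f - e‖) / 2 * (γ (u (i + 1)) - γ (u i))) := by
    intro i _
    rw [edist_dist, dist_eq_norm]
    exact ENNReal.ofReal_le_ofReal (step e f _ _ _ _ (hu (Nat.le_succ i)) (hl _ _))
  have hnn : ∀ i ∈ Finset.range n, 0 ≤ ‖e‖ * (u (i + 1) - u i) + (‖f‖ + ‖f - e‖ - ‖e‖) / 2 *
        |γ (u (i + 1)) - γ (u i)| + (‖f‖ - ‖f - e‖) / 2 * (γ (u (i + 1)) - γ (u i)) := by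
    intro i _
    exact (norm_nonneg _).trans (step e f _ _ _ _ (hu (Nat.le_succ i)) (hl _ _))
  refine (Finset.sum_le_sum h1).trans ?_
  rw [← ENNReal.ofReal_sum_of_nonneg hnn]
  apply ENNReal.ofReal_le_ofReal
  rw [Finset.sum_add_distrib, Finset.sum_add_distrib, ← Finset.mul_sum, ← Finset.mul_sum,
    ← Finset.mul_sum, Finset.sum_range_sub, Finset.sum_range_sub (fun i => γ (u i))]
  have h2 : ‖e‖ * (u n - u 0) ≤ ‖e‖ * (x1 - x0) := by
    apply mul_le_mul_of_nonneg_left _ (norm_nonneg _)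
    have := (hus n).2
    have := (hus 0).1
    linarith
  have htri : 0 ≤ ‖f‖ + ‖f - e‖ - ‖e‖ := by
    have : ‖e‖ ≤ ‖f‖ + ‖f - e‖ := by
      calc ‖e‖ = ‖f - (f - e)‖ := by congr 1; abel
        _ ≤ _ := norm_sub_le _ _
    linarith
  have h3 : (‖f‖ + ‖f - e‖ - ‖e‖) / 2 * ∑ i ∈ Finset.range n, |γ (u (i + 1)) - γ (u i)| ≤
      (‖f‖ + ‖f - e‖ - ‖e‖) / 2 * T :=
    mul_le_mul_of_nonneg_left (hT u hu n) (by linarith)
  have h4 : (‖f‖ - ‖f - e‖) / 2 * (γ (u n) - γ (u 0)) ≤ ‖f‖ + ‖f - e‖ := by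
    have a1 := hr (u n)
    have a2 := hr (u 0)
    have a3 : |γ (u n) - γ (u 0)| ≤ 1 := by rw [abs_le]; constructor <;> linarith
    have a4 : |(‖f‖ - ‖f - e‖) / 2| ≤ ‖f‖ + ‖f - e‖ := by
      have := norm_nonneg f
      have := norm_nonneg (f - e)
      rw [abs_le]; constructor <;> linarith
    calc _ ≤ |(‖f‖ - ‖f - e‖) / 2 * (γ (u n) - γ (u 0))| := le_abs_self _
      _ = |(‖f‖ - ‖f - e‖) / 2| * |γ (u n) - γ (u 0)| := abs_mul _ _
      _ ≤ (‖f‖ + ‖f - e‖) * 1 := mul_le_mul a4 a3 (abs_nonneg _) (by positivity)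
      _ = _ := mul_one _
  linarith

theorem up_pos (e f n : E) (hef : LinearIndependent ℝ ![e, f]) (hn : ‖n‖ = 1)
    (hα : 0 < ⟪n, e⟫) : ∃ κ : ℝ, ∀ (𝒯 : Set (Set E)) (a d : ℝ), IsLayer 𝒯 n a d →
      (∀ K ∈ 𝒯, IsTranslate (Tri 0 e f) K) →
      crossLen 𝒯 n a d ≤
        ENNReal.ofReal ((2 * ‖e‖ + ‖f‖ + ‖f - e‖) / (3 * |⟪n, e⟫|) * d + κ) := by
  have heh : LinearIndependent ℝ ![e, f - (1 / 2 : ℝ) • e] := by
    rw [LinearIndependent.pair_iff] at hef ⊢
    intro s t hst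
    have h := hef (s - t / 2) t (by rw [← hst]; module)
    exact ⟨by linarith [h.1, h.2], h.2⟩
  obtain ⟨X, Y, hX, hY, hXY, huniq⟩ := Graph.exists_coord e (f - (1 / 2 : ℝ) • e) heh
  set h : E := f - (1 / 2 : ℝ) • e with hh
  set α := ⟪n, e⟫ with hαd
  set β := ⟪n, h⟫ with hβd
  rw [abs_of_pos hα]
  refine ⟨‖e‖ * |β| / α + (‖f‖ + ‖f - e‖ - ‖e‖) * (2 * |β| / (3 * α) + 4 / 3) +
    (‖f‖ + ‖f - e‖), ?_⟩
  intro 𝒯 a d hL hT
  have hT' : ∀ K ∈ 𝒯, ∃ z : E, K = Tri z e f := fun K hK => tri_of_translate e f K (hT K hK)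
  choose! z hz using hT'
  have hd : 0 < d := hL.pos
  have hβ0 : 0 ≤ |β| := abs_nonneg _
  -- coordinates
  set m : Set E → ℝ := fun K => X (z K) + 1 / 2 with hm
  set b : Set E → ℝ := fun K => Y (z K) with hb
  have hin : ∀ p : E, ⟪n, p⟫ = α * X p + β * Y p := by
    intro p
    conv_lhs => rw [hXY p]
    rw [inner_add_right, real_inner_smul_right, real_inner_smul_right]
    ring
  -- separation
  have hsep : ∀ K ∈ 𝒯, ∀ K' ∈ 𝒯, K ≠ K' → b K' ≤ b K →
      b K' + 1 ≤ b K ∨ 1 - (b K - b K') / 2 ≤ |m K - m K'| := by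
    intro K hK K' hK' hne hle
    have hdj := hL.packing K hK K' hK' hne
    rw [hz K hK, hz K' hK'] at hdj
    exact tri_sep e f X Y hX hY hXY huniq (z K) (z K') hdj hle
  -- the strip
  have hstrip : ∀ K ∈ 𝒯, a ≤ α * (m K - 1 / 2) + β * b K ∧ α * (m K + 1 / 2) + β * b K ≤ a + d := by
    intro K hK
    have z1 : z K ∈ K := by
      have : z K ∈ Tri (z K) e f := ⟨0, 0, le_rfl, le_rfl, by norm_num, by module⟩
      rwa [← hz K hK] at this
    have z2 : z K + e ∈ K := by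
      have : z K + e ∈ Tri (z K) e f := ⟨1, 0, by norm_num, le_rfl, by norm_num, by module⟩
      rwa [← hz K hK] at this
    have h1 := (hL.strip K hK _ z1).1
    have h2 := (hL.strip K hK _ z2).2
    rw [inner_add_right, ← hαd] at h2
    rw [hin (z K)] at h1 h2
    simp only [hm, hb]
    constructor <;> linarith
  set D := (d + 2 * |β|) / α with hD
  have hD0 : 0 < D := div_pos (by linarith) hα
  set M := 4 * D with hM
  have hM0 : 0 < M := by rw [hM]; linarith
  -- finiteness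
  have hfin : {K ∈ 𝒯 | -2 ≤ b K ∧ b K ≤ M + 1}.Finite := by
    set B0 := M + 2 with hB0
    set R := (|a| + d + |β| * B0) / α * ‖e‖ + B0 * ‖h‖ with hR
    refine (hL.locFin R).subset ?_
    rintro K ⟨hK, h1, h2⟩
    refine ⟨hK, z K, ?_, ?_⟩
    · have : z K ∈ Tri (z K) e f := ⟨0, 0, le_rfl, le_rfl, by norm_num, by module⟩
      rwa [← hz K hK] at this
    · rw [Metric.mem_closedBall, dist_zero_right]
      have hbK : |b K| ≤ B0 := by rw [abs_le]; constructor <;> linarith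
      have hXz : |X (z K)| ≤ (|a| + d + |β| * B0) / α := by
        obtain ⟨h3, h4⟩ := hstrip K hK
        have e3 : α * (m K - 1 / 2) = α * X (z K) := by simp only [hm]; ring
        have e4 : α * (m K + 1 / 2) = α * X (z K) + α := by simp only [hm]; ring
        rw [e3] at h3
        rw [e4] at h4
        have h5 : |β * b K| ≤ |β| * B0 := by
          rw [abs_mul]; exact mul_le_mul_of_nonneg_left hbK (abs_nonneg _)
        have h6 := abs_le.1 h5
        have h7 := neg_abs_le a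
        have h8 := le_abs_self a
        have h9 : |X (z K)| * α = |α * X (z K)| := by rw [abs_mul, abs_of_pos hα, mul_comm]
        rw [le_div_iff₀ hα, h9, abs_le]
        constructor <;> linarith
      calc ‖z K‖ = ‖X (z K) • e + Y (z K) • h‖ := by rw [← hXY (z K)]
        _ ≤ ‖X (z K) • e‖ + ‖Y (z K) • h‖ := norm_add_le _ _
        _ = |X (z K)| * ‖e‖ + |b K| * ‖h‖ := by
            rw [norm_smul, norm_smul, Real.norm_eq_abs, Real.norm_eq_abs]
        _ ≤ R := add_le_add (mul_le_mul_of_nonneg_right hXz (norm_nonneg _))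
            (mul_le_mul_of_nonneg_right hbK (norm_nonneg _))
  set S := hfin.toFinset with hS
  have hSmem : ∀ K, K ∈ S ↔ K ∈ 𝒯 ∧ -2 ≤ b K ∧ b K ≤ M + 1 := by
    intro K; rw [hS, Set.Finite.mem_toFinset]; exact Iff.rfl
  -- the chords
  have hch : ∀ y, ∑ K ∈ S, kap (b K) y ≤ D := by
    intro y
    classical
    have h1 : ∑ K ∈ S, kap (b K) y =
        ∑ K ∈ S.filter (fun K => y ∈ Ico (b K) (b K + 1)), (1 - |y - b K - 1 / 2|) := by
      rw [Finset.sum_filter]
      apply Finset.sum_congr rfl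
      intro K _
      unfold kap
      by_cases hyy : y ∈ Ico (b K) (b K + 1)
      · rw [indicator_of_mem hyy, if_pos hyy]
      · rw [indicator_of_notMem hyy, if_neg hyy]
    rw [h1]
    have h2 := LineBound.sum_len_le (S.filter (fun K => y ∈ Ico (b K) (b K + 1)))
      (fun K => m K - (1 - |y - b K - 1 / 2|) / 2) (fun K => m K + (1 - |y - b K - 1 / 2|) / 2)
      ((a - β * y - |β|) / α) ((a - β * y - |β|) / α + D) (by linarith) (by
        intro K hK
        rw [Finset.mem_filter, hSmem] at hK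
        obtain ⟨⟨hK, _, _⟩, hy1, hy2⟩ := hK
        obtain ⟨h3, h4⟩ := hstrip K hK
        have h5 : |y - b K - 1 / 2| ≤ 1 / 2 := by rw [abs_le]; constructor <;> linarith
        have h6 := abs_nonneg (y - b K - 1 / 2)
        have h7 : |β * (y - b K)| ≤ |β| := by
          rw [abs_mul]
          have : |y - b K| ≤ 1 := by rw [abs_le]; constructor <;> linarith
          calc |β| * |y - b K| ≤ |β| * 1 := mul_le_mul_of_nonneg_left this (abs_nonneg _)
            _ = |β| := mul_one _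
        have h8 := abs_le.1 h7
        have h9 : (a - β * y - |β|) / α ≤ m K - 1 / 2 := by
          rw [div_le_iff₀ hα]
          linarith
        have h10 : m K + 1 / 2 ≤ (a - β * y - |β|) / α + D := by
          rw [hD, ← add_div, le_div_iff₀ hα]
          linarith
        refine ⟨by linarith, by linarith, by linarith⟩) (by
        intro K hK K' hK' hne
        rw [Finset.mem_filter, hSmem] at hK hK'
        obtain ⟨⟨hK, _, _⟩, hy1, hy2⟩ := hK
        obtain ⟨⟨hK', _, _⟩, hy1', hy2'⟩ := hK'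
        have hgen : ∀ K ∈ 𝒯, ∀ K' ∈ 𝒯, K ≠ K' → b K ≤ y → y < b K + 1 → b K' ≤ y →
            y < b K' + 1 → b K' ≤ b K →
            (1 - |y - b K - 1 / 2|) / 2 + (1 - |y - b K' - 1 / 2|) / 2 ≤ |m K - m K'| := by
          intro K hK K' hK' hne hy1 hy2 hy1' hy2' hle
          have h3 : 1 - (b K - b K') / 2 ≤ |m K - m K'| := by
            rcases hsep K hK K' hK' hne hle with h | h
            · linarith
            · exact h
          have h4 : b K - b K' ≤ |y - b K - 1 / 2| + |y - b K' - 1 / 2| := by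
            have := abs_sub_abs_le_abs_sub (y - b K' - 1 / 2) (y - b K - 1 / 2)
            have h5 : b K - b K' ≤ |(y - b K' - 1 / 2) - (y - b K - 1 / 2)| := by
              rw [show (y - b K' - 1 / 2) - (y - b K - 1 / 2) = b K - b K' by ring]
              exact le_abs_self _
            have h6 := abs_sub (y - b K' - 1 / 2) (y - b K - 1 / 2)
            linarith
          linarith
        have hkey : (1 - |y - b K - 1 / 2|) / 2 + (1 - |y - b K' - 1 / 2|) / 2 ≤ |m K - m K'| := by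
          rcases le_total (b K') (b K) with hle | hle
          · exact hgen K hK K' hK' hne hy1 hy2 hy1' hy2' hle
          · have := hgen K' hK' K hK (Ne.symm hne) hy1' hy2' hy1 hy2 hle
            rw [abs_sub_comm (m K') (m K)] at this
            linarith
        rw [Set.disjoint_left]
        intro x hx hx'
        have a1 : |x - m K| < (1 - |y - b K - 1 / 2|) / 2 := by
          rw [abs_lt]; constructor <;> linarith [hx.1, hx.2]
        have a2 : |x - m K'| < (1 - |y - b K' - 1 / 2|) / 2 := by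
          rw [abs_lt]; constructor <;> linarith [hx'.1, hx'.2]
        have a3 : |m K - m K'| ≤ |x - m K| + |x - m K'| := by
          have := abs_sub_le (m K) x (m K')
          rwa [abs_sub_comm (m K) x] at this
        linarith)
    have h3 : ∑ K ∈ S.filter (fun K => y ∈ Ico (b K) (b K + 1)), (1 - |y - b K - 1 / 2|) =
        ∑ K ∈ S.filter (fun K => y ∈ Ico (b K) (b K + 1)),
          ((m K + (1 - |y - b K - 1 / 2|) / 2) - (m K - (1 - |y - b K - 1 / 2|) / 2)) := by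
      apply Finset.sum_congr rfl
      intro K _
      ring
    rw [h3]
    linarith
  obtain ⟨y, hy, hyτ⟩ := exists_level S b M D hM0
    (fun K hK => ((hSmem K).1 hK).2) hch
  classical
  set A := S.filter (fun K => y - 1 / 2 < b K) with hA
  set B := S.filter (fun K => b K ≤ y - 1 / 2) with hB
  have hAm : ∀ K ∈ A, K ∈ 𝒯 ∧ y - 1 / 2 < b K := fun K hK => by
    rw [hA, Finset.mem_filter, hSmem] at hK; exact ⟨hK.1.1, hK.2⟩
  have hBm : ∀ K ∈ B, K ∈ 𝒯 ∧ b K ≤ y - 1 / 2 := fun K hK => by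
    rw [hB, Finset.mem_filter, hSmem] at hK; exact ⟨hK.1.1, hK.2⟩
  have hAB : ∀ K ∈ A, ∀ K' ∈ B, ∀ x, Tf (m K') (b K') x ≤ Vf (m K) (b K) x := by
    intro K hK K' hK' x
    obtain ⟨h1, h2⟩ := hAm K hK
    obtain ⟨h3, h4⟩ := hBm K' hK'
    apply key
    exact hsep K h1 K' h3 (by rintro rfl; linarith) (by linarith)
  set γ := gam A B m b y with hγ
  have hγl : ∀ s t, |γ s - γ t| ≤ 2 * |s - t| := gam_lip A B m b y
  have hγr : ∀ s, y - 1 / 2 ≤ γ s ∧ γ s ≤ y + 1 / 2 := fun s =>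
    ⟨gam_ge A B m b y (fun K hK => (hAm K hK).2.le) s, gam_le A B m b y (fun K hK => (hBm K hK).2) s⟩
  have hγc : Continuous γ := by
    have : LipschitzWith 2 γ := by
      apply LipschitzWith.of_dist_le_mul
      intro s t
      rw [Real.dist_eq, Real.dist_eq]
      exact hγl s t
    exact this.continuous
  -- the crossing
  set c : ℝ → E := fun x => x • e + γ x • h with hc
  have hcc : Continuous c := by
    simp only [hc]
    fun_prop
  have hcL : ∀ x, ⟪n, c x⟫ = α * x + β * γ x := by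
    intro x
    simp only [hc]
    rw [inner_add_right, real_inner_smul_right, real_inner_smul_right]
    ring
  have hβγ : ∀ x, |β * γ x| ≤ |β| * (|y| + 1) := by
    intro x
    rw [abs_mul]
    apply mul_le_mul_of_nonneg_left _ (abs_nonneg _)
    obtain ⟨h1, h2⟩ := hγr x
    have h3 := neg_abs_le y
    have h4 := le_abs_self y
    rw [abs_le]; constructor <;> linarith
  obtain ⟨x0, x1, h01, hx0, hx1⟩ : ∃ x0 x1 : ℝ, x0 ≤ x1 ∧ ⟪n, c x0⟫ = a ∧ ⟪n, c x1⟫ = a + d := by
    set Q := (|a| + d + |β| * (|y| + 1)) / α with hQ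
    have hQα : α * Q = |a| + d + |β| * (|y| + 1) := by rw [hQ]; field_simp
    have hL1 : ⟪n, c (-Q)⟫ ≤ a := by
      rw [hcL]
      have := abs_le.1 (hβγ (-Q))
      have := neg_abs_le a
      rw [mul_neg, hQα]
      linarith
    have hL2 : a + d ≤ ⟪n, c Q⟫ := by
      rw [hcL]
      have := abs_le.1 (hβγ Q)
      have := le_abs_self a
      rw [hQα]
      linarith
    have hQ0 : 0 ≤ Q := by
      rw [hQ]; positivity
    have hLc : Continuous (fun x => ⟪n, c x⟫) := by fun_prop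
    obtain ⟨x0, hx0, hx0a⟩ := intermediate_value_Icc (by linarith : -Q ≤ Q) hLc.continuousOn
      (show a ∈ Icc (⟪n, c (-Q)⟫) (⟪n, c Q⟫) from ⟨hL1, by linarith⟩)
    simp only at hx0a
    obtain ⟨x1, hx1, hx1a⟩ := intermediate_value_Icc hx0.2 hLc.continuousOn
      (show a + d ∈ Icc (⟪n, c x0⟫) (⟪n, c Q⟫) from ⟨by rw [hx0a]; linarith, hL2⟩)
    exact ⟨x0, x1, hx1.1, hx0a, hx1a⟩
  have hlen : x1 - x0 ≤ (d + |β|) / α := by
    rw [le_div_iff₀ hα]
    rw [hcL] at hx0 hx1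
    have h1 : |β * (γ x1 - γ x0)| ≤ |β| := by
      rw [abs_mul]
      have h2 := hγr x1
      have h3 := hγr x0
      have : |γ x1 - γ x0| ≤ 1 := by rw [abs_le]; constructor <;> linarith
      calc |β| * |γ x1 - γ x0| ≤ |β| * 1 := mul_le_mul_of_nonneg_left this (abs_nonneg _)
        _ = |β| := mul_one _
    have h2 := abs_le.1 h1
    have e1 : (x1 - x0) * α = (α * x1 + β * γ x1) - (α * x0 + β * γ x0) - β * (γ x1 - γ x0) := by
      ring
    rw [e1, hx0, hx1]
    linarith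
  -- avoidance
  have havoid : ∀ x, ∀ K ∈ 𝒯, c x ∉ interior K := by
    intro x K hK hint
    rw [hz K hK] at hint
    obtain ⟨h1, h2⟩ := tri_int e f X Y hXY huniq (z K) (c x) hint
    obtain ⟨h3, h4⟩ := huniq (c x) x (γ x) rfl
    rw [← h4] at h1 h2
    rw [← h3] at h2
    change 0 < γ x - b K at h1
    change |x - m K| < (1 - (γ x - b K)) / 2 at h2
    have h5 := abs_nonneg (x - m K)
    obtain ⟨h6, h7⟩ := hγr x
    obtain ⟨hy1, hy2⟩ := hy
    have hKS : K ∈ S := (hSmem K).2 ⟨hK, by linarith, by linarith⟩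
    rcases lt_or_ge (y - 1 / 2) (b K) with h8 | h8
    · have hKA : K ∈ A := by rw [hA, Finset.mem_filter]; exact ⟨hKS, h8⟩
      have h9 := gam_le_V A B m b y hAB x K hKA
      unfold Vf at h9
      rw [max_eq_left (by linarith)] at h9
      linarith
    · have hKB : K ∈ B := by rw [hB, Finset.mem_filter]; exact ⟨hKS, h8⟩
      have h9 := gam_ge_T A B m b y x K hKB
      unfold Tf at h9
      rw [← hγ] at h9
      linarith
  -- the curve
  set g : ℝ → E := fun t => c (x0 + t * (x1 - x0)) with hg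
  have hcross : IsCrossing 𝒯 n a d g := by
    constructor
    · exact (hcc.comp (by fun_prop)).continuousOn
    · simp only [hg]; rw [zero_mul, add_zero]; exact hx0
    · simp only [hg]; rw [one_mul, add_sub_cancel]; exact hx1
    · intro t _ K hK
      exact havoid _ K hK
  have hvar : eVariationOn g (Icc 0 1) ≤ eVariationOn c (Icc x0 x1) := by
    have hmono : MonotoneOn (fun t : ℝ => x0 + t * (x1 - x0)) (Icc 0 1) := by
      intro s _ t _ hst
      simp only
      have := mul_le_mul_of_nonneg_right hst (show 0 ≤ x1 - x0 by linarith)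
      linarith
    refine eVariationOn.comp_le_of_monotoneOn c (fun t : ℝ => x0 + t * (x1 - x0)) hmono ?_
    intro t ht
    have h1 := mul_nonneg ht.1 (show 0 ≤ x1 - x0 by linarith)
    have h2 := mul_le_mul_of_nonneg_right ht.2 (show 0 ≤ x1 - x0 by linarith)
    simp only [mem_Icc]
    constructor <;> linarith
  have hcl : crossLen 𝒯 n a d ≤ eVariationOn g (Icc 0 1) := iInf₂_le g hcross
  refine hcl.trans (hvar.trans ?_)
  have hT2 : ∀ (u : ℕ → ℝ), Monotone u → ∀ k, ∑ i ∈ Finset.range k, |γ (u (i + 1)) - γ (u i)| ≤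
      2 * (D / 3 + 4 / 3) := by
    intro u hu k
    refine (gam_sum A B m b y hAB (fun K hK => (hAm K hK).2.le) (fun K hK => (hBm K hK).2)
      u hu k).trans ?_
    have h1 : ∑ K ∈ A, tau (y - b K) + ∑ K ∈ B, tau (y - b K) = ∑ K ∈ S, tau (y - b K) := by
      have h2 := Finset.sum_filter_add_sum_filter_not S (fun K => y - 1 / 2 < b K)
        (fun K => tau (y - b K))
      simp only [not_lt] at h2
      exact h2
    rw [h1]
    have h3 : (M + 4) * D / (3 * M) = D / 3 + 1 / 3 := by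
      rw [hM]; field_simp
    rw [h3] at hyτ
    linarith
  refine (curve_var e f γ x0 x1 (y - 1 / 2) (2 * (D / 3 + 4 / 3)) hγl
    (fun s => ⟨(hγr s).1, by linarith [(hγr s).2]⟩) hT2).trans ?_
  apply ENNReal.ofReal_le_ofReal
  have htri : 0 ≤ ‖f‖ + ‖f - e‖ - ‖e‖ := by
    have : ‖e‖ ≤ ‖f‖ + ‖f - e‖ := by
      calc ‖e‖ = ‖f - (f - e)‖ := by congr 1; abel
        _ ≤ _ := norm_sub_le _ _
    linarith
  have h1 : ‖e‖ * (x1 - x0) ≤ ‖e‖ * ((d + |β|) / α) :=
    mul_le_mul_of_nonneg_left hlen (norm_nonneg _)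
  have h2 : ‖e‖ * ((d + |β|) / α) + (‖f‖ + ‖f - e‖ - ‖e‖) / 2 * (2 * (D / 3 + 4 / 3)) +
      (‖f‖ + ‖f - e‖) = (2 * ‖e‖ + ‖f‖ + ‖f - e‖) / (3 * α) * d +
      (‖e‖ * |β| / α + (‖f‖ + ‖f - e‖ - ‖e‖) * (2 * |β| / (3 * α) + 4 / 3) +
        (‖f‖ + ‖f - e‖)) := by
    rw [hD]; field_simp; ring
  linarith

end Pool.Agent.LFT.TriUp

namespace Pool.Agent.LFT

open MeasureTheory Set
open scoped RealInnerProductSpace ENNReal

theorem triUp_proof : Stmt_TriUp := by
  intro e f n hef hn hne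
  rcases lt_or_gt_of_ne hne with h | h
  · have hef' : LinearIndependent ℝ ![-e, f - e] := by
      rw [LinearIndependent.pair_iff] at hef ⊢
      intro s t hst
      have h := hef (-s - t) t (by rw [← hst]; module)
      exact ⟨by linarith [h.1, h.2], h.2⟩
    obtain ⟨κ, hκ⟩ := TriUp.up_pos (-e) (f - e) n hef' hn (by rw [inner_neg_right]; linarith)
    refine ⟨κ, ?_⟩
    intro 𝒯 a d hL hT
    have h1 := hκ 𝒯 a d hL (by
      intro K hK
      obtain ⟨z, rfl⟩ := TriUp.tri_of_translate e f K (hT K hK)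
      have h2 : Tri z e f = Tri (z + e) (-e) (f - e) := by
        ext p
        constructor
        · rintro ⟨s, t, hs, ht, hst, rfl⟩
          exact ⟨1 - s - t, t, by linarith, ht, by linarith, by module⟩
        · rintro ⟨s, t, hs, ht, hst, rfl⟩
          exact ⟨1 - s - t, t, by linarith, ht, by linarith, by module⟩
      rw [h2]
      exact TriUp.translate_of_tri _ _ _)
    rw [norm_neg, inner_neg_right, abs_neg, show f - e - -e = f by abel] at h1
    rw [show 2 * ‖e‖ + ‖f‖ + ‖f - e‖ = 2 * ‖e‖ + ‖f - e‖ + ‖f‖ by ring]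
    exact h1
  · exact TriUp.up_pos e f n hef hn h

end Pool.Agent.LFT
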