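import Pool.Agent.LFT.TriGraph
import Pool.Agent.LFT.TriUp
import Pool.Agent.LFT.Tile

/-!
# Triangles without property (S) (MP_9c589f_co): module TILE
-/

namespace Pool.Agent.LFT.TriTile

open MeasureTheory Set Filter Topology
open scoped RealInnerProductSpace ENNReal

theorem tri_convex (z e f : E) : Convex ℝ (Tri z e f) := by
  rintro _ ⟨s, t, hs, ht, hst, rfl⟩ _ ⟨s', t', hs', ht', hst', rfl⟩ a b ha hb hab
  refine ⟨a * s + b * s', a * t + b * t', by positivity, by positivity, ?_, ?_⟩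
  · nlinarith
  · have hb' : b = 1 - a := by linarith
    rw [hb']
    module

theorem tri_compact (z e f : E) : IsCompact (Tri z e f) := by
  have hK : IsCompact ({q : ℝ × ℝ | 0 ≤ q.1 ∧ 0 ≤ q.2 ∧ q.1 + q.2 ≤ 1}) := by
    apply (isCompact_Icc (a := ((0 : ℝ), (0 : ℝ))) (b := ((1 : ℝ), (1 : ℝ)))).of_isClosed_subset
    · have c1 : IsClosed {q : ℝ × ℝ | 0 ≤ q.1} := isClosed_le continuous_const continuous_fst
      have c2 : IsClosed {q : ℝ × ℝ | 0 ≤ q.2} := isClosed_le continuous_const continuous_snd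
      have c3 : IsClosed {q : ℝ × ℝ | q.1 + q.2 ≤ 1} :=
        isClosed_le (continuous_fst.add continuous_snd) continuous_const
      exact c1.inter (c2.inter c3)
    · rintro ⟨s, t⟩ ⟨h1, h2, h3⟩
      simp only at h1 h2 h3
      rw [mem_Icc, Prod.mk_le_mk, Prod.mk_le_mk]
      refine ⟨⟨h1, h2⟩, ?_, ?_⟩ <;> linarith
  have : Tri z e f = (fun q : ℝ × ℝ => z + q.1 • e + q.2 • f) ''
      {q : ℝ × ℝ | 0 ≤ q.1 ∧ 0 ≤ q.2 ∧ q.1 + q.2 ≤ 1} := by
    ext p
    constructor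
    · rintro ⟨s, t, hs, ht, hst, rfl⟩
      exact ⟨(s, t), ⟨hs, ht, hst⟩, rfl⟩
    · rintro ⟨⟨s, t⟩, ⟨hs, ht, hst⟩, rfl⟩
      exact ⟨s, t, hs, ht, hst, rfl⟩
  rw [this]
  exact hK.image (by fun_prop)

theorem tri_diam (z e f p q : E) (hp : p ∈ Tri z e f) (hq : q ∈ Tri z e f) :
    ‖p - q‖ ≤ ‖e‖ + ‖f‖ := by
  obtain ⟨s, t, hs, ht, hst, rfl⟩ := hp
  obtain ⟨s', t', hs', ht', hst', rfl⟩ := hq
  have e1 : z + s • e + t • f - (z + s' • e + t' • f) = (s - s') • e + (t - t') • f := by module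
  rw [e1]
  have h1 : |s - s'| ≤ 1 := by rw [abs_le]; constructor <;> linarith
  have h2 : |t - t'| ≤ 1 := by rw [abs_le]; constructor <;> linarith
  calc ‖(s - s') • e + (t - t') • f‖ ≤ ‖(s - s') • e‖ + ‖(t - t') • f‖ := norm_add_le _ _
    _ = |s - s'| * ‖e‖ + |t - t'| * ‖f‖ := by
        rw [norm_smul, norm_smul, Real.norm_eq_abs, Real.norm_eq_abs]
    _ ≤ 1 * ‖e‖ + 1 * ‖f‖ :=
        add_le_add (mul_le_mul_of_nonneg_right h1 (norm_nonneg _))
          (mul_le_mul_of_nonneg_right h2 (norm_nonneg _))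
    _ = _ := by ring

theorem similar_up (z e f : E) : IsSimilar (Tri 0 e f) (Tri z e f) := by
  refine ⟨1, LinearIsometryEquiv.refl ℝ E, z, one_pos, ?_⟩
  ext p
  constructor
  · rintro ⟨s, t, hs, ht, hst, rfl⟩
    exact ⟨0 + s • e + t • f, ⟨s, t, hs, ht, hst, rfl⟩, by
      simp only [LinearIsometryEquiv.coe_refl, id]; module⟩
  · rintro ⟨_, ⟨s, t, hs, ht, hst, rfl⟩, rfl⟩
    exact ⟨s, t, hs, ht, hst, by simp only [LinearIsometryEquiv.coe_refl, id]; module⟩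

theorem similar_down (z e f : E) : IsSimilar (Tri 0 e f) (Tri z (-e) (-f)) := by
  refine ⟨1, LinearIsometryEquiv.neg ℝ, z, one_pos, ?_⟩
  ext p
  constructor
  · rintro ⟨s, t, hs, ht, hst, rfl⟩
    exact ⟨0 + s • e + t • f, ⟨s, t, hs, ht, hst, rfl⟩, by
      simp only [LinearIsometryEquiv.coe_neg]; module⟩
  · rintro ⟨_, ⟨s, t, hs, ht, hst, rfl⟩, rfl⟩
    exact ⟨s, t, hs, ht, hst, by simp only [LinearIsometryEquiv.coe_neg]; module⟩

section
variable (e f : E) (X Y : E → ℝ) (hX : Continuous X) (hY : Continuous Y)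
  (hXY : ∀ p, p = X p • e + Y p • f)
  (huniq : ∀ p x y, p = x • e + y • f → x = X p ∧ y = Y p)

include hXY huniq in
theorem tri_mem (z p : E) : p ∈ Tri z e f ↔
    0 ≤ X p - X z ∧ 0 ≤ Y p - Y z ∧ (X p - X z) + (Y p - Y z) ≤ 1 := by
  constructor
  · rintro ⟨s, t, hs, ht, hst, hp⟩
    have hz := hXY z
    have hp' : p = (X z + s) • e + (Y z + t) • f := by
      rw [hp]
      conv_lhs => rw [hz]
      module
    obtain ⟨h1, h2⟩ := huniq _ _ _ hp'
    rw [← h1, ← h2]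
    refine ⟨by linarith, by linarith, by linarith⟩
  · rintro ⟨h1, h2, h3⟩
    refine ⟨X p - X z, Y p - Y z, h1, h2, h3, ?_⟩
    have hp := hXY p
    have hz := hXY z
    have h4 : z + (X p - X z) • e + (Y p - Y z) • f =
        X p • e + Y p • f + (z - (X z • e + Y z • f)) := by module
    rw [h4, ← hz, ← hp]
    simp

include hX hY hXY huniq in
theorem tri_int (z p : E) : p ∈ interior (Tri z e f) ↔
    0 < X p - X z ∧ 0 < Y p - Y z ∧ (X p - X z) + (Y p - Y z) < 1 := by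
  constructor
  · intro hp
    have hsh : ∀ (s t : ℝ), X (p + s • e + t • f) = X p + s ∧
        Y (p + s • e + t • f) = Y p + t := by
      intro s t
      have hp := hXY p
      have : p + s • e + t • f = (X p + s) • e + (Y p + t) • f := by
        conv_lhs => rw [hp]
        module
      obtain ⟨h1, h2⟩ := huniq _ _ _ this
      exact ⟨h1.symm, h2.symm⟩
    obtain ⟨s1, hs1, h1⟩ := TriUp.int_dir _ p (-e) hp
    obtain ⟨s2, hs2, h2⟩ := TriUp.int_dir _ p (-f) hp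
    obtain ⟨s3, hs3, h3⟩ := TriUp.int_dir _ p e hp
    have e1 : p + s1 • (-e) = p + (-s1) • e + (0 : ℝ) • f := by module
    have e2 : p + s2 • (-f) = p + (0 : ℝ) • e + (-s2) • f := by module
    have e3 : p + s3 • e = p + s3 • e + (0 : ℝ) • f := by module
    rw [e1, tri_mem e f X Y hXY huniq, (hsh _ _).1, (hsh _ _).2] at h1
    rw [e2, tri_mem e f X Y hXY huniq, (hsh _ _).1, (hsh _ _).2] at h2
    rw [e3, tri_mem e f X Y hXY huniq, (hsh _ _).1, (hsh _ _).2] at h3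
    refine ⟨by linarith [h1.1], by linarith [h2.2.1], by linarith [h3.2.2]⟩
  · intro h
    have hopen : IsOpen {q : E | 0 < X q - X z ∧ 0 < Y q - Y z ∧
        (X q - X z) + (Y q - Y z) < 1} := by
      have o1 : IsOpen {q : E | 0 < X q - X z} :=
        isOpen_lt continuous_const (hX.sub continuous_const)
      have o2 : IsOpen {q : E | 0 < Y q - Y z} :=
        isOpen_lt continuous_const (hY.sub continuous_const)
      have o3 : IsOpen {q : E | (X q - X z) + (Y q - Y z) < 1} :=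
        isOpen_lt ((hX.sub continuous_const).add (hY.sub continuous_const)) continuous_const
      exact o1.inter (o2.inter o3)
    have hsub : {q : E | 0 < X q - X z ∧ 0 < Y q - Y z ∧
        (X q - X z) + (Y q - Y z) < 1} ⊆ Tri z e f := by
      intro q hq
      rw [tri_mem e f X Y hXY huniq]
      exact ⟨hq.1.le, hq.2.1.le, hq.2.2.le⟩
    exact interior_maximal hsub hopen h

/-- the corner of the tile `i`, `j`. -/
def cor (e f : E) (δ : ℝ) (i j : ℤ) : E := ((i : ℝ) + j * δ) • e + (j : ℝ) • f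

/-- the tiles. -/
def up (e f : E) (δ : ℝ) (i j : ℤ) : Set E := Tri (cor e f δ i j) e f
def dn (e f : E) (δ : ℝ) (i j : ℤ) : Set E := Tri (cor e f δ i j + e + f) (-e) (-f)

include hXY huniq in
theorem cor_coord (δ : ℝ) (i j : ℤ) :
    X (cor e f δ i j) = i + j * δ ∧ Y (cor e f δ i j) = j ∧
    X (cor e f δ i j + e + f) = i + j * δ + 1 ∧ Y (cor e f δ i j + e + f) = j + 1 := by
  obtain ⟨h1, h2⟩ := huniq (cor e f δ i j) _ _ rfl
  have e1 : cor e f δ i j + e + f = ((i : ℝ) + j * δ + 1) • e + ((j : ℝ) + 1) • f := by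
    unfold cor; module
  obtain ⟨h3, h4⟩ := huniq _ _ _ e1
  exact ⟨h1.symm, h2.symm, h3.symm, h4.symm⟩

include hX hY hXY huniq in
theorem up_mem (δ : ℝ) (i j : ℤ) (p : E) :
    (p ∈ up e f δ i j ↔ (i : ℝ) + j * δ ≤ X p ∧ (j : ℝ) ≤ Y p ∧
      (X p - (i + j * δ)) + (Y p - j) ≤ 1) ∧
    (p ∈ interior (up e f δ i j) ↔ (i : ℝ) + j * δ < X p ∧ (j : ℝ) < Y p ∧
      (X p - (i + j * δ)) + (Y p - j) < 1) := by
  obtain ⟨h1, h2, -, -⟩ := cor_coord e f X Y hXY huniq δ i j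
  unfold up
  rw [tri_mem e f X Y hXY huniq, tri_int e f X Y hX hY hXY huniq, h1, h2]
  constructor
  · constructor
    · rintro ⟨a1, a2, a3⟩; exact ⟨by linarith, by linarith, a3⟩
    · rintro ⟨a1, a2, a3⟩; exact ⟨by linarith, by linarith, a3⟩
  · constructor
    · rintro ⟨a1, a2, a3⟩; exact ⟨by linarith, by linarith, a3⟩
    · rintro ⟨a1, a2, a3⟩; exact ⟨by linarith, by linarith, a3⟩

include hX hY hXY huniq in
theorem dn_mem (δ : ℝ) (i j : ℤ) (p : E) :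
    (p ∈ dn e f δ i j ↔ X p ≤ (i : ℝ) + j * δ + 1 ∧ Y p ≤ (j : ℝ) + 1 ∧
      1 ≤ (X p - (i + j * δ)) + (Y p - j)) ∧
    (p ∈ interior (dn e f δ i j) ↔ X p < (i : ℝ) + j * δ + 1 ∧ Y p < (j : ℝ) + 1 ∧
      1 < (X p - (i + j * δ)) + (Y p - j)) := by
  have hXY' : ∀ p, p = (-X p) • (-e) + (-Y p) • (-f) := by
    intro p
    conv_lhs => rw [hXY p]
    module
  have huniq' : ∀ p x y, p = x • (-e) + y • (-f) → x = -X p ∧ y = -Y p := by
    intro p x y hp
    have : p = (-x) • e + (-y) • f := by rw [hp]; module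
    obtain ⟨h1, h2⟩ := huniq _ _ _ this
    exact ⟨by linarith, by linarith⟩
  obtain ⟨-, -, h1, h2⟩ := cor_coord e f X Y hXY huniq δ i j
  unfold dn
  rw [tri_mem (-e) (-f) (fun p => -X p) (fun p => -Y p) hXY' huniq',
    tri_int (-e) (-f) (fun p => -X p) (fun p => -Y p) hX.neg hY.neg hXY' huniq']
  simp only [h1, h2]
  constructor
  · constructor
    · rintro ⟨a1, a2, a3⟩; exact ⟨by linarith, by linarith, by linarith⟩
    · rintro ⟨a1, a2, a3⟩; exact ⟨by linarith, by linarith, by linarith⟩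
  · constructor
    · rintro ⟨a1, a2, a3⟩; exact ⟨by linarith, by linarith, by linarith⟩
    · rintro ⟨a1, a2, a3⟩; exact ⟨by linarith, by linarith, by linarith⟩

/-- all tiles. -/
def IsT (e f : E) (δ : ℝ) (K : Set E) : Prop :=
  ∃ i j : ℤ, K = up e f δ i j ∨ K = dn e f δ i j

include hX hY hXY huniq in
theorem box (δ : ℝ) (i j : ℤ) (K : Set E) (hK : K = up e f δ i j ∨ K = dn e f δ i j) (p : E) :
    (p ∈ K → ((i : ℝ) + j * δ ≤ X p ∧ X p ≤ i + j * δ + 1) ∧ ((j : ℝ) ≤ Y p ∧ Y p ≤ j + 1)) ∧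
    (p ∈ interior K → ((i : ℝ) + j * δ < X p ∧ X p < i + j * δ + 1) ∧
      ((j : ℝ) < Y p ∧ Y p < j + 1)) := by
  rcases hK with rfl | rfl
  · rw [(up_mem e f X Y hX hY hXY huniq δ i j p).1, (up_mem e f X Y hX hY hXY huniq δ i j p).2]
    constructor
    · rintro ⟨a1, a2, a3⟩; exact ⟨⟨by linarith, by linarith⟩, by linarith, by linarith⟩
    · rintro ⟨a1, a2, a3⟩; exact ⟨⟨by linarith, by linarith⟩, by linarith, by linarith⟩
  · rw [(dn_mem e f X Y hX hY hXY huniq δ i j p).1, (dn_mem e f X Y hX hY hXY huniq δ i j p).2]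
    constructor
    · rintro ⟨a1, a2, a3⟩; exact ⟨⟨by linarith, by linarith⟩, by linarith, by linarith⟩
    · rintro ⟨a1, a2, a3⟩; exact ⟨⟨by linarith, by linarith⟩, by linarith, by linarith⟩

include hX hY hXY huniq in
theorem tile_disjoint (δ : ℝ) (K K' : Set E) (hK : IsT e f δ K) (hK' : IsT e f δ K')
    (hne : K ≠ K') : Disjoint (interior K) (interior K') := by
  rw [Set.disjoint_left]
  intro p hp hp'
  obtain ⟨i, j, hij⟩ := hK
  obtain ⟨i', j', hij'⟩ := hK'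
  obtain ⟨b1, b2⟩ := (box e f X Y hX hY hXY huniq δ i j K hij p).2 hp
  obtain ⟨b1', b2'⟩ := (box e f X Y hX hY hXY huniq δ i' j' K' hij' p).2 hp'
  have h1 : (j : ℝ) < j' + 1 := by linarith [b2.1, b2'.2]
  have h2 : (j' : ℝ) < j + 1 := by linarith [b2.2, b2'.1]
  have h3 : j < j' + 1 := by exact_mod_cast h1
  have h4 : j' < j + 1 := by exact_mod_cast h2
  have hj : j = j' := by omega
  subst hj
  have h5 : (i : ℝ) < i' + 1 := by linarith [b1.1, b1'.2]
  have h6 : (i' : ℝ) < i + 1 := by linarith [b1.2, b1'.1]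
  have h7 : i < i' + 1 := by exact_mod_cast h5
  have h8 : i' < i + 1 := by exact_mod_cast h6
  have hi : i = i' := by omega
  subst hi
  rcases hij with rfl | rfl <;> rcases hij' with rfl | rfl
  · exact hne rfl
  · rw [(up_mem e f X Y hX hY hXY huniq δ i j p).2] at hp
    rw [(dn_mem e f X Y hX hY hXY huniq δ i j p).2] at hp'
    linarith [hp.2.2, hp'.2.2]
  · rw [(dn_mem e f X Y hX hY hXY huniq δ i j p).2] at hp
    rw [(up_mem e f X Y hX hY hXY huniq δ i j p).2] at hp'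
    linarith [hp.2.2, hp'.2.2]
  · exact hne rfl

include hX hY hXY huniq in
theorem tile_body (δ : ℝ) (K : Set E) (hK : IsT e f δ K) :
    IsCompact K ∧ Convex ℝ K ∧ (interior K).Nonempty := by
  obtain ⟨i, j, rfl | rfl⟩ := hK
  · refine ⟨tri_compact _ _ _, tri_convex _ _ _,
      ⟨((i : ℝ) + j * δ + 1 / 3) • e + ((j : ℝ) + 1 / 3) • f, ?_⟩⟩
    rw [(up_mem e f X Y hX hY hXY huniq δ i j _).2]
    obtain ⟨h1, h2⟩ := huniq _ _ _
      (rfl : ((i : ℝ) + j * δ + 1 / 3) • e + ((j : ℝ) + 1 / 3) • f = _)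
    rw [← h1, ← h2]
    refine ⟨by linarith, by linarith, by linarith⟩
  · refine ⟨tri_compact _ _ _, tri_convex _ _ _,
      ⟨((i : ℝ) + j * δ + 2 / 3) • e + ((j : ℝ) + 2 / 3) • f, ?_⟩⟩
    rw [(dn_mem e f X Y hX hY hXY huniq δ i j _).2]
    obtain ⟨h1, h2⟩ := huniq _ _ _
      (rfl : ((i : ℝ) + j * δ + 2 / 3) • e + ((j : ℝ) + 2 / 3) • f = _)
    rw [← h1, ← h2]
    refine ⟨by linarith, by linarith, by linarith⟩

include hX hY hXY huniq in
theorem tile_locFin (δ R : ℝ) :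
    {K : Set E | IsT e f δ K ∧ (K ∩ Metric.closedBall 0 R).Nonempty}.Finite := by
  have hc : IsCompact (Metric.closedBall (0 : E) R) := isCompact_closedBall 0 R
  obtain ⟨B1, hB1⟩ := hc.exists_bound_of_continuousOn hX.continuousOn
  obtain ⟨B2, hB2⟩ := hc.exists_bound_of_continuousOn hY.continuousOn
  set M : ℤ := ⌈|B2|⌉ + 1 with hM
  set N : ℤ := ⌈|B1| + M * |δ|⌉ + 1 with hN
  have hfin1 : ((fun z : ℤ × ℤ => up e f δ z.1 z.2) '' (Icc (-N) N ×ˢ Icc (-M) M)).Finite :=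
    ((finite_Icc _ _).prod (finite_Icc _ _)).image _
  have hfin2 : ((fun z : ℤ × ℤ => dn e f δ z.1 z.2) '' (Icc (-N) N ×ˢ Icc (-M) M)).Finite :=
    ((finite_Icc _ _).prod (finite_Icc _ _)).image _
  refine (hfin1.union hfin2).subset ?_
  rintro K ⟨⟨i, j, hK⟩, p, hp, hpR⟩
  have hmem : (i, j) ∈ (Icc (-N) N ×ˢ Icc (-M) M : Set (ℤ × ℤ)) := by
    obtain ⟨b1, b2⟩ := (box e f X Y hX hY hXY huniq δ i j K hK p).1 hp
    have hx := hB1 p hpR
    have hy := hB2 p hpR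
    rw [Real.norm_eq_abs, abs_le] at hx hy
    have hB2' : B2 ≤ |B2| := le_abs_self _
    have hB1' : B1 ≤ |B1| := le_abs_self _
    have hMr : |B2| + 1 ≤ M := by rw [hM]; push_cast; linarith [Int.le_ceil |B2|]
    have hNr : |B1| + M * |δ| + 1 ≤ N := by
      rw [hN]; push_cast; linarith [Int.le_ceil (|B1| + M * |δ|)]
    have hj1 : -(M : ℝ) ≤ j := by linarith [b2.2, hy.1]
    have hj2 : (j : ℝ) ≤ M := by linarith [b2.1, hy.2]
    refine ⟨?_, ?_⟩
    · have hjd : |(j : ℝ) * δ| ≤ M * |δ| := by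
        rw [abs_mul]
        exact mul_le_mul_of_nonneg_right (abs_le.2 ⟨hj1, hj2⟩) (abs_nonneg _)
      have hjd' := abs_le.1 hjd
      have h1 : -(N : ℝ) ≤ i := by linarith [b1.2, hx.1, hjd'.2]
      have h2 : (i : ℝ) ≤ N := by linarith [b1.1, hx.2, hjd'.1]
      exact ⟨by exact_mod_cast h1, by exact_mod_cast h2⟩
    · exact ⟨by exact_mod_cast hj1, by exact_mod_cast hj2⟩
  rcases hK with rfl | rfl
  · exact Or.inl ⟨(i, j), hmem, rfl⟩
  · exact Or.inr ⟨(i, j), hmem, rfl⟩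

include hX hY hXY huniq in
/-- a point off the graph is an interior point of a tile. -/
theorem exists_tile (δ x y : ℝ) (p : E) (hp : p = x • e + y • f)
    (hc1 : ∀ m : ℤ, y ≠ m) (hc2 : ∀ m : ℤ, x - ⌊y⌋ * δ ≠ m)
    (hc3 : ∀ m : ℤ, x - ⌊y⌋ * δ + (y - ⌊y⌋) ≠ m) :
    ∃ K, IsT e f δ K ∧ p ∈ interior K := by
  obtain ⟨hx, hy⟩ := huniq _ _ _ hp
  set j := ⌊y⌋ with hj
  set i := ⌊x - j * δ⌋ with hi
  have a1 : (j : ℝ) < y := lt_of_le_of_ne (Int.floor_le y) (fun h => hc1 j h.symm)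
  have a2 : y < j + 1 := Int.lt_floor_add_one y
  have a3 : (i : ℝ) < x - j * δ :=
    lt_of_le_of_ne (Int.floor_le _) (fun h => hc2 i h.symm)
  have a4 : x - j * δ < i + 1 := Int.lt_floor_add_one _
  have a5 : x - j * δ + (y - j) ≠ i + 1 := by
    have := hc3 (i + 1)
    push_cast at this
    exact this
  rcases lt_or_gt_of_ne a5 with h | h
  · refine ⟨up e f δ i j, ⟨i, j, Or.inl rfl⟩, ?_⟩
    rw [(up_mem e f X Y hX hY hXY huniq δ i j p).2, ← hx, ← hy]
    exact ⟨by linarith, a1, by linarith⟩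
  · refine ⟨dn e f δ i j, ⟨i, j, Or.inr rfl⟩, ?_⟩
    rw [(dn_mem e f X Y hX hY hXY huniq δ i j p).2, ← hx, ← hy]
    exact ⟨by linarith, a2, by linarith⟩

end

theorem tile_diam (e f : E) (δ : ℝ) (K : Set E) (hK : IsT e f δ K) (p q : E) (hp : p ∈ K)
    (hq : q ∈ K) : ‖p - q‖ ≤ ‖e‖ + ‖f‖ := by
  obtain ⟨i, j, rfl | rfl⟩ := hK
  · exact tri_diam _ _ _ p q hp hq
  · have := tri_diam _ _ _ p q hp hq
    rwa [norm_neg, norm_neg] at this

end Pool.Agent.LFT.TriTile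

namespace Pool.Agent.LFT

open MeasureTheory Set Filter Topology
open scoped RealInnerProductSpace ENNReal

theorem triTile_proof : Stmt_TriTile := by
  intro e f w τ ρ hef hτ hfe hwe hwf hw0 hρ
  obtain ⟨κ, hκ⟩ := triGraph_proof e f w τ hef hτ hfe hwe hwf
  obtain ⟨X, Y, hX, hY, hXY, huniq⟩ := Graph.exists_coord e f hef
  set δ := (1 + τ) / 2 with hδ
  set D := ‖e‖ + ‖f‖ with hD
  have hD0 : 0 ≤ D := by positivity
  set n : E := (‖w‖)⁻¹ • w with hn
  have hwn : ‖w‖ ≠ 0 := norm_ne_zero_iff.2 hw0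
  have hwpos : 0 < ‖w‖ := norm_pos_iff.2 hw0
  have hn1 : ‖n‖ = 1 := by
    rw [hn, norm_smul, norm_inv, norm_norm, inv_mul_cancel₀ hwn]
  have hwv : ∀ v : E, ⟪w, v⟫ = ‖w‖ * ⟪n, v⟫ := by
    intro v
    rw [hn, real_inner_smul_left, ← mul_assoc, mul_inv_cancel₀ hwn, one_mul]
  obtain ⟨d, hd1, hd2⟩ : ∃ d : ℝ, 2 * D + 1 ≤ d ∧ ρ * d ≤ ‖w‖ * (d - 2 * D) - κ := by
    have hpos : 0 < ‖w‖ - ρ := by linarith
    refine ⟨max (2 * D + 1) ((κ + 2 * D * ‖w‖) / (‖w‖ - ρ)), le_max_left _ _, ?_⟩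
    have h := le_max_right (2 * D + 1) ((κ + 2 * D * ‖w‖) / (‖w‖ - ρ))
    set d := max (2 * D + 1) ((κ + 2 * D * ‖w‖) / (‖w‖ - ρ)) with hd
    rw [div_le_iff₀ hpos] at h
    nlinarith
  set 𝒯 : Set (Set E) := {K | TriTile.IsT e f δ K ∧
    ∀ p ∈ K, 0 ≤ ⟪n, p⟫ ∧ ⟪n, p⟫ ≤ 0 + d} with h𝒯
  refine ⟨𝒯, n, d, ?_, ?_, ?_⟩
  · constructor
    · exact hn1
    · linarith
    · rintro K ⟨hK, _⟩
      exact TriTile.tile_body e f X Y hX hY hXY huniq δ K hK
    · rintro K ⟨hK, _⟩ K' ⟨hK', _⟩ hne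
      exact TriTile.tile_disjoint e f X Y hX hY hXY huniq δ K K' hK hK' hne
    · rintro K ⟨_, hK⟩ p hp
      exact hK p hp
    · intro R
      refine (TriTile.tile_locFin e f X Y hX hY hXY huniq δ R).subset ?_
      rintro K ⟨⟨hK, _⟩, hne⟩
      exact ⟨hK, hne⟩
  · rintro K ⟨⟨i, j, rfl | rfl⟩, _⟩
    · exact TriTile.similar_up _ _ _
    · exact TriTile.similar_down _ _ _
  · unfold crossLen
    refine le_iInf₂ ?_
    intro γ hγ
    have hg : ContinuousOn (fun t => ⟪n, γ t⟫) (Icc 0 1) := continuousOn_const.inner hγ.cont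
    obtain ⟨t1, t2, h01, h12, h21, hg1, hg2, hbt⟩ := Tile.exists_piece (fun t => ⟪n, γ t⟫) hg
      D (d - D) (by change ⟪n, γ 0⟫ ≤ D; rw [hγ.start]; exact hD0)
      (by change d - D ≤ ⟪n, γ 1⟫; rw [hγ.stop]; linarith) (by linarith)
    have hsub : Icc t1 t2 ⊆ Icc 0 1 := Icc_subset_Icc h01 h21
    have hgr : ∀ t ∈ Icc t1 t2, ∀ x y : ℝ, γ t = x • e + y • f →
        (∃ m : ℤ, y = m) ∨ (∃ m : ℤ, x - ⌊y⌋ * ((1 + τ) / 2) = m) ∨
          (∃ m : ℤ, x - ⌊y⌋ * ((1 + τ) / 2) + (y - ⌊y⌋) = m) := by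
      intro t ht x y hxy
      by_contra hcon
      push Not at hcon
      obtain ⟨hc1, hc2, hc3⟩ := hcon
      obtain ⟨K, hK, hint⟩ := TriTile.exists_tile e f X Y hX hY hXY huniq δ x y (γ t) hxy
        hc1 hc2 hc3
      refine hγ.avoid t (hsub ht) K ⟨hK, ?_⟩ hint
      intro p hp
      have hdm := TriTile.tile_diam e f δ K hK p (γ t) hp (interior_subset hint)
      have habs : |⟪n, p - γ t⟫| ≤ D := by
        calc |⟪n, p - γ t⟫| ≤ ‖n‖ * ‖p - γ t‖ := abs_real_inner_le_norm _ _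
          _ = ‖p - γ t‖ := by rw [hn1, one_mul]
          _ ≤ D := hdm
      rw [inner_sub_right, abs_le] at habs
      have hb := hbt t ht
      constructor <;> linarith [hb.1, hb.2, habs.1, habs.2]
    have hlen := hκ γ t1 t2 h12 (hγ.cont.mono hsub) hgr
    calc ENNReal.ofReal (ρ * d) ≤ ENNReal.ofReal (⟪w, γ t2 - γ t1⟫ - κ) := by
          apply ENNReal.ofReal_le_ofReal
          rw [hwv, inner_sub_right]
          rw [hg1, hg2]
          have : d - D - D = d - 2 * D := by ring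
          rw [this]
          exact hd2
      _ ≤ eVariationOn γ (Icc t1 t2) := hlen
      _ ≤ eVariationOn γ (Icc 0 1) := eVariationOn.mono γ hsub

end Pool.Agent.LFT
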