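import Pool.Agent.LFT.TriNear
import Pool.Agent.LFT.TriStack
import Pool.Agent.LFT.TriTile

/-!
# Triangles without property (S) (MP_9c589f_co): assembly
-/

namespace Pool.Agent.LFT.TriFinal

open MeasureTheory Set
open scoped RealInnerProductSpace ENNReal

/-- if layers of translates are crossed by shorter curves than some layer of similar copies, then
property (S) fails. -/
theorem not_S_of (C : Set E) (ρ ρ' : ℝ) (hρ : 0 < ρ) (hρρ : ρ < ρ')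
    (hub : ∀ (𝒯 : Set (Set E)) (n : E) (a d : ℝ), IsLayer 𝒯 n a d →
      (∀ K ∈ 𝒯, IsTranslate C K) → crossLen 𝒯 n a d ≤ ENNReal.ofReal (ρ * d))
    (hlb : ∃ (𝒞 : Set (Set E)) (n : E) (a d : ℝ), IsLayer 𝒞 n a d ∧
      (∀ K ∈ 𝒞, IsSimilar C K) ∧ ENNReal.ofReal (ρ' * d) ≤ crossLen 𝒞 n a d) :
    ¬ PropertyS C := by
  intro hS
  obtain ⟨𝒞, n, a, d, hL, hsim, hlen⟩ := hlb
  obtain ⟨𝒯, n', a', d', hL', htr, hperm⟩ := hS 𝒞 n a d hL hsim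
  have hd := hL.pos
  have hd' := hL'.pos
  have hup := hub 𝒯 n' a' d' hL' htr
  have hρ' : 0 < ρ' := hρ.trans hρρ
  unfold permeability at hperm
  have h1 : ENNReal.ofReal d' / ENNReal.ofReal (ρ * d') ≤ ENNReal.ofReal d' / crossLen 𝒯 n' a' d' :=
    ENNReal.div_le_div_left hup _
  have h2 : ENNReal.ofReal d / crossLen 𝒞 n a d ≤ ENNReal.ofReal d / ENNReal.ofReal (ρ' * d) :=
    ENNReal.div_le_div_left hlen _
  have h3 := (h1.trans hperm).trans h2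
  rw [← ENNReal.ofReal_div_of_pos (by positivity), ← ENNReal.ofReal_div_of_pos (by positivity),
    ENNReal.ofReal_le_ofReal_iff (by positivity)] at h3
  rw [div_le_div_iff₀ (by positivity) (by positivity)] at h3
  have h4 : d' * (ρ' * d) - d * (ρ * d') = (ρ' - ρ) * (d * d') := by ring
  have h5 : 0 < (ρ' - ρ) * (d * d') := by
    have := mul_pos hd hd'
    have h6 : 0 < ρ' - ρ := by linarith
    positivity
  linarith

theorem tri_swap (z e f : E) : Tri z e f = Tri z f e := by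
  ext p
  constructor
  · rintro ⟨s, t, hs, ht, hst, rfl⟩
    exact ⟨t, s, ht, hs, by linarith, by module⟩
  · rintro ⟨s, t, hs, ht, hst, rfl⟩
    exact ⟨t, s, ht, hs, by linarith, by module⟩

theorem tri_rot (z e f : E) : Tri z e f = Tri (z + e) (f - e) (-e) := by
  ext p
  constructor
  · rintro ⟨s, t, hs, ht, hst, rfl⟩
    exact ⟨t, 1 - s - t, ht, by linarith, by linarith, by module⟩
  · rintro ⟨s, t, hs, ht, hst, rfl⟩
    exact ⟨1 - s - t, s, by linarith, hs, by linarith, by module⟩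

/-- crossing in the direction of one edge, without error term. -/
theorem edge_bound (e f n : E) (hef : LinearIndependent ℝ ![e, f]) (hn : ‖n‖ = 1) (ρ : ℝ)
    (hρ : 2 * ‖e‖ + ‖f‖ + ‖f - e‖ < 3 * ρ * |⟪n, e⟫|)
    (𝒯 : Set (Set E)) (a d : ℝ) (hL : IsLayer 𝒯 n a d)
    (hT : ∀ K ∈ 𝒯, IsTranslate (Tri 0 e f) K) :
    crossLen 𝒯 n a d ≤ ENNReal.ofReal (ρ * d) := by
  have hne : ⟪n, e⟫ ≠ 0 := by
    intro h
    rw [h, abs_zero, mul_zero] at hρ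
    have h1 := norm_nonneg e
    have h2 := norm_nonneg f
    have h3 := norm_nonneg (f - e)
    linarith
  have hpos : 0 < |⟪n, e⟫| := abs_pos.2 hne
  obtain ⟨κ, hκ⟩ := triUp_proof e f n hef hn hne
  have h1 := stack_proof (Tri 0 e f) n _ κ (by positivity) hκ 𝒯 a d hL hT
  refine h1.trans (ENNReal.ofReal_le_ofReal ?_)
  apply mul_le_mul_of_nonneg_right _ hL.pos.le
  rw [div_le_iff₀ (by positivity)]
  linarith

/-- the bound for all layers of translates. -/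
theorem upper (e f : E) (ρ : ℝ) (hef : LinearIndependent ℝ ![e, f]) (hρ : 0 < ρ)
    (h1 : FF ‖e‖ ‖f‖ ‖f - e‖ < 9 * ρ ^ 2 * (‖e‖ ^ 2 * ‖f‖ ^ 2 - ⟪e, f⟫ ^ 2))
    (h2 : FF ‖f‖ ‖e‖ ‖f - e‖ < 9 * ρ ^ 2 * (‖e‖ ^ 2 * ‖f‖ ^ 2 - ⟪e, f⟫ ^ 2))
    (h3 : FF ‖f - e‖ ‖e‖ ‖f‖ < 9 * ρ ^ 2 * (‖e‖ ^ 2 * ‖f‖ ^ 2 - ⟪e, f⟫ ^ 2))
    (𝒯 : Set (Set E)) (n : E) (a d : ℝ) (hL : IsLayer 𝒯 n a d)
    (hT : ∀ K ∈ 𝒯, IsTranslate (Tri 0 e f) K) :
    crossLen 𝒯 n a d ≤ ENNReal.ofReal (ρ * d) := by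
  rcases triNear_proof e f n ρ hef hL.unit hρ h1 h2 h3 with h | h | h
  · exact edge_bound e f n hef hL.unit ρ h 𝒯 a d hL hT
  · have hef' : LinearIndependent ℝ ![f, e] := by
      rw [LinearIndependent.pair_iff] at hef ⊢
      intro s t hst
      have h := hef t s (by rw [← hst]; abel)
      exact ⟨h.2, h.1⟩
    refine edge_bound f e n hef' hL.unit ρ ?_ 𝒯 a d hL ?_
    · rw [norm_sub_rev e f]; exact h
    · intro K hK
      rw [← tri_swap]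
      exact hT K hK
  · have hef' : LinearIndependent ℝ ![f - e, -e] := by
      rw [LinearIndependent.pair_iff] at hef ⊢
      intro s t hst
      have h := hef (-s - t) s (by rw [← hst]; module)
      exact ⟨h.2, by linarith [h.1, h.2]⟩
    refine edge_bound (f - e) (-e) n hef' hL.unit ρ ?_ 𝒯 a d hL ?_
    · rw [norm_neg, show -e - (f - e) = -f by abel, norm_neg]; linarith
    · intro K hK
      obtain ⟨z, rfl⟩ := TriUp.tri_of_translate e f K (hT K hK)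
      rw [tri_rot z e f]
      exact TriUp.translate_of_tri _ _ _

theorem translate_trans (e f A : E) (K : Set E) (h : IsTranslate (Tri A e f) K) :
    IsTranslate (Tri 0 e f) K := by
  obtain ⟨z, rfl⟩ := h
  obtain ⟨y, hy⟩ := TriUp.translate_of_tri A e f
  refine ⟨y + z, ?_⟩
  rw [hy, image_image]
  congr 1
  funext p
  abel

theorem similar_trans (e f A : E) (K : Set E) (h : IsSimilar (Tri 0 e f) K) :
    IsSimilar (Tri A e f) K := by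
  obtain ⟨lam, g, z, hlam, rfl⟩ := h
  refine ⟨lam, g, z - lam • g A, hlam, ?_⟩
  ext p
  constructor
  · rintro ⟨_, ⟨s, t, hs, ht, hst, rfl⟩, rfl⟩
    refine ⟨A + s • e + t • f, ⟨s, t, hs, ht, hst, rfl⟩, ?_⟩
    simp only [map_add, map_zero, smul_add, smul_zero]
    abel
  · rintro ⟨_, ⟨s, t, hs, ht, hst, rfl⟩, rfl⟩
    refine ⟨0 + s • e + t • f, ⟨s, t, hs, ht, hst, rfl⟩, ?_⟩
    simp only [map_add, map_zero, smul_add, smul_zero]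
    abel

/-- the functional. -/
theorem exists_w (e f : E) (hef : LinearIndependent ℝ ![e, f]) (α β : ℝ) :
    ∃ w : E, ⟪w, e⟫ = α ∧ ⟪w, f⟫ = β := by
  have hG : 0 < ‖e‖ ^ 2 * ‖f‖ ^ 2 - ⟪e, f⟫ ^ 2 := by
    have h1 : 0 ≤ ‖‖f‖ ^ 2 • e - ⟪e, f⟫ • f‖ ^ 2 := sq_nonneg _
    have hf0 : f ≠ 0 := by
      rintro rfl
      have := LinearIndependent.pair_iff.1 hef 0 1 (by simp)
      exact one_ne_zero this.2
    have hfp : 0 < ‖f‖ := norm_pos_iff.2 hf0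
    have hne : ‖f‖ ^ 2 • e - ⟪e, f⟫ • f ≠ 0 := by
      intro h
      have := LinearIndependent.pair_iff.1 hef (‖f‖ ^ 2) (-⟪e, f⟫) (by rw [← h]; module)
      exact absurd this.1 (by positivity)
    have h2 : 0 < ‖‖f‖ ^ 2 • e - ⟪e, f⟫ • f‖ ^ 2 := by
      have := norm_pos_iff.2 hne
      positivity
    have h3 : ‖‖f‖ ^ 2 • e - ⟪e, f⟫ • f‖ ^ 2 =
        ‖f‖ ^ 2 * (‖e‖ ^ 2 * ‖f‖ ^ 2 - ⟪e, f⟫ ^ 2) := by
      rw [norm_sub_sq_real, norm_smul, norm_smul, real_inner_smul_left, real_inner_smul_right]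
      simp only [Real.norm_eq_abs, mul_pow, sq_abs]
      ring
    rw [h3] at h2
    exact (mul_pos_iff_of_pos_left (by positivity)).1 h2
  set G := ‖e‖ ^ 2 * ‖f‖ ^ 2 - ⟪e, f⟫ ^ 2 with hGd
  have hfe : ⟪f, e⟫ = ⟪e, f⟫ := real_inner_comm _ _
  refine ⟨((α * ‖f‖ ^ 2 - β * ⟪e, f⟫) / G) • e + ((β * ‖e‖ ^ 2 - α * ⟪e, f⟫) / G) • f, ?_, ?_⟩
  · rw [inner_add_left, real_inner_smul_left, real_inner_smul_left, hfe,
      real_inner_self_eq_norm_sq]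
    field_simp
    rw [hGd]; ring
  · rw [inner_add_left, real_inner_smul_left, real_inner_smul_left,
      real_inner_self_eq_norm_sq]
    field_simp
    rw [hGd]; ring

/-- main theorem in vector form. -/
theorem main (A e f : E) (t : ℝ) (hef : LinearIndependent ℝ ![e, f]) (ht0 : 0 ≤ t)
    (hfe : ‖f‖ + t * ‖e‖ ≤ ‖f - e‖)
    (h1 : FF ‖e‖ ‖f‖ ‖f - e‖ < 9 * GG ‖f‖ ‖f - e‖ ‖e‖ t)
    (h2 : FF ‖f‖ ‖e‖ ‖f - e‖ < 9 * GG ‖f‖ ‖f - e‖ ‖e‖ t)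
    (h3 : FF ‖f - e‖ ‖e‖ ‖f‖ < 9 * GG ‖f‖ ‖f - e‖ ‖e‖ t) :
    ¬ PropertyS (Tri A e f) := by
  have he0 : e ≠ 0 := by
    rintro rfl
    have := LinearIndependent.pair_iff.1 hef 1 0 (by simp)
    exact one_ne_zero this.1
  have hep := norm_pos_iff.2 he0
  have ht1 : t ≤ 1 := by
    have h4 := norm_sub_le f e
    have h5 : t * ‖e‖ ≤ 1 * ‖e‖ := by linarith
    exact le_of_mul_le_mul_right h5 hep
  obtain ⟨w, hwe, hwf⟩ := exists_w e f hef (‖e‖ * (-t)) (‖f‖ + ‖e‖ * (1 - (-t) ^ 2) / 2)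
  set G := ‖e‖ ^ 2 * ‖f‖ ^ 2 - ⟪e, f⟫ ^ 2 with hG
  have hcc : ‖f - e‖ ^ 2 = ‖e‖ ^ 2 + ‖f‖ ^ 2 - 2 * ⟪e, f⟫ := by
    rw [norm_sub_sq_real, real_inner_comm]; ring
  have hGG : GG ‖f‖ ‖f - e‖ ‖e‖ t = ‖w‖ ^ 2 * G := by
    rw [hG, TriNear.gram w e f, hwe, hwf]
    unfold GG
    rw [hcc]; ring
  rw [hGG] at h1 h2 h3
  have hFpos : 0 < FF ‖e‖ ‖f‖ ‖f - e‖ := by
    unfold FF
    have h4 : ‖f‖ ≤ ‖f - e‖ + ‖e‖ := by
      calc ‖f‖ = ‖(f - e) + e‖ := by congr 1; abel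
        _ ≤ _ := norm_add_le _ _
    have h5 : ‖f - e‖ ≤ ‖f‖ + ‖e‖ := norm_sub_le _ _
    have h6 : 0 ≤ ‖e‖ ^ 2 - (‖f‖ - ‖f - e‖) ^ 2 := by
      have : |‖f‖ - ‖f - e‖| ≤ ‖e‖ := by rw [abs_le]; constructor <;> linarith
      have := sq_le_sq' (abs_le.1 this).1 (abs_le.1 this).2
      linarith
    have h7 := norm_nonneg f
    have h8 := norm_nonneg (f - e)
    have h9 := mul_nonneg h6 (show 0 ≤ (‖e‖ + ‖f‖ + ‖f - e‖) * (‖f‖ + ‖f - e‖) +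
      ‖f‖ * ‖f - e‖ by positivity)
    have h10 : 0 < (‖e‖ + ‖f‖ + ‖f - e‖) ^ 2 * ‖e‖ ^ 2 := by positivity
    linarith
  have hprod : 0 < ‖w‖ ^ 2 * G := by linarith
  have hw0 : w ≠ 0 := by
    rintro rfl
    simp at hprod
  have hwp := norm_pos_iff.2 hw0
  have hGp : 0 < G := (mul_pos_iff_of_pos_left (by positivity)).1 hprod
  -- choose ρ
  obtain ⟨ρ, hρ0, hρw, g1, g2, g3⟩ : ∃ ρ : ℝ, 0 < ρ ∧ ρ < ‖w‖ ∧
      FF ‖e‖ ‖f‖ ‖f - e‖ < 9 * ρ ^ 2 * G ∧ FF ‖f‖ ‖e‖ ‖f - e‖ < 9 * ρ ^ 2 * G ∧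
      FF ‖f - e‖ ‖e‖ ‖f‖ < 9 * ρ ^ 2 * G := by
    set m := max (FF ‖e‖ ‖f‖ ‖f - e‖) (max (FF ‖f‖ ‖e‖ ‖f - e‖) (FF ‖f - e‖ ‖e‖ ‖f‖)) with hm
    have hmlt : m / (9 * G) < ‖w‖ ^ 2 := by
      rw [div_lt_iff₀ (by positivity)]
      have : m < 9 * (‖w‖ ^ 2 * G) := max_lt h1 (max_lt h2 h3)
      linarith
    obtain ⟨r, hr1, hr2⟩ := exists_between hmlt
    have hm0 : 0 < m := lt_of_lt_of_le hFpos (le_max_left _ _)
    have hr0 : 0 < r := lt_trans (by positivity) hr1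
    rw [div_lt_iff₀ (by positivity)] at hr1
    have hsq : √r ^ 2 = r := Real.sq_sqrt hr0.le
    have hmr : m < 9 * √r ^ 2 * G := by rw [hsq]; linarith
    refine ⟨√r, Real.sqrt_pos.2 hr0, ?_, ?_, ?_, ?_⟩
    · rw [Real.sqrt_lt' hwp]; exact hr2
    · exact lt_of_le_of_lt (le_max_left _ _) hmr
    · exact lt_of_le_of_lt ((le_max_left _ _).trans (le_max_right _ _)) hmr
    · exact lt_of_le_of_lt ((le_max_right _ _).trans (le_max_right _ _)) hmr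
  obtain ⟨ρ', hρ1, hρ2⟩ := exists_between hρw
  refine not_S_of (Tri A e f) ρ ρ' hρ0 hρ1 ?_ ?_
  · intro 𝒯 n a d hL hT
    exact upper e f ρ hef hρ0 g1 g2 g3 𝒯 n a d hL
      (fun K hK => translate_trans e f A K (hT K hK))
  · have hfe' : |‖f‖ - ‖e‖ * (-t)| ≤ ‖f - e‖ := by
      have h4 := mul_nonneg ht0 hep.le
      rw [abs_of_nonneg (by linarith [norm_nonneg f])]
      linarith
    have hτ : |(-t)| ≤ 1 := by rw [abs_neg, abs_of_nonneg ht0]; exact ht1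
    obtain ⟨𝒞, n, d, hL, hsim, hlen⟩ := triTile_proof e f w (-t) ρ' hef hτ hfe' hwe hwf hw0 hρ2
    exact ⟨𝒞, n, 0, d, hL, fun K hK => similar_trans e f A K (hsim K hK), hlen⟩

end Pool.Agent.LFT.TriFinal
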