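import Pool.Agent.LFT.TriStmts
import Pool.Agent.LFT.Graph

/-!
# Triangles without property (S) (MP_9c589f_co): module GRAPH
-/

namespace Pool.Agent.LFT.TriGraph

open MeasureTheory Set Filter Topology
open scoped RealInnerProductSpace ENNReal

open Pool.Agent.LFT.Graph (psi psi_int psi_half psi_lip psi_bdd int_near)

/-- membership in the graph, in coordinates -/
def OnG (δ x y : ℝ) : Prop :=
  (∃ m : ℤ, y = m) ∨ (∃ m : ℤ, x - ⌊y⌋ * δ = m) ∨ (∃ m : ℤ, x - ⌊y⌋ * δ + (y - ⌊y⌋) = m)

open Classical in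
/-- the potential, in coordinates -/
noncomputable def pot (b c τ W x y : ℝ) : ℝ :=
  if (∃ m : ℤ, x - ⌊y⌋ * ((1 + τ) / 2) + (y - ⌊y⌋) = m) then
    ⌊y⌋ * (W + b * τ * ((1 + τ) / 2)) + b * τ * (x - ⌊y⌋ * ((1 + τ) / 2) + (y - ⌊y⌋)) +
      (y - ⌊y⌋) * (c - b * τ)
  else ⌊y⌋ * (W + b * τ * ((1 + τ) / 2)) + psi b τ (x - ⌊y⌋ * ((1 + τ) / 2)) + c * (y - ⌊y⌋)

theorem pot_int (b c τ W x : ℝ) (j : ℤ) (hb : 0 ≤ b) (hτ : |τ| ≤ 1) :
    pot b c τ W x j = j * (W + b * τ * ((1 + τ) / 2)) + psi b τ (x - j * ((1 + τ) / 2)) := by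
  unfold pot
  rw [Int.floor_intCast, sub_self, add_zero]
  split_ifs with h
  · obtain ⟨m, hm⟩ := h
    rw [hm, psi_int b τ hb hτ]; ring
  · ring

theorem pot_f (b c τ W x y : ℝ) (j m : ℤ) (hb : 0 ≤ b) (hτ : |τ| ≤ 1) (hj : (j : ℝ) < y)
    (hj' : y < j + 1) (hm : x - j * ((1 + τ) / 2) = m) :
    pot b c τ W x y = j * (W + b * τ * ((1 + τ) / 2)) + b * τ * m + c * (y - j) := by
  have hfl : ⌊y⌋ = j := by rw [Int.floor_eq_iff]; exact ⟨hj.le, hj'⟩
  unfold pot
  rw [hfl]
  rw [if_neg]
  · rw [hm, psi_int b τ hb hτ]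
  · rintro ⟨k, hk⟩
    rw [hm] at hk
    have h1 : (m : ℝ) < k := by linarith
    have h2 : (k : ℝ) < m + 1 := by linarith
    have h3 : m < k := by exact_mod_cast h1
    have h4 : k < m + 1 := by exact_mod_cast h2
    omega

theorem pot_d (b c τ W x y : ℝ) (j m : ℤ) (hj : (j : ℝ) ≤ y)
    (hj' : y < j + 1) (hm : x - j * ((1 + τ) / 2) + (y - j) = m) :
    pot b c τ W x y = j * (W + b * τ * ((1 + τ) / 2)) + b * τ * m + (y - j) * (c - b * τ) := by
  have hfl : ⌊y⌋ = j := by rw [Int.floor_eq_iff]; exact ⟨hj, hj'⟩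
  unfold pot
  rw [hfl]
  rw [if_pos ⟨m, hm⟩, hm]

/-- the local estimate. -/
theorem pot_local (b c c' τ W : ℝ) (hb : 0 ≤ b) (hc : 0 ≤ c) (hcc : |c - b * τ| ≤ c')
    (hτ : |τ| ≤ 1) (hW : W = c + b * (1 - τ ^ 2) / 2) (x0 y0 : ℝ)
    (h0 : OnG ((1 + τ) / 2) x0 y0) :
    ∃ ε > 0, ∀ x y : ℝ, |x - x0| < ε → |y - y0| < ε → OnG ((1 + τ) / 2) x y →
      (x = x0 ∧ |pot b c τ W x y - pot b c τ W x0 y0| ≤ c * |y - y0|) ∨
      (y = y0 ∧ |pot b c τ W x y - pot b c τ W x0 y0| ≤ b * |x - x0|) ∨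
      (x - x0 = -(y - y0) ∧ |pot b c τ W x y - pot b c τ W x0 y0| ≤ c' * |y - y0|) := by
  set δ := (1 + τ) / 2 with hδ
  have hdiag : ∀ s : ℝ, |s * (c - b * τ)| ≤ c' * |s| := by
    intro s
    rw [abs_mul, mul_comm]
    exact mul_le_mul_of_nonneg_right hcc (abs_nonneg _)
  by_cases hy0 : ∃ m : ℤ, y0 = m
  · obtain ⟨j, hj⟩ := hy0
    obtain ⟨ε1, hε1, h1⟩ := int_near (x0 - j * δ)
    obtain ⟨ε2, hε2, h2⟩ := int_near (x0 - (j - 1) * δ)
    obtain ⟨ε3, hε3, h3⟩ := int_near (x0 - (j - 1) * δ + 1)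
    refine ⟨min 1 (min (ε1 / 2) (min (ε2 / 2) (ε3 / 2))),
      lt_min one_pos (lt_min (by linarith) (lt_min (by linarith) (by linarith))), ?_⟩
    intro x y hx hy hG
    rw [lt_min_iff, lt_min_iff, lt_min_iff] at hx hy
    obtain ⟨hx0, hx1, hx2, hx3⟩ := hx
    obtain ⟨hy0, hy1, hy2, hy3⟩ := hy
    have hp0 : pot b c τ W x0 y0 = j * (W + b * τ * δ) + psi b τ (x0 - j * δ) := by
      rw [hj, pot_int b c τ W x0 j hb hτ]
    rw [hp0]
    rcases lt_trichotomy y y0 with hlt | heq | hgt
    · -- below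
      have hjm : (((j - 1 : ℤ)) : ℝ) = (j : ℝ) - 1 := by push_cast; ring
      have hy4 := abs_lt.1 hy0
      have hl1 : ((j - 1 : ℤ) : ℝ) < y := by
        rw [hjm]; rw [hj] at hy4; linarith [hy4.1]
      have hl2 : y < ((j - 1 : ℤ) : ℝ) + 1 := by rw [hjm]; rw [hj] at hlt; linarith
      have hfl : ⌊y⌋ = j - 1 := by
        rw [Int.floor_eq_iff]
        exact ⟨hl1.le, hl2⟩
      rcases hG with ⟨m, hm⟩ | ⟨m, hm⟩ | ⟨m, hm⟩
      · exfalso
        rw [hm] at hl1 hl2
        have h4 : j - 1 < m := by exact_mod_cast hl1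
        have h5 : m < j - 1 + 1 := by exact_mod_cast hl2
        omega
      · left
        rw [hfl] at hm
        have hxx : x = x0 := by
          have := h2 (x - (j - 1) * δ)
            (by rw [show x - (j - 1) * δ - (x0 - (j - 1) * δ) = x - x0 by ring]; linarith)
            ⟨m, by rw [← hm]; push_cast; ring⟩
          linarith
        refine ⟨hxx, ?_⟩
        have hp := pot_f b c τ W x y (j - 1) m hb hτ hl1 hl2 hm
        rw [hp]
        have hq : x0 - j * δ = m - δ := by rw [← hm, ← hxx]; push_cast; ring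
        rw [hq, hδ, psi_half b τ hb hτ]
        have : ((j - 1 : ℤ) : ℝ) * (W + b * τ * ((1 + τ) / 2)) + b * τ * m +
            c * (y - ((j - 1 : ℤ) : ℝ)) -
            (j * (W + b * τ * ((1 + τ) / 2)) + (b * τ * m - b * ((1 + τ) / 2))) =
            c * (y - y0) := by
          rw [hW, hj, hjm]; ring
        rw [this, abs_mul, abs_of_nonneg hc]
      · right; right
        rw [hfl] at hm
        have hxx : x + y = x0 + j := by
          have := h3 (x - (j - 1) * δ + (y - (j - 1)))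
            (by
              rw [show x - (j - 1) * δ + (y - (j - 1)) - (x0 - (j - 1) * δ + 1) =
                (x - x0) + (y - y0) by rw [hj]; ring]
              have := abs_add_le (x - x0) (y - y0)
              linarith)
            ⟨m, by rw [← hm]; push_cast; ring⟩
          linarith
        refine ⟨by rw [hj]; linarith, ?_⟩
        have hp := pot_d b c τ W x y (j - 1) m hl1.le hl2 hm
        rw [hp]
        have hq : x0 - j * δ = ((m - 1 : ℤ) : ℝ) - δ := by
          push_cast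
          rw [← hm]; push_cast
          have : x0 = x + y - j := by linarith
          rw [this]; ring
        rw [hq, hδ, psi_half b τ hb hτ]
        have : ((j - 1 : ℤ) : ℝ) * (W + b * τ * ((1 + τ) / 2)) + b * τ * m +
            (y - ((j - 1 : ℤ) : ℝ)) * (c - b * τ) -
            (j * (W + b * τ * ((1 + τ) / 2)) + (b * τ * ((m - 1 : ℤ) : ℝ) - b * ((1 + τ) / 2))) =
            (y - y0) * (c - b * τ) := by
          rw [hW, hj, hjm]; push_cast; ring
        rw [this]
        exact hdiag _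
    · -- on the line
      right; left
      refine ⟨heq, ?_⟩
      rw [heq, hj, pot_int b c τ W x j hb hτ]
      have h4 := psi_lip b τ hb hτ (x - j * δ) (x0 - j * δ)
      rw [show x - j * δ - (x0 - j * δ) = x - x0 by ring] at h4
      rwa [add_sub_add_left_eq_sub]
    · -- above
      have hy4 := abs_lt.1 hy0
      have hl1 : (j : ℝ) < y := by rw [hj] at hgt; exact hgt
      have hl2 : y < (j : ℝ) + 1 := by rw [hj] at hy4; linarith [hy4.2]
      have hfl : ⌊y⌋ = j := by
        rw [Int.floor_eq_iff]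
        exact ⟨hl1.le, hl2⟩
      rcases hG with ⟨m, hm⟩ | ⟨m, hm⟩ | ⟨m, hm⟩
      · exfalso
        rw [hm] at hl1 hl2
        have h4 : j < m := by exact_mod_cast hl1
        have h5 : m < j + 1 := by exact_mod_cast hl2
        omega
      · left
        rw [hfl] at hm
        have hxx : x = x0 := by
          have := h1 (x - j * δ)
            (by rw [show x - j * δ - (x0 - j * δ) = x - x0 by ring]; linarith)
            ⟨m, hm⟩
          linarith
        refine ⟨hxx, ?_⟩
        have hp := pot_f b c τ W x y j m hb hτ hl1 hl2 hm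
        rw [hp]
        have hq : x0 - j * δ = m := by rw [← hm, ← hxx]
        rw [hq, psi_int b τ hb hτ]
        have : (j : ℝ) * (W + b * τ * ((1 + τ) / 2)) + b * τ * m + c * (y - j) -
            (j * (W + b * τ * δ) + b * τ * m) = c * (y - y0) := by
          rw [hδ, hj]; ring
        rw [this, abs_mul, abs_of_nonneg hc]
      · right; right
        rw [hfl] at hm
        have hxx : x + y = x0 + j := by
          have := h1 (x - j * δ + (y - j))
            (by
              rw [show x - j * δ + (y - j) - (x0 - j * δ) =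
                (x - x0) + (y - y0) by rw [hj]; ring]
              have := abs_add_le (x - x0) (y - y0)
              linarith)
            ⟨m, hm⟩
          linarith
        refine ⟨by rw [hj]; linarith, ?_⟩
        have hp := pot_d b c τ W x y j m hl1.le hl2 hm
        rw [hp]
        have hq : x0 - j * δ = m := by
          rw [← hm]
          have : x0 = x + y - j := by linarith
          rw [this]; ring
        rw [hq, psi_int b τ hb hτ]
        have : (j : ℝ) * (W + b * τ * ((1 + τ) / 2)) + b * τ * m + (y - j) * (c - b * τ) -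
            (j * (W + b * τ * δ) + b * τ * m) = (y - y0) * (c - b * τ) := by
          rw [hδ, hj]; ring
        rw [this]
        exact hdiag _
  · -- inside an edge
    set j := ⌊y0⌋ with hjd
    have hf0 : (j : ℝ) < y0 := by
      rcases eq_or_lt_of_le (Int.floor_le y0) with h | h
      · exact absurd ⟨⌊y0⌋, h.symm⟩ hy0
      · exact h
    have hf1 : y0 < j + 1 := Int.lt_floor_add_one y0
    obtain ⟨ε1, hε1, h1⟩ := int_near (x0 - j * δ)
    obtain ⟨ε2, hε2, h2⟩ := int_near (x0 - j * δ + (y0 - j))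
    refine ⟨min (ε1 / 2) (min (ε2 / 2) (min (y0 - j) (j + 1 - y0))),
      lt_min (by linarith) (lt_min (by linarith) (lt_min (by linarith) (by linarith))), ?_⟩
    intro x y hx hy hG
    rw [lt_min_iff, lt_min_iff, lt_min_iff] at hx hy
    obtain ⟨hx1, hx2, -, -⟩ := hx
    obtain ⟨hy1, hy2, hy3, hy4⟩ := hy
    have hl1 : (j : ℝ) < y := by linarith [(abs_lt.1 hy3).1]
    have hl2 : y < (j : ℝ) + 1 := by linarith [(abs_lt.1 hy4).2]
    have hfl : ⌊y⌋ = j := by
      rw [Int.floor_eq_iff]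
      exact ⟨hl1.le, hl2⟩
    have hcase : ∀ m m0 : ℤ, x - j * δ = m → x0 - j * δ + (y0 - j) = m0 → False := by
      intro m m0 hm hm0
      have hxx : x - j * δ = x0 - j * δ := h1 (x - j * δ)
        (by rw [show x - j * δ - (x0 - j * δ) = x - x0 by ring]; linarith) ⟨m, hm⟩
      have h3 : (m : ℝ) < m0 := by linarith
      have h4 : (m0 : ℝ) < m + 1 := by linarith
      have h5 : m < m0 := by exact_mod_cast h3
      have h6 : m0 < m + 1 := by exact_mod_cast h4
      omega
    have hcase' : ∀ m m0 : ℤ, x - j * δ + (y - j) = m → x0 - j * δ = m0 → False := by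
      intro m m0 hm hm0
      have hxx : x - j * δ + (y - j) = x0 - j * δ + (y0 - j) := h2 (x - j * δ + (y - j))
        (by
          rw [show x - j * δ + (y - j) - (x0 - j * δ + (y0 - j)) = (x - x0) + (y - y0) by ring]
          have := abs_add_le (x - x0) (y - y0)
          linarith) ⟨m, hm⟩
      have h3 : (m0 : ℝ) < m := by linarith
      have h4 : (m : ℝ) < m0 + 1 := by linarith
      have h5 : m0 < m := by exact_mod_cast h3
      have h6 : m < m0 + 1 := by exact_mod_cast h4
      omega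
    rcases h0 with h | ⟨m0, hm0⟩ | ⟨m0, hm0⟩
    · exact absurd h hy0
    · -- on an edge f
      rw [← hjd] at hm0
      have hG' : ∃ m : ℤ, x - j * δ = m := by
        rcases hG with ⟨m, hm⟩ | ⟨m, hm⟩ | ⟨m, hm⟩
        · exfalso
          rw [hm] at hl1 hl2
          have h4 : j < m := by exact_mod_cast hl1
          have h5 : m < j + 1 := by exact_mod_cast hl2
          omega
        · rw [hfl] at hm; exact ⟨m, hm⟩
        · rw [hfl] at hm; exact (hcase' m m0 hm hm0).elim
      obtain ⟨m, hm⟩ := hG'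
      have hxx : x = x0 := by
        have := h1 (x - j * δ)
          (by rw [show x - j * δ - (x0 - j * δ) = x - x0 by ring]; linarith) ⟨m, hm⟩
        linarith
      left
      refine ⟨hxx, ?_⟩
      rw [pot_f b c τ W x y j m hb hτ hl1 hl2 hm,
        pot_f b c τ W x0 y0 j m hb hτ hf0 hf1 (by rw [← hxx]; exact hm)]
      have : (j : ℝ) * (W + b * τ * ((1 + τ) / 2)) + b * τ * m + c * (y - j) -
          (j * (W + b * τ * ((1 + τ) / 2)) + b * τ * m + c * (y0 - j)) = c * (y - y0) := by ring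
      rw [this, abs_mul, abs_of_nonneg hc]
    · rw [← hjd] at hm0
      have hG' : ∃ m : ℤ, x - j * δ + (y - j) = m := by
        rcases hG with ⟨m, hm⟩ | ⟨m, hm⟩ | ⟨m, hm⟩
        · exfalso
          rw [hm] at hl1 hl2
          have h4 : j < m := by exact_mod_cast hl1
          have h5 : m < j + 1 := by exact_mod_cast hl2
          omega
        · rw [hfl] at hm; exact (hcase m m0 hm hm0).elim
        · rw [hfl] at hm; exact ⟨m, hm⟩
      obtain ⟨m, hm⟩ := hG'
      have hxx : x - j * δ + (y - j) = x0 - j * δ + (y0 - j) := h2 (x - j * δ + (y - j))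
        (by
          rw [show x - j * δ + (y - j) - (x0 - j * δ + (y0 - j)) = (x - x0) + (y - y0) by ring]
          have := abs_add_le (x - x0) (y - y0)
          linarith) ⟨m, hm⟩
      right; right
      refine ⟨by linarith, ?_⟩
      rw [pot_d b c τ W x y j m hl1.le hl2 hm,
        pot_d b c τ W x0 y0 j m hf0.le hf1 (by rw [← hxx]; exact hm)]
      have : (j : ℝ) * (W + b * τ * ((1 + τ) / 2)) + b * τ * m + (y - j) * (c - b * τ) -
          (j * (W + b * τ * ((1 + τ) / 2)) + b * τ * m + (y0 - j) * (c - b * τ)) =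
          (y - y0) * (c - b * τ) := by ring
      rw [this]
      exact hdiag _

theorem pot_bdd (b c τ W : ℝ) (hb : 0 ≤ b) (hc : 0 ≤ c) (hτ : |τ| ≤ 1) (x y : ℝ) :
    |pot b c τ W x y - (x * (b * τ) + y * W)| ≤ |W| + c + 2 * b := by
  have h2 : |y - ⌊y⌋| ≤ 1 := by
    rw [abs_of_nonneg (by linarith [Int.floor_le y])]
    linarith [Int.lt_floor_add_one y]
  unfold pot
  split_ifs with h
  · have e : (⌊y⌋ : ℝ) * (W + b * τ * ((1 + τ) / 2)) +
        b * τ * (x - ⌊y⌋ * ((1 + τ) / 2) + (y - ⌊y⌋)) + (y - ⌊y⌋) * (c - b * τ) -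
        (x * (b * τ) + y * W) = (c - W) * (y - ⌊y⌋) := by ring
    rw [e, abs_mul]
    have h3 : |c - W| ≤ c + |W| := by
      have := abs_sub c W
      rwa [abs_of_nonneg hc] at this
    calc |c - W| * |y - ⌊y⌋| ≤ (c + |W|) * 1 :=
          mul_le_mul h3 h2 (abs_nonneg _) (by positivity)
      _ ≤ _ := by linarith
  · have := Graph.pot_bdd b c τ W hb hc hτ x y
    unfold Graph.pot at this
    exact this

end Pool.Agent.LFT.TriGraph

namespace Pool.Agent.LFT

open MeasureTheory Set Filter Topology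
open scoped RealInnerProductSpace ENNReal

theorem triGraph_proof : Stmt_TriGraph := by
  intro e f w τ hef hτ hfe hwe hwf
  obtain ⟨X, Y, hX, hY, hXY, huniq⟩ := Graph.exists_coord e f hef
  set b := ‖e‖ with hb
  set c := ‖f‖ with hc
  have hb0 : 0 ≤ b := norm_nonneg _
  have hc0 : 0 ≤ c := norm_nonneg _
  set W : ℝ := c + b * (1 - τ ^ 2) / 2 with hW
  refine ⟨2 * (|W| + c + 2 * b), ?_⟩
  intro γ t1 t2 h12 hγ hG
  let H : ℝ → ℝ := fun t => TriGraph.pot b c τ W (X (γ t)) (Y (γ t))
  have hGt : ∀ t ∈ Icc t1 t2, TriGraph.OnG ((1 + τ) / 2) (X (γ t)) (Y (γ t)) :=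
    fun t ht => hG t ht _ _ (hXY (γ t))
  have hloc : ∀ t ∈ Icc t1 t2, ∃ ε > 0, ∀ s ∈ Icc t1 t2, |s - t| < ε →
      edist (H s) (H t) ≤ edist (γ s) (γ t) := by
    intro t ht
    obtain ⟨ε, hε, hl⟩ := TriGraph.pot_local b c ‖f - e‖ τ W hb0 hc0 hfe hτ hW _ _ (hGt t ht)
    have hcX : ContinuousWithinAt (fun s => X (γ s)) (Icc t1 t2) t :=
      hX.continuousAt.comp_continuousWithinAt (hγ t ht)
    have hcY : ContinuousWithinAt (fun s => Y (γ s)) (Icc t1 t2) t :=
      hY.continuousAt.comp_continuousWithinAt (hγ t ht)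
    rw [Metric.continuousWithinAt_iff] at hcX hcY
    obtain ⟨ε1, hε1, h1⟩ := hcX ε hε
    obtain ⟨ε2, hε2, h2⟩ := hcY ε hε
    refine ⟨min ε1 ε2, lt_min hε1 hε2, ?_⟩
    intro s hs hst
    rw [lt_min_iff] at hst
    have hx : |X (γ s) - X (γ t)| < ε := by
      have := h1 hs (by rw [Real.dist_eq]; exact hst.1)
      rwa [Real.dist_eq] at this
    have hy : |Y (γ s) - Y (γ t)| < ε := by
      have := h2 hs (by rw [Real.dist_eq]; exact hst.2)
      rwa [Real.dist_eq] at this
    have hdist : edist (H s) (H t) = ENNReal.ofReal |H s - H t| := by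
      rw [edist_dist, Real.dist_eq]
    rw [hdist, edist_dist, dist_eq_norm]
    apply ENNReal.ofReal_le_ofReal
    have e0 : γ s - γ t = (X (γ s) - X (γ t)) • e + (Y (γ s) - Y (γ t)) • f := by
      conv_lhs => rw [hXY (γ s), hXY (γ t)]
      module
    rcases hl _ _ hx hy (hGt s hs) with ⟨hxx, hle⟩ | ⟨hyy, hle⟩ | ⟨hxy, hle⟩
    · have e1 : γ s - γ t = (Y (γ s) - Y (γ t)) • f := by
        rw [e0, hxx, sub_self, zero_smul, zero_add]
      rw [e1, norm_smul, Real.norm_eq_abs, mul_comm]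
      exact hle
    · have e1 : γ s - γ t = (X (γ s) - X (γ t)) • e := by
        rw [e0, hyy, sub_self, zero_smul, add_zero]
      rw [e1, norm_smul, Real.norm_eq_abs, mul_comm]
      exact hle
    · have e1 : γ s - γ t = (Y (γ s) - Y (γ t)) • (f - e) := by
        rw [e0, hxy]; module
      rw [e1, norm_smul, Real.norm_eq_abs, mul_comm]
      exact hle
  have hmain := Graph.local_to_global γ H t1 t2 h12 hloc
  refine le_trans ?_ hmain
  rw [edist_dist, Real.dist_eq]
  apply ENNReal.ofReal_le_ofReal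
  have hw : ∀ t, ⟪w, γ t⟫ = X (γ t) * (b * τ) + Y (γ t) * W := by
    intro t
    conv_lhs => rw [hXY (γ t)]
    rw [inner_add_right, real_inner_smul_right, real_inner_smul_right, hwe, hwf]
  have hb2 := TriGraph.pot_bdd b c τ W hb0 hc0 hτ (X (γ t2)) (Y (γ t2))
  have hb1 := TriGraph.pot_bdd b c τ W hb0 hc0 hτ (X (γ t1)) (Y (γ t1))
  rw [inner_sub_right, hw, hw]
  have h3 : H t2 - H t1 ≤ |H t2 - H t1| := le_abs_self _
  have h4 := (abs_le.1 hb2).1
  have h5 := (abs_le.1 hb1).2
  have h6 : H t2 = TriGraph.pot b c τ W (X (γ t2)) (Y (γ t2)) := rfl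
  have h7 : H t1 = TriGraph.pot b c τ W (X (γ t1)) (Y (γ t1)) := rfl
  rw [← h6] at h4
  rw [← h7] at h5
  linarith

end Pool.Agent.LFT
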