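import Pool.Agent.LFT.TriStmts

/-!
# Triangles without property (S) (MP_9c589f_co): module NEAR
-/

namespace Pool.Agent.LFT.TriNear

open MeasureTheory Set
open scoped RealInnerProductSpace ENNReal

theorem inner2 (x y : E) : ⟪x, y⟫ = x 0 * y 0 + x 1 * y 1 := by
  simp [PiLp.inner_apply, Fin.sum_univ_two]; ring

/-- the Gram identity in the plane. -/
theorem gram (w e f : E) : ‖w‖ ^ 2 * (‖e‖ ^ 2 * ‖f‖ ^ 2 - ⟪e, f⟫ ^ 2) =
    ⟪w, e⟫ ^ 2 * ‖f‖ ^ 2 - 2 * ⟪w, e⟫ * ⟪w, f⟫ * ⟪e, f⟫ + ⟪w, f⟫ ^ 2 * ‖e‖ ^ 2 := by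
  rw [← real_inner_self_eq_norm_sq, ← real_inner_self_eq_norm_sq, ← real_inner_self_eq_norm_sq,
    inner2, inner2, inner2, inner2, inner2, inner2]
  ring

theorem conv_lt (α β γ M s0 s1 s : ℝ) (hα : 0 ≤ α) (h0 : s0 ≤ s) (h1 : s ≤ s1)
    (hq0 : α * s0 ^ 2 + β * s0 + γ < M) (hq1 : α * s1 ^ 2 + β * s1 + γ < M) :
    α * s ^ 2 + β * s + γ < M := by
  rcases eq_or_lt_of_le h0 with h | h
  · rw [← h]; exact hq0
  by_contra hcon
  push Not at hcon
  have hpos : 0 < s1 - s0 := by linarith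
  have h2 : 0 ≤ α * ((s - s0) * (s1 - s)) :=
    mul_nonneg hα (mul_nonneg (by linarith) (by linarith))
  have h3 : (s1 - s) * (α * s0 ^ 2 + β * s0 + γ) ≤ (s1 - s) * M :=
    mul_le_mul_of_nonneg_left hq0.le (by linarith)
  have h4 : (s - s0) * (α * s1 ^ 2 + β * s1 + γ) < (s - s0) * M :=
    mul_lt_mul_of_pos_left hq1 (by linarith)
  have h5 : (s1 - s0) * M ≤ (s1 - s0) * (α * s ^ 2 + β * s + γ) :=
    mul_le_mul_of_nonneg_left hcon hpos.le
  have h6 : (s1 - s) * (α * s0 ^ 2 + β * s0 + γ) + (s - s0) * (α * s1 ^ 2 + β * s1 + γ) =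
      (s1 - s0) * (α * s ^ 2 + β * s + γ) + (s1 - s0) * (α * ((s - s0) * (s1 - s))) := by ring
  have h7 := mul_nonneg hpos.le h2
  linarith

/-- a convex quadratic form on a hexagon. -/
theorem hexagon (a b c M u v : ℝ) (ha : 0 < a) (hb : 0 < b) (hc : 0 < c)
    (hFa : FF a b c < M) (hFb : FF b a c < M) (hFc : FF c a b < M)
    (hu : |u| ≤ 2 * a + b + c) (hv : |v| ≤ 2 * b + a + c) (huv : |v - u| ≤ 2 * c + b + a) :
    b ^ 2 * u ^ 2 - (a ^ 2 + b ^ 2 - c ^ 2) * (u * v) + a ^ 2 * v ^ 2 < M := by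
  set A1 := 2 * a + b + c with hA1
  set A2 := 2 * b + a + c with hA2
  set A3 := 2 * c + b + a with hA3
  -- the quadratic form
  let Q : ℝ → ℝ → ℝ := fun u v => b ^ 2 * u ^ 2 - (a ^ 2 + b ^ 2 - c ^ 2) * (u * v) + a ^ 2 * v ^ 2
  have hsym : ∀ u v, Q (-u) (-v) = Q u v := by intro u v; simp only [Q]; ring
  have v1 : Q A1 A2 < M := by
    have : Q A1 A2 = FF c a b := by simp only [Q, FF, hA1, hA2]; ring
    rw [this]; exact hFc
  have v2 : Q A1 (A1 - A3) < M := by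
    have : Q A1 (A1 - A3) = FF b a c := by simp only [Q, FF, hA1, hA3]; ring
    rw [this]; exact hFb
  have v3 : Q (A2 - A3) A2 < M := by
    have : Q (A2 - A3) A2 = FF a b c := by simp only [Q, FF, hA2, hA3]; ring
    rw [this]; exact hFa
  have v1' : Q (-A1) (-A2) < M := by rw [hsym]; exact v1
  have v2' : Q (-A1) (A3 - A1) < M := by
    have := hsym A1 (A1 - A3)
    rw [neg_sub] at this
    rw [this]; exact v2
  have v3' : Q (A3 - A2) (-A2) < M := by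
    have := hsym (A2 - A3) A2
    rw [neg_sub] at this
    rw [this]; exact v3
  -- edges of the hexagon
  have e1 : ∀ u, A2 - A3 ≤ u → u ≤ A1 → Q u A2 < M := by
    intro u h0 h1
    have := conv_lt (b ^ 2) (-(a ^ 2 + b ^ 2 - c ^ 2) * A2) (a ^ 2 * A2 ^ 2) M (A2 - A3) A1 u
      (by positivity) h0 h1 (by simp only [Q] at v3; linarith) (by simp only [Q] at v1; linarith)
    simp only [Q]; linarith
  have e1' : ∀ u, -A1 ≤ u → u ≤ A3 - A2 → Q u (-A2) < M := by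
    intro u h0 h1
    have := e1 (-u) (by linarith) (by linarith)
    rw [← hsym, neg_neg] at this
    exact this
  have e2 : ∀ u, -A1 ≤ u → u ≤ A2 - A3 → Q u (u + A3) < M := by
    intro u h0 h1
    have key : ∀ s, Q s (s + A3) = c ^ 2 * s ^ 2 + ((a ^ 2 + c ^ 2 - b ^ 2) * A3) * s +
        a ^ 2 * A3 ^ 2 := by intro s; simp only [Q]; ring
    have := conv_lt (c ^ 2) ((a ^ 2 + c ^ 2 - b ^ 2) * A3) (a ^ 2 * A3 ^ 2) M (-A1) (A2 - A3) u
      (by positivity) h0 h1 (by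
        rw [← key, show -A1 + A3 = A3 - A1 by ring]; exact v2') (by
        rw [← key, show A2 - A3 + A3 = A2 by ring]; exact v3)
    rw [key]; exact this
  have e2' : ∀ u, A3 - A2 ≤ u → u ≤ A1 → Q u (u - A3) < M := by
    intro u h0 h1
    have := e2 (-u) (by linarith) (by linarith)
    rw [← hsym, neg_neg, show -(-u + A3) = u - A3 by ring] at this
    exact this
  obtain ⟨hu1, hu2⟩ := abs_le.1 hu
  obtain ⟨hv1, hv2⟩ := abs_le.1 hv
  obtain ⟨huv1, huv2⟩ := abs_le.1 huv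
  -- upper end
  have hup : Q u (min A2 (u + A3)) < M := by
    rcases le_total A2 (u + A3) with h | h
    · rw [min_eq_left h]; exact e1 u (by linarith) hu2
    · rw [min_eq_right h]; exact e2 u hu1 (by linarith)
  have hlo : Q u (max (-A2) (u - A3)) < M := by
    rcases le_total (-A2) (u - A3) with h | h
    · rw [max_eq_right h]; exact e2' u (by linarith) hu2
    · rw [max_eq_left h]; exact e1' u hu1 (by linarith)
  have := conv_lt (a ^ 2) (-(a ^ 2 + b ^ 2 - c ^ 2) * u) (b ^ 2 * u ^ 2) M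
    (max (-A2) (u - A3)) (min A2 (u + A3)) v (by positivity)
    (max_le hv1 (by linarith)) (le_min hv2 (by linarith))
    (by simp only [Q] at hlo; linarith) (by simp only [Q] at hup; linarith)
  linarith

end Pool.Agent.LFT.TriNear

namespace Pool.Agent.LFT

open MeasureTheory Set
open scoped RealInnerProductSpace ENNReal

theorem triNear_proof : Stmt_TriNear := by
  intro e f n ρ hef hn hρ h1 h2 h3
  by_contra hcon
  push Not at hcon
  obtain ⟨g1, g2, g3⟩ := hcon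
  have he0 : e ≠ 0 := by
    rintro rfl
    have := LinearIndependent.pair_iff.1 hef 1 0 (by simp)
    exact one_ne_zero this.1
  have hf0 : f ≠ 0 := by
    rintro rfl
    have := LinearIndependent.pair_iff.1 hef 0 1 (by simp)
    exact one_ne_zero this.2
  have hfe0 : f - e ≠ 0 := by
    intro h
    have := LinearIndependent.pair_iff.1 hef (-1) 1 (by rw [← h]; module)
    exact one_ne_zero this.2
  have ha := norm_pos_iff.2 he0
  have hb := norm_pos_iff.2 hf0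
  have hc := norm_pos_iff.2 hfe0
  have hcc : ‖f - e‖ ^ 2 = ‖e‖ ^ 2 + ‖f‖ ^ 2 - 2 * ⟪e, f⟫ := by
    rw [norm_sub_sq_real, real_inner_comm]; ring
  have hG := TriNear.gram n e f
  rw [hn, one_pow, one_mul] at hG
  have h3ρ : 0 < 3 * ρ := by linarith
  have habs : ∀ t : ℝ, |3 * ρ * t| = 3 * ρ * |t| := fun t => by rw [abs_mul, abs_of_pos h3ρ]
  have hex := TriNear.hexagon ‖e‖ ‖f‖ ‖f - e‖
    (9 * ρ ^ 2 * (‖e‖ ^ 2 * ‖f‖ ^ 2 - ⟪e, f⟫ ^ 2)) (3 * ρ * ⟪n, e⟫) (3 * ρ * ⟪n, f⟫) ha hb hc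
    h1 h2 h3 (by rw [habs]; exact g1) (by rw [habs]; exact g2) (by
      rw [← mul_sub, ← inner_sub_right, habs]; linarith)
  have e1 : ‖f‖ ^ 2 * (3 * ρ * ⟪n, e⟫) ^ 2 - (‖e‖ ^ 2 + ‖f‖ ^ 2 - ‖f - e‖ ^ 2) *
      (3 * ρ * ⟪n, e⟫ * (3 * ρ * ⟪n, f⟫)) + ‖e‖ ^ 2 * (3 * ρ * ⟪n, f⟫) ^ 2 =
      9 * ρ ^ 2 * (‖e‖ ^ 2 * ‖f‖ ^ 2 - ⟪e, f⟫ ^ 2) := by
    rw [hG, hcc]; ring
  rw [e1] at hex
  exact lt_irrefl _ hex

end Pool.Agent.LFT
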