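import Pool.Agent.LFT.TriTile

/-!
# Triangles without property (S) (MP_9c589f_co): periodic patterns of similar triangles

The plane is cut into the unit cells `Tri c e f` (up, `k = true`) and `Tri c (-e) (-f)` (down,
`k = false`) of the grid spanned by `e`, `f`.  A pattern groups the cells into triangles.
-/

namespace Pool.Agent.LFT.TriPat

open MeasureTheory Set Filter Topology
open scoped RealInnerProductSpace ENNReal

/-- the cell `(u, v, k)` lies in the tile of (signed) size `σ` with corner `(0, 0)`. -/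
def Ins (σ u v : ℤ) (k : Bool) : Prop :=
  (0 < σ ∧ 0 ≤ u ∧ 0 ≤ v ∧ u + v + (if k then 1 else 2) ≤ σ) ∨
  (σ < 0 ∧ u + 1 ≤ 0 ∧ v + 1 ≤ 0 ∧ σ ≤ u + v + (if k then 0 else 1))

instance (σ u v : ℤ) (k : Bool) : Decidable (Ins σ u v k) := by unfold Ins; infer_instance

/-- a periodic pattern: the cell `(i, j, k)` belongs to the tile of signed size
`(tab r k).1` with corner `(i, j) - ((tab r k).2.1, (tab r k).2.2)`, where `r = a i + b j`. -/
structure Pat (N : ℕ) where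
  a : ZMod N
  b : ZMod N
  s : ℤ
  tiles : List (ℤ × ZMod N)
  tab : ZMod N → Bool → ℤ × ℤ × ℤ

variable {N : ℕ}

/-- validity of a pattern. -/
structure Pat.Valid (P : Pat N) : Prop where
  v1 : ∀ r k, Ins (P.tab r k).1 (P.tab r k).2.1 (P.tab r k).2.2 k
  v2 : ∀ r k, ((P.tab r k).1, r - (P.a * ((P.tab r k).2.1 : ZMod N) +
    P.b * ((P.tab r k).2.2 : ZMod N))) ∈ P.tiles
  v3 : ∀ t ∈ P.tiles, -P.s ≤ t.1 ∧ t.1 ≤ P.s
  v4 : ∀ t ∈ P.tiles, ∀ u ∈ Finset.Icc (-P.s) P.s, ∀ v ∈ Finset.Icc (-P.s) P.s, ∀ k,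
    Ins t.1 u v k → P.tab (t.2 + P.a * (u : ZMod N) + P.b * (v : ZMod N)) k = (t.1, u, v)

/-- the class of a grid point. -/
def Pat.phi (P : Pat N) (i j : ℤ) : ZMod N := P.a * (i : ZMod N) + P.b * (j : ZMod N)

/-- the tile of a cell. -/
def Pat.tid (P : Pat N) (i j : ℤ) (k : Bool) : ℤ × ℤ × ℤ :=
  ((P.tab (P.phi i j) k).1, i - (P.tab (P.phi i j) k).2.1, j - (P.tab (P.phi i j) k).2.2)

theorem tid_ins (P : Pat N) (hP : P.Valid) (i j : ℤ) (k : Bool) (σ c1 c2 : ℤ)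
    (h : P.tid i j k = (σ, c1, c2)) :
    (σ, P.phi c1 c2) ∈ P.tiles ∧ Ins σ (i - c1) (j - c2) k := by
  unfold Pat.tid at h
  rw [Prod.mk.injEq, Prod.mk.injEq] at h
  obtain ⟨h1, h2, h3⟩ := h
  have hv1 := hP.v1 (P.phi i j) k
  have hv2 := hP.v2 (P.phi i j) k
  have e1 : i - c1 = (P.tab (P.phi i j) k).2.1 := by omega
  have e2 : j - c2 = (P.tab (P.phi i j) k).2.2 := by omega
  refine ⟨?_, ?_⟩
  · have e3 : P.phi c1 c2 = P.phi i j - (P.a * ((P.tab (P.phi i j) k).2.1 : ZMod N) +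
        P.b * ((P.tab (P.phi i j) k).2.2 : ZMod N)) := by
      rw [← e1, ← e2]
      unfold Pat.phi
      push_cast
      ring
    rw [e3, ← h1]
    exact hv2
  · rw [e1, e2, ← h1]
    exact hv1

theorem ins_tid (P : Pat N) (hP : P.Valid) (i j : ℤ) (k : Bool) (σ c1 c2 : ℤ)
    (ht : (σ, P.phi c1 c2) ∈ P.tiles) (h : Ins σ (i - c1) (j - c2) k) :
    P.tid i j k = (σ, c1, c2) := by
  obtain ⟨hs1, hs2⟩ := hP.v3 _ ht
  simp only at hs1 hs2
  have hu : (i - c1) ∈ Finset.Icc (-P.s) P.s ∧ (j - c2) ∈ Finset.Icc (-P.s) P.s := by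
    rw [Finset.mem_Icc, Finset.mem_Icc]
    unfold Ins at h
    rcases h with ⟨h1, h2, h3, h4⟩ | ⟨h1, h2, h3, h4⟩
    · have h5 : (i - c1) + (j - c2) + 1 ≤ σ := by
        cases k
        · simp at h4; omega
        · simpa using h4
      constructor <;> constructor <;> omega
    · have h5 : σ ≤ (i - c1) + (j - c2) + 1 := by
        cases k
        · simpa using h4
        · simp at h4; omega
      constructor <;> constructor <;> omega
  have h1 := hP.v4 _ ht _ hu.1 _ hu.2 k h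
  have e1 : P.phi c1 c2 + P.a * ((i - c1 : ℤ) : ZMod N) + P.b * ((j - c2 : ℤ) : ZMod N) =
      P.phi i j := by
    unfold Pat.phi
    push_cast
    ring
  simp only at h1
  rw [e1] at h1
  unfold Pat.tid
  rw [h1]
  simp

/-! ### Tiles -/

/-- the tile of signed size `σ` with corner `(i, j)`. -/
def T (e f : E) (σ i j : ℤ) : Set E :=
  Tri ((i : ℝ) • e + (j : ℝ) • f) ((σ : ℝ) • e) ((σ : ℝ) • f)

theorem Tgen (e f : E) (X Y : E → ℝ) (hX : Continuous X) (hY : Continuous Y)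
    (hXY : ∀ p, p = X p • e + Y p • f)
    (huniq : ∀ p x y, p = x • e + y • f → x = X p ∧ y = Y p) (c p : E) (σ : ℝ) (hσ : 0 < σ) :
    (p ∈ Tri c (σ • e) (σ • f) ↔ X c ≤ X p ∧ Y c ≤ Y p ∧ X p + Y p ≤ X c + Y c + σ) ∧
    (p ∈ interior (Tri c (σ • e) (σ • f)) ↔
      X c < X p ∧ Y c < Y p ∧ X p + Y p < X c + Y c + σ) := by
  have hXY' : ∀ p, p = (X p / σ) • (σ • e) + (Y p / σ) • (σ • f) := by
    intro p
    rw [smul_smul, smul_smul, div_mul_cancel₀ _ hσ.ne', div_mul_cancel₀ _ hσ.ne']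
    exact hXY p
  have huniq' : ∀ p x y, p = x • (σ • e) + y • (σ • f) → x = X p / σ ∧ y = Y p / σ := by
    intro p x y hp
    rw [smul_smul, smul_smul] at hp
    obtain ⟨h1, h2⟩ := huniq _ _ _ hp
    rw [← h1, ← h2]
    constructor <;> field_simp
  rw [TriTile.tri_mem (σ • e) (σ • f) (fun p => X p / σ) (fun p => Y p / σ) hXY' huniq',
    TriTile.tri_int (σ • e) (σ • f) (fun p => X p / σ) (fun p => Y p / σ)
      (hX.div_const σ) (hY.div_const σ) hXY' huniq']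
  rw [← sub_div, ← sub_div, ← add_div]
  constructor
  · rw [div_le_one hσ]
    constructor
    · rintro ⟨h1, h2, h3⟩
      rw [le_div_iff₀ hσ, zero_mul] at h1 h2
      exact ⟨by linarith, by linarith, by linarith⟩
    · rintro ⟨h1, h2, h3⟩
      rw [le_div_iff₀ hσ, le_div_iff₀ hσ, zero_mul]
      exact ⟨by linarith, by linarith, by linarith⟩
  · rw [div_lt_one hσ]
    constructor
    · rintro ⟨h1, h2, h3⟩
      rw [lt_div_iff₀ hσ, zero_mul] at h1 h2
      exact ⟨by linarith, by linarith, by linarith⟩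
    · rintro ⟨h1, h2, h3⟩
      rw [lt_div_iff₀ hσ, lt_div_iff₀ hσ, zero_mul]
      exact ⟨by linarith, by linarith, by linarith⟩

/-- the integer does not separate nearby points from `x`. -/
theorem near (x : ℝ) : ∃ ε > 0, ∀ x' : ℝ, |x' - x| < ε → ∀ m : ℤ,
    ((m : ℝ) ≤ x' → (m : ℝ) ≤ x) ∧ (x' ≤ m → x ≤ m) := by
  have h1 := Int.lt_floor_add_one x
  have h2 := Int.ceil_lt_add_one x
  refine ⟨min (⌊x⌋ + 1 - x) (x - (⌈x⌉ - 1)), lt_min (by linarith) (by linarith), ?_⟩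
  intro x' hx' m
  rw [lt_min_iff, abs_lt, abs_lt] at hx'
  constructor
  · intro hm
    have h3 : (m : ℝ) < ⌊x⌋ + 1 := by linarith [hx'.1.2]
    have h4 : m < ⌊x⌋ + 1 := by exact_mod_cast h3
    have h5 : m ≤ ⌊x⌋ := by omega
    exact (Int.cast_le.2 h5).trans (Int.floor_le x)
  · intro hm
    have h3 : (⌈x⌉ : ℝ) - 1 < m := by linarith [hx'.2.1]
    have h4 : ⌈x⌉ - 1 < m := by exact_mod_cast h3
    have h5 : ⌈x⌉ ≤ m := by omega
    exact (Int.le_ceil x).trans (Int.cast_le.2 h5)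

theorem not_int (a c : ℝ) (hc : 0 < c) : ∀ᶠ t in 𝓝[>] (0 : ℝ), ∀ m : ℤ, a + c * t ≠ m := by
  have h1 := Int.lt_floor_add_one a
  have h2 := Int.floor_le a
  have h3 : (0 : ℝ) < (⌊a⌋ + 1 - a) / c := div_pos (by linarith) hc
  have h4 : Ioo 0 ((⌊a⌋ + 1 - a) / c) ∈ 𝓝[>] (0 : ℝ) := Ioo_mem_nhdsGT h3
  filter_upwards [h4] with t ht m hm
  obtain ⟨ht1, ht2⟩ := ht
  rw [lt_div_iff₀ hc] at ht2
  have h5 : 0 < c * t := mul_pos hc ht1
  have h6 : (⌊a⌋ : ℝ) < m := by rw [← hm]; linarith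
  have h7 : (m : ℝ) < ⌊a⌋ + 1 := by rw [← hm]; linarith
  have h8 : ⌊a⌋ < m := by exact_mod_cast h6
  have h9 : m < ⌊a⌋ + 1 := by exact_mod_cast h7
  omega

/-! ### The interpolation -/

/-- piecewise affine interpolation of a function on the grid. -/
noncomputable def interp (g : ℤ → ℤ → ℝ) (x y : ℝ) : ℝ :=
  if (x - ⌊x⌋) + (y - ⌊y⌋) ≤ 1 then
    g ⌊x⌋ ⌊y⌋ + (x - ⌊x⌋) * (g (⌊x⌋ + 1) ⌊y⌋ - g ⌊x⌋ ⌊y⌋) +
      (y - ⌊y⌋) * (g ⌊x⌋ (⌊y⌋ + 1) - g ⌊x⌋ ⌊y⌋)
  else
    g (⌊x⌋ + 1) (⌊y⌋ + 1) + (1 - (x - ⌊x⌋)) * (g ⌊x⌋ (⌊y⌋ + 1) - g (⌊x⌋ + 1) (⌊y⌋ + 1)) +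
      (1 - (y - ⌊y⌋)) * (g (⌊x⌋ + 1) ⌊y⌋ - g (⌊x⌋ + 1) (⌊y⌋ + 1))

theorem interp_int (g : ℤ → ℤ → ℝ) (i j : ℤ) : interp g i j = g i j := by
  unfold interp
  rw [Int.floor_intCast, Int.floor_intCast, if_pos (by linarith)]
  ring

theorem interp_E1 (g : ℤ → ℤ → ℝ) (x y : ℝ) (i j : ℤ) (hy : y = j) (h1 : (i : ℝ) ≤ x)
    (h2 : x ≤ i + 1) : interp g x y = g i j + (x - i) * (g (i + 1) j - g i j) := by
  rcases eq_or_lt_of_le h2 with h | h
  · have hx : x = ((i + 1 : ℤ) : ℝ) := by push_cast; exact h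
    rw [hy, hx, interp_int]
    push_cast; ring
  · have hfx : ⌊x⌋ = i := by rw [Int.floor_eq_iff]; exact ⟨h1, h⟩
    have hfy : ⌊y⌋ = j := by rw [hy, Int.floor_intCast]
    unfold interp
    rw [hfx, hfy, hy, if_pos (by linarith)]
    ring

theorem interp_E2 (g : ℤ → ℤ → ℝ) (x y : ℝ) (i j : ℤ) (hx : x = i) (h1 : (j : ℝ) ≤ y)
    (h2 : y ≤ j + 1) : interp g x y = g i j + (y - j) * (g i (j + 1) - g i j) := by
  rcases eq_or_lt_of_le h2 with h | h
  · have hy : y = ((j + 1 : ℤ) : ℝ) := by push_cast; exact h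
    rw [hy, hx, interp_int]
    push_cast; ring
  · have hfy : ⌊y⌋ = j := by rw [Int.floor_eq_iff]; exact ⟨h1, h⟩
    have hfx : ⌊x⌋ = i := by rw [hx, Int.floor_intCast]
    unfold interp
    rw [hfx, hfy, hx, if_pos (by linarith)]
    ring

theorem interp_E3 (g : ℤ → ℤ → ℝ) (x y : ℝ) (i j : ℤ) (hxy : x + y = i + j + 1)
    (h1 : (i : ℝ) ≤ x) (h2 : x ≤ i + 1) :
    interp g x y = g i (j + 1) + (x - i) * (g (i + 1) j - g i (j + 1)) := by
  rcases eq_or_lt_of_le h1 with h | h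
  · have hy : y = ((j + 1 : ℤ) : ℝ) := by push_cast; linarith
    rw [hy, ← h, interp_int]
    ring
  rcases eq_or_lt_of_le h2 with h' | h'
  · have hx : x = ((i + 1 : ℤ) : ℝ) := by push_cast; exact h'
    have hy : y = j := by linarith
    rw [hy, hx, interp_int]
    push_cast; ring
  have hfx : ⌊x⌋ = i := by rw [Int.floor_eq_iff]; exact ⟨h.le, h'⟩
  have hfy : ⌊y⌋ = j := by rw [Int.floor_eq_iff]; constructor <;> linarith
  unfold interp
  rw [hfx, hfy, if_pos (by linarith)]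
  have hy : y = i + j + 1 - x := by linarith
  rw [hy]
  ring

theorem interp_bdd (α β B : ℝ) (h : ℤ → ℤ → ℝ) (hB : ∀ i j, |h i j| ≤ B) (x y : ℝ) :
    |interp (fun i j => α * i + β * j + h i j) x y - (α * x + β * y)| ≤ B := by
  have hx1 := Int.floor_le x
  have hx2 := Int.lt_floor_add_one x
  have hy1 := Int.floor_le y
  have hy2 := Int.lt_floor_add_one y
  unfold interp
  set i := ⌊x⌋
  set j := ⌊y⌋
  obtain ⟨a1, a2⟩ := abs_le.1 (hB i j)
  obtain ⟨b1, b2⟩ := abs_le.1 (hB (i + 1) j)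
  obtain ⟨c1, c2⟩ := abs_le.1 (hB i (j + 1))
  obtain ⟨d1, d2⟩ := abs_le.1 (hB (i + 1) (j + 1))
  push_cast
  split_ifs with hs
  · have e1 : α * i + β * j + h i j + (x - i) * (α * (i + 1) + β * j + h (i + 1) j -
        (α * i + β * j + h i j)) + (y - j) * (α * i + β * (j + 1) + h i (j + 1) -
        (α * i + β * j + h i j)) - (α * x + β * y) =
        (1 - (x - i) - (y - j)) * h i j + (x - i) * h (i + 1) j + (y - j) * h i (j + 1) := by
      ring
    rw [e1, abs_le]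
    have w1 : 0 ≤ 1 - (x - i) - (y - j) := by linarith
    have w2 : 0 ≤ x - i := by linarith
    have w3 : 0 ≤ y - j := by linarith
    constructor
    · have := mul_le_mul_of_nonneg_left a1 w1
      have := mul_le_mul_of_nonneg_left b1 w2
      have := mul_le_mul_of_nonneg_left c1 w3
      nlinarith
    · have := mul_le_mul_of_nonneg_left a2 w1
      have := mul_le_mul_of_nonneg_left b2 w2
      have := mul_le_mul_of_nonneg_left c2 w3
      nlinarith
  · have e1 : α * (i + 1) + β * (j + 1) + h (i + 1) (j + 1) +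
        (1 - (x - i)) * (α * i + β * (j + 1) + h i (j + 1) -
        (α * (i + 1) + β * (j + 1) + h (i + 1) (j + 1))) +
        (1 - (y - j)) * (α * (i + 1) + β * j + h (i + 1) j -
        (α * (i + 1) + β * (j + 1) + h (i + 1) (j + 1))) - (α * x + β * y) =
        ((x - i) + (y - j) - 1) * h (i + 1) (j + 1) + (1 - (x - i)) * h i (j + 1) +
          (1 - (y - j)) * h (i + 1) j := by
      ring
    rw [e1, abs_le]
    push Not at hs
    have w1 : 0 ≤ (x - i) + (y - j) - 1 := by linarith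
    have w2 : 0 ≤ 1 - (x - i) := by linarith
    have w3 : 0 ≤ 1 - (y - j) := by linarith
    constructor
    · have := mul_le_mul_of_nonneg_left d1 w1
      have := mul_le_mul_of_nonneg_left c1 w2
      have := mul_le_mul_of_nonneg_left b1 w3
      nlinarith
    · have := mul_le_mul_of_nonneg_left d2 w1
      have := mul_le_mul_of_nonneg_left c2 w2
      have := mul_le_mul_of_nonneg_left b2 w3
      nlinarith

/-! ### Geometry of the tiles -/

section
variable (e f : E) (X Y : E → ℝ) (hX : Continuous X) (hY : Continuous Y)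
  (hXY : ∀ p, p = X p • e + Y p • f)
  (huniq : ∀ p x y, p = x • e + y • f → x = X p ∧ y = Y p)

include hX hY hXY huniq in
theorem T_pos (σ i j : ℤ) (hσ : 0 < σ) (p : E) :
    (p ∈ T e f σ i j ↔ (i : ℝ) ≤ X p ∧ (j : ℝ) ≤ Y p ∧ X p + Y p ≤ i + j + σ) ∧
    (p ∈ interior (T e f σ i j) ↔ (i : ℝ) < X p ∧ (j : ℝ) < Y p ∧ X p + Y p < i + j + σ) := by
  have hσ' : (0 : ℝ) < σ := by exact_mod_cast hσ
  obtain ⟨h1, h2⟩ := huniq ((i : ℝ) • e + (j : ℝ) • f) _ _ rfl
  have h := Tgen e f X Y hX hY hXY huniq ((i : ℝ) • e + (j : ℝ) • f) p σ hσ'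
  rw [← h1, ← h2] at h
  exact h

include hX hY hXY huniq in
theorem T_neg (σ i j : ℤ) (hσ : σ < 0) (p : E) :
    (p ∈ T e f σ i j ↔ X p ≤ i ∧ Y p ≤ j ∧ (i : ℝ) + j + σ ≤ X p + Y p) ∧
    (p ∈ interior (T e f σ i j) ↔ X p < i ∧ Y p < j ∧ (i : ℝ) + j + σ < X p + Y p) := by
  have hσ' : (0 : ℝ) < -σ := by
    have : (σ : ℝ) < 0 := by exact_mod_cast hσ
    linarith
  have hXY' : ∀ p, p = (-X p) • (-e) + (-Y p) • (-f) := by
    intro p
    conv_lhs => rw [hXY p]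
    module
  have huniq' : ∀ p x y, p = x • (-e) + y • (-f) → x = -X p ∧ y = -Y p := by
    intro p x y hp
    have : p = (-x) • e + (-y) • f := by rw [hp]; module
    obtain ⟨h1, h2⟩ := huniq _ _ _ this
    exact ⟨by linarith, by linarith⟩
  obtain ⟨h1, h2⟩ := huniq ((i : ℝ) • e + (j : ℝ) • f) _ _ rfl
  have h := Tgen (-e) (-f) (fun p => -X p) (fun p => -Y p) hX.neg hY.neg hXY' huniq'
    ((i : ℝ) • e + (j : ℝ) • f) p (-σ) hσ'
  rw [← h1, ← h2] at h
  have e1 : (-(σ : ℝ)) • (-e) = (σ : ℝ) • e := by module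
  have e2 : (-(σ : ℝ)) • (-f) = (σ : ℝ) • f := by module
  rw [e1, e2] at h
  unfold T
  rw [h.1, h.2]
  constructor
  · constructor
    · rintro ⟨a1, a2, a3⟩; exact ⟨by linarith, by linarith, by linarith⟩
    · rintro ⟨a1, a2, a3⟩; exact ⟨by linarith, by linarith, by linarith⟩
  · constructor
    · rintro ⟨a1, a2, a3⟩; exact ⟨by linarith, by linarith, by linarith⟩
    · rintro ⟨a1, a2, a3⟩; exact ⟨by linarith, by linarith, by linarith⟩

/-- the open cell. -/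
def Cell (x y : ℝ) (i j : ℤ) (k : Bool) : Prop :=
  (i : ℝ) < x ∧ x < i + 1 ∧ (j : ℝ) < y ∧ y < j + 1 ∧
    (if k then x + y < i + j + 1 else i + j + 1 < x + y)

include hX hY hXY huniq in
theorem ins_of_cell (σ c1 c2 i j : ℤ) (k : Bool) (hσ : σ ≠ 0) (p : E)
    (hc : Cell (X p) (Y p) i j k) (hp : p ∈ interior (T e f σ c1 c2)) :
    Ins σ (i - c1) (j - c2) k := by
  obtain ⟨a1, a2, a3, a4, a5⟩ := hc
  rcases lt_or_gt_of_ne hσ with h | h
  · rw [(T_neg e f X Y hX hY hXY huniq σ c1 c2 h p).2] at hp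
    obtain ⟨b1, b2, b3⟩ := hp
    have g1 : (i : ℝ) < c1 := by linarith
    have g2 : (j : ℝ) < c2 := by linarith
    have g1' : i < c1 := by exact_mod_cast g1
    have g2' : j < c2 := by exact_mod_cast g2
    right
    refine ⟨h, by omega, by omega, ?_⟩
    cases k
    · have g3 : (c1 : ℝ) + c2 + σ < i + j + 2 := by linarith
      have g3' : c1 + c2 + σ < i + j + 2 := by exact_mod_cast g3
      simp; omega
    · simp only [if_true] at a5
      have g3 : (c1 : ℝ) + c2 + σ < i + j + 1 := by linarith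
      have g3' : c1 + c2 + σ < i + j + 1 := by exact_mod_cast g3
      simp; omega
  · rw [(T_pos e f X Y hX hY hXY huniq σ c1 c2 h p).2] at hp
    obtain ⟨b1, b2, b3⟩ := hp
    have g1 : (c1 : ℝ) < i + 1 := by linarith
    have g2 : (c2 : ℝ) < j + 1 := by linarith
    have g1' : c1 < i + 1 := by exact_mod_cast g1
    have g2' : c2 < j + 1 := by exact_mod_cast g2
    left
    refine ⟨h, by omega, by omega, ?_⟩
    cases k
    · simp only [Bool.false_eq_true, if_false] at a5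
      have g3 : (i : ℝ) + j + 1 < c1 + c2 + σ := by linarith
      have g3' : i + j + 1 < c1 + c2 + σ := by exact_mod_cast g3
      simp; omega
    · have g3 : (i : ℝ) + j < c1 + c2 + σ := by linarith
      have g3' : i + j < c1 + c2 + σ := by exact_mod_cast g3
      simp; omega

/-- inequalities between integers as inequalities between reals. -/
theorem ins_real (σ c1 c2 i j : ℤ) (k : Bool) (h : Ins σ (i - c1) (j - c2) k) :
    (0 < σ ∧ (c1 : ℝ) ≤ i ∧ (c2 : ℝ) ≤ j ∧ (i : ℝ) + j + (if k then 1 else 2) ≤ c1 + c2 + σ) ∨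
    (σ < 0 ∧ (i : ℝ) + 1 ≤ c1 ∧ (j : ℝ) + 1 ≤ c2 ∧
      (c1 : ℝ) + c2 + σ ≤ i + j + (if k then 0 else 1)) := by
  rcases h with ⟨h1, h2, h3, h4⟩ | ⟨h1, h2, h3, h4⟩
  · left
    refine ⟨h1, ?_, ?_, ?_⟩
    · have : c1 ≤ i := by omega
      exact_mod_cast this
    · have : c2 ≤ j := by omega
      exact_mod_cast this
    · cases k
      · have h5 : i + j + 2 ≤ c1 + c2 + σ := by simp at h4; omega
        simp only [Bool.false_eq_true, if_false]
        exact_mod_cast h5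
      · have h5 : i + j + 1 ≤ c1 + c2 + σ := by simp at h4; omega
        simp only [if_true]
        exact_mod_cast h5
  · right
    refine ⟨h1, ?_, ?_, ?_⟩
    · have : i + 1 ≤ c1 := by omega
      exact_mod_cast this
    · have : j + 1 ≤ c2 := by omega
      exact_mod_cast this
    · cases k
      · have h5 : c1 + c2 + σ ≤ i + j + 1 := by simp at h4; omega
        simp only [Bool.false_eq_true, if_false]
        exact_mod_cast h5
      · have h5 : c1 + c2 + σ ≤ i + j := by simp at h4; omega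
        simp only [if_true, add_zero]
        exact_mod_cast h5

theorem ins_ne (σ u v : ℤ) (k : Bool) (h : Ins σ u v k) : σ ≠ 0 := by
  rcases h with h | h
  · exact ne_of_gt h.1
  · exact ne_of_lt h.1

/-- the tiles of the pattern. -/
def IsT (P : Pat N) (e f : E) (K : Set E) : Prop :=
  ∃ σ c1 c2 : ℤ, σ ≠ 0 ∧ (σ, P.phi c1 c2) ∈ P.tiles ∧ K = T e f σ c1 c2

include hX hY hXY huniq in
theorem generic (U : Set E) (hU : IsOpen U) (p : E) (hp : p ∈ U) :
    ∃ q ∈ U, ∃ (i j : ℤ) (k : Bool), Cell (X q) (Y q) i j k := by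
  have hsh : ∀ t : ℝ, X (p + t • (e + f)) = X p + 1 * t ∧ Y (p + t • (e + f)) = Y p + 1 * t := by
    intro t
    have hp := hXY p
    have : p + t • (e + f) = (X p + 1 * t) • e + (Y p + 1 * t) • f := by
      conv_lhs => rw [hp]
      module
    obtain ⟨h1, h2⟩ := huniq _ _ _ this
    exact ⟨h1.symm, h2.symm⟩
  have hc : Tendsto (fun s : ℝ => p + s • (e + f)) (𝓝 0) (𝓝 (p + (0 : ℝ) • (e + f))) :=
    (by fun_prop : Continuous fun s : ℝ => p + s • (e + f)).tendsto 0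
  rw [zero_smul, add_zero] at hc
  have h1 : ∀ᶠ s in 𝓝[>] (0 : ℝ), p + s • (e + f) ∈ U :=
    (hc.eventually (hU.mem_nhds hp)).filter_mono nhdsWithin_le_nhds
  have h2 := not_int (X p) 1 one_pos
  have h3 := not_int (Y p) 1 one_pos
  have h4 := not_int (X p + Y p) 2 two_pos
  obtain ⟨t, ⟨⟨ht1, ht2⟩, ht3⟩, ht4⟩ := (((h1.and h2).and h3).and h4).exists
  refine ⟨p + t • (e + f), ht1, ?_⟩
  rw [(hsh t).1, (hsh t).2]
  set x := X p + 1 * t with hx
  set y := Y p + 1 * t with hy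
  have hxy : X p + Y p + 2 * t = x + y := by rw [hx, hy]; ring
  rw [hxy] at ht4
  have b1 : (⌊x⌋ : ℝ) < x := lt_of_le_of_ne (Int.floor_le x) (fun h => ht2 ⌊x⌋ h.symm)
  have b2 : (⌊y⌋ : ℝ) < y := lt_of_le_of_ne (Int.floor_le y) (fun h => ht3 ⌊y⌋ h.symm)
  have b3 : x + y ≠ ⌊x⌋ + ⌊y⌋ + 1 := by
    have := ht4 (⌊x⌋ + ⌊y⌋ + 1)
    push_cast at this
    exact this
  rcases lt_or_gt_of_ne b3 with h | h
  · exact ⟨⌊x⌋, ⌊y⌋, true, b1, Int.lt_floor_add_one x, b2, Int.lt_floor_add_one y, by simpa using h⟩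
  · exact ⟨⌊x⌋, ⌊y⌋, false, b1, Int.lt_floor_add_one x, b2, Int.lt_floor_add_one y,
      by simpa using h⟩

include hX hY hXY huniq in
theorem tile_disjoint (P : Pat N) (hP : P.Valid) (K K' : Set E) (hK : IsT P e f K)
    (hK' : IsT P e f K') (hne : K ≠ K') : Disjoint (interior K) (interior K') := by
  rw [Set.disjoint_left]
  intro p hp hp'
  obtain ⟨σ, c1, c2, hσ, ht, rfl⟩ := hK
  obtain ⟨σ', c1', c2', hσ', ht', rfl⟩ := hK'
  obtain ⟨q, ⟨hq1, hq2⟩, i, j, k, hc⟩ := generic e f X Y hX hY hXY huniq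
    (interior (T e f σ c1 c2) ∩ interior (T e f σ' c1' c2'))
    (isOpen_interior.inter isOpen_interior) p ⟨hp, hp'⟩
  have h1 := ins_of_cell e f X Y hX hY hXY huniq σ c1 c2 i j k hσ q hc hq1
  have h2 := ins_of_cell e f X Y hX hY hXY huniq σ' c1' c2' i j k hσ' q hc hq2
  have h3 := ins_tid P hP i j k σ c1 c2 ht h1
  have h4 := ins_tid P hP i j k σ' c1' c2' ht' h2
  rw [h3, Prod.mk.injEq, Prod.mk.injEq] at h4
  obtain ⟨rfl, rfl, rfl⟩ := h4
  exact hne rfl

include hX hY hXY huniq in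
theorem tile_bound (P : Pat N) (hP : P.Valid) (K : Set E) (σ c1 c2 : ℤ) (hσ : σ ≠ 0)
    (ht : (σ, P.phi c1 c2) ∈ P.tiles) (hK : K = T e f σ c1 c2) (p : E) (hp : p ∈ K) :
    |X p - c1| ≤ P.s ∧ |Y p - c2| ≤ P.s := by
  obtain ⟨s1, s2⟩ := hP.v3 _ ht
  simp only at s1 s2
  have s1' : -(P.s : ℝ) ≤ σ := by exact_mod_cast s1
  have s2' : (σ : ℝ) ≤ P.s := by exact_mod_cast s2
  rw [hK] at hp
  rcases lt_or_gt_of_ne hσ with h | h
  · rw [(T_neg e f X Y hX hY hXY huniq σ c1 c2 h p).1] at hp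
    obtain ⟨b1, b2, b3⟩ := hp
    rw [abs_le, abs_le]
    refine ⟨⟨?_, ?_⟩, ?_, ?_⟩ <;> linarith
  · rw [(T_pos e f X Y hX hY hXY huniq σ c1 c2 h p).1] at hp
    obtain ⟨b1, b2, b3⟩ := hp
    rw [abs_le, abs_le]
    refine ⟨⟨?_, ?_⟩, ?_, ?_⟩ <;> linarith

include hX hY hXY huniq in
theorem tile_body (P : Pat N) (K : Set E) (hK : IsT P e f K) :
    IsCompact K ∧ Convex ℝ K ∧ (interior K).Nonempty := by
  obtain ⟨σ, c1, c2, hσ, ht, rfl⟩ := hK
  refine ⟨TriTile.tri_compact _ _ _, TriTile.tri_convex _ _ _,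
    ⟨((c1 : ℝ) + σ / 3) • e + ((c2 : ℝ) + σ / 3) • f, ?_⟩⟩
  obtain ⟨h1, h2⟩ := huniq _ _ _ (rfl : ((c1 : ℝ) + σ / 3) • e + ((c2 : ℝ) + σ / 3) • f = _)
  rcases lt_or_gt_of_ne hσ with h | h
  · have h' : (σ : ℝ) < 0 := by exact_mod_cast h
    rw [(T_neg e f X Y hX hY hXY huniq σ c1 c2 h _).2, ← h1, ← h2]
    refine ⟨by linarith, by linarith, by linarith⟩
  · have h' : (0 : ℝ) < σ := by exact_mod_cast h
    rw [(T_pos e f X Y hX hY hXY huniq σ c1 c2 h _).2, ← h1, ← h2]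
    refine ⟨by linarith, by linarith, by linarith⟩

theorem tile_similar (P : Pat N) (K : Set E) (hK : IsT P e f K) : IsSimilar (Tri 0 e f) K := by
  obtain ⟨σ, c1, c2, hσ, ht, rfl⟩ := hK
  unfold T
  set c : E := (c1 : ℝ) • e + (c2 : ℝ) • f
  rcases lt_or_gt_of_ne hσ with h | h
  · have h' : (σ : ℝ) < 0 := by exact_mod_cast h
    refine ⟨-(σ : ℝ), LinearIsometryEquiv.neg ℝ, c, by linarith, ?_⟩
    ext p
    constructor
    · rintro ⟨s, t, hs, ht, hst, rfl⟩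
      exact ⟨0 + s • e + t • f, ⟨s, t, hs, ht, hst, rfl⟩, by
        simp only [LinearIsometryEquiv.coe_neg]; module⟩
    · rintro ⟨_, ⟨s, t, hs, ht, hst, rfl⟩, rfl⟩
      exact ⟨s, t, hs, ht, hst, by simp only [LinearIsometryEquiv.coe_neg]; module⟩
  · have h' : (0 : ℝ) < σ := by exact_mod_cast h
    refine ⟨(σ : ℝ), LinearIsometryEquiv.refl ℝ E, c, h', ?_⟩
    ext p
    constructor
    · rintro ⟨s, t, hs, ht, hst, rfl⟩
      exact ⟨0 + s • e + t • f, ⟨s, t, hs, ht, hst, rfl⟩, by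
        simp only [LinearIsometryEquiv.coe_refl, id]; module⟩
    · rintro ⟨_, ⟨s, t, hs, ht, hst, rfl⟩, rfl⟩
      exact ⟨s, t, hs, ht, hst, by simp only [LinearIsometryEquiv.coe_refl, id]; module⟩

include hX hY hXY huniq in
theorem tile_locFin (P : Pat N) (hP : P.Valid) (R : ℝ) :
    {K : Set E | IsT P e f K ∧ (K ∩ Metric.closedBall 0 R).Nonempty}.Finite := by
  have hc : IsCompact (Metric.closedBall (0 : E) R) := isCompact_closedBall 0 R
  obtain ⟨B1, hB1⟩ := hc.exists_bound_of_continuousOn hX.continuousOn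
  obtain ⟨B2, hB2⟩ := hc.exists_bound_of_continuousOn hY.continuousOn
  set M1 : ℤ := ⌈|B1| + P.s⌉ with hM1
  set M2 : ℤ := ⌈|B2| + P.s⌉ with hM2
  have hfin : ((fun z : ℤ × ℤ × ℤ => T e f z.1 z.2.1 z.2.2) ''
      (Icc (-P.s) P.s ×ˢ (Icc (-M1) M1 ×ˢ Icc (-M2) M2))).Finite :=
    ((finite_Icc _ _).prod ((finite_Icc _ _).prod (finite_Icc _ _))).image _
  refine hfin.subset ?_
  rintro K ⟨⟨σ, c1, c2, hσ, ht, hK⟩, p, hp, hpR⟩
  obtain ⟨h1, h2⟩ := tile_bound e f X Y hX hY hXY huniq P hP K σ c1 c2 hσ ht hK p hp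
  have h3 := hB1 p hpR
  have h4 := hB2 p hpR
  rw [Real.norm_eq_abs, abs_le] at h3 h4
  rw [abs_le] at h1 h2
  have g1 := le_abs_self B1
  have g2 := le_abs_self B2
  have g3 : |B1| + P.s ≤ M1 := Int.le_ceil _
  have g4 : |B2| + P.s ≤ M2 := Int.le_ceil _
  refine ⟨(σ, c1, c2), ⟨?_, ?_, ?_⟩, hK.symm⟩
  · exact ⟨(hP.v3 _ ht).1, (hP.v3 _ ht).2⟩
  · have a1 : -(M1 : ℝ) ≤ c1 := by linarith
    have a2 : (c1 : ℝ) ≤ M1 := by linarith
    exact ⟨by exact_mod_cast a1, by exact_mod_cast a2⟩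
  · have a1 : -(M2 : ℝ) ≤ c2 := by linarith
    have a2 : (c2 : ℝ) ≤ M2 := by linarith
    exact ⟨by exact_mod_cast a1, by exact_mod_cast a2⟩

theorem tile_diam (P : Pat N) (hP : P.Valid) (K : Set E) (hK : IsT P e f K) (p q : E)
    (hp : p ∈ K) (hq : q ∈ K) : ‖p - q‖ ≤ P.s * (‖e‖ + ‖f‖) := by
  obtain ⟨σ, c1, c2, hσ, ht, rfl⟩ := hK
  obtain ⟨s1, s2⟩ := hP.v3 _ ht
  simp only at s1 s2
  have s1' : -(P.s : ℝ) ≤ σ := by exact_mod_cast s1
  have s2' : (σ : ℝ) ≤ P.s := by exact_mod_cast s2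
  have h := TriTile.tri_diam _ _ _ p q hp hq
  rw [norm_smul, norm_smul, Real.norm_eq_abs] at h
  have h3 : |(σ : ℝ)| ≤ P.s := abs_le.2 ⟨s1', s2'⟩
  have h4 : |(σ : ℝ)| * ‖e‖ ≤ P.s * ‖e‖ := mul_le_mul_of_nonneg_right h3 (norm_nonneg _)
  have h5 : |(σ : ℝ)| * ‖f‖ ≤ P.s * ‖f‖ := mul_le_mul_of_nonneg_right h3 (norm_nonneg _)
  linarith

/-! ### The free edges -/

/-- the edges between different tiles. -/
def Pat.F1 (P : Pat N) (i j : ℤ) : Prop := P.tid i j true ≠ P.tid i (j - 1) false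
def Pat.F2 (P : Pat N) (i j : ℤ) : Prop := P.tid i j true ≠ P.tid (i - 1) j false
def Pat.F3 (P : Pat N) (i j : ℤ) : Prop := P.tid i j true ≠ P.tid i j false

/-- the network. -/
def Net (P : Pat N) (x y : ℝ) : Prop :=
  ∃ i j : ℤ, (P.F1 i j ∧ y = j ∧ (i : ℝ) ≤ x ∧ x ≤ i + 1) ∨
    (P.F2 i j ∧ x = i ∧ (j : ℝ) ≤ y ∧ y ≤ j + 1) ∨
    (P.F3 i j ∧ x + y = i + j + 1 ∧ (i : ℝ) ≤ x ∧ x ≤ i + 1)

include hX hY hXY huniq in
/-- a point outside the network is an interior point of a tile. -/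
theorem exists_tile (P : Pat N) (hP : P.Valid) (p : E) (hp : ¬ Net P (X p) (Y p)) :
    ∃ K, IsT P e f K ∧ p ∈ interior K := by
  set x := X p with hx
  set y := Y p with hy
  set i := ⌊x⌋ with hi
  set j := ⌊y⌋ with hj
  have hx1 : (i : ℝ) ≤ x := Int.floor_le x
  have hx2 : x < i + 1 := Int.lt_floor_add_one x
  have hy1 : (j : ℝ) ≤ y := Int.floor_le y
  have hy2 : y < j + 1 := Int.lt_floor_add_one y
  -- reduction to inequalities
  have fin : ∀ σ c1 c2 : ℤ, (σ, P.phi c1 c2) ∈ P.tiles →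
      ((0 < σ ∧ (c1 : ℝ) < x ∧ (c2 : ℝ) < y ∧ x + y < c1 + c2 + σ) ∨
      (σ < 0 ∧ x < c1 ∧ y < c2 ∧ (c1 : ℝ) + c2 + σ < x + y)) →
      ∃ K, IsT P e f K ∧ p ∈ interior K := by
    intro σ c1 c2 ht h
    rcases h with ⟨h0, h⟩ | ⟨h0, h⟩
    · refine ⟨T e f σ c1 c2, ⟨σ, c1, c2, ne_of_gt h0, ht, rfl⟩, ?_⟩
      rw [(T_pos e f X Y hX hY hXY huniq σ c1 c2 h0 p).2]
      exact h
    · refine ⟨T e f σ c1 c2, ⟨σ, c1, c2, ne_of_lt h0, ht, rfl⟩, ?_⟩
      rw [(T_neg e f X Y hX hY hXY huniq σ c1 c2 h0 p).2]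
      exact h
  have get : ∀ (i j : ℤ) (k : Bool) (σ c1 c2 : ℤ), P.tid i j k = (σ, c1, c2) →
      (0 < σ ∧ (c1 : ℝ) ≤ i ∧ (c2 : ℝ) ≤ j ∧ (i : ℝ) + j + (if k then 1 else 2) ≤ c1 + c2 + σ) ∨
      (σ < 0 ∧ (i : ℝ) + 1 ≤ c1 ∧ (j : ℝ) + 1 ≤ c2 ∧
      (c1 : ℝ) + c2 + σ ≤ i + j + (if k then 0 else 1)) := fun i j k σ c1 c2 h =>
    ins_real σ c1 c2 i j k (tid_ins P hP i j k σ c1 c2 h).2
  have tl : ∀ (i j : ℤ) (k : Bool) (σ c1 c2 : ℤ), P.tid i j k = (σ, c1, c2) →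
      (σ, P.phi c1 c2) ∈ P.tiles := fun i j k σ c1 c2 h => (tid_ins P hP i j k σ c1 c2 h).1
  obtain ⟨⟨σ, c1, c2⟩, hT⟩ : ∃ t, P.tid i j true = t := ⟨_, rfl⟩
  have g0 := get i j true σ c1 c2 hT
  simp only [if_true] at g0
  rcases eq_or_lt_of_le hx1 with hxi | hxi
  · rcases eq_or_lt_of_le hy1 with hyj | hyj
    · -- a vertex
      have f1 : P.tid i (j - 1) false = (σ, c1, c2) := by
        by_contra hne
        exact hp ⟨i, j, Or.inl ⟨fun h => hne (by rw [← h]; exact hT), hyj.symm, hx1, hx2.le⟩⟩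
      have f2 : P.tid (i - 1) j false = (σ, c1, c2) := by
        by_contra hne
        exact hp ⟨i, j, Or.inr (Or.inl ⟨fun h => hne (by rw [← h]; exact hT), hxi.symm, hy1,
          hy2.le⟩)⟩
      have f3 : P.tid i (j - 1) true = (σ, c1, c2) := by
        by_contra hne
        refine hp ⟨i, j - 1, Or.inr (Or.inr ⟨fun h => hne (by rw [h]; exact f1), ?_, hx1, hx2.le⟩)⟩
        push_cast; linarith
      have f4 : P.tid (i - 1) j true = (σ, c1, c2) := by
        by_contra hne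
        refine hp ⟨i - 1, j, Or.inr (Or.inr ⟨fun h => hne (by rw [h]; exact f2), ?_, ?_, ?_⟩)⟩
        · push_cast; linarith
        · push_cast; linarith
        · push_cast; linarith
      have f5 : P.tid (i - 1) (j - 1) false = (σ, c1, c2) := by
        by_contra hne
        refine hp ⟨i - 1, j, Or.inl ⟨fun h => hne (by rw [← h]; exact f4), hyj.symm, ?_, ?_⟩⟩
        · push_cast; linarith
        · push_cast; linarith
      have g3 := get i (j - 1) true σ c1 c2 f3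
      have g4 := get (i - 1) j true σ c1 c2 f4
      have g5 := get (i - 1) (j - 1) false σ c1 c2 f5
      simp only [if_true, Bool.false_eq_true, if_false] at g3 g4 g5
      push_cast at g3 g4 g5
      apply fin σ c1 c2 (tl i j true σ c1 c2 hT)
      rcases g0 with ⟨s0, a1, a2, a3⟩ | ⟨s0, a1, a2, a3⟩
      · left
        rcases g3 with ⟨_, b1, b2, b3⟩ | ⟨s1, _⟩
        · rcases g4 with ⟨_, d1, d2, d3⟩ | ⟨s1, _⟩
          · exact ⟨s0, by linarith, by linarith, by linarith⟩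
          · omega
        · omega
      · right
        rcases g5 with ⟨s1, _⟩ | ⟨_, b1, b2, b3⟩
        · omega
        · exact ⟨s0, by linarith, by linarith, by linarith⟩
    · -- on a vertical edge
      have f2 : P.tid (i - 1) j false = (σ, c1, c2) := by
        by_contra hne
        exact hp ⟨i, j, Or.inr (Or.inl ⟨fun h => hne (by rw [← h]; exact hT), hxi.symm, hy1,
          hy2.le⟩)⟩
      have g2 := get (i - 1) j false σ c1 c2 f2
      simp only [Bool.false_eq_true, if_false] at g2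
      push_cast at g2
      apply fin σ c1 c2 (tl i j true σ c1 c2 hT)
      rcases g0 with ⟨s0, a1, a2, a3⟩ | ⟨s0, a1, a2, a3⟩
      · left
        rcases g2 with ⟨_, b1, b2, b3⟩ | ⟨s1, _⟩
        · exact ⟨s0, by linarith, by linarith, by linarith⟩
        · omega
      · right
        rcases g2 with ⟨s1, _⟩ | ⟨_, b1, b2, b3⟩
        · omega
        · exact ⟨s0, by linarith, by linarith, by linarith⟩
  · rcases eq_or_lt_of_le hy1 with hyj | hyj
    · -- on a horizontal edge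
      have f1 : P.tid i (j - 1) false = (σ, c1, c2) := by
        by_contra hne
        exact hp ⟨i, j, Or.inl ⟨fun h => hne (by rw [← h]; exact hT), hyj.symm, hx1, hx2.le⟩⟩
      have g1 := get i (j - 1) false σ c1 c2 f1
      simp only [Bool.false_eq_true, if_false] at g1
      push_cast at g1
      apply fin σ c1 c2 (tl i j true σ c1 c2 hT)
      rcases g0 with ⟨s0, a1, a2, a3⟩ | ⟨s0, a1, a2, a3⟩
      · left
        rcases g1 with ⟨_, b1, b2, b3⟩ | ⟨s1, _⟩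
        · exact ⟨s0, by linarith, by linarith, by linarith⟩
        · omega
      · right
        rcases g1 with ⟨s1, _⟩ | ⟨_, b1, b2, b3⟩
        · omega
        · exact ⟨s0, by linarith, by linarith, by linarith⟩
    · rcases lt_trichotomy (x + y) (i + j + 1) with h | h | h
      · -- in an up cell
        apply fin σ c1 c2 (tl i j true σ c1 c2 hT)
        rcases g0 with ⟨s0, a1, a2, a3⟩ | ⟨s0, a1, a2, a3⟩
        · exact Or.inl ⟨s0, by linarith, by linarith, by linarith⟩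
        · exact Or.inr ⟨s0, by linarith, by linarith, by linarith⟩
      · -- on a diagonal edge
        have f3 : P.tid i j false = (σ, c1, c2) := by
          by_contra hne
          exact hp ⟨i, j, Or.inr (Or.inr ⟨fun h => hne (by rw [← h]; exact hT), h, hx1, hx2.le⟩)⟩
        have g3 := get i j false σ c1 c2 f3
        simp only [Bool.false_eq_true, if_false] at g3
        apply fin σ c1 c2 (tl i j true σ c1 c2 hT)
        rcases g0 with ⟨s0, a1, a2, a3⟩ | ⟨s0, a1, a2, a3⟩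
        · rcases g3 with ⟨_, b1, b2, b3⟩ | ⟨s1, _⟩
          · exact Or.inl ⟨s0, by linarith, by linarith, by linarith⟩
          · omega
        · exact Or.inr ⟨s0, by linarith, by linarith, by linarith⟩
      · -- in a down cell
        obtain ⟨⟨σ', c1', c2'⟩, hT'⟩ : ∃ t, P.tid i j false = t := ⟨_, rfl⟩
        have g3 := get i j false σ' c1' c2' hT'
        simp only [Bool.false_eq_true, if_false] at g3
        apply fin σ' c1' c2' (tl i j false σ' c1' c2' hT')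
        rcases g3 with ⟨s0, a1, a2, a3⟩ | ⟨s0, a1, a2, a3⟩
        · exact Or.inl ⟨s0, by linarith, by linarith, by linarith⟩
        · exact Or.inr ⟨s0, by linarith, by linarith, by linarith⟩

end

end Pool.Agent.LFT.TriPat
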