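import Pool.Agent.LFT.TriPat

/-!
# Triangles without property (S) (MP_9c589f_co): layers cut out of periodic patterns
-/

namespace Pool.Agent.LFT.TriPat

open MeasureTheory Set Filter Topology
open scoped RealInnerProductSpace ENNReal

variable {N : ℕ}

/-- curves in the network are at least as long as predicted by `w`, up to a bounded error. -/
theorem pat_graph [NeZero N] (P : Pat N) (e f w : E) (X Y : E → ℝ) (hX : Continuous X)
    (hY : Continuous Y) (hXY : ∀ p, p = X p • e + Y p • f) (hh : ZMod N → ℝ)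
    (h1 : ∀ i j : ℤ, P.F1 i j →
      |⟪w, e⟫ + hh (P.phi (i + 1) j) - hh (P.phi i j)| ≤ ‖e‖)
    (h2 : ∀ i j : ℤ, P.F2 i j →
      |⟪w, f⟫ + hh (P.phi i (j + 1)) - hh (P.phi i j)| ≤ ‖f‖)
    (h3 : ∀ i j : ℤ, P.F3 i j →
      |⟪w, e⟫ - ⟪w, f⟫ + hh (P.phi (i + 1) j) - hh (P.phi i (j + 1))| ≤ ‖f - e‖) :
    ∃ κ : ℝ, ∀ (γ : ℝ → E) (t1 t2 : ℝ), t1 ≤ t2 → ContinuousOn γ (Icc t1 t2) →
      (∀ t ∈ Icc t1 t2, Net P (X (γ t)) (Y (γ t))) →
      ENNReal.ofReal (⟪w, γ t2 - γ t1⟫ - κ) ≤ eVariationOn γ (Icc t1 t2) := by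
  obtain ⟨B, hB⟩ : ∃ B : ℝ, ∀ r : ZMod N, |hh r| ≤ B := by
    refine ⟨∑ r : ZMod N, |hh r|, fun r => ?_⟩
    exact Finset.single_le_sum (f := fun r => |hh r|) (fun i _ => abs_nonneg _)
      (Finset.mem_univ r)
  set g : ℤ → ℤ → ℝ := fun i j => ⟪w, e⟫ * i + ⟪w, f⟫ * j + hh (P.phi i j) with hg
  refine ⟨2 * B, ?_⟩
  intro γ t1 t2 h12 hγ hG
  let H : ℝ → ℝ := fun t => interp g (X (γ t)) (Y (γ t))
  have hloc : ∀ t ∈ Icc t1 t2, ∃ ε > 0, ∀ s ∈ Icc t1 t2, |s - t| < ε →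
      edist (H s) (H t) ≤ edist (γ s) (γ t) := by
    intro t ht
    obtain ⟨εx, hεx, hlx⟩ := near (X (γ t))
    obtain ⟨εy, hεy, hly⟩ := near (Y (γ t))
    obtain ⟨εz, hεz, hlz⟩ := near (X (γ t) + Y (γ t))
    have hcX : ContinuousWithinAt (fun s => X (γ s)) (Icc t1 t2) t :=
      hX.continuousAt.comp_continuousWithinAt (hγ t ht)
    have hcY : ContinuousWithinAt (fun s => Y (γ s)) (Icc t1 t2) t :=
      hY.continuousAt.comp_continuousWithinAt (hγ t ht)
    rw [Metric.continuousWithinAt_iff] at hcX hcY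
    obtain ⟨ε1, hε1, k1⟩ := hcX (min εx (εz / 2)) (lt_min hεx (by linarith))
    obtain ⟨ε2, hε2, k2⟩ := hcY (min εy (εz / 2)) (lt_min hεy (by linarith))
    refine ⟨min ε1 ε2, lt_min hε1 hε2, ?_⟩
    intro s hs hst
    rw [lt_min_iff] at hst
    have hx : |X (γ s) - X (γ t)| < min εx (εz / 2) := by
      have := k1 hs (by rw [Real.dist_eq]; exact hst.1)
      rwa [Real.dist_eq] at this
    have hy : |Y (γ s) - Y (γ t)| < min εy (εz / 2) := by
      have := k2 hs (by rw [Real.dist_eq]; exact hst.2)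
      rwa [Real.dist_eq] at this
    rw [lt_min_iff] at hx hy
    have hz : |X (γ s) + Y (γ s) - (X (γ t) + Y (γ t))| < εz := by
      have h4 : X (γ s) + Y (γ s) - (X (γ t) + Y (γ t)) =
          (X (γ s) - X (γ t)) + (Y (γ s) - Y (γ t)) := by ring
      rw [h4]
      have := abs_add_le (X (γ s) - X (γ t)) (Y (γ s) - Y (γ t))
      linarith [hx.2, hy.2]
    have hdist : edist (H s) (H t) = ENNReal.ofReal |H s - H t| := by
      rw [edist_dist, Real.dist_eq]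
    rw [hdist, edist_dist, dist_eq_norm]
    apply ENNReal.ofReal_le_ofReal
    have e0 : γ s - γ t = (X (γ s) - X (γ t)) • e + (Y (γ s) - Y (γ t)) • f := by
      conv_lhs => rw [hXY (γ s), hXY (γ t)]
      module
    have nx := hlx (X (γ s)) hx.1
    have ny := hly (Y (γ s)) hy.1
    have nz := hlz (X (γ s) + Y (γ s)) hz
    have hHs : H s = interp g (X (γ s)) (Y (γ s)) := rfl
    have hHt : H t = interp g (X (γ t)) (Y (γ t)) := rfl
    set x := X (γ s)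
    set y := Y (γ s)
    set x0 := X (γ t)
    set y0 := Y (γ t)
    obtain ⟨i, j, ⟨hF, hyj, hx1, hx2⟩ | ⟨hF, hxi, hy1, hy2⟩ | ⟨hF, hxy, hx1, hx2⟩⟩ := hG s hs
    · have hy0 : y0 = j := le_antisymm ((ny j).2 hyj.le) ((ny j).1 hyj.ge)
      have hx01 : (i : ℝ) ≤ x0 := (nx i).1 hx1
      have hx02 : x0 ≤ i + 1 := by
        have := (nx (i + 1)).2 (by push_cast; exact hx2)
        push_cast at this; exact this
      rw [hHs, hHt, interp_E1 g x y i j hyj hx1 hx2, interp_E1 g x0 y0 i j hy0 hx01 hx02]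
      have e1 : g i j + (x - i) * (g (i + 1) j - g i j) -
          (g i j + (x0 - i) * (g (i + 1) j - g i j)) =
          (x - x0) * (⟪w, e⟫ + hh (P.phi (i + 1) j) - hh (P.phi i j)) := by
        simp only [hg]; push_cast; ring
      have hyy : y = y0 := hyj.trans hy0.symm
      have e2 : γ s - γ t = (x - x0) • e := by
        rw [e0, hyy, sub_self, zero_smul, add_zero]
      rw [e1, e2, abs_mul, norm_smul, Real.norm_eq_abs]
      exact mul_le_mul_of_nonneg_left (h1 i j hF) (abs_nonneg _)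
    · have hx0 : x0 = i := le_antisymm ((nx i).2 hxi.le) ((nx i).1 hxi.ge)
      have hy01 : (j : ℝ) ≤ y0 := (ny j).1 hy1
      have hy02 : y0 ≤ j + 1 := by
        have := (ny (j + 1)).2 (by push_cast; exact hy2)
        push_cast at this; exact this
      rw [hHs, hHt, interp_E2 g x y i j hxi hy1 hy2, interp_E2 g x0 y0 i j hx0 hy01 hy02]
      have e1 : g i j + (y - j) * (g i (j + 1) - g i j) -
          (g i j + (y0 - j) * (g i (j + 1) - g i j)) =
          (y - y0) * (⟪w, f⟫ + hh (P.phi i (j + 1)) - hh (P.phi i j)) := by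
        simp only [hg]; push_cast; ring
      have hxx : x = x0 := hxi.trans hx0.symm
      have e2 : γ s - γ t = (y - y0) • f := by
        rw [e0, hxx, sub_self, zero_smul, zero_add]
      rw [e1, e2, abs_mul, norm_smul, Real.norm_eq_abs]
      exact mul_le_mul_of_nonneg_left (h2 i j hF) (abs_nonneg _)
    · have hxy0 : x0 + y0 = i + j + 1 := by
        have a1 := (nz (i + j + 1)).2 (by push_cast; exact hxy.le)
        have a2 := (nz (i + j + 1)).1 (by push_cast; exact hxy.ge)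
        push_cast at a1 a2
        exact le_antisymm a1 a2
      have hx01 : (i : ℝ) ≤ x0 := (nx i).1 hx1
      have hx02 : x0 ≤ i + 1 := by
        have := (nx (i + 1)).2 (by push_cast; exact hx2)
        push_cast at this; exact this
      rw [hHs, hHt, interp_E3 g x y i j hxy hx1 hx2, interp_E3 g x0 y0 i j hxy0 hx01 hx02]
      have e1 : g i (j + 1) + (x - i) * (g (i + 1) j - g i (j + 1)) -
          (g i (j + 1) + (x0 - i) * (g (i + 1) j - g i (j + 1))) =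
          (x - x0) * (⟪w, e⟫ - ⟪w, f⟫ + hh (P.phi (i + 1) j) - hh (P.phi i (j + 1))) := by
        simp only [hg]; push_cast; ring
      have e2 : γ s - γ t = (x - x0) • (e - f) := by
        have : y - y0 = -(x - x0) := by linarith
        rw [e0, this]; module
      rw [e1, e2, abs_mul, norm_smul, Real.norm_eq_abs, norm_sub_rev e f]
      exact mul_le_mul_of_nonneg_left (h3 i j hF) (abs_nonneg _)
  have hmain := Graph.local_to_global γ H t1 t2 h12 hloc
  refine le_trans ?_ hmain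
  rw [edist_dist, Real.dist_eq]
  apply ENNReal.ofReal_le_ofReal
  have hw : ∀ t, ⟪w, γ t⟫ = ⟪w, e⟫ * X (γ t) + ⟪w, f⟫ * Y (γ t) := by
    intro t
    conv_lhs => rw [hXY (γ t)]
    rw [inner_add_right, real_inner_smul_right, real_inner_smul_right]
    ring
  have hb2 := interp_bdd ⟪w, e⟫ ⟪w, f⟫ B (fun i j => hh (P.phi i j)) (fun i j => hB _)
    (X (γ t2)) (Y (γ t2))
  have hb1 := interp_bdd ⟪w, e⟫ ⟪w, f⟫ B (fun i j => hh (P.phi i j)) (fun i j => hB _)
    (X (γ t1)) (Y (γ t1))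
  rw [inner_sub_right, hw, hw]
  have h4 : H t2 - H t1 ≤ |H t2 - H t1| := le_abs_self _
  have h5 := (abs_le.1 hb2).1
  have h6 := (abs_le.1 hb1).2
  have h7 : H t2 = interp (fun i j => ⟪w, e⟫ * i + ⟪w, f⟫ * j + hh (P.phi i j))
    (X (γ t2)) (Y (γ t2)) := rfl
  have h8 : H t1 = interp (fun i j => ⟪w, e⟫ * i + ⟪w, f⟫ * j + hh (P.phi i j))
    (X (γ t1)) (Y (γ t1)) := rfl
  rw [← h7] at h5
  rw [← h8] at h6
  linarith

/-- the layers. -/
theorem pat_layer [NeZero N] (P : Pat N) (hP : P.Valid) (e f w : E)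
    (hef : LinearIndependent ℝ ![e, f]) (hh : ZMod N → ℝ)
    (h1 : ∀ i j : ℤ, P.F1 i j →
      |⟪w, e⟫ + hh (P.phi (i + 1) j) - hh (P.phi i j)| ≤ ‖e‖)
    (h2 : ∀ i j : ℤ, P.F2 i j →
      |⟪w, f⟫ + hh (P.phi i (j + 1)) - hh (P.phi i j)| ≤ ‖f‖)
    (h3 : ∀ i j : ℤ, P.F3 i j →
      |⟪w, e⟫ - ⟪w, f⟫ + hh (P.phi (i + 1) j) - hh (P.phi i (j + 1))| ≤ ‖f - e‖)
    (ρ : ℝ) (hw0 : w ≠ 0) (hρ : ρ < ‖w‖) (hs : 0 ≤ P.s) :
    ∃ (𝒞 : Set (Set E)) (n : E) (d : ℝ), IsLayer 𝒞 n 0 d ∧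
      (∀ K ∈ 𝒞, IsSimilar (Tri 0 e f) K) ∧ ENNReal.ofReal (ρ * d) ≤ crossLen 𝒞 n 0 d := by
  obtain ⟨X, Y, hX, hY, hXY, huniq⟩ := Graph.exists_coord e f hef
  obtain ⟨κ, hκ⟩ := pat_graph P e f w X Y hX hY hXY hh h1 h2 h3
  have hs' : (0 : ℝ) ≤ P.s := by exact_mod_cast hs
  set D := P.s * (‖e‖ + ‖f‖) with hD
  have hD0 : 0 ≤ D := by positivity
  set n : E := (‖w‖)⁻¹ • w with hn
  have hwn : ‖w‖ ≠ 0 := norm_ne_zero_iff.2 hw0
  have hwpos : 0 < ‖w‖ := norm_pos_iff.2 hw0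
  have hn1 : ‖n‖ = 1 := by
    rw [hn, norm_smul, norm_inv, norm_norm, inv_mul_cancel₀ hwn]
  have hwv : ∀ v : E, ⟪w, v⟫ = ‖w‖ * ⟪n, v⟫ := by
    intro v
    rw [hn, real_inner_smul_left, ← mul_assoc, mul_inv_cancel₀ hwn, one_mul]
  obtain ⟨d, hd1, hd2⟩ : ∃ d : ℝ, 2 * D + 1 ≤ d ∧ ρ * d ≤ ‖w‖ * (d - 2 * D) - κ := by
    have hpos : 0 < ‖w‖ - ρ := by linarith
    refine ⟨max (2 * D + 1) ((κ + 2 * D * ‖w‖) / (‖w‖ - ρ)), le_max_left _ _, ?_⟩
    have h := le_max_right (2 * D + 1) ((κ + 2 * D * ‖w‖) / (‖w‖ - ρ))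
    set d := max (2 * D + 1) ((κ + 2 * D * ‖w‖) / (‖w‖ - ρ)) with hd
    rw [div_le_iff₀ hpos] at h
    nlinarith
  set 𝒯 : Set (Set E) := {K | IsT P e f K ∧ ∀ p ∈ K, 0 ≤ ⟪n, p⟫ ∧ ⟪n, p⟫ ≤ 0 + d} with h𝒯
  refine ⟨𝒯, n, d, ?_, ?_, ?_⟩
  · constructor
    · exact hn1
    · linarith
    · rintro K ⟨hK, _⟩
      exact tile_body e f X Y hX hY hXY huniq P K hK
    · rintro K ⟨hK, _⟩ K' ⟨hK', _⟩ hne
      exact tile_disjoint e f X Y hX hY hXY huniq P hP K K' hK hK' hne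
    · rintro K ⟨_, hK⟩ p hp
      exact hK p hp
    · intro R
      refine (tile_locFin e f X Y hX hY hXY huniq P hP R).subset ?_
      rintro K ⟨⟨hK, _⟩, hne⟩
      exact ⟨hK, hne⟩
  · rintro K ⟨hK, _⟩
    exact tile_similar e f P K hK
  · unfold crossLen
    refine le_iInf₂ ?_
    intro γ hγ
    have hg : ContinuousOn (fun t => ⟪n, γ t⟫) (Icc 0 1) := continuousOn_const.inner hγ.cont
    obtain ⟨t1, t2, h01, h12, h21, hg1, hg2, hbt⟩ := Tile.exists_piece (fun t => ⟪n, γ t⟫) hg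
      D (d - D) (by rw [hγ.start]; exact hD0) (by rw [hγ.stop]; linarith) (by linarith)
    have hsub : Icc t1 t2 ⊆ Icc 0 1 := Icc_subset_Icc h01 h21
    have hgr : ∀ t ∈ Icc t1 t2, Net P (X (γ t)) (Y (γ t)) := by
      intro t ht
      by_contra hcon
      obtain ⟨K, hK, hint⟩ := exists_tile e f X Y hX hY hXY huniq P hP (γ t) hcon
      refine hγ.avoid t (hsub ht) K ⟨hK, ?_⟩ hint
      intro p hp
      have hdm := tile_diam e f P hP K hK p (γ t) hp (interior_subset hint)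
      have habs : |⟪n, p - γ t⟫| ≤ D := by
        calc |⟪n, p - γ t⟫| ≤ ‖n‖ * ‖p - γ t‖ := abs_real_inner_le_norm _ _
          _ = ‖p - γ t‖ := by rw [hn1, one_mul]
          _ ≤ D := hdm
      rw [inner_sub_right, abs_le] at habs
      have hb := hbt t ht
      constructor <;> linarith [hb.1, hb.2, habs.1, habs.2]
    have hlen := hκ γ t1 t2 h12 (hγ.cont.mono hsub) hgr
    calc ENNReal.ofReal (ρ * d) ≤ ENNReal.ofReal (⟪w, γ t2 - γ t1⟫ - κ) := by
          apply ENNReal.ofReal_le_ofReal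
          rw [hwv, inner_sub_right]
          rw [hg1, hg2]
          have : d - D - D = d - 2 * D := by ring
          rw [this]
          exact hd2
      _ ≤ eVariationOn γ (Icc t1 t2) := hlen
      _ ≤ eVariationOn γ (Icc 0 1) := eVariationOn.mono γ hsub

end Pool.Agent.LFT.TriPat
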