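import Mathlib

/-!
# Triangles without property (S) (MP_9c589f_co): the level curves, real variable part
-/

namespace Pool.Agent.LFT.TriUp

open Finset

/-- the lower profile of the region above the triangle with base `[m - 1/2, m + 1/2] × {b}`. -/
noncomputable def Vf (m b x : ℝ) : ℝ := max b (b + 2 * |x - m| - 1)

/-- the tent over the triangle. -/
noncomputable def Tf (m b x : ℝ) : ℝ := b + 1 - 2 * |x - m|

theorem key (m b m' b' x : ℝ) (h : b' + 1 ≤ b ∨ 1 - (b - b') / 2 ≤ |m - m'|) :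
    Tf m' b' x ≤ Vf m b x := by
  unfold Tf Vf
  rcases h with h | h
  · refine le_trans ?_ (le_max_left _ _)
    linarith [abs_nonneg (x - m')]
  · have h1 : |m - m'| ≤ |x - m| + |x - m'| := by
      have := abs_sub_le m x m'
      rwa [abs_sub_comm m x] at this
    refine le_trans ?_ (le_max_right _ _)
    linarith

theorem Vf_lip (m b s t : ℝ) : |Vf m b s - Vf m b t| ≤ 2 * |s - t| := by
  unfold Vf
  refine (abs_max_sub_max_le_max _ _ _ _).trans ?_
  rw [sub_self, abs_zero]
  apply max_le (by positivity)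
  have h1 : b + 2 * |s - m| - 1 - (b + 2 * |t - m| - 1) = 2 * (|s - m| - |t - m|) := by ring
  rw [h1, abs_mul, abs_two]
  have h2 := abs_abs_sub_abs_le (s - m) (t - m)
  rw [show s - m - (t - m) = s - t by ring] at h2
  linarith

theorem Tf_lip (m b s t : ℝ) : |Tf m b s - Tf m b t| ≤ 2 * |s - t| := by
  unfold Tf
  have h1 : b + 1 - 2 * |s - m| - (b + 1 - 2 * |t - m|) = -(2 * (|s - m| - |t - m|)) := by ring
  rw [h1, abs_neg, abs_mul, abs_two]
  have h2 := abs_abs_sub_abs_le (s - m) (t - m)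
  rw [show s - m - (t - m) = s - t by ring] at h2
  linarith

theorem fold_max_lip {ι : Type*} (A : Finset ι) (f g : ι → ℝ) (c d M : ℝ) (h0 : |c - d| ≤ M)
    (h : ∀ i ∈ A, |f i - g i| ≤ M) : |A.fold max c f - A.fold max d g| ≤ M := by
  classical
  induction A using Finset.induction_on with
  | empty => simpa using h0
  | insert a A ha ih =>
    rw [fold_insert ha, fold_insert ha]
    refine (abs_max_sub_max_le_max _ _ _ _).trans (max_le (h a (mem_insert_self _ _)) ?_)
    exact ih (fun i hi => h i (mem_insert_of_mem hi))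

theorem fold_min_eq {ι : Type*} (A : Finset ι) (f : ι → ℝ) (y : ℝ) :
    A.fold min y f = y - A.fold max 0 (fun i => y - f i) := by
  classical
  induction A using Finset.induction_on with
  | empty => simp
  | insert a A ha ih =>
    rw [fold_insert ha, fold_insert ha, ih]
    rcases le_total (y - f a) (A.fold max 0 (fun i => y - f i)) with h | h
    · rw [max_eq_right h, min_eq_right (by linarith)]
    · rw [max_eq_left h, min_eq_left (by linarith)]; ring

theorem fold_max_eq {ι : Type*} (A : Finset ι) (f : ι → ℝ) (y : ℝ) :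
    A.fold max y f = y + A.fold max 0 (fun i => f i - y) := by
  classical
  induction A using Finset.induction_on with
  | empty => simp
  | insert a A ha ih =>
    rw [fold_insert ha, fold_insert ha, ih]
    rcases le_total (f a - y) (A.fold max 0 (fun i => f i - y)) with h | h
    · rw [max_eq_right h, max_eq_right (by linarith)]
    · rw [max_eq_left h, max_eq_left (by linarith)]; ring

theorem fold_max_nonneg {ι : Type*} (A : Finset ι) (f : ι → ℝ) : 0 ≤ A.fold max 0 f :=
  (le_fold_max 0).2 (Or.inl le_rfl)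

theorem fold_max_sum {ι : Type*} (A : Finset ι) (f g : ι → ℝ) :
    |A.fold max 0 f - A.fold max 0 g| ≤ ∑ i ∈ A, |max 0 (f i) - max 0 (g i)| := by
  classical
  induction A using Finset.induction_on with
  | empty => simp
  | insert a A ha ih =>
    rw [fold_insert ha, fold_insert ha, sum_insert ha]
    have e1 : max (f a) (A.fold max 0 f) = max (max 0 (f a)) (A.fold max 0 f) := by
      rw [max_comm 0, max_assoc, max_eq_right (fold_max_nonneg A f)]
    have e2 : max (g a) (A.fold max 0 g) = max (max 0 (g a)) (A.fold max 0 g) := by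
      rw [max_comm 0, max_assoc, max_eq_right (fold_max_nonneg A g)]
    rw [e1, e2]
    refine (abs_max_sub_max_le_max _ _ _ _).trans (max_le ?_ ?_)
    · have : 0 ≤ ∑ i ∈ A, |max 0 (f i) - max 0 (g i)| := sum_nonneg (fun i _ => abs_nonneg _)
      linarith
    · linarith [abs_nonneg (max 0 (f a) - max 0 (g a))]

section
variable {ι : Type*} (A B : Finset ι) (m b : ι → ℝ) (y : ℝ)

/-- below the triangles of `A`. -/
noncomputable def phi (x : ℝ) : ℝ := A.fold min y (fun i => Vf (m i) (b i) x)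

/-- the level curve. -/
noncomputable def gam (x : ℝ) : ℝ := B.fold max (phi A m b y x) (fun i => Tf (m i) (b i) x)

/-- the bumps. -/
noncomputable def uA (i : ι) (x : ℝ) : ℝ := max 0 (y - Vf (m i) (b i) x)
noncomputable def uB (i : ι) (x : ℝ) : ℝ := max 0 (Tf (m i) (b i) x - y)

variable (hAB : ∀ i ∈ A, ∀ j ∈ B, ∀ x, Tf (m j) (b j) x ≤ Vf (m i) (b i) x)

theorem phi_eq (x : ℝ) : phi A m b y x = y - A.fold max 0 (fun i => y - Vf (m i) (b i) x) :=
  fold_min_eq A _ y

theorem phi_le (x : ℝ) : phi A m b y x ≤ y := by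
  rw [phi_eq]; linarith [fold_max_nonneg A (fun i => y - Vf (m i) (b i) x)]

theorem phi_le_V (x : ℝ) (i : ι) (hi : i ∈ A) : phi A m b y x ≤ Vf (m i) (b i) x := by
  rw [phi_eq]
  have : y - Vf (m i) (b i) x ≤ A.fold max 0 (fun i => y - Vf (m i) (b i) x) :=
    (le_fold_max _).2 (Or.inr ⟨i, hi, le_rfl⟩)
  linarith

theorem gam_ge_T (x : ℝ) (j : ι) (hj : j ∈ B) : Tf (m j) (b j) x ≤ gam A B m b y x :=
  (le_fold_max _).2 (Or.inr ⟨j, hj, le_rfl⟩)

include hAB in
theorem gam_le_V (x : ℝ) (i : ι) (hi : i ∈ A) : gam A B m b y x ≤ Vf (m i) (b i) x :=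
  (fold_max_le _).2 ⟨phi_le_V A m b y x i hi, fun j hj => hAB i hi j hj x⟩

theorem phi_lip (s t : ℝ) : |phi A m b y s - phi A m b y t| ≤ 2 * |s - t| := by
  rw [phi_eq, phi_eq]
  have h := fold_max_lip A (fun i => y - Vf (m i) (b i) s) (fun i => y - Vf (m i) (b i) t) 0 0
    (2 * |s - t|) (by simp) (fun i _ => by
      have := Vf_lip (m i) (b i) s t
      rw [← abs_neg]
      rwa [show -(y - Vf (m i) (b i) s - (y - Vf (m i) (b i) t)) =
        Vf (m i) (b i) s - Vf (m i) (b i) t by ring])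
  rw [← abs_neg]
  rwa [show -(y - A.fold max 0 (fun i => y - Vf (m i) (b i) s) -
    (y - A.fold max 0 (fun i => y - Vf (m i) (b i) t))) =
    A.fold max 0 (fun i => y - Vf (m i) (b i) s) -
    A.fold max 0 (fun i => y - Vf (m i) (b i) t) by ring]

theorem gam_lip (s t : ℝ) : |gam A B m b y s - gam A B m b y t| ≤ 2 * |s - t| :=
  fold_max_lip B _ _ _ _ _ (phi_lip A m b y s t) (fun i _ => Tf_lip (m i) (b i) s t)

include hAB in
theorem gam_eq (x : ℝ) : gam A B m b y x = y - A.fold max 0 (fun i => y - Vf (m i) (b i) x) +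
    B.fold max 0 (fun i => Tf (m i) (b i) x - y) := by
  by_cases h : ∀ j ∈ B, Tf (m j) (b j) x ≤ y
  · have h1 : B.fold max 0 (fun i => Tf (m i) (b i) x - y) = 0 := by
      apply le_antisymm
      · exact (fold_max_le _).2 ⟨le_rfl, fun j hj => by linarith [h j hj]⟩
      · exact fold_max_nonneg _ _
    rw [h1, add_zero, ← phi_eq]
    apply le_antisymm
    · refine (fold_max_le _).2 ⟨le_rfl, fun j hj => ?_⟩
      rw [phi_eq]
      have : A.fold max 0 (fun i => y - Vf (m i) (b i) x) ≤ y - Tf (m j) (b j) x :=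
        (fold_max_le _).2 ⟨by linarith [h j hj], fun i hi => by linarith [hAB i hi j hj x]⟩
      linarith
    · exact (le_fold_max _).2 (Or.inl le_rfl)
  · push Not at h
    obtain ⟨j, hj, hlt⟩ := h
    have h1 : A.fold max 0 (fun i => y - Vf (m i) (b i) x) = 0 := by
      apply le_antisymm
      · exact (fold_max_le _).2 ⟨le_rfl, fun i hi => by linarith [hAB i hi j hj x]⟩
      · exact fold_max_nonneg _ _
    have h2 : phi A m b y x = y := by rw [phi_eq, h1, sub_zero]
    unfold gam
    rw [h2, h1, sub_zero]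
    exact fold_max_eq B _ y

include hAB in
theorem gam_tv (s t : ℝ) : |gam A B m b y s - gam A B m b y t| ≤
    ∑ i ∈ A, |uA m b y i s - uA m b y i t| + ∑ i ∈ B, |uB m b y i s - uB m b y i t| := by
  rw [gam_eq A B m b y hAB, gam_eq A B m b y hAB]
  have h1 := fold_max_sum A (fun i => y - Vf (m i) (b i) s) (fun i => y - Vf (m i) (b i) t)
  have h2 := fold_max_sum B (fun i => Tf (m i) (b i) s - y) (fun i => Tf (m i) (b i) t - y)
  unfold uA uB
  set p := A.fold max 0 (fun i => y - Vf (m i) (b i) s)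
  set q := A.fold max 0 (fun i => y - Vf (m i) (b i) t)
  set p' := B.fold max 0 (fun i => Tf (m i) (b i) s - y)
  set q' := B.fold max 0 (fun i => Tf (m i) (b i) t - y)
  calc |y - p + p' - (y - q + q')| = |(p' - q') + -(p - q)| := by ring_nf
    _ ≤ |p' - q'| + |-(p - q)| := abs_add_le _ _
    _ = |p' - q'| + |p - q| := by rw [abs_neg]
    _ ≤ _ := by linarith

variable (hA : ∀ i ∈ A, y - 1 / 2 ≤ b i) (hB : ∀ i ∈ B, b i ≤ y - 1 / 2)

include hB in
theorem gam_le (x : ℝ) : gam A B m b y x ≤ y + 1 / 2 := by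
  refine (fold_max_le _).2 ⟨by linarith [phi_le A m b y x], fun j hj => ?_⟩
  unfold Tf
  linarith [hB j hj, abs_nonneg (x - m j)]

include hA in
theorem gam_ge (x : ℝ) : y - 1 / 2 ≤ gam A B m b y x := by
  refine (le_fold_max _).2 (Or.inl ?_)
  rw [phi_eq]
  have : A.fold max 0 (fun i => y - Vf (m i) (b i) x) ≤ 1 / 2 := by
    refine (fold_max_le _).2 ⟨by norm_num, fun i hi => ?_⟩
    have : b i ≤ Vf (m i) (b i) x := le_max_left _ _
    linarith [hA i hi]
  linarith

end

/-- the variation of a bump. -/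
theorem bump (G : ℝ → ℝ) (M m : ℝ) (hG : Antitone G) (h0 : ∀ r, 0 ≤ r → 0 ≤ G r)
    (hM : G 0 ≤ M) (u : ℕ → ℝ) (hu : Monotone u) (n : ℕ) :
    ∑ i ∈ range n, |G (|u (i + 1) - m|) - G (|u i - m|)| ≤ 2 * M := by
  have hsp : ∀ x, G (|x - m|) = G (max (m - x) 0) + G (max (x - m) 0) - G 0 := by
    intro x
    rcases le_total x m with h | h
    · rw [abs_of_nonpos (by linarith), max_eq_left (by linarith : 0 ≤ m - x),
        max_eq_right (by linarith : x - m ≤ 0), neg_sub]
      ring
    · rw [abs_of_nonneg (by linarith), max_eq_right (by linarith : m - x ≤ 0),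
        max_eq_left (by linarith : 0 ≤ x - m)]
      ring
  have hstep : ∀ i, |G (|u (i + 1) - m|) - G (|u i - m|)| ≤
      (G (max (m - u (i + 1)) 0) - G (max (u (i + 1) - m) 0)) -
      (G (max (m - u i) 0) - G (max (u i - m) 0)) := by
    intro i
    have hui : u i ≤ u (i + 1) := hu (Nat.le_succ i)
    have h1 : G (max (m - u i) 0) ≤ G (max (m - u (i + 1)) 0) :=
      hG (max_le_max (by linarith) le_rfl)
    have h2 : G (max (u (i + 1) - m) 0) ≤ G (max (u i - m) 0) :=
      hG (max_le_max (by linarith) le_rfl)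
    rw [hsp, hsp, abs_le]
    constructor <;> linarith
  calc _ ≤ ∑ i ∈ range n, ((G (max (m - u (i + 1)) 0) - G (max (u (i + 1) - m) 0)) -
      (G (max (m - u i) 0) - G (max (u i - m) 0))) := sum_le_sum (fun i _ => hstep i)
    _ = (G (max (m - u n) 0) - G (max (u n - m) 0)) - (G (max (m - u 0) 0) - G (max (u 0 - m) 0)) :=
        sum_range_sub (fun i => G (max (m - u i) 0) - G (max (u i - m) 0)) n
    _ ≤ 2 * M := by
        have h1 : G (max (m - u n) 0) ≤ G 0 := hG (le_max_right _ _)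
        have h2 : G (max (u 0 - m) 0) ≤ G 0 := hG (le_max_right _ _)
        have h3 := h0 _ (le_max_right (u n - m) 0)
        have h4 := h0 _ (le_max_right (m - u 0) 0)
        linarith

/-- the height of the bumps. -/
noncomputable def tau (t : ℝ) : ℝ := max 0 (min t (1 - t))

theorem bumpA (m b y : ℝ) (h : y - 1 / 2 ≤ b) (u : ℕ → ℝ) (hu : Monotone u) (n : ℕ) :
    ∑ i ∈ range n, |max 0 (y - Vf m b (u (i + 1))) - max 0 (y - Vf m b (u i))| ≤
      2 * tau (y - b) := by
  refine bump (fun r => max 0 (y - max b (b + 2 * r - 1))) (tau (y - b)) m ?_ ?_ ?_ u hu n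
  · intro r s hrs
    exact max_le_max le_rfl (by
      have : max b (b + 2 * r - 1) ≤ max b (b + 2 * s - 1) := max_le_max le_rfl (by linarith)
      linarith)
  · intro r _; exact le_max_left _ _
  · change max 0 (y - max b (b + 2 * 0 - 1)) ≤ tau (y - b)
    rw [max_eq_left (by linarith : b + 2 * 0 - 1 ≤ b)]
    unfold tau
    rw [min_eq_left (by linarith)]

theorem bumpB (m b y : ℝ) (h : b ≤ y - 1 / 2) (u : ℕ → ℝ) (hu : Monotone u) (n : ℕ) :
    ∑ i ∈ range n, |max 0 (Tf m b (u (i + 1)) - y) - max 0 (Tf m b (u i) - y)| ≤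
      2 * tau (y - b) := by
  refine bump (fun r => max 0 (b + 1 - 2 * r - y)) (tau (y - b)) m ?_ ?_ ?_ u hu n
  · intro r s hrs
    exact max_le_max le_rfl (by linarith)
  · intro r _; exact le_max_left _ _
  · change max 0 (b + 1 - 2 * 0 - y) ≤ tau (y - b)
    unfold tau
    rw [min_eq_right (by linarith)]
    exact max_le_max le_rfl (by linarith)

/-- total variation of the level curve along a partition. -/
theorem gam_sum {ι : Type*} (A B : Finset ι) (m b : ι → ℝ) (y : ℝ)
    (hAB : ∀ i ∈ A, ∀ j ∈ B, ∀ x, Tf (m j) (b j) x ≤ Vf (m i) (b i) x)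
    (hA : ∀ i ∈ A, y - 1 / 2 ≤ b i) (hB : ∀ i ∈ B, b i ≤ y - 1 / 2)
    (u : ℕ → ℝ) (hu : Monotone u) (n : ℕ) :
    ∑ i ∈ range n, |gam A B m b y (u (i + 1)) - gam A B m b y (u i)| ≤
      2 * (∑ i ∈ A, tau (y - b i) + ∑ i ∈ B, tau (y - b i)) := by
  calc _ ≤ ∑ i ∈ range n, (∑ k ∈ A, |uA m b y k (u (i + 1)) - uA m b y k (u i)| +
        ∑ k ∈ B, |uB m b y k (u (i + 1)) - uB m b y k (u i)|) :=
        sum_le_sum (fun i _ => gam_tv A B m b y hAB _ _)
    _ = ∑ k ∈ A, ∑ i ∈ range n, |uA m b y k (u (i + 1)) - uA m b y k (u i)| +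
        ∑ k ∈ B, ∑ i ∈ range n, |uB m b y k (u (i + 1)) - uB m b y k (u i)| := by
        rw [sum_add_distrib, sum_comm, sum_comm (s := range n) (t := B)]
    _ ≤ ∑ k ∈ A, 2 * tau (y - b k) + ∑ k ∈ B, 2 * tau (y - b k) :=
        add_le_add (sum_le_sum (fun k hk => bumpA (m k) (b k) y (hA k hk) u hu n))
          (sum_le_sum (fun k hk => bumpB (m k) (b k) y (hB k hk) u hu n))
    _ = _ := by rw [← mul_sum, ← mul_sum]; ring

end Pool.Agent.LFT.TriUp
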