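import Pool.Agent.LFT.Defs

/-!
# Module statements for triangles without property (S) (MP_9c589f_co)
-/

namespace Pool.Agent.LFT

open MeasureTheory Set
open scoped RealInnerProductSpace ENNReal

/-- The triangle with vertices `z`, `z + e`, `z + f`. -/
def Tri (z e f : E) : Set E :=
  {p | ∃ s t : ℝ, 0 ≤ s ∧ 0 ≤ t ∧ s + t ≤ 1 ∧ p = z + s • e + t • f}

/-- UP: layers of translates of a triangle are crossed in the direction of the edge `e`, up to a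
bounded error. -/
def Stmt_TriUp : Prop :=
  ∀ (e f n : E), LinearIndependent ℝ ![e, f] → ‖n‖ = 1 → ⟪n, e⟫ ≠ 0 →
    ∃ κ : ℝ, ∀ (𝒯 : Set (Set E)) (a d : ℝ), IsLayer 𝒯 n a d →
      (∀ K ∈ 𝒯, IsTranslate (Tri 0 e f) K) →
      crossLen 𝒯 n a d ≤
        ENNReal.ofReal ((2 * ‖e‖ + ‖f‖ + ‖f - e‖) / (3 * |⟪n, e⟫|) * d + κ)

/-- STACK: a bounded error can be removed, by stacking copies of a layer. -/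
def Stmt_Stack : Prop :=
  ∀ (C : Set E) (n : E) (c κ : ℝ), 0 ≤ c →
    (∀ (𝒯 : Set (Set E)) (a d : ℝ), IsLayer 𝒯 n a d → (∀ K ∈ 𝒯, IsTranslate C K) →
      crossLen 𝒯 n a d ≤ ENNReal.ofReal (c * d + κ)) →
    ∀ (𝒯 : Set (Set E)) (a d : ℝ), IsLayer 𝒯 n a d → (∀ K ∈ 𝒯, IsTranslate C K) →
      crossLen 𝒯 n a d ≤ ENNReal.ofReal (c * d)

/-- GRAPH: in the edge graph of the tiling by sheared rows of the triangles `Tri z e f` and their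
mirror images, curves are at least as long as predicted by the functional `w`, up to a bounded
error.  The point `x • e + y • f` lies on the graph iff `y` is an integer or `x - ⌊y⌋ δ` is an
integer or `x - ⌊y⌋ δ + (y - ⌊y⌋)` is an integer, where `δ = (1 + τ) / 2`. -/
def Stmt_TriGraph : Prop :=
  ∀ (e f w : E) (τ : ℝ), LinearIndependent ℝ ![e, f] → |τ| ≤ 1 →
    |‖f‖ - ‖e‖ * τ| ≤ ‖f - e‖ → ⟪w, e⟫ = ‖e‖ * τ →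
    ⟪w, f⟫ = ‖f‖ + ‖e‖ * (1 - τ ^ 2) / 2 →
    ∃ κ : ℝ, ∀ (γ : ℝ → E) (t1 t2 : ℝ), t1 ≤ t2 → ContinuousOn γ (Icc t1 t2) →
      (∀ t ∈ Icc t1 t2, ∀ x y : ℝ, γ t = x • e + y • f →
        (∃ m : ℤ, y = m) ∨ (∃ m : ℤ, x - ⌊y⌋ * ((1 + τ) / 2) = m) ∨
          (∃ m : ℤ, x - ⌊y⌋ * ((1 + τ) / 2) + (y - ⌊y⌋) = m)) →
      ENNReal.ofReal (⟪w, γ t2 - γ t1⟫ - κ) ≤ eVariationOn γ (Icc t1 t2)

/-- TILE: layers of triangles similar to `Tri 0 e f` whose crossing length is almost `‖w‖ d`. -/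
def Stmt_TriTile : Prop :=
  ∀ (e f w : E) (τ ρ : ℝ), LinearIndependent ℝ ![e, f] → |τ| ≤ 1 →
    |‖f‖ - ‖e‖ * τ| ≤ ‖f - e‖ → ⟪w, e⟫ = ‖e‖ * τ →
    ⟪w, f⟫ = ‖f‖ + ‖e‖ * (1 - τ ^ 2) / 2 → w ≠ 0 → ρ < ‖w‖ →
    ∃ (𝒞 : Set (Set E)) (n : E) (d : ℝ), IsLayer 𝒞 n 0 d ∧
      (∀ K ∈ 𝒞, IsSimilar (Tri 0 e f) K) ∧ ENNReal.ofReal (ρ * d) ≤ crossLen 𝒞 n 0 d

/-- The polynomial of the upper bound: `k`, `i`, `j` are the side lengths. -/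
def FF (k i j : ℝ) : ℝ :=
  (k + i + j) ^ 2 * k ^ 2 + (k ^ 2 - (i - j) ^ 2) * ((k + i + j) * (i + j) + i * j)

/-- The polynomial of the lower bound: `4 A² ‖w‖²` for rows along the side `z`. -/
noncomputable def GG (x y z t : ℝ) : ℝ :=
  z ^ 2 * (x + z * (1 - t ^ 2) / 2) ^ 2 +
    t * z * (x + z * (1 - t ^ 2) / 2) * (z ^ 2 + x ^ 2 - y ^ 2) + t ^ 2 * z ^ 2 * x ^ 2

/-- NEAR: in every direction one of the three edges is good. -/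
def Stmt_TriNear : Prop :=
  ∀ (e f n : E) (ρ : ℝ), LinearIndependent ℝ ![e, f] → ‖n‖ = 1 → 0 < ρ →
    FF ‖e‖ ‖f‖ ‖f - e‖ < 9 * ρ ^ 2 * (‖e‖ ^ 2 * ‖f‖ ^ 2 - ⟪e, f⟫ ^ 2) →
    FF ‖f‖ ‖e‖ ‖f - e‖ < 9 * ρ ^ 2 * (‖e‖ ^ 2 * ‖f‖ ^ 2 - ⟪e, f⟫ ^ 2) →
    FF ‖f - e‖ ‖e‖ ‖f‖ < 9 * ρ ^ 2 * (‖e‖ ^ 2 * ‖f‖ ^ 2 - ⟪e, f⟫ ^ 2) →
    2 * ‖e‖ + ‖f‖ + ‖f - e‖ < 3 * ρ * |⟪n, e⟫| ∨
    2 * ‖f‖ + ‖e‖ + ‖f - e‖ < 3 * ρ * |⟪n, f⟫| ∨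
    2 * ‖f - e‖ + ‖f‖ + ‖e‖ < 3 * ρ * |⟪n, f - e⟫|

end Pool.Agent.LFT
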